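import Pool.Agent.Helper57.Zeta.GammaBd

namespace Pool.Agent.Helper57.LH

open Complex Filter Topology

lemma norm_Gamma_I_sq {y : ℝ} (hy : 0 < y) : 2 * Real.pi / y * Real.exp (-(Real.pi * y)) ≤ ‖Gamma (I * y)‖ ^ 2 := by
  have hy' : (y : ℂ) ≠ 0 := by exact_mod_cast hy.ne'
  have h1 := Complex.Gamma_mul_Gamma_one_sub (-(I * y))
  have h3 : Gamma (I * y + 1) = (I * y) * Gamma (I * y) := by
    apply Complex.Gamma_add_one
    simp [hy.ne']
  rw [show (1:ℂ) - -(I * y) = I * y + 1 by ring, h3] at h1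
  have h2 : Gamma (-(I * y)) = starRingEnd ℂ (Gamma (I * y)) := by
    rw [← Complex.Gamma_conj]
    congr 1
    simp
  have h6 : Complex.sin (Real.pi * -(I * y)) = -(Complex.sinh (Real.pi * y) * I) := by
    rw [show (Real.pi : ℂ) * -(I * y) = -((Real.pi * y) * I) by ring, Complex.sin_neg,
      Complex.sin_mul_I]
  rw [h2, h6] at h1
  have h7 := congrArg norm h1
  rw [norm_mul, norm_mul, norm_mul, norm_div, norm_neg, norm_mul, Complex.norm_I, RCLike.norm_conj,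
    Complex.norm_real, Complex.norm_real] at h7
  have h8 : Complex.sinh (Real.pi * y) = ((Real.sinh (Real.pi * y) : ℝ) : ℂ) := by push_cast; rfl
  rw [h8, Complex.norm_real, Real.norm_of_nonneg hy.le, Real.norm_of_nonneg Real.pi_pos.le] at h7
  have hu : 0 < Real.pi * y := mul_pos Real.pi_pos hy
  have hs : 0 < Real.sinh (Real.pi * y) := Real.sinh_pos_iff.mpr hu
  rw [Real.norm_of_nonneg hs.le] at h7
  have h9 : ‖Gamma (I * y)‖ ^ 2 = Real.pi / (y * Real.sinh (Real.pi * y)) := by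
    rw [eq_div_iff (by positivity)]
    rw [mul_one, one_mul] at h7
    have h10 : Real.sinh (Real.pi * y) ≠ 0 := hs.ne'
    rw [eq_div_iff h10] at h7
    linear_combination h7
  rw [h9, le_div_iff₀ (by positivity), Real.sinh_eq]
  have h10 : Real.exp (-(Real.pi * y)) * Real.exp (Real.pi * y) = 1 := by rw [← Real.exp_add]; simp
  have h11 : 0 < Real.exp (-(Real.pi * y)) := Real.exp_pos _
  have : 2 * Real.pi / y * Real.exp (-(Real.pi * y)) * (y * ((Real.exp (Real.pi * y) - Real.exp (-(Real.pi * y))) / 2))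
    = Real.pi * (Real.exp (-(Real.pi * y)) * Real.exp (Real.pi * y)) - Real.pi * Real.exp (-(Real.pi * y)) ^ 2 := by
    field_simp
  rw [this, h10]
  nlinarith [Real.pi_pos, sq_nonneg (Real.exp (-(Real.pi * y)))]

lemma norm_Gamma_half_sq (y : ℝ) : ‖Gamma (1 / 2 + I * y)‖ ^ 2 = Real.pi / Real.cosh (Real.pi * y) := by
  have h1 := Complex.Gamma_mul_Gamma_one_sub (1 / 2 + I * y)
  have h2 : Gamma (1 - (1 / 2 + I * y)) = starRingEnd ℂ (Gamma (1 / 2 + I * y)) := by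
    rw [← Complex.Gamma_conj]
    congr 1
    simp only [map_add, map_div₀, map_one, map_ofNat, map_mul, Complex.conj_I, Complex.conj_ofReal]
    ring
  have h6 : Complex.sin (Real.pi * (1 / 2 + I * y)) = ((Real.cosh (Real.pi * y) : ℝ) : ℂ) := by
    rw [show (Real.pi : ℂ) * (1 / 2 + I * y) = (Real.pi * y) * I + Real.pi / 2 by ring,
      Complex.sin_add_pi_div_two, Complex.cos_mul_I]
    push_cast; rfl
  rw [h2, h6] at h1
  have h7 := congrArg norm h1
  rw [norm_mul, norm_div, RCLike.norm_conj, Complex.norm_real, Complex.norm_real,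
    Real.norm_of_nonneg Real.pi_pos.le, Real.norm_of_nonneg (Real.cosh_pos _).le] at h7
  rw [sq]; exact h7

lemma norm_Gamma_half_sq_ge {y : ℝ} (hy : 0 ≤ y) :
    Real.pi * Real.exp (-(Real.pi * y)) ≤ ‖Gamma (1 / 2 + I * y)‖ ^ 2 := by
  rw [norm_Gamma_half_sq, le_div_iff₀ (Real.cosh_pos _), mul_assoc]
  have : Real.exp (-(Real.pi * y)) * Real.cosh (Real.pi * y) ≤ 1 := by
    rw [Real.cosh_eq]
    have h10 : Real.exp (-(Real.pi * y)) * Real.exp (Real.pi * y) = 1 := by rw [← Real.exp_add]; simp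
    have h11 : Real.exp (-(Real.pi * y)) ≤ 1 := Real.exp_le_one_iff.mpr (by
      have := Real.pi_pos; nlinarith [mul_nonneg this.le hy])
    have h12 : 0 < Real.exp (-(Real.pi * y)) := Real.exp_pos _
    nlinarith
  nlinarith [Real.pi_pos]

lemma one_sub_sum_le_prod (x : ℕ → ℝ) (h0 : ∀ j, 0 ≤ x j) (h1 : ∀ j, x j ≤ 1) (n : ℕ) :
    1 - ∑ j ∈ Finset.range n, x j ≤ ∏ j ∈ Finset.range n, (1 - x j) ∧
    0 ≤ ∏ j ∈ Finset.range n, (1 - x j) ∧ ∏ j ∈ Finset.range n, (1 - x j) ≤ 1 := by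
  induction n with
  | zero => simp
  | succ n ih =>
    obtain ⟨a, b, c⟩ := ih
    rw [Finset.sum_range_succ, Finset.prod_range_succ]
    have := h0 n
    have := h1 n
    refine ⟨?_, ?_, ?_⟩
    · nlinarith
    · apply mul_nonneg b; linarith
    · nlinarith

lemma sum_inv_sq_le (n : ℕ) : ∑ j ∈ Finset.range n, 1 / ((j:ℝ) + 1) ^ 2 ≤ 2 := by
  have h : ∀ n : ℕ, ∑ j ∈ Finset.range n, 1 / ((j:ℝ) + 1) ^ 2 ≤ 2 * (1 - 1 / (n + 1 : ℝ)) := by
    intro n
    induction n with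
    | zero => simp
    | succ n ih =>
      rw [Finset.sum_range_succ]
      push_cast
      have h2 : 1 / ((n:ℝ) + 1) ^ 2 ≤ 2 * (1 / ((n:ℝ) + 1) - 1 / (n + 1 + 1)) := by
        have e : 2 * (1 / ((n:ℝ) + 1) - 1 / (n + 1 + 1)) = 2 / (((n:ℝ) + 1) * (n + 1 + 1)) := by
          field_simp
          ring
        rw [e, div_le_div_iff₀ (by positivity) (by positivity)]
        have : (0:ℝ) ≤ n := Nat.cast_nonneg n
        nlinarith
      linarith
  have := h n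
  have h2 : (0:ℝ) < 1 / (n + 1) := by positivity
  linarith

lemma GammaSeq_quarter {y : ℝ} (hy : 1 / 2 ≤ y) {n : ℕ} (hn : 0 < n) :
    1 / 2 * (‖Complex.GammaSeq (I * y) n‖ * ‖Complex.GammaSeq (1 / 2 + I * y) n‖)
      ≤ ‖Complex.GammaSeq (1 / 4 + I * y) n‖ ^ 2 := by
  have hn0 : (0:ℝ) < n := by exact_mod_cast hn
  have key : ∀ c : ℝ, ‖Complex.GammaSeq ((c:ℂ) + I * y) n‖ =
      (n:ℝ) ^ c * (n.factorial : ℝ) / ∏ j ∈ Finset.range (n + 1), ‖((c:ℂ) + I * y) + j‖ := by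
    intro c
    unfold Complex.GammaSeq
    rw [norm_div, norm_mul, Finset.prod_congr rfl (fun j _ => rfl), norm_prod]
    congr 2
    · have := Complex.norm_cpow_eq_rpow_re_of_pos hn0 ((c:ℂ) + I * y)
      rw [← Complex.ofReal_natCast, this]
      simp
    · simp
  have k0 := key 0
  have k1 := key (1/2)
  have k2 := key (1/4)
  simp only [Complex.ofReal_zero, zero_add] at k0
  push_cast at k1 k2
  rw [k0, k1, k2]
  have hpos : ∀ c : ℝ, ∀ j : ℕ, 0 < ‖((c:ℂ) + I * y) + j‖ := by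
    intro c j
    rw [norm_pos_iff]
    intro h
    have := congrArg Complex.im h
    simp at this
    linarith
  have hp0 := hpos 0
  have hp1 := hpos (1/2)
  have hp2 := hpos (1/4)
  simp only [Complex.ofReal_zero, zero_add] at hp0
  push_cast at hp1 hp2
  set x : ℕ → ℝ := fun j => 1 / (16 * (((j:ℝ) + 1 / 4) ^ 2 + y ^ 2)) with hx
  have hx0 : ∀ j, 0 ≤ x j := by intro j; rw [hx]; positivity
  have hx1 : ∀ j, x j ≤ 1 / (16 * (1 / 4)) := by
    intro j
    rw [hx]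
    apply one_div_le_one_div_of_le (by norm_num)
    nlinarith [sq_nonneg ((j:ℝ) + 1 / 4)]
  have hfac : ∀ j : ℕ, 1 - x j ≤ ‖I * (y:ℂ) + j‖ * ‖(1 / 2 + I * y : ℂ) + j‖ / ‖(1 / 4 + I * y : ℂ) + j‖ ^ 2 := by
    intro j
    rw [← norm_mul, ← norm_pow, ← norm_div]
    have h4 : ((1 / 4 + I * y : ℂ) + j) ≠ 0 := norm_pos_iff.mp (hp2 j)
    have e : (I * (y:ℂ) + j) * ((1 / 2 + I * y : ℂ) + j) / ((1 / 4 + I * y : ℂ) + j) ^ 2 =
        1 - 1 / (16 * ((1 / 4 + I * y : ℂ) + j) ^ 2) := by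
      rw [show (I * (y:ℂ) + j) = ((1 / 4 + I * y : ℂ) + j) - 1 / 4 by ring,
        show ((1 / 2 + I * y : ℂ) + j) = ((1 / 4 + I * y : ℂ) + j) + 1 / 4 by ring]
      generalize ((1 / 4 + I * y : ℂ) + j) = w at h4 ⊢
      field_simp
      ring
    rw [e]
    have h5 := norm_sub_norm_le (1:ℂ) (1 / (16 * ((1 / 4 + I * y : ℂ) + j) ^ 2))
    rw [norm_one] at h5
    refine le_trans (le_of_eq ?_) h5
    congr 1
    rw [hx]
    simp only [norm_div, norm_one, norm_mul, norm_pow]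
    rw [← Complex.normSq_eq_norm_sq, Complex.normSq_apply]
    simp
    ring
  have hprod : 1 / 2 ≤ ∏ j ∈ Finset.range (n + 1), (‖I * (y:ℂ) + j‖ * ‖(1 / 2 + I * y : ℂ) + j‖ / ‖(1 / 4 + I * y : ℂ) + j‖ ^ 2) := by
    have h6 : ∏ j ∈ Finset.range (n + 1), (1 - x j) ≤ ∏ j ∈ Finset.range (n + 1), (‖I * (y:ℂ) + j‖ * ‖(1 / 2 + I * y : ℂ) + j‖ / ‖(1 / 4 + I * y : ℂ) + j‖ ^ 2) := by
      apply Finset.prod_le_prod
      · intro j _
        have := hx1 j
        norm_num at this ⊢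
        linarith
      · intro j _; exact hfac j
    refine le_trans ?_ h6
    refine le_trans ?_ (one_sub_sum_le_prod x hx0 (fun j => (hx1 j).trans (by norm_num)) (n + 1)).1
    rw [Finset.sum_range_succ']
    have h7 : x 0 ≤ 1 / 4 := (hx1 0).trans (by norm_num)
    have h8 : ∑ j ∈ Finset.range n, x (j + 1) ≤ 1 / 16 * ∑ j ∈ Finset.range n, 1 / ((j:ℝ) + 1) ^ 2 := by
      rw [Finset.mul_sum]
      apply Finset.sum_le_sum
      intro j _
      rw [hx]
      simp only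
      rw [div_mul_div_comm, mul_one]
      apply one_div_le_one_div_of_le (by positivity)
      push_cast
      nlinarith [sq_nonneg y, (Nat.cast_nonneg j : (0:ℝ) ≤ j)]
    have h9 := sum_inv_sq_le n
    linarith
  rw [Finset.prod_div_distrib, Finset.prod_mul_distrib, Finset.prod_pow] at hprod
  have hP0 : 0 < ∏ j ∈ Finset.range (n + 1), ‖I * (y:ℂ) + j‖ := Finset.prod_pos fun j _ => hp0 j
  have hP1 : 0 < ∏ j ∈ Finset.range (n + 1), ‖(1 / 2 + I * y : ℂ) + j‖ := Finset.prod_pos fun j _ => hp1 j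
  have hP2 : 0 < ∏ j ∈ Finset.range (n + 1), ‖(1 / 4 + I * y : ℂ) + j‖ := Finset.prod_pos fun j _ => hp2 j
  rw [le_div_iff₀ (by positivity)] at hprod
  rw [div_pow, div_mul_div_comm, mul_div_assoc', div_le_div_iff₀ (by positivity) (by positivity)]
  have e1 : (n:ℝ) ^ (0:ℝ) * (n.factorial : ℝ) * ((n:ℝ) ^ (1/2 : ℝ) * (n.factorial : ℝ)) =
      ((n:ℝ) ^ (1/4 : ℝ) * (n.factorial : ℝ)) ^ 2 := by
    rw [Real.rpow_zero]
    have : ((n:ℝ) ^ (1/4 : ℝ)) ^ 2 = (n:ℝ) ^ (1/2 : ℝ) := by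
      rw [← Real.rpow_natCast, ← Real.rpow_mul hn0.le]; norm_num
    rw [mul_pow, this]
    ring
  rw [e1]
  have hF : 0 ≤ ((n:ℝ) ^ (1/4 : ℝ) * (n.factorial : ℝ)) ^ 2 := by positivity
  calc 1 / 2 * ((n:ℝ) ^ (1/4 : ℝ) * (n.factorial : ℝ)) ^ 2 * (∏ j ∈ Finset.range (n + 1), ‖(1 / 4 + I * y : ℂ) + j‖) ^ 2
      = ((n:ℝ) ^ (1/4 : ℝ) * (n.factorial : ℝ)) ^ 2 * (1 / 2 * (∏ j ∈ Finset.range (n + 1), ‖(1 / 4 + I * y : ℂ) + j‖) ^ 2) := by ring
    _ ≤ _ := mul_le_mul_of_nonneg_left hprod hF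

/-- sharp lower bound for the Gamma function on the line Re s = 1/4 -/
theorem norm_Gamma_quarter_ge {y : ℝ} (hy : 1 / 2 ≤ y) :
    Real.exp (-(Real.pi * y)) / Real.sqrt y ≤ ‖Gamma (1 / 4 + I * y)‖ ^ 2 := by
  have hy0 : 0 < y := by linarith
  have h1 : 1 / 2 * (‖Gamma (I * y)‖ * ‖Gamma (1 / 2 + I * y)‖) ≤ ‖Gamma (1 / 4 + I * y)‖ ^ 2 := by
    have t0 := (Complex.GammaSeq_tendsto_Gamma (I * y)).norm
    have t1 := (Complex.GammaSeq_tendsto_Gamma (1 / 2 + I * y)).norm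
    have t2 := (Complex.GammaSeq_tendsto_Gamma (1 / 4 + I * y)).norm
    refine le_of_tendsto_of_tendsto ((t0.mul t1).const_mul (1/2)) (t2.pow 2) ?_
    filter_upwards [eventually_gt_atTop 0] with n hn
    exact GammaSeq_quarter hy hn
  refine le_trans ?_ h1
  have h2 := norm_Gamma_I_sq hy0
  have h3 := norm_Gamma_half_sq_ge hy0.le
  have h4 : (2 * (Real.exp (-(Real.pi * y)) / Real.sqrt y)) ^ 2 ≤ (‖Gamma (I * y)‖ * ‖Gamma (1 / 2 + I * y)‖) ^ 2 := by
    rw [mul_pow (‖Gamma (I * y)‖)]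
    have e0 : 0 < Real.exp (-(Real.pi * y)) := Real.exp_pos _
    calc (2 * (Real.exp (-(Real.pi * y)) / Real.sqrt y)) ^ 2
        = (2 / y * Real.exp (-(Real.pi * y))) * (2 * Real.exp (-(Real.pi * y))) := by
          rw [mul_pow, div_pow, Real.sq_sqrt hy0.le]; ring
      _ ≤ (2 * Real.pi / y * Real.exp (-(Real.pi * y))) * (Real.pi * Real.exp (-(Real.pi * y))) := by
          have := Real.pi_gt_three
          gcongr
          · linarith
          · linarith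
      _ ≤ _ := by gcongr
  have h5 := (pow_le_pow_iff_left₀ (by positivity) (by positivity) two_ne_zero).mp h4
  linarith

end Pool.Agent.Helper57.LH
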