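import Pool.Agent.Helper57.Zeta.Rvm

namespace Pool.Agent.Helper57.LH

open Complex Set MeasureTheory Filter Topology
open Pool.Agent.Helper57.Zeta

/-- the entire function (s-1)ζ(s) (in the right half plane) -/
noncomputable def Zt (s : ℂ) : ℂ := xi s * ((Real.pi : ℂ) ^ (s / 2) * (Gamma (1 + s / 2))⁻¹ / 2)

lemma differentiable_Zt : Differentiable ℂ Zt := by
  unfold Zt
  have h1 : Differentiable ℂ (fun s : ℂ => (Real.pi : ℂ) ^ (s / 2)) := by
    intro s
    exact (differentiableAt_id.div_const 2).const_cpow (Or.inl (by exact_mod_cast Real.pi_ne_zero))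
  have h2 : Differentiable ℂ (fun s : ℂ => (Gamma (1 + s / 2))⁻¹) :=
    Complex.differentiable_one_div_Gamma.comp (by fun_prop)
  exact differentiable_xi.mul ((h1.mul h2).div_const 2)

lemma Zt_eq {s : ℂ} (h0 : 0 < s.re) (h1 : s ≠ 1) : Zt s = (s - 1) * riemannZeta s := by
  unfold Zt
  rw [xi_eq_zeta h0 h1, Gammaℝ_def, add_comm (1:ℂ), Complex.Gamma_add_one (s / 2) (by
    intro h; rw [div_eq_zero_iff] at h; rcases h with h | h
    · rw [h] at h0; simp at h0
    · norm_num at h)]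
  have hG : Gamma (s / 2) ≠ 0 := Complex.Gamma_ne_zero_of_re_pos (by
    rw [show s / 2 = ((1/2 : ℝ) : ℂ) * s by push_cast; ring, Complex.re_ofReal_mul]; linarith)
  have hs0 : s ≠ 0 := by rintro rfl; simp at h0
  have hpi : (Real.pi : ℂ) ≠ 0 := by exact_mod_cast Real.pi_ne_zero
  have e : (Real.pi : ℂ) ^ (-s / 2) * (Real.pi : ℂ) ^ (s / 2) = 1 := by
    rw [← Complex.cpow_add _ _ hpi]
    rw [show -s / 2 + s / 2 = 0 by ring, Complex.cpow_zero]
  calc s * (s - 1) * ((Real.pi : ℂ) ^ (-s / 2) * Gamma (s / 2) * riemannZeta s) *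
      ((Real.pi : ℂ) ^ (s / 2) * (s / 2 * Gamma (s / 2))⁻¹ / 2)
      = (s - 1) * riemannZeta s * ((Real.pi : ℂ) ^ (-s / 2) * (Real.pi : ℂ) ^ (s / 2)) * (s * Gamma (s / 2) * (s / 2 * Gamma (s / 2))⁻¹ / 2) := by ring
    _ = (s - 1) * riemannZeta s * 1 * 1 := by
        rw [e]
        congr 1
        field_simp
    _ = _ := by ring

/-- the remainder integral -/
noncomputable def Jf1 (s : ℂ) : ℂ := ∫ t in Ioi (1:ℝ), ((Int.fract t : ℝ) : ℂ) * (t:ℂ) ^ (-(s + 1))

lemma norm_fr (s : ℂ) {t : ℝ} (ht : 1 < t) : ‖((Int.fract t : ℝ) : ℂ) * (t:ℂ) ^ (-(s + 1))‖ ≤ t ^ (-(s.re + 1)) := by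
  rw [norm_mul, Complex.norm_cpow_eq_rpow_re_of_pos (by linarith), Complex.norm_real,
    Real.norm_of_nonneg (Int.fract_nonneg t)]
  have h1 := (Int.fract_lt_one t).le
  have h2 : 0 ≤ t ^ ((-(s + 1)).re) := Real.rpow_nonneg (by linarith) _
  have e : (-(s + 1)).re = -(s.re + 1) := by simp
  rw [e] at h2 ⊢
  calc Int.fract t * t ^ (-(s.re + 1)) ≤ 1 * t ^ (-(s.re + 1)) := by gcongr
    _ = _ := one_mul _

lemma aesm_fr (s : ℂ) : AEStronglyMeasurable (fun t : ℝ => ((Int.fract t : ℝ) : ℂ) * (t:ℂ) ^ (-(s + 1))) (volume.restrict (Ioi 1)) := by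
  apply AEStronglyMeasurable.mul
  · apply Measurable.aestronglyMeasurable
    exact Complex.measurable_ofReal.comp measurable_fract
  · apply ContinuousOn.aestronglyMeasurable _ measurableSet_Ioi
    intro x hx
    have hx1 : (1:ℝ) < x := hx
    exact (Complex.continuousAt_ofReal_cpow_const _ _ (Or.inr (by linarith))).continuousWithinAt

lemma integrableOn_fr {s : ℂ} (hs : 0 < s.re) :
    IntegrableOn (fun t : ℝ => ((Int.fract t : ℝ) : ℂ) * (t:ℂ) ^ (-(s + 1))) (Ioi 1) := by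
  refine (integrableOn_Ioi_rpow_of_lt (a := -(s.re + 1)) (by linarith) one_pos).mono' (aesm_fr s) ?_
  filter_upwards [ae_restrict_mem measurableSet_Ioi] with t ht
  exact norm_fr s ht

lemma norm_Jf1_le {s : ℂ} (hs : 0 < s.re) : ‖Jf1 s‖ ≤ 1 / s.re := by
  unfold Jf1
  refine (norm_integral_le_of_norm_le (integrableOn_Ioi_rpow_of_lt (a := -(s.re + 1)) (by linarith) one_pos) (by
    filter_upwards [ae_restrict_mem measurableSet_Ioi] with t ht
    exact norm_fr s ht)).trans ?_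
  rw [integral_Ioi_rpow_of_lt (by linarith) one_pos]
  rw [Real.one_rpow, show -(s.re + 1) + 1 = -s.re by ring, neg_div_neg_eq]

lemma differentiableOn_Jf1 : DifferentiableOn ℂ Jf1 {s | 0 < s.re} := by
  intro s0 hs0
  have hs0' : 0 < s0.re := hs0
  apply DifferentiableAt.differentiableWithinAt
  have key := hasDerivAt_integral_of_dominated_loc_of_deriv_le (μ := volume.restrict (Ioi (1:ℝ)))
      (F := fun s (t:ℝ) => ((Int.fract t : ℝ) : ℂ) * (t:ℂ) ^ (-(s + 1)))
      (F' := fun s (t:ℝ) => ((Int.fract t : ℝ) : ℂ) * ((t:ℂ) ^ (-(s + 1)) * Complex.log t * (-1)))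
      (x₀ := s0) (s := Metric.ball s0 (s0.re / 2))
      (bound := fun t : ℝ => t ^ (-(s0.re / 2 + 1)) * Real.log t)
      (Metric.ball_mem_nhds _ (by linarith)) ?_ ?_ ?_ ?_ ?_ ?_
  · exact key.2.differentiableAt
  · exact Eventually.of_forall fun s => aesm_fr s
  · exact integrableOn_fr hs0'
  · have e : (fun t : ℝ => ((Int.fract t : ℝ) : ℂ) * ((t:ℂ) ^ (-(s0 + 1)) * Complex.log t * (-1))) =
        fun t : ℝ => (((Int.fract t : ℝ) : ℂ) * (t:ℂ) ^ (-(s0 + 1))) * (-Complex.log t) := by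
      funext t; ring
    rw [e]
    apply (aesm_fr s0).mul
    apply ContinuousOn.aestronglyMeasurable _ measurableSet_Ioi
    intro x hx
    have hx1 : (1:ℝ) < x := hx
    apply ContinuousAt.continuousWithinAt
    apply ContinuousAt.neg
    apply ContinuousAt.clog
    · fun_prop
    · left; simp; linarith
  · filter_upwards [ae_restrict_mem measurableSet_Ioi] with t ht s hs
    have ht1 : (1:ℝ) < t := ht
    rw [← mul_assoc, ← mul_assoc, norm_mul, norm_mul, norm_neg, norm_one, mul_one]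
    have h1 := norm_fr s ht1
    have h2 : ‖Complex.log t‖ = Real.log t := by
      rw [← Complex.ofReal_log (by linarith), Complex.norm_real, Real.norm_of_nonneg (Real.log_nonneg ht1.le)]
    rw [h2]
    have h3 : t ^ (-(s.re + 1)) ≤ t ^ (-(s0.re / 2 + 1)) := by
      apply Real.rpow_le_rpow_of_exponent_le ht1.le
      rw [Metric.mem_ball, dist_eq_norm] at hs
      have := (Complex.abs_re_le_norm (s - s0)).trans hs.le
      rw [Complex.sub_re, abs_le] at this
      linarith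
    have h4 : 0 ≤ Real.log t := Real.log_nonneg ht1.le
    gcongr
    exact h1.trans h3
  · have hi : IntegrableOn (fun t : ℝ => (4 / s0.re) * t ^ (-(s0.re / 4 + 1))) (Ioi 1) :=
      (integrableOn_Ioi_rpow_of_lt (by linarith) one_pos).const_mul _
    refine hi.mono' ?_ ?_
    · apply ContinuousOn.aestronglyMeasurable _ measurableSet_Ioi
      intro x hx
      have hx1 : (1:ℝ) < x := hx
      apply ContinuousAt.continuousWithinAt
      apply ContinuousAt.mul
      · exact Real.continuousAt_rpow_const _ _ (Or.inl (by linarith))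
      · exact Real.continuousAt_log (by linarith)
    · filter_upwards [ae_restrict_mem measurableSet_Ioi] with t ht
      have ht1 : (1:ℝ) < t := ht
      have h4 : 0 ≤ Real.log t := Real.log_nonneg ht1.le
      have h5 : 0 ≤ t ^ (-(s0.re / 2 + 1)) := Real.rpow_nonneg (by linarith) _
      rw [Real.norm_of_nonneg (by positivity)]
      have h6 : Real.log t ≤ t ^ (s0.re / 4) / (s0.re / 4) := Real.log_le_rpow_div (by linarith) (by linarith)
      calc t ^ (-(s0.re / 2 + 1)) * Real.log t ≤ t ^ (-(s0.re / 2 + 1)) * (t ^ (s0.re / 4) / (s0.re / 4)) := by gcongr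
        _ = (4 / s0.re) * (t ^ (-(s0.re / 2 + 1)) * t ^ (s0.re / 4)) := by field_simp
        _ = _ := by
            rw [← Real.rpow_add (by linarith)]
            congr 2
            ring
  · filter_upwards [ae_restrict_mem measurableSet_Ioi] with t ht s hs
    have ht1 : (1:ℝ) < t := ht
    have ht0 : (t:ℂ) ≠ 0 := by
      have : t ≠ 0 := by linarith
      exact_mod_cast this
    apply HasDerivAt.const_mul
    have h1 : HasDerivAt (fun s : ℂ => -(s + 1)) (-1) s := by
      have := ((hasDerivAt_id s).add_const 1).fun_neg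
      exact this
    exact h1.const_cpow (Or.inl ht0)

lemma zeta_eq_J {s : ℂ} (hs : 1 < s.re) : riemannZeta s = s / (s - 1) - s * Jf1 s := by
  have h1 := LSeries_eq_mul_integral (1 : ℕ → ℂ) (r := 1) zero_le_one (s := s) hs
    (LSeriesHasSum_one hs).LSeriesSummable (by
      apply Asymptotics.IsBigO.of_bound 1
      filter_upwards with n
      simp)
  rw [LSeries_one_eq_riemannZeta hs] at h1
  rw [h1]
  have hs0 : s ≠ 0 := by rintro rfl; simp at hs; linarith
  have hs1 : s - 1 ≠ 0 := by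
    intro h
    have := congrArg Complex.re h
    simp at this
    linarith
  have e1 : ∫ t in Ioi (1:ℝ), (∑ k ∈ Finset.Icc 1 ⌊t⌋₊, (1 : ℕ → ℂ) k) * (t:ℂ) ^ (-(s + 1)) =
      ∫ t in Ioi (1:ℝ), ((t:ℂ) ^ (-s) - ((Int.fract t : ℝ) : ℂ) * (t:ℂ) ^ (-(s + 1))) := by
    refine setIntegral_congr_fun measurableSet_Ioi (fun t ht => ?_)
    have ht1 : (1:ℝ) < t := ht
    have ht0 : (t:ℂ) ≠ 0 := by
      have : t ≠ 0 := by linarith
      exact_mod_cast this
    simp only [Pi.one_apply, Finset.sum_const, Nat.card_Icc, nsmul_eq_mul, mul_one, Nat.add_sub_cancel]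
    have e2 : ((⌊t⌋₊ : ℕ) : ℂ) = (t:ℂ) - ((Int.fract t : ℝ) : ℂ) := by
      have h3 : ((⌊t⌋₊ : ℕ) : ℝ) = t - Int.fract t := by
        rw [Int.self_sub_fract, natCast_floor_eq_intCast_floor (by linarith)]
      have h4 : ((⌊t⌋₊ : ℕ) : ℂ) = (((⌊t⌋₊ : ℕ) : ℝ) : ℂ) := by push_cast; rfl
      rw [h4, h3]; push_cast; ring
    rw [e2, sub_mul]
    congr 1
    rw [show -s = 1 + -(s + 1) by ring, Complex.cpow_add _ _ ht0, Complex.cpow_one]
  rw [e1, integral_sub (integrableOn_Ioi_cpow_of_lt (by simp; linarith) one_pos) (integrableOn_fr (by linarith)),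
    integral_Ioi_cpow_of_lt (by simp; linarith) one_pos]
  unfold Jf1
  simp only [Complex.ofReal_one, Complex.one_cpow]
  rw [show -s + 1 = -(s - 1) by ring, neg_div_neg_eq]
  ring

lemma Zt_eq_J {s : ℂ} (hs : 0 < s.re) : Zt s = s - s * (s - 1) * Jf1 s := by
  have hU : IsOpen {s : ℂ | 0 < s.re} := isOpen_lt continuous_const Complex.continuous_re
  have hUc : IsPreconnected {s : ℂ | 0 < s.re} := (convex_halfSpace_re_gt 0).isPreconnected
  have hf : AnalyticOnNhd ℂ Zt {s | 0 < s.re} := differentiable_Zt.differentiableOn.analyticOnNhd hU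
  have hg : AnalyticOnNhd ℂ (fun s => s - s * (s - 1) * Jf1 s) {s | 0 < s.re} := by
    apply DifferentiableOn.analyticOnNhd _ hU
    have := differentiableOn_Jf1
    fun_prop
  have hev : Zt =ᶠ[𝓝 2] (fun s => s - s * (s - 1) * Jf1 s) := by
    have : ∀ᶠ s : ℂ in 𝓝 2, 1 < s.re := by
      refine (isOpen_lt continuous_const Complex.continuous_re).mem_nhds ?_
      simp only [mem_ofPred_eq]
      norm_num
    filter_upwards [this] with s hs
    have hs1 : s ≠ 1 := by rintro rfl; simp at hs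
    have hs2 : s - 1 ≠ 0 := sub_ne_zero.mpr hs1
    rw [Zt_eq (by linarith) hs1, zeta_eq_J hs]
    field_simp
  exact hf.eqOn_of_preconnected_of_eventuallyEq hg hUc (by simp) hev hs

/-- polynomial growth -/
theorem norm_Zt_le {s : ℂ} (hs : 1 / 4 ≤ s.re) : ‖Zt s‖ ≤ 5 * (1 + ‖s‖) ^ 2 := by
  have hs0 : 0 < s.re := by linarith
  rw [Zt_eq_J hs0]
  have h1 := norm_Jf1_le hs0
  have h2 : 1 / s.re ≤ 4 := by
    rw [div_le_iff₀ hs0]; linarith
  have h3 : ‖s - 1‖ ≤ ‖s‖ + 1 := by
    have := norm_sub_le s 1; simpa using this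
  calc ‖s - s * (s - 1) * Jf1 s‖ ≤ ‖s‖ + ‖s * (s - 1) * Jf1 s‖ := norm_sub_le _ _
    _ = ‖s‖ + ‖s‖ * ‖s - 1‖ * ‖Jf1 s‖ := by rw [norm_mul, norm_mul]
    _ ≤ ‖s‖ + ‖s‖ * (‖s‖ + 1) * 4 := by gcongr; linarith
    _ ≤ _ := by nlinarith [norm_nonneg s]

end Pool.Agent.Helper57.LH
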