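import Pool.Agent.Helper57.LH.VTwo

namespace Pool.Agent.Helper57.LH

open Set MeasureTheory Filter Topology
open Pool.Agent.Helper57.Zeta
open Pool.Agent.Helper57.PC (mult IsNontrivialZero zerosUpTo)

lemma log_pow_le (c : ℝ) (k : ℕ) {s : ℝ} (hs : s < 1) : ∀ᶠ T : ℝ in atTop, c * Real.log T ^ k * T ^ s ≤ T := by
  have h := isLittleO_log_rpow_rpow_atTop (k:ℝ) (s := 1 - s) (by linarith)
  have hc : 0 < |c| + 1 := by positivity
  have h2 := h.bound (c := 1 / (|c| + 1)) (by positivity)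
  filter_upwards [h2, eventually_gt_atTop (0:ℝ)] with T hT hT0
  rw [Real.rpow_natCast, Real.norm_of_nonneg (Real.rpow_nonneg hT0.le _), Real.norm_eq_abs] at hT
  have hTs : 0 < T ^ s := Real.rpow_pos_of_pos hT0 _
  have hTs' : 0 < T ^ (1 - s) := Real.rpow_pos_of_pos hT0 _
  have e : T ^ (1 - s) * T ^ s = T := by
    rw [← Real.rpow_add hT0]; simp
  have h3 : c * Real.log T ^ k ≤ T ^ (1 - s) := by
    calc c * Real.log T ^ k ≤ |c * Real.log T ^ k| := le_abs_self _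
      _ = |c| * |Real.log T ^ k| := abs_mul _ _
      _ ≤ (|c| + 1) * (1 / (|c| + 1) * T ^ (1 - s)) := by
          gcongr
          linarith
      _ = _ := by field_simp
  calc c * Real.log T ^ k * T ^ s ≤ T ^ (1 - s) * T ^ s := by gcongr
    _ = T := e

open Classical in
/-- zeros with ordinate in [0,T], as a finset of the subtype -/
noncomputable def ZT (T : ℝ) : Finset ZS := (Zf T).subtype (fun ρ => xi ρ = 0)

lemma mem_ZT {T : ℝ} {ρ : ZS} : ρ ∈ ZT T ↔ 0 ≤ (ρ:ℂ).im ∧ (ρ:ℂ).im ≤ T := by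
  unfold ZT
  rw [Finset.mem_subtype, mem_Zf, isNontrivialZero_iff]
  constructor
  · exact fun h => h.2
  · exact fun h => ⟨ρ.2, h⟩

lemma sum_ZT (T : ℝ) (f : ℂ → ℝ) : ∑ ρ ∈ ZT T, f ρ = ∑ ρ ∈ Zf T, f ρ := by
  classical
  unfold ZT
  apply Finset.sum_subtype_of_mem
  intro ρ hρ
  rw [mem_Zf] at hρ
  exact isNontrivialZero_iff.mp hρ.1

lemma sum_ZT_mx (T : ℝ) : ∑ ρ ∈ ZT T, mx ρ = NT T := by
  rw [sum_ZT T (fun ρ => mx ρ)]
  unfold NT
  refine Finset.sum_congr rfl fun ρ hρ => ?_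
  rw [mem_Zf] at hρ
  rw [mult_eq hρ.1]
  rfl

lemma NT_le_ev : ∀ᶠ T : ℝ in atTop, NT T ≤ T * Real.log T := by
  obtain ⟨T₀, h⟩ := NT_upper 1 one_pos
  filter_upwards [eventually_ge_atTop T₀, eventually_ge_atTop 3] with T hT hT3
  have h1 := h T hT
  have hL := one_le_log hT3
  have hpi := Real.pi_gt_three
  have h2 : (1 + 1) * (T * Real.log T / (2 * Real.pi)) = T * Real.log T / Real.pi := by ring
  have h3 : T * Real.log T / Real.pi ≤ T * Real.log T := by
    apply div_le_self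
    · positivity
    · linarith
  linarith

/-- The error function of the main term. -/
noncomputable def ee (B L : ℝ) : ℝ := B * (CM + 3 * Real.log L) / L

lemma CM_pos : 0 < CM := by unfold CM; positivity

lemma ee_small {B : ℝ} (hB : 0 < B) : ∀ᶠ T : ℝ in atTop, ee B (Real.log T) ≤ 1 / B := by
  have hl := Real.tendsto_log_atTop
  filter_upwards [hl.eventually_ge_atTop (2 * B ^ 2 * CM), hl.eventually_ge_atTop ((12 * B ^ 2) ^ 2), hl.eventually_ge_atTop 1] with T h1 h2 h3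
  set L := Real.log T
  have hL0 : 0 < L := by linarith
  unfold ee
  have h4 := log_le_two_sqrt hL0
  have h5 : 12 * B ^ 2 ≤ Real.sqrt L := by
    rw [← Real.sqrt_sq (by positivity : (0:ℝ) ≤ 12 * B ^ 2)]
    exact Real.sqrt_le_sqrt h2
  have h6 : Real.sqrt L * Real.sqrt L = L := Real.mul_self_sqrt hL0.le
  have h7 : 12 * B ^ 2 * Real.sqrt L ≤ L := by
    nlinarith [Real.sqrt_nonneg L]
  rw [div_le_div_iff₀ hL0 hB]
  have h8 : B * (CM + 3 * Real.log L) * B ≤ B ^ 2 * CM + B ^ 2 * (6 * Real.sqrt L) := by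
    have : 0 < B ^ 2 := by positivity
    nlinarith
  linarith

lemma ee_bound {T B L X t : ℝ} (hL : L = Real.log T) (hL40 : 40 ≤ L) (hB : 9600 ≤ B) (hX : X = L / B) (hX1 : 1 ≤ X)
    (hT : 1 ≤ T) (haT2 : Real.sqrt T ≤ T / L ^ 3) (ht : t ∈ Icc (T / L ^ 3) T) : |MT X t / X - B| ≤ ee B L := by
  have hL0 : 0 < L := by linarith
  have hB0 : 0 < B := by linarith
  have hX0 : 0 < X := by linarith
  have hT0 : 0 < T := by linarith
  have hs1 : 1 ≤ Real.sqrt T := by rw [Real.one_le_sqrt]; exact hT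
  obtain ⟨h1, h2⟩ := ht
  have ht1 : 1 ≤ t := by linarith
  have hXt : Real.exp (X / 2) ≤ t ^ 2 := by
    have h3 : Real.exp (X / 2) ≤ T := by
      rw [← Real.exp_log hT0, ← hL]
      apply Real.exp_le_exp.mpr
      rw [hX]
      have : L / B ≤ L := div_le_self hL0.le (by linarith)
      linarith
    have h4 : T ≤ t ^ 2 := by
      have h5 : Real.sqrt T ≤ t := haT2.trans h1
      calc T = Real.sqrt T ^ 2 := (Real.sq_sqrt hT0.le).symm
        _ ≤ t ^ 2 := by gcongr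
    exact h3.trans h4
  have h3 := MT_bound hX1 ht1 hXt
  have h4 : Real.log t ≤ L := by rw [hL]; exact Real.log_le_log (by linarith) h2
  have h5 : L - 3 * Real.log L ≤ Real.log t := by
    have h6 : Real.log (T / L ^ 3) = L - 3 * Real.log L := by
      rw [Real.log_div hT0.ne' (by positivity), Real.log_pow, ← hL]
      norm_num
    rw [← h6]
    exact Real.log_le_log (by positivity) h1
  have h6 : |MT X t - L| ≤ CM + 3 * Real.log L := by
    rw [abs_le] at h3 ⊢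
    constructor
    · linarith [h3.1]
    · have : 0 ≤ Real.log L := Real.log_nonneg (by linarith)
      linarith [h3.2]
  have h7 : MT X t / X - B = (MT X t - L) / X := by
    rw [hX]; field_simp
  rw [h7, abs_div, abs_of_pos hX0]
  unfold ee
  rw [hX]
  calc |MT (L / B) t - L| / (L / B) = B * |MT (L / B) t - L| / L := by field_simp
    _ ≤ _ := by
        rw [← hX]
        gcongr

/-- The second moment of the Fejer sum over zeros. -/
theorem YT_sq : ∃ C : ℝ, 0 < C ∧ ∀ B : ℝ, 9600 ≤ B → ∀ᶠ T : ℝ in atTop,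
    ∫ t, Yf (ZT T) (Real.log T / B) t ^ 2 ≤ T * (B ^ 2 + C) := by
  obtain ⟨CQ, hCQ, T0, hT0, hQ⟩ := Qbound
  set K : ℝ := 1152 * Real.pi ^ 2 * CQ + 1 with hK
  have hK0 : 0 < K := by rw [hK]; positivity
  refine ⟨32 + 2 * Real.sqrt K + 3 * K, by positivity, fun B hB => ?_⟩
  have hB0 : 0 < B := by linarith
  have hl := Real.tendsto_log_atTop
  have hCLA := CLA_pos
  have hC1 := C1_nonneg
  have hCA := CA_nonneg
  have hB1 : 1 / B < 1 / 4 := by
    apply one_div_lt_one_div_of_lt <;> linarith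
  have hB3 : 3 / B < 1 := by
    rw [div_lt_one hB0]; linarith
  filter_upwards [eventually_ge_atTop T0, eventually_ge_atTop (400:ℝ), hl.eventually_ge_atTop 40, hl.eventually_ge_atTop B,
    log_pow_le 1 3 (s := 1/2) (by norm_num), ee_small hB0, log_pow_le (24 * B) 0 (s := 1/B) (by linarith),
    log_pow_le 96 0 (s := 3/B) hB3, log_pow_le (B ^ 2 * (1152 * (40 * CA * C1) ^ 2 / (16 * B ^ 4))) 6 (s := 1/B + 3/4) (by linarith),
    NT_le_ev, hl.eventually_ge_atTop (1600 * CLA ^ 2), log_pow_le (3200 * CLA ^ 2) 2 (s := 1/2) (by norm_num),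
    log_pow_le (1600 * CLA * C1) 2 (s := 5/8) (by norm_num)] with T g1 g2 g3 g4 g5 g6 g7 g8 g9 g10 g11 g12 g13
  have hT0' : 0 < T := by linarith
  have e7 : Real.exp (Real.log T / B) = T ^ (1 / B) := by
    rw [Real.rpow_def_of_pos hT0']; congr 1; ring
  have e8 : Real.exp (3 * (Real.log T / B)) = T ^ (3 / B) := by
    rw [Real.rpow_def_of_pos hT0']; congr 1; ring
  obtain ⟨L, hL⟩ : ∃ L, L = Real.log T := ⟨_, rfl⟩
  obtain ⟨X, hX⟩ : ∃ X, X = L / B := ⟨_, rfl⟩
  rw [← hL, ← hX] at e7 e8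
  rw [← hL] at g3 g4 g5 g6 g7 g8 g9 g10 g11 g12 g13 ⊢
  rw [← hX]
  have hL0 : 0 < L := by linarith
  have hX1 : 1 ≤ X := by rw [hX, le_div_iff₀ hB0]; linarith
  have hX0 : 0 < X := by linarith
  have hsT : Real.sqrt T = T ^ (1/2 : ℝ) := Real.sqrt_eq_rpow T
  have hsT20 : 20 ≤ Real.sqrt T := by
    rw [Real.le_sqrt (by norm_num) hT0'.le]
    linarith
  have haT2 : Real.sqrt T ≤ T / L ^ 3 := by
    rw [le_div_iff₀ (by positivity), hsT]
    linarith
  have ha20 : 20 ≤ T / L ^ 3 := hsT20.trans haT2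
  have haT : T / L ^ 3 ≤ T := by
    apply div_le_self hT0'.le
    have : (1:ℝ) ≤ L := by linarith
    exact one_le_pow₀ this
  obtain ⟨Ψ, hΨc, hΨ0, hΨi, hΨd⟩ := hQ T g1 B hB
  have hdom : DomPsi T B Ψ := hΨd
  have hZT : ∀ ρ ∈ ZT T, 0 ≤ (ρ:ℂ).im ∧ (ρ:ℂ).im ≤ T := fun ρ hρ => mem_ZT.mp hρ
  have hRB := RB_sq (T := T) (L := L) (B := B) (X := X) (a := T / L ^ 3) (C := CQ) hL0 hB0 hX (by linarith) haT haT2 hΨc hΨ0 hΨi
  -- W
  have hDC : 1152 * L ^ 2 * DC B L ^ 2 * T ^ (3/4 : ℝ) ≤ T / B ^ 2 := by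
    have e1 : DC B L ^ 2 = L ^ 4 * (40 * CA * C1) ^ 2 / (16 * B ^ 4) * T ^ (1 / B) := by
      unfold DC WM Wt
      have e2 : Real.exp (L / 2 / B) ^ 2 = T ^ (1 / B) := by
        rw [← e7, ← Real.exp_nat_mul, hX]
        congr 1
        push_cast
        ring
      rw [← e2]
      field_simp
      ring
    rw [e1, le_div_iff₀ (by positivity)]
    refine le_trans (le_of_eq ?_) g9
    rw [Real.rpow_add hT0']
    ring
  have hW : ∫ t in Icc (T / L ^ 3) T, (16 * RB T L B X Ψ t) ^ 2 ≤ K * (T / B ^ 2) := by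
    refine hRB.trans ?_
    rw [hK]
    linarith
  have hee0 : 0 ≤ ee B L := by
    unfold ee
    have := CM_pos
    have : 0 ≤ Real.log L := Real.log_nonneg (by linarith)
    positivity
  have hmain := main_region hL g3 hB hX hX1 ha20 haT hΨc hdom hee0
    (fun t ht => ee_bound hL g3 hB hX hX1 (by linarith) haT2 ht) hW (ZT T)
  have hcompl := compl_region (T := T) (X := X) (a := T / L ^ 3) (M := Real.sqrt T) (by linarith) hX1 (by linarith) (by positivity) hZT
  have hint := integral_add_compl (μ := volume) (f := fun t => Yf (ZT T) X t ^ 2) (measurableSet_Icc (a := T / L ^ 3) (b := T)) (Yf_sq_integrable (ZT T) hX1)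
  rw [← hint]
  have hM1 : ∫ t in Icc (T / L ^ 3) T, Yf (ZT T) X t ^ 2 ≤ T * (B ^ 2 + (31 + 2 * Real.sqrt K + 3 * K)) := by
    refine hmain.trans ?_
    have q1 : 2 * B * (ee B L * T) ≤ 2 * T := by
      have h1 : ee B L * B ≤ 1 := by
        rw [le_div_iff₀ hB0] at g6; exact g6
      calc 2 * B * (ee B L * T) = 2 * (ee B L * B) * T := by ring
        _ ≤ 2 * 1 * T := by gcongr
        _ = _ := by ring
    have q2 : 24 * B * Real.exp X ≤ T := by
      rw [e7]; simpa using g7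
    have q3 : 96 * Real.exp (3 * X) ≤ T := by
      rw [e8]; simpa using g8
    have q4 : 2 * B * (Real.sqrt T * Real.sqrt (K * (T / B ^ 2))) = 2 * Real.sqrt K * T := by
      rw [Real.sqrt_mul hK0.le, Real.sqrt_div hT0'.le, Real.sqrt_sq hB0.le]
      have := Real.mul_self_sqrt hT0'.le
      field_simp
      rw [Real.sq_sqrt hT0'.le]
    have q5 : ee B L ^ 2 ≤ 1 := by
      have : ee B L ≤ 1 := g6.trans (by rw [div_le_one hB0]; linarith)
      exact pow_le_one₀ hee0 this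
    have q6 : K * (T / B ^ 2) ≤ K * T := by
      have : T / B ^ 2 ≤ T := by
        apply div_le_self hT0'.le
        nlinarith
      gcongr
    have q5' : ee B L ^ 2 * T ≤ 1 * T := mul_le_mul_of_nonneg_right q5 hT0'.le
    linarith
  have hM2 : ∫ t in (Icc (T / L ^ 3) T)ᶜ, Yf (ZT T) X t ^ 2 ≤ T := by
    refine hcompl.trans ?_
    rw [sum_ZT_mx, ← hL]
    have r1 : Real.sqrt T ^ (-(3/4) : ℝ) = T ^ (-(3/8) : ℝ) := by
      rw [hsT, ← Real.rpow_mul hT0'.le]
      norm_num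
    rw [r1]
    have r2 : (20 * CLA * L) ^ 2 * (T / L ^ 3 + 2 * Real.sqrt T) = 400 * CLA ^ 2 * (T / L) + 800 * CLA ^ 2 * L ^ 2 * T ^ (1/2 : ℝ) := by
      rw [hsT]
      field_simp
      ring
    have r3 : 400 * CLA ^ 2 * (T / L) ≤ T / 4 := by
      rw [← mul_div_assoc, div_le_div_iff₀ hL0 (by norm_num)]
      nlinarith
    have r4 : 800 * CLA ^ 2 * L ^ 2 * T ^ (1/2 : ℝ) ≤ T / 4 := by linarith
    have r5 : 400 * CLA * L * T ^ (-(3/8) : ℝ) * NT T * C1 ≤ T / 4 := by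
      have hp : 0 < T ^ (-(3/8) : ℝ) := Real.rpow_pos_of_pos hT0' _
      have r6 : T * T ^ (-(3/8) : ℝ) = T ^ (5/8 : ℝ) := by
        nth_rewrite 1 [← Real.rpow_one T]
        rw [← Real.rpow_add hT0']
        norm_num
      calc 400 * CLA * L * T ^ (-(3/8) : ℝ) * NT T * C1 ≤ 400 * CLA * L * T ^ (-(3/8) : ℝ) * (T * L) * C1 := by gcongr
        _ = 400 * CLA * C1 * L ^ 2 * (T * T ^ (-(3/8) : ℝ)) := by ring
        _ = 400 * CLA * C1 * L ^ 2 * T ^ (5/8 : ℝ) := by rw [r6]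
        _ ≤ _ := by linarith
    rw [r2]
    linarith
  linarith

end Pool.Agent.Helper57.LH
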