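import Pool.Agent.Helper57.LH.DivZ

namespace Pool.Agent.Helper57.LH

open Complex Set MeasureTheory Filter Topology Metric

/-- logarithm of a nonvanishing function on a ball, with the Borel-Caratheodory bound. -/
lemma log_bound {h : ℂ → ℂ} (hh : Differentiable ℂ h) {c : ℂ} {R M : ℝ} (hR : 0 < R) (hM : 0 < M)
    (hne : ∀ z ∈ ball c R, h z ≠ 0) (hb : ∀ z ∈ ball c R, ‖h z‖ ≤ ‖h c‖ * Real.exp M) :
    ∃ G : ℂ → ℂ, G c = 0 ∧ (∀ z ∈ ball c R, HasDerivAt G (logDeriv h z) z) ∧
      ∀ z ∈ closedBall c (R / 2), ‖G z‖ ≤ 2 * M := by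
  have hφ : DifferentiableOn ℂ (logDeriv h) (ball c R) := by
    intro z hz
    have h1 : DifferentiableAt ℂ (deriv h) z := (hh.analyticAt z).deriv.differentiableAt
    exact (h1.div (hh z) (hne z hz)).differentiableWithinAt
  obtain ⟨G, hGc, hG⟩ := (hφ.isExactOn_ball).with_val_at c 0
  have hcR : c ∈ ball c R := mem_ball_self hR
  have hconst : ∀ z ∈ ball c R, h z * cexp (-(G z)) = h c := by
    intro z hz
    have hd : ∀ w ∈ ball c R, HasDerivAt (fun w => h w * cexp (-(G w))) 0 w := by
      intro w hw
      have h1 := ((hh w).hasDerivAt).mul ((hG w hw).fun_neg.cexp)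
      have e : deriv h w * cexp (-(G w)) + h w * (cexp (-(G w)) * -(logDeriv h w)) = 0 := by
        rw [logDeriv_apply]
        have := hne w hw
        field_simp
        ring
      rw [e] at h1
      exact h1
    have := (isOpen_ball (x := c) (ε := R)).is_const_of_deriv_eq_zero (convex_ball c R).isPreconnected
      (f := fun w => h w * cexp (-(G w))) (fun w hw => (hd w hw).differentiableAt.differentiableWithinAt)
      (fun w hw => (hd w hw).deriv) hz hcR
    simp only [hGc, neg_zero, Complex.exp_zero, mul_one] at this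
    exact this
  have hre : ∀ z ∈ ball c R, (G z).re ≤ M := by
    intro z hz
    have h1 := congrArg norm (hconst z hz)
    rw [norm_mul, Complex.norm_exp, Complex.neg_re] at h1
    have h2 := hb z hz
    have hc0 : 0 < ‖h c‖ := norm_pos_iff.mpr (hne c hcR)
    have h3 : ‖h c‖ ≤ ‖h c‖ * Real.exp (M + -(G z).re) := by
      rw [Real.exp_add, ← mul_assoc]
      calc ‖h c‖ = ‖h z‖ * Real.exp (-(G z).re) := h1.symm
        _ ≤ _ := by gcongr
    have h4 : 1 ≤ Real.exp (M + -(G z).re) := by
      by_contra hlt
      push Not at hlt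
      nlinarith
    have h5 := Real.one_le_exp_iff.mp h4
    linarith
  refine ⟨G, hGc, hG, ?_⟩
  intro z hz
  rw [mem_closedBall, dist_eq_norm] at hz
  have hsub : ∀ w ∈ ball (0:ℂ) R, c + w ∈ ball c R := by
    intro w hw
    rw [mem_ball, dist_eq_norm, add_sub_cancel_left]
    rwa [mem_ball, dist_zero_right] at hw
  have hBC := Complex.borelCaratheodory_zero (f := fun w => G (c + w)) (M := M) (R := R) (z := z - c) hM (by
      intro w hw
      have h1 := (hG (c + w) (hsub w hw)).differentiableAt
      exact (DifferentiableAt.comp w h1 (by fun_prop)).differentiableWithinAt)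
    (fun w hw => hre _ (hsub w hw)) hR (by rw [mem_ball, dist_zero_right]; linarith) (by simpa using hGc)
  simp only [add_sub_cancel] at hBC
  refine hBC.trans ?_
  rw [div_le_iff₀ (by linarith)]
  have := norm_nonneg (z - c)
  nlinarith

/-- bound of the derivative of the logarithmic derivative -/
lemma logDeriv_bound {h : ℂ → ℂ} (hh : Differentiable ℂ h) {c : ℂ} {R M : ℝ} (hR : 0 < R) (hM : 0 < M)
    (hne : ∀ z ∈ ball c R, h z ≠ 0) (hb : ∀ z ∈ ball c R, ‖h z‖ ≤ ‖h c‖ * Real.exp M)
    {z : ℂ} (hz : ‖z - c‖ ≤ R / 8) : ‖deriv (logDeriv h) z‖ ≤ 64 * M / R ^ 2 := by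
  obtain ⟨G, hGc, hG, hGb⟩ := log_bound hh hR hM hne hb
  have hφ : DifferentiableOn ℂ (logDeriv h) (ball c R) := by
    intro z hz
    have h1 : DifferentiableAt ℂ (deriv h) z := (hh.analyticAt z).deriv.differentiableAt
    exact (h1.div (hh z) (hne z hz)).differentiableWithinAt
  have h1 : ∀ w, ‖w - c‖ ≤ R / 4 → ‖logDeriv h w‖ ≤ 2 * M / (R / 4) := by
    intro w hw
    have hsub : closedBall w (R / 4) ⊆ closedBall c (R / 2) := by
      intro u hu
      rw [mem_closedBall, dist_eq_norm] at hu ⊢
      have := norm_add_le (u - w) (w - c)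
      rw [sub_add_sub_cancel] at this
      linarith
    have hsub2 : closedBall c (R / 2) ⊆ ball c R := closedBall_subset_ball (by linarith)
    have hw2 : w ∈ ball c R := by rw [mem_ball, dist_eq_norm]; linarith
    rw [← (hG w hw2).deriv]
    apply Complex.norm_deriv_le_of_forall_mem_sphere_norm_le (by positivity)
    · apply DifferentiableOn.diffContOnCl
      intro u hu
      rw [closure_ball w (by positivity)] at hu
      exact (hG u (hsub2 (hsub hu))).differentiableAt.differentiableWithinAt
    · intro u hu
      exact hGb u (hsub (sphere_subset_closedBall hu))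
  have hsub : closedBall z (R / 8) ⊆ closedBall c (R / 4) := by
    intro u hu
    rw [mem_closedBall, dist_eq_norm] at hu ⊢
    have := norm_add_le (u - z) (z - c)
    rw [sub_add_sub_cancel] at this
    linarith
  have h2 := Complex.norm_deriv_le_of_forall_mem_sphere_norm_le (f := logDeriv h) (c := z) (R := R / 8)
    (C := 2 * M / (R / 4)) (by positivity) (by
      apply DifferentiableOn.diffContOnCl
      intro u hu
      rw [closure_ball z (by positivity)] at hu
      have hu2 : u ∈ ball c R := closedBall_subset_ball (by linarith) (hsub hu)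
      exact ((hφ u hu2).differentiableAt (isOpen_ball.mem_nhds hu2)).differentiableWithinAt) (by
      intro u hu
      have := hsub (sphere_subset_closedBall hu)
      rw [mem_closedBall, dist_eq_norm] at this
      exact h1 u this)
  refine h2.trans (le_of_eq ?_)
  field_simp
  norm_num

end Pool.Agent.Helper57.LH
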