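import Pool.Agent.Helper57.LH.Moll

open ArithmeticFunction Finset

namespace Pool.Agent.Helper57.LH

/-- `J_{1+ε}` on squarefree numbers -/
noncomputable def Jf (ε : ℝ) (d : ℕ) : ℝ := ∏ p ∈ d.primeFactors, (Real.exp ((1 + ε) * Real.log p) - 1)

lemma Jf_nonneg {ε : ℝ} (hε : 0 ≤ ε) (d : ℕ) : 0 ≤ Jf ε d := by
  apply prod_nonneg
  intro p hp
  have hpp := Nat.prime_of_mem_primeFactors hp
  have : (1:ℝ) ≤ p := by exact_mod_cast hpp.one_le
  have h1 := Real.log_nonneg this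
  have := Real.one_le_exp (x := (1 + ε) * Real.log p) (by positivity)
  linarith

lemma exp_log_eq_prod {g : ℕ} (hg : Squarefree g) (c : ℝ) :
    Real.exp (c * Real.log g) = ∏ p ∈ g.primeFactors, Real.exp (c * Real.log p) := by
  rw [← Real.exp_sum, ← mul_sum]
  congr 2
  conv_lhs => rw [← Nat.prod_primeFactors_of_squarefree hg]
  push_cast
  rw [Real.log_prod]
  intro p hp
  have := (Nat.prime_of_mem_primeFactors hp).ne_zero
  exact_mod_cast this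

lemma Jf_le {ε : ℝ} (hε : 0 ≤ ε) {d : ℕ} (hd : Squarefree d) : Jf ε d ≤ Real.exp ((1 + ε) * Real.log d) := by
  rw [exp_log_eq_prod hd]
  apply prod_le_prod
  · intro p hp
    have hpp := Nat.prime_of_mem_primeFactors hp
    have : (1:ℝ) ≤ p := by exact_mod_cast hpp.one_le
    have h1 := Real.log_nonneg this
    have := Real.one_le_exp (x := (1 + ε) * Real.log p) (by positivity)
    linarith
  · intro p hp
    linarith

lemma exp_log_eq_sum_Jf {g : ℕ} (hg : Squarefree g) (ε : ℝ) :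
    Real.exp ((1 + ε) * Real.log g) = ∑ d ∈ g.divisors, Jf ε d := by
  rw [exp_log_eq_prod hg]
  unfold Jf
  rw [← sum_divisors_prod hg]
  refine prod_congr rfl fun p _ => by ring

lemma ew_lcm (ε : ℝ) {h k : ℕ} (hh : h ≠ 0) (hk : k ≠ 0) :
    ew ε (h.lcm k) = ew ε h * ew ε k * Real.exp ((1 + ε) * Real.log (h.gcd k)) := by
  have hg : h.gcd k ≠ 0 := Nat.gcd_ne_zero_left hh
  have hl : h.lcm k ≠ 0 := Nat.lcm_ne_zero hh hk
  have h1 := Nat.gcd_mul_lcm h k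
  have h2 : ew ε (h.gcd k) * ew ε (h.lcm k) = ew ε h * ew ε k := by
    rw [← ew_mul ε hg hl, h1, ew_mul ε hh hk]
  have h3 : ew ε (h.gcd k) * Real.exp ((1 + ε) * Real.log (h.gcd k)) = 1 := by
    unfold ew
    rw [← Real.exp_add]
    rw [show -(1 + ε) * Real.log (h.gcd k) + (1 + ε) * Real.log (h.gcd k) = 0 by ring, Real.exp_zero]
  calc ew ε (h.lcm k) = (ew ε (h.gcd k) * Real.exp ((1 + ε) * Real.log (h.gcd k))) * ew ε (h.lcm k) := by
        rw [h3, one_mul]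
    _ = (ew ε (h.gcd k) * ew ε (h.lcm k)) * Real.exp ((1 + ε) * Real.log (h.gcd k)) := by ring
    _ = _ := by rw [h2]

lemma yq_not_squarefree {X ε : ℝ} {q : ℕ} (hq : ¬ Squarefree q) : yq X ε q = 0 := by
  unfold yq
  apply sum_eq_zero
  intro h hh
  rw [mem_filter] at hh
  rw [amol_not_squarefree (fun hs => hq (hs.squarefree_of_dvd hh.2))]
  simp

lemma quad_eq (X ε : ℝ) :
    ∑ h ∈ Ioc 0 ⌊X⌋₊, ∑ k ∈ Ioc 0 ⌊X⌋₊, amol X h * amol X k * ew ε (h.lcm k)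
      = ∑ q ∈ Ioc 0 ⌊X⌋₊, Jf ε q * yq X ε q ^ 2 := by
  have h1 : ∀ q ∈ Ioc 0 ⌊X⌋₊, Jf ε q * yq X ε q ^ 2
      = ∑ h ∈ Ioc 0 ⌊X⌋₊, ∑ k ∈ Ioc 0 ⌊X⌋₊,
        (if q ∣ h ∧ q ∣ k then Jf ε q * (amol X h * ew ε h) * (amol X k * ew ε k) else 0) := by
    intro q _
    unfold yq
    rw [sum_filter, sq, sum_mul_sum, mul_sum]
    refine sum_congr rfl fun h _ => ?_
    rw [mul_sum]
    refine sum_congr rfl fun k _ => ?_
    by_cases hh : q ∣ h <;> by_cases hk : q ∣ k <;> simp [hh, hk]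
    ring
  rw [sum_congr rfl h1]
  symm
  rw [sum_comm]
  refine sum_congr rfl fun h hh => ?_
  rw [sum_comm]
  refine sum_congr rfl fun k hk => ?_
  symm
  rw [mem_Ioc] at hh hk
  by_cases hsh : Squarefree h
  swap
  · rw [amol_not_squarefree hsh]; simp
  have hsg : Squarefree (h.gcd k) := hsh.squarefree_of_dvd (Nat.gcd_dvd_left _ _)
  rw [ew_lcm ε hh.1.ne' hk.1.ne', exp_log_eq_sum_Jf hsg, ← sum_filter]
  have h2 : (h.gcd k).divisors = (Ioc 0 ⌊X⌋₊).filter (fun q => q ∣ h ∧ q ∣ k) := by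
    ext q
    simp only [Nat.mem_divisors, mem_filter, mem_Ioc]
    constructor
    · rintro ⟨h3, _⟩
      have h4 := (Nat.dvd_gcd_iff.mp h3)
      exact ⟨⟨Nat.pos_of_dvd_of_pos h4.1 hh.1, (Nat.le_of_dvd hh.1 h4.1).trans hh.2⟩, h4⟩
    · rintro ⟨_, h3⟩
      exact ⟨Nat.dvd_gcd h3.1 h3.2, Nat.gcd_ne_zero_left hh.1.ne'⟩
  rw [h2, mul_sum, mul_sum]
  refine sum_congr rfl fun q _ => by ring

lemma quad_le {X ε : ℝ} (hX : 3 ≤ X) (hε : 0 ≤ ε) (hεX : ε * Real.log X ≤ 1) :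
    ∑ h ∈ Ioc 0 ⌊X⌋₊, ∑ k ∈ Ioc 0 ⌊X⌋₊, amol X h * amol X k * ew ε (h.lcm k) ≤ CQ / Real.log X := by
  rw [quad_eq]
  refine le_trans ?_ (QF_le hX hε hεX)
  refine sum_le_sum fun q hq => ?_
  rw [mem_Ioc] at hq
  have hq0 : (0:ℝ) < q := by exact_mod_cast hq.1
  by_cases hsq : Squarefree q
  · apply mul_le_mul_of_nonneg_right _ (sq_nonneg _)
    refine (Jf_le hε hsq).trans (le_of_eq ?_)
    rw [show (1 + ε) * Real.log q = Real.log q + ε * Real.log q by ring, Real.exp_add,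
      Real.exp_log hq0]
  · rw [yq_not_squarefree hsq]; simp

lemma quad_nonneg {X ε : ℝ} (hε : 0 ≤ ε) :
    0 ≤ ∑ h ∈ Ioc 0 ⌊X⌋₊, ∑ k ∈ Ioc 0 ⌊X⌋₊, amol X h * amol X k * ew ε (h.lcm k) := by
  rw [quad_eq]
  exact sum_nonneg fun q _ => mul_nonneg (Jf_nonneg hε q) (sq_nonneg _)

/-- zeta(1+ε) bound: telescoping -/
lemma ew_succ_le {ε : ℝ} (hε : 0 < ε) {n : ℕ} (hn : 1 ≤ n) :
    ew ε (n + 1) ≤ (Real.exp (-ε * Real.log n) - Real.exp (-ε * Real.log ((n + 1 : ℕ) : ℝ))) / ε := by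
  have hn0 : (0:ℝ) < n := by exact_mod_cast hn
  have hn1 : (0:ℝ) < ((n + 1 : ℕ) : ℝ) := by positivity
  rw [ew_eq ε (by omega), le_div_iff₀ hε]
  have h1 : 1 / ((n + 1 : ℕ) : ℝ) ≤ Real.log ((n + 1 : ℕ) : ℝ) - Real.log n := by
    rw [← Real.log_div hn1.ne' hn0.ne']
    have := Real.one_sub_inv_le_log_of_pos (x := ((n + 1 : ℕ) : ℝ) / n) (by positivity)
    refine le_trans (le_of_eq ?_) this
    push_cast
    field_simp
    ring
  have h2 : Real.exp (-ε * Real.log n) = Real.exp (-ε * Real.log ((n + 1 : ℕ) : ℝ)) *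
      Real.exp (ε * (Real.log ((n + 1 : ℕ) : ℝ) - Real.log n)) := by
    rw [← Real.exp_add]; ring_nf
  rw [h2]
  have h3 := Real.add_one_le_exp (ε * (Real.log ((n + 1 : ℕ) : ℝ) - Real.log n))
  have h4 : ε * (1 / ((n + 1 : ℕ) : ℝ)) ≤ ε * (Real.log ((n + 1 : ℕ) : ℝ) - Real.log n) := by gcongr
  have h5 := Real.exp_pos (-ε * Real.log ((n + 1 : ℕ) : ℝ))
  calc Real.exp (-ε * Real.log ((n + 1 : ℕ) : ℝ)) / ((n + 1 : ℕ) : ℝ) * ε
      = Real.exp (-ε * Real.log ((n + 1 : ℕ) : ℝ)) * (ε * (1 / ((n + 1 : ℕ) : ℝ))) := by ring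
    _ ≤ Real.exp (-ε * Real.log ((n + 1 : ℕ) : ℝ)) *
        (Real.exp (ε * (Real.log ((n + 1 : ℕ) : ℝ) - Real.log n)) - 1) := by
        gcongr; linarith
    _ = _ := by ring

lemma sum_ew_le {ε : ℝ} (hε : 0 < ε) (K : ℕ) : ∑ n ∈ Ioc 0 K, ew ε n ≤ 1 + 1 / ε := by
  have h : ∀ K : ℕ, ∑ n ∈ Ioc 0 (K + 1), ew ε n ≤ 1 + (1 - Real.exp (-ε * Real.log ((K + 1 : ℕ) : ℝ))) / ε := by
    intro K
    induction K with
    | zero => simp [ew]
    | succ K ih =>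
      rw [Finset.sum_Ioc_succ_top (by omega)]
      have := ew_succ_le hε (n := K + 1) (by omega)
      have e : (1 - Real.exp (-ε * Real.log ((K + 1 + 1 : ℕ) : ℝ))) / ε
        = (1 - Real.exp (-ε * Real.log ((K + 1 : ℕ) : ℝ))) / ε +
          (Real.exp (-ε * Real.log ((K + 1 : ℕ) : ℝ)) - Real.exp (-ε * Real.log ((K + 1 + 1 : ℕ) : ℝ))) / ε := by
        ring
      rw [e]
      linarith
  have h0 : ∑ n ∈ Ioc 0 K, ew ε n ≤ ∑ n ∈ Ioc 0 (K + 1), ew ε n := by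
    apply sum_le_sum_of_subset_of_nonneg
    · exact Ioc_subset_Ioc_right (by omega)
    · intros; exact (ew_pos _ _).le
  refine h0.trans ((h K).trans ?_)
  gcongr
  have := Real.exp_pos (-ε * Real.log ((K + 1 : ℕ) : ℝ))
  linarith

/-- extension by zero at 0 -/
noncomputable def ew0 (ε : ℝ) (n : ℕ) : ℝ := if n = 0 then 0 else ew ε n

lemma ew0_nonneg (ε : ℝ) (n : ℕ) : 0 ≤ ew0 ε n := by
  unfold ew0; split_ifs; exacts [le_rfl, (ew_pos _ _).le]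

lemma summable_ew0 {ε : ℝ} (hε : 0 < ε) : Summable (ew0 ε) := by
  apply summable_of_sum_range_le (c := 1 + 1 / ε) (ew0_nonneg ε)
  intro n
  refine le_trans ?_ (sum_ew_le hε n)
  rw [Finset.range_eq_Ico]
  calc ∑ i ∈ Ico 0 n, ew0 ε i ≤ ∑ i ∈ Icc 0 n, ew0 ε i := by
        apply sum_le_sum_of_subset_of_nonneg Ico_subset_Icc_self
        intros; exact ew0_nonneg _ _
    _ = ∑ n ∈ Ioc 0 n, ew ε n := by
        rw [← Finset.Ioc_insert_left (Nat.zero_le n), sum_insert (by simp)]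
        simp only [ew0, if_true, zero_add]
        refine sum_congr rfl fun m hm => ?_
        rw [if_neg (mem_Ioc.mp hm).1.ne']

lemma tsum_ew0_le {ε : ℝ} (hε : 0 < ε) : ∑' n, ew0 ε n ≤ 1 + 1 / ε := by
  apply (summable_ew0 hε).tsum_le_of_sum_range_le
  intro n
  refine le_trans ?_ (sum_ew_le hε n)
  rw [Finset.range_eq_Ico]
  calc ∑ i ∈ Ico 0 n, ew0 ε i ≤ ∑ i ∈ Icc 0 n, ew0 ε i := by
        apply sum_le_sum_of_subset_of_nonneg Ico_subset_Icc_self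
        intros; exact ew0_nonneg _ _
    _ = ∑ n ∈ Ioc 0 n, ew ε n := by
        rw [← Finset.Ioc_insert_left (Nat.zero_le n), sum_insert (by simp)]
        simp only [ew0, if_true, zero_add]
        refine sum_congr rfl fun m hm => ?_
        rw [if_neg (mem_Ioc.mp hm).1.ne']

lemma hasSum_mult {ε : ℝ} (hε : 0 < ε) {l : ℕ} (hl : l ≠ 0) :
    HasSum (fun N => if l ∣ N then ew0 ε N else 0) (ew ε l * ∑' n, ew0 ε n) := by
  have h1 : HasSum (fun n => ew ε l * ew0 ε n) (ew ε l * ∑' n, ew0 ε n) :=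
    (summable_ew0 hε).hasSum.mul_left _
  have hinj : Function.Injective (fun n : ℕ => l * n) := fun a b h =>
    Nat.eq_of_mul_eq_mul_left (Nat.pos_of_ne_zero hl) h
  rw [← hinj.hasSum_iff]
  · convert h1 using 1
    funext n
    simp only [Function.comp, dvd_mul_right, if_true]
    unfold ew0
    rcases Nat.eq_zero_or_pos n with rfl | hn
    · simp
    · rw [if_neg (Nat.mul_ne_zero hl hn.ne'), if_neg hn.ne', ew_mul ε hl hn.ne']
  · intro N hN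
    simp only [Set.mem_range, not_exists] at hN
    rw [if_neg]
    rintro ⟨m, rfl⟩
    exact hN m rfl

/-- `b_N = ∑_{h | N, h ≤ X} a_h` -/
noncomputable def bmol (X : ℝ) (N : ℕ) : ℝ := ∑ h ∈ (Ioc 0 ⌊X⌋₊).filter (fun h => h ∣ N), amol X h

lemma sum_bmol_sq_le {X ε : ℝ} (hX : 3 ≤ X) (hε : 0 < ε) (hεX : ε * Real.log X ≤ 1) (K : ℕ) :
    ∑ N ∈ Ioc 0 K, bmol X N ^ 2 * ew ε N ≤ (1 + 1 / ε) * (CQ / Real.log X) := by
  have hsum : HasSum (fun N => bmol X N ^ 2 * ew0 ε N)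
      (∑ h ∈ Ioc 0 ⌊X⌋₊, ∑ k ∈ Ioc 0 ⌊X⌋₊, amol X h * amol X k * (ew ε (h.lcm k) * ∑' n, ew0 ε n)) := by
    have h1 : HasSum (fun N => ∑ h ∈ Ioc 0 ⌊X⌋₊, ∑ k ∈ Ioc 0 ⌊X⌋₊,
        amol X h * amol X k * (if h.lcm k ∣ N then ew0 ε N else 0))
        (∑ h ∈ Ioc 0 ⌊X⌋₊, ∑ k ∈ Ioc 0 ⌊X⌋₊, amol X h * amol X k * (ew ε (h.lcm k) * ∑' n, ew0 ε n)) := by
      apply hasSum_sum
      intro h hh
      apply hasSum_sum
      intro k hk
      rw [mem_Ioc] at hh hk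
      exact (hasSum_mult hε (Nat.lcm_ne_zero hh.1.ne' hk.1.ne')).mul_left _
    convert h1 using 1
    funext N
    unfold bmol
    rw [sum_filter, sq, sum_mul_sum, sum_mul]
    refine sum_congr rfl fun h _ => ?_
    rw [sum_mul]
    refine sum_congr rfl fun k _ => ?_
    by_cases hh : h ∣ N <;> by_cases hk : k ∣ N <;> simp [hh, hk, Nat.lcm_dvd_iff]
  have h2 : ∑ N ∈ Ioc 0 K, bmol X N ^ 2 * ew ε N = ∑ N ∈ Ioc 0 K, bmol X N ^ 2 * ew0 ε N := by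
    refine sum_congr rfl fun N hN => ?_
    unfold ew0
    rw [if_neg (mem_Ioc.mp hN).1.ne']
  rw [h2]
  have h3 : ∑ N ∈ Ioc 0 K, bmol X N ^ 2 * ew0 ε N ≤ _ := sum_le_hasSum _
    (fun N _ => mul_nonneg (sq_nonneg _) (ew0_nonneg _ _)) hsum
  refine h3.trans ?_
  have h4 : ∑ h ∈ Ioc 0 ⌊X⌋₊, ∑ k ∈ Ioc 0 ⌊X⌋₊, amol X h * amol X k * (ew ε (h.lcm k) * ∑' n, ew0 ε n)
      = (∑' n, ew0 ε n) * ∑ h ∈ Ioc 0 ⌊X⌋₊, ∑ k ∈ Ioc 0 ⌊X⌋₊, amol X h * amol X k * ew ε (h.lcm k) := by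
    rw [mul_sum]
    refine sum_congr rfl fun h _ => ?_
    rw [mul_sum]
    refine sum_congr rfl fun k _ => by ring
  rw [h4]
  have h5 := quad_le hX hε.le hεX
  have h6 := quad_nonneg (X := X) hε.le
  have h7 := tsum_ew0_le hε
  have h8 : 0 ≤ 1 + 1 / ε := by positivity
  exact mul_le_mul h7 h5 h6 h8

lemma bmol_one {X : ℝ} (hX : 1 < X) : bmol X 1 = 1 := by
  unfold bmol
  have h1 : (Ioc 0 ⌊X⌋₊).filter (fun h => h ∣ 1) = {1} := by
    ext h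
    simp only [mem_filter, mem_Ioc, Nat.dvd_one, mem_singleton]
    constructor
    · exact fun h => h.2
    · rintro rfl
      exact ⟨⟨by norm_num, (Nat.one_le_floor_iff X).mpr hX.le⟩, rfl⟩
  rw [h1, sum_singleton, amol_of_le_sqrt hX]
  · simp
  · simp [hX.le]

lemma bmol_eq_zero {X : ℝ} (hX : 1 < X) {N : ℕ} (hN : 1 < N) (hNX : (N:ℝ) ≤ √X) : bmol X N = 0 := by
  unfold bmol
  have hsX : √X ≤ X := by
    rw [Real.sqrt_le_left (by linarith)]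
    nlinarith
  have h1 : (Ioc 0 ⌊X⌋₊).filter (fun h => h ∣ N) = N.divisors := by
    ext h
    simp only [mem_filter, mem_Ioc, Nat.mem_divisors]
    constructor
    · rintro ⟨_, h⟩; exact ⟨h, by omega⟩
    · rintro ⟨h2, _⟩
      refine ⟨⟨Nat.pos_of_dvd_of_pos h2 (by omega), ?_⟩, h2⟩
      rw [Nat.le_floor_iff (by linarith)]
      have : (h:ℝ) ≤ N := by exact_mod_cast Nat.le_of_dvd (by omega) h2
      linarith
  rw [h1]
  have h2 : ∑ h ∈ N.divisors, amol X h = ∑ h ∈ N.divisors, (moebius h : ℝ) := by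
    refine sum_congr rfl fun h hh => ?_
    apply amol_of_le_sqrt hX
    have : (h:ℝ) ≤ N := by exact_mod_cast Nat.le_of_dvd (by omega) (Nat.dvd_of_mem_divisors hh)
    linarith
  rw [h2]
  have h3 : (∑ h ∈ N.divisors, moebius h : ℤ) = 0 := by
    rw [← coe_mul_zeta_apply, moebius_mul_coe_zeta, one_apply_ne (by omega)]
  exact_mod_cast h3

lemma abs_bmol_le {X : ℝ} (hX : 1 < X) {N : ℕ} (hN : N ≠ 0) : |bmol X N| ≤ N.divisors.card := by
  unfold bmol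
  calc |∑ h ∈ (Ioc 0 ⌊X⌋₊).filter (fun h => h ∣ N), amol X h|
      ≤ ∑ h ∈ (Ioc 0 ⌊X⌋₊).filter (fun h => h ∣ N), |amol X h| := abs_sum_le_sum_abs _ _
    _ ≤ ∑ h ∈ (Ioc 0 ⌊X⌋₊).filter (fun h => h ∣ N), (1:ℝ) := sum_le_sum fun h _ => abs_amol_le hX h
    _ = ((Ioc 0 ⌊X⌋₊).filter (fun h => h ∣ N)).card := by simp
    _ ≤ N.divisors.card := by
        norm_cast
        apply card_le_card
        intro h hh
        simp only [mem_filter, mem_Ioc] at hh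
        exact Nat.mem_divisors.mpr ⟨hh.2, hN⟩

end Pool.Agent.Helper57.LH
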