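import Mathlib

namespace Pool.Agent.Helper57.LH

open Complex Set MeasureTheory Filter Topology
open Complex.HadamardThreeLines

/-- Cauchy-Schwarz -/
lemma cs_gen {α : Type*} [MeasurableSpace α] {μ : Measure α} {f g : α → ℝ}
    (hf0 : ∀ x, 0 ≤ f x) (hg0 : ∀ x, 0 ≤ g x)
    (hf : AEStronglyMeasurable f μ) (hg : AEStronglyMeasurable g μ)
    (hf2 : Integrable (fun x => f x ^ 2) μ) (hg2 : Integrable (fun x => g x ^ 2) μ) :
    ∫ x, f x * g x ∂μ ≤ Real.sqrt (∫ x, f x ^ 2 ∂μ) * Real.sqrt (∫ x, g x ^ 2 ∂μ) := by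
  have h1 := integral_mul_le_Lp_mul_Lq_of_nonneg (μ := μ) (f := f) (g := g) (p := 2) (q := 2)
    (Real.HolderConjugate.two_two) (Eventually.of_forall hf0) (Eventually.of_forall hg0)
    (by
      have : (ENNReal.ofReal 2) = 2 := by norm_num
      rw [this]; exact (memLp_two_iff_integrable_sq hf).mpr hf2)
    (by
      have : (ENNReal.ofReal 2) = 2 := by norm_num
      rw [this]; exact (memLp_two_iff_integrable_sq hg).mpr hg2)
  have e : ∀ x : ℝ, x ^ (2:ℝ) = x ^ 2 := fun x => by norm_cast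
  simp_rw [e] at h1
  rw [Real.sqrt_eq_rpow, Real.sqrt_eq_rpow]
  exact h1

/-- the smoothed function -/
noncomputable def GK (H : ℂ → ℂ) (φ : ℝ → ℂ) (K : ℝ) (w : ℂ) : ℂ := ∫ t in (-K)..K, H (w + t * I) * φ t

lemma GK_diff {H : ℂ → ℂ} {c : ℝ} (hH : DifferentiableOn ℂ H {s | c < s.re}) {φ : ℝ → ℂ} (hφ : Continuous φ)
    (K : ℝ) : DifferentiableOn ℂ (GK H φ K) {s | c < s.re} := by
  have hU : IsOpen {s : ℂ | c < s.re} := isOpen_lt continuous_const Complex.continuous_re
  intro w0 hw0
  have hw0' : c < w0.re := hw0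
  apply DifferentiableAt.differentiableWithinAt
  set ε := (w0.re - c) / 2 with hε
  have hε0 : 0 < ε := by rw [hε]; linarith
  have hmem : ∀ w ∈ Metric.closedBall w0 ε, ∀ t : ℝ, w + t * I ∈ {s : ℂ | c < s.re} := by
    intro w hw t
    rw [Metric.mem_closedBall, dist_eq_norm] at hw
    have := (Complex.abs_re_le_norm (w - w0)).trans hw
    rw [Complex.sub_re, abs_le] at this
    show c < (w + t * I).re
    simp
    linarith
  have hdc : ContinuousOn (deriv H) {s | c < s.re} := (hH.deriv hU).continuousOn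
  set S : Set ℂ := (fun p : ℂ × ℝ => p.1 + p.2 * I) '' (Metric.closedBall w0 ε ×ˢ uIcc (-K) K) with hS
  have hSc : IsCompact S := by
    apply IsCompact.image
    · exact (isCompact_closedBall _ _).prod isCompact_uIcc
    · fun_prop
  have hSU : S ⊆ {s | c < s.re} := by
    rintro _ ⟨⟨w, t⟩, ⟨hw, _⟩, rfl⟩
    exact hmem w hw t
  obtain ⟨M, hM⟩ := hSc.exists_bound_of_continuousOn (hdc.mono hSU)
  have hline : ∀ w ∈ Metric.closedBall w0 ε, Continuous (fun t : ℝ => H (w + t * I)) := by
    intro w hw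
    rw [continuous_iff_continuousAt]
    intro t
    have h1 : ContinuousAt H (w + t * I) := (hH.continuousOn).continuousAt (hU.mem_nhds (hmem w hw t))
    exact ContinuousAt.comp (f := fun t : ℝ => w + t * I) h1 (by fun_prop)
  have key := intervalIntegral.hasDerivAt_integral_of_dominated_loc_of_deriv_le (μ := volume) (a := -K) (b := K)
      (F := fun w (t:ℝ) => H (w + t * I) * φ t)
      (F' := fun w (t:ℝ) => deriv H (w + t * I) * φ t)
      (x₀ := w0) (s := Metric.ball w0 ε)
      (bound := fun t : ℝ => M * ‖φ t‖)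
      (Metric.ball_mem_nhds _ hε0) ?_ ?_ ?_ ?_ ?_ ?_
  · exact key.2.differentiableAt
  · filter_upwards [Metric.ball_mem_nhds w0 hε0] with w hw
    exact ((hline w (Metric.ball_subset_closedBall hw)).mul hφ).aestronglyMeasurable
  · exact ((hline w0 (Metric.mem_closedBall_self hε0.le)).mul hφ).intervalIntegrable _ _
  · apply Continuous.aestronglyMeasurable
    refine Continuous.mul ?_ hφ
    rw [continuous_iff_continuousAt]
    intro t
    have h1 : ContinuousAt (deriv H) (w0 + t * I) :=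
      hdc.continuousAt (hU.mem_nhds (hmem w0 (Metric.mem_closedBall_self hε0.le) t))
    exact ContinuousAt.comp (f := fun t : ℝ => w0 + t * I) h1 (by fun_prop)
  · refine Eventually.of_forall fun t ht w hw => ?_
    rw [norm_mul]
    gcongr
    exact hM _ ⟨(w, t), ⟨Metric.ball_subset_closedBall hw, uIoc_subset_uIcc ht⟩, rfl⟩
  · exact (hφ.norm.const_mul M).intervalIntegrable _ _
  · refine Eventually.of_forall fun t ht w hw => ?_
    apply HasDerivAt.mul_const
    have h1 : HasDerivAt H (deriv H (w + t * I)) (w + t * I) :=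
      (hH.differentiableAt (hU.mem_nhds (hmem w (Metric.ball_subset_closedBall hw) t))).hasDerivAt
    exact h1.comp_add_const w (t * I)

/-- L² three lines theorem -/
theorem three_lines {H : ℂ → ℂ} {c l u : ℝ} (hcl : c < l) (hlu : l < u)
    (hH : DifferentiableOn ℂ H {s | c < s.re}) {Bd : ℝ} (hBd : ∀ s : ℂ, l ≤ s.re → s.re ≤ u → ‖H s‖ ≤ Bd)
    {A B : ℝ}
    (hAi : Integrable (fun t : ℝ => ‖H (l + t * I)‖ ^ 2)) (hA : ∫ t : ℝ, ‖H (l + t * I)‖ ^ 2 ≤ A)
    (hBi : Integrable (fun t : ℝ => ‖H (u + t * I)‖ ^ 2)) (hB : ∫ t : ℝ, ‖H (u + t * I)‖ ^ 2 ≤ B)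
    {σ : ℝ} (hl : l ≤ σ) (hu : σ ≤ u) {K : ℝ} (hK : 0 ≤ K) :
    ∫ t in (-K)..K, ‖H (σ + t * I)‖ ^ 2 ≤ A ^ (1 - (σ - l) / (u - l)) * B ^ ((σ - l) / (u - l)) := by
  have hU : IsOpen {s : ℂ | c < s.re} := isOpen_lt continuous_const Complex.continuous_re
  have hA0 : 0 ≤ A := le_trans (integral_nonneg fun t => by positivity) hA
  have hB0 : 0 ≤ B := le_trans (integral_nonneg fun t => by positivity) hB
  have hline : ∀ w : ℂ, c < w.re → Continuous (fun t : ℝ => H (w + t * I)) := by
    intro w hw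
    rw [continuous_iff_continuousAt]
    intro t
    have h1 : ContinuousAt H (w + t * I) := (hH.continuousOn).continuousAt (hU.mem_nhds (by
      show c < (w + t * I).re
      simpa using hw))
    exact ContinuousAt.comp (f := fun t : ℝ => w + t * I) h1 (by fun_prop)
  set φ : ℝ → ℂ := fun t => starRingEnd ℂ (H (σ + t * I)) with hφdef
  have hφ : Continuous φ := Complex.continuous_conj.comp (hline σ (by simp; linarith))
  set N := ∫ t in (-K)..K, ‖H (σ + t * I)‖ ^ 2 with hN
  have hKK : -K ≤ K := by linarith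
  have hN0 : 0 ≤ N := intervalIntegral.integral_nonneg hKK fun t _ => by positivity
  have hNφ : ∫ t in Ioc (-K) K, ‖φ t‖ ^ 2 = N := by
    rw [hN, intervalIntegral.integral_of_le hKK]
    refine setIntegral_congr_fun measurableSet_Ioc fun t _ => ?_
    rw [hφdef]; simp only; rw [RCLike.norm_conj]
  have hφ2 : Integrable (fun t => ‖φ t‖ ^ 2) (volume.restrict (Ioc (-K) K)) := by
    have : IntervalIntegrable (fun t => ‖φ t‖ ^ 2) volume (-K) K := (hφ.norm.pow 2).intervalIntegrable _ _
    rwa [intervalIntegrable_iff_integrableOn_Ioc_of_le hKK] at this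
  -- pointwise bound via Cauchy-Schwarz
  have hCS : ∀ w : ℂ, c < w.re → ‖GK H φ K w‖ ≤ Real.sqrt (∫ t in Ioc (-K) K, ‖H (w + t * I)‖ ^ 2) * Real.sqrt N := by
    intro w hw
    unfold GK
    rw [intervalIntegral.integral_of_le hKK]
    refine (norm_integral_le_integral_norm _).trans ?_
    rw [← hNφ]
    simp_rw [norm_mul]
    have hc := hline w hw
    apply cs_gen (fun t => norm_nonneg _) (fun t => norm_nonneg _) hc.norm.aestronglyMeasurable hφ.norm.aestronglyMeasurable _ hφ2
    have : IntervalIntegrable (fun t : ℝ => ‖H (w + t * I)‖ ^ 2) volume (-K) K := (hc.norm.pow 2).intervalIntegrable _ _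
    rwa [intervalIntegrable_iff_integrableOn_Ioc_of_le hKK] at this
  have hedge : ∀ {x : ℝ} {D : ℝ}, c < x → Integrable (fun t : ℝ => ‖H (x + t * I)‖ ^ 2) →
      ∫ t : ℝ, ‖H (x + t * I)‖ ^ 2 ≤ D → ∀ z ∈ re ⁻¹' {x}, ‖GK H φ K z‖ ≤ Real.sqrt D * Real.sqrt N := by
    intro x D hx hi hD z hz
    have hzx : z.re = x := hz
    refine (hCS z (by rw [hzx]; exact hx)).trans ?_
    gcongr
    have e : ∀ t : ℝ, H (z + t * I) = H (x + ((z.im + t : ℝ) : ℂ) * I) := by
      intro t
      congr 1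
      rw [← Complex.re_add_im z, hzx]
      push_cast
      simp
      ring
    simp_rw [e]
    calc ∫ t in Ioc (-K) K, ‖H (x + ((z.im + t : ℝ) : ℂ) * I)‖ ^ 2
        ≤ ∫ t : ℝ, ‖H (x + ((z.im + t : ℝ) : ℂ) * I)‖ ^ 2 := by
          apply setIntegral_le_integral
          · exact hi.comp_add_left z.im
          · exact Eventually.of_forall fun t => by positivity
      _ = ∫ t : ℝ, ‖H (x + t * I)‖ ^ 2 := integral_add_left_eq_self (fun t : ℝ => ‖H (x + t * I)‖ ^ 2) z.im
      _ ≤ D := hD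
  have hGd := GK_diff hH hφ K
  have hstrip : closure (verticalStrip l u) ⊆ {s | c < s.re} := by
    have h1 : closure (verticalStrip l u) ⊆ re ⁻¹' Icc l u := by
      apply closure_minimal
      · exact preimage_mono Ioo_subset_Icc_self
      · exact isClosed_Icc.preimage Complex.continuous_re
    refine h1.trans fun s hs => ?_
    exact lt_of_lt_of_le hcl hs.1
  have hDC : DiffContOnCl ℂ (GK H φ K) (verticalStrip l u) := (hGd.mono hstrip).diffContOnCl
  have hBdd : BddAbove ((norm ∘ GK H φ K) '' verticalClosedStrip l u) := by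
    refine ⟨Real.sqrt (Bd ^ 2 * (2 * K)) * Real.sqrt N, ?_⟩
    rintro _ ⟨z, hz, rfl⟩
    have hz1 : l ≤ z.re := hz.1
    have hz2 : z.re ≤ u := hz.2
    refine (hCS z (by linarith)).trans ?_
    gcongr
    calc ∫ t in Ioc (-K) K, ‖H (z + t * I)‖ ^ 2 ≤ ∫ t in Ioc (-K) K, Bd ^ 2 := by
          apply setIntegral_mono_on
          · have : IntervalIntegrable (fun t : ℝ => ‖H (z + t * I)‖ ^ 2) volume (-K) K :=
              (((hline z (by linarith)).norm).pow 2).intervalIntegrable _ _
            rwa [intervalIntegrable_iff_integrableOn_Ioc_of_le hKK] at this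
          · exact integrableOn_const (by simp)
          · exact measurableSet_Ioc
          · intro t _
            have := hBd (z + t * I) (by simpa using hz1) (by simpa using hz2)
            gcongr
      _ = Bd ^ 2 * (2 * K) := by
          rw [setIntegral_const, Measure.real, Real.volume_Ioc, ENNReal.toReal_ofReal (by linarith), smul_eq_mul]
          ring
  have hmain := norm_le_interp_of_mem_verticalClosedStrip' hlu (z := (σ:ℂ)) (f := GK H φ K)
    (by show (σ:ℂ).re ∈ Icc l u; simp [hl, hu]) hDC hBdd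
    (hedge hcl hAi hA) (hedge (by linarith) hBi hB)
  have hval : ‖GK H φ K σ‖ = N := by
    have : GK H φ K σ = ((N : ℝ) : ℂ) := by
      unfold GK
      rw [hN, ← intervalIntegral.integral_ofReal]
      refine intervalIntegral.integral_congr fun t _ => ?_
      rw [hφdef]
      simp only
      rw [Complex.mul_conj']
      push_cast; rfl
    rw [this, Complex.norm_real, Real.norm_of_nonneg hN0]
  rw [hval, Complex.ofReal_re] at hmain
  set θ := (σ - l) / (u - l) with hθ
  have hθ0 : 0 ≤ θ := div_nonneg (by linarith) (by linarith)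
  have hθ1 : θ ≤ 1 := by rw [hθ, div_le_one (by linarith)]; linarith
  have hsA := Real.sqrt_nonneg A
  have hsB := Real.sqrt_nonneg B
  have hsN := Real.sqrt_nonneg N
  have h1 : (Real.sqrt A * Real.sqrt N) ^ (1 - θ) * (Real.sqrt B * Real.sqrt N) ^ θ =
      (Real.sqrt A ^ (1 - θ) * Real.sqrt B ^ θ) * Real.sqrt N := by
    rw [Real.mul_rpow hsA hsN, Real.mul_rpow hsB hsN]
    have : Real.sqrt N ^ (1 - θ) * Real.sqrt N ^ θ = Real.sqrt N := by
      rcases eq_or_lt_of_le hsN with h | h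
      · rw [← h]
        rcases eq_or_ne θ 0 with h0 | h0
        · rw [h0]; simp
        · rw [Real.zero_rpow h0, mul_zero]
      · rw [← Real.rpow_add h]; simp
    calc _ = (Real.sqrt A ^ (1 - θ) * Real.sqrt B ^ θ) * (Real.sqrt N ^ (1 - θ) * Real.sqrt N ^ θ) := by ring
      _ = _ := by rw [this]
  rw [h1] at hmain
  rcases eq_or_lt_of_le hN0 with h | h
  · rw [← h]; positivity
  have hsNpos : 0 < Real.sqrt N := Real.sqrt_pos.mpr h
  have h2 : Real.sqrt N ≤ Real.sqrt A ^ (1 - θ) * Real.sqrt B ^ θ := by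
    have h3 : Real.sqrt N * Real.sqrt N ≤ (Real.sqrt A ^ (1 - θ) * Real.sqrt B ^ θ) * Real.sqrt N := by
      rw [Real.mul_self_sqrt hN0]; exact hmain
    exact le_of_mul_le_mul_right h3 hsNpos
  calc N = Real.sqrt N ^ 2 := (Real.sq_sqrt hN0).symm
    _ ≤ (Real.sqrt A ^ (1 - θ) * Real.sqrt B ^ θ) ^ 2 := by gcongr
    _ = (Real.sqrt A ^ 2) ^ (1 - θ) * (Real.sqrt B ^ 2) ^ θ := by
        rw [mul_pow, ← Real.rpow_natCast, ← Real.rpow_natCast, ← Real.rpow_mul hsA, ← Real.rpow_mul hsB,
          ← Real.rpow_natCast, ← Real.rpow_natCast, ← Real.rpow_mul hsA, ← Real.rpow_mul hsB]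
        congr 2 <;> ring
    _ = _ := by rw [Real.sq_sqrt hA0, Real.sq_sqrt hB0]

end Pool.Agent.Helper57.LH
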