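import Pool.Agent.Helper57.LH.Edge
import Pool.Agent.Helper57.LH.ThreeLines

namespace Pool.Agent.Helper57.LH

open Complex Set MeasureTheory Filter Topology
open Pool.Agent.Helper57.Zeta

lemma Zt_conj (s : ℂ) : Zt (starRingEnd ℂ s) = starRingEnd ℂ (Zt s) := by
  unfold Zt
  rw [xi_conj]
  simp only [map_mul, map_div₀, map_inv₀, map_ofNat]
  congr 1
  congr 1
  congr 1
  · have h := Complex.cpow_conj (Real.pi : ℂ) (s / 2) (by
      rw [Complex.arg_ofReal_of_nonneg Real.pi_pos.le]; exact Real.pi_pos.ne)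
    rw [Complex.conj_ofReal] at h
    rw [← h, map_div₀, Complex.conj_ofNat]
  · rw [← Complex.Gamma_conj, map_add, map_one, map_div₀, Complex.conj_ofNat]

lemma Mol_conj (X : ℝ) (s : ℂ) : Mol X (starRingEnd ℂ s) = starRingEnd ℂ (Mol X s) := by
  unfold Mol
  rw [map_sum]
  refine Finset.sum_congr rfl fun h hh => ?_
  rw [map_mul, Complex.conj_ofReal]
  congr 1
  have hc := Complex.cpow_conj (h : ℂ) (-s) (by
      rw [Complex.natCast_arg]; exact Real.pi_pos.ne)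
  rw [Complex.conj_natCast] at hc
  rw [← hc, map_neg]

lemma differentiable_Mol (X : ℝ) : Differentiable ℂ (Mol X) := by
  unfold Mol
  apply Differentiable.fun_sum
  intro h hh
  rw [Finset.mem_Ioc] at hh
  have hh0 : (h:ℂ) ≠ 0 := by exact_mod_cast hh.1.ne'
  apply Differentiable.const_mul
  intro s
  exact (differentiableAt_id.neg).const_cpow (Or.inl hh0)

/-- mollifier length -/
noncomputable def XT (T : ℝ) : ℝ := T ^ (1/40 : ℝ)

/-- auxiliary function for the convexity argument -/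
noncomputable def HT (T : ℝ) (s : ℂ) : ℂ := (Zt s * Mol (XT T) s - (s - 1)) / (s + 2) * cexp (s ^ 2 / T ^ 2)

lemma HT_diff (T : ℝ) : DifferentiableOn ℂ (HT T) {s | (-1:ℝ) < s.re} := by
  unfold HT
  have h1 := differentiable_Zt
  have h2 := differentiable_Mol (XT T)
  have h3 : ∀ s ∈ {s : ℂ | (-1:ℝ) < s.re}, s + 2 ≠ 0 := by
    intro s hs h
    have hs' : (-1:ℝ) < s.re := hs
    have := congrArg Complex.re h
    simp at this
    linarith
  apply DifferentiableOn.mul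
  · apply DifferentiableOn.div
    · exact ((h1.mul h2).sub (by fun_prop)).differentiableOn
    · fun_prop
    · exact h3
  · fun_prop

lemma HT_conj (T : ℝ) (s : ℂ) : HT T (starRingEnd ℂ s) = starRingEnd ℂ (HT T s) := by
  unfold HT
  rw [Zt_conj, Mol_conj]
  simp only [map_mul, map_div₀, map_sub, map_add, map_one, map_ofNat, ← Complex.exp_conj, map_pow, Complex.conj_ofReal]

lemma norm_exp_sq (T : ℝ) (σ t : ℝ) : ‖cexp ((σ + t * I) ^ 2 / T ^ 2)‖ = Real.exp ((σ ^ 2 - t ^ 2) / T ^ 2) := by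
  rw [Complex.norm_exp]
  congr 1
  have e : ((σ + t * I : ℂ) ^ 2 / T ^ 2) = ((((σ ^ 2 - t ^ 2) / T ^ 2 : ℝ)) : ℂ) + ((2 * σ * t / T ^ 2 : ℝ) : ℂ) * I := by
    push_cast
    linear_combination ((t:ℂ) ^ 2 / (T:ℂ) ^ 2) * I_sq
  rw [e, Complex.add_re, Complex.ofReal_re, Complex.re_ofReal_mul, Complex.I_re, mul_zero, add_zero]

lemma norm_sub_one_le_add_two {s : ℂ} (hs : -(1/2) ≤ s.re) : ‖s - 1‖ ≤ ‖s + 2‖ := by
  rw [← sq_le_sq₀ (norm_nonneg _) (norm_nonneg _), ← Complex.normSq_eq_norm_sq, ← Complex.normSq_eq_norm_sq,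
    Complex.normSq_apply, Complex.normSq_apply]
  simp
  nlinarith

/-- relation with the mollified zeta function -/
lemma HT_eq {T : ℝ} {s : ℂ} (h0 : 0 < s.re) (h1 : s ≠ 1) :
    HT T s = (s - 1) / (s + 2) * (riemannZeta s * Mol (XT T) s - 1) * cexp (s ^ 2 / T ^ 2) := by
  unfold HT
  rw [Zt_eq h0 h1]
  ring

lemma HT_crude0 {T : ℝ} (hT : 1 < T) {s : ℂ} (h1 : 1 / 4 ≤ s.re) :
    ‖(Zt s * Mol (XT T) s - (s - 1)) / (s + 2)‖ ≤ 10 * (1 + ‖s‖) * XT T := by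
  have hT0 : 0 < T := by linarith
  have hX1 : 1 < XT T := Real.one_lt_rpow hT (by norm_num)
  have hZ : ‖Zt s‖ ≤ 5 * (1 + ‖s‖) ^ 2 := norm_Zt_le h1
  have hM : ‖Mol (XT T) s‖ ≤ XT T := norm_Mol_le hX1 (by linarith)
  have hs2 : ‖s‖ + 1 ≤ ‖s + 2‖ + 1 := by
    have : ‖s‖ ≤ ‖s + 2‖ := by
      rw [← sq_le_sq₀ (norm_nonneg _) (norm_nonneg _), ← Complex.normSq_eq_norm_sq, ← Complex.normSq_eq_norm_sq,
        Complex.normSq_apply, Complex.normSq_apply]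
      simp only [Complex.add_re, Complex.add_im, Complex.re_ofNat, Complex.im_ofNat, add_zero]
      nlinarith
    linarith
  have hs2' : 2 ≤ ‖s + 2‖ := by
    have := Complex.re_le_norm (s + 2)
    simp at this
    linarith
  have hs1 : ‖s - 1‖ ≤ ‖s + 2‖ := norm_sub_one_le_add_two (by linarith)
  rw [norm_div, div_le_iff₀ (by linarith)]
  have h5 : 1 + ‖s‖ ≤ 3 / 2 * ‖s + 2‖ := by linarith
  calc ‖Zt s * Mol (XT T) s - (s - 1)‖ ≤ ‖Zt s‖ * ‖Mol (XT T) s‖ + ‖s - 1‖ := by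
        refine (norm_sub_le _ _).trans ?_
        rw [norm_mul]
    _ ≤ (5 * (1 + ‖s‖) ^ 2) * XT T + ‖s + 2‖ := by gcongr
    _ ≤ 5 * (1 + ‖s‖) * (3 / 2 * ‖s + 2‖) * XT T + 1 * 1 * ‖s + 2‖ := by
        have : (1 + ‖s‖) ^ 2 ≤ (1 + ‖s‖) * (3 / 2 * ‖s + 2‖) := by
          rw [sq]; gcongr
        have hX0 : 0 < XT T := by linarith
        nlinarith
    _ ≤ 5 * (1 + ‖s‖) * (3 / 2 * ‖s + 2‖) * XT T + (1 + ‖s‖) * XT T * ‖s + 2‖ := by
        have : 0 ≤ ‖s‖ := norm_nonneg s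
        gcongr
        linarith
    _ ≤ _ := by
        have hX0 : 0 < XT T := by linarith
        have : 0 ≤ ‖s‖ := norm_nonneg s
        have h6 : 0 ≤ (1 + ‖s‖) * XT T * ‖s + 2‖ := by positivity
        nlinarith

/-- crude bound -/
lemma HT_crude {T : ℝ} (hT : 1 < T) {σ t : ℝ} (h1 : 1 / 4 ≤ σ) (h2 : σ ≤ 9) :
    ‖HT T (σ + t * I)‖ ^ 2 ≤ 10 ^ 5 * Real.exp (162 / T ^ 2) * XT T ^ 2 * T ^ 2 * Real.exp (-(t / T) ^ 2) := by
  have hT0 : 0 < T := by linarith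
  have hX1 : 1 < XT T := Real.one_lt_rpow hT (by norm_num)
  set s : ℂ := σ + t * I with hs
  have hre : s.re = σ := by rw [hs]; simp
  have him : s.im = t := by rw [hs]; simp
  have hA := HT_crude0 hT (s := s) (by rw [hre]; exact h1)
  have hns : 1 + ‖s‖ ≤ 10 + |t| := by
    have := Complex.norm_le_abs_re_add_abs_im s
    rw [hre, him, abs_of_nonneg (by linarith)] at this
    linarith
  have hpoly : (10 + |t|) ^ 2 * Real.exp (-(t / T) ^ 2) ≤ 202 * T ^ 2 := by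
    have e1 : Real.exp (-(t / T) ^ 2) ≤ 1 := Real.exp_le_one_iff.mpr (by
      have := sq_nonneg (t / T); linarith)
    have e2 : (t / T) ^ 2 * Real.exp (-(t / T) ^ 2) ≤ 1 := by
      have h3 := Real.add_one_le_exp ((t / T) ^ 2)
      rw [Real.exp_neg, ← div_eq_mul_inv, div_le_one (Real.exp_pos _)]
      linarith
    have e3 : (10 + |t|) ^ 2 ≤ 2 * 100 + 2 * t ^ 2 := by
      have := sq_abs t
      nlinarith [sq_nonneg (10 - |t|)]
    have e4 : t ^ 2 * Real.exp (-(t / T) ^ 2) ≤ T ^ 2 := by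
      have : t ^ 2 * Real.exp (-(t / T) ^ 2) = T ^ 2 * ((t / T) ^ 2 * Real.exp (-(t / T) ^ 2)) := by
        field_simp
      rw [this]
      nlinarith [sq_nonneg T]
    have e5 := Real.exp_pos (-(t / T) ^ 2)
    have hT2 : 1 ≤ T ^ 2 := by nlinarith
    calc (10 + |t|) ^ 2 * Real.exp (-(t / T) ^ 2) ≤ (2 * 100 + 2 * t ^ 2) * Real.exp (-(t / T) ^ 2) := by gcongr
      _ = 200 * Real.exp (-(t / T) ^ 2) + 2 * (t ^ 2 * Real.exp (-(t / T) ^ 2)) := by ring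
      _ ≤ 200 * 1 + 2 * T ^ 2 := by gcongr
      _ ≤ _ := by nlinarith
  unfold HT
  rw [norm_mul, mul_pow, hs, norm_exp_sq, ← hs]
  have he : Real.exp ((σ ^ 2 - t ^ 2) / T ^ 2) ^ 2 ≤ Real.exp (162 / T ^ 2) * (Real.exp (-(t / T) ^ 2) * Real.exp (-(t / T) ^ 2)) := by
    rw [← Real.exp_nat_mul, ← Real.exp_add, ← Real.exp_add]
    apply Real.exp_le_exp.mpr
    have : σ ^ 2 ≤ 81 := by nlinarith
    have e : ((2:ℕ):ℝ) * ((σ ^ 2 - t ^ 2) / T ^ 2) = (2 * σ ^ 2) / T ^ 2 + (-(t / T) ^ 2 + -(t / T) ^ 2) := by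
      push_cast; field_simp; ring
    rw [e]
    gcongr
    linarith
  calc ‖(Zt s * Mol (XT T) s - (s - 1)) / (s + 2)‖ ^ 2 * Real.exp ((σ ^ 2 - t ^ 2) / T ^ 2) ^ 2
      ≤ (10 * (10 + |t|) * XT T) ^ 2 * (Real.exp (162 / T ^ 2) * (Real.exp (-(t / T) ^ 2) * Real.exp (-(t / T) ^ 2))) := by
        have hX0 : 0 < XT T := by linarith
        gcongr
        exact hA.trans (by gcongr)
    _ = 100 * XT T ^ 2 * Real.exp (162 / T ^ 2) * ((10 + |t|) ^ 2 * Real.exp (-(t / T) ^ 2)) * Real.exp (-(t / T) ^ 2) := by ring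
    _ ≤ 100 * XT T ^ 2 * Real.exp (162 / T ^ 2) * (202 * T ^ 2) * Real.exp (-(t / T) ^ 2) := by gcongr
    _ ≤ _ := by
        have : 0 ≤ XT T ^ 2 * Real.exp (162 / T ^ 2) * T ^ 2 * Real.exp (-(t / T) ^ 2) := by positivity
        nlinarith

end Pool.Agent.Helper57.LH
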