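import Pool.Agent.Helper57.LH.Done

namespace Pool.Agent.Helper57.LH

open Set MeasureTheory Filter Topology
open Pool.Agent.Helper57.Zeta
open Pool.Agent.Helper57.PC

lemma even_integral {f : ℝ → ℝ} (hf : Integrable f) (he : ∀ x, f (-x) = f x) (R : ℝ) :
    ∫ u in (-R)..R, f u = 2 * ∫ u in (0:ℝ)..R, f u := by
  rw [← intervalIntegral.integral_add_adjacent_intervals (b := 0) hf.intervalIntegrable hf.intervalIntegrable]
  have h3 : ∫ u in (-R)..0, f u = ∫ u in (0:ℝ)..R, f u := by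
    have := intervalIntegral.integral_comp_neg (a := 0) (b := R) (fun u => f u)
    simp only [he, neg_zero] at this
    exact this.symm
  rw [h3]; ring

lemma int_sq_le_half {a b : ℝ} (ha : 0 ≤ a) (hab : a ≤ b) : ∫ u in a..b, PC.sq u ≤ 1 / 2 := by
  have h1 : ∫ u in a..b, PC.sq u ≤ ∫ u in (0:ℝ)..b, PC.sq u := by
    rw [← intervalIntegral.integral_add_adjacent_intervals (a := 0) (b := a) (c := b) (intervalIntegrable_sq _ _) (intervalIntegrable_sq _ _)]
    have : 0 ≤ ∫ u in (0:ℝ)..a, PC.sq u := intervalIntegral.integral_nonneg ha fun u _ => PC.sq_nonneg' u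
    linarith
  have h2 := even_integral sc_integrable sc_even b
  have h3 : ∫ u in (-b)..b, sc u ≤ 1 := by
    rw [← sc_integral, intervalIntegral.integral_of_le (by linarith)]
    exact setIntegral_le_integral sc_integrable (Eventually.of_forall sc_nonneg)
  rw [sc_interval 0 b] at h2
  linarith

lemma Gm_half {τ : ℝ} (hτ : 0 < τ) : ∃ R0 : ℝ, 0 < R0 ∧ ∀ R : ℝ, R0 ≤ R → 1 / 2 - τ ≤ ∫ u in (0:ℝ)..R, Gm u := by
  have ht : Tendsto (fun R : ℝ => ∫ w in (-R)..R, Gm w) atTop (𝓝 (∫ w, Gm w)) :=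
    intervalIntegral_tendsto_integral Gm_integrable tendsto_neg_atTop_atBot tendsto_id
  rw [Gm_integral] at ht
  have h1 := ht.eventually (eventually_ge_nhds (show (1 - 2 * τ : ℝ) < 1 by linarith))
  obtain ⟨R0, hR0⟩ := (h1.and (eventually_gt_atTop 0)).exists_forall_of_atTop
  refine ⟨R0, (hR0 R0 le_rfl).2, fun R hR => ?_⟩
  have h2 := (hR0 R hR).1
  rw [even_integral Gm_integrable Gm_even] at h2
  linarith

/-- The test function. -/
noncomputable def gB (B u : ℝ) : ℝ := Gm (u / B)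

lemma gB_cont (B : ℝ) : Continuous (gB B) := Gm_cont.comp (by fun_prop)
lemma gB_nonneg (B u : ℝ) : 0 ≤ gB B u := Gm_nonneg _
lemma gB_le (B u : ℝ) : gB B u ≤ Gm 0 := Gm_le _
lemma gB_even (B u : ℝ) : gB B (-u) = gB B u := by unfold gB; rw [neg_div, Gm_even]

lemma main_lb {B τ : ℝ} (hB : 0 < B) (hτ : 0 < τ) : ∃ ε0 : ℝ, 0 < ε0 ∧ ∃ R0 : ℝ, ∀ ε : ℝ, 0 < ε → ε ≤ ε0 → ∀ R : ℝ, R0 ≤ R → ε ≤ R →
    B / 2 - Gm 0 / 2 - τ ≤ ∫ u in ε..R, gB B u * pcDensity u := by
  have hG := Gm_zero_pos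
  obtain ⟨R0, hR0, h⟩ := Gm_half (τ := τ / (2 * B)) (by positivity)
  refine ⟨τ / (2 * Gm 0), by positivity, B * R0, fun ε hε hε0 R hR hεR => ?_⟩
  have hgi : ∀ a b : ℝ, IntervalIntegrable (gB B) volume a b := fun a b => (gB_cont B).intervalIntegrable a b
  have hgs : ∀ a b : ℝ, IntervalIntegrable (fun u => gB B u * PC.sq u) volume a b := fun a b =>
    (intervalIntegrable_sq a b).continuousOn_mul (gB_cont B).continuousOn
  have h1 : ∫ u in ε..R, gB B u * pcDensity u = (∫ u in ε..R, gB B u) - ∫ u in ε..R, gB B u * PC.sq u := by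
    rw [← intervalIntegral.integral_sub (hgi _ _) (hgs _ _)]
    apply intervalIntegral.integral_congr
    intro u _
    simp only
    rw [pcDensity_eq]; ring
  have h2 : ∫ u in ε..R, gB B u * PC.sq u ≤ Gm 0 / 2 := by
    have h3 : ∫ u in ε..R, gB B u * PC.sq u ≤ ∫ u in ε..R, Gm 0 * PC.sq u := by
      apply intervalIntegral.integral_mono_on hεR (hgs _ _) ((intervalIntegrable_sq _ _).const_mul _)
      intro u _
      have := gB_le B u
      have := PC.sq_nonneg' u
      gcongr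
    rw [intervalIntegral.integral_const_mul] at h3
    have h4 := int_sq_le_half hε.le hεR
    nlinarith
  have h3 : B / 2 - τ / 2 ≤ ∫ u in (0:ℝ)..R, gB B u := by
    have h4 : ∫ u in (0:ℝ)..R, gB B u = B * ∫ u in (0:ℝ)..(R / B), Gm u := by
      unfold gB
      rw [intervalIntegral.integral_comp_div (fun u => Gm u) hB.ne', smul_eq_mul, zero_div]
    rw [h4]
    have h5 := h (R / B) (by rw [le_div_iff₀ hB]; linarith)
    calc B / 2 - τ / 2 = B * (1 / 2 - τ / (2 * B)) := by field_simp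
      _ ≤ _ := by gcongr
  have h4 : ∫ u in (0:ℝ)..ε, gB B u ≤ τ / 2 := by
    have h5 : ∫ u in (0:ℝ)..ε, gB B u ≤ ∫ _ in (0:ℝ)..ε, Gm 0 := by
      apply intervalIntegral.integral_mono_on hε.le (hgi _ _) intervalIntegrable_const
      intro u _
      exact gB_le B u
    rw [intervalIntegral.integral_const, smul_eq_mul, sub_zero] at h5
    rw [le_div_iff₀ (by positivity)] at hε0
    linarith
  have h5 := intervalIntegral.integral_add_adjacent_intervals (hgi 0 ε) (hgi ε R)
  linarith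

/-- decomposition of the total sum -/
lemma WP_split {T B τ ε R : ℝ} (hε : 0 < ε) (hnear : ∀ x : ℝ, |x| ≤ ε → Gm 0 - τ ≤ gB B x) :
    (Gm 0 - τ) * pairCount T (-ε) ε + 2 * WP T ((Ioc ε R).indicator (gB B)) ≤ WP T (gB B) := by
  classical
  rw [pairCount_WP, ← WP_smul, two_mul]
  nth_rewrite 2 [← WP_neg]
  rw [← WP_add, ← WP_add]
  apply WP_mono
  intro x
  rw [ic_apply, indicator_apply, indicator_apply]
  have h0 := gB_nonneg B x
  have he := gB_even B x
  by_cases h1 : x ∈ Icc (-ε) ε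
  · have h2 : x ∉ Ioc ε R := fun h => absurd h.1 (not_lt.mpr h1.2)
    have h3 : -x ∉ Ioc ε R := fun h => by
      have := h.1; linarith [h1.1]
    rw [if_pos h1, if_neg h2, if_neg h3]
    have := hnear x (abs_le.mpr h1)
    linarith
  · rw [if_neg h1]
    by_cases h2 : x ∈ Ioc ε R
    · have h3 : -x ∉ Ioc ε R := fun h => by
        have := h.1; linarith [h2.1]
      rw [if_pos h2, if_neg h3]
      linarith
    · rw [if_neg h2]
      split_ifs <;> linarith

lemma near_zero {B τ : ℝ} (hB : 0 < B) (hτ : 0 < τ) : ∃ r : ℝ, 0 < r ∧ ∀ x : ℝ, |x| ≤ r → Gm 0 - τ ≤ gB B x := by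
  have h := Metric.continuous_iff.mp (gB_cont B) 0 τ hτ
  obtain ⟨r, hr, h⟩ := h
  refine ⟨r / 2, by positivity, fun x hx => ?_⟩
  have h1 := h x (by rw [Real.dist_eq, sub_zero]; linarith)
  rw [Real.dist_eq] at h1
  have h2 := (abs_lt.mp h1).1
  have h3 : gB B 0 = Gm 0 := by unfold gB; rw [zero_div]
  rw [h3] at h2
  linarith

/-- near-diagonal bound -/
theorem diag_upper {l : Filter ℝ} (hl : l ≤ atTop) (hLH : LowHalf l) {δ : ℝ} (hδ : 0 < δ) :
    ∃ ε : ℝ, 0 < ε ∧ ∀ᶠ T : ℝ in l, pairCount T (-ε) ε ≤ (1 + δ) * SN T := by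
  obtain ⟨C, hC, hpb⟩ := pair_bound
  have hG := Gm_zero_pos
  set δ' := min δ 1 with hδ'
  have hd0 : 0 < δ' := lt_min hδ one_pos
  have hd1 : δ' ≤ 1 := min_le_right _ _
  have hd2 : δ' ≤ δ := min_le_left _ _
  set τ := δ' * Gm 0 / 9 with hτ
  have hτ0 : 0 < τ := by rw [hτ]; positivity
  set B := max 9600 (C / τ) with hB
  have hB1 : 9600 ≤ B := le_max_left _ _
  have hB0 : 0 < B := by linarith
  have hCB : C / B ≤ τ := by
    rw [div_le_iff₀ hB0]
    have : C / τ ≤ B := le_max_right _ _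
    rw [div_le_iff₀ hτ0] at this
    linarith
  obtain ⟨ε0, hε0, R0, hlb⟩ := main_lb hB0 hτ0
  obtain ⟨r, hr, hnear⟩ := near_zero hB0 hτ0
  set ε := min ε0 r with hε
  have he0 : 0 < ε := lt_min hε0 hr
  have he1 : ε ≤ ε0 := min_le_left _ _
  have he2 : ε ≤ r := min_le_right _ _
  set R := max R0 (ε + 1) with hR
  have hR1 : R0 ≤ R := le_max_left _ _
  have hR2 : ε + 1 ≤ R := le_max_right _ _
  refine ⟨ε, he0, ?_⟩
  have hlow := lower_cont hl hLH he0 (show ε < R by linarith) (gB_cont B) (fun y _ => gB_nonneg B y) hτ0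
  filter_upwards [hlow, hl (hpb B hB1), hl (eventually_gt_atTop 1)] with T h1 h2 hT1
  have hS := SN_pos hT1
  have h3 := WP_split (T := T) (B := B) (τ := τ) (ε := ε) (R := R) he0 (fun x hx => hnear x (hx.trans he2))
  have h4 := hlb ε he0 he1 R hR1 (by linarith)
  have h2' : WP T (gB B) ≤ SN T * (B + C / B) := h2
  have h5 : (B / 2 - Gm 0 / 2 - τ - τ) * SN T ≤ ((∫ u in ε..R, gB B u * pcDensity u) - τ) * SN T := by
    apply mul_le_mul_of_nonneg_right _ hS.le
    linarith
  have h6 : SN T * (B + C / B) ≤ SN T * (B + τ) := by gcongr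
  have h7 : (Gm 0 - τ) * pairCount T (-ε) ε ≤ (Gm 0 + 5 * τ) * SN T := by linarith
  have h8 : 0 < Gm 0 - τ := by rw [hτ]; nlinarith
  have h9 : Gm 0 + 5 * τ ≤ (Gm 0 - τ) * (1 + δ) := by
    have : Gm 0 + 5 * τ ≤ (Gm 0 - τ) * (1 + δ') := by
      rw [hτ]; nlinarith
    nlinarith
  have h10 : (Gm 0 - τ) * pairCount T (-ε) ε ≤ (Gm 0 - τ) * ((1 + δ) * SN T) := by
    calc (Gm 0 - τ) * pairCount T (-ε) ε ≤ (Gm 0 + 5 * τ) * SN T := h7
      _ ≤ ((Gm 0 - τ) * (1 + δ)) * SN T := by gcongr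
      _ = _ := by ring
  exact le_of_mul_le_mul_left h10 h8

/-- The diagonal contains all zeros. -/
lemma NT_le_diag (T : ℝ) : NT T ≤ pairCount T 0 0 := by
  classical
  rw [pairCount_eq, Finset.sum_product]
  unfold NT
  refine Finset.sum_le_sum fun ρ hρ => ?_
  have h1 : (if nd T (ρ, ρ) ∈ Icc (0:ℝ) 0 then (mult ρ : ℝ) * (mult ρ : ℝ) else 0) ≤
      ∑ ρ' ∈ Zf T, if nd T (ρ, ρ') ∈ Icc (0:ℝ) 0 then (mult (ρ, ρ').1 : ℝ) * (mult (ρ, ρ').2 : ℝ) else 0 := by
    apply Finset.single_le_sum (f := fun ρ' => if nd T (ρ, ρ') ∈ Icc (0:ℝ) 0 then (mult (ρ, ρ').1 : ℝ) * (mult (ρ, ρ').2 : ℝ) else 0) _ hρ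
    intro ρ' _
    simp only
    split_ifs <;> positivity
  refine le_trans ?_ h1
  have h2 : nd T (ρ, ρ) = 0 := by unfold nd; simp
  rw [h2, if_pos (by simp)]
  have h3 : mult ρ ≤ mult ρ * mult ρ := by
    rcases Nat.eq_zero_or_pos (mult ρ) with h | h
    · rw [h]
    · exact Nat.le_mul_of_pos_left _ h
  exact_mod_cast h3

lemma diag_lower {l : Filter ℝ} (hl : l ≤ atTop) {δ : ℝ} (hδ : 0 < δ) :
    ∀ᶠ T : ℝ in l, (1 - δ) * SN T ≤ pairCount T 0 0 := by
  obtain ⟨T₀, h⟩ := NT_lower δ hδ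
  filter_upwards [hl (eventually_ge_atTop T₀)] with T hT
  exact (h T hT).trans (NT_le_diag T)

/-- The upper half. -/
theorem upper_half {l : Filter ℝ} (hl : l ≤ atTop) (hLH : LowHalf l) {α β : ℝ} (hα : 0 < α) (hαβ : α < β) {δ : ℝ} (hδ : 0 < δ) :
    ∀ᶠ T : ℝ in l, pairCount T α β ≤ ((∫ u in α..β, pcDensity u) + δ) * SN T := by
  obtain ⟨C, hC, hpb⟩ := pair_bound
  have hG := Gm_zero_pos
  set g0 := Gm 0 with hg0
  obtain ⟨α', hα'0, hα'1, hα'2⟩ : ∃ α' : ℝ, 0 < α' ∧ α' < α ∧ α - α' ≤ δ / 4 := by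
    refine ⟨max (α / 2) (α - δ / 4), ?_, ?_, ?_⟩
    · exact lt_max_of_lt_left (by linarith)
    · apply max_lt <;> linarith
    · have := le_max_right (α / 2) (α - δ / 4)
      linarith
  set τ := min (g0 / 2) (δ * g0 / (4 * (9 + g0))) with hτ
  have hτ0 : 0 < τ := by rw [hτ]; apply lt_min <;> positivity
  have hτ1 : τ ≤ g0 / 2 := min_le_left _ _
  have hτ2 : τ * (9 + g0) ≤ δ * g0 / 4 := by
    have : τ ≤ δ * g0 / (4 * (9 + g0)) := min_le_right _ _
    rw [le_div_iff₀ (by positivity)] at this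
    linarith
  -- threshold for the lower bound by half the maximum
  obtain ⟨r1, hr1, hnear1⟩ := near_zero (B := 1) one_pos (show 0 < g0 / 2 by positivity)
  set B := max (max 9600 (4 * C / (δ * g0))) (β / r1) with hB
  have hB1 : 9600 ≤ B := (le_max_left _ _).trans (le_max_left _ _)
  have hB2 : 4 * C / (δ * g0) ≤ B := (le_max_right _ _).trans (le_max_left _ _)
  have hB3 : β / r1 ≤ B := le_max_right _ _
  have hB0 : 0 < B := by linarith
  have hCB : C / B ≤ δ * g0 / 4 := by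
    rw [div_le_div_iff₀ hB0 (by norm_num)]
    rw [div_le_iff₀ (by positivity)] at hB2
    linarith
  have hhalf : ∀ u : ℝ, 0 ≤ u → u ≤ β → g0 / 2 ≤ gB B u := by
    intro u hu0 hu
    have h1 := hnear1 (u / B) (by
      rw [abs_of_nonneg (by positivity), div_le_iff₀ hB0]
      rw [div_le_iff₀ hr1] at hB3
      linarith)
    unfold gB at h1 ⊢
    rw [div_one] at h1
    linarith
  obtain ⟨ε0, hε0, R0, hlb⟩ := main_lb hB0 hτ0
  obtain ⟨r, hr, hnear⟩ := near_zero hB0 hτ0
  set ε := min (min ε0 r) (α' / 2) with hε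
  have he0 : 0 < ε := lt_min (lt_min hε0 hr) (by positivity)
  have he1 : ε ≤ ε0 := (min_le_left _ _).trans (min_le_left _ _)
  have he2 : ε ≤ r := (min_le_left _ _).trans (min_le_right _ _)
  have he3 : ε ≤ α' / 2 := min_le_right _ _
  set R := max R0 (β + 1) with hR
  have hR1 : R0 ≤ R := le_max_left _ _
  have hR2 : β + 1 ≤ R := le_max_right _ _
  have hlow1 := lower_cont hl hLH he0 (show ε < α' by linarith) (gB_cont B) (fun y _ => gB_nonneg B y) hτ0
  have hlow2 := lower_cont hl hLH hα'0 (show α' < β by linarith) (h := fun u => gB B u - g0 / 2) ((gB_cont B).sub continuous_const)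
    (fun y hy => by have := hhalf y (by linarith [hy.1]) hy.2; linarith) hτ0
  have hlow3 := lower_cont hl hLH (show 0 < β by linarith) (show β < R by linarith) (gB_cont B) (fun y _ => gB_nonneg B y) hτ0
  filter_upwards [hlow1, hlow2, hlow3, hl (hpb B hB1), hl (eventually_gt_atTop 1), diag_lower hl hτ0] with T h1 h2 h3 h4 hT1 hdiag
  have hS := SN_pos hT1
  have h5 := WP_split (T := T) (B := B) (τ := τ) (ε := ε) (R := R) he0 (fun x hx => hnear x (hx.trans he2))
  have h6 := hlb ε he0 he1 R hR1 (by linarith)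
  have h4' : WP T (gB B) ≤ SN T * (B + C / B) := h4
  -- integrals
  have hgi : ∀ a b : ℝ, IntervalIntegrable (fun u => gB B u * pcDensity u) volume a b := fun a b =>
    (intervalIntegrable_pcDensity a b).continuousOn_mul (gB_cont B).continuousOn
  have hI : (∫ u in ε..R, gB B u * pcDensity u) = (∫ u in ε..α', gB B u * pcDensity u) + (∫ u in α'..β, (gB B u - g0 / 2) * pcDensity u) +
      (∫ u in β..R, gB B u * pcDensity u) + g0 / 2 * ∫ u in α'..β, pcDensity u := by
    rw [← intervalIntegral.integral_add_adjacent_intervals (hgi ε β) (hgi β R),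
      ← intervalIntegral.integral_add_adjacent_intervals (hgi ε α') (hgi α' β)]
    have e1 : ∫ u in α'..β, (gB B u - g0 / 2) * pcDensity u = (∫ u in α'..β, gB B u * pcDensity u) - g0 / 2 * ∫ u in α'..β, pcDensity u := by
      rw [← intervalIntegral.integral_const_mul, ← intervalIntegral.integral_sub (hgi _ _) ((intervalIntegrable_pcDensity _ _).const_mul _)]
      apply intervalIntegral.integral_congr
      intro u _
      simp only
      ring
    rw [e1]
    ring
  -- splitting of the sum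
  have h7 : WP T ((Ioc ε α').indicator (gB B)) + WP T ((Ioc α' β).indicator (fun u => gB B u - g0 / 2)) + WP T ((Ioc β R).indicator (gB B)) +
      g0 / 2 * pairCount T α β ≤ WP T ((Ioc ε R).indicator (gB B)) := by
    classical
    have h8 : pairCount T α β ≤ WP T (ic (Ioc α' β)) := by
      rw [pairCount_WP]
      apply WP_mono
      apply ic_mono
      intro x hx
      exact ⟨by linarith [hx.1], hx.2⟩
    have h9 : WP T ((Ioc ε α').indicator (gB B)) + WP T ((Ioc α' β).indicator (fun u => gB B u - g0 / 2)) + WP T ((Ioc β R).indicator (gB B)) +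
      g0 / 2 * WP T (ic (Ioc α' β)) ≤ WP T ((Ioc ε R).indicator (gB B)) := by
      rw [← WP_smul, ← WP_add, ← WP_add, ← WP_add]
      apply WP_mono
      intro x
      rw [ic_apply, indicator_apply, indicator_apply, indicator_apply, indicator_apply]
      have h0 := gB_nonneg B x
      by_cases c1 : x ∈ Ioc ε α'
      · have c2 : x ∉ Ioc α' β := fun h => absurd h.1 (not_lt.mpr c1.2)
        have c3 : x ∉ Ioc β R := fun h => by have := h.1; have := c1.2; linarith
        have c4 : x ∈ Ioc ε R := ⟨c1.1, by have := c1.2; linarith⟩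
        rw [if_pos c1, if_neg c2, if_neg c2, if_neg c3, if_pos c4]
        linarith
      · rw [if_neg c1]
        by_cases c2 : x ∈ Ioc α' β
        · have c3 : x ∉ Ioc β R := fun h => absurd h.1 (not_lt.mpr c2.2)
          have c4 : x ∈ Ioc ε R := ⟨by have := c2.1; linarith, by have := c2.2; linarith⟩
          rw [if_pos c2, if_pos c2, if_neg c3, if_pos c4]
          linarith
        · rw [if_neg c2, if_neg c2]
          by_cases c3 : x ∈ Ioc β R
          · have c4 : x ∈ Ioc ε R := ⟨by have := c3.1; linarith, c3.2⟩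
            rw [if_pos c3, if_pos c4]
            linarith
          · rw [if_neg c3]
            split_ifs <;> linarith
    have h10 : g0 / 2 * pairCount T α β ≤ g0 / 2 * WP T (ic (Ioc α' β)) := by gcongr
    linarith
  -- the diagonal
  have hdiag2 : (1 - τ) * SN T ≤ pairCount T (-ε) ε := hdiag.trans (pairCount_mono T (by linarith) he0.le)
  have h11 : (g0 - τ) * ((1 - τ) * SN T) ≤ (g0 - τ) * pairCount T (-ε) ε := by
    have : 0 ≤ g0 - τ := by linarith
    gcongr
  have h12 : (g0 - τ - g0 * τ) * SN T ≤ (g0 - τ) * ((1 - τ) * SN T) := by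
    rw [← mul_assoc]
    apply mul_le_mul_of_nonneg_right _ hS.le
    nlinarith
  have h13 : (B / 2 - g0 / 2 - τ) * SN T ≤ (∫ u in ε..R, gB B u * pcDensity u) * SN T := by gcongr
  rw [hI] at h13
  have h14 : SN T * (B + C / B) ≤ SN T * (B + δ * g0 / 4) := by gcongr
  have h15 : (∫ u in α'..β, pcDensity u) ≤ (∫ u in α..β, pcDensity u) + δ / 4 := by
    rw [← intervalIntegral.integral_add_adjacent_intervals (intervalIntegrable_pcDensity α' α) (intervalIntegrable_pcDensity α β)]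
    have := int_F_le hα'1.le
    linarith
  have h16 : g0 * pairCount T α β ≤ (δ * g0 / 4 + τ * (9 + g0) + g0 * ∫ u in α'..β, pcDensity u) * SN T := by
    linarith
  have h17 : (δ * g0 / 4 + τ * (9 + g0) + g0 * ∫ u in α'..β, pcDensity u) * SN T ≤ (g0 * ((∫ u in α..β, pcDensity u) + δ)) * SN T := by
    apply mul_le_mul_of_nonneg_right _ hS.le
    have h20 : g0 * ∫ u in α'..β, pcDensity u ≤ g0 * ((∫ u in α..β, pcDensity u) + δ / 4) := by gcongr
    have h21 : 0 < δ * g0 := by positivity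
    linarith
  have h18 : g0 * pairCount T α β ≤ g0 * (((∫ u in α..β, pcDensity u) + δ) * SN T) := by
    linarith
  exact le_of_mul_le_mul_left h18 hG

end Pool.Agent.Helper57.LH
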