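import Mathlib

namespace Pool.Agent.Helper57.LH

open Complex Set MeasureTheory Filter Topology Metric

/-- real digamma -/
noncomputable def dg (x : ℝ) : ℝ := deriv Real.Gamma x / Real.Gamma x

lemma ne_neg_nat {x : ℝ} (hx : 0 < x) (m : ℕ) : (x : ℂ) ≠ -m := by
  intro h
  have := congrArg Complex.re h
  simp at this
  have : (0:ℝ) ≤ m := Nat.cast_nonneg m
  linarith

lemma ne_neg_nat_re {s : ℂ} (hs : 0 < s.re) (m : ℕ) : s ≠ -m := by
  intro h
  have := congrArg Complex.re h
  simp at this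
  have : (0:ℝ) ≤ m := Nat.cast_nonneg m
  linarith

lemma digamma_ofReal {x : ℝ} (hx : 0 < x) : Complex.digamma (x : ℂ) = ((dg x : ℝ) : ℂ) := by
  have h1 : HasDerivAt (fun y : ℝ => Complex.Gamma (y : ℂ)) (deriv Complex.Gamma (x : ℂ)) x :=
    ((Complex.differentiableAt_Gamma (x:ℂ) (ne_neg_nat hx)).hasDerivAt).comp_ofReal
  have h2 : HasDerivAt (fun y : ℝ => ((Real.Gamma y : ℝ) : ℂ)) ((deriv Real.Gamma x : ℝ) : ℂ) x :=
    ((Real.differentiableAt_Gamma (s := x) (fun m h => by
      have : (0:ℝ) ≤ m := Nat.cast_nonneg m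
      linarith)).hasDerivAt).ofReal_comp
  have h3 : (fun y : ℝ => Complex.Gamma (y : ℂ)) = fun y : ℝ => ((Real.Gamma y : ℝ) : ℂ) := by
    funext y; exact Complex.Gamma_ofReal y
  rw [h3] at h1
  have h4 := h1.unique h2
  rw [Complex.digamma_def, logDeriv_apply, h4, Complex.Gamma_ofReal]
  unfold dg
  push_cast
  rfl

lemma deriv_logGamma {x : ℝ} (hx : 0 < x) : deriv (Real.log ∘ Real.Gamma) x = dg x := by
  have hd : DifferentiableAt ℝ Real.Gamma x := Real.differentiableAt_Gamma (s := x) (fun m h => by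
      have : (0:ℝ) ≤ m := Nat.cast_nonneg m
      linarith)
  have := (hd.hasDerivAt.log (Real.Gamma_pos_of_pos hx).ne').deriv
  unfold dg
  rw [← this]
  rfl

lemma dg_le_log {x : ℝ} (hx : 0 < x) : dg x ≤ Real.log x := by
  have hd : DifferentiableAt ℝ (Real.log ∘ Real.Gamma) x := by
    have h1 : DifferentiableAt ℝ Real.Gamma x := Real.differentiableAt_Gamma (s := x) (fun m h => by
      have : (0:ℝ) ≤ m := Nat.cast_nonneg m
      linarith)
    exact (Real.differentiableAt_log (Real.Gamma_pos_of_pos hx).ne').comp x h1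
  have h := Real.convexOn_log_Gamma.deriv_le_slope (mem_Ioi.mpr hx) (mem_Ioi.mpr (show 0 < x + 1 by linarith)) (by linarith) hd
  rw [deriv_logGamma hx] at h
  refine h.trans (le_of_eq ?_)
  rw [slope_def_field]
  simp only [Function.comp_apply, add_sub_cancel_left, div_one]
  rw [Real.Gamma_add_one hx.ne', Real.log_mul hx.ne' (Real.Gamma_pos_of_pos hx).ne']
  ring

lemma log_le_dg {x : ℝ} (hx : 0 < x) : Real.log x ≤ dg (x + 1) := by
  have hx1 : 0 < x + 1 := by linarith
  have hd : DifferentiableAt ℝ (Real.log ∘ Real.Gamma) (x + 1) := by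
    have h1 : DifferentiableAt ℝ Real.Gamma (x + 1) := Real.differentiableAt_Gamma (s := x + 1) (fun m h => by
      have : (0:ℝ) ≤ m := Nat.cast_nonneg m
      linarith)
    exact (Real.differentiableAt_log (Real.Gamma_pos_of_pos hx1).ne').comp _ h1
  have h := Real.convexOn_log_Gamma.slope_le_deriv (mem_Ioi.mpr hx) (mem_Ioi.mpr hx1) (by linarith) hd
  rw [deriv_logGamma hx1] at h
  refine le_trans (le_of_eq ?_) h
  rw [slope_def_field]
  simp only [Function.comp_apply, add_sub_cancel_left, div_one]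
  rw [Real.Gamma_add_one hx.ne', Real.log_mul hx.ne' (Real.Gamma_pos_of_pos hx).ne']
  ring

lemma digamma_add_nat {s : ℂ} (hs : 0 < s.re) (n : ℕ) :
    Complex.digamma (s + n) = Complex.digamma s + ∑ k ∈ Finset.range n, 1 / ((k:ℂ) + s) := by
  induction n with
  | zero => simp
  | succ n ih =>
    rw [Finset.sum_range_succ, ← add_assoc, ← ih]
    push_cast
    rw [← add_assoc, Complex.digamma_apply_add_one (s + n) (ne_neg_nat_re (by simp; positivity))]
    rw [one_div, add_comm (n:ℂ) s]

lemma term_bound {M : ℝ} {s : ℂ} (h1 : 1 / 2 < s.re) (h2 : ‖s‖ < M) (n : ℕ) :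
    ‖1 / ((n:ℂ) + 1) - 1 / ((n:ℂ) + s)‖ ≤ (M + 1) * (4 / ((n:ℝ) + 1) ^ 2) := by
  have hn0 : (0:ℝ) ≤ n := Nat.cast_nonneg n
  have hn1 : (n:ℂ) + 1 ≠ 0 := by exact_mod_cast Nat.succ_ne_zero n
  have hre : (n:ℝ) + 1 / 2 ≤ ‖(n:ℂ) + s‖ := by
    have := Complex.re_le_norm ((n:ℂ) + s)
    simp at this
    linarith
  have hns : (n:ℂ) + s ≠ 0 := by
    intro h; rw [h, norm_zero] at hre; linarith
  have e : 1 / ((n:ℂ) + 1) - 1 / ((n:ℂ) + s) = (s - 1) / (((n:ℂ) + 1) * ((n:ℂ) + s)) := by
    field_simp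
    ring
  rw [e, norm_div, norm_mul]
  have h3 : ‖(n:ℂ) + 1‖ = (n:ℝ) + 1 := by
    have : ((n:ℂ) + 1) = ((n + 1 : ℝ) : ℂ) := by push_cast; rfl
    rw [this, Complex.norm_real, Real.norm_of_nonneg (by positivity)]
  rw [h3]
  have h4 : ‖s - 1‖ ≤ M + 1 := by
    have := norm_sub_le s 1
    rw [norm_one] at this
    linarith
  have hM : 0 < M := lt_of_le_of_lt (norm_nonneg s) h2
  calc ‖s - 1‖ / (((n:ℝ) + 1) * ‖(n:ℂ) + s‖) ≤ (M + 1) / (((n:ℝ) + 1) * ((n:ℝ) + 1 / 2)) := by gcongr
    _ ≤ (M + 1) / (((n:ℝ) + 1) * (((n:ℝ) + 1) / 4)) := by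
        gcongr
        linarith
    _ = _ := by field_simp

lemma summable_sq (M : ℝ) : Summable (fun n : ℕ => (M + 1) * (4 / ((n:ℝ) + 1) ^ 2)) := by
  apply Summable.mul_left
  have h := (summable_nat_add_iff 1).mpr (Real.summable_one_div_nat_pow.mpr (show 1 < 2 by norm_num))
  refine (h.mul_left 4).congr fun n => ?_
  push_cast
  ring

lemma digam_summable {s : ℂ} (h1 : 1 / 2 < s.re) : Summable (fun n : ℕ => 1 / ((n:ℂ) + 1) - 1 / ((n:ℂ) + s)) :=
  Summable.of_norm_bounded (summable_sq (‖s‖ + 1)) (fun n => term_bound h1 (by linarith) n)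

lemma digam_real {x : ℝ} (hx : 1 / 2 < x) :
    ∑' n : ℕ, (1 / ((n:ℂ) + 1) - 1 / ((n:ℂ) + (x:ℂ))) = Complex.digamma x + Real.eulerMascheroniConstant := by
  have hx0 : 0 < x := by linarith
  have h1 := (digam_summable (s := (x:ℂ)) (by simpa using hx)).hasSum.tendsto_sum_nat
  refine tendsto_nhds_unique h1 ?_
  have e : ∀ N : ℕ, ∑ n ∈ Finset.range N, (1 / ((n:ℂ) + 1) - 1 / ((n:ℂ) + (x:ℂ))) =
      (((harmonic N : ℝ) - Real.log N : ℝ) : ℂ) + ((Real.log N - dg (x + N) : ℝ) : ℂ) + ((dg x : ℝ) : ℂ) := by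
    intro N
    rw [Finset.sum_sub_distrib]
    have h2 := digamma_add_nat (s := (x:ℂ)) (by simpa using hx0) N
    have h3 : ∑ k ∈ Finset.range N, 1 / ((k:ℂ) + (x:ℂ)) = ((dg (x + N) : ℝ) : ℂ) - ((dg x : ℝ) : ℂ) := by
      rw [digamma_ofReal hx0] at h2
      rw [show (x:ℂ) + (N:ℂ) = ((x + N : ℝ) : ℂ) by push_cast; rfl, digamma_ofReal (by positivity)] at h2
      rw [h2]; ring
    rw [h3]
    have h4 : ∑ n ∈ Finset.range N, 1 / ((n:ℂ) + 1) = ((harmonic N : ℝ) : ℂ) := by
      unfold harmonic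
      push_cast
      refine Finset.sum_congr rfl fun n _ => ?_
      rw [one_div]
    rw [h4]
    push_cast
    ring
  simp_rw [e]
  rw [digamma_ofReal hx0, add_comm ((dg x : ℝ) : ℂ)]
  apply Tendsto.add _ tendsto_const_nhds
  have h5 : Tendsto (fun N : ℕ => ((harmonic N : ℝ) - Real.log N) + (Real.log N - dg (x + N))) atTop
      (𝓝 (Real.eulerMascheroniConstant + 0)) := by
    apply Tendsto.add Real.tendsto_harmonic_sub_log
    have hA : Tendsto (fun N : ℕ => Real.log ((N:ℝ) + x) - Real.log N) atTop (𝓝 0) :=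
      (Real.tendsto_log_comp_add_sub_log x).comp tendsto_natCast_atTop_atTop
    have hB : Tendsto (fun N : ℕ => Real.log ((N:ℝ) + (x - 1)) - Real.log N) atTop (𝓝 0) :=
      (Real.tendsto_log_comp_add_sub_log (x - 1)).comp tendsto_natCast_atTop_atTop
    have hA' := hA.neg
    have hB' := hB.neg
    rw [neg_zero] at hA' hB'
    refine tendsto_of_tendsto_of_tendsto_of_le_of_le' hA' hB' ?_ ?_
    · filter_upwards with N
      have := dg_le_log (x := x + N) (by positivity)
      rw [add_comm (N:ℝ) x]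
      linarith
    · filter_upwards [eventually_ge_atTop 1] with N hN
      have hN1 : (1:ℝ) ≤ N := by exact_mod_cast hN
      have := log_le_dg (x := (N:ℝ) + (x - 1)) (by linarith)
      rw [show (N:ℝ) + (x - 1) + 1 = x + N by ring] at this
      linarith
  rw [add_zero] at h5
  have h6 := (Complex.continuous_ofReal.tendsto _).comp h5
  refine h6.congr fun N => ?_
  simp only [Function.comp_apply]
  push_cast
  ring

/-- The series of the digamma function. -/
theorem digamma_hasSum {s : ℂ} (hs : 1 / 2 < s.re) :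
    HasSum (fun n : ℕ => 1 / ((n:ℂ) + 1) - 1 / ((n:ℂ) + s)) (Complex.digamma s + Real.eulerMascheroniConstant) := by
  have h := (digam_summable hs).hasSum
  suffices h2 : ∑' n : ℕ, (1 / ((n:ℂ) + 1) - 1 / ((n:ℂ) + s)) = Complex.digamma s + Real.eulerMascheroniConstant by
    rwa [h2] at h
  set M : ℝ := ‖s‖ + 2 with hM
  set U : Set ℂ := {z | 1 / 2 < z.re} ∩ ball 0 M with hU
  have hUo : IsOpen U := (isOpen_lt continuous_const Complex.continuous_re).inter isOpen_ball
  have hUc : IsPreconnected U := ((convex_halfSpace_re_gt (1/2)).inter (convex_ball 0 M)).isPreconnected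
  have hmem : ∀ z ∈ U, 1 / 2 < z.re ∧ ‖z‖ < M := by
    intro z hz
    exact ⟨hz.1, by simpa using hz.2⟩
  have hf : AnalyticOnNhd ℂ (fun z => ∑' n : ℕ, (1 / ((n:ℂ) + 1) - 1 / ((n:ℂ) + z))) U := by
    apply DifferentiableOn.analyticOnNhd _ hUo
    apply differentiableOn_tsum_of_summable_norm (summable_sq M)
    · intro n z hz
      have hne : (n:ℂ) + z ≠ 0 := by
        intro h0
        have := congrArg Complex.re h0
        simp at this
        have h3 := (hmem z hz).1
        have : (0:ℝ) ≤ n := Nat.cast_nonneg n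
        linarith
      apply DifferentiableAt.differentiableWithinAt
      apply DifferentiableAt.sub (differentiableAt_const _)
      exact (differentiableAt_const _).div (by fun_prop) hne
    · exact hUo
    · intro n z hz
      exact term_bound (hmem z hz).1 (hmem z hz).2 n
  have hg : AnalyticOnNhd ℂ (fun z => Complex.digamma z + Real.eulerMascheroniConstant) U := by
    have hGam : DifferentiableOn ℂ Complex.Gamma {z | 0 < z.re} := fun z hz =>
      (Complex.differentiableAt_Gamma z (ne_neg_nat_re hz)).differentiableWithinAt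
    have hV : IsOpen {z : ℂ | 0 < z.re} := isOpen_lt continuous_const Complex.continuous_re
    apply DifferentiableOn.analyticOnNhd _ hUo
    intro z hz
    have hz0 : 0 < z.re := by have := (hmem z hz).1; linarith
    have h1 : DifferentiableAt ℂ (deriv Complex.Gamma) z :=
      ((hGam.analyticOnNhd hV) z hz0).deriv.differentiableAt
    have h2 : DifferentiableAt ℂ Complex.Gamma z := Complex.differentiableAt_Gamma z (ne_neg_nat_re hz0)
    have h3 : DifferentiableAt ℂ Complex.digamma z := by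
      rw [Complex.digamma_def]
      exact h1.div h2 (Complex.Gamma_ne_zero_of_re_pos hz0)
    exact (h3.add_const _).differentiableWithinAt
  have h1U : (1:ℂ) ∈ U := by
    constructor
    · simp; norm_num
    · simp [hM]; have := norm_nonneg s; linarith
  have hfreq : ∃ᶠ z in 𝓝[≠] (1:ℂ), (∑' n : ℕ, (1 / ((n:ℂ) + 1) - 1 / ((n:ℂ) + z))) =
      Complex.digamma z + Real.eulerMascheroniConstant := by
    have ht : Tendsto (fun k : ℕ => ((1 + 1 / ((k:ℝ) + 1) : ℝ) : ℂ)) atTop (𝓝[≠] (1:ℂ)) := by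
      rw [tendsto_nhdsWithin_iff]
      constructor
      · have h1 : Tendsto (fun k : ℕ => (1 + 1 / ((k:ℝ) + 1) : ℝ)) atTop (𝓝 (1 + 0)) :=
          tendsto_const_nhds.add tendsto_one_div_add_atTop_nhds_zero_nat
        rw [add_zero] at h1
        have h2 := (Complex.continuous_ofReal.tendsto _).comp h1
        rw [Complex.ofReal_one] at h2
        exact h2
      · filter_upwards with k
        simp only [mem_compl_iff, mem_singleton_iff]
        intro h
        have := congrArg Complex.re h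
        rw [Complex.ofReal_re, Complex.one_re] at this
        have : (0:ℝ) < 1 / ((k:ℝ) + 1) := by positivity
        linarith
    apply ht.frequently
    apply Eventually.frequently
    filter_upwards with k
    apply digam_real
    have : (0:ℝ) < 1 / ((k:ℝ) + 1) := by positivity
    linarith
  have := hf.eqOn_of_preconnected_of_frequently_eq hg hUc h1U hfreq
  exact this (show s ∈ U from ⟨hs, by simp [hM]⟩)

end Pool.Agent.Helper57.LH
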