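import Pool.Agent.Helper57.Zeta.Rvm

namespace Pool.Agent.Helper57.LH

open Complex Set MeasureTheory Filter Topology Metric
open Pool.Agent.Helper57.Zeta

lemma div_point {f : ℂ → ℂ} (hf : Differentiable ℂ f) {b : ℂ} (hb : f b ≠ 0) (a : ℂ) :
    ∃ g : ℂ → ℂ, Differentiable ℂ g ∧ (∀ z, f z = (z - a) ^ (analyticOrderNatAt f a) * g z) ∧ g a ≠ 0 := by
  classical
  obtain ⟨g0, hg0, hg0a, hev⟩ := (hf.analyticAt a).analyticOrderAt_ne_top.mp (order_ne_top hf hb a)
  set n := analyticOrderNatAt f a with hn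
  set G : ℂ → ℂ := fun z => if z = a then g0 a else f z / (z - a) ^ n with hG
  have hGa : G a = g0 a := by simp [hG]
  have hGn : ∀ z, z ≠ a → G z = f z / (z - a) ^ n := by
    intro z hz; simp [hG, hz]
  refine ⟨G, ?_, ?_, by rw [hGa]; exact hg0a⟩
  · intro z
    rcases eq_or_ne z a with rfl | hz
    · have : G =ᶠ[𝓝 z] g0 := by
        filter_upwards [hev] with w hw
        rcases eq_or_ne w z with rfl | hwz
        · exact hGa
        · rw [hGn w hwz, hw, smul_eq_mul, mul_div_cancel_left₀ _ (pow_ne_zero _ (sub_ne_zero.mpr hwz))]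
      exact hg0.differentiableAt.congr_of_eventuallyEq this
    · have : G =ᶠ[𝓝 z] fun w => f w / (w - a) ^ n := by
        filter_upwards [isOpen_ne.mem_nhds hz] with w hw
        exact hGn w hw
      apply DifferentiableAt.congr_of_eventuallyEq _ this
      exact (hf z).div (by fun_prop) (pow_ne_zero _ (sub_ne_zero.mpr hz))
  · intro z
    rcases eq_or_ne z a with rfl | hz
    · rw [hGa]
      have := hev.self_of_nhds
      simpa using this
    · rw [hGn z hz, mul_div_cancel₀ _ (pow_ne_zero _ (sub_ne_zero.mpr hz))]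

lemma order_div {f g : ℂ → ℂ} (hg : Differentiable ℂ g) {a : ℂ} {n : ℕ}
    (h : ∀ z, f z = (z - a) ^ n * g z) {z : ℂ} (hz : z ≠ a) : analyticOrderNatAt g z = analyticOrderNatAt f z := by
  unfold analyticOrderNatAt
  congr 1
  have e : f = (fun z => (z - a) ^ n) * g := by
    funext w; rw [h w]; rfl
  have hp : AnalyticAt ℂ (fun z => (z - a) ^ n) z := by fun_prop
  rw [e, analyticOrderAt_mul hp (hg.analyticAt z), hp.analyticOrderAt_eq_zero.mpr, zero_add]
  exact pow_ne_zero _ (sub_ne_zero.mpr hz)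

/-- dividing out finitely many zeros of an entire function -/
lemma div_finset {f : ℂ → ℂ} (hf : Differentiable ℂ f) {b : ℂ} (hb : f b ≠ 0) (S : Finset ℂ) :
    ∃ g : ℂ → ℂ, Differentiable ℂ g ∧ (∀ z, f z = (∏ a ∈ S, (z - a) ^ (analyticOrderNatAt f a)) * g z) ∧
      (∀ a ∈ S, g a ≠ 0) ∧ (∀ z, z ∉ S → analyticOrderNatAt g z = analyticOrderNatAt f z) := by
  classical
  induction S using Finset.induction_on with
  | empty =>
    refine ⟨f, hf, ?_, ?_, ?_⟩
    · intro z; simp
    · intro a ha; simp at ha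
    · intro z _; rfl
  | insert a S ha ih =>
    obtain ⟨g, hg, hfg, hgS, hord⟩ := ih
    have hgb : g b ≠ 0 := by
      intro h
      apply hb
      rw [hfg b, h, mul_zero]
    obtain ⟨g', hg', hgg', hg'a⟩ := div_point hg hgb a
    rw [hord a ha] at hgg'
    refine ⟨g', hg', ?_, ?_, ?_⟩
    · intro z
      rw [Finset.prod_insert ha, hfg z, hgg' z]
      ring
    · intro c hc
      rw [Finset.mem_insert] at hc
      rcases hc with rfl | hc
      · exact hg'a
      · intro h0
        apply hgS c hc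
        rw [hgg' c, h0, mul_zero]
    · intro z hz
      rw [Finset.mem_insert, not_or] at hz
      rw [order_div hg' hgg' hz.1, hord z hz.2]

end Pool.Agent.Helper57.LH
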