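import Pool.Agent.Helper57.LH.Gtwo

namespace Pool.Agent.Helper57.LH

open Set MeasureTheory Filter Topology
open Pool.Agent.Helper57.Zeta
open Pool.Agent.Helper57.PC

/-- weighted pair sums -/
noncomputable def WP (T : ℝ) (φ : ℝ → ℝ) : ℝ := ∑ p ∈ Zf T ×ˢ Zf T, (mult p.1 : ℝ) * (mult p.2 : ℝ) * φ (nd T p)

lemma WP_mono {T : ℝ} {φ ψ : ℝ → ℝ} (h : ∀ x, φ x ≤ ψ x) : WP T φ ≤ WP T ψ := by
  unfold WP
  refine Finset.sum_le_sum fun p _ => ?_
  have := h (nd T p)
  gcongr

lemma WP_nonneg {T : ℝ} {φ : ℝ → ℝ} (h : ∀ x, 0 ≤ φ x) : 0 ≤ WP T φ := by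
  unfold WP
  refine Finset.sum_nonneg fun p _ => ?_
  have := h (nd T p)
  positivity

lemma WP_add (T : ℝ) (φ ψ : ℝ → ℝ) : WP T (fun x => φ x + ψ x) = WP T φ + WP T ψ := by
  unfold WP
  rw [← Finset.sum_add_distrib]
  refine Finset.sum_congr rfl fun p _ => ?_
  ring

lemma WP_smul (T c : ℝ) (φ : ℝ → ℝ) : WP T (fun x => c * φ x) = c * WP T φ := by
  unfold WP
  rw [Finset.mul_sum]
  refine Finset.sum_congr rfl fun p _ => ?_
  ring

lemma WP_neg (T : ℝ) (φ : ℝ → ℝ) : WP T (fun x => φ (-x)) = WP T φ := by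
  unfold WP
  have hnd : ∀ p : ℂ × ℂ, nd T p.swap = - nd T p := by
    intro p; unfold nd; simp only [Prod.fst_swap, Prod.snd_swap]; ring
  refine Finset.sum_bij' (fun p _ => p.swap) (fun p _ => p.swap) ?_ ?_ ?_ ?_ ?_
  · intro p hp
    rw [Finset.mem_product] at hp ⊢
    exact ⟨hp.2, hp.1⟩
  · intro p hp
    rw [Finset.mem_product] at hp ⊢
    exact ⟨hp.2, hp.1⟩
  · intro p _; exact Prod.swap_swap p
  · intro p _; exact Prod.swap_swap p
  · intro p _
    rw [hnd]
    simp only [Prod.fst_swap, Prod.snd_swap]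
    ring

/-- indicator functions -/
noncomputable def ic (S : Set ℝ) : ℝ → ℝ := S.indicator (fun _ => 1)

open Classical in
lemma ic_apply (S : Set ℝ) (x : ℝ) : ic S x = if x ∈ S then 1 else 0 := by
  unfold ic
  rw [indicator_apply]

lemma ic_nonneg (S : Set ℝ) (x : ℝ) : 0 ≤ ic S x := indicator_nonneg (fun _ _ => zero_le_one) x

lemma ic_le_one (S : Set ℝ) (x : ℝ) : ic S x ≤ 1 := by
  classical
  rw [ic_apply]; split_ifs <;> norm_num

lemma ic_mono {S S' : Set ℝ} (h : S ⊆ S') (x : ℝ) : ic S x ≤ ic S' x :=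
  indicator_le_indicator_of_subset h (fun _ => zero_le_one) x

lemma pairCount_WP (T a b : ℝ) : pairCount T a b = WP T (ic (Icc a b)) := by
  classical
  rw [pairCount_eq]
  unfold WP
  refine Finset.sum_congr rfl fun p _ => ?_
  rw [ic_apply]
  split_ifs <;> simp

/-- the lower half of the pair correlation conjecture, along a filter -/
def LowHalf (l : Filter ℝ) : Prop := ∀ α β : ℝ, 0 < α → α < β → ∀ δ : ℝ, 0 < δ → ∀ᶠ T : ℝ in l,
  ((∫ u in α..β, pcDensity u) - δ) * SN T ≤ pairCount T α β

lemma int_F_le {a b : ℝ} (hab : a ≤ b) : ∫ u in a..b, pcDensity u ≤ b - a := by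
  have h := intervalIntegral.integral_mono_on hab (intervalIntegrable_pcDensity a b) (intervalIntegrable_const (c := (1:ℝ)))
    (fun x _ => pcDensity_le_one x)
  simpa using h

lemma int_F_nonneg {a b : ℝ} (hab : a ≤ b) : 0 ≤ ∫ u in a..b, pcDensity u :=
  intervalIntegral.integral_nonneg hab fun u _ => pcDensity_nonneg u

/-- half-open version -/
lemma lower_Ioc {l : Filter ℝ} (hl : l ≤ atTop) (hLH : LowHalf l) {α β : ℝ} (hα : 0 < α) (hαβ : α < β) {δ : ℝ} (hδ : 0 < δ) :
    ∀ᶠ T : ℝ in l, ((∫ u in α..β, pcDensity u) - δ) * SN T ≤ WP T (ic (Ioc α β)) := by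
  set θ : ℝ := min (δ / 2) ((β - α) / 2) with hθ
  have hθ0 : 0 < θ := by rw [hθ]; apply lt_min <;> linarith
  have hθ1 : θ ≤ δ / 2 := min_le_left _ _
  have hθ2 : θ ≤ (β - α) / 2 := min_le_right _ _
  have h1 := hLH (α + θ) β (by linarith) (by linarith) (δ / 2) (by linarith)
  filter_upwards [h1, hl (eventually_gt_atTop 1)] with T hT hT1
  have hS := SN_pos hT1
  have h2 : pairCount T (α + θ) β ≤ WP T (ic (Ioc α β)) := by
    rw [pairCount_WP]
    apply WP_mono
    apply ic_mono
    intro x hx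
    exact ⟨by linarith [hx.1], hx.2⟩
  have h3 : (∫ u in α..β, pcDensity u) ≤ (∫ u in (α + θ)..β, pcDensity u) + θ := by
    rw [← intervalIntegral.integral_add_adjacent_intervals (intervalIntegrable_pcDensity α (α + θ)) (intervalIntegrable_pcDensity (α + θ) β)]
    have := int_F_le (show α ≤ α + θ by linarith)
    linarith
  have h4 : ((∫ u in α..β, pcDensity u) - δ) * SN T ≤ ((∫ u in (α + θ)..β, pcDensity u) - δ / 2) * SN T := by
    apply mul_le_mul_of_nonneg_right _ hS.le
    linarith
  linarith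

/-- lower bounds for step functions -/
lemma lower_step {l : Filter ℝ} (hl : l ≤ atTop) (hLH : LowHalf l) (x : ℕ → ℝ) (hx : ∀ k, x k < x (k + 1)) (hx0 : 0 < x 0)
    (c : ℕ → ℝ) (hc : ∀ k, 0 ≤ c k) (n : ℕ) : ∀ δ : ℝ, 0 < δ → ∀ᶠ T : ℝ in l,
    ((∑ k ∈ Finset.range n, c k * ∫ u in (x k)..(x (k + 1)), pcDensity u) - δ) * SN T ≤
      ∑ k ∈ Finset.range n, c k * WP T (ic (Ioc (x k) (x (k + 1)))) := by
  have hxpos : ∀ k, 0 < x k := by
    intro k
    induction k with
    | zero => exact hx0
    | succ k ih => exact ih.trans (hx k)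
  induction n with
  | zero =>
    intro δ hδ
    filter_upwards [hl (eventually_gt_atTop 1)] with T hT1
    have hS := SN_pos hT1
    simp only [Finset.range_zero, Finset.sum_empty, zero_sub]
    nlinarith
  | succ n ih =>
    intro δ hδ
    have hcn := hc n
    filter_upwards [ih (δ / 2) (by linarith), lower_Ioc hl hLH (hxpos n) (hx n) (δ := δ / (2 * (c n + 1))) (by positivity),
      hl (eventually_gt_atTop 1)] with T h1 h2 hT1
    have hS := SN_pos hT1
    rw [Finset.sum_range_succ, Finset.sum_range_succ]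
    have h3 : c n * (((∫ u in (x n)..(x (n + 1)), pcDensity u) - δ / (2 * (c n + 1))) * SN T) ≤ c n * WP T (ic (Ioc (x n) (x (n + 1)))) := by
      gcongr
    have h4 : c n * (δ / (2 * (c n + 1))) ≤ δ / 2 := by
      rw [← mul_div_assoc, div_le_div_iff₀ (by positivity) (by norm_num)]
      nlinarith
    have h5 : (c n * (∫ u in (x n)..(x (n + 1)), pcDensity u) - δ / 2) * SN T ≤ c n * (((∫ u in (x n)..(x (n + 1)), pcDensity u) - δ / (2 * (c n + 1))) * SN T) := by
      rw [← mul_assoc, mul_sub]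
      apply mul_le_mul_of_nonneg_right _ hS.le
      linarith
    calc (∑ k ∈ Finset.range n, c k * (∫ u in (x k)..(x (k + 1)), pcDensity u) + c n * (∫ u in (x n)..(x (n + 1)), pcDensity u) - δ) * SN T
        = (∑ k ∈ Finset.range n, c k * (∫ u in (x k)..(x (k + 1)), pcDensity u) - δ / 2) * SN T + (c n * (∫ u in (x n)..(x (n + 1)), pcDensity u) - δ / 2) * SN T := by ring
      _ ≤ _ := by linarith

lemma step_le (x : ℕ → ℝ) (hx : ∀ k, x k < x (k + 1)) (c : ℕ → ℝ) (h : ℝ → ℝ) (n : ℕ)
    (hh : ∀ y ∈ Icc (x 0) (x n), 0 ≤ h y) (hc : ∀ k < n, ∀ y ∈ Ioc (x k) (x (k + 1)), c k ≤ h y) (y : ℝ) :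
    ∑ k ∈ Finset.range n, c k * ic (Ioc (x k) (x (k + 1))) y ≤ (Ioc (x 0) (x n)).indicator h y := by
  classical
  have hmono : StrictMono x := strictMono_nat_of_lt_succ hx
  induction n with
  | zero => simp
  | succ n ih =>
    rw [Finset.sum_range_succ]
    have ih' := ih (fun y hy => hh y ⟨hy.1, hy.2.trans (hx n).le⟩) (fun k hk => hc k (by omega))
    by_cases hy : y ∈ Ioc (x n) (x (n + 1))
    · have h1 : (Ioc (x 0) (x n)).indicator h y = 0 := by
        rw [indicator_of_notMem]
        intro hy'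
        exact absurd hy'.2 (not_le.mpr hy.1)
      have h2 : (Ioc (x 0) (x (n + 1))).indicator h y = h y := by
        rw [indicator_of_mem]
        exact ⟨lt_of_le_of_lt (hmono.monotone (Nat.zero_le n)) hy.1, hy.2⟩
      rw [h1] at ih'
      rw [h2, ic_apply, if_pos hy]
      have := hc n (by omega) y hy
      linarith
    · rw [ic_apply, if_neg hy, mul_zero, add_zero]
      refine ih'.trans ?_
      by_cases hy2 : y ∈ Ioc (x 0) (x n)
      · rw [indicator_of_mem hy2, indicator_of_mem]
        exact ⟨hy2.1, hy2.2.trans (hx n).le⟩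
      · rw [indicator_of_notMem hy2]
        apply indicator_nonneg
        intro z hz
        exact hh z ⟨hz.1.le, hz.2⟩

lemma WP_sum {ι : Type*} (T : ℝ) (s : Finset ι) (c : ι → ℝ) (φ : ι → ℝ → ℝ) :
    WP T (fun y => ∑ k ∈ s, c k * φ k y) = ∑ k ∈ s, c k * WP T (φ k) := by
  unfold WP
  simp_rw [Finset.mul_sum]
  rw [Finset.sum_comm]
  refine Finset.sum_congr rfl fun k _ => Finset.sum_congr rfl fun p _ => ?_
  ring

/-- Lower bounds for continuous functions. -/
theorem lower_cont {l : Filter ℝ} (hl : l ≤ atTop) (hLH : LowHalf l) {a b : ℝ} (ha : 0 < a) (hab : a < b) {h : ℝ → ℝ}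
    (hhc : Continuous h) (hh : ∀ y ∈ Icc a b, 0 ≤ h y) {δ : ℝ} (hδ : 0 < δ) :
    ∀ᶠ T : ℝ in l, ((∫ u in a..b, h u * pcDensity u) - δ) * SN T ≤ WP T ((Ioc a b).indicator h) := by
  have hba : 0 < b - a := by linarith
  set η := δ / (4 * (b - a)) with hη
  have hη0 : 0 < η := by rw [hη]; positivity
  have huc := isCompact_Icc.uniformContinuousOn_of_continuous (s := Icc a b) hhc.continuousOn
  rw [Metric.uniformContinuousOn_iff] at huc
  obtain ⟨r, hr, hur⟩ := huc η hη0
  obtain ⟨n, hn⟩ := exists_nat_gt ((b - a) / r)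
  have hn0 : (0:ℝ) < n := lt_trans (by positivity) hn
  set d := (b - a) / n with hd
  have hd0 : 0 < d := by rw [hd]; positivity
  have hdr : d < r := by
    rw [hd, div_lt_iff₀ hn0]
    rw [div_lt_iff₀ hr] at hn
    linarith
  set x : ℕ → ℝ := fun k => a + k * d with hx
  have hx1 : ∀ k, x k < x (k + 1) := by
    intro k
    rw [hx]; simp only; push_cast; linarith
  have hx0 : x 0 = a := by rw [hx]; simp
  have hxn : x n = b := by
    rw [hx]; simp only; rw [hd]; field_simp; ring
  have hmono : StrictMono x := strictMono_nat_of_lt_succ hx1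
  have hcell : ∀ k < n, ∀ y ∈ Icc (x k) (x (k + 1)), |h y - h (x k)| < η := by
    intro k hk y hy
    have h1 : a ≤ x k := by rw [← hx0]; exact hmono.monotone (Nat.zero_le k)
    have h2 : x (k + 1) ≤ b := by rw [← hxn]; exact hmono.monotone (by omega)
    have h3 := hur y ⟨h1.trans hy.1, hy.2.trans h2⟩ (x k) ⟨h1, (hx1 k).le.trans h2⟩ (by
      rw [Real.dist_eq, abs_of_nonneg (by linarith [hy.1])]
      have h4 : x (k + 1) - x k = d := by rw [hx]; simp only; push_cast; ring
      linarith [hy.2])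
    rwa [Real.dist_eq] at h3
  set c : ℕ → ℝ := fun k => max 0 (h (x k) - η) with hc
  have hc0 : ∀ k, 0 ≤ c k := fun k => le_max_left _ _
  have hstep := lower_step hl hLH x hx1 (by rw [hx0]; exact ha) c hc0 n (δ / 2) (by linarith)
  filter_upwards [hstep, hl (eventually_gt_atTop 1)] with T hT hT1
  have hS := SN_pos hT1
  -- upper bound for the step sum
  have h1 : ∑ k ∈ Finset.range n, c k * WP T (ic (Ioc (x k) (x (k + 1)))) ≤ WP T ((Ioc a b).indicator h) := by
    rw [← WP_sum]
    apply WP_mono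
    intro y
    have := step_le x hx1 c h n (by rw [hx0, hxn]; exact hh) (by
      intro k hk y hy
      rw [hc]
      apply max_le
      · apply hh
        have h1 : a ≤ x k := by rw [← hx0]; exact hmono.monotone (Nat.zero_le k)
        have h2 : x (k + 1) ≤ b := by rw [← hxn]; exact hmono.monotone (by omega)
        exact ⟨h1.trans hy.1.le, hy.2.trans h2⟩
      · have := (abs_lt.mp (hcell k hk y ⟨hy.1.le, hy.2⟩)).1
        linarith) y
    rwa [hx0, hxn] at this
  -- lower bound for the integrals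
  have hi : ∀ a b : ℝ, IntervalIntegrable (fun u => h u * pcDensity u) volume a b := fun a b =>
    (intervalIntegrable_pcDensity a b).continuousOn_mul hhc.continuousOn
  have h2 : (∫ u in a..b, h u * pcDensity u) - δ / 2 ≤ ∑ k ∈ Finset.range n, c k * ∫ u in (x k)..(x (k + 1)), pcDensity u := by
    have e1 : ∫ u in a..b, h u * pcDensity u = ∑ k ∈ Finset.range n, ∫ u in (x k)..(x (k + 1)), h u * pcDensity u := by
      rw [intervalIntegral.sum_integral_adjacent_intervals (fun k _ => hi _ _), hx0, hxn]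
    rw [e1]
    have h3 : ∀ k ∈ Finset.range n, (∫ u in (x k)..(x (k + 1)), h u * pcDensity u) ≤ c k * (∫ u in (x k)..(x (k + 1)), pcDensity u) + 2 * η * d := by
      intro k hk
      rw [Finset.mem_range] at hk
      have h4 : ∫ u in (x k)..(x (k + 1)), h u * pcDensity u ≤ ∫ u in (x k)..(x (k + 1)), (c k * pcDensity u + 2 * η) := by
        apply intervalIntegral.integral_mono_on (hx1 k).le (hi _ _)
          (((intervalIntegrable_pcDensity _ _).const_mul _).add intervalIntegrable_const)
        intro u hu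
        have h5 := (abs_lt.mp (hcell k hk u hu)).2
        have h6 : h u ≤ c k + 2 * η := by
          have : h (x k) - η ≤ c k := le_max_right _ _
          linarith
        have h7 := pcDensity_nonneg u
        have h8 := pcDensity_le_one u
        nlinarith
      rw [intervalIntegral.integral_add ((intervalIntegrable_pcDensity _ _).const_mul _) intervalIntegrable_const,
        intervalIntegral.integral_const_mul, intervalIntegral.integral_const, smul_eq_mul] at h4
      have h9 : x (k + 1) - x k = d := by rw [hx]; simp only; push_cast; ring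
      rw [h9] at h4
      linarith
    have h10 := Finset.sum_le_sum h3
    rw [Finset.sum_add_distrib, Finset.sum_const, Finset.card_range, nsmul_eq_mul] at h10
    have h11 : (n:ℝ) * (2 * η * d) = δ / 2 := by
      rw [hη, hd]; field_simp; ring
    linarith
  have h3 : ((∫ u in a..b, h u * pcDensity u) - δ) * SN T ≤ ((∑ k ∈ Finset.range n, c k * ∫ u in (x k)..(x (k + 1)), pcDensity u) - δ / 2) * SN T := by
    apply mul_le_mul_of_nonneg_right _ hS.le
    linarith
  linarith

end Pool.Agent.Helper57.LH
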