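import Pool.Agent.Helper57.LH.Expl2
import Pool.Agent.Helper57.PC.Sinc

namespace Pool.Agent.Helper57.LH

open Set MeasureTheory Filter Topology
open Pool.Agent.Helper57.PC

lemma gs_eq (X v w : ℝ) : gs X v w = 2 / X * ∫ x in (0:ℝ)..X, (1 - x / X) * (Real.cosh (v * x) * Real.cos (w * x)) := by
  unfold gs
  rw [JJ_re, JJ_re, ← intervalIntegral.integral_add]
  · have e : ∫ x in (0:ℝ)..X, ((1 - x / X) * (Real.exp (v * x) * Real.cos (w * x)) + (1 - x / X) * (Real.exp (-v * x) * Real.cos (w * x))) =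
      2 * ∫ x in (0:ℝ)..X, (1 - x / X) * (Real.cosh (v * x) * Real.cos (w * x)) := by
      rw [← intervalIntegral.integral_const_mul]
      apply intervalIntegral.integral_congr
      intro x _
      simp only
      rw [Real.cosh_eq, neg_mul]
      ring
    rw [e]; ring
  · apply Continuous.intervalIntegrable; fun_prop
  · apply Continuous.intervalIntegrable; fun_prop

lemma exp_sub_one_le (y : ℝ) : Real.exp y - 1 ≤ y * Real.exp y := by
  have h := Real.add_one_le_exp (-y)
  have h2 := Real.exp_pos y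
  have h3 : Real.exp (-y) * Real.exp y = 1 := by rw [← Real.exp_add]; simp
  nlinarith

lemma cosh_sub_one_le {y : ℝ} (hy : 0 ≤ y) : Real.cosh y - 1 ≤ y ^ 2 / 2 * Real.exp y := by
  have h1 := exp_sub_one_le y
  have h0 : 0 ≤ Real.exp y - 1 := by have := Real.add_one_le_exp y; linarith
  have hE := Real.exp_pos y
  have e : Real.cosh y - 1 = Real.exp (-y) * (Real.exp y - 1) ^ 2 / 2 := by
    have h3 : Real.exp (-y) * Real.exp y = 1 := by rw [← Real.exp_add]; simp
    rw [Real.cosh_eq]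
    have : Real.exp (-y) * (Real.exp y - 1) ^ 2 = (Real.exp (-y) * Real.exp y) * Real.exp y - 2 * (Real.exp (-y) * Real.exp y) + Real.exp (-y) := by ring
    rw [this, h3]; ring
  rw [e]
  have h4 : (Real.exp y - 1) ^ 2 ≤ (y * Real.exp y) ^ 2 := by gcongr
  have hEn := Real.exp_pos (-y)
  calc Real.exp (-y) * (Real.exp y - 1) ^ 2 / 2 ≤ Real.exp (-y) * (y * Real.exp y) ^ 2 / 2 := by gcongr
    _ = y ^ 2 / 2 * (Real.exp (-y) * Real.exp y) * Real.exp y := by ring
    _ = _ := by rw [← Real.exp_add]; simp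

lemma cosh_sub_one_le' {y U : ℝ} (hy : |y| ≤ U) : Real.cosh y - 1 ≤ U ^ 2 / 2 * Real.exp U := by
  have h0 := abs_nonneg y
  rw [← Real.cosh_abs]
  refine (cosh_sub_one_le h0).trans ?_
  gcongr

lemma cosh_le' {y U : ℝ} (hy : |y| ≤ U) : Real.cosh y ≤ Real.exp U := by
  rw [← Real.cosh_abs, Real.cosh_eq]
  have h1 : Real.exp |y| ≤ Real.exp U := Real.exp_le_exp.mpr hy
  have h2 : Real.exp (-|y|) ≤ Real.exp U := Real.exp_le_exp.mpr (by have := abs_nonneg y; linarith)
  linarith

lemma sinh_le' {y U : ℝ} (hy : |y| ≤ U) : |Real.sinh y| ≤ U * Real.exp U := by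
  have h0 := abs_nonneg y
  rw [Real.abs_sinh, Real.sinh_eq]
  have h1 := exp_sub_one_le (2 * |y|)
  have hE := Real.exp_pos |y|
  have hEn := Real.exp_pos (-|y|)
  have h3 : Real.exp (-|y|) * Real.exp |y| = 1 := by rw [← Real.exp_add]; simp
  have h2 : Real.exp (2 * |y|) = Real.exp |y| ^ 2 := by rw [← Real.exp_nat_mul]; norm_num
  rw [h2] at h1
  have h4 : Real.exp |y| - Real.exp (-|y|) ≤ 2 * |y| * Real.exp |y| := by
    have h5 : Real.exp (-|y|) * (Real.exp |y| ^ 2 - 1) ≤ Real.exp (-|y|) * (2 * |y| * Real.exp |y| ^ 2) := by gcongr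
    have e1 : Real.exp (-|y|) * (Real.exp |y| ^ 2 - 1) = (Real.exp (-|y|) * Real.exp |y|) * Real.exp |y| - Real.exp (-|y|) := by ring
    have e2 : Real.exp (-|y|) * (2 * |y| * Real.exp |y| ^ 2) = 2 * |y| * (Real.exp (-|y|) * Real.exp |y|) * Real.exp |y| := by ring
    rw [e1, e2, h3] at h5
    linarith
  calc (Real.exp |y| - Real.exp (-|y|)) / 2 ≤ |y| * Real.exp |y| := by linarith
    _ ≤ U * Real.exp U := by
        have : 0 ≤ U := h0.trans hy
        gcongr

/-- the difference as an integral -/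
lemma gs_diff (X v w : ℝ) : gs X v w - gs X 0 w = 2 / X * ∫ x in (0:ℝ)..X, (1 - x / X) * (Real.cosh (v * x) - 1) * Real.cos (w * x) := by
  rw [gs_eq, gs_eq, ← mul_sub, ← intervalIntegral.integral_sub]
  · congr 1
    apply intervalIntegral.integral_congr
    intro x _
    simp only [zero_mul, Real.cosh_zero]
    ring
  · apply Continuous.intervalIntegrable; fun_prop
  · apply Continuous.intervalIntegrable; fun_prop

lemma gs_diff_le {X : ℝ} (hX : 0 < X) (v w : ℝ) : |gs X v w - gs X 0 w| ≤ (|v| * X) ^ 2 * Real.exp (|v| * X) := by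
  set U := |v| * X with hU
  rw [gs_diff, abs_mul, abs_of_pos (by positivity)]
  have h1 : |∫ x in (0:ℝ)..X, (1 - x / X) * (Real.cosh (v * x) - 1) * Real.cos (w * x)| ≤ (U ^ 2 / 2 * Real.exp U) * |X - 0| := by
    rw [← Real.norm_eq_abs]
    apply intervalIntegral.norm_integral_le_of_norm_le_const
    intro x hx
    rw [uIoc_of_le hX.le] at hx
    have hx1 : x / X ≤ 1 := by rw [div_le_one hX]; exact hx.2
    have hx0 : 0 ≤ x / X := div_nonneg hx.1.le hX.le
    have hvx : |v * x| ≤ U := by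
      rw [abs_mul, abs_of_pos hx.1, hU]
      have := hx.2
      gcongr
    have hc := cosh_sub_one_le' hvx
    have hc0 := Real.one_le_cosh (v * x)
    rw [Real.norm_eq_abs, abs_mul, abs_mul, abs_of_nonneg (by linarith : 0 ≤ 1 - x / X), abs_of_nonneg (by linarith : 0 ≤ Real.cosh (v * x) - 1)]
    calc (1 - x / X) * (Real.cosh (v * x) - 1) * |Real.cos (w * x)| ≤ 1 * (U ^ 2 / 2 * Real.exp U) * 1 := by
          gcongr
          · linarith
          · exact Real.abs_cos_le_one _
      _ = _ := by ring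
  rw [sub_zero, abs_of_pos hX] at h1
  calc 2 / X * |∫ x in (0:ℝ)..X, (1 - x / X) * (Real.cosh (v * x) - 1) * Real.cos (w * x)| ≤ 2 / X * ((U ^ 2 / 2 * Real.exp U) * X) := by gcongr
    _ = _ := by field_simp

lemma gs_diff_decay {X : ℝ} (hX : 0 < X) (v : ℝ) {w : ℝ} (hw : w ≠ 0) :
    |gs X v w - gs X 0 w| ≤ 7 * ((|v| * X) ^ 2 * Real.exp (|v| * X)) / (X * w) ^ 2 := by
  set U := |v| * X with hU
  have hU0 : 0 ≤ U := by positivity
  rw [gs_diff, abs_mul, abs_of_pos (by positivity)]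
  set φ : ℝ → ℝ := fun x => (1 - x / X) * (Real.cosh (v * x) - 1) with hφ
  set φ1 : ℝ → ℝ := fun x => -(1 / X) * (Real.cosh (v * x) - 1) + (1 - x / X) * (v * Real.sinh (v * x)) with hφ1
  set φ2 : ℝ → ℝ := fun x => -(2 / X) * (v * Real.sinh (v * x)) + (1 - x / X) * (v ^ 2 * Real.cosh (v * x)) with hφ2
  have hvx : ∀ x : ℝ, HasDerivAt (fun x : ℝ => v * x) v x := fun x => by simpa using (hasDerivAt_id x).const_mul v
  have hwx : ∀ x : ℝ, HasDerivAt (fun x : ℝ => w * x) w x := fun x => by simpa using (hasDerivAt_id x).const_mul w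
  have hlin : ∀ x : ℝ, HasDerivAt (fun x : ℝ => 1 - x / X) (-(1 / X)) x := fun x => by
    simpa using ((hasDerivAt_id x).div_const X).const_sub 1
  have hch : ∀ x : ℝ, HasDerivAt (fun x : ℝ => Real.cosh (v * x)) (Real.sinh (v * x) * v) x := fun x => (hvx x).cosh
  have hsh : ∀ x : ℝ, HasDerivAt (fun x : ℝ => Real.sinh (v * x)) (Real.cosh (v * x) * v) x := fun x => (hvx x).sinh
  have d0 : ∀ x, HasDerivAt φ (φ1 x) x := by
    intro x
    have := (hlin x).fun_mul ((hch x).sub_const 1)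
    refine this.congr_deriv ?_
    simp only [hφ1]; ring
  have d1 : ∀ x, HasDerivAt φ1 (φ2 x) x := by
    intro x
    have h1 := ((hch x).sub_const 1).const_mul (-(1 / X))
    have h2 := (hlin x).fun_mul ((hsh x).const_mul v)
    have := h1.fun_add h2
    refine this.congr_deriv ?_
    simp only [hφ2]; ring
  have hc : ∀ x : ℝ, HasDerivAt (fun x : ℝ => Real.cos (w * x)) (-Real.sin (w * x) * w) x := fun x => (hwx x).cos
  have hs : ∀ x : ℝ, HasDerivAt (fun x : ℝ => Real.sin (w * x)) (Real.cos (w * x) * w) x := fun x => (hwx x).sin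
  have hF : ∀ x ∈ uIcc 0 X, HasDerivAt (fun x => φ x * Real.sin (w * x) / w + φ1 x * Real.cos (w * x) / w ^ 2)
      (φ x * Real.cos (w * x) + φ2 x * Real.cos (w * x) / w ^ 2) x := by
    intro x _
    have := (((d0 x).fun_mul (hs x)).div_const w).fun_add (((d1 x).fun_mul (hc x)).div_const (w ^ 2))
    refine this.congr_deriv ?_
    field_simp
    ring
  have hφc : Continuous φ := by simp only [hφ]; fun_prop
  have hφ2c : Continuous φ2 := by simp only [hφ2]; fun_prop
  have hint := intervalIntegral.integral_eq_sub_of_hasDerivAt hF (by apply Continuous.intervalIntegrable; fun_prop)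
  rw [intervalIntegral.integral_add (by apply Continuous.intervalIntegrable; fun_prop) (by apply Continuous.intervalIntegrable; fun_prop)] at hint
  have hval : (φ X * Real.sin (w * X) / w + φ1 X * Real.cos (w * X) / w ^ 2) - (φ 0 * Real.sin (w * 0) / w + φ1 0 * Real.cos (w * 0) / w ^ 2) =
      -(1 / X) * (Real.cosh (v * X) - 1) * Real.cos (w * X) / w ^ 2 := by
    simp only [hφ, hφ1, div_self hX.ne', sub_self, zero_mul, zero_div, mul_zero, Real.cosh_zero, Real.sinh_zero, add_zero, zero_add, sub_zero]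
  rw [hval] at hint
  have hw2 : 0 < w ^ 2 := by positivity
  have hb1 : |-(1 / X) * (Real.cosh (v * X) - 1) * Real.cos (w * X) / w ^ 2| ≤ (U ^ 2 / 2 * Real.exp U) / X / w ^ 2 := by
    rw [abs_div, abs_of_pos hw2]
    gcongr
    rw [abs_mul, abs_mul, abs_neg, abs_of_pos (by positivity : 0 < 1 / X)]
    have hc0 := Real.one_le_cosh (v * X)
    rw [abs_of_nonneg (by linarith : 0 ≤ Real.cosh (v * X) - 1)]
    have hvX : |v * X| ≤ U := by rw [abs_mul, abs_of_pos hX]
    have hc1 := cosh_sub_one_le' hvX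
    calc 1 / X * (Real.cosh (v * X) - 1) * |Real.cos (w * X)| ≤ 1 / X * (U ^ 2 / 2 * Real.exp U) * 1 := by
          gcongr
          exact Real.abs_cos_le_one _
      _ = _ := by ring
  have hb2 : |∫ x in (0:ℝ)..X, φ2 x * Real.cos (w * x) / w ^ 2| ≤ (3 * (U ^ 2 * Real.exp U) / X ^ 2 / w ^ 2) * |X - 0| := by
    rw [← Real.norm_eq_abs]
    apply intervalIntegral.norm_integral_le_of_norm_le_const
    intro x hx
    rw [uIoc_of_le hX.le] at hx
    have hx1 : x / X ≤ 1 := by rw [div_le_one hX]; exact hx.2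
    have hx0 : 0 ≤ x / X := div_nonneg hx.1.le hX.le
    have hvx' : |v * x| ≤ U := by
      rw [abs_mul, abs_of_pos hx.1, hU]
      have := hx.2
      gcongr
    have hv : |v| = U / X := by rw [hU]; field_simp
    have h1 : |φ2 x| ≤ 3 * (U ^ 2 * Real.exp U) / X ^ 2 := by
      simp only [hφ2]
      refine (abs_add_le _ _).trans ?_
      rw [abs_mul, abs_mul, abs_mul, abs_mul, abs_neg, abs_of_pos (by positivity : 0 < 2 / X), abs_of_nonneg (by linarith : 0 ≤ 1 - x / X),
        abs_of_pos (Real.cosh_pos (v * x)), abs_pow, hv]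
      have hs1 := sinh_le' hvx'
      have hc1 := cosh_le' hvx'
      calc 2 / X * (U / X * |Real.sinh (v * x)|) + (1 - x / X) * ((U / X) ^ 2 * Real.cosh (v * x))
          ≤ 2 / X * (U / X * (U * Real.exp U)) + 1 * ((U / X) ^ 2 * Real.exp U) := by
            gcongr
            linarith
        _ = _ := by field_simp; ring
    rw [Real.norm_eq_abs, abs_div, abs_of_pos hw2, abs_mul]
    gcongr
    calc |φ2 x| * |Real.cos (w * x)| ≤ (3 * (U ^ 2 * Real.exp U) / X ^ 2) * 1 := by
          gcongr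
          exact Real.abs_cos_le_one _
      _ = _ := mul_one _
  rw [sub_zero, abs_of_pos hX] at hb2
  have hI : ∫ x in (0:ℝ)..X, (1 - x / X) * (Real.cosh (v * x) - 1) * Real.cos (w * x) =
      -(1 / X) * (Real.cosh (v * X) - 1) * Real.cos (w * X) / w ^ 2 - ∫ x in (0:ℝ)..X, φ2 x * Real.cos (w * x) / w ^ 2 := by
    rw [← hint]
    ring
  rw [hI]
  have hE := Real.exp_pos U
  calc 2 / X * |-(1 / X) * (Real.cosh (v * X) - 1) * Real.cos (w * X) / w ^ 2 - ∫ x in (0:ℝ)..X, φ2 x * Real.cos (w * x) / w ^ 2|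
      ≤ 2 / X * ((U ^ 2 / 2 * Real.exp U) / X / w ^ 2 + (3 * (U ^ 2 * Real.exp U) / X ^ 2 / w ^ 2) * X) := by
        gcongr
        exact (abs_sub _ _).trans (add_le_add hb1 hb2)
    _ = _ := by field_simp; ring

/-- the decay kernel -/
noncomputable def Kd (X w : ℝ) : ℝ := (1 + (X * w) ^ 2)⁻¹

theorem gs_diff_bound {X : ℝ} (hX : 0 < X) (v w : ℝ) :
    |gs X v w - gs X 0 w| ≤ 8 * ((|v| * X) ^ 2 * Real.exp (|v| * X)) * Kd X w := by
  unfold Kd
  set A := (|v| * X) ^ 2 * Real.exp (|v| * X) with hA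
  have hA0 : 0 ≤ A := by positivity
  have h1 := gs_diff_le hX v w
  rw [← hA] at h1
  rcases le_or_gt ((X * w) ^ 2) 7 with h | h
  · refine h1.trans ?_
    rw [← div_eq_mul_inv, le_div_iff₀ (by positivity)]
    nlinarith
  · have hw : w ≠ 0 := by
      rintro rfl
      norm_num at h
    have h2 := gs_diff_decay hX v hw
    rw [← hA] at h2
    refine h2.trans ?_
    rw [← div_eq_mul_inv, div_le_div_iff₀ (by positivity) (by positivity)]
    nlinarith

/-- closed form of the Fejer kernel -/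
lemma gs_zero_eq {X : ℝ} (hX : 0 < X) {w : ℝ} (hw : w ≠ 0) : gs X 0 w = PC.sq (X * w / (2 * Real.pi)) := by
  unfold gs
  have hz : (((0:ℝ) : ℂ) + w * Complex.I) ≠ 0 := by
    intro h
    have := congrArg Complex.im h
    simp at this
    exact hw this
  have hz' : (((-0 : ℝ) : ℂ) + w * Complex.I) = (((0:ℝ) : ℂ) + w * Complex.I) := by simp
  rw [hz', JJ_eq hX hz]
  have e1 : (-(1 / (((0:ℝ) : ℂ) + w * Complex.I)) + (Complex.exp ((((0:ℝ) : ℂ) + w * Complex.I) * X) - 1) / (X * (((0:ℝ) : ℂ) + w * Complex.I) ^ 2)).re =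
      (1 - Real.cos (w * X)) / (X * w ^ 2) := by
    rw [Complex.add_re, Complex.neg_re, one_div, Complex.inv_re]
    have e2 : (X : ℂ) * (((0:ℝ) : ℂ) + w * Complex.I) ^ 2 = ((-(X * w ^ 2) : ℝ) : ℂ) := by
      push_cast
      rw [zero_add, mul_pow, Complex.I_sq]
      ring
    have e3 : (((0:ℝ) : ℂ) + w * Complex.I) * X = ((w * X : ℝ) : ℂ) * Complex.I := by push_cast; ring
    rw [e2, e3, Complex.div_ofReal_re, Complex.sub_re, Complex.exp_ofReal_mul_I_re]
    simp
    rw [div_neg, ← neg_div]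
    congr 1
    ring
  rw [e1]
  unfold PC.sq
  have hpi := Real.pi_pos
  rw [show Real.pi * (X * w / (2 * Real.pi)) = w * X / 2 by field_simp]
  have h4 : 1 - Real.cos (w * X) = 2 * Real.sin (w * X / 2) ^ 2 := by
    have := Real.cos_sq (w * X / 2)
    have h5 := Real.sin_sq_add_cos_sq (w * X / 2)
    rw [show 2 * (w * X / 2) = w * X by ring] at this
    linarith
  rw [h4]
  field_simp
  ring

lemma gs_zero_zero {X : ℝ} (hX : 0 < X) : gs X 0 0 = 1 := by
  rw [gs_eq]
  simp only [zero_mul, Real.cosh_zero, Real.cos_zero, mul_one]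
  have : ∫ x in (0:ℝ)..X, (1 - x / X) = X / 2 := by
    rw [intervalIntegral.integral_sub (by simp) (by apply Continuous.intervalIntegrable; fun_prop)]
    rw [intervalIntegral.integral_div, integral_id]
    simp
    field_simp
    ring
  rw [this]
  field_simp

lemma gs_zero_nonneg {X : ℝ} (hX : 0 < X) (w : ℝ) : 0 ≤ gs X 0 w := by
  rcases eq_or_ne w 0 with rfl | hw
  · rw [gs_zero_zero hX]; norm_num
  · rw [gs_zero_eq hX hw]; exact sq_nonneg' _

lemma gs_zero_le_one {X : ℝ} (hX : 0 < X) (w : ℝ) : gs X 0 w ≤ 1 := by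
  rcases eq_or_ne w 0 with rfl | hw
  · rw [gs_zero_zero hX]
  · rw [gs_zero_eq hX hw]; exact sq_le_one _

lemma gs_zero_decay {X : ℝ} (hX : 0 < X) (w : ℝ) : gs X 0 w ≤ 5 * Kd X w := by
  unfold Kd
  rcases eq_or_ne w 0 with rfl | hw
  · rw [gs_zero_zero hX]; norm_num
  · have h1 : gs X 0 w ≤ 4 / (X * w) ^ 2 := by
      rw [gs_zero_eq hX hw]
      unfold PC.sq
      have hpi := Real.pi_pos
      rw [show Real.pi * (X * w / (2 * Real.pi)) = w * X / 2 by field_simp, div_pow]
      have h2 : Real.sin (w * X / 2) ^ 2 ≤ 1 := Real.sin_sq_le_one _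
      calc Real.sin (w * X / 2) ^ 2 / (w * X / 2) ^ 2 ≤ 1 / (w * X / 2) ^ 2 := by gcongr
        _ = _ := by field_simp; norm_num
    have h2 := gs_zero_le_one hX w
    rcases le_or_gt ((X * w) ^ 2) 4 with h | h
    · refine h2.trans ?_
      rw [← div_eq_mul_inv, le_div_iff₀ (by positivity)]
      linarith
    · refine h1.trans ?_
      rw [← div_eq_mul_inv, div_le_div_iff₀ (by positivity) (by positivity)]
      linarith

end Pool.Agent.Helper57.LH
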