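import Pool.Agent.Helper57.LH.LocE
import Pool.Agent.Helper57.LH.GsB

namespace Pool.Agent.Helper57.LH

open Set MeasureTheory Filter Topology
open Pool.Agent.Helper57.Zeta

lemma loc_count (F : Finset ZS) (τ : ℝ) (h : ∀ ρ ∈ F, |(ρ:ℂ).im - τ| ≤ 1) : ∑ ρ ∈ F, mx ρ ≤ 5 / 2 * Afun τ := by
  have h1 : ∑ ρ ∈ F, fz ρ τ ≤ Afun τ := sum_le_hasSum F (fun i _ => fz_nonneg i τ) (fz_hasSum τ)
  have h2 : ∑ ρ ∈ F, mx ρ ≤ ∑ ρ ∈ F, 5 / 2 * fz ρ τ := by
    refine Finset.sum_le_sum fun ρ hρ => ?_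
    have hr := zs_re ρ
    have hu := h ρ hρ
    unfold fz
    set a := 2 - (ρ:ℂ).re with ha
    have ha1 : 1 < a := by rw [ha]; linarith
    have ha2 : a < 2 := by rw [ha]; linarith
    have hm := mx_nonneg (ρ:ℂ)
    have h3 : (τ - (ρ:ℂ).im) ^ 2 ≤ 1 := by
      rw [← sq_abs, abs_sub_comm]
      nlinarith [abs_nonneg ((ρ:ℂ).im - τ)]
    have h4 : 2 / 5 ≤ a / (a ^ 2 + (τ - (ρ:ℂ).im) ^ 2) := by
      rw [div_le_div_iff₀ (by norm_num) (by positivity)]
      nlinarith
    nlinarith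
  rw [← Finset.mul_sum] at h2
  linarith

lemma Kd_cont (X : ℝ) : Continuous (Kd X) := by
  unfold Kd
  apply Continuous.inv₀ (by fun_prop)
  intro w; positivity

lemma Kd_pos (X w : ℝ) : 0 < Kd X w := by unfold Kd; positivity

lemma Kd_even (X w : ℝ) : Kd X (-w) = Kd X w := by unfold Kd; congr 2; ring

lemma Kd_integrable {X : ℝ} (hX : 0 < X) : Integrable (Kd X) := by
  unfold Kd
  exact integrable_inv_one_add_sq.comp_mul_left' hX.ne'

lemma Kd_integral {X : ℝ} (hX : 0 < X) : ∫ w, Kd X w = Real.pi / X := by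
  unfold Kd
  have h := Measure.integral_comp_mul_left (fun x : ℝ => (1 + x ^ 2)⁻¹) X
  rw [h, integral_univ_inv_one_add_sq, abs_of_pos (by positivity), smul_eq_mul]
  ring

lemma Kd_smooth {L B X t τ γ : ℝ} (hL : 0 < L) (hB : 1 ≤ B) (hX : X = L / B) (h : |τ - γ| ≤ 1 / L) :
    Kd X (t - γ) ≤ 3 * Kd X (t - τ) := by
  unfold Kd
  have h1 : (X * (γ - τ)) ^ 2 ≤ 1 := by
    rw [← sq_abs, abs_mul, abs_sub_comm, hX, abs_of_pos (by positivity)]
    have h2 : L / B * |τ - γ| ≤ L / B * (1 / L) := by gcongr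
    have h3 : L / B * (1 / L) = 1 / B := by field_simp
    have h4 : 1 / B ≤ 1 := by rw [div_le_one (by linarith)]; exact hB
    have h5 : 0 ≤ L / B * |τ - γ| := by positivity
    nlinarith
  rw [← div_eq_mul_inv, inv_eq_one_div, div_le_div_iff₀ (by positivity) (by positivity)]
  nlinarith [sq_nonneg (X * (t - γ) - X * (γ - τ)), sq_nonneg (X * (t - γ))]

/-- integrable majorant -/
noncomputable def wf (τ : ℝ) : ℝ := (1 + ‖τ‖) ^ (-(5/4) : ℝ)

lemma wf_integrable : Integrable wf := integrable_one_add_norm (by simp; norm_num)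

lemma wf_nonneg (τ : ℝ) : 0 ≤ wf τ := by unfold wf; positivity

/-- constant -/
noncomputable def C1 : ℝ := ∫ τ, wf τ

lemma C1_nonneg : 0 ≤ C1 := integral_nonneg wf_nonneg

lemma far_bound {X T t τ : ℝ} (hX : 1 ≤ X) (ht : 20 ≤ t) (htT : t ≤ T) (hτ : τ ∉ RA T) :
    Kd X (t - τ) * wg τ ≤ 16 * t ^ (-(1/4) : ℝ) * wf τ := by
  have ht0 : 0 < t := by linarith
  have hd : (t + |τ|) / 4 ≤ |t - τ| := by
    unfold RA at hτ
    simp only [mem_ofPred_eq, not_and_or, not_le] at hτ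
    have h1 := abs_sub_abs_le_abs_sub t τ
    have h2 := abs_sub_abs_le_abs_sub τ t
    rw [abs_of_pos ht0] at h1 h2
    rw [abs_sub_comm τ t] at h2
    rcases hτ with h | h
    · linarith
    · linarith
  have h0 := abs_nonneg τ
  have hs : 0 < t + |τ| := by linarith
  have h3 : Kd X (t - τ) ≤ 16 * ((t + |τ|) ^ 2)⁻¹ := by
    unfold Kd
    have h4 : (t + |τ|) ^ 2 / 16 ≤ 1 + (X * (t - τ)) ^ 2 := by
      have h5 : (t + |τ|) / 4 ≤ X * |t - τ| := by nlinarith [abs_nonneg (t - τ)]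
      have h6 : ((t + |τ|) / 4) ^ 2 ≤ (X * |t - τ|) ^ 2 := by
        apply pow_le_pow_left₀ (by positivity) h5
      rw [mul_pow, sq_abs, ← mul_pow] at h6
      nlinarith
    calc (1 + (X * (t - τ)) ^ 2)⁻¹ ≤ ((t + |τ|) ^ 2 / 16)⁻¹ := by gcongr
      _ = _ := by rw [inv_div, div_eq_mul_inv]
  have h7 : ((t + |τ|) ^ 2)⁻¹ ≤ t ^ (-(1/4) : ℝ) * (1 + |τ|) ^ (-(7/4) : ℝ) := by
    have e1 : ((t + |τ|) ^ 2)⁻¹ = (t + |τ|) ^ (-(1/4) : ℝ) * (t + |τ|) ^ (-(7/4) : ℝ) := by
      rw [← Real.rpow_add hs, ← Real.rpow_natCast, ← Real.rpow_neg hs.le]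
      norm_num
    rw [e1]
    apply mul_le_mul
    · exact Real.rpow_le_rpow_of_nonpos ht0 (by linarith) (by norm_num)
    · exact Real.rpow_le_rpow_of_nonpos (by linarith) (by linarith) (by norm_num)
    · positivity
    · positivity
  have h8 : (1 + |τ|) ^ (-(7/4) : ℝ) * wg τ = wf τ := by
    unfold wg wf
    rw [Real.sqrt_eq_rpow, ← Real.rpow_add (by linarith), Real.norm_eq_abs]
    norm_num
  have hwg : 0 ≤ wg τ := le_trans zero_le_one (wg_one_le τ)
  calc Kd X (t - τ) * wg τ ≤ (16 * (t ^ (-(1/4) : ℝ) * (1 + |τ|) ^ (-(7/4) : ℝ))) * wg τ := by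
        gcongr
        exact h3.trans (by gcongr)
    _ = 16 * t ^ (-(1/4) : ℝ) * ((1 + |τ|) ^ (-(7/4) : ℝ) * wg τ) := by ring
    _ = _ := by rw [h8]

/-- weights of zeros to the right -/
noncomputable def qw (B L : ℝ) (ρ : ZS) : ℝ := mx ρ * Wt B (L * ((ρ:ℂ).re - 1 / 2))

lemma qw_nonneg (B L : ℝ) (ρ : ZS) : 0 ≤ qw B L ρ := mul_nonneg (mx_nonneg _) (Wt_nonneg _ _)

/-- the maximal weight -/
noncomputable def WM (B L : ℝ) : ℝ := Wt B (L / 2)

/-- finite sums over zeros to the right -/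
lemma finite_right {T L B X t : ℝ} (hL : L = Real.log T) (hL40 : 40 ≤ L) (hB : 9600 ≤ B) (hX : X = L / B) (hX1 : 1 ≤ X)
    (ht : 20 ≤ t) (htT : t ≤ T) {Ψ : ℝ → ℝ} (hΨc : Continuous Ψ)
    (hΨ : ∀ τ ∈ RA T, ∀ F : Finset ℂ, (∀ ρ ∈ F, xi ρ = 0 ∧ 1 / 2 ≤ ρ.re ∧ Real.log T * |ρ.im - τ| ≤ 1) →
      (∑ ρ ∈ F, (analyticOrderNatAt xi ρ : ℝ) * Wt B (Real.log T * (ρ.re - 1 / 2))) ^ 2 ≤ Ψ τ)
    (F : Finset ZS) (hF : ∀ ρ ∈ F, 1 / 2 ≤ (ρ:ℂ).re) :
    ∑ ρ ∈ F, qw B L ρ * Kd X (t - (ρ:ℂ).im) ≤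
      3 * L / 2 * ((∫ τ in RA T, Kd X (t - τ) * Real.sqrt (Ψ τ)) + WM B L * (5 / 2 * CA) * (16 * t ^ (-(1/4) : ℝ) * C1)) := by
  classical
  have hL0 : 0 < L := by linarith
  have hB0 : 0 < B := by linarith
  have hX0 : 0 < X := by linarith
  set Iρ : ZS → Set ℝ := fun ρ => Icc ((ρ:ℂ).im - 1 / L) ((ρ:ℂ).im + 1 / L) with hIρ
  have hmemI : ∀ (ρ : ZS) (τ : ℝ), τ ∈ Iρ ρ ↔ |τ - (ρ:ℂ).im| ≤ 1 / L := by
    intro ρ τ
    rw [hIρ]
    simp only [mem_Icc, abs_le]
    constructor <;> rintro ⟨h1, h2⟩ <;> constructor <;> linarith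
  have hKc : Continuous (fun τ => Kd X (t - τ)) := (Kd_cont X).comp (by fun_prop)
  -- smoothing of one term
  have h1 : ∀ ρ : ZS, Kd X (t - (ρ:ℂ).im) ≤ 3 * L / 2 * ∫ τ in Iρ ρ, Kd X (t - τ) := by
    intro ρ
    have h2 : ∫ _ in Iρ ρ, Kd X (t - (ρ:ℂ).im) / 3 ≤ ∫ τ in Iρ ρ, Kd X (t - τ) := by
      apply setIntegral_mono_on
      · exact continuous_const.continuousOn.integrableOn_compact isCompact_Icc
      · exact hKc.continuousOn.integrableOn_compact isCompact_Icc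
      · exact measurableSet_Icc
      · intro τ hτ
        have := Kd_smooth (t := t) hL0 (by linarith : (1:ℝ) ≤ B) hX ((hmemI ρ τ).mp hτ)
        linarith
    rw [setIntegral_const, hIρ, Real.volume_real_Icc_of_le (by
      have : 0 < 1 / L := by positivity
      linarith), smul_eq_mul] at h2
    have e : ((ρ:ℂ).im + 1 / L - ((ρ:ℂ).im - 1 / L)) * (Kd X (t - (ρ:ℂ).im) / 3) = 2 / (3 * L) * Kd X (t - (ρ:ℂ).im) := by
      field_simp
      ring
    rw [e] at h2
    calc Kd X (t - (ρ:ℂ).im) = 3 * L / 2 * (2 / (3 * L) * Kd X (t - (ρ:ℂ).im)) := by field_simp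
      _ ≤ _ := by gcongr
  set h : ℝ → ℝ := fun τ => ∑ ρ ∈ F, qw B L ρ * (Iρ ρ).indicator (fun τ => Kd X (t - τ)) τ with hh
  have hint1 : ∀ ρ : ZS, Integrable ((Iρ ρ).indicator (fun τ => Kd X (t - τ))) := by
    intro ρ
    rw [integrable_indicator_iff measurableSet_Icc]
    exact hKc.continuousOn.integrableOn_compact isCompact_Icc
  have hint : Integrable h := by
    rw [hh]
    exact integrable_finsetSum F fun ρ _ => (hint1 ρ).const_mul _
  have h2 : ∑ ρ ∈ F, qw B L ρ * Kd X (t - (ρ:ℂ).im) ≤ 3 * L / 2 * ∫ τ, h τ := by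
    have e1 : ∫ τ, h τ = ∑ ρ ∈ F, qw B L ρ * ∫ τ in Iρ ρ, Kd X (t - τ) := by
      rw [hh, integral_finsetSum F fun ρ _ => (hint1 ρ).const_mul _]
      refine Finset.sum_congr rfl fun ρ _ => ?_
      rw [integral_const_mul, integral_indicator measurableSet_Icc]
    rw [e1, Finset.mul_sum]
    refine Finset.sum_le_sum fun ρ _ => ?_
    calc qw B L ρ * Kd X (t - (ρ:ℂ).im) ≤ qw B L ρ * (3 * L / 2 * ∫ τ in Iρ ρ, Kd X (t - τ)) := by
          have := qw_nonneg B L ρ
          have := h1 ρ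
          gcongr
      _ = _ := by ring
  refine h2.trans ?_
  have hL32 : 0 ≤ 3 * L / 2 := by positivity
  apply mul_le_mul_of_nonneg_left _ hL32
  rw [← integral_add_compl (RA_meas T) hint]
  -- pointwise description of h
  have hpt : ∀ τ, h τ = Kd X (t - τ) * ∑ ρ ∈ F.filter (fun ρ => τ ∈ Iρ ρ), qw B L ρ := by
    intro τ
    rw [hh, Finset.sum_filter, Finset.mul_sum]
    refine Finset.sum_congr rfl fun ρ _ => ?_
    by_cases hm : τ ∈ Iρ ρ
    · rw [indicator_of_mem hm, if_pos hm]; ring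
    · rw [indicator_of_notMem hm, if_neg hm]; ring
  apply add_le_add
  · apply setIntegral_mono_on hint.integrableOn
    · exact (hKc.mul (Real.continuous_sqrt.comp hΨc)).continuousOn.integrableOn_compact (RA_compact T)
    · exact RA_meas T
    · intro τ hτ
      rw [hpt]
      have hK := (Kd_pos X (t - τ)).le
      apply mul_le_mul_of_nonneg_left _ hK
      apply Real.le_sqrt_of_sq_le
      have := hΨ τ hτ ((F.filter (fun ρ => τ ∈ Iρ ρ)).map (Function.Embedding.subtype _)) (by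
        intro ρ hρ
        rw [Finset.mem_map] at hρ
        obtain ⟨ρ', hρ', rfl⟩ := hρ
        rw [Finset.mem_filter] at hρ'
        refine ⟨ρ'.2, hF ρ' hρ'.1, ?_⟩
        have h3 := (hmemI ρ' τ).mp hρ'.2
        rw [abs_sub_comm] at h3
        simp only [Function.Embedding.subtype_apply]
        rw [← hL]
        calc L * |(ρ':ℂ).im - τ| ≤ L * (1 / L) := by gcongr
          _ = 1 := by field_simp)
      rw [Finset.sum_map] at this
      simp only [Function.Embedding.subtype_apply] at this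
      rw [← hL] at this
      exact this
  · have hWM : 0 ≤ WM B L := Wt_nonneg _ _
    have hb : ∀ τ ∈ (RA T)ᶜ, h τ ≤ WM B L * (5 / 2 * CA) * (16 * t ^ (-(1/4) : ℝ)) * wf τ := by
      intro τ hτ
      rw [hpt]
      have h3 : ∑ ρ ∈ F.filter (fun ρ => τ ∈ Iρ ρ), qw B L ρ ≤ WM B L * (5 / 2 * Afun τ) := by
        have h4 := loc_count (F.filter (fun ρ => τ ∈ Iρ ρ)) τ (by
          intro ρ hρ
          rw [Finset.mem_filter] at hρ
          have h5 := (hmemI ρ τ).mp hρ.2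
          rw [abs_sub_comm] at h5
          have : 1 / L ≤ 1 := by rw [div_le_one hL0]; linarith
          linarith)
        calc ∑ ρ ∈ F.filter (fun ρ => τ ∈ Iρ ρ), qw B L ρ ≤ ∑ ρ ∈ F.filter (fun ρ => τ ∈ Iρ ρ), WM B L * mx ρ := by
              refine Finset.sum_le_sum fun ρ hρ => ?_
              rw [Finset.mem_filter] at hρ
              unfold qw WM
              rw [mul_comm]
              have hr := zs_re ρ
              have h6 := hF ρ hρ.1
              have h7 : Wt B (L * ((ρ:ℂ).re - 1 / 2)) ≤ Wt B (L / 2) := by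
                apply Wt_mono hB0
                · exact mul_nonneg hL0.le (by linarith)
                · nlinarith
              have := mx_nonneg (ρ:ℂ)
              gcongr
          _ = WM B L * ∑ ρ ∈ F.filter (fun ρ => τ ∈ Iρ ρ), mx ρ := by rw [Finset.mul_sum]
          _ ≤ _ := by gcongr
      have hA := Afun_bound τ
      have hA2 : Afun τ ≤ CA * wg τ := (le_abs_self _).trans hA
      have hK := (Kd_pos X (t - τ)).le
      have hfar := far_bound hX1 ht htT hτ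
      have hCA : 0 ≤ CA := by
        have h0 := (abs_nonneg _).trans (Afun_bound 0)
        have h00 : 0 < wg 0 := lt_of_lt_of_le zero_lt_one (wg_one_le 0)
        by_contra hneg
        push Not at hneg
        nlinarith
      calc Kd X (t - τ) * ∑ ρ ∈ F.filter (fun ρ => τ ∈ Iρ ρ), qw B L ρ
          ≤ Kd X (t - τ) * (WM B L * (5 / 2 * (CA * wg τ))) := by
            gcongr
            exact h3.trans (by gcongr)
        _ = WM B L * (5 / 2 * CA) * (Kd X (t - τ) * wg τ) := by ring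
        _ ≤ WM B L * (5 / 2 * CA) * (16 * t ^ (-(1/4) : ℝ) * wf τ) := by gcongr
        _ = _ := by ring
    have hCA : 0 ≤ CA := by
      have h0 := (abs_nonneg _).trans (Afun_bound 0)
      have h00 : 0 < wg 0 := lt_of_lt_of_le zero_lt_one (wg_one_le 0)
      by_contra hneg
      push Not at hneg
      nlinarith
    calc ∫ τ in (RA T)ᶜ, h τ ≤ ∫ τ in (RA T)ᶜ, WM B L * (5 / 2 * CA) * (16 * t ^ (-(1/4) : ℝ)) * wf τ := by
          apply setIntegral_mono_on hint.integrableOn (wf_integrable.const_mul _).integrableOn (RA_meas T).compl hb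
      _ ≤ ∫ τ, WM B L * (5 / 2 * CA) * (16 * t ^ (-(1/4) : ℝ)) * wf τ := by
          apply setIntegral_le_integral (wf_integrable.const_mul _)
          filter_upwards with τ
          have := wf_nonneg τ
          have ht0 : 0 < t := by linarith
          positivity
      _ = _ := by
          rw [integral_const_mul]
          unfold C1
          ring

end Pool.Agent.Helper57.LH
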