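import Pool.Agent.Helper57.LH.ETwo

namespace Pool.Agent.Helper57.LH

open Set MeasureTheory Filter Topology
open Pool.Agent.Helper57.Zeta

/-- the convolution -/
noncomputable def Cv (T X : ℝ) (Ψ : ℝ → ℝ) (t : ℝ) : ℝ := ∫ τ in RA T, Kd X (t - τ) * Real.sqrt (Ψ τ)

lemma Kd2_cont (X : ℝ) : Continuous (fun p : ℝ × ℝ => Kd X (p.1 - p.2)) := (Kd_cont X).comp (by fun_prop)

lemma Cv_cont (T X : ℝ) {Ψ : ℝ → ℝ} (hΨc : Continuous Ψ) : Continuous (Cv T X Ψ) := by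
  unfold Cv
  apply continuous_parametric_integral_of_continuous _ (RA_compact T)
  simp only [Function.uncurry_def]
  exact (Kd2_cont X).mul ((Real.continuous_sqrt.comp hΨc).comp continuous_snd)

lemma Cv_nonneg (T X : ℝ) (Ψ : ℝ → ℝ) (t : ℝ) : 0 ≤ Cv T X Ψ t :=
  integral_nonneg fun τ => mul_nonneg (Kd_pos _ _).le (Real.sqrt_nonneg _)

lemma Kd_int_left {X : ℝ} (hX : 0 < X) (t : ℝ) (S : Set ℝ) : ∫ τ in S, Kd X (t - τ) ≤ Real.pi / X := by
  rw [← Kd_integral hX]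
  have h1 : ∫ τ, Kd X (t - τ) = ∫ w, Kd X w := integral_sub_left_eq_self (Kd X) volume t
  rw [← h1]
  exact setIntegral_le_integral ((Kd_integrable hX).comp_sub_left t) (Eventually.of_forall fun τ => (Kd_pos _ _).le)

lemma Kd_int_right {X : ℝ} (hX : 0 < X) (τ : ℝ) (S : Set ℝ) : ∫ t in S, Kd X (t - τ) ≤ Real.pi / X := by
  rw [← Kd_integral hX]
  have h1 : ∫ t, Kd X (t - τ) = ∫ w, Kd X w := integral_sub_right_eq_self (Kd X) τ
  rw [← h1]
  exact setIntegral_le_integral ((Kd_integrable hX).comp_sub_right τ) (Eventually.of_forall fun τ => (Kd_pos _ _).le)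

lemma Cv_sq_le {T X : ℝ} (hX : 0 < X) {Ψ : ℝ → ℝ} (hΨc : Continuous Ψ) (hΨ0 : ∀ τ, 0 ≤ Ψ τ) (t : ℝ) :
    Cv T X Ψ t ^ 2 ≤ Real.pi / X * ∫ τ in RA T, Kd X (t - τ) * Ψ τ := by
  have hKc : Continuous (fun τ => Kd X (t - τ)) := (Kd_cont X).comp (by fun_prop)
  have hs1 : Continuous (fun τ => Real.sqrt (Kd X (t - τ))) := Real.continuous_sqrt.comp hKc
  have hs2 : Continuous (fun τ => Real.sqrt (Kd X (t - τ)) * Real.sqrt (Ψ τ)) := hs1.mul (Real.continuous_sqrt.comp hΨc)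
  have h := cs_gen (μ := volume.restrict (RA T)) (f := fun τ => Real.sqrt (Kd X (t - τ))) (g := fun τ => Real.sqrt (Kd X (t - τ)) * Real.sqrt (Ψ τ))
    (fun τ => Real.sqrt_nonneg _) (fun τ => mul_nonneg (Real.sqrt_nonneg _) (Real.sqrt_nonneg _))
    hs1.aestronglyMeasurable hs2.aestronglyMeasurable
    (ion (hs1.pow 2) T) (ion (hs2.pow 2) T)
  have e1 : ∀ τ, Real.sqrt (Kd X (t - τ)) * (Real.sqrt (Kd X (t - τ)) * Real.sqrt (Ψ τ)) = Kd X (t - τ) * Real.sqrt (Ψ τ) := by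
    intro τ
    rw [← mul_assoc, Real.mul_self_sqrt (Kd_pos _ _).le]
  have e2 : ∀ τ, Real.sqrt (Kd X (t - τ)) ^ 2 = Kd X (t - τ) := fun τ => Real.sq_sqrt (Kd_pos _ _).le
  have e3 : ∀ τ, (Real.sqrt (Kd X (t - τ)) * Real.sqrt (Ψ τ)) ^ 2 = Kd X (t - τ) * Ψ τ := by
    intro τ
    rw [mul_pow, e2, Real.sq_sqrt (hΨ0 τ)]
  simp_rw [e1, e2, e3] at h
  have hA : 0 ≤ ∫ τ in RA T, Kd X (t - τ) := integral_nonneg fun τ => (Kd_pos _ _).le
  have hB : 0 ≤ ∫ τ in RA T, Kd X (t - τ) * Ψ τ := integral_nonneg fun τ => mul_nonneg (Kd_pos _ _).le (hΨ0 τ)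
  have h2 : Cv T X Ψ t ^ 2 ≤ (Real.sqrt (∫ τ in RA T, Kd X (t - τ)) * Real.sqrt (∫ τ in RA T, Kd X (t - τ) * Ψ τ)) ^ 2 :=
    pow_le_pow_left₀ (Cv_nonneg _ _ _ _) h 2
  rw [mul_pow, Real.sq_sqrt hA, Real.sq_sqrt hB] at h2
  refine h2.trans ?_
  gcongr
  exact Kd_int_left hX t _

lemma Cv_int {T X a : ℝ} (hX : 0 < X) {Ψ : ℝ → ℝ} (hΨc : Continuous Ψ) (hΨ0 : ∀ τ, 0 ≤ Ψ τ) :
    ∫ t in Icc a T, Cv T X Ψ t ^ 2 ≤ (Real.pi / X) ^ 2 * ∫ τ in RA T, Ψ τ := by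
  have hc2 : Continuous (fun p : ℝ × ℝ => Kd X (p.1 - p.2) * Ψ p.2) := (Kd2_cont X).mul (hΨc.comp continuous_snd)
  have hpi := Real.pi_pos
  have hci : Continuous (fun t => ∫ τ in RA T, Kd X (t - τ) * Ψ τ) := by
    apply continuous_parametric_integral_of_continuous _ (RA_compact T)
    simp only [Function.uncurry_def]
    exact hc2
  have h1 : ∫ t in Icc a T, Cv T X Ψ t ^ 2 ≤ ∫ t in Icc a T, Real.pi / X * ∫ τ in RA T, Kd X (t - τ) * Ψ τ := by
    apply setIntegral_mono_on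
    · exact ((Cv_cont T X hΨc).pow 2).continuousOn.integrableOn_compact isCompact_Icc
    · exact (continuous_const.mul hci).continuousOn.integrableOn_compact isCompact_Icc
    · exact measurableSet_Icc
    · intro t _
      exact Cv_sq_le hX hΨc hΨ0 t
  refine h1.trans ?_
  rw [integral_const_mul, integral_integral_swap]
  · have h2 : ∫ τ in RA T, ∫ t in Icc a T, Kd X (t - τ) * Ψ τ ≤ ∫ τ in RA T, Real.pi / X * Ψ τ := by
      have hci2 : Continuous (fun τ => ∫ t in Icc a T, Kd X (t - τ) * Ψ τ) := by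
        apply continuous_parametric_integral_of_continuous _ isCompact_Icc
        simp only [Function.uncurry_def]
        exact hc2.comp continuous_swap
      apply setIntegral_mono_on (ion hci2 T) (ion (continuous_const.mul hΨc) T) (RA_meas T)
      intro τ _
      rw [integral_mul_const]
      exact mul_le_mul_of_nonneg_right (Kd_int_right hX τ (Icc a T)) (hΨ0 τ)
    rw [integral_const_mul] at h2
    calc Real.pi / X * ∫ τ in RA T, ∫ t in Icc a T, Kd X (t - τ) * Ψ τ ≤ Real.pi / X * (Real.pi / X * ∫ τ in RA T, Ψ τ) := by gcongr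
      _ = _ := by ring
  · have : IntegrableOn (fun p : ℝ × ℝ => Kd X (p.1 - p.2) * Ψ p.2) (Icc a T ×ˢ RA T) (volume.prod volume) :=
      hc2.continuousOn.integrableOn_compact (isCompact_Icc.prod (RA_compact T))
    rw [IntegrableOn, ← Measure.prod_restrict] at this
    exact this

/-- constant in the secondary term -/
noncomputable def DC (B L : ℝ) : ℝ := WM B L * (5 / 2 * CA) * (16 * C1)

lemma DC_nonneg (B L : ℝ) : 0 ≤ DC B L := by
  unfold DC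
  have := CA_nonneg
  have := C1_nonneg
  have : 0 ≤ WM B L := Wt_nonneg _ _
  positivity

lemma RB_eq (T L B X : ℝ) (Ψ : ℝ → ℝ) (t : ℝ) : RB T L B X Ψ t = 3 * L / 2 * (Cv T X Ψ t + DC B L * t ^ (-(1/4) : ℝ)) := by
  unfold RB Cv DC; ring

lemma RB_nonneg {T L B X : ℝ} (hL : 0 ≤ L) (Ψ : ℝ → ℝ) {t : ℝ} (ht : 0 < t) : 0 ≤ RB T L B X Ψ t := by
  rw [RB_eq]
  have := Cv_nonneg T X Ψ t
  have := DC_nonneg B L
  positivity

lemma RB_contOn {T L B X a : ℝ} (ha : 0 < a) {Ψ : ℝ → ℝ} (hΨc : Continuous Ψ) : ContinuousOn (RB T L B X Ψ) (Icc a T) := by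
  have e : RB T L B X Ψ = fun t => 3 * L / 2 * (Cv T X Ψ t + DC B L * t ^ (-(1/4) : ℝ)) := funext (RB_eq T L B X Ψ)
  rw [e]
  apply continuousOn_const.mul
  apply (Cv_cont T X hΨc).continuousOn.add
  apply continuousOn_const.mul
  apply ContinuousOn.rpow_const continuousOn_id
  intro t ht
  left
  have : a ≤ t := ht.1
  simp only [id]
  linarith

/-- L² bound of the off-line contribution -/
theorem RB_sq {T L B X a C : ℝ} (hL0 : 0 < L) (hB0 : 0 < B) (hX : X = L / B) (ha1 : 1 ≤ a) (haT : a ≤ T) (haT2 : Real.sqrt T ≤ a)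
    {Ψ : ℝ → ℝ} (hΨc : Continuous Ψ) (hΨ0 : ∀ τ, 0 ≤ Ψ τ) (hΨi : ∫ τ in RA T, Ψ τ ≤ C * (T / B ^ 4)) :
    ∫ t in Icc a T, (16 * RB T L B X Ψ t) ^ 2 ≤ 1152 * Real.pi ^ 2 * C * (T / B ^ 2) + 1152 * L ^ 2 * DC B L ^ 2 * T ^ (3/4 : ℝ) := by
  have hX0 : 0 < X := by rw [hX]; positivity
  have hT0 : 0 < T := by linarith
  have hCv := Cv_int (T := T) (a := a) hX0 hΨc hΨ0
  have hcont1 : Continuous (fun t => 1152 * L ^ 2 * Cv T X Ψ t ^ 2) := continuous_const.mul ((Cv_cont T X hΨc).pow 2)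
  have hcont2 : Continuous (fun _ : ℝ => 1152 * L ^ 2 * (DC B L ^ 2 * T ^ (-(1/4) : ℝ))) := continuous_const
  have h1 : ∫ t in Icc a T, (16 * RB T L B X Ψ t) ^ 2 ≤ ∫ t in Icc a T, (1152 * L ^ 2 * Cv T X Ψ t ^ 2 + 1152 * L ^ 2 * (DC B L ^ 2 * T ^ (-(1/4) : ℝ))) := by
    apply setIntegral_mono_on
    · exact ((continuousOn_const.mul (RB_contOn (by linarith) hΨc)).pow 2).integrableOn_compact isCompact_Icc
    · exact (hcont1.add hcont2).continuousOn.integrableOn_compact isCompact_Icc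
    · exact measurableSet_Icc
    · intro t ht
      rw [RB_eq]
      have ht0 : 0 < t := by have := ht.1; linarith
      have h2 : (t ^ (-(1/4) : ℝ)) ^ 2 ≤ T ^ (-(1/4) : ℝ) := by
        rw [← Real.rpow_natCast, ← Real.rpow_mul ht0.le]
        have h3 : T ^ (-(1/4) : ℝ) = (Real.sqrt T) ^ (-(1/2) : ℝ) := by
          rw [Real.sqrt_eq_rpow, ← Real.rpow_mul hT0.le]
          norm_num
        rw [h3]
        have e4 : (-(1/4) : ℝ) * ((2:ℕ):ℝ) = -(1/2) := by norm_num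
        rw [e4]
        exact Real.rpow_le_rpow_of_nonpos (Real.sqrt_pos.mpr hT0) (haT2.trans ht.1) (by norm_num)
      set x := Cv T X Ψ t
      set y := t ^ (-(1/4) : ℝ)
      set D := DC B L
      have h5 : (x + D * y) ^ 2 ≤ 2 * x ^ 2 + 2 * (D * y) ^ 2 := by nlinarith [sq_nonneg (x - D * y)]
      calc (16 * (3 * L / 2 * (x + D * y))) ^ 2 = 576 * L ^ 2 * (x + D * y) ^ 2 := by ring
        _ ≤ 576 * L ^ 2 * (2 * x ^ 2 + 2 * (D * y) ^ 2) := by gcongr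
        _ = 1152 * L ^ 2 * x ^ 2 + 1152 * L ^ 2 * (D ^ 2 * y ^ 2) := by ring
        _ ≤ _ := by gcongr
  refine h1.trans ?_
  rw [integral_add (hcont1.continuousOn.integrableOn_compact isCompact_Icc) (hcont2.continuousOn.integrableOn_compact isCompact_Icc),
    integral_const_mul, setIntegral_const, Real.volume_real_Icc_of_le haT, smul_eq_mul]
  have hD := DC_nonneg B L
  have hT34 : T * T ^ (-(1/4) : ℝ) = T ^ (3/4 : ℝ) := by
    nth_rewrite 1 [← Real.rpow_one T]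
    rw [← Real.rpow_add hT0]
    norm_num
  have hTq : 0 < T ^ (-(1/4) : ℝ) := Real.rpow_pos_of_pos hT0 _
  calc 1152 * L ^ 2 * (∫ t in Icc a T, Cv T X Ψ t ^ 2) + (T - a) * (1152 * L ^ 2 * (DC B L ^ 2 * T ^ (-(1/4) : ℝ)))
      ≤ 1152 * L ^ 2 * ((Real.pi / X) ^ 2 * (C * (T / B ^ 4))) + T * (1152 * L ^ 2 * (DC B L ^ 2 * T ^ (-(1/4) : ℝ))) := by
        gcongr
        · refine hCv.trans ?_
          gcongr
        · linarith
    _ = 1152 * Real.pi ^ 2 * C * (T / B ^ 2) + 1152 * L ^ 2 * DC B L ^ 2 * (T * T ^ (-(1/4) : ℝ)) := by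
        rw [hX]
        field_simp
    _ = _ := by rw [hT34]

end Pool.Agent.Helper57.LH
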