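import Pool.Agent.Helper57.LH.EOne

namespace Pool.Agent.Helper57.LH

open Set MeasureTheory Filter Topology
open Pool.Agent.Helper57.Zeta

lemma CA_nonneg : 0 ≤ CA := by
  have h0 := (abs_nonneg _).trans (Afun_bound 0)
  have h00 : 0 < wg 0 := lt_of_lt_of_le zero_lt_one (wg_one_le 0)
  by_contra hneg
  push Not at hneg
  nlinarith

/-- bound for the off-line contribution -/
noncomputable def RB (T L B X : ℝ) (Ψ : ℝ → ℝ) (t : ℝ) : ℝ :=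
  3 * L / 2 * ((∫ τ in RA T, Kd X (t - τ) * Real.sqrt (Ψ τ)) + WM B L * (5 / 2 * CA) * (16 * t ^ (-(1/4) : ℝ) * C1))

/-- the hypothesis on the dominating function -/
def DomPsi (T B : ℝ) (Ψ : ℝ → ℝ) : Prop :=
  ∀ τ ∈ RA T, ∀ F : Finset ℂ, (∀ ρ ∈ F, xi ρ = 0 ∧ 1 / 2 ≤ ρ.re ∧ Real.log T * |ρ.im - τ| ≤ 1) →
      (∑ ρ ∈ F, (analyticOrderNatAt xi ρ : ℝ) * Wt B (Real.log T * (ρ.re - 1 / 2))) ^ 2 ≤ Ψ τ

lemma E1_finite {T L B X t : ℝ} (hL : L = Real.log T) (hL40 : 40 ≤ L) (hB : 9600 ≤ B) (hX : X = L / B) (hX1 : 1 ≤ X)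
    (ht : 20 ≤ t) (htT : t ≤ T) {Ψ : ℝ → ℝ} (hΨc : Continuous Ψ) (hΨ : DomPsi T B Ψ) (F : Finset ZS) :
    ∑ ρ ∈ F, mx ρ * |gs X ((ρ:ℂ).re - 1 / 2) (t - (ρ:ℂ).im) - gs X 0 (t - (ρ:ℂ).im)| ≤ 16 * RB T L B X Ψ t := by
  classical
  have hL0 : 0 < L := by linarith
  have hB0 : 0 < B := by linarith
  have hX0 : 0 < X := by linarith
  set f : ZS → ℝ := fun ρ => mx ρ * Wt B (L * |(ρ:ℂ).re - 1 / 2|) * Kd X (t - (ρ:ℂ).im) with hf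
  have h1 : ∑ ρ ∈ F, mx ρ * |gs X ((ρ:ℂ).re - 1 / 2) (t - (ρ:ℂ).im) - gs X 0 (t - (ρ:ℂ).im)| ≤ 8 * ∑ ρ ∈ F, f ρ := by
    rw [Finset.mul_sum]
    refine Finset.sum_le_sum fun ρ _ => ?_
    have h2 := gs_diff_bound hX0 ((ρ:ℂ).re - 1 / 2) (t - (ρ:ℂ).im)
    have h3 : (|(ρ:ℂ).re - 1 / 2| * X) ^ 2 * Real.exp (|(ρ:ℂ).re - 1 / 2| * X) = Wt B (L * |(ρ:ℂ).re - 1 / 2|) := by
      unfold Wt
      rw [hX]
      rw [show |(ρ:ℂ).re - 1 / 2| * (L / B) = L * |(ρ:ℂ).re - 1 / 2| / B by ring]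
    rw [h3] at h2
    have hm := mx_nonneg (ρ:ℂ)
    calc mx ρ * |gs X ((ρ:ℂ).re - 1 / 2) (t - (ρ:ℂ).im) - gs X 0 (t - (ρ:ℂ).im)|
        ≤ mx ρ * (8 * Wt B (L * |(ρ:ℂ).re - 1 / 2|) * Kd X (t - (ρ:ℂ).im)) := by gcongr
      _ = 8 * f ρ := by rw [hf]; ring
  refine h1.trans ?_
  rw [← Finset.sum_filter_add_sum_filter_not F (fun ρ : ZS => 1 / 2 ≤ (ρ:ℂ).re)]
  have hA : ∑ ρ ∈ F.filter (fun ρ : ZS => 1 / 2 ≤ (ρ:ℂ).re), f ρ ≤ RB T L B X Ψ t := by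
    have h2 := finite_right hL hL40 hB hX hX1 ht htT hΨc hΨ (F.filter (fun ρ : ZS => 1 / 2 ≤ (ρ:ℂ).re)) (by
      intro ρ hρ
      exact (Finset.mem_filter.mp hρ).2)
    refine le_trans (le_of_eq ?_) h2
    refine Finset.sum_congr rfl fun ρ hρ => ?_
    have h3 := (Finset.mem_filter.mp hρ).2
    rw [hf]
    simp only
    unfold qw
    rw [abs_of_nonneg (by linarith)]
  have hBB : ∑ ρ ∈ F.filter (fun ρ : ZS => ¬ 1 / 2 ≤ (ρ:ℂ).re), f ρ ≤ RB T L B X Ψ t := by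
    have h2 := finite_right hL hL40 hB hX hX1 ht htT hΨc hΨ ((F.filter (fun ρ : ZS => ¬ 1 / 2 ≤ (ρ:ℂ).re)).map refl.toEmbedding) (by
      intro ρ hρ
      rw [Finset.mem_map] at hρ
      obtain ⟨ρ', hρ', rfl⟩ := hρ
      have h3 := (Finset.mem_filter.mp hρ').2
      rw [Equiv.coe_toEmbedding, refl_re]
      push Not at h3
      linarith)
    refine le_trans (le_of_eq ?_) h2
    rw [Finset.sum_map]
    refine Finset.sum_congr rfl fun ρ hρ => ?_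
    have h3 := (Finset.mem_filter.mp hρ).2
    push Not at h3
    rw [hf, Equiv.coe_toEmbedding, refl_im]
    simp only
    unfold qw
    rw [refl_re, refl_mx, abs_of_neg (by linarith)]
    congr 3
    ring
  linarith

/-- upper bound for finite Fejer sums over zeros -/
theorem Y_le {T L B X t : ℝ} (hL : L = Real.log T) (hL40 : 40 ≤ L) (hB : 9600 ≤ B) (hX : X = L / B) (hX1 : 1 ≤ X)
    (ht : 20 ≤ t) (htT : t ≤ T) {Ψ : ℝ → ℝ} (hΨc : Continuous Ψ) (hΨ : DomPsi T B Ψ) (F : Finset ZS) :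
    ∑ ρ ∈ F, mx ρ * gs X 0 (t - (ρ:ℂ).im) ≤ MT X t / X - PS X t + 16 * RB T L B X Ψ t := by
  have hX0 : 0 < X := by linarith
  set d : ZS → ℝ := fun ρ => mx ρ * |gs X ((ρ:ℂ).re - 1 / 2) (t - (ρ:ℂ).im) - gs X 0 (t - (ρ:ℂ).im)| with hd
  have hd0 : ∀ ρ, 0 ≤ d ρ := fun ρ => mul_nonneg (mx_nonneg _) (abs_nonneg _)
  have hfin := E1_finite hL hL40 hB hX hX1 ht htT hΨc hΨ
  have hds : Summable d := summable_of_sum_le hd0 (fun F => hfin F)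
  have hdt : ∑' ρ, d ρ ≤ 16 * RB T L B X Ψ t := hds.tsum_le_of_sum_le (fun F => hfin F)
  have hex := explicit hX0 t
  have hg0 : ∀ ρ : ZS, 0 ≤ mx ρ * gs X 0 (t - (ρ:ℂ).im) := fun ρ => mul_nonneg (mx_nonneg _) (gs_zero_nonneg hX0 _)
  have hle : ∀ ρ : ZS, mx ρ * gs X 0 (t - (ρ:ℂ).im) ≤ mx ρ * gs X ((ρ:ℂ).re - 1 / 2) (t - (ρ:ℂ).im) + d ρ := by
    intro ρ
    rw [hd]
    simp only
    rw [← mul_add]
    apply mul_le_mul_of_nonneg_left _ (mx_nonneg _)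
    have := neg_abs_le (gs X ((ρ:ℂ).re - 1 / 2) (t - (ρ:ℂ).im) - gs X 0 (t - (ρ:ℂ).im))
    linarith
  have hsum2 := hex.summable.add hds
  have hg0s : Summable (fun ρ : ZS => mx ρ * gs X 0 (t - (ρ:ℂ).im)) := Summable.of_nonneg_of_le hg0 hle hsum2
  calc ∑ ρ ∈ F, mx ρ * gs X 0 (t - (ρ:ℂ).im) ≤ ∑' ρ : ZS, mx ρ * gs X 0 (t - (ρ:ℂ).im) := hg0s.sum_le_tsum F (fun i _ => hg0 i)
    _ ≤ ∑' ρ : ZS, (mx ρ * gs X ((ρ:ℂ).re - 1 / 2) (t - (ρ:ℂ).im) + d ρ) := hg0s.tsum_le_tsum hle hsum2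
    _ = (MT X t / X - PS X t) + ∑' ρ, d ρ := by rw [hex.summable.tsum_add hds, hex.tsum_eq]
    _ ≤ _ := by linarith

end Pool.Agent.Helper57.LH
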