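import Pool.Agent.Helper57.LH.SecMom
import Pool.Agent.Helper57.LH.ZetaBd

namespace Pool.Agent.Helper57.LH

open Complex Set MeasureTheory Filter Topology
open Pool.Agent.Helper57.Zeta

lemma norm_Mol_le {X : ℝ} (hX : 1 < X) {w : ℂ} (hw : 0 ≤ w.re) : ‖Mol X w‖ ≤ X := by
  unfold Mol
  calc ‖∑ h ∈ Finset.Ioc 0 ⌊X⌋₊, (amol X h : ℂ) * (h:ℂ) ^ (-w)‖
      ≤ ∑ h ∈ Finset.Ioc 0 ⌊X⌋₊, ‖(amol X h : ℂ) * (h:ℂ) ^ (-w)‖ := norm_sum_le _ _
    _ ≤ ∑ h ∈ Finset.Ioc 0 ⌊X⌋₊, (1:ℝ) := by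
        refine Finset.sum_le_sum fun h hh => ?_
        rw [Finset.mem_Ioc] at hh
        have hh0 : (0:ℝ) < h := by exact_mod_cast hh.1
        have hh1 : (1:ℝ) ≤ h := by exact_mod_cast hh.1
        rw [norm_mul, Complex.norm_real, Real.norm_eq_abs]
        have h1 := abs_amol_le hX h
        have h2 : ‖(h:ℂ) ^ (-w)‖ ≤ 1 := by
          have := Complex.norm_cpow_eq_rpow_re_of_pos hh0 (-w)
          rw [Complex.ofReal_natCast] at this
          rw [this]
          exact Real.rpow_le_one_of_one_le_of_nonpos hh1 (by simpa using hw)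
        calc |amol X h| * ‖(h:ℂ) ^ (-w)‖ ≤ 1 * 1 := by gcongr
          _ = 1 := one_mul _
    _ = ⌊X⌋₊ := by simp
    _ ≤ X := Nat.floor_le (by linarith)

/-- real series 1/N^(3/2) with value zero at zero -/
noncomputable def q32 (N : ℕ) : ℝ := if N = 0 then 0 else (N:ℝ) ^ (-(3/2) : ℝ)

lemma q32_nonneg (N : ℕ) : 0 ≤ q32 N := by
  unfold q32; split_ifs <;> positivity

lemma summable_q32 : Summable q32 := by
  have h := Real.summable_nat_rpow.mpr (show -(3/2 : ℝ) < -1 by norm_num)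
  refine h.of_nonneg_of_le q32_nonneg fun N => ?_
  unfold q32
  split_ifs with h0
  · positivity
  · exact le_rfl

noncomputable def Z32 : ℝ := ∑' N, q32 N

lemma Z32_pos : 0 < Z32 := by
  apply summable_q32.tsum_pos q32_nonneg 1
  simp [q32]

lemma q32_mul {h : ℕ} (hh : h ≠ 0) (n : ℕ) : q32 (h * n) = q32 h * q32 n := by
  unfold q32
  rcases Nat.eq_zero_or_pos n with rfl | hn
  · simp
  · rw [if_neg (Nat.mul_ne_zero hh hn.ne'), if_neg hh, if_neg hn.ne', Nat.cast_mul,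
      Real.mul_rpow (Nat.cast_nonneg _) (Nat.cast_nonneg _)]

lemma hasSum_q32_dvd {h : ℕ} (hh : h ≠ 0) : HasSum (fun N => if h ∣ N then q32 N else 0) (q32 h * Z32) := by
  have h1 : HasSum (fun n => q32 h * q32 n) (q32 h * Z32) := summable_q32.hasSum.mul_left _
  have hinj : Function.Injective (fun n : ℕ => h * n) := fun a b hab =>
    Nat.eq_of_mul_eq_mul_left (Nat.pos_of_ne_zero hh) hab
  rw [← hinj.hasSum_iff]
  · convert h1 using 1
    funext n
    simp only [Function.comp, dvd_mul_right, if_true]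
    exact q32_mul hh n
  · intro N hN
    rw [if_neg]
    rintro ⟨n, rfl⟩
    exact hN ⟨n, rfl⟩

/-- complex powers with value zero at zero -/
noncomputable def cps (s : ℂ) (N : ℕ) : ℂ := if N = 0 then 0 else (N:ℂ) ^ (-s)

lemma cps_mul {s : ℂ} {h : ℕ} (hh : h ≠ 0) (n : ℕ) : cps s (h * n) = cps s h * cps s n := by
  unfold cps
  rcases Nat.eq_zero_or_pos n with rfl | hn
  · simp
  · rw [if_neg (Nat.mul_ne_zero hh hn.ne'), if_neg hh, if_neg hn.ne']
    have e1 : ((h * n : ℕ) : ℂ) = ((h:ℝ):ℂ) * ((n:ℝ):ℂ) := by push_cast; rfl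
    rw [e1, Complex.mul_cpow_ofReal_nonneg (Nat.cast_nonneg _) (Nat.cast_nonneg _)]
    simp

lemma hasSum_cps {s : ℂ} (hs : 1 < s.re) : HasSum (cps s) (riemannZeta s) := by
  have h := LSeriesHasSum_one hs
  unfold LSeriesHasSum at h
  convert h using 1
  funext N
  unfold cps LSeries.term
  split_ifs with h0
  · rfl
  · rw [Complex.cpow_neg]; simp

lemma hasSum_cps_dvd {s : ℂ} (hs : 1 < s.re) {h : ℕ} (hh : h ≠ 0) :
    HasSum (fun N => if h ∣ N then cps s N else 0) (cps s h * riemannZeta s) := by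
  have h1 : HasSum (fun n => cps s h * cps s n) (cps s h * riemannZeta s) := (hasSum_cps hs).mul_left _
  have hinj : Function.Injective (fun n : ℕ => h * n) := fun a b hab =>
    Nat.eq_of_mul_eq_mul_left (Nat.pos_of_ne_zero hh) hab
  rw [← hinj.hasSum_iff]
  · convert h1 using 1
    funext n
    simp only [Function.comp, dvd_mul_right, if_true]
    exact cps_mul hh n
  · intro N hN
    rw [if_neg]
    rintro ⟨n, rfl⟩
    exact hN ⟨n, rfl⟩

lemma hasSum_zM {s : ℂ} (hs : 1 < s.re) (X : ℝ) : HasSum (fun N => (bmol X N : ℂ) * cps s N) (riemannZeta s * Mol X s) := by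
  have h1 : HasSum (fun N => ∑ h ∈ Finset.Ioc 0 ⌊X⌋₊, (amol X h : ℂ) * (if h ∣ N then cps s N else 0))
      (∑ h ∈ Finset.Ioc 0 ⌊X⌋₊, (amol X h : ℂ) * (cps s h * riemannZeta s)) := by
    apply hasSum_sum
    intro h hh
    rw [Finset.mem_Ioc] at hh
    exact (hasSum_cps_dvd hs hh.1.ne').mul_left _
  convert h1 using 1
  · funext N
    unfold bmol
    rw [Finset.sum_filter]
    push_cast
    rw [Finset.sum_mul]
    refine Finset.sum_congr rfl fun h _ => ?_
    split_ifs <;> simp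
  · unfold Mol
    rw [Finset.mul_sum]
    refine Finset.sum_congr rfl fun h hh => ?_
    rw [Finset.mem_Ioc] at hh
    unfold cps
    rw [if_neg hh.1.ne']
    ring

/-- bound to the right of Re s = 2 -/
theorem right_bound {X : ℝ} (hX : 1 < X) {s : ℂ} (hs : 2 ≤ s.re) :
    ‖riemannZeta s * Mol X s - 1‖ ≤ Z32 ^ 2 * X ^ (-(1/4) : ℝ) := by
  have hX0 : 0 < X := by linarith
  have h1 := hasSum_zM (s := s) (by linarith) X
  have h2 : HasSum (fun N : ℕ => if N = 1 then (1:ℂ) else 0) 1 := hasSum_ite_eq 1 1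
  have h3 := h1.sub h2
  rw [← h3.tsum_eq]
  -- majorant
  have h4 : HasSum (fun N => ∑ h ∈ Finset.Ioc 0 ⌊X⌋₊, (if h ∣ N then q32 N else 0)) (∑ h ∈ Finset.Ioc 0 ⌊X⌋₊, q32 h * Z32) := by
    apply hasSum_sum
    intro h hh
    rw [Finset.mem_Ioc] at hh
    exact hasSum_q32_dvd hh.1.ne'
  have h5 := h4.mul_left (X ^ (-(1/4) : ℝ))
  have h6 : X ^ (-(1/4) : ℝ) * ∑ h ∈ Finset.Ioc 0 ⌊X⌋₊, q32 h * Z32 ≤ Z32 ^ 2 * X ^ (-(1/4) : ℝ) := by
    rw [← Finset.sum_mul]
    have h7 : ∑ h ∈ Finset.Ioc 0 ⌊X⌋₊, q32 h ≤ Z32 := summable_q32.sum_le_tsum _ (fun N _ => q32_nonneg N)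
    have := Z32_pos
    have h8 : 0 ≤ X ^ (-(1/4) : ℝ) := by positivity
    calc X ^ (-(1/4) : ℝ) * ((∑ h ∈ Finset.Ioc 0 ⌊X⌋₊, q32 h) * Z32) ≤ X ^ (-(1/4) : ℝ) * (Z32 * Z32) := by gcongr
      _ = _ := by ring
  refine le_trans (tsum_of_norm_bounded h5 fun N => ?_) h6
  rcases Nat.eq_zero_or_pos N with rfl | hN
  · unfold cps
    simp
    have : ∀ x ∈ Finset.Ioc 0 ⌊X⌋₊, q32 0 = 0 := fun _ _ => by simp [q32]
    unfold q32; simp
  · have hN0 : (0:ℝ) < N := by exact_mod_cast hN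
    by_cases hN1 : N = 1
    · subst hN1
      have hz : (bmol X 1 : ℂ) * cps s 1 - (if (1:ℕ) = 1 then (1:ℂ) else 0) = 0 := by
        rw [bmol_one hX]; simp [cps]
      rw [hz, norm_zero]
      apply mul_nonneg (by positivity)
      exact Finset.sum_nonneg fun h _ => by split_ifs <;> [exact q32_nonneg _; exact le_rfl]
    · rw [if_neg hN1, sub_zero]
      by_cases hNX : (N:ℝ) ≤ √X
      · rw [bmol_eq_zero hX (by omega) hNX]
        simp
        apply mul_nonneg (by positivity)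
        exact Finset.sum_nonneg fun h _ => by split_ifs <;> [exact q32_nonneg _; exact le_rfl]
      · push Not at hNX
        rw [norm_mul, Complex.norm_real, Real.norm_eq_abs]
        have h7 : ‖cps s N‖ ≤ X ^ (-(1/4) : ℝ) * q32 N := by
          unfold cps q32
          rw [if_neg hN.ne', if_neg hN.ne']
          have := Complex.norm_cpow_eq_rpow_re_of_pos hN0 (-s)
          rw [Complex.ofReal_natCast] at this
          rw [this]
          have hN1' : (1:ℝ) ≤ N := by exact_mod_cast hN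
          calc (N:ℝ) ^ (-s).re ≤ (N:ℝ) ^ (-2 : ℝ) := by
                apply Real.rpow_le_rpow_of_exponent_le hN1'
                simp; linarith
            _ = (N:ℝ) ^ (-(1/2) : ℝ) * (N:ℝ) ^ (-(3/2) : ℝ) := by
                rw [← Real.rpow_add hN0]; norm_num
            _ ≤ X ^ (-(1/4) : ℝ) * (N:ℝ) ^ (-(3/2) : ℝ) := by
                gcongr
                have e : X ^ (-(1/4) : ℝ) = (√X) ^ (-(1/2) : ℝ) := by
                  rw [Real.sqrt_eq_rpow, ← Real.rpow_mul hX0.le]; norm_num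
                rw [e]
                exact Real.rpow_le_rpow_of_nonpos (Real.sqrt_pos.mpr hX0) hNX.le (by norm_num)
        have h8 : |bmol X N| * q32 N ≤ ∑ h ∈ Finset.Ioc 0 ⌊X⌋₊, (if h ∣ N then q32 N else 0) := by
          have h9 : |bmol X N| ≤ ∑ h ∈ (Finset.Ioc 0 ⌊X⌋₊).filter (fun h => h ∣ N), (1:ℝ) := by
            unfold bmol
            exact (Finset.abs_sum_le_sum_abs _ _).trans (Finset.sum_le_sum fun h _ => abs_amol_le hX h)
          calc |bmol X N| * q32 N ≤ (∑ h ∈ (Finset.Ioc 0 ⌊X⌋₊).filter (fun h => h ∣ N), (1:ℝ)) * q32 N := by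
                gcongr
                exact q32_nonneg N
            _ = _ := by rw [Finset.sum_mul, Finset.sum_filter]; simp
        calc |bmol X N| * ‖cps s N‖ ≤ |bmol X N| * (X ^ (-(1/4) : ℝ) * q32 N) := by gcongr
          _ = X ^ (-(1/4) : ℝ) * (|bmol X N| * q32 N) := by ring
          _ ≤ _ := by gcongr

end Pool.Agent.Helper57.LH
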