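import Pool.Agent.Helper57.LH.Conv

namespace Pool.Agent.Helper57.LH

open Complex Set MeasureTheory Filter Topology
open Pool.Agent.Helper57.Zeta

lemma HT_cont (T : ℝ) {σ : ℝ} (hσ : -1 < σ) : Continuous (fun t : ℝ => HT T (σ + t * I)) := by
  have hU : IsOpen {s : ℂ | (-1:ℝ) < s.re} := isOpen_lt continuous_const Complex.continuous_re
  rw [continuous_iff_continuousAt]
  intro t
  have h1 : ContinuousAt (HT T) (σ + t * I) := ((HT_diff T).continuousOn).continuousAt (hU.mem_nhds (by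
    show -1 < (σ + t * I : ℂ).re
    simpa using hσ))
  exact ContinuousAt.comp (f := fun t : ℝ => (σ + t * I : ℂ)) h1 (by fun_prop)

lemma gauss_T {T : ℝ} (hT : 0 < T) : Integrable (fun t : ℝ => Real.exp (-(t / T) ^ 2)) ∧
    ∫ t : ℝ, Real.exp (-(t / T) ^ 2) ≤ 2 * T := by
  have e : ∀ t : ℝ, Real.exp (-(t / T) ^ 2) = Real.exp (-(1 / T ^ 2) * t ^ 2) := by
    intro t; congr 1; field_simp
  simp_rw [e]
  refine ⟨integrable_exp_neg_mul_sq (by positivity), ?_⟩
  rw [integral_gaussian, div_div_eq_mul_div, div_one, Real.sqrt_mul Real.pi_pos.le, Real.sqrt_sq hT.le]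
  have : Real.sqrt Real.pi ≤ 2 := by
    rw [Real.sqrt_le_left (by norm_num)]
    have := Real.pi_lt_d2
    norm_num at this ⊢
    linarith
  gcongr

lemma HT_int {T : ℝ} (hT : 1 < T) {σ : ℝ} (h1 : 1 / 4 ≤ σ) (h2 : σ ≤ 9) :
    Integrable (fun t : ℝ => ‖HT T (σ + t * I)‖ ^ 2) := by
  refine (((gauss_T (T := T) (by linarith)).1).const_mul (10 ^ 5 * Real.exp (162 / T ^ 2) * XT T ^ 2 * T ^ 2)).mono' ?_ ?_
  · exact ((HT_cont T (by linarith)).norm.pow 2).aestronglyMeasurable
  · refine Eventually.of_forall fun t => ?_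
    rw [Real.norm_of_nonneg (by positivity)]
    exact HT_crude hT h1 h2

lemma le_of_int {f : ℝ → ℝ} (hf : Integrable f) {D : ℝ} (h : ∀ K : ℝ, 1 ≤ K → ∫ t in (-K)..K, f t ≤ D) :
    ∫ t, f t ≤ D := by
  have ht := intervalIntegral_tendsto_integral hf (a := fun K : ℝ => -K) (b := fun K : ℝ => K) (l := atTop)
    tendsto_neg_atTop_atBot tendsto_id
  refine le_of_tendsto ht ?_
  filter_upwards [eventually_ge_atTop 1] with K hK
  exact h K hK

lemma exp162 {T : ℝ} (hT : 20 ≤ T) : Real.exp (162 / T ^ 2) ≤ 3 := by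
  have h1 : 162 / T ^ 2 ≤ 1 := by
    rw [div_le_one (by positivity)]; nlinarith
  have := Real.exp_one_lt_d9
  exact (Real.exp_le_exp.mpr h1).trans (by linarith)

lemma XT_sq_le {T : ℝ} (hT : 1 ≤ T) : XT T ^ 2 ≤ T := by
  unfold XT
  rw [← Real.rpow_natCast, ← Real.rpow_mul (by linarith)]
  calc T ^ ((1/40 : ℝ) * ((2:ℕ):ℝ)) ≤ T ^ (1:ℝ) := Real.rpow_le_rpow_of_exponent_le hT (by norm_num)
    _ = T := Real.rpow_one T

lemma edge_quarter {T : ℝ} (hT : 20 ≤ T) : ∫ t : ℝ, ‖HT T ((1/4 : ℝ) + t * I)‖ ^ 2 ≤ 10 ^ 6 * T ^ 4 := by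
  have hT0 : 0 < T := by linarith
  have hg := gauss_T hT0
  calc ∫ t : ℝ, ‖HT T ((1/4 : ℝ) + t * I)‖ ^ 2
      ≤ ∫ t : ℝ, (10 ^ 5 * Real.exp (162 / T ^ 2) * XT T ^ 2 * T ^ 2) * Real.exp (-(t / T) ^ 2) := by
        apply integral_mono (HT_int (by linarith) le_rfl (by norm_num)) (hg.1.const_mul _)
        intro t
        exact HT_crude (by linarith) le_rfl (by norm_num)
    _ = (10 ^ 5 * Real.exp (162 / T ^ 2) * XT T ^ 2 * T ^ 2) * ∫ t : ℝ, Real.exp (-(t / T) ^ 2) := integral_const_mul _ _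
    _ ≤ (10 ^ 5 * 3 * T * T ^ 2) * (2 * T) := by
        have h1 := exp162 hT
        have h2 := XT_sq_le (T := T) (by linarith)
        have h3 : 0 ≤ ∫ t : ℝ, Real.exp (-(t / T) ^ 2) := integral_nonneg fun t => (Real.exp_pos _).le
        gcongr
        exact hg.2
    _ ≤ _ := by nlinarith [pow_pos hT0 4]

lemma edge_right {T : ℝ} (hT : 20 ≤ T) {σ : ℝ} (h1 : 2 ≤ σ) (h2 : σ ≤ 9) :
    ∫ t : ℝ, ‖HT T (σ + t * I)‖ ^ 2 ≤ 6 * Z32 ^ 4 * (T * XT T ^ (-(1/2) : ℝ)) := by
  have hT0 : 0 < T := by linarith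
  have hX1 : 1 < XT T := Real.one_lt_rpow (by linarith) (by norm_num)
  have hX0 : 0 < XT T := by linarith
  have hg := gauss_T hT0
  have hpt : ∀ t : ℝ, ‖HT T (σ + t * I)‖ ^ 2 ≤ (3 * Z32 ^ 4 * XT T ^ (-(1/2) : ℝ)) * Real.exp (-(t / T) ^ 2) := by
    intro t
    have hne : (σ + t * I : ℂ) ≠ 1 := by
      intro h
      have := congrArg Complex.re h
      simp at this
      linarith
    rw [HT_eq (by simp; linarith) hne, norm_mul, norm_mul, norm_exp_sq, norm_div]
    have hb := right_bound hX1 (s := σ + t * I) (by simpa using h1)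
    have hs1 : ‖(σ + t * I : ℂ) - 1‖ ≤ ‖(σ + t * I : ℂ) + 2‖ := norm_sub_one_le_add_two (by simp; linarith)
    have hs2 : ‖(σ + t * I : ℂ) - 1‖ / ‖(σ + t * I : ℂ) + 2‖ ≤ 1 := div_le_one_of_le₀ hs1 (norm_nonneg _)
    have he : Real.exp ((σ ^ 2 - t ^ 2) / T ^ 2) ^ 2 ≤ 3 * Real.exp (-(t / T) ^ 2) := by
      refine le_trans ?_ (mul_le_mul_of_nonneg_right (exp162 hT) (Real.exp_pos _).le)
      rw [← Real.exp_nat_mul, ← Real.exp_add]
      apply Real.exp_le_exp.mpr
      have : σ ^ 2 ≤ 81 := by nlinarith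
      have e : ((2:ℕ):ℝ) * ((σ ^ 2 - t ^ 2) / T ^ 2) = (2 * σ ^ 2) / T ^ 2 + (-(t / T) ^ 2 + -(t / T) ^ 2) := by
        push_cast; field_simp; ring
      rw [e]
      have h5 : (2 * σ ^ 2) / T ^ 2 ≤ 162 / T ^ 2 := by gcongr; linarith
      have h6 := sq_nonneg (t / T)
      linarith
    calc (‖(σ + t * I : ℂ) - 1‖ / ‖(σ + t * I : ℂ) + 2‖ * ‖riemannZeta (σ + t * I) * Mol (XT T) (σ + t * I) - 1‖ *
          Real.exp ((σ ^ 2 - t ^ 2) / T ^ 2)) ^ 2
        ≤ (1 * (Z32 ^ 2 * XT T ^ (-(1/4) : ℝ)) * Real.exp ((σ ^ 2 - t ^ 2) / T ^ 2)) ^ 2 := by gcongr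
      _ = Z32 ^ 4 * (XT T ^ (-(1/4) : ℝ)) ^ 2 * Real.exp ((σ ^ 2 - t ^ 2) / T ^ 2) ^ 2 := by ring
      _ ≤ Z32 ^ 4 * (XT T ^ (-(1/4) : ℝ)) ^ 2 * (3 * Real.exp (-(t / T) ^ 2)) := by gcongr
      _ = _ := by
          have : (XT T ^ (-(1/4) : ℝ)) ^ 2 = XT T ^ (-(1/2) : ℝ) := by
            rw [← Real.rpow_natCast, ← Real.rpow_mul hX0.le]; norm_num
          rw [this]; ring
  calc ∫ t : ℝ, ‖HT T (σ + t * I)‖ ^ 2
      ≤ ∫ t : ℝ, (3 * Z32 ^ 4 * XT T ^ (-(1/2) : ℝ)) * Real.exp (-(t / T) ^ 2) := by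
        exact integral_mono (HT_int (by linarith) (by linarith) h2) (hg.1.const_mul _) hpt
    _ = (3 * Z32 ^ 4 * XT T ^ (-(1/2) : ℝ)) * ∫ t : ℝ, Real.exp (-(t / T) ^ 2) := integral_const_mul _ _
    _ ≤ (3 * Z32 ^ 4 * XT T ^ (-(1/2) : ℝ)) * (2 * T) := by
        gcongr
        exact hg.2
    _ = _ := by ring

lemma edge_half : ∃ C : ℝ, 0 < C ∧ ∀ T : ℝ, 3 ^ 40 ≤ T → ∫ t : ℝ, ‖HT T ((1/2 : ℝ) + t * I)‖ ^ 2 ≤ C * T := by
  obtain ⟨C2, hC2, hsm⟩ := second_moment
  refine ⟨2 * (2700 + (4 * (C2 * 40) + 8)), by positivity, ?_⟩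
  intro T hT
  have hT20 : (20:ℝ) ≤ T := le_trans (by norm_num) hT
  have hT0 : 0 < T := by linarith
  have hX3 : 3 ≤ XT T := by
    unfold XT
    calc (3:ℝ) = ((3:ℝ) ^ (40:ℕ)) ^ (1/40 : ℝ) := by
          rw [← Real.rpow_natCast, ← Real.rpow_mul (by norm_num)]; norm_num
      _ ≤ T ^ (1/40 : ℝ) := by gcongr
  have hX0 : 0 < XT T := by linarith
  have hlX : Real.log (XT T) = 1 / 40 * Real.log T := by
    unfold XT; rw [Real.log_rpow hT0]
  have hlT : 0 < Real.log T := Real.log_pos (by linarith)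
  set f : ℝ → ℝ := fun t => ‖HT T ((1/2 : ℝ) + t * I)‖ ^ 2 with hf
  have hfc : Continuous f := (HT_cont T (by norm_num)).norm.pow 2
  have hfe : ∀ t, f (-t) = f t := by
    intro t
    rw [hf]
    simp only
    have : (((1/2 : ℝ) : ℂ) + ((-t : ℝ) : ℂ) * I) = starRingEnd ℂ (((1/2 : ℝ) : ℂ) + (t : ℂ) * I) := by
      simp only [map_add, map_mul, Complex.conj_ofReal, Complex.conj_I]
      push_cast; ring
    rw [this, HT_conj, RCLike.norm_conj]
  apply le_of_int (HT_int (by linarith) (by norm_num) (by norm_num))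
  intro R hR
  have h1 : ∫ t in (-R)..R, f t = 2 * ∫ t in (0:ℝ)..R, f t := by
    have e1 : ∫ t in (-R)..R, f t = (∫ t in (-R)..0, f t) + ∫ t in (0:ℝ)..R, f t :=
      (intervalIntegral.integral_add_adjacent_intervals (hfc.intervalIntegrable _ _) (hfc.intervalIntegrable _ _)).symm
    have e2 : ∫ t in (-R)..0, f t = ∫ t in (0:ℝ)..R, f t := by
      have := intervalIntegral.integral_comp_neg (a := 0) (b := R) f
      rw [neg_zero] at this
      rw [← this]
      exact intervalIntegral.integral_congr fun t _ => hfe t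
    rw [e1, e2]; ring
  have h2 : ∫ t in (0:ℝ)..R, f t = (∫ t in (0:ℝ)..1, f t) + ∫ t in (1:ℝ)..R, f t :=
    (intervalIntegral.integral_add_adjacent_intervals (hfc.intervalIntegrable _ _) (hfc.intervalIntegrable _ _)).symm
  have h3 : ∫ t in (0:ℝ)..1, f t ≤ 2700 * T := by
    have hb : ∀ t ∈ Icc (0:ℝ) 1, f t ≤ 2700 * T := by
      intro t ht
      rw [hf]
      simp only
      unfold HT
      rw [norm_mul, mul_pow, norm_exp_sq]
      have hA := HT_crude0 (T := T) (by linarith) (s := ((1/2 : ℝ) : ℂ) + t * I) (by simp; norm_num)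
      have hns : ‖(((1/2 : ℝ) : ℂ) + (t : ℂ) * I)‖ ≤ 1.5 := by
        refine (norm_add_le _ _).trans ?_
        rw [norm_mul, Complex.norm_I, Complex.norm_real, Complex.norm_real, Real.norm_of_nonneg (by norm_num),
          Real.norm_of_nonneg ht.1]
        linarith [ht.2]
      have he : Real.exp ((((1/2 : ℝ)) ^ 2 - t ^ 2) / T ^ 2) ^ 2 ≤ 3 := by
        refine le_trans ?_ (exp162 hT20)
        rw [← Real.exp_nat_mul]
        apply Real.exp_le_exp.mpr
        rw [← mul_div_assoc]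
        gcongr
        push_cast
        nlinarith [sq_nonneg t]
      have hXT := XT_sq_le (T := T) (by linarith)
      calc _ ≤ (10 * (1 + 1.5) * XT T) ^ 2 * 3 := by
            gcongr
            exact hA.trans (by gcongr)
        _ = 1875 * XT T ^ 2 := by ring
        _ ≤ 2700 * T := by nlinarith [sq_nonneg (XT T)]
    have := intervalIntegral.integral_mono_on (μ := volume) zero_le_one (hfc.intervalIntegrable _ _)
      (continuous_const.intervalIntegrable (μ := volume) (0:ℝ) 1) hb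
    simpa using this
  have h4 : ∫ t in (1:ℝ)..R, f t ≤ (4 * (C2 * 40) + 8) * T := by
    have hsm' := hsm T (XT T) R (by linarith) hX3 (by rw [hlX]; linarith) hR
    rw [hlX] at hsm'
    have e5 : Real.log T / (1 / 40 * Real.log T) = 40 := by field_simp
    rw [e5] at hsm'
    have hgi : IntervalIntegrable (fun t : ℝ => Real.exp (-(t / T) ^ 2)) volume 1 R := by
      apply Continuous.intervalIntegrable; fun_prop
    have hzi : IntervalIntegrable (fun t : ℝ => ‖riemannZeta (1 / 2 + I * t) * Mol (XT T) (1 / 2 + I * t)‖ ^ 2 * Real.exp (-(2 * (t / T) ^ 2))) volume 1 R := by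
      apply ContinuousOn.intervalIntegrable
      intro t _
      apply ContinuousAt.continuousWithinAt
      have hne : (1 / 2 + I * t : ℂ) ≠ 1 := by
        intro h
        have := congrArg Complex.re h
        simp at this
      have hz : ContinuousAt (fun t : ℝ => riemannZeta (1 / 2 + I * t)) t :=
        ContinuousAt.comp (f := fun t : ℝ => (1 / 2 + I * t : ℂ)) (differentiableAt_riemannZeta hne).continuousAt (by fun_prop)
      have hm : ContinuousAt (fun t : ℝ => Mol (XT T) (1 / 2 + I * t)) t :=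
        ContinuousAt.comp (f := fun t : ℝ => (1 / 2 + I * t : ℂ)) ((differentiable_Mol _).continuous.continuousAt) (by fun_prop)
      exact (((hz.mul hm).norm).pow 2).mul (by fun_prop)
    have hpt : ∀ t ∈ Icc (1:ℝ) R, f t ≤ 4 * (‖riemannZeta (1 / 2 + I * t) * Mol (XT T) (1 / 2 + I * t)‖ ^ 2 * Real.exp (-(2 * (t / T) ^ 2))) +
        4 * Real.exp (-(t / T) ^ 2) := by
      intro t ht
      rw [hf]
      simp only
      have hs : (((1/2 : ℝ) : ℂ) + (t : ℂ) * I) = 1 / 2 + I * t := by push_cast; ring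
      have hne : (((1/2 : ℝ) : ℂ) + (t : ℂ) * I) ≠ 1 := by
        intro h
        have := congrArg Complex.re h
        simp at this
      rw [HT_eq (by simp) hne, norm_mul, norm_mul, norm_exp_sq, norm_div, ← hs]
      have hs1 : ‖(((1/2 : ℝ) : ℂ) + (t : ℂ) * I) - 1‖ ≤ ‖(((1/2 : ℝ) : ℂ) + (t : ℂ) * I) + 2‖ := norm_sub_one_le_add_two (by simp)
      have hs2 : ‖(((1/2 : ℝ) : ℂ) + (t : ℂ) * I) - 1‖ / ‖(((1/2 : ℝ) : ℂ) + (t : ℂ) * I) + 2‖ ≤ 1 := div_le_one_of_le₀ hs1 (norm_nonneg _)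
      set Q := riemannZeta (((1/2 : ℝ) : ℂ) + (t : ℂ) * I) * Mol (XT T) (((1/2 : ℝ) : ℂ) + (t : ℂ) * I) with hQ
      have hQ1 : ‖Q - 1‖ ^ 2 ≤ 2 * ‖Q‖ ^ 2 + 2 := by
        have := norm_sub_sq_le Q 1
        simpa using this
      have he : Real.exp ((((1/2 : ℝ)) ^ 2 - t ^ 2) / T ^ 2) ^ 2 ≤ 2 * Real.exp (-(2 * (t / T) ^ 2)) := by
        have h5 : Real.exp (1 / 2 / T ^ 2) ≤ 2 := by
          have h6 : 1 / 2 / T ^ 2 ≤ 1 / 2 := div_le_self (by norm_num) (by nlinarith)
          have h7 : Real.exp (1/2) ≤ 2 := by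
            have h8 : Real.exp (1/2) ^ 2 ≤ 2 ^ 2 := by
              rw [← Real.exp_nat_mul]
              norm_num
              have := Real.exp_one_lt_d9
              linarith
            exact (pow_le_pow_iff_left₀ (Real.exp_pos _).le (by norm_num) two_ne_zero).mp h8
          exact (Real.exp_le_exp.mpr h6).trans h7
        refine le_trans (le_of_eq ?_) (mul_le_mul_of_nonneg_right h5 (Real.exp_pos _).le)
        rw [← Real.exp_nat_mul, ← Real.exp_add]
        congr 1
        push_cast; field_simp; ring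
      have he2 : Real.exp (-(2 * (t / T) ^ 2)) ≤ Real.exp (-(t / T) ^ 2) := by
        apply Real.exp_le_exp.mpr
        have := sq_nonneg (t / T)
        linarith
      calc (‖(((1/2 : ℝ) : ℂ) + (t : ℂ) * I) - 1‖ / ‖(((1/2 : ℝ) : ℂ) + (t : ℂ) * I) + 2‖ * ‖Q - 1‖ *
          Real.exp ((((1/2 : ℝ)) ^ 2 - t ^ 2) / T ^ 2)) ^ 2
          ≤ (1 * ‖Q - 1‖ * Real.exp ((((1/2 : ℝ)) ^ 2 - t ^ 2) / T ^ 2)) ^ 2 := by gcongr
        _ = ‖Q - 1‖ ^ 2 * Real.exp ((((1/2 : ℝ)) ^ 2 - t ^ 2) / T ^ 2) ^ 2 := by ring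
        _ ≤ (2 * ‖Q‖ ^ 2 + 2) * (2 * Real.exp (-(2 * (t / T) ^ 2))) := by gcongr
        _ = 4 * (‖Q‖ ^ 2 * Real.exp (-(2 * (t / T) ^ 2))) + 4 * Real.exp (-(2 * (t / T) ^ 2)) := by ring
        _ ≤ _ := by gcongr
    have h5 := intervalIntegral.integral_mono_on hR (hfc.intervalIntegrable _ _) ((hzi.const_mul 4).add (hgi.const_mul 4)) hpt
    rw [intervalIntegral.integral_add (hzi.const_mul 4) (hgi.const_mul 4), intervalIntegral.integral_const_mul,
      intervalIntegral.integral_const_mul] at h5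
    have hg := gauss_T hT0
    have h6 : ∫ t in (1:ℝ)..R, Real.exp (-(t / T) ^ 2) ≤ 2 * T := by
      refine le_trans ?_ hg.2
      rw [intervalIntegral.integral_of_le hR]
      exact setIntegral_le_integral hg.1 (Eventually.of_forall fun t => (Real.exp_pos _).le)
    linarith
  rw [h1, h2]
  linarith

/-- decay factor -/
noncomputable def dec (T σ : ℝ) : ℝ := Real.exp (-(Real.log T / 120 * min (max (σ - 1 / 2) 0) (3 / 2)))

/-- energy bound on vertical lines -/
theorem energy : ∃ C : ℝ, 1 ≤ C ∧ ∀ T : ℝ, 3 ^ 40 ≤ T → ∀ σ : ℝ, 1 / 2 - 1 / Real.log T ≤ σ → σ ≤ 9 →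
    ∫ t : ℝ, ‖HT T (σ + t * I)‖ ^ 2 ≤ C * T * dec T σ := by
  obtain ⟨C1, hC1, hh⟩ := edge_half
  set D := 10 ^ 6 + C1 + 6 * Z32 ^ 4 with hD
  have hZ := Z32_pos
  have hD1 : 1 ≤ D := by rw [hD]; have := pow_pos hZ 4; linarith
  refine ⟨D * Real.exp 12, by nlinarith [Real.one_le_exp (show (0:ℝ) ≤ 12 by norm_num)], ?_⟩
  intro T hT σ h1 h2
  have hT20 : (20:ℝ) ≤ T := le_trans (by norm_num) hT
  have hT0 : 0 < T := by linarith
  have hT1 : 1 < T := by linarith
  have hlT : 40 ≤ Real.log T := by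
    have h3 : Real.log (3 ^ 40) ≤ Real.log T := Real.log_le_log (by norm_num) hT
    rw [Real.log_pow] at h3
    have h4 : 1 ≤ Real.log 3 := by
      rw [Real.le_log_iff_exp_le (by norm_num)]
      have := Real.exp_one_lt_d9
      linarith
    push_cast at h3
    linarith
  have hlT0 : 0 < Real.log T := by linarith
  have hLinv : 1 / Real.log T ≤ 1 / 4 := one_div_le_one_div_of_le (by norm_num) (by linarith)
  have hX1 : 1 < XT T := Real.one_lt_rpow hT1 (by norm_num)
  have hX0 : 0 < XT T := by linarith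
  have hXlog : XT T = Real.exp (Real.log T / 40) := by
    unfold XT
    rw [Real.rpow_def_of_pos hT0]; ring_nf
  have he12 : 1 ≤ Real.exp 12 := Real.one_le_exp (by norm_num)
  have hTexp : T = Real.exp (Real.log T) := (Real.exp_log hT0).symm
  rcases le_or_gt σ (1/2) with hs | hs
  · -- left of the critical line
    have hdec : dec T σ = 1 := by
      unfold dec
      rw [max_eq_right (by linarith), min_eq_left (by norm_num)]
      simp
    rw [hdec, mul_one]
    apply le_of_int (HT_int hT1 (by linarith) h2)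
    intro K hK
    have h3 := three_lines (H := HT T) (c := -1) (l := 1/4) (u := 1/2) (by norm_num) (by norm_num) (HT_diff T)
      (Bd := Real.sqrt (10 ^ 5 * Real.exp (162 / T ^ 2) * XT T ^ 2 * T ^ 2)) (by
        intro s hs1 hs2
        apply Real.le_sqrt_of_sq_le
        have := HT_crude hT1 (σ := s.re) (t := s.im) hs1 (by linarith)
        rw [Complex.re_add_im] at this
        refine this.trans ?_
        have : Real.exp (-(s.im / T) ^ 2) ≤ 1 := Real.exp_le_one_iff.mpr (by have := sq_nonneg (s.im / T); linarith)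
        calc _ ≤ (10 ^ 5 * Real.exp (162 / T ^ 2) * XT T ^ 2 * T ^ 2) * 1 := by gcongr
          _ = _ := mul_one _)
      (A := 10 ^ 6 * T ^ 4) (B := C1 * T)
      (HT_int hT1 le_rfl (by norm_num)) (edge_quarter hT20)
      (HT_int hT1 (by norm_num) (by norm_num)) (hh T hT)
      (σ := σ) (by linarith) hs (K := K) (by linarith)
    refine h3.trans ?_
    set θ := (σ - 1/4) / (1/2 - 1/4) with hθ
    have hθ0 : 0 ≤ θ := div_nonneg (by linarith) (by norm_num)
    have hθ1 : θ ≤ 1 := by rw [hθ, div_le_one (by norm_num)]; linarith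
    have hθ2 : 1 - θ ≤ 4 / Real.log T := by
      rw [hθ]
      have : (σ - 1/4) / (1/2 - 1/4) = 4 * σ - 1 := by ring
      rw [this]
      have : 4 / Real.log T = 4 * (1 / Real.log T) := by ring
      rw [this]; linarith
    calc (10 ^ 6 * T ^ 4) ^ (1 - θ) * (C1 * T) ^ θ ≤ (D * T ^ 4) ^ (1 - θ) * (D * T) ^ θ := by
          have hz : 0 ≤ 6 * Z32 ^ 4 := by positivity
          gcongr <;> first | linarith | (rw [hD]; linarith)
      _ = D * T * T ^ (3 * (1 - θ)) := by
          have hD0 : 0 < D := by linarith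
          have e1 : (D * T ^ 4) = (D * T) * T ^ (3:ℝ) := by
            rw [show (T ^ (3:ℝ) : ℝ) = T ^ 3 by norm_cast]; ring
          rw [e1, Real.mul_rpow (by positivity) (by positivity), ← Real.rpow_mul hT0.le]
          have e2 : (D * T) ^ (1 - θ) * (D * T) ^ θ = D * T := by
            rw [← Real.rpow_add (by positivity)]; simp
          calc (D * T) ^ (1 - θ) * T ^ (3 * (1 - θ)) * (D * T) ^ θ = ((D * T) ^ (1 - θ) * (D * T) ^ θ) * T ^ (3 * (1 - θ)) := by ring
            _ = _ := by rw [e2]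
      _ ≤ D * T * Real.exp 12 := by
          have hD0 : 0 < D := by linarith
          gcongr
          rw [Real.rpow_def_of_pos hT0]
          apply Real.exp_le_exp.mpr
          calc Real.log T * (3 * (1 - θ)) ≤ Real.log T * (3 * (4 / Real.log T)) := by gcongr
            _ = 12 := by field_simp; norm_num
      _ = _ := by ring
  · rcases le_or_gt σ 2 with hs2 | hs2
    · have hdec : dec T σ = Real.exp (-(Real.log T / 120 * (σ - 1/2))) := by
        unfold dec
        rw [max_eq_left (by linarith), min_eq_left (by linarith)]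
      apply le_of_int (HT_int hT1 (by linarith) h2)
      intro K hK
      have h3 := three_lines (H := HT T) (c := -1) (l := 1/2) (u := 2) (by norm_num) (by norm_num) (HT_diff T)
        (Bd := Real.sqrt (10 ^ 5 * Real.exp (162 / T ^ 2) * XT T ^ 2 * T ^ 2)) (by
          intro s hs1 hs2
          apply Real.le_sqrt_of_sq_le
          have := HT_crude hT1 (σ := s.re) (t := s.im) (by linarith) (by linarith)
          rw [Complex.re_add_im] at this
          refine this.trans ?_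
          have : Real.exp (-(s.im / T) ^ 2) ≤ 1 := Real.exp_le_one_iff.mpr (by have := sq_nonneg (s.im / T); linarith)
          calc _ ≤ (10 ^ 5 * Real.exp (162 / T ^ 2) * XT T ^ 2 * T ^ 2) * 1 := by gcongr
            _ = _ := mul_one _)
        (A := C1 * T) (B := 6 * Z32 ^ 4 * (T * XT T ^ (-(1/2) : ℝ)))
        (HT_int hT1 (by norm_num) (by norm_num)) (hh T hT)
        (HT_int hT1 (by norm_num) (by norm_num)) (edge_right hT20 le_rfl (by norm_num))
        (σ := σ) (by linarith) hs2 (K := K) (by linarith)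
      refine h3.trans ?_
      set θ := (σ - 1/2) / (2 - 1/2) with hθ
      have hθ0 : 0 ≤ θ := div_nonneg (by linarith) (by norm_num)
      have hθ1 : θ ≤ 1 := by rw [hθ, div_le_one (by norm_num)]; linarith
      calc (C1 * T) ^ (1 - θ) * (6 * Z32 ^ 4 * (T * XT T ^ (-(1/2) : ℝ))) ^ θ
          ≤ (D * T) ^ (1 - θ) * (D * (T * XT T ^ (-(1/2) : ℝ))) ^ θ := by
            have hz : 0 ≤ 6 * Z32 ^ 4 := by positivity
            gcongr <;> first | linarith | (rw [hD]; linarith)
        _ = D * T * (XT T ^ (-(1/2) : ℝ)) ^ θ := by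
            have hD0 : 0 < D := by linarith
            rw [show D * (T * XT T ^ (-(1/2) : ℝ)) = (D * T) * XT T ^ (-(1/2) : ℝ) by ring,
              Real.mul_rpow (x := D * T) (y := XT T ^ (-(1/2) : ℝ)) (by positivity) (by positivity)]
            have e2 : (D * T) ^ (1 - θ) * (D * T) ^ θ = D * T := by
              rw [← Real.rpow_add (by positivity)]; simp
            calc (D * T) ^ (1 - θ) * ((D * T) ^ θ * (XT T ^ (-(1/2) : ℝ)) ^ θ) = ((D * T) ^ (1 - θ) * (D * T) ^ θ) * (XT T ^ (-(1/2) : ℝ)) ^ θ := by ring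
              _ = _ := by rw [e2]
        _ = D * T * dec T σ := by
            rw [hdec, ← Real.rpow_mul hX0.le, hXlog, ← Real.exp_mul]
            congr 2
            rw [hθ]; ring
        _ ≤ D * Real.exp 12 * T * dec T σ := by
            have hD0 : 0 < D := by linarith
            have : 0 < dec T σ := Real.exp_pos _
            have h7 : D * T ≤ D * Real.exp 12 * T := by nlinarith [mul_pos hD0 hT0]
            gcongr
    · have hdec : dec T σ = Real.exp (-(Real.log T / 120 * (3/2))) := by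
        unfold dec
        rw [max_eq_left (by linarith), min_eq_right (by linarith)]
      refine (edge_right hT20 hs2.le h2).trans ?_
      have hXX : XT T ^ (-(1/2) : ℝ) = dec T σ := by
        rw [hdec, hXlog, ← Real.exp_mul]
        congr 1
        ring
      rw [hXX]
      have : 0 < dec T σ := Real.exp_pos _
      have hD0 : 0 < D := by linarith
      have hz : 6 * Z32 ^ 4 ≤ D := by rw [hD]; linarith
      have hz2 : 6 * Z32 ^ 4 ≤ D * Real.exp 12 := by
        calc 6 * Z32 ^ 4 ≤ D * 1 := by linarith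
          _ ≤ D * Real.exp 12 := by gcongr
      calc 6 * Z32 ^ 4 * (T * dec T σ) ≤ (D * Real.exp 12) * (T * dec T σ) := by
            gcongr
        _ = _ := by ring

end Pool.Agent.Helper57.LH
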