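import Pool.Agent.Helper57.LH.LogD

namespace Pool.Agent.Helper57.LH

open Complex Set MeasureTheory Filter Topology
open Pool.Agent.Helper57.Zeta
open scoped ArithmeticFunction

/-- growth weight -/
noncomputable def wg (u : ℝ) : ℝ := Real.sqrt (1 + |u|)

lemma wg_cont : Continuous wg := by unfold wg; fun_prop

lemma wg_one_le (u : ℝ) : 1 ≤ wg u := by
  unfold wg
  rw [Real.one_le_sqrt]
  have := abs_nonneg u
  linarith

lemma kk_shift_cont {X : ℝ} (hX : 0 < X) (t : ℝ) : Continuous (fun u => kk X (t - u)) :=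
  (kk_cont hX).comp (by fun_prop)

lemma kk_wg_integrable {X : ℝ} (hX : 0 < X) (t : ℝ) : Integrable (fun u => |kk X (t - u)| * wg u) := by
  have h1 : Integrable (fun v : ℝ => (1 + ‖v‖) ^ (-(3/2) : ℝ)) := integrable_one_add_norm (by simp; norm_num)
  have h2 : Integrable (fun u : ℝ => Ck X * wg t * (2 * (1 + ‖t - u‖) ^ (-(3/2) : ℝ))) :=
    ((h1.comp_sub_left t).const_mul 2).const_mul _
  refine h2.mono' ?_ ?_
  · exact ((kk_shift_cont hX t).abs.mul wg_cont).aestronglyMeasurable
  · filter_upwards with u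
    have hC := Ck_pos hX
    rw [Real.norm_of_nonneg (mul_nonneg (abs_nonneg _) (le_trans zero_le_one (wg_one_le u)))]
    have h3 := kk_bound hX (t - u)
    rw [Real.norm_eq_abs]
    have h4 : wg u ≤ wg t * Real.sqrt (1 + |t - u|) := by
      unfold wg
      rw [← Real.sqrt_mul (by positivity)]
      apply Real.sqrt_le_sqrt
      have h5 : |u| ≤ |t| + |t - u| := by
        have := abs_sub_le u t 0
        rw [sub_zero, sub_zero, abs_sub_comm u t] at this
        linarith
      nlinarith [mul_nonneg (abs_nonneg t) (abs_nonneg (t - u))]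
    have h6 : (1 + (t - u) ^ 2)⁻¹ * Real.sqrt (1 + |t - u|) ≤ 2 * (1 + |t - u|) ^ (-(3/2) : ℝ) := by
      set y := |t - u| with hy
      have hy0 : 0 ≤ y := abs_nonneg _
      have e1 : (t - u) ^ 2 = y ^ 2 := by rw [hy, sq_abs]
      rw [e1, Real.sqrt_eq_rpow]
      have hp : 0 < 1 + y := by linarith
      have e2 : (1 + y) ^ (-(3/2) : ℝ) = ((1 + y) ^ 2)⁻¹ * (1 + y) ^ (1/2 : ℝ) := by
        rw [← Real.rpow_natCast, ← Real.rpow_neg hp.le, ← Real.rpow_add hp]
        norm_num
      rw [e2, ← mul_assoc]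
      gcongr
      rw [inv_le_comm₀ (by positivity) (by positivity), mul_inv, inv_inv]
      nlinarith [sq_nonneg (1 - y)]
    calc |kk X (t - u)| * wg u ≤ (Ck X * (1 + (t - u) ^ 2)⁻¹) * (wg t * Real.sqrt (1 + |t - u|)) := by
          gcongr
          exact Real.sqrt_nonneg _
      _ = Ck X * wg t * ((1 + (t - u) ^ 2)⁻¹ * Real.sqrt (1 + |t - u|)) := by ring
      _ ≤ _ := by
          have : 0 ≤ wg t := Real.sqrt_nonneg _
          gcongr

lemma T_integrable {X : ℝ} (hX : 0 < X) (t : ℝ) {φ : ℝ → ℝ} (hφ : AEStronglyMeasurable φ) {c : ℝ}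
    (hb : ∀ u, |φ u| ≤ c * wg u) : Integrable (fun u => kk X (t - u) * φ u) := by
  refine ((kk_wg_integrable hX t).const_mul c).mono' ((kk_shift_cont hX t).aestronglyMeasurable.mul hφ) ?_
  filter_upwards with u
  rw [Real.norm_eq_abs, abs_mul]
  calc |kk X (t - u)| * |φ u| ≤ |kk X (t - u)| * (c * wg u) := by
        gcongr
        exact hb u
    _ = _ := by ring

lemma T_hasSum {X : ℝ} (hX : 0 < X) (t : ℝ) {ι : Type*} [Countable ι] {φ : ι → ℝ → ℝ} (hφ : ∀ i, Continuous (φ i))
    {c : ι → ℝ} (hc : Summable c) (hb : ∀ i u, |φ i u| ≤ c i * wg u) :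
    HasSum (fun i => ∫ u, kk X (t - u) * φ i u) (∫ u, kk X (t - u) * ∑' i, φ i u) := by
  have hI : ∀ i, Integrable (fun u => kk X (t - u) * φ i u) := fun i =>
    T_integrable hX t (hφ i).aestronglyMeasurable (hb i)
  have h := hasSum_integral_of_summable_integral_norm hI (by
    refine Summable.of_nonneg_of_le (fun i => integral_nonneg fun _ => norm_nonneg _) (fun i => ?_)
      (hc.mul_right (∫ u, |kk X (t - u)| * wg u))
    rw [← integral_const_mul]
    apply integral_mono (hI i).norm ((kk_wg_integrable hX t).const_mul _)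
    intro u
    simp only
    rw [Real.norm_eq_abs, abs_mul]
    calc |kk X (t - u)| * |φ i u| ≤ |kk X (t - u)| * (c i * wg u) := by
          gcongr
          exact hb i u
      _ = _ := by ring)
  have e : (fun u => kk X (t - u) * ∑' i, φ i u) = fun u => ∑' i, kk X (t - u) * φ i u := by
    funext u
    rw [tsum_mul_left]
  rw [e]
  exact h

/-- the digamma terms -/
noncomputable def Dn (n : ℕ) (u : ℝ) : ℝ := 1 / ((n:ℝ) + 1) - 2 * ((2 * ((n:ℝ) + 1)) / ((2 * ((n:ℝ) + 1)) ^ 2 + u ^ 2))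

/-- summable majorant -/
noncomputable def cD (n : ℕ) : ℝ := 1 / (Real.sqrt ((n:ℝ) + 1)) ^ 3

lemma cD_summable : Summable cD := by
  have h := (summable_nat_add_iff 1).mpr (Real.summable_one_div_nat_rpow.mpr (show (1:ℝ) < 3 / 2 by norm_num))
  refine h.congr fun n => ?_
  unfold cD
  rw [Real.sqrt_eq_rpow, ← Real.rpow_natCast, ← Real.rpow_mul (by positivity)]
  push_cast
  norm_num

lemma Dn_bound (n : ℕ) (u : ℝ) : |Dn n u| ≤ cD n * wg u := by
  have hn : (0:ℝ) < (n:ℝ) + 1 := by positivity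
  set N : ℝ := (n:ℝ) + 1 with hN
  have hN1 : 1 ≤ N := by rw [hN]; have : (0:ℝ) ≤ n := Nat.cast_nonneg n; linarith
  have e : Dn n u = u ^ 2 / (N * (4 * N ^ 2 + u ^ 2)) := by
    unfold Dn
    rw [← hN]
    field_simp
    ring
  rw [e, abs_of_nonneg (by positivity)]
  unfold cD wg
  rw [← hN]
  set q := Real.sqrt N with hq
  have hq0 : 0 < q := Real.sqrt_pos.mpr hn
  have hq2 : q ^ 2 = N := Real.sq_sqrt hn.le
  set s := Real.sqrt |u| with hs
  have hs0 : 0 ≤ s := Real.sqrt_nonneg _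
  have hs2 : s ^ 2 = |u| := Real.sq_sqrt (abs_nonneg u)
  have hsw : s ≤ Real.sqrt (1 + |u|) := Real.sqrt_le_sqrt (by linarith)
  have hu2 : u ^ 2 = s ^ 4 := by rw [← sq_abs, ← hs2]; ring
  have key : u ^ 2 / (N * (4 * N ^ 2 + u ^ 2)) ≤ 1 / q ^ 3 * s := by
    rw [hu2, ← hq2, one_div, inv_mul_eq_div, div_le_div_iff₀ (by positivity) (by positivity)]
    -- s^4 q^3 ≤ s (q^2 (4 q^4 + s^4))
    have h1 : s ^ 4 * q ^ 3 ≤ s * (q ^ 2 * (4 * (q ^ 2) ^ 2 + s ^ 4)) := by
      have h2 : 0 ≤ 4 * q ^ 4 + s ^ 4 - s ^ 3 * q := by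
        nlinarith [sq_nonneg (s ^ 2 - s * q), sq_nonneg (s ^ 2 - 2 * s * q), sq_nonneg (s * q - q ^ 2), sq_nonneg (s * q), sq_nonneg (q^2), sq_nonneg (s^2), sq_nonneg (s ^ 2 - s * q / 2)]
      have h3 : 0 ≤ s * q ^ 2 * (4 * q ^ 4 + s ^ 4 - s ^ 3 * q) := by positivity
      nlinarith
    linarith
  refine key.trans ?_
  gcongr

lemma Dn_cont (n : ℕ) : Continuous (Dn n) := by
  unfold Dn
  apply Continuous.sub continuous_const
  apply continuous_const.mul
  apply Continuous.div continuous_const (by fun_prop)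
  intro u
  positivity

/-- the prime terms -/
noncomputable def cV (n : ℕ) : ℝ := ArithmeticFunction.vonMangoldt n / (n:ℝ) ^ 2

lemma cV_nonneg (n : ℕ) : 0 ≤ cV n := by
  unfold cV
  have := @ArithmeticFunction.vonMangoldt_nonneg n
  positivity

lemma cV_summable : Summable cV := by
  refine (vM_hasSum 0).summable.congr fun n => ?_
  unfold cV
  simp

lemma Vn_bound (n : ℕ) (u : ℝ) : |cV n * Real.cos (Real.log n * u)| ≤ cV n * wg u := by
  rw [abs_mul, abs_of_nonneg (cV_nonneg n)]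
  have h1 := Real.abs_cos_le_one (Real.log n * u)
  have h2 := wg_one_le u
  have := cV_nonneg n
  gcongr
  linarith

lemma Afun_eq' (u : ℝ) : Afun u = 2 / (2 ^ 2 + u ^ 2) + 1 / (1 ^ 2 + u ^ 2) - (Real.log Real.pi + Real.eulerMascheroniConstant) / 2 +
    (∑' n : ℕ, Dn n u) / 2 - ∑' n : ℕ, cV n * Real.cos (Real.log n * u) := Afun_eq u

lemma Afun_cont : Continuous Afun := by
  unfold Afun
  apply Complex.continuous_re.comp
  have h1 : Continuous (deriv xi) := (differentiable_xi.contDiff (n := 1)).continuous_deriv le_rfl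
  have h2 : Continuous xi := differentiable_xi.continuous
  simp only [logDeriv_apply]
  apply Continuous.div (h1.comp (by fun_prop)) (h2.comp (by fun_prop))
  intro u
  apply xi_ne_zero_of_one_le_re
  simp

/-- growth constant -/
noncomputable def CA : ℝ := 2 + |(Real.log Real.pi + Real.eulerMascheroniConstant) / 2| + (∑' n, cD n) / 2 + ∑' n, cV n

lemma tsum_bound {ι : Type*} {φ : ι → ℝ} {c : ι → ℝ} {w : ℝ} (hc : Summable c) (h : ∀ i, |φ i| ≤ c i * w) :
    |∑' i, φ i| ≤ (∑' i, c i) * w := by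
  have hs : Summable (fun i => c i * w) := hc.mul_right w
  have h1 : Summable φ := Summable.of_norm_bounded hs (fun i => by rw [Real.norm_eq_abs]; exact h i)
  rw [← tsum_mul_right, ← Real.norm_eq_abs]
  exact tsum_of_norm_bounded hs.hasSum (fun i => by rw [Real.norm_eq_abs]; exact h i)

lemma Afun_bound (u : ℝ) : |Afun u| ≤ CA * wg u := by
  rw [Afun_eq']
  have h1 : |∑' n : ℕ, Dn n u| ≤ (∑' n, cD n) * wg u := tsum_bound cD_summable (fun n => Dn_bound n u)
  have h2 : |∑' n : ℕ, cV n * Real.cos (Real.log n * u)| ≤ (∑' n, cV n) * wg u := tsum_bound cV_summable (fun n => Vn_bound n u)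
  have h3 : |2 / (2 ^ 2 + u ^ 2)| ≤ 1 := by
    rw [abs_of_pos (by positivity), div_le_one (by positivity)]
    nlinarith [sq_nonneg u]
  have h4 : |1 / (1 ^ 2 + u ^ 2)| ≤ 1 := by
    rw [abs_of_pos (by positivity), div_le_one (by positivity)]
    nlinarith [sq_nonneg u]
  set K := (Real.log Real.pi + Real.eulerMascheroniConstant) / 2 with hK
  have h5 : |(∑' n : ℕ, Dn n u) / 2| ≤ (∑' n, cD n) / 2 * wg u := by
    rw [abs_div, abs_of_pos (by norm_num : (0:ℝ) < 2)]
    linarith
  have hw := wg_one_le u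
  have h6 : |2 / (2 ^ 2 + u ^ 2) + 1 / (1 ^ 2 + u ^ 2) - K + (∑' n : ℕ, Dn n u) / 2 - ∑' n : ℕ, cV n * Real.cos (Real.log n * u)| ≤
      |2 / (2 ^ 2 + u ^ 2)| + |1 / (1 ^ 2 + u ^ 2)| + |K| + |(∑' n : ℕ, Dn n u) / 2| + |∑' n : ℕ, cV n * Real.cos (Real.log n * u)| := by
    refine (abs_sub _ _).trans ?_
    gcongr
    refine (abs_add_le _ _).trans ?_
    gcongr
    refine (abs_sub _ _).trans ?_
    gcongr
    exact abs_add_le _ _
  refine h6.trans ?_
  unfold CA
  have hK0 := abs_nonneg K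
  nlinarith

/-- the archimedean main term -/
noncomputable def MT (X t : ℝ) : ℝ := 2 * (JJ X ((3 / 2 - 2 : ℝ) + t * I)).re + 2 * (JJ X ((3 / 2 - 1 : ℝ) + t * I)).re -
  (Real.log Real.pi + Real.eulerMascheroniConstant) +
  ∑' n : ℕ, (1 / ((n:ℝ) + 1) - 2 * (JJ X ((3 / 2 - 2 * ((n:ℝ) + 1) : ℝ) + t * I)).re)

/-- the prime sum -/
noncomputable def PS (X t : ℝ) : ℝ := ∑' n : ℕ, cV n * (kpp X (Real.log n) * Real.cos (Real.log n * t))

lemma T_one {X : ℝ} (hX : 0 < X) (t : ℝ) : ∫ u, kk X (t - u) = 2 / X := by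
  have h := T_cos hX 0 t
  simp only [zero_mul, Real.cos_zero, mul_one] at h
  rw [h]
  unfold kpp
  simp

lemma T_Dn {X : ℝ} (hX : 0 < X) (t : ℝ) (n : ℕ) : ∫ u, kk X (t - u) * Dn n u =
    2 / X * (1 / ((n:ℝ) + 1) - 2 * (JJ X ((3 / 2 - 2 * ((n:ℝ) + 1) : ℝ) + t * I)).re) := by
  have ha : 0 < 2 * ((n:ℝ) + 1) := by positivity
  have h1 := T_poisson hX ha t
  have hi1 : Integrable (fun u => kk X (t - u)) := (kk_integrable hX).comp_sub_left t
  have hi2 : Integrable (fun u => kk X (t - u) * ((2 * ((n:ℝ) + 1)) / ((2 * ((n:ℝ) + 1)) ^ 2 + u ^ 2))) := by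
    apply T_integrable hX t (c := 1)
    · apply Continuous.aestronglyMeasurable
      apply Continuous.div continuous_const (by fun_prop)
      intro u; positivity
    · intro u
      have := wg_one_le u
      rw [abs_of_pos (by positivity)]
      have h2 : (2 * ((n:ℝ) + 1)) / ((2 * ((n:ℝ) + 1)) ^ 2 + u ^ 2) ≤ 1 := by
        rw [div_le_one (by positivity)]
        have : (0:ℝ) ≤ n := Nat.cast_nonneg n
        nlinarith [sq_nonneg u]
      linarith
  have e : ∀ u, kk X (t - u) * Dn n u = (1 / ((n:ℝ) + 1)) * kk X (t - u) - 2 * (kk X (t - u) * ((2 * ((n:ℝ) + 1)) / ((2 * ((n:ℝ) + 1)) ^ 2 + u ^ 2))) := by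
    intro u; unfold Dn; ring
  simp_rw [e]
  rw [integral_sub (hi1.const_mul _) (hi2.const_mul _), integral_const_mul, integral_const_mul, h1, T_one hX]
  ring

lemma lin5 {f1 f2 f3 f4 f5 : ℝ → ℝ} (h1 : Integrable f1) (h2 : Integrable f2) (h3 : Integrable f3) (h4 : Integrable f4)
    (h5 : Integrable f5) (a b : ℝ) : ∫ u, (f1 u + f2 u - a * f3 u + b * f4 u - f5 u) =
      (∫ u, f1 u) + (∫ u, f2 u) - a * (∫ u, f3 u) + b * (∫ u, f4 u) - ∫ u, f5 u := by
  have e1 := integral_sub (μ := volume) (f := fun u => f1 u + f2 u - a * f3 u + b * f4 u) (g := f5)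
    (((h1.add h2).sub (h3.const_mul a)).add (h4.const_mul b)) h5
  have e2 := integral_add (μ := volume) (f := fun u => f1 u + f2 u - a * f3 u) (g := fun u => b * f4 u)
    ((h1.add h2).sub (h3.const_mul a)) (h4.const_mul b)
  have e3 := integral_sub (μ := volume) (f := fun u => f1 u + f2 u) (g := fun u => a * f3 u) (h1.add h2) (h3.const_mul a)
  have e4 := integral_add (μ := volume) (f := f1) (g := f2) h1 h2
  rw [e1, e2, e3, e4, integral_const_mul, integral_const_mul]

/-- integral of Afun against the kernel -/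
theorem T_Afun {X : ℝ} (hX : 0 < X) (t : ℝ) : ∫ u, kk X (t - u) * Afun u = MT X t / X - PS X t := by
  have hD := T_hasSum hX t Dn_cont cD_summable Dn_bound
  have hV := T_hasSum hX t (φ := fun n u => cV n * Real.cos (Real.log n * u)) (fun n => by fun_prop) cV_summable Vn_bound
  have hi0 : Integrable (fun u => kk X (t - u)) := (kk_integrable hX).comp_sub_left t
  have hDc : Continuous (fun u => ∑' n : ℕ, Dn n u) := by
    have e : (fun u => ∑' n : ℕ, Dn n u) = fun u => 2 * (Afun u - (2 / (2 ^ 2 + u ^ 2) + 1 / (1 ^ 2 + u ^ 2) - (Real.log Real.pi + Real.eulerMascheroniConstant) / 2) + ∑' n : ℕ, cV n * Real.cos (Real.log n * u)) := by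
      funext u
      rw [Afun_eq']
      ring
    rw [e]
    have hc1 : Continuous (fun u : ℝ => (2:ℝ) / (2 ^ 2 + u ^ 2)) := Continuous.div continuous_const (by fun_prop) (fun u => by positivity)
    have hc2 : Continuous (fun u : ℝ => (1:ℝ) / (1 ^ 2 + u ^ 2)) := Continuous.div continuous_const (by fun_prop) (fun u => by positivity)
    have hc3 : Continuous (fun u : ℝ => ∑' n : ℕ, cV n * Real.cos (Real.log n * u)) := by
      apply continuous_tsum (fun n => by fun_prop) cV_summable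
      intro n u
      rw [Real.norm_eq_abs, abs_mul, abs_of_nonneg (cV_nonneg n)]
      have := Real.abs_cos_le_one (Real.log n * u)
      have := cV_nonneg n
      nlinarith
    exact continuous_const.mul ((Afun_cont.sub ((hc1.add hc2).sub continuous_const)).add hc3)
  have hVc : Continuous (fun u : ℝ => ∑' n : ℕ, cV n * Real.cos (Real.log n * u)) := by
    apply continuous_tsum (fun n => by fun_prop) cV_summable
    intro n u
    rw [Real.norm_eq_abs, abs_mul, abs_of_nonneg (cV_nonneg n)]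
    have := Real.abs_cos_le_one (Real.log n * u)
    have := cV_nonneg n
    nlinarith
  have hiD : Integrable (fun u => kk X (t - u) * ∑' n : ℕ, Dn n u) :=
    T_integrable hX t hDc.aestronglyMeasurable (fun u => tsum_bound cD_summable (fun n => Dn_bound n u))
  have hiV : Integrable (fun u => kk X (t - u) * ∑' n : ℕ, cV n * Real.cos (Real.log n * u)) :=
    T_integrable hX t hVc.aestronglyMeasurable (fun u => tsum_bound cV_summable (fun n => Vn_bound n u))
  have hi2 : Integrable (fun u => kk X (t - u) * (2 / (2 ^ 2 + u ^ 2))) := by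
    apply T_integrable hX t (c := 1)
    · exact (Continuous.div continuous_const (by fun_prop) (fun u => by positivity)).aestronglyMeasurable
    · intro u
      have := wg_one_le u
      rw [abs_of_pos (by positivity)]
      have h2 : 2 / (2 ^ 2 + u ^ 2) ≤ 1 := by
        rw [div_le_one (by positivity)]
        nlinarith [sq_nonneg u]
      linarith
  have hi1 : Integrable (fun u => kk X (t - u) * (1 / (1 ^ 2 + u ^ 2))) := by
    apply T_integrable hX t (c := 1)
    · exact (Continuous.div continuous_const (by fun_prop) (fun u => by positivity)).aestronglyMeasurable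
    · intro u
      have := wg_one_le u
      rw [abs_of_pos (by positivity)]
      have h2 : 1 / (1 ^ 2 + u ^ 2) ≤ 1 := by
        rw [div_le_one (by positivity)]
        nlinarith [sq_nonneg u]
      linarith
  have e : ∀ u, kk X (t - u) * Afun u = kk X (t - u) * (2 / (2 ^ 2 + u ^ 2)) + kk X (t - u) * (1 / (1 ^ 2 + u ^ 2)) -
      (Real.log Real.pi + Real.eulerMascheroniConstant) / 2 * kk X (t - u) + (1 / 2) * (kk X (t - u) * ∑' n : ℕ, Dn n u) -
      kk X (t - u) * ∑' n : ℕ, cV n * Real.cos (Real.log n * u) := by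
    intro u; rw [Afun_eq']; ring
  simp_rw [e]
  rw [lin5 hi2 hi1 hi0 hiD hiV, T_poisson hX (by norm_num : (0:ℝ) < 2), T_poisson hX (by norm_num : (0:ℝ) < 1), T_one hX, ← hD.tsum_eq, ← hV.tsum_eq]
  simp_rw [T_Dn hX t]
  have e2 : ∀ n : ℕ, ∫ u, kk X (t - u) * (cV n * Real.cos (Real.log n * u)) = cV n * (kpp X (Real.log n) * Real.cos (Real.log n * t)) := by
    intro n
    have e3 : ∀ u, kk X (t - u) * (cV n * Real.cos (Real.log n * u)) = cV n * (kk X (t - u) * Real.cos (Real.log n * u)) := by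
      intro u; ring
    simp_rw [e3]
    rw [integral_const_mul, T_cos hX]
  simp_rw [e2]
  rw [tsum_mul_left]
  unfold MT PS
  generalize (∑' n : ℕ, (1 / ((n:ℝ) + 1) - 2 * (JJ X ((3 / 2 - 2 * ((n:ℝ) + 1) : ℝ) + t * I)).re)) = S1
  generalize (∑' n : ℕ, cV n * (kpp X (Real.log n) * Real.cos (Real.log n * t))) = S2
  generalize (JJ X ((3 / 2 - 2 : ℝ) + t * I)).re = a1
  generalize (JJ X ((3 / 2 - 1 : ℝ) + t * I)).re = a2
  field_simp

end Pool.Agent.Helper57.LH
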