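import Pool.Agent.Helper57.LH.Expl

namespace Pool.Agent.Helper57.LH

open Complex Set MeasureTheory Filter Topology
open Pool.Agent.Helper57.Zeta

instance : Countable ZS := by
  have h : {ρ : ℂ | xi ρ = 0} ⊆ ⋃ n : ℕ, zset xi 2 n := by
    intro ρ hρ
    rw [mem_iUnion]
    obtain ⟨n, hn⟩ := exists_nat_ge ‖ρ - 2‖
    exact ⟨n, hρ, hn⟩
  have h2 : (⋃ n : ℕ, zset xi 2 n).Countable :=
    countable_iUnion fun n => (zset_finite differentiable_xi xi_two_ne 2 n).countable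
  exact (h2.mono h).to_subtype

/-- the terms of the partial fraction expansion -/
noncomputable def fz (ρ : ZS) (u : ℝ) : ℝ := mx ρ * ((2 - (ρ:ℂ).re) / ((2 - (ρ:ℂ).re) ^ 2 + (u - (ρ:ℂ).im) ^ 2))

lemma zs_re (ρ : ZS) : 0 < (ρ:ℂ).re ∧ (ρ:ℂ).re < 1 := by
  have := xi_eq_zero_iff.mp ρ.2
  exact ⟨this.1, this.2.1⟩

lemma fz_nonneg (ρ : ZS) (u : ℝ) : 0 ≤ fz ρ u := by
  unfold fz
  have := zs_re ρ
  apply mul_nonneg (mx_nonneg _)
  apply div_nonneg (by linarith) (by positivity)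

lemma fz_cont (ρ : ZS) : Continuous (fz ρ) := by
  unfold fz
  have := zs_re ρ
  apply continuous_const.mul
  apply Continuous.div continuous_const (by fun_prop)
  intro u
  have h1 : 0 < (2 - (ρ:ℂ).re) ^ 2 := by
    apply pow_pos; linarith
  positivity

lemma fz_hasSum (u : ℝ) : HasSum (fun ρ : ZS => fz ρ u) (Afun u) := by
  have h := pf_hasSum (s := ((2:ℝ) : ℂ) + u * I) (by simp)
  unfold Afun
  refine h.congr_fun ?_
  intro ρ
  unfold fz
  congr 1
  rw [one_div, Complex.inv_re]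
  have e : ((2:ℝ) : ℂ) + u * I - (ρ:ℂ) = ((2 - (ρ:ℂ).re : ℝ) : ℂ) + ((u - (ρ:ℂ).im : ℝ) : ℂ) * I := by
    apply Complex.ext <;> simp
  rw [e, normSq_z]
  simp

lemma fz_le (ρ : ZS) (u : ℝ) : fz ρ u ≤ Afun u := by
  have h := fz_hasSum u
  exact h.summable.le_tsum ρ (fun i _ => fz_nonneg i u) |>.trans (le_of_eq h.tsum_eq)

lemma Afun_nonneg (u : ℝ) : 0 ≤ Afun u := (fz_hasSum u).nonneg (fun ρ => fz_nonneg ρ u)

lemma kkA_integrable {X : ℝ} (hX : 0 < X) (t : ℝ) : Integrable (fun u => |kk X (t - u)| * Afun u) := by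
  refine ((kk_wg_integrable hX t).const_mul CA).mono' ((kk_shift_cont hX t).abs.mul Afun_cont).aestronglyMeasurable ?_
  filter_upwards with u
  rw [Real.norm_of_nonneg (mul_nonneg (abs_nonneg _) (Afun_nonneg u))]
  have h := Afun_bound u
  rw [abs_of_nonneg (Afun_nonneg u)] at h
  calc |kk X (t - u)| * Afun u ≤ |kk X (t - u)| * (CA * wg u) := by gcongr
    _ = _ := by ring

lemma T_fz {X : ℝ} (hX : 0 < X) (t : ℝ) (ρ : ZS) : ∫ u, kk X (t - u) * fz ρ u =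
    mx ρ * (2 / X * (JJ X (((ρ:ℂ).re - 1 / 2 : ℝ) + ((t - (ρ:ℂ).im : ℝ)) * I)).re) := by
  have hr := zs_re ρ
  have h := T_poisson hX (a := 2 - (ρ:ℂ).re) (by linarith) (t - (ρ:ℂ).im)
  have e1 : ∫ u, kk X (t - u) * fz ρ u = mx ρ * ∫ u, kk X (t - (ρ:ℂ).im - u) * ((2 - (ρ:ℂ).re) / ((2 - (ρ:ℂ).re) ^ 2 + u ^ 2)) := by
    rw [← integral_const_mul]
    rw [← integral_sub_right_eq_self (fun u => mx ρ * (kk X (t - (ρ:ℂ).im - u) * ((2 - (ρ:ℂ).re) / ((2 - (ρ:ℂ).re) ^ 2 + u ^ 2)))) (ρ:ℂ).im]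
    congr 1
    funext u
    unfold fz
    rw [show t - (ρ:ℂ).im - (u - (ρ:ℂ).im) = t - u by ring]
    ring
  rw [e1, h]
  rw [show (3 / 2 - (2 - (ρ:ℂ).re) : ℝ) = (ρ:ℂ).re - 1 / 2 by ring]

/-- explicit formula, one-sided form -/
theorem explicit1 {X : ℝ} (hX : 0 < X) (t : ℝ) :
    HasSum (fun ρ : ZS => mx ρ * (2 / X * (JJ X (((ρ:ℂ).re - 1 / 2 : ℝ) + ((t - (ρ:ℂ).im : ℝ)) * I)).re)) (MT X t / X - PS X t) := by
  have hI : ∀ ρ : ZS, Integrable (fun u => kk X (t - u) * fz ρ u) := by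
    intro ρ
    refine (kkA_integrable hX t).mono' ((kk_shift_cont hX t).mul (fz_cont ρ)).aestronglyMeasurable ?_
    filter_upwards with u
    rw [norm_mul, Real.norm_eq_abs, Real.norm_of_nonneg (fz_nonneg ρ u)]
    gcongr
    exact fz_le ρ u
  have h := hasSum_integral_of_summable_integral_norm hI (by
    apply summable_of_sum_le (c := ∫ u, |kk X (t - u)| * Afun u)
    · intro ρ
      exact integral_nonneg fun _ => norm_nonneg _
    · intro F
      rw [← integral_finsetSum F (fun ρ _ => (hI ρ).norm)]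
      apply integral_mono (integrable_finsetSum F fun ρ _ => (hI ρ).norm) (kkA_integrable hX t)
      intro u
      simp only
      have e : ∀ ρ : ZS, ‖kk X (t - u) * fz ρ u‖ = |kk X (t - u)| * fz ρ u := by
        intro ρ
        rw [norm_mul, Real.norm_eq_abs, Real.norm_of_nonneg (fz_nonneg ρ u)]
      simp_rw [e]
      rw [← Finset.mul_sum]
      gcongr
      exact sum_le_hasSum F (fun i _ => fz_nonneg i u) (fz_hasSum u))
  have e : (fun u => ∑' ρ : ZS, kk X (t - u) * fz ρ u) = fun u => kk X (t - u) * Afun u := by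
    funext u
    rw [tsum_mul_left, (fz_hasSum u).tsum_eq]
  rw [e, T_Afun hX] at h
  simp_rw [T_fz hX] at h
  exact h

/-- symmetrised kernel -/
noncomputable def gs (X v w : ℝ) : ℝ := 1 / X * ((JJ X ((v : ℝ) + w * I)).re + (JJ X ((-v : ℝ) + w * I)).re)

/-- explicit formula -/
theorem explicit {X : ℝ} (hX : 0 < X) (t : ℝ) :
    HasSum (fun ρ : ZS => mx ρ * gs X ((ρ:ℂ).re - 1 / 2) (t - (ρ:ℂ).im)) (MT X t / X - PS X t) := by
  have h1 := explicit1 hX t
  have h2 := (refl.hasSum_iff).mpr h1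
  have h3 := (h1.add h2).mul_left (1/2 : ℝ)
  rw [show (1/2 : ℝ) * (MT X t / X - PS X t + (MT X t / X - PS X t)) = MT X t / X - PS X t by ring] at h3
  refine h3.congr_fun ?_
  intro ρ
  simp only [Function.comp_apply]
  rw [refl_re, refl_im, refl_mx]
  unfold gs
  rw [show (1 - (ρ:ℂ).re - 1 / 2 : ℝ) = -((ρ:ℂ).re - 1 / 2) by ring]
  ring

end Pool.Agent.Helper57.LH
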