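import Mathlib

namespace Pool.Agent.Helper57.LH

open Complex Set MeasureTheory Filter Topology

lemma integrableOn_gam {s : ℝ} (hs : -1 < s) {b : ℝ} (hb : 0 < b) :
    IntegrableOn (fun x : ℝ => x ^ s * Real.exp (-(b * x))) (Ioi 0) := by
  have := integrableOn_rpow_mul_exp_neg_mul_rpow (s := s) (p := 1) (b := b) hs one_pos hb
  refine this.congr_fun (fun x hx => ?_) measurableSet_Ioi
  simp only [Real.rpow_one, neg_mul]

lemma norm_gam (s w : ℂ) {x : ℝ} (hx : 0 < x) :
    ‖(x:ℂ) ^ s * cexp (-(w * x))‖ = x ^ s.re * Real.exp (-(w.re * x)) := by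
  rw [norm_mul, Complex.norm_cpow_eq_rpow_re_of_pos hx, Complex.norm_exp]
  simp

lemma aesm_gam (s w : ℂ) : AEStronglyMeasurable (fun x : ℝ => (x:ℂ) ^ s * cexp (-(w * x)))
    (volume.restrict (Ioi 0)) := by
  apply ContinuousOn.aestronglyMeasurable _ measurableSet_Ioi
  intro x hx
  apply ContinuousAt.continuousWithinAt
  apply ContinuousAt.mul
  · exact (Complex.continuousAt_ofReal_cpow_const _ _ (Or.inr (ne_of_gt hx)))
  · fun_prop

lemma integrableOn_gamc {s w : ℂ} (hs : -1 < s.re) (hw : 0 < w.re) :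
    IntegrableOn (fun x : ℝ => (x:ℂ) ^ s * cexp (-(w * x))) (Ioi 0) := by
  refine (integrableOn_gam hs hw).mono' (aesm_gam s w) ?_
  filter_upwards [ae_restrict_mem measurableSet_Ioi] with x hx
  rw [norm_gam s w hx]

theorem gam_int {s w : ℂ} (hs : 0 < s.re) (hw : 0 < w.re) :
    ∫ x in Ioi (0:ℝ), (x:ℂ) ^ (s - 1) * cexp (-(w * x)) = (1 / w) ^ s * Gamma s := by
  set U : Set ℂ := {w | 0 < w.re} with hU
  have hUo : IsOpen U := isOpen_lt continuous_const Complex.continuous_re
  have hUc : IsPreconnected U := (convex_halfSpace_re_gt 0).isPreconnected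
  set f : ℂ → ℂ := fun w => ∫ x in Ioi (0:ℝ), (x:ℂ) ^ (s - 1) * cexp (-(w * x)) with hf
  set g : ℂ → ℂ := fun w => (1 / w) ^ s * Gamma s with hg
  have hfd : DifferentiableOn ℂ f U := by
    intro w0 hw0
    have hw0' : 0 < w0.re := hw0
    have key := hasDerivAt_integral_of_dominated_loc_of_deriv_le (μ := volume.restrict (Ioi (0:ℝ)))
      (F := fun w (x:ℝ) => (x:ℂ) ^ (s - 1) * cexp (-(w * x)))
      (F' := fun w (x:ℝ) => (x:ℂ) ^ (s - 1) * (cexp (-(w * x)) * (-x)))
      (x₀ := w0) (s := Metric.ball w0 (w0.re / 2))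
      (bound := fun x : ℝ => x ^ (s.re) * Real.exp (-((w0.re / 2) * x)))
      (Metric.ball_mem_nhds _ (by linarith)) ?_ ?_ ?_ ?_ ?_ ?_
    · exact key.2.differentiableAt.differentiableWithinAt
    · exact Eventually.of_forall fun w => aesm_gam _ _
    · exact integrableOn_gamc (by simp; linarith) hw0'
    · have : (fun x : ℝ => (x:ℂ) ^ (s - 1) * (cexp (-(w0 * x)) * (-x))) =
        fun x : ℝ => ((x:ℂ) ^ (s - 1) * cexp (-(w0 * x))) * (-(x:ℂ)) := by
        funext x; ring
      rw [this]
      exact (aesm_gam _ _).mul (Continuous.aestronglyMeasurable (by fun_prop))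
    · filter_upwards [ae_restrict_mem measurableSet_Ioi] with x hx w hw
      have hx0 : 0 < x := hx
      rw [← mul_assoc, norm_mul, norm_gam _ _ hx0, norm_neg, Complex.norm_real, Real.norm_eq_abs,
        abs_of_pos hx0]
      have hre : w0.re / 2 ≤ w.re := by
        rw [Metric.mem_ball, dist_eq_norm] at hw
        have := (Complex.abs_re_le_norm (w - w0)).trans hw.le
        rw [Complex.sub_re, abs_le] at this
        linarith
      have e : x ^ s.re = x ^ (s - 1).re * x := by
        rw [Complex.sub_re, Complex.one_re]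
        nth_rewrite 3 [← Real.rpow_one x]
        rw [← Real.rpow_add hx0]
        ring_nf
      rw [e]
      have : Real.exp (-(w.re * x)) ≤ Real.exp (-((w0.re / 2) * x)) := by
        apply Real.exp_le_exp.mpr
        nlinarith
      have h2 : 0 ≤ x ^ (s - 1).re := Real.rpow_nonneg hx0.le _
      calc x ^ (s - 1).re * Real.exp (-(w.re * x)) * x = (x ^ (s - 1).re * x) * Real.exp (-(w.re * x)) := by ring
        _ ≤ (x ^ (s - 1).re * x) * Real.exp (-((w0.re / 2) * x)) := by gcongr
    · exact integrableOn_gam (by linarith) (by linarith)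
    · filter_upwards with x w hw
      have h1 : HasDerivAt (fun w : ℂ => -(w * x)) (-(x:ℂ)) w := by
        have h2 := ((hasDerivAt_id w).mul_const (x:ℂ)).neg
        rw [one_mul] at h2
        exact h2
      exact (h1.cexp).const_mul _
  have hgd : DifferentiableOn ℂ g U := by
    intro w hw
    have hw' : 0 < w.re := hw
    have hne : w ≠ 0 := fun h => by simp [h] at hw'
    apply DifferentiableAt.differentiableWithinAt
    apply DifferentiableAt.mul_const
    apply DifferentiableAt.cpow
    · apply DifferentiableAt.div <;> first | fun_prop | exact hne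
    · fun_prop
    · left
      rw [one_div, Complex.inv_re]
      have := Complex.normSq_pos.mpr hne
      positivity
  have hfa := hfd.analyticOnNhd hUo
  have hga := hgd.analyticOnNhd hUo
  have hfr : ∃ᶠ w in 𝓝[≠] (1:ℂ), f w = g w := by
    have ht : Tendsto (fun t : ℝ => (t:ℂ)) (𝓝[≠] 1) (𝓝[≠] 1) := by
      apply tendsto_nhdsWithin_of_tendsto_nhds_of_eventually_within
      · exact (Complex.continuous_ofReal.tendsto' 1 1 (by simp)).mono_left nhdsWithin_le_nhds
      · filter_upwards [self_mem_nhdsWithin] with t ht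
        simp only [mem_compl_iff, mem_singleton_iff] at ht ⊢
        exact_mod_cast ht
    refine ht.frequently (Eventually.frequently ?_)
    have : ∀ᶠ t : ℝ in 𝓝[≠] 1, 0 < t := (eventually_gt_nhds one_pos).filter_mono nhdsWithin_le_nhds
    filter_upwards [this] with t ht
    exact Complex.integral_cpow_mul_exp_neg_mul_Ioi hs ht
  exact hfa.eqOn_of_preconnected_of_frequently_eq hga hUc (by simp [hU]) hfr hw

end Pool.Agent.Helper57.LH
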