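import Mathlib

open ArithmeticFunction Finset

namespace Pool.Agent.Helper57.LH

/-- `Gf d y = ∑_{m ≤ y, (m,d)=1} μ(m)/m · log(y/m)`. -/
noncomputable def Gf (d : ℕ) (y : ℝ) : ℝ :=
  ∑ m ∈ (Ioc 0 ⌊y⌋₊).filter (fun m => m.Coprime d), (moebius m : ℝ) / m * Real.log (y / m)

lemma Gf_of_lt_one (d : ℕ) {y : ℝ} (hy : y < 1) : Gf d y = 0 := by
  unfold Gf
  have : ⌊y⌋₊ = 0 := Nat.floor_eq_zero.mpr hy
  simp [this]

lemma sum_moebius_floor {N : ℕ} (hN : 1 ≤ N) :
    ∑ m ∈ Ioc 0 N, (moebius m : ℝ) * ((N / m : ℕ) : ℝ) = 1 := by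
  have h := sum_Ioc_mul_zeta_eq_sum (moebius : ArithmeticFunction ℤ) N
  rw [moebius_mul_coe_zeta] at h
  have h1 : ∑ n ∈ Ioc 0 N, (1 : ArithmeticFunction ℤ) n = 1 := by
    rw [Finset.sum_eq_single 1]
    · simp
    · intro b _ hb
      simp [one_apply, hb]
    · intro h
      exact absurd (Finset.mem_Ioc.mpr ⟨by norm_num, hN⟩) h
  rw [h1] at h
  have h2 : ((∑ n ∈ Ioc 0 N, moebius n * ((N / n : ℕ) : ℤ) : ℤ) : ℝ) = 1 := by
    rw [← h]; simp
  rw [Int.cast_sum] at h2
  rw [← h2]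
  refine sum_congr rfl fun m _ => ?_
  rw [Int.cast_mul, Int.cast_natCast]

lemma abs_sum_moebius_div {N : ℕ} (hN : 1 ≤ N) :
    |∑ m ∈ Ioc 0 N, (moebius m : ℝ) / m| ≤ 2 := by
  have hN0 : (0:ℝ) < N := by exact_mod_cast hN
  have h := sum_moebius_floor hN
  have key : |(N:ℝ) * ∑ m ∈ Ioc 0 N, (moebius m : ℝ) / m - 1| ≤ N := by
    have : (N:ℝ) * ∑ m ∈ Ioc 0 N, (moebius m : ℝ) / m - 1
        = ∑ m ∈ Ioc 0 N, (moebius m : ℝ) * ((N:ℝ) / m - ((N / m : ℕ) : ℝ)) := by
      rw [← h, mul_sum, ← sum_sub_distrib]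
      refine sum_congr rfl fun m _ => ?_
      ring
    rw [this]
    calc |∑ m ∈ Ioc 0 N, (moebius m : ℝ) * ((N:ℝ) / m - ((N / m : ℕ) : ℝ))|
        ≤ ∑ m ∈ Ioc 0 N, |(moebius m : ℝ) * ((N:ℝ) / m - ((N / m : ℕ) : ℝ))| := abs_sum_le_sum_abs _ _
      _ ≤ ∑ m ∈ Ioc 0 N, (1:ℝ) := by
          refine sum_le_sum fun m hm => ?_
          rw [abs_mul]
          have h1 : |(moebius m : ℝ)| ≤ 1 := by
            have := abs_moebius_le_one (n := m)
            exact_mod_cast this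
          have hm0 : 0 < m := (mem_Ioc.mp hm).1
          have hm0' : (0:ℝ) < m := by exact_mod_cast hm0
          have h2 : ((N / m : ℕ) : ℝ) ≤ (N:ℝ) / m := Nat.cast_div_le
          have h3 : (N:ℝ) / m < ((N / m : ℕ) : ℝ) + 1 := by
            rw [div_lt_iff₀ hm0']
            have h4 : N < (N / m + 1) * m := by
              nlinarith [Nat.div_add_mod N m, Nat.mod_lt N hm0]
            exact_mod_cast h4
          have h5 : |(N:ℝ) / m - ((N / m : ℕ) : ℝ)| ≤ 1 := by
            rw [abs_le]; constructor <;> linarith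
          calc |(moebius m : ℝ)| * |(N:ℝ) / m - ((N / m : ℕ) : ℝ)| ≤ 1 * 1 :=
                mul_le_mul h1 h5 (abs_nonneg _) (by norm_num)
            _ = 1 := by norm_num
      _ = N := by simp
  have h6 : |(N:ℝ) * ∑ m ∈ Ioc 0 N, (moebius m : ℝ) / m| ≤ N + 1 := by
    have := abs_add_le ((N:ℝ) * ∑ m ∈ Ioc 0 N, (moebius m : ℝ) / m - 1) 1
    simp only [sub_add_cancel, abs_one] at this
    linarith
  rw [abs_mul, abs_of_pos hN0] at h6
  have h7 : (1:ℝ) ≤ N := by exact_mod_cast hN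
  by_contra hcon
  push Not at hcon
  nlinarith

/-- harmonic number estimate -/
lemma log_sub_harmonic {u : ℝ} (hu : 1 ≤ u) :
    |Real.log u - (harmonic ⌊u⌋₊ : ℝ) + Real.eulerMascheroniConstant| ≤ 2 / u := by
  set n := ⌊u⌋₊ with hn
  have hn1 : 1 ≤ n := (Nat.one_le_floor_iff u).mpr hu
  have hn0 : (0:ℝ) < n := by exact_mod_cast hn1
  have hu0 : 0 < u := by linarith
  have h1 := Real.eulerMascheroniSeq_lt_eulerMascheroniConstant n
  have h2 := Real.eulerMascheroniConstant_lt_eulerMascheroniSeq' n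
  have hne : n ≠ 0 := by omega
  unfold Real.eulerMascheroniSeq at h1
  unfold Real.eulerMascheroniSeq' at h2
  rw [if_neg hne] at h2
  have hnu : (n:ℝ) ≤ u := Nat.floor_le hu0.le
  have hun : u < n + 1 := Nat.lt_floor_add_one u
  have hl1 : Real.log n ≤ Real.log u := Real.log_le_log hn0 hnu
  have hl2 : Real.log u ≤ Real.log (n + 1) := Real.log_le_log hu0 hun.le
  have hl3 : Real.log (n + 1) - Real.log n ≤ 1 / n := by
    rw [← Real.log_div (by positivity) (by positivity)]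
    have := Real.log_le_sub_one_of_pos (x := ((n:ℝ) + 1) / n) (by positivity)
    have h3 : ((n:ℝ) + 1) / n - 1 = 1 / n := by field_simp; ring
    linarith
  have h4 : (1:ℝ) / n ≤ 2 / u := by
    rw [div_le_div_iff₀ hn0 hu0]
    have : (1:ℝ) ≤ n := by exact_mod_cast hn1
    nlinarith
  rw [abs_le]
  constructor <;> linarith

lemma sum_moebius_harmonic {N : ℕ} (hN : 1 ≤ N) :
    ∑ m ∈ Ioc 0 N, (moebius m : ℝ) / m * (harmonic (N / m) : ℝ) = 1 := by
  -- use sum_Ioc_mul_eq_sum_sum with f = μ/id and g = 1/id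
  let f : ArithmeticFunction ℝ := ⟨fun n => (moebius n : ℝ) / n, by simp⟩
  let g : ArithmeticFunction ℝ := ⟨fun n => (n : ℝ)⁻¹, by simp⟩
  have h := sum_Ioc_mul_eq_sum_sum f g N
  have hfg : ∀ n ∈ Ioc 0 N, (f * g) n = if n = 1 then 1 else 0 := by
    intro n hn
    have hn0 : n ≠ 0 := (mem_Ioc.mp hn).1.ne'
    rw [mul_apply]
    have : ∑ x ∈ n.divisorsAntidiagonal, f x.1 * g x.2
        = ∑ x ∈ n.divisorsAntidiagonal, (moebius x.1 : ℝ) / n := by
      refine sum_congr rfl fun x hx => ?_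
      obtain ⟨hx1, hx2⟩ := Nat.mem_divisorsAntidiagonal.mp hx
      show (moebius x.1 : ℝ) / x.1 * (x.2 : ℝ)⁻¹ = _
      rw [← hx1]
      push_cast
      rw [div_mul_eq_div_div, div_eq_mul_inv (_ / _)]
    rw [this, ← sum_div]
    have h2 : ∑ x ∈ n.divisorsAntidiagonal, (moebius x.1 : ℝ) = if n = 1 then 1 else 0 := by
      have h3 : ((moebius * (zeta : ArithmeticFunction ℤ)) n : ℤ) = (1 : ArithmeticFunction ℤ) n := by
        rw [moebius_mul_coe_zeta]
      rw [mul_apply] at h3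
      have h4 := congrArg (fun z : ℤ => (z : ℝ)) h3
      simp only [one_apply] at h4
      push_cast at h4
      rw [← h4]
      refine sum_congr rfl fun x hx => ?_
      obtain ⟨hx1, hx2⟩ := Nat.mem_divisorsAntidiagonal.mp hx
      have : x.2 ≠ 0 := by rintro h0; rw [h0] at hx1; simp at hx1; omega
      simp [natCoe_apply, zeta_apply, this]
    rw [h2]
    split_ifs with h1
    · simp [h1]
    · simp
  rw [sum_congr rfl hfg] at h
  rw [Finset.sum_ite_eq' , if_pos (Finset.mem_Ioc.mpr ⟨by norm_num, hN⟩)] at h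
  rw [h]
  refine sum_congr rfl fun m hm => ?_
  congr 1
  rw [harmonic_eq_sum_Icc]
  push_cast
  rfl

lemma abs_Gf_one (y : ℝ) : |Gf 1 y| ≤ 8 := by
  rcases lt_or_ge y 1 with hy | hy
  · rw [Gf_of_lt_one 1 hy]; norm_num
  set N := ⌊y⌋₊ with hN
  have hN1 : 1 ≤ N := (Nat.one_le_floor_iff y).mpr hy
  have hy0 : 0 < y := by linarith
  have hfl : ∀ m : ℕ, ⌊y / m⌋₊ = N / m := fun m => Nat.floor_div_natCast y m
  have e1 : Gf 1 y = ∑ m ∈ Ioc 0 N, (moebius m : ℝ) / m *
      (Real.log (y / m) - (harmonic (N / m) : ℝ) + Real.eulerMascheroniConstant) + 1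
      - Real.eulerMascheroniConstant * ∑ m ∈ Ioc 0 N, (moebius m : ℝ) / m := by
    rw [← sum_moebius_harmonic hN1, mul_sum, ← sum_add_distrib, ← sum_sub_distrib]
    unfold Gf
    rw [← hN]
    rw [Finset.filter_true_of_mem (fun m _ => Nat.coprime_one_right m)]
    refine sum_congr rfl fun m _ => ?_
    ring
  have b1 : |∑ m ∈ Ioc 0 N, (moebius m : ℝ) / m *
      (Real.log (y / m) - (harmonic (N / m) : ℝ) + Real.eulerMascheroniConstant)| ≤ 4 := by
    calc _ ≤ ∑ m ∈ Ioc 0 N, |(moebius m : ℝ) / m *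
      (Real.log (y / m) - (harmonic (N / m) : ℝ) + Real.eulerMascheroniConstant)| := abs_sum_le_sum_abs _ _
      _ ≤ ∑ m ∈ Ioc 0 N, 2 / y := by
          refine sum_le_sum fun m hm => ?_
          obtain ⟨hm0, hmN⟩ := mem_Ioc.mp hm
          have hm0' : (0:ℝ) < m := by exact_mod_cast hm0
          have hmy : (m:ℝ) ≤ y := le_trans (by exact_mod_cast hmN) (Nat.floor_le hy0.le)
          have h1 : |(moebius m : ℝ)| ≤ 1 := by
            have := abs_moebius_le_one (n := m)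
            exact_mod_cast this
          have h2 := log_sub_harmonic (u := y / m) (by rw [le_div_iff₀ hm0']; linarith)
          rw [hfl] at h2
          rw [abs_mul, abs_div, abs_of_pos hm0']
          calc |(moebius m : ℝ)| / m * |Real.log (y / m) - (harmonic (N / m) : ℝ) + Real.eulerMascheroniConstant|
              ≤ 1 / m * (2 / (y / m)) := by gcongr
            _ = 2 / y := by field_simp
      _ = N * (2 / y) := by simp
      _ ≤ 4 := by
          have : (N:ℝ) ≤ y := Nat.floor_le hy0.le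
          rw [mul_div_assoc', div_le_iff₀ hy0]
          linarith
  have b2 := abs_sum_moebius_div hN1
  have g1 := Real.one_half_lt_eulerMascheroniConstant
  have g2 := Real.eulerMascheroniConstant_lt_two_thirds
  rw [e1]
  rw [abs_le] at b1 b2 ⊢
  constructor <;> nlinarith

lemma Gf_rec {d p : ℕ} (hp : p.Prime) (hpd : ¬ p ∣ d) (y : ℝ) :
    Gf (d * p) y = Gf d y + (1 / p) * Gf (d * p) (y / p) := by
  have hp0 : (0:ℝ) < p := by exact_mod_cast hp.pos
  unfold Gf
  -- split coprime to d into coprime to dp and multiples of p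
  have hsplit : (Ioc 0 ⌊y⌋₊).filter (fun m => m.Coprime d)
      = (Ioc 0 ⌊y⌋₊).filter (fun m => m.Coprime (d * p)) ∪
        ((Ioc 0 ⌊y⌋₊).filter (fun m => m.Coprime d ∧ p ∣ m)) := by
    ext m
    simp only [mem_filter, mem_union, mem_Ioc, Nat.coprime_mul_iff_right]
    constructor
    · rintro ⟨h1, h2⟩
      by_cases h : p ∣ m
      · exact Or.inr ⟨h1, h2, h⟩
      · exact Or.inl ⟨h1, h2, ((Nat.Prime.coprime_iff_not_dvd hp).mpr h).symm⟩
    · rintro (⟨h1, h2, _⟩ | ⟨h1, h2, _⟩) <;> exact ⟨h1, h2⟩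
  have hdisj : Disjoint ((Ioc 0 ⌊y⌋₊).filter (fun m => m.Coprime (d * p)))
      ((Ioc 0 ⌊y⌋₊).filter (fun m => m.Coprime d ∧ p ∣ m)) := by
    rw [Finset.disjoint_left]
    intro m hm hm'
    simp only [mem_filter, Nat.coprime_mul_iff_right] at hm hm'
    exact ((Nat.Prime.coprime_iff_not_dvd hp).mp hm.2.2.symm) hm'.2.2
  rw [hsplit, sum_union hdisj, add_assoc]
  symm
  rw [add_eq_left]
  -- image of the second sum
  have himg : ∑ m ∈ (Ioc 0 ⌊y⌋₊).filter (fun m => m.Coprime d ∧ p ∣ m),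
        (moebius m : ℝ) / m * Real.log (y / m)
      = ∑ k ∈ (Ioc 0 ⌊y / p⌋₊).filter (fun k => k.Coprime d),
        (moebius (p * k) : ℝ) / ((p * k : ℕ) : ℝ) * Real.log (y / ((p * k : ℕ) : ℝ)) := by
    symm
    apply Finset.sum_bij (fun k _ => p * k)
    · intro k hk
      simp only [mem_filter, mem_Ioc] at hk ⊢
      obtain ⟨⟨h1, h2⟩, h3⟩ := hk
      refine ⟨⟨Nat.mul_pos hp.pos h1, ?_⟩, Nat.Coprime.mul_left ((Nat.Prime.coprime_iff_not_dvd hp).mpr hpd) h3, dvd_mul_right _ _⟩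
      rw [Nat.floor_div_natCast] at h2
      calc p * k ≤ p * (⌊y⌋₊ / p) := by gcongr
        _ ≤ ⌊y⌋₊ := Nat.mul_div_le _ _
    · intro k1 _ k2 _ h
      exact Nat.eq_of_mul_eq_mul_left hp.pos h
    · intro m hm
      simp only [mem_filter, mem_Ioc] at hm
      obtain ⟨⟨h1, h2⟩, h3, k, hk⟩ := hm
      refine ⟨k, ?_, hk.symm⟩
      simp only [mem_filter, mem_Ioc]
      subst hk
      refine ⟨⟨Nat.pos_of_ne_zero (by rintro rfl; simp at h1), ?_⟩, Nat.Coprime.coprime_mul_left h3⟩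
      rw [Nat.floor_div_natCast]
      rw [Nat.le_div_iff_mul_le hp.pos]
      linarith
    · intro k hk
      rfl
  rw [himg]
  have hsplit2 : (Ioc 0 ⌊y / p⌋₊).filter (fun k => k.Coprime (d * p))
      = ((Ioc 0 ⌊y / p⌋₊).filter (fun k => k.Coprime d)).filter (fun k => k.Coprime p) := by
    rw [Finset.filter_filter]
    ext k
    simp [Nat.coprime_mul_iff_right]
  rw [hsplit2]
  have hin : ∀ k ∈ (Ioc 0 ⌊y / p⌋₊).filter (fun k => k.Coprime d),
      0 < k ∧ k ≤ ⌊y / p⌋₊ ∧ k.Coprime d := by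
    intro k hk
    simp only [mem_filter, mem_Ioc] at hk
    exact ⟨hk.1.1, hk.1.2, hk.2⟩
  generalize (Ioc 0 ⌊y / p⌋₊).filter (fun k => k.Coprime d) = S at hin ⊢
  rw [Finset.sum_filter, mul_sum, ← sum_add_distrib]
  apply sum_eq_zero
  intro k hk
  replace hk := hin k hk
  obtain ⟨h1, h2, h3⟩ := hk
  have hk0 : (0:ℝ) < k := by exact_mod_cast h1
  split_ifs with hc
  · have hm : moebius (p * k) = - moebius k := by
      rw [isMultiplicative_moebius.map_mul_of_coprime hc.symm, moebius_apply_prime hp]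
      ring
    rw [hm]
    push_cast
    have : y / (p * k) = y / p / k := by rw [div_div]
    rw [this]
    field_simp
    ring
  · have hpk : p ∣ k := by
      by_contra h
      exact hc ((Nat.Prime.coprime_iff_not_dvd hp).mpr h).symm
    have : ¬ Squarefree (p * k) := by
      intro hsq
      obtain ⟨j, rfl⟩ := hpk
      have := hsq p (by use j; ring)
      exact hp.one_lt.ne' (Nat.isUnit_iff.mp this)
    rw [moebius_eq_zero_of_not_squarefree this]
    simp

end Pool.Agent.Helper57.LH
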