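import Pool.Agent.Helper57.LH.Gf

open ArithmeticFunction Finset

namespace Pool.Agent.Helper57.LH

/-- `kap d = ∏_{p | d} (1-1/p)⁻¹`. -/
noncomputable def kap (d : ℕ) : ℝ := ∏ p ∈ d.primeFactors, (1 - 1 / (p : ℝ))⁻¹

lemma kap_factor_pos {p : ℕ} (hp : p.Prime) : (0:ℝ) < 1 - 1 / (p : ℝ) := by
  have : (2:ℝ) ≤ p := by exact_mod_cast hp.two_le
  have : 1 / (p:ℝ) ≤ 1 / 2 := one_div_le_one_div_of_le (by norm_num) this
  linarith

lemma kap_pos (d : ℕ) : 0 < kap d :=
  prod_pos fun p hp => inv_pos.mpr (kap_factor_pos (Nat.prime_of_mem_primeFactors hp))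

lemma Gf_step {d p : ℕ} (hp : p.Prime) (hpd : ¬ p ∣ d) {C : ℝ} (hC : ∀ y, |Gf d y| ≤ C) (y : ℝ) :
    |Gf (d * p) y| ≤ C * (1 - 1 / (p : ℝ))⁻¹ := by
  have hpos := kap_factor_pos hp
  have hC0 : 0 ≤ C := (abs_nonneg _).trans (hC 0)
  have hp2 : (2:ℝ) ≤ p := by exact_mod_cast hp.two_le
  have key : ∀ n : ℕ, ∀ y : ℝ, y < 2 ^ n → |Gf (d * p) y| ≤ C * (1 - 1 / (p : ℝ))⁻¹ := by
    intro n
    induction n with
    | zero =>
      intro y hy
      rw [Gf_of_lt_one _ (by simpa using hy)]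
      simp only [abs_zero]
      positivity
    | succ n ih =>
      intro y hy
      rcases lt_or_ge y 1 with h1 | h1
      · rw [Gf_of_lt_one _ h1]
        simp only [abs_zero]
        positivity
      · rw [Gf_rec hp hpd y]
        have h2 : y / p < 2 ^ n := by
          rw [div_lt_iff₀ (by linarith)]
          calc y < 2 ^ (n + 1) := hy
            _ = 2 ^ n * 2 := by ring
            _ ≤ 2 ^ n * p := by gcongr
        have h3 := ih (y / p) h2
        have h4 := hC y
        calc |Gf d y + 1 / (p:ℝ) * Gf (d * p) (y / p)|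
            ≤ |Gf d y| + |1 / (p:ℝ) * Gf (d * p) (y / p)| := abs_add_le _ _
          _ = |Gf d y| + 1 / (p:ℝ) * |Gf (d * p) (y / p)| := by
              rw [abs_mul, abs_of_pos (a := 1 / (p:ℝ)) (by positivity)]
          _ ≤ C + 1 / (p:ℝ) * (C * (1 - 1 / (p : ℝ))⁻¹) := by gcongr
          _ = C * (1 - 1 / (p : ℝ))⁻¹ := by
              have hq : (1 - 1 / (p:ℝ)) * (1 - 1 / (p:ℝ))⁻¹ = 1 := mul_inv_cancel₀ hpos.ne'
              linear_combination (-C) * hq
  obtain ⟨n, hn⟩ := pow_unbounded_of_one_lt y (one_lt_two)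
  exact key n y hn

lemma abs_Gf_prod (S : Finset ℕ) (hS : ∀ p ∈ S, p.Prime) (y : ℝ) :
    |Gf (∏ p ∈ S, p) y| ≤ 8 * ∏ p ∈ S, (1 - 1 / (p : ℝ))⁻¹ := by
  induction S using Finset.induction generalizing y with
  | empty => simpa using abs_Gf_one y
  | insert p S hp ih =>
    rw [prod_insert hp, prod_insert hp, mul_comm p]
    have hpp := hS p (mem_insert_self _ _)
    have hS' : ∀ q ∈ S, q.Prime := fun q hq => hS q (mem_insert_of_mem hq)
    have hnd : ¬ p ∣ ∏ q ∈ S, q := by
      intro h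
      obtain ⟨q, hq, hpq⟩ := (Prime.dvd_finsetProd_iff (Nat.prime_iff.mp hpp) _).mp h
      have := (Nat.prime_dvd_prime_iff_eq hpp (hS' q hq)).mp hpq
      exact hp (this ▸ hq)
    have := Gf_step hpp hnd (fun y => ih hS' y) y
    calc _ ≤ _ := this
      _ = _ := by ring

lemma abs_Gf_le {d : ℕ} (hd : Squarefree d) (y : ℝ) : |Gf d y| ≤ 8 * kap d := by
  have := abs_Gf_prod d.primeFactors (fun p hp => Nat.prime_of_mem_primeFactors hp) y
  rwa [Nat.prod_primeFactors_of_squarefree hd] at this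

/-- weight identity -/
lemma W_identity (ε L t : ℝ) :
    Real.exp (-ε * t) * (L - t) = Real.exp (-ε * L) * (L - t) +
      ∫ u in t..L, Real.exp (-ε * u) * (2 * ε + ε ^ 2 * (L - u)) * (u - t) := by
  have h : ∫ u in t..L, Real.exp (-ε * u) * (2 * ε + ε ^ 2 * (L - u)) * (u - t)
      = (-Real.exp (-ε * L) * (1 + ε * (L - L)) * (L - t) - Real.exp (-ε * L) * (L - L))
        - (-Real.exp (-ε * t) * (1 + ε * (L - t)) * (t - t) - Real.exp (-ε * t) * (L - t)) := by
    refine intervalIntegral.integral_eq_sub_of_hasDerivAt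
      (f := fun u => -Real.exp (-ε * u) * (1 + ε * (L - u)) * (u - t) - Real.exp (-ε * u) * (L - u)) ?_ ?_
    · intro u _
      have h1 : HasDerivAt (fun u : ℝ => Real.exp (-ε * u)) (Real.exp (-ε * u) * (-ε)) u := by
        have : HasDerivAt (fun u : ℝ => -ε * u) (-ε) u := by
          simpa using (hasDerivAt_id u).const_mul (-ε)
        exact this.exp
      have h2 : HasDerivAt (fun u : ℝ => L - u) (-1) u := by
        simpa using (hasDerivAt_id u).const_sub L
      have h3 : HasDerivAt (fun u : ℝ => 1 + ε * (L - u)) (ε * (-1)) u := (h2.const_mul ε).const_add 1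
      have h4 : HasDerivAt (fun u : ℝ => u - t) 1 u := (hasDerivAt_id u).sub_const t
      have h5 := ((h1.neg.mul h3).mul h4).sub (h1.mul h2)
      refine h5.congr_deriv ?_
      simp only [Pi.mul_apply, Pi.neg_apply]
      ring
    · apply Continuous.intervalIntegrable
      fun_prop
  rw [h]
  simp only [sub_self, mul_zero, add_zero, mul_one, zero_sub]
  ring

lemma twisted_bound {d : ℕ} (hd : Squarefree d) {ε Y : ℝ} (hε : 0 ≤ ε) (hY : 1 ≤ Y)
    (hεY : ε * Real.log Y ≤ 1) :
    |∑ m ∈ (Ioc 0 ⌊Y⌋₊).filter (fun m => m.Coprime d),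
      (moebius m : ℝ) / m * (Real.exp (-ε * Real.log m) * Real.log (Y / m))| ≤ 32 * kap d := by
  set L := Real.log Y with hL
  have hY0 : 0 < Y := by linarith
  have hL0 : 0 ≤ L := Real.log_nonneg hY
  set S := (Ioc 0 ⌊Y⌋₊).filter (fun m => m.Coprime d) with hS
  have hmem : ∀ m ∈ S, (0:ℝ) < m ∧ 0 ≤ Real.log m ∧ Real.log m ≤ L := by
    intro m hm
    simp only [hS, mem_filter, mem_Ioc] at hm
    have h1 : (0:ℝ) < m := by exact_mod_cast hm.1.1
    have h2 : (1:ℝ) ≤ m := by exact_mod_cast hm.1.1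
    have h3 : (m:ℝ) ≤ Y := (Nat.le_floor_iff hY0.le).mp hm.1.2
    exact ⟨h1, Real.log_nonneg h2, Real.log_le_log h1 h3⟩
  -- rewrite each term
  have hterm : ∀ m ∈ S, (moebius m : ℝ) / m * (Real.exp (-ε * Real.log m) * Real.log (Y / m))
      = Real.exp (-ε * L) * ((moebius m : ℝ) / m * Real.log (Y / m)) +
        ∫ u in (0:ℝ)..L, Real.exp (-ε * u) * (2 * ε + ε ^ 2 * (L - u)) *
          ((moebius m : ℝ) / m * max (u - Real.log m) 0) := by
    intro m hm
    obtain ⟨h1, h2, h3⟩ := hmem m hm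
    have e1 : Real.log (Y / m) = L - Real.log m := by rw [Real.log_div hY0.ne' h1.ne']
    have e2 := W_identity ε L (Real.log m)
    have e3 : ∫ u in (0:ℝ)..L, Real.exp (-ε * u) * (2 * ε + ε ^ 2 * (L - u)) *
          ((moebius m : ℝ) / m * max (u - Real.log m) 0)
        = (moebius m : ℝ) / m * ∫ u in (Real.log m)..L,
          Real.exp (-ε * u) * (2 * ε + ε ^ 2 * (L - u)) * (u - Real.log m) := by
      rw [← intervalIntegral.integral_add_adjacent_intervals (b := Real.log m)]
      · have z : ∫ u in (0:ℝ)..(Real.log m), Real.exp (-ε * u) * (2 * ε + ε ^ 2 * (L - u)) *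
          ((moebius m : ℝ) / m * max (u - Real.log m) 0) = 0 := by
          rw [intervalIntegral.integral_zero_ae]
          refine Filter.Eventually.of_forall fun u hu => ?_
          rw [Set.uIoc_of_le h2] at hu
          rw [max_eq_right (by linarith [hu.2])]
          ring
        rw [z, zero_add, ← intervalIntegral.integral_const_mul]
        apply intervalIntegral.integral_congr
        intro u hu
        rw [Set.uIcc_of_le h3] at hu
        simp only
        rw [max_eq_left (by linarith [hu.1])]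
        ring
      · apply Continuous.intervalIntegrable; fun_prop
      · apply Continuous.intervalIntegrable; fun_prop
    rw [e3, e1, e2]
    ring
  rw [sum_congr rfl hterm, sum_add_distrib, ← mul_sum]
  rw [← intervalIntegral.integral_finsetSum (fun m _ => by apply Continuous.intervalIntegrable; fun_prop)]
  have hG1 : ∑ m ∈ S, (moebius m : ℝ) / m * Real.log (Y / m) = Gf d Y := rfl
  have hG2 : ∀ u ∈ Set.uIcc 0 L, ∑ m ∈ S, Real.exp (-ε * u) * (2 * ε + ε ^ 2 * (L - u)) *
          ((moebius m : ℝ) / m * max (u - Real.log m) 0)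
      = Real.exp (-ε * u) * (2 * ε + ε ^ 2 * (L - u)) * Gf d (Real.exp u) := by
    intro u hu
    rw [Set.uIcc_of_le hL0] at hu
    rw [← mul_sum]
    congr 1
    unfold Gf
    have hsub : (Ioc 0 ⌊Real.exp u⌋₊).filter (fun m => m.Coprime d) ⊆ S := by
      intro m hm
      simp only [hS, mem_filter, mem_Ioc] at hm ⊢
      refine ⟨⟨hm.1.1, hm.1.2.trans (Nat.floor_le_floor ?_)⟩, hm.2⟩
      calc Real.exp u ≤ Real.exp L := Real.exp_le_exp.mpr hu.2
        _ = Y := Real.exp_log hY0
    rw [← Finset.sum_subset hsub]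
    · refine sum_congr rfl fun m hm => ?_
      simp only [mem_filter, mem_Ioc] at hm
      have h1 : (0:ℝ) < m := by exact_mod_cast hm.1.1
      have h2 : (m:ℝ) ≤ Real.exp u := (Nat.le_floor_iff (Real.exp_pos u).le).mp hm.1.2
      have h3 : Real.log m ≤ u := by
        rw [← Real.log_exp u]; exact Real.log_le_log h1 h2
      rw [Real.log_div (Real.exp_pos u).ne' h1.ne', Real.log_exp, max_eq_left (by linarith)]
    · intro m hm hm'
      have h0 := hmem m hm
      simp only [hS, mem_filter, mem_Ioc] at hm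
      simp only [mem_filter, mem_Ioc, not_and] at hm'
      have h4 : ¬ (m ≤ ⌊Real.exp u⌋₊) := fun h => (hm' ⟨hm.1.1, h⟩) hm.2
      rw [Nat.le_floor_iff (Real.exp_pos u).le] at h4
      have h5 : u < Real.log m := by
        rw [Real.lt_log_iff_exp_lt h0.1]; exact lt_of_not_ge h4
      rw [max_eq_right (by linarith)]
      ring
  rw [intervalIntegral.integral_congr hG2, hG1]
  have hb1 : |Real.exp (-ε * L) * Gf d Y| ≤ 8 * kap d := by
    rw [abs_mul, abs_of_pos (Real.exp_pos _)]
    have : Real.exp (-ε * L) ≤ 1 := by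
      rw [Real.exp_le_one_iff]; nlinarith
    calc Real.exp (-ε * L) * |Gf d Y| ≤ 1 * (8 * kap d) := by
          gcongr
          exact abs_Gf_le hd Y
      _ = _ := one_mul _
  have hb2 : |∫ u in (0:ℝ)..L, Real.exp (-ε * u) * (2 * ε + ε ^ 2 * (L - u)) * Gf d (Real.exp u)|
      ≤ 24 * kap d := by
    have h1 : ∀ u ∈ Set.uIoc 0 L, ‖Real.exp (-ε * u) * (2 * ε + ε ^ 2 * (L - u)) * Gf d (Real.exp u)‖
        ≤ (2 * ε + ε ^ 2 * L) * (8 * kap d) := by
      intro u hu
      rw [Set.uIoc_of_le hL0] at hu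
      rw [Real.norm_eq_abs, abs_mul, abs_mul, abs_of_pos (Real.exp_pos _)]
      have hh : 0 ≤ 2 * ε + ε ^ 2 * (L - u) := by nlinarith [hu.2, sq_nonneg ε]
      rw [abs_of_nonneg hh]
      have h2 : Real.exp (-ε * u) ≤ 1 := by
        rw [Real.exp_le_one_iff]; nlinarith [hu.1]
      have h3 : 2 * ε + ε ^ 2 * (L - u) ≤ 2 * ε + ε ^ 2 * L := by nlinarith [hu.1, sq_nonneg ε]
      calc Real.exp (-ε * u) * (2 * ε + ε ^ 2 * (L - u)) * |Gf d (Real.exp u)|
          ≤ 1 * (2 * ε + ε ^ 2 * L) * (8 * kap d) := by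
            gcongr
            exact abs_Gf_le hd _
        _ = _ := by ring
    have h2 := intervalIntegral.norm_integral_le_of_norm_le_const h1
    rw [Real.norm_eq_abs, sub_zero, abs_of_nonneg hL0] at h2
    have h3 : (2 * ε + ε ^ 2 * L) * L ≤ 3 := by
      have : 0 ≤ ε * L := by positivity
      nlinarith
    have hk := kap_pos d
    calc _ ≤ _ := h2
      _ = (2 * ε + ε ^ 2 * L) * L * (8 * kap d) := by ring
      _ ≤ 3 * (8 * kap d) := by gcongr
      _ = _ := by ring
  calc _ ≤ |Real.exp (-ε * L) * Gf d Y| + _ := abs_add_le _ _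
    _ ≤ 8 * kap d + 24 * kap d := add_le_add hb1 hb2
    _ = _ := by ring

end Pool.Agent.Helper57.LH
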