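import Pool.Agent.Helper57.LH.VOne

namespace Pool.Agent.Helper57.LH

open Set MeasureTheory Filter Topology
open Pool.Agent.Helper57.Zeta
open Pool.Agent.Helper57.PC (fejer_integral fejer_pointwise norm_sq_le_one measurable_sq ii_of_bdd intervalIntegrable_sq integral_sq_ge sq_nonneg')

/-- ∫_{-N/2}^{N/2} sinc² ≤ 1. -/
lemma integral_sq_le (N : ℕ) (hN : 0 < N) :
    ∫ u in (-((N:ℝ)/2))..((N:ℝ)/2), PC.sq u ≤ 1 := by
  have hN0 : (0:ℝ) < N := by exact_mod_cast hN
  have hsub : ∫ u in (-((N:ℝ)/2))..((N:ℝ)/2), PC.sq u =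
      N * ∫ x in (-(1/2):ℝ)..(1/2), PC.sq (N * x) := by
    have := intervalIntegral.integral_comp_mul_left (a := (-(1/2):ℝ)) (b := 1/2) (fun u => PC.sq u) hN0.ne'
    rw [this, smul_eq_mul, ← mul_assoc, mul_inv_cancel₀ hN0.ne', one_mul]
    congr 1 <;> ring
  have hpt : ∀ x ∈ Icc (-(1/2):ℝ) (1/2), x ≠ 0 →
      (N:ℝ) ^ 2 * PC.sq (N * x) ≤ ‖∑ k ∈ Finset.range N, Complex.exp (2 * Real.pi * Complex.I * k * x)‖ ^ 2 := by
    intro x hx hx0
    have hpx : |Real.pi * x| ≤ Real.pi / 2 := by
      rw [abs_mul, abs_of_pos Real.pi_pos]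
      have : |x| ≤ 1 / 2 := abs_le.mpr hx
      nlinarith [Real.pi_pos]
    have hpx0 : Real.pi * x ≠ 0 := mul_ne_zero Real.pi_ne_zero hx0
    have hsin : Real.sin (Real.pi * x) ≠ 0 := by
      intro h
      have := Real.sin_eq_zero_iff_of_lt_of_lt (x := Real.pi * x)
        (by rw [abs_le] at hpx; linarith [Real.pi_pos, hpx.1])
        (by rw [abs_le] at hpx; linarith [Real.pi_pos, hpx.2])
      exact hpx0 (this.mp h)
    rw [fejer_pointwise N x hsin]
    have h2 : (N:ℝ) ^ 2 * PC.sq (N * x) = Real.sin (Real.pi * N * x) ^ 2 / (Real.pi * x) ^ 2 := by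
      unfold PC.sq
      rw [show Real.pi * (N * x) = Real.pi * N * x by ring]
      field_simp
    rw [h2]
    have h3 : Real.sin (Real.pi * x) ^ 2 ≤ (Real.pi * x) ^ 2 := sq_le_sq.mpr Real.abs_sin_le_abs
    have h4 : 0 < Real.sin (Real.pi * x) ^ 2 := by positivity
    gcongr
  have hint : IntervalIntegrable (fun x => (N:ℝ) ^ 2 * PC.sq (N * x)) volume (-(1/2)) (1/2) := by
    apply IntervalIntegrable.const_mul
    exact ii_of_bdd (measurable_sq.comp (measurable_const_mul _)) (fun x => norm_sq_le_one _) _ _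
  have hmono : ∫ x in (-(1/2):ℝ)..(1/2), ((N:ℝ) ^ 2 * PC.sq (N * x)) ≤
      ∫ x in (-(1/2):ℝ)..(1/2), ‖∑ k ∈ Finset.range N, Complex.exp (2 * Real.pi * Complex.I * k * x)‖ ^ 2 := by
    apply intervalIntegral.integral_mono_ae_restrict (by norm_num)
    · exact hint
    · apply Continuous.intervalIntegrable
      fun_prop
    · have h0 : ∀ᵐ x : ℝ ∂(volume.restrict (Icc (-(1/2):ℝ) (1/2))), x ≠ 0 :=
        ae_restrict_of_ae (by
          rw [ae_iff]
          simp)
      filter_upwards [h0, ae_restrict_mem measurableSet_Icc] with x h1 h2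
      exact hpt x h2 h1
  rw [fejer_integral N, intervalIntegral.integral_const_mul] at hmono
  rw [hsub]
  have h5 : (N:ℝ) * (N * ∫ x in (-(1/2):ℝ)..(1/2), PC.sq (N * x)) ≤ N * 1 := by
    calc (N:ℝ) * (N * ∫ x in (-(1/2):ℝ)..(1/2), PC.sq (N * x)) = (N:ℝ) ^ 2 * ∫ x in (-(1/2):ℝ)..(1/2), PC.sq (N * x) := by ring
      _ ≤ N := hmono
      _ = _ := by ring
  exact le_of_mul_le_mul_left h5 hN0

/-- continuous sinc squared -/
noncomputable def sc (w : ℝ) : ℝ := gs (2 * Real.pi) 0 w

lemma two_pi_pos' : (0:ℝ) < 2 * Real.pi := by positivity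

lemma sc_eq {w : ℝ} (hw : w ≠ 0) : sc w = PC.sq w := by
  unfold sc
  rw [gs_zero_eq two_pi_pos' hw]
  congr 1
  field_simp

lemma sc_zero : sc 0 = 1 := gs_zero_zero two_pi_pos'
lemma sc_nonneg (w : ℝ) : 0 ≤ sc w := gs_zero_nonneg two_pi_pos' w
lemma sc_le_one (w : ℝ) : sc w ≤ 1 := gs_zero_le_one two_pi_pos' w
lemma sc_cont : Continuous sc := gs_cont _ _
lemma sc_decay (w : ℝ) : sc w ≤ 5 * Kd (2 * Real.pi) w := gs_zero_decay two_pi_pos' w

lemma sc_even (w : ℝ) : sc (-w) = sc w := by
  by_cases h : w = 0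
  · simp [h]
  · rw [sc_eq h, sc_eq (neg_ne_zero.mpr h), PC.sq_even]

lemma gs_sc {X : ℝ} (hX : 0 < X) (w : ℝ) : gs X 0 w = sc (X / (2 * Real.pi) * w) := by
  by_cases h : w = 0
  · rw [h, mul_zero, gs_zero_zero hX, sc_zero]
  · have h2 : X / (2 * Real.pi) * w ≠ 0 := mul_ne_zero (by positivity) h
    rw [gs_zero_eq hX h, sc_eq h2]
    congr 1
    ring

lemma sc_integrable : Integrable sc := by
  refine ((Kd_integrable two_pi_pos').const_mul 5).mono' sc_cont.aestronglyMeasurable ?_
  filter_upwards with w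
  rw [Real.norm_of_nonneg (sc_nonneg w)]
  exact sc_decay w

lemma sc_ae : sc =ᵐ[volume] PC.sq := by
  have : ∀ᵐ w : ℝ, w ≠ 0 := by
    rw [ae_iff]; simp
  filter_upwards [this] with w hw
  exact sc_eq hw

lemma sc_interval (a b : ℝ) : ∫ w in a..b, sc w = ∫ w in a..b, PC.sq w := by
  apply intervalIntegral.integral_congr_ae
  filter_upwards [sc_ae] with w hw _
  exact hw

lemma sc_integral : ∫ w, sc w = 1 := by
  have ht : Tendsto (fun N : ℕ => ∫ w in (-((N:ℝ)/2))..((N:ℝ)/2), sc w) atTop (𝓝 (∫ w, sc w)) := by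
    apply intervalIntegral_tendsto_integral sc_integrable
    · have : Tendsto (fun N : ℕ => (N:ℝ)/2) atTop atTop := tendsto_natCast_atTop_atTop.atTop_div_const (by norm_num)
      exact tendsto_neg_atTop_atBot.comp this
    · exact tendsto_natCast_atTop_atTop.atTop_div_const (by norm_num)
  apply le_antisymm
  · refine le_of_tendsto ht ?_
    filter_upwards [eventually_gt_atTop 0] with N hN
    rw [sc_interval]
    exact integral_sq_le N hN
  · have h1 : Tendsto (fun N : ℕ => 1 - 1 / (N:ℝ)) atTop (𝓝 (1 - 0)) :=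
      tendsto_const_nhds.sub tendsto_one_div_atTop_nhds_zero_nat
    rw [sub_zero] at h1
    refine le_of_tendsto_of_tendsto h1 ht ?_
    filter_upwards [eventually_gt_atTop 0] with N hN
    rw [sc_interval]
    exact integral_sq_ge N hN

open scoped Convolution

/-- the convolution square of sinc squared -/
noncomputable def Gm (y : ℝ) : ℝ := ∫ x, sc x * sc (y - x)

lemma Gm_conv : Gm = (sc ⋆[ContinuousLinearMap.mul ℝ ℝ, volume] sc) := by
  funext y
  rw [convolution_def]
  rfl

lemma Gm_integrable : Integrable Gm := by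
  rw [Gm_conv]
  exact Integrable.integrable_convolution _ sc_integrable sc_integrable

lemma Gm_integral : ∫ y, Gm y = 1 := by
  rw [Gm_conv, integral_convolution _ sc_integrable sc_integrable, sc_integral]
  simp

lemma Gm_nonneg (y : ℝ) : 0 ≤ Gm y := integral_nonneg fun x => mul_nonneg (sc_nonneg _) (sc_nonneg _)

lemma scsc_integrable (y : ℝ) : Integrable (fun x => sc x * sc (y - x)) := by
  refine sc_integrable.mono' (sc_cont.mul (sc_cont.comp (by fun_prop))).aestronglyMeasurable ?_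
  filter_upwards with x
  rw [Real.norm_of_nonneg (mul_nonneg (sc_nonneg _) (sc_nonneg _))]
  have := sc_le_one (y - x)
  have := sc_nonneg x
  nlinarith

lemma Gm_cont : Continuous Gm := by
  unfold Gm
  apply continuous_of_dominated (bound := sc)
  · intro y
    exact (sc_cont.mul (sc_cont.comp (by fun_prop))).aestronglyMeasurable
  · intro y
    filter_upwards with x
    rw [Real.norm_of_nonneg (mul_nonneg (sc_nonneg _) (sc_nonneg _))]
    have := sc_le_one (y - x)
    have := sc_nonneg x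
    nlinarith
  · exact sc_integrable
  · filter_upwards with x
    exact continuous_const.mul (sc_cont.comp (by fun_prop))

lemma Gm_even (y : ℝ) : Gm (-y) = Gm y := by
  unfold Gm
  rw [← integral_neg_eq_self (fun x => sc x * sc (y - x)) volume]
  congr 1
  funext x
  rw [sc_even, ← sc_even (-y - x)]
  congr 2
  ring

lemma Gm_le (y : ℝ) : Gm y ≤ Gm 0 := by
  have h2 : ∀ x, sc x * sc (y - x) ≤ (1/2) * sc x ^ 2 + (1/2) * sc (y - x) ^ 2 := by
    intro x
    nlinarith [sq_nonneg (sc x - sc (y - x))]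
  have i2 : Integrable (fun x => sc x ^ 2) := by
    have := scsc_integrable 0
    refine this.congr ?_
    filter_upwards with x
    rw [zero_sub, sc_even, pow_two]
  have i3 : Integrable (fun x => sc (y - x) ^ 2) := i2.comp_sub_left y
  have h3 : Gm y ≤ ∫ x, ((1/2) * sc x ^ 2 + (1/2) * sc (y - x) ^ 2) :=
    integral_mono (scsc_integrable y) ((i2.const_mul _).add (i3.const_mul _)) h2
  rw [integral_add (i2.const_mul _) (i3.const_mul _), integral_const_mul, integral_const_mul,
    integral_sub_left_eq_self (fun x => sc x ^ 2) volume y] at h3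
  have h4 : Gm 0 = ∫ x, sc x ^ 2 := by
    unfold Gm
    congr 1
    funext x
    rw [zero_sub, sc_even, pow_two]
  rw [h4]
  linarith

lemma Gm_zero_pos : 0 < Gm 0 := by
  by_contra h
  push Not at h
  have h1 : ∀ y, Gm y = 0 := fun y => le_antisymm ((Gm_le y).trans h) (Gm_nonneg y)
  have h2 := Gm_integral
  simp_rw [h1] at h2
  simp at h2

/-- Pair identity. -/
lemma gs_pair {X : ℝ} (hX : 0 < X) (g g' : ℝ) :
    ∫ t, gs X 0 (t - g) * gs X 0 (t - g') = 2 * Real.pi / X * Gm (X / (2 * Real.pi) * (g - g')) := by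
  have hc : 0 < X / (2 * Real.pi) := by positivity
  set c := X / (2 * Real.pi) with hcd
  have e1 : ∀ t, gs X 0 (t - g) * gs X 0 (t - g') = (fun x => sc x * sc (c * (g - g') - x)) (c * (t - g')) := by
    intro t
    simp only
    rw [gs_sc hX, gs_sc hX, ← hcd, mul_comm, ← sc_even (c * (t - g))]
    congr 2
    ring
  simp_rw [e1]
  have h1 : ∫ t, (fun x => sc x * sc (c * (g - g') - x)) (c * (t - g')) = ∫ t, (fun x => sc x * sc (c * (g - g') - x)) (c * t) :=
    integral_sub_right_eq_self (fun t => (fun x => sc x * sc (c * (g - g') - x)) (c * t)) g'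
  rw [h1, Measure.integral_comp_mul_left (fun x => sc x * sc (c * (g - g') - x)) c, smul_eq_mul, abs_of_pos (by positivity)]
  unfold Gm
  rw [hcd]
  congr 1
  field_simp

lemma gs_pair_integrable {X : ℝ} (hX : 0 < X) (g g' : ℝ) : Integrable (fun t => gs X 0 (t - g) * gs X 0 (t - g')) := by
  refine (((Kd_integrable hX).comp_sub_right g).const_mul 5).mono' (((gs_cont X 0).comp (by fun_prop)).mul ((gs_cont X 0).comp (by fun_prop))).aestronglyMeasurable ?_
  filter_upwards with t
  have h1 := gs_zero_nonneg hX (t - g)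
  have h2 := gs_zero_nonneg hX (t - g')
  have h3 := gs_zero_le_one hX (t - g')
  have h4 := gs_zero_decay hX (t - g)
  rw [Real.norm_of_nonneg (mul_nonneg h1 h2)]
  nlinarith

end Pool.Agent.Helper57.LH
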