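import Pool.Agent.Helper57.LH.VThree
import Pool.Agent.Helper57.LH.Gone
import Pool.Agent.Helper57.PC.UpperHalf

namespace Pool.Agent.Helper57.LH

open Set MeasureTheory Filter Topology
open Pool.Agent.Helper57.Zeta
open Pool.Agent.Helper57.PC (mult IsNontrivialZero zerosUpTo nd SN SN_pos)

lemma Yf_sq_eq (T : ℝ) {X : ℝ} (hX : 0 < X) :
    ∫ t, Yf (ZT T) X t ^ 2 = 2 * Real.pi / X * ∑ p ∈ Zf T ×ˢ Zf T, (mult p.1 : ℝ) * (mult p.2 : ℝ) * Gm (X / (2 * Real.pi) * (p.1.im - p.2.im)) := by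
  have e1 : ∀ t, Yf (ZT T) X t ^ 2 = ∑ ρ ∈ ZT T, ∑ ρ' ∈ ZT T, (mx ρ * mx ρ') * (gs X 0 (t - (ρ:ℂ).im) * gs X 0 (t - (ρ':ℂ).im)) := by
    intro t
    unfold Yf
    rw [pow_two, Finset.sum_mul_sum]
    refine Finset.sum_congr rfl fun ρ _ => Finset.sum_congr rfl fun ρ' _ => ?_
    ring
  simp_rw [e1]
  rw [integral_finsetSum]
  · have e2 : ∀ ρ : ZS, ∫ t, ∑ ρ' ∈ ZT T, (mx ρ * mx ρ') * (gs X 0 (t - (ρ:ℂ).im) * gs X 0 (t - (ρ':ℂ).im)) =
        ∑ ρ' ∈ ZT T, (mx ρ * mx ρ') * (2 * Real.pi / X * Gm (X / (2 * Real.pi) * ((ρ:ℂ).im - (ρ':ℂ).im))) := by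
      intro ρ
      rw [integral_finsetSum]
      · refine Finset.sum_congr rfl fun ρ' _ => ?_
        rw [integral_const_mul, gs_pair hX]
      · intro ρ' _
        exact (gs_pair_integrable hX _ _).const_mul _
    simp_rw [e2]
    have e3 : ∀ ρ : ZS, ∑ ρ' ∈ ZT T, (mx ρ * mx ρ') * (2 * Real.pi / X * Gm (X / (2 * Real.pi) * ((ρ:ℂ).im - (ρ':ℂ).im))) =
        ∑ ρ' ∈ Zf T, (mx ρ * mx ρ') * (2 * Real.pi / X * Gm (X / (2 * Real.pi) * ((ρ:ℂ).im - ρ'.im))) := fun ρ =>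
      sum_ZT T (fun ρ' => (mx ρ * mx ρ') * (2 * Real.pi / X * Gm (X / (2 * Real.pi) * ((ρ:ℂ).im - ρ'.im))))
    simp_rw [e3]
    rw [sum_ZT T (fun ρ => ∑ ρ' ∈ Zf T, (mx ρ * mx ρ') * (2 * Real.pi / X * Gm (X / (2 * Real.pi) * (ρ.im - ρ'.im)))),
      Finset.mul_sum, Finset.sum_product]
    refine Finset.sum_congr rfl fun ρ hρ => Finset.sum_congr rfl fun ρ' hρ' => ?_
    rw [mem_Zf] at hρ hρ'
    rw [mult_eq hρ.1, mult_eq hρ'.1]
    unfold mx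
    ring
  · intro ρ _
    apply integrable_finsetSum
    intro ρ' _
    exact (gs_pair_integrable hX _ _).const_mul _

/-- The smoothed pair sum is at most B + C/B. -/
theorem pair_bound : ∃ C : ℝ, 0 < C ∧ ∀ B : ℝ, 9600 ≤ B → ∀ᶠ T : ℝ in atTop,
    ∑ p ∈ Zf T ×ˢ Zf T, (mult p.1 : ℝ) * (mult p.2 : ℝ) * Gm (nd T p / B) ≤ SN T * (B + C / B) := by
  obtain ⟨C, hC, h⟩ := YT_sq
  refine ⟨C, hC, fun B hB => ?_⟩
  have hB0 : 0 < B := by linarith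
  filter_upwards [h B hB, eventually_ge_atTop 3] with T hT hT3
  have hL := one_le_log hT3
  have hX0 : 0 < Real.log T / B := by positivity
  rw [Yf_sq_eq T hX0] at hT
  have e1 : ∑ p ∈ Zf T ×ˢ Zf T, (mult p.1 : ℝ) * (mult p.2 : ℝ) * Gm (nd T p / B) =
      ∑ p ∈ Zf T ×ˢ Zf T, (mult p.1 : ℝ) * (mult p.2 : ℝ) * Gm (Real.log T / B / (2 * Real.pi) * (p.1.im - p.2.im)) := by
    refine Finset.sum_congr rfl fun p _ => ?_
    congr 2
    unfold nd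
    ring
  rw [e1]
  set S := ∑ p ∈ Zf T ×ˢ Zf T, (mult p.1 : ℝ) * (mult p.2 : ℝ) * Gm (Real.log T / B / (2 * Real.pi) * (p.1.im - p.2.im))
  have hpi := Real.pi_pos
  have hL0 : 0 < Real.log T := by linarith
  have e2 : S = (Real.log T / B / (2 * Real.pi)) * (2 * Real.pi / (Real.log T / B) * S) := by
    field_simp
  rw [e2]
  calc (Real.log T / B / (2 * Real.pi)) * (2 * Real.pi / (Real.log T / B) * S)
      ≤ (Real.log T / B / (2 * Real.pi)) * (T * (B ^ 2 + C)) := by gcongr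
    _ = SN T * (B + C / B) := by
        unfold SN
        field_simp

end Pool.Agent.Helper57.LH
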