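import Mathlib
import Pool.Agent.Helper57.LH.GamInt

namespace Pool.Agent.Helper57.LH

open Complex Set MeasureTheory Filter Topology Finset

/-- oscillatory integral -/
lemma osc_int {w : ℂ} (hw : 0 < w.re) :
    IntegrableOn (fun x : ℝ => ((x ^ (-(1/2) : ℝ) : ℝ) : ℂ) * cexp (-(w * x))) (Ioi 1) ∧
    ‖∫ x in Ioi (1:ℝ), ((x ^ (-(1/2) : ℝ) : ℝ) : ℂ) * cexp (-(w * x))‖ ≤ 2 * Real.exp (-w.re) / ‖w‖ := by
  have hw0 : w ≠ 0 := fun h => by simp [h] at hw
  have hwn : 0 < ‖w‖ := norm_pos_iff.mpr hw0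
  have hnorm : ∀ x : ℝ, ‖cexp (-(w * x))‖ = Real.exp (-(w.re * x)) := by
    intro x
    rw [Complex.norm_exp]; simp
  have hint1 : IntegrableOn (fun x : ℝ => ((x ^ (-(1/2) : ℝ) : ℝ) : ℂ) * cexp (-(w * x))) (Ioi 1) := by
    have h1 : IntegrableOn (fun x : ℝ => x ^ (-(1/2) : ℝ) * Real.exp (-(w.re * x))) (Ioi 1) :=
      (integrableOn_gam (by norm_num) hw).mono_set (Set.Ioi_subset_Ioi zero_le_one)
    refine h1.mono' ?_ ?_
    · apply ContinuousOn.aestronglyMeasurable _ measurableSet_Ioi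
      intro x hx
      have hx1 : (1:ℝ) < x := hx
      apply ContinuousAt.continuousWithinAt
      apply ContinuousAt.mul
      · apply Complex.continuous_ofReal.continuousAt.comp
        exact Real.continuousAt_rpow_const _ _ (Or.inl (by linarith))
      · fun_prop
    · filter_upwards [ae_restrict_mem measurableSet_Ioi] with x hx
      have hx1 : (1:ℝ) < x := hx
      rw [norm_mul, hnorm, Complex.norm_real, Real.norm_of_nonneg (Real.rpow_nonneg (by linarith) _)]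
  refine ⟨hint1, ?_⟩
  have hint2 : IntegrableOn (fun x : ℝ => ((1/2 * x ^ (-(3/2) : ℝ) : ℝ) : ℂ) * (cexp (-(w * x)) / w)) (Ioi 1) := by
    have h1 : IntegrableOn (fun x : ℝ => x ^ (-(3/2) : ℝ)) (Ioi 1) :=
      integrableOn_Ioi_rpow_of_lt (by norm_num) one_pos
    refine (h1.const_mul (1 / ‖w‖)).mono' ?_ ?_
    · apply ContinuousOn.aestronglyMeasurable _ measurableSet_Ioi
      intro x hx
      have hx1 : (1:ℝ) < x := hx
      apply ContinuousAt.continuousWithinAt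
      apply ContinuousAt.mul
      · apply Complex.continuous_ofReal.continuousAt.comp
        apply ContinuousAt.mul continuousAt_const
        exact Real.continuousAt_rpow_const _ _ (Or.inl (by linarith))
      · fun_prop
    · filter_upwards [ae_restrict_mem measurableSet_Ioi] with x hx
      have hx1 : (1:ℝ) < x := hx
      have hp : 0 ≤ x ^ (-(3/2) : ℝ) := Real.rpow_nonneg (by linarith) _
      rw [norm_mul, norm_div, hnorm, Complex.norm_real, Real.norm_of_nonneg (by positivity)]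
      have h3 : Real.exp (-(w.re * x)) ≤ 1 := Real.exp_le_one_iff.mpr (by nlinarith)
      calc 1 / 2 * x ^ (-(3/2) : ℝ) * (Real.exp (-(w.re * x)) / ‖w‖)
          ≤ 1 * x ^ (-(3/2) : ℝ) * (1 / ‖w‖) := by gcongr; norm_num
        _ = 1 / ‖w‖ * x ^ (-(3/2) : ℝ) := by ring
  set G : ℝ → ℂ := fun x => -(((x ^ (-(1/2) : ℝ) : ℝ) : ℂ) * (cexp (-(w * x)) / w)) with hG
  have hderiv : ∀ x ∈ Ici (1:ℝ), HasDerivAt G
      (((x ^ (-(1/2) : ℝ) : ℝ) : ℂ) * cexp (-(w * x)) + ((1/2 * x ^ (-(3/2) : ℝ) : ℝ) : ℂ) * (cexp (-(w * x)) / w)) x := by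
    intro x hx
    have hx1 : (1:ℝ) ≤ x := hx
    have d1 : HasDerivAt (fun x : ℝ => ((x ^ (-(1/2) : ℝ) : ℝ) : ℂ)) (((-(1/2)) * x ^ (-(1/2) - 1 : ℝ) : ℝ) : ℂ) x :=
      (Real.hasDerivAt_rpow_const (Or.inl (by linarith))).ofReal_comp
    have d2 : HasDerivAt (fun x : ℝ => cexp (-(w * x)) / w) (cexp (-(w * x)) * (-(w * 1)) / w) x := by
      have d3 : HasDerivAt (fun x : ℝ => -(w * (x:ℂ))) (-(w * 1)) x := by
        have := ((Complex.ofRealCLM.hasDerivAt (x := x)).const_mul w).fun_neg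
        simpa using this
      exact d3.cexp.div_const w
    have d4 := (d1.fun_mul d2).fun_neg
    have e5 : (((x ^ (-(1/2) : ℝ) : ℝ) : ℂ) * cexp (-(w * x)) + ((1/2 * x ^ (-(3/2) : ℝ) : ℝ) : ℂ) * (cexp (-(w * x)) / w))
      = -((((-(1/2)) * x ^ (-(1/2) - 1 : ℝ) : ℝ) : ℂ) * (cexp (-(w * x)) / w) +
        ((x ^ (-(1/2) : ℝ) : ℝ) : ℂ) * (cexp (-(w * x)) * (-(w * 1)) / w)) := by
      rw [show (-(1/2) - 1 : ℝ) = -(3/2) by norm_num]
      push_cast
      field_simp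
      ring
    rw [e5]
    exact d4
  have htop : Tendsto G atTop (𝓝 0) := by
    rw [tendsto_zero_iff_norm_tendsto_zero]
    have h1 : Tendsto (fun x : ℝ => 1 / ‖w‖ * Real.exp (-(w.re * x))) atTop (𝓝 0) := by
      have : Tendsto (fun x : ℝ => Real.exp (-(w.re * x))) atTop (𝓝 0) :=
        Real.tendsto_exp_atBot.comp (tendsto_neg_atTop_atBot.comp (tendsto_id.const_mul_atTop hw))
      simpa using this.const_mul (1 / ‖w‖)
    refine squeeze_zero' (Eventually.of_forall fun x => norm_nonneg _) ?_ h1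
    filter_upwards [eventually_ge_atTop 1] with x hx
    rw [hG]
    simp only
    rw [norm_neg, norm_mul, norm_div, hnorm, Complex.norm_real,
      Real.norm_of_nonneg (Real.rpow_nonneg (by linarith) _)]
    have h3 : x ^ (-(1/2) : ℝ) ≤ 1 := Real.rpow_le_one_of_one_le_of_nonpos hx (by norm_num)
    calc x ^ (-(1/2) : ℝ) * (Real.exp (-(w.re * x)) / ‖w‖) ≤ 1 * (Real.exp (-(w.re * x)) / ‖w‖) := by gcongr
      _ = _ := by ring
  have hFTC := integral_Ioi_of_hasDerivAt_of_tendsto' hderiv (hint1.add hint2) htop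
  rw [integral_add hint1 hint2] at hFTC
  have hb : ‖∫ x in Ioi (1:ℝ), ((1/2 * x ^ (-(3/2) : ℝ) : ℝ) : ℂ) * (cexp (-(w * x)) / w)‖ ≤ Real.exp (-w.re) / ‖w‖ := by
    have h1 : IntegrableOn (fun x : ℝ => x ^ (-(3/2) : ℝ)) (Ioi 1) :=
      integrableOn_Ioi_rpow_of_lt (by norm_num) one_pos
    have h2 : ∀ᵐ x ∂(volume.restrict (Ioi (1:ℝ))), ‖((1/2 * x ^ (-(3/2) : ℝ) : ℝ) : ℂ) * (cexp (-(w * x)) / w)‖
        ≤ (Real.exp (-w.re) / ‖w‖ * (1/2)) * x ^ (-(3/2) : ℝ) := by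
      filter_upwards [ae_restrict_mem measurableSet_Ioi] with x hx
      have hx1 : (1:ℝ) < x := hx
      have hp : 0 ≤ x ^ (-(3/2) : ℝ) := Real.rpow_nonneg (by linarith) _
      rw [norm_mul, norm_div, hnorm, Complex.norm_real, Real.norm_of_nonneg (by positivity)]
      have h3 : Real.exp (-(w.re * x)) ≤ Real.exp (-w.re) := Real.exp_le_exp.mpr (by nlinarith)
      calc 1 / 2 * x ^ (-(3/2) : ℝ) * (Real.exp (-(w.re * x)) / ‖w‖)
          ≤ 1 / 2 * x ^ (-(3/2) : ℝ) * (Real.exp (-w.re) / ‖w‖) := by gcongr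
        _ = _ := by ring
    refine (norm_integral_le_of_norm_le (h1.const_mul _) h2).trans ?_
    rw [integral_const_mul, integral_Ioi_rpow_of_lt (by norm_num) one_pos]
    norm_num
    exact le_of_eq (by ring)
  have hG1 : ‖G 1‖ = Real.exp (-w.re) / ‖w‖ := by
    rw [hG]
    simp only
    rw [norm_neg, norm_mul, norm_div, hnorm]
    simp
  have : ∫ x in Ioi (1:ℝ), ((x ^ (-(1/2) : ℝ) : ℝ) : ℂ) * cexp (-(w * x)) =
      (-G 1) - ∫ x in Ioi (1:ℝ), ((1/2 * x ^ (-(3/2) : ℝ) : ℝ) : ℂ) * (cexp (-(w * x)) / w) := by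
    linear_combination hFTC
  rw [this]
  refine (norm_sub_le _ _).trans ?_
  rw [norm_neg, hG1]
  calc _ ≤ Real.exp (-w.re) / ‖w‖ + Real.exp (-w.re) / ‖w‖ := by gcongr
    _ = _ := by ring

/-- diagonal integral -/
lemma diag_int {a : ℝ} (ha : 0 < a) :
    IntegrableOn (fun x : ℝ => x ^ (-(1/2) : ℝ) * Real.exp (-(2 * a * x))) (Ioi 1) ∧
    ∫ x in Ioi (1:ℝ), x ^ (-(1/2) : ℝ) * Real.exp (-(2 * a * x)) ≤ Real.exp (-a) * Real.sqrt (Real.pi / a) := by
  have hi : IntegrableOn (fun x : ℝ => x ^ (-(1/2) : ℝ) * Real.exp (-(2 * a * x))) (Ioi 1) :=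
    (integrableOn_gam (s := -(1/2)) (b := 2 * a) (by norm_num) (by positivity)).mono_set (Set.Ioi_subset_Ioi zero_le_one)
  refine ⟨hi, ?_⟩
  have hi2 : IntegrableOn (fun x : ℝ => x ^ (-(1/2) : ℝ) * Real.exp (-(a * x))) (Ioi 0) :=
    integrableOn_gam (by norm_num) ha
  calc ∫ x in Ioi (1:ℝ), x ^ (-(1/2) : ℝ) * Real.exp (-(2 * a * x))
      ≤ ∫ x in Ioi (1:ℝ), Real.exp (-a) * (x ^ (-(1/2) : ℝ) * Real.exp (-(a * x))) := by
        apply setIntegral_mono_on hi
        · exact (hi2.mono_set (Set.Ioi_subset_Ioi zero_le_one)).const_mul _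
        · exact measurableSet_Ioi
        · intro x hx
          have hx1 : (1:ℝ) < x := hx
          have hp : 0 ≤ x ^ (-(1/2) : ℝ) := Real.rpow_nonneg (by linarith) _
          have : Real.exp (-(2 * a * x)) ≤ Real.exp (-a) * Real.exp (-(a * x)) := by
            rw [← Real.exp_add]
            apply Real.exp_le_exp.mpr
            nlinarith
          calc _ ≤ x ^ (-(1/2) : ℝ) * (Real.exp (-a) * Real.exp (-(a * x))) := by gcongr
            _ = _ := by ring
    _ = Real.exp (-a) * ∫ x in Ioi (1:ℝ), (x ^ (-(1/2) : ℝ) * Real.exp (-(a * x))) := by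
        rw [integral_const_mul]
    _ ≤ Real.exp (-a) * ∫ x in Ioi (0:ℝ), (x ^ (-(1/2) : ℝ) * Real.exp (-(a * x))) := by
        apply mul_le_mul_of_nonneg_left _ (Real.exp_pos _).le
        apply setIntegral_mono_set hi2
        · filter_upwards [ae_restrict_mem measurableSet_Ioi] with x hx
          have hx1 : (0:ℝ) < x := hx
          have hp : 0 ≤ x ^ (-(1/2) : ℝ) := Real.rpow_nonneg (by linarith) _
          simp only [Pi.zero_apply]
          positivity
        · exact (Set.Ioi_subset_Ioi zero_le_one).eventuallyLE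
    _ = Real.exp (-a) * Real.sqrt (Real.pi / a) := by
        have := Real.integral_rpow_mul_exp_neg_mul_Ioi (a := 1/2) (r := a) (by norm_num) ha
        rw [show (1/2 - 1 : ℝ) = -(1/2) by norm_num] at this
        rw [this, Real.Gamma_one_half_eq, ← Real.sqrt_eq_rpow, ← Real.sqrt_mul (by positivity)]
        congr 2
        ring

/-- finite L² bound -/
theorem L2_fin {ι : Type*} [DecidableEq ι] (I : Finset ι) (lam : ι → ℝ) (c : ι → ℝ) (z : ℂ) (hz : 0 < z.re)
    (hzi : 1 / 2 ≤ |z.im|) (hlam : ∀ i ∈ I, 0 < lam i)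
    (hinj : ∀ i ∈ I, ∀ j ∈ I, i ≠ j → lam i ≠ lam j) :
    IntegrableOn (fun x : ℝ => x ^ (-(1/2) : ℝ) * ‖∑ i ∈ I, (c i : ℂ) * cexp (-(Real.pi * (lam i : ℂ) ^ 2 * x * z))‖ ^ 2) (Ioi 1) ∧
    ∫ x in Ioi (1:ℝ), x ^ (-(1/2) : ℝ) * ‖∑ i ∈ I, (c i : ℂ) * cexp (-(Real.pi * (lam i : ℂ) ^ 2 * x * z))‖ ^ 2
      ≤ ∑ i ∈ I, c i ^ 2 * Real.exp (-(Real.pi * lam i ^ 2 * z.re)) / (lam i * Real.sqrt z.re)
      + ∑ i ∈ I, ∑ j ∈ I, (if i = j then 0 else
          |c i| * |c j| * (2 * Real.exp (-(Real.pi * (lam i ^ 2 + lam j ^ 2) * z.re)) / |lam i ^ 2 - lam j ^ 2|)) := by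
  set w : ι → ι → ℂ := fun i j => Real.pi * (lam i : ℂ) ^ 2 * z + Real.pi * (lam j : ℂ) ^ 2 * (starRingEnd ℂ z) with hw
  have hwre : ∀ i j, (w i j).re = Real.pi * (lam i ^ 2 + lam j ^ 2) * z.re := by
    intro i j
    rw [hw]
    simp only [Complex.add_re]
    rw [show (Real.pi * (lam i : ℂ) ^ 2 * z : ℂ) = ((Real.pi * lam i ^ 2 : ℝ) : ℂ) * z by push_cast; ring,
      show (Real.pi * (lam j : ℂ) ^ 2 * (starRingEnd ℂ z) : ℂ) = ((Real.pi * lam j ^ 2 : ℝ) : ℂ) * (starRingEnd ℂ z) by push_cast; ring,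
      Complex.re_ofReal_mul, Complex.re_ofReal_mul, Complex.conj_re]
    ring
  have hwim : ∀ i j, (w i j).im = Real.pi * (lam i ^ 2 - lam j ^ 2) * z.im := by
    intro i j
    rw [hw]
    simp only [Complex.add_im]
    rw [show (Real.pi * (lam i : ℂ) ^ 2 * z : ℂ) = ((Real.pi * lam i ^ 2 : ℝ) : ℂ) * z by push_cast; ring,
      show (Real.pi * (lam j : ℂ) ^ 2 * (starRingEnd ℂ z) : ℂ) = ((Real.pi * lam j ^ 2 : ℝ) : ℂ) * (starRingEnd ℂ z) by push_cast; ring,
      Complex.im_ofReal_mul, Complex.im_ofReal_mul, Complex.conj_im]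
    ring
  have hwpos : ∀ i ∈ I, ∀ j ∈ I, 0 < (w i j).re := by
    intro i hi j hj
    rw [hwre]
    have := hlam i hi
    positivity
  set g : ι → ι → ℝ → ℂ := fun i j x => ((c i * c j : ℝ) : ℂ) * (((x ^ (-(1/2) : ℝ) : ℝ) : ℂ) * cexp (-(w i j * x))) with hg
  have hexp : ∀ x : ℝ, ((x ^ (-(1/2) : ℝ) * ‖∑ i ∈ I, (c i : ℂ) * cexp (-(Real.pi * (lam i : ℂ) ^ 2 * x * z))‖ ^ 2 : ℝ) : ℂ)
      = ∑ i ∈ I, ∑ j ∈ I, g i j x := by
    intro x
    push_cast
    rw [← Complex.mul_conj', map_sum, sum_mul_sum, mul_sum]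
    refine Finset.sum_congr rfl fun i _ => ?_
    rw [mul_sum]
    refine Finset.sum_congr rfl fun j _ => ?_
    rw [hg]
    simp only [map_mul, Complex.conj_ofReal]
    rw [← Complex.exp_conj]
    have e2 : cexp (-(w i j * x)) = cexp (-(Real.pi * (lam i : ℂ) ^ 2 * x * z)) *
        cexp ((starRingEnd ℂ) (-(Real.pi * (lam j : ℂ) ^ 2 * x * z))) := by
      rw [← Complex.exp_add]
      congr 1
      rw [hw]
      simp only [map_neg, map_mul, map_pow, Complex.conj_ofReal]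
      ring
    rw [e2]
    push_cast
    ring
  have hgi : ∀ i ∈ I, ∀ j ∈ I, IntegrableOn (g i j) (Ioi 1) := by
    intro i hi j hj
    exact (osc_int (hwpos i hi j hj)).1.const_mul _
  have hSi : IntegrableOn (fun x => ∑ i ∈ I, ∑ j ∈ I, g i j x) (Ioi 1) := by
    apply integrable_finsetSum
    intro i hi
    apply integrable_finsetSum
    intro j hj
    exact hgi i hi j hj
  have hmain : IntegrableOn (fun x : ℝ => ((x ^ (-(1/2) : ℝ) * ‖∑ i ∈ I, (c i : ℂ) * cexp (-(Real.pi * (lam i : ℂ) ^ 2 * x * z))‖ ^ 2 : ℝ) : ℂ)) (Ioi 1) := by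
    have : (fun x : ℝ => ((x ^ (-(1/2) : ℝ) * ‖∑ i ∈ I, (c i : ℂ) * cexp (-(Real.pi * (lam i : ℂ) ^ 2 * x * z))‖ ^ 2 : ℝ) : ℂ)) = fun x => ∑ i ∈ I, ∑ j ∈ I, g i j x := by
      funext x; exact hexp x
    rw [this]; exact hSi
  have hre : IntegrableOn (fun x : ℝ => x ^ (-(1/2) : ℝ) * ‖∑ i ∈ I, (c i : ℂ) * cexp (-(Real.pi * (lam i : ℂ) ^ 2 * x * z))‖ ^ 2) (Ioi 1) := by
    exact hmain.re.congr (Eventually.of_forall fun x => Complex.ofReal_re _)
  refine ⟨hre, ?_⟩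
  have hval : ((∫ x in Ioi (1:ℝ), x ^ (-(1/2) : ℝ) * ‖∑ i ∈ I, (c i : ℂ) * cexp (-(Real.pi * (lam i : ℂ) ^ 2 * x * z))‖ ^ 2 : ℝ) : ℂ)
      = ∑ i ∈ I, ∑ j ∈ I, ∫ x in Ioi (1:ℝ), g i j x := by
    rw [← integral_complex_ofReal]
    rw [setIntegral_congr_fun measurableSet_Ioi (fun x _ => hexp x), integral_finsetSum]
    · refine Finset.sum_congr rfl fun i hi => ?_
      rw [integral_finsetSum]
      intro j hj
      exact hgi i hi j hj
    · intro i hi
      apply integrable_finsetSum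
      intro j hj
      exact hgi i hi j hj
  have hnn : 0 ≤ ∫ x in Ioi (1:ℝ), x ^ (-(1/2) : ℝ) * ‖∑ i ∈ I, (c i : ℂ) * cexp (-(Real.pi * (lam i : ℂ) ^ 2 * x * z))‖ ^ 2 := by
    apply setIntegral_nonneg measurableSet_Ioi
    intro x hx
    have hx1 : (1:ℝ) < x := hx
    have hp : 0 ≤ x ^ (-(1/2) : ℝ) := Real.rpow_nonneg (by linarith) _
    positivity
  rw [← Real.norm_of_nonneg hnn, ← Complex.norm_real, hval]
  refine (norm_sum_le _ _).trans ?_
  rw [← Finset.sum_add_distrib]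
  refine Finset.sum_le_sum fun i hi => ?_
  refine (norm_sum_le _ _).trans ?_
  have hdiag : ‖∫ x in Ioi (1:ℝ), g i i x‖ ≤ c i ^ 2 * Real.exp (-(Real.pi * lam i ^ 2 * z.re)) / (lam i * Real.sqrt z.re) := by
    have hl := hlam i hi
    have e : ∀ x : ℝ, g i i x = ((c i ^ 2 * (x ^ (-(1/2) : ℝ) * Real.exp (-(2 * (Real.pi * lam i ^ 2 * z.re) * x))) : ℝ) : ℂ) := by
      intro x
      rw [hg]
      simp only
      have : w i i = ((2 * (Real.pi * lam i ^ 2 * z.re) : ℝ) : ℂ) := by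
        apply Complex.ext
        · rw [hwre, Complex.ofReal_re]; ring
        · rw [hwim, Complex.ofReal_im]; ring
      rw [this]
      push_cast
      ring
    rw [setIntegral_congr_fun measurableSet_Ioi (fun x _ => e x), integral_complex_ofReal, Complex.norm_real,
      integral_const_mul]
    have hd := diag_int (a := Real.pi * lam i ^ 2 * z.re) (by positivity)
    have hd0 : 0 ≤ ∫ x in Ioi (1:ℝ), x ^ (-(1/2) : ℝ) * Real.exp (-(2 * (Real.pi * lam i ^ 2 * z.re) * x)) := by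
      apply setIntegral_nonneg measurableSet_Ioi
      intro x hx
      have hx1 : (1:ℝ) < x := hx
      have hp : 0 ≤ x ^ (-(1/2) : ℝ) := Real.rpow_nonneg (by linarith) _
      positivity
    rw [Real.norm_of_nonneg (by positivity)]
    have hsq : Real.sqrt (Real.pi / (Real.pi * lam i ^ 2 * z.re)) = 1 / (lam i * Real.sqrt z.re) := by
      have e3 : Real.pi / (Real.pi * lam i ^ 2 * z.re) = (1 / lam i) ^ 2 * (1 / z.re) := by
        field_simp
      rw [e3, Real.sqrt_mul (by positivity), Real.sqrt_sq (by positivity), Real.sqrt_div zero_le_one, Real.sqrt_one]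
      field_simp
    rw [hsq] at hd
    calc c i ^ 2 * _ ≤ c i ^ 2 * (Real.exp (-(Real.pi * lam i ^ 2 * z.re)) * (1 / (lam i * Real.sqrt z.re))) :=
          mul_le_mul_of_nonneg_left hd.2 (sq_nonneg _)
      _ = _ := by ring
  have hoff : ∀ j ∈ I, i ≠ j → ‖∫ x in Ioi (1:ℝ), g i j x‖ ≤
      |c i| * |c j| * (2 * Real.exp (-(Real.pi * (lam i ^ 2 + lam j ^ 2) * z.re)) / |lam i ^ 2 - lam j ^ 2|) := by
    intro j hj hij
    have h1 := (osc_int (hwpos i hi j hj)).2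
    have hli := hlam i hi
    have hlj := hlam j hj
    have hne : lam i ^ 2 - lam j ^ 2 ≠ 0 := by
      intro h
      have h2 : (lam i - lam j) * (lam i + lam j) = 0 := by linear_combination h
      rcases mul_eq_zero.mp h2 with h3 | h3
      · exact hinj i hi j hj hij (by linarith)
      · linarith
    have habs : 0 < |lam i ^ 2 - lam j ^ 2| := abs_pos.mpr hne
    have hwn : |lam i ^ 2 - lam j ^ 2| ≤ ‖w i j‖ := by
      have h4 := Complex.abs_im_le_norm (w i j)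
      rw [hwim, abs_mul, abs_mul, abs_of_pos Real.pi_pos] at h4
      refine le_trans ?_ h4
      have := Real.pi_gt_three
      have h5 : 1 ≤ Real.pi * |z.im| := by nlinarith [abs_nonneg z.im]
      calc |lam i ^ 2 - lam j ^ 2| = |lam i ^ 2 - lam j ^ 2| * 1 := by ring
        _ ≤ |lam i ^ 2 - lam j ^ 2| * (Real.pi * |z.im|) := by gcongr
        _ = _ := by ring
    rw [hg]
    simp only
    rw [integral_const_mul, norm_mul, Complex.norm_real, Real.norm_eq_abs, abs_mul]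
    apply mul_le_mul_of_nonneg_left _ (by positivity)
    refine h1.trans ?_
    rw [hwre]
    gcongr
  calc ∑ j ∈ I, ‖∫ x in Ioi (1:ℝ), g i j x‖
      = ‖∫ x in Ioi (1:ℝ), g i i x‖ + ∑ j ∈ I.erase i, ‖∫ x in Ioi (1:ℝ), g i j x‖ := by
        rw [Finset.add_sum_erase I (fun j => ‖∫ x in Ioi (1:ℝ), g i j x‖) hi]
    _ ≤ c i ^ 2 * Real.exp (-(Real.pi * lam i ^ 2 * z.re)) / (lam i * Real.sqrt z.re) +
        ∑ j ∈ I.erase i, (if i = j then 0 else
          |c i| * |c j| * (2 * Real.exp (-(Real.pi * (lam i ^ 2 + lam j ^ 2) * z.re)) / |lam i ^ 2 - lam j ^ 2|)) := by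
        apply add_le_add hdiag
        refine Finset.sum_le_sum fun j hj => ?_
        rw [Finset.mem_erase] at hj
        rw [if_neg hj.1.symm]
        exact hoff j hj.2 hj.1.symm
    _ ≤ _ := by
        apply add_le_add le_rfl
        apply Finset.sum_le_sum_of_subset_of_nonneg (Finset.erase_subset _ _)
        intro j _ _
        split_ifs
        · exact le_rfl
        · positivity

end Pool.Agent.Helper57.LH
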