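import Mathlib
import Pool.Agent.Helper57.LH.Bmol
import Pool.Agent.Helper57.LH.L2

namespace Pool.Agent.Helper57.LH

open Finset

/-- harmonic sums -/
noncomputable def Hs (n : ℕ) : ℝ := ∑ i ∈ range n, 1 / ((i:ℝ) + 1)

lemma Hs_le (n : ℕ) (hn : 0 < n) : Hs n ≤ 1 + Real.log n := by
  have := harmonic_le_one_add_log n
  refine le_trans (le_of_eq ?_) this
  unfold Hs harmonic
  push_cast
  refine sum_congr rfl fun i _ => by rw [one_div]

lemma Hs_mono {a b : ℕ} (h : a ≤ b) : Hs a ≤ Hs b := by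
  unfold Hs
  apply sum_le_sum_of_subset_of_nonneg (range_mono h)
  intros; positivity

lemma Hs_succ (n : ℕ) : Hs (n + 1) = Hs n + 1 / ((n:ℝ) + 1) := by
  unfold Hs; rw [sum_range_succ]

/-- upper part -/
lemma NL_up {N : ℕ} (hN : 0 < N) (J : ℕ) :
    ∑ j ∈ range J, 1 / |((N:ℝ)) ^ 2 - ((N + (j + 1) : ℕ) : ℝ) ^ 2| ≤ Hs (2 * N) / (2 * N) := by
  have hN0 : (0:ℝ) < N := by exact_mod_cast hN
  have h : ∀ J : ℕ, ∑ j ∈ range J, 1 / |((N:ℝ)) ^ 2 - ((N + (j + 1) : ℕ) : ℝ) ^ 2| =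
      (Hs J - (Hs (J + 2 * N) - Hs (2 * N))) / (2 * N) := by
    intro J
    induction J with
    | zero => simp [Hs]
    | succ J ih =>
      rw [sum_range_succ, ih, show J + 1 + 2 * N = (J + 2 * N) + 1 by ring, Hs_succ, Hs_succ]
      have e : |((N:ℝ)) ^ 2 - ((N + (J + 1) : ℕ) : ℝ) ^ 2| = ((J:ℝ) + 1) * (J + 2 * N + 1) := by
        rw [abs_of_nonpos]
        · push_cast; ring
        · push_cast
          nlinarith [(Nat.cast_nonneg J : (0:ℝ) ≤ J)]
      rw [e]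
      push_cast
      field_simp
      ring
  rw [h]
  gcongr
  have := Hs_mono (show J ≤ J + 2 * N by omega)
  linarith

/-- lower part -/
lemma NL_low {N : ℕ} (hN : 0 < N) :
    ∑ j ∈ range (N - 1), 1 / |((N:ℝ)) ^ 2 - ((N - (j + 1) : ℕ) : ℝ) ^ 2| ≤ Hs N / N := by
  have hN0 : (0:ℝ) < N := by exact_mod_cast hN
  calc ∑ j ∈ range (N - 1), 1 / |((N:ℝ)) ^ 2 - ((N - (j + 1) : ℕ) : ℝ) ^ 2|
      ≤ ∑ j ∈ range (N - 1), 1 / ((j:ℝ) + 1) / N := by
        refine sum_le_sum fun j hj => ?_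
        rw [mem_range] at hj
        rw [div_div]
        apply one_div_le_one_div_of_le (by positivity)
        rw [Nat.cast_sub (by omega)]
        push_cast
        have h1 : (0:ℝ) ≤ N - (j + 1) := by
          have : (j + 1 : ℕ) ≤ N := by omega
          have h2 : ((j + 1 : ℕ) : ℝ) ≤ N := by exact_mod_cast this
          push_cast at h2; linarith
        rw [abs_of_nonneg (by nlinarith [(Nat.cast_nonneg j : (0:ℝ) ≤ j)])]
        nlinarith [(Nat.cast_nonneg j : (0:ℝ) ≤ j)]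
    _ = Hs (N - 1) / N := by unfold Hs; rw [sum_div]
    _ ≤ Hs N / N := by
        gcongr
        exact Hs_mono (by omega)

lemma NL {N : ℕ} (hN : 0 < N) (K : ℕ) :
    ∑ M ∈ Ioc 0 K, (if N = M then 0 else 1 / |((N:ℝ)) ^ 2 - (M:ℝ) ^ 2|) ≤ 2 * (1 + Real.log N) / N := by
  have hN0 : (0:ℝ) < N := by exact_mod_cast hN
  set f : ℕ → ℝ := fun M => (if N = M then 0 else 1 / |((N:ℝ)) ^ 2 - (M:ℝ) ^ 2|) with hf
  have hf0 : ∀ M, 0 ≤ f M := by intro M; rw [hf]; simp only; split_ifs <;> positivity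
  have h1 : ∑ M ∈ Ioc 0 K, f M ≤ ∑ M ∈ Ioo 0 N, f M + ∑ M ∈ Ioc N (N + K), f M := by
    have hsub : Ioc 0 K ⊆ (Ioo 0 N ∪ {N}) ∪ Ioc N (N + K) := by
      intro M hM
      simp only [mem_union, mem_Ioo, mem_singleton, mem_Ioc] at hM ⊢
      omega
    calc ∑ M ∈ Ioc 0 K, f M ≤ ∑ M ∈ (Ioo 0 N ∪ {N}) ∪ Ioc N (N + K), f M :=
          sum_le_sum_of_subset_of_nonneg hsub (fun _ _ _ => hf0 _)
      _ ≤ ∑ M ∈ (Ioo 0 N ∪ {N}), f M + ∑ M ∈ Ioc N (N + K), f M := by
          rw [← sum_union_inter]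
          have : 0 ≤ ∑ M ∈ (Ioo 0 N ∪ {N}) ∩ Ioc N (N + K), f M := sum_nonneg fun _ _ => hf0 _
          linarith
      _ ≤ (∑ M ∈ Ioo 0 N, f M + ∑ M ∈ ({N} : Finset ℕ), f M) + ∑ M ∈ Ioc N (N + K), f M := by
          apply add_le_add _ le_rfl
          rw [← sum_union_inter]
          have : 0 ≤ ∑ M ∈ (Ioo 0 N ∩ {N}), f M := sum_nonneg fun _ _ => hf0 _
          linarith
      _ = _ := by
          rw [sum_singleton]
          have : f N = 0 := by simp [hf]
          rw [this, add_zero]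
  have h2 : ∑ M ∈ Ioo 0 N, f M = ∑ j ∈ range (N - 1), 1 / |((N:ℝ)) ^ 2 - ((N - (j + 1) : ℕ) : ℝ) ^ 2| := by
    symm
    apply sum_bij (fun j _ => N - (j + 1))
    · intro j hj
      rw [mem_range] at hj
      rw [mem_Ioo]; omega
    · intro a ha b hb h
      rw [mem_range] at ha hb
      omega
    · intro M hM
      rw [mem_Ioo] at hM
      exact ⟨N - M - 1, by rw [mem_range]; omega, by omega⟩
    · intro j hj
      rw [mem_range] at hj
      rw [hf]
      simp only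
      rw [if_neg (by omega)]
  have h3 : ∑ M ∈ Ioc N (N + K), f M = ∑ j ∈ range K, 1 / |((N:ℝ)) ^ 2 - ((N + (j + 1) : ℕ) : ℝ) ^ 2| := by
    symm
    apply sum_bij (fun j _ => N + (j + 1))
    · intro j hj
      rw [mem_range] at hj
      rw [mem_Ioc]; omega
    · intro a ha b hb h
      omega
    · intro M hM
      rw [mem_Ioc] at hM
      exact ⟨M - N - 1, by rw [mem_range]; omega, by omega⟩
    · intro j hj
      rw [hf]
      simp only
      rw [if_neg (by omega)]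
  refine h1.trans ?_
  rw [h2, h3]
  have h4 := NL_low hN
  have h5 := NL_up hN K
  have h6 := Hs_le N hN
  have h7 := Hs_le (2 * N) (by omega)
  have h8 : Real.log ((2 * N : ℕ) : ℝ) ≤ 1 + Real.log N := by
    push_cast
    rw [Real.log_mul (by norm_num) hN0.ne']
    have := Real.log_two_lt_d9
    linarith
  have h9 : Hs N / N ≤ (1 + Real.log N) / N := by gcongr
  have h10 : Hs (2 * N) / (2 * N) ≤ (1 + Real.log N) / N := by
    rw [div_le_div_iff₀ (by positivity) hN0]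
    have : 0 ≤ Real.log N := Real.log_nonneg (by exact_mod_cast hN)
    nlinarith
  calc _ ≤ (1 + Real.log N) / N + (1 + Real.log N) / N := by linarith
    _ = _ := by ring

lemma off_gen (b : ℕ → ℝ) (K : ℕ) {s : ℝ} (hs : 0 < s) :
    ∑ N ∈ Ioc 0 K, ∑ M ∈ Ioc 0 K, (if N = M then 0 else
      |b N| * |b M| * (2 * Real.exp (-(Real.pi * ((N:ℝ) ^ 2 + (M:ℝ) ^ 2) * s)) / |(N:ℝ) ^ 2 - (M:ℝ) ^ 2|))
    ≤ 4 * ∑ N ∈ Ioc 0 K, b N ^ 2 * Real.exp (-(Real.pi * (N:ℝ) ^ 2 * s)) * (1 + Real.log N) / N := by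
  set r : ℕ → ℝ := fun N => b N ^ 2 * Real.exp (-(Real.pi * (N:ℝ) ^ 2 * s)) with hr
  set κ : ℕ → ℕ → ℝ := fun N M => (if N = M then 0 else 1 / |((N:ℝ)) ^ 2 - (M:ℝ) ^ 2|) with hκ
  have hκ0 : ∀ N M, 0 ≤ κ N M := by intro N M; rw [hκ]; simp only; split_ifs <;> positivity
  have hκs : ∀ N M, κ N M = κ M N := by
    intro N M
    rw [hκ]
    simp only
    rw [abs_sub_comm]
    by_cases h : N = M
    · rw [if_pos h, if_pos h.symm]
    · rw [if_neg h, if_neg (fun h' => h h'.symm)]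
  have hpt : ∀ N M : ℕ, (if N = M then 0 else
      |b N| * |b M| * (2 * Real.exp (-(Real.pi * ((N:ℝ) ^ 2 + (M:ℝ) ^ 2) * s)) / |(N:ℝ) ^ 2 - (M:ℝ) ^ 2|))
      ≤ r N * κ N M + r M * κ N M := by
    intro N M
    rw [hκ, hr]
    simp only
    split_ifs with h
    · simp
    · have e0 : Real.exp (-(Real.pi * ((N:ℝ) ^ 2 + (M:ℝ) ^ 2) * s)) =
          Real.exp (-(Real.pi * (N:ℝ) ^ 2 * s)) * Real.exp (-(Real.pi * (M:ℝ) ^ 2 * s)) := by
        rw [← Real.exp_add]; congr 1; ring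
      rw [e0]
      have hN1 : Real.exp (-(Real.pi * (N:ℝ) ^ 2 * s)) ≤ 1 := by
        apply Real.exp_le_one_iff.mpr
        have := Real.pi_pos
        have : 0 ≤ Real.pi * (N:ℝ) ^ 2 * s := by positivity
        linarith
      have hM1 : Real.exp (-(Real.pi * (M:ℝ) ^ 2 * s)) ≤ 1 := by
        apply Real.exp_le_one_iff.mpr
        have := Real.pi_pos
        have : 0 ≤ Real.pi * (M:ℝ) ^ 2 * s := by positivity
        linarith
      have hN2 := Real.exp_pos (-(Real.pi * (N:ℝ) ^ 2 * s))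
      have hM2 := Real.exp_pos (-(Real.pi * (M:ℝ) ^ 2 * s))
      set x := Real.exp (-(Real.pi * (N:ℝ) ^ 2 * s))
      set y := Real.exp (-(Real.pi * (M:ℝ) ^ 2 * s))
      have hk : 0 ≤ 1 / |((N:ℝ)) ^ 2 - (M:ℝ) ^ 2| := by positivity
      have key : |b N| * |b M| * (2 * (x * y)) ≤ b N ^ 2 * x + b M ^ 2 * y := by
        have h1 : 2 * (|b N| * |b M|) ≤ b N ^ 2 + b M ^ 2 := by
          rw [← sq_abs (b N), ← sq_abs (b M)]
          nlinarith [sq_nonneg (|b N| - |b M|)]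
        have h2 : 0 ≤ b N ^ 2 := sq_nonneg _
        have h3 : 0 ≤ b M ^ 2 := sq_nonneg _
        calc |b N| * |b M| * (2 * (x * y)) = 2 * (|b N| * |b M|) * (x * y) := by ring
          _ ≤ (b N ^ 2 + b M ^ 2) * (x * y) := by gcongr
          _ = b N ^ 2 * x * y + b M ^ 2 * y * x := by ring
          _ ≤ b N ^ 2 * x * 1 + b M ^ 2 * y * 1 := by gcongr
          _ = _ := by ring
      calc |b N| * |b M| * (2 * (x * y) / |(N:ℝ) ^ 2 - (M:ℝ) ^ 2|)
          = (|b N| * |b M| * (2 * (x * y))) * (1 / |((N:ℝ)) ^ 2 - (M:ℝ) ^ 2|) := by ring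
        _ ≤ (b N ^ 2 * x + b M ^ 2 * y) * (1 / |((N:ℝ)) ^ 2 - (M:ℝ) ^ 2|) := by gcongr
        _ = _ := by ring
  calc _ ≤ ∑ N ∈ Ioc 0 K, ∑ M ∈ Ioc 0 K, (r N * κ N M + r M * κ N M) :=
        sum_le_sum fun N _ => sum_le_sum fun M _ => hpt N M
    _ = ∑ N ∈ Ioc 0 K, ∑ M ∈ Ioc 0 K, r N * κ N M + ∑ N ∈ Ioc 0 K, ∑ M ∈ Ioc 0 K, r M * κ N M := by
        rw [← sum_add_distrib]
        refine sum_congr rfl fun N _ => by rw [sum_add_distrib]
    _ = 2 * ∑ N ∈ Ioc 0 K, ∑ M ∈ Ioc 0 K, r N * κ N M := by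
        rw [sum_comm (f := fun N M => r M * κ N M)]
        rw [two_mul]
        congr 1
        refine sum_congr rfl fun N _ => sum_congr rfl fun M _ => by rw [hκs]
    _ ≤ 2 * ∑ N ∈ Ioc 0 K, r N * (2 * (1 + Real.log N) / N) := by
        apply mul_le_mul_of_nonneg_left _ (by norm_num)
        refine sum_le_sum fun N hN => ?_
        rw [mem_Ioc] at hN
        rw [← mul_sum]
        apply mul_le_mul_of_nonneg_left (NL hN.1 K)
        rw [hr]; positivity
    _ = _ := by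
        rw [mul_sum, mul_sum]
        refine sum_congr rfl fun N _ => by rw [hr]; ring

/-- weights -/
lemma wt0 {s : ℝ} (hs : 0 < s) (hs1 : 1 ≤ Real.log (1 / s)) {N : ℕ} (hN : 0 < N) :
    Real.exp (-(Real.pi * (N:ℝ) ^ 2 * s)) ≤ Real.exp 1 * Real.exp (-(1 / Real.log (1 / s)) * Real.log N) := by
  set L := Real.log (1 / s) with hL
  have hN0 : (1:ℝ) ≤ N := by exact_mod_cast hN
  have hlN : 0 ≤ Real.log N := Real.log_nonneg hN0
  rw [← Real.exp_add]
  apply Real.exp_le_exp.mpr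
  have hpi := Real.pi_gt_three
  rcases le_or_gt (N:ℝ) (1 / s) with h | h
  · have h1 : Real.log N ≤ L := Real.log_le_log (by linarith) h
    have h2 : 1 / L * Real.log N ≤ 1 := by
      rw [div_mul_eq_mul_div, one_mul, div_le_one (by linarith)]; exact h1
    have h3 : 0 ≤ Real.pi * (N:ℝ) ^ 2 * s := by positivity
    linarith
  · have h1 : 1 < N * s := by rwa [div_lt_iff₀ hs] at h
    have h2 : 1 / L * Real.log N ≤ 1 * Real.log N := by
      gcongr
      rw [div_le_one (by linarith)]; exact hs1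
    have h3 : Real.log N ≤ N := by
      have := Real.log_le_sub_one_of_pos (show (0:ℝ) < N by linarith)
      linarith
    have h4 : (N:ℝ) ≤ Real.pi * (N:ℝ) ^ 2 * s := by
      have : (N:ℝ) * 1 ≤ N * (N * s) := by gcongr
      nlinarith
    linarith

lemma wt1 {s : ℝ} (hs : 0 < s) (hs1 : 1 ≤ Real.log (1 / s)) {N : ℕ} (hN : 0 < N) :
    (1 + Real.log N) * Real.exp (-(Real.pi * (N:ℝ) ^ 2 * s)) ≤
      Real.exp 1 * (1 + Real.log (1 / s)) * Real.exp (-(1 / Real.log (1 / s)) * Real.log N) := by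
  set L := Real.log (1 / s) with hL
  have hN0 : (1:ℝ) ≤ N := by exact_mod_cast hN
  have hlN : 0 ≤ Real.log N := Real.log_nonneg hN0
  have hpi := Real.pi_gt_three
  rcases le_or_gt (N:ℝ) (1 / s) with h | h
  · have h1 : Real.log N ≤ L := Real.log_le_log (by linarith) h
    have h2 := wt0 hs hs1 hN
    rw [← hL] at h2
    calc (1 + Real.log N) * Real.exp (-(Real.pi * (N:ℝ) ^ 2 * s)) ≤
        (1 + L) * (Real.exp 1 * Real.exp (-(1 / L) * Real.log N)) := by gcongr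
      _ = _ := by ring
  · have h1 : 1 < N * s := by rwa [div_lt_iff₀ hs] at h
    have h2 : 1 / L * Real.log N ≤ 1 * Real.log N := by
      gcongr
      rw [div_le_one (by linarith)]; exact hs1
    have h3 : 1 + Real.log N ≤ N := by
      have := Real.log_le_sub_one_of_pos (show (0:ℝ) < N by linarith)
      linarith
    have h4 : 3 * (N:ℝ) ≤ Real.pi * (N:ℝ) ^ 2 * s := by
      have : (N:ℝ) * 1 ≤ N * (N * s) := by gcongr
      nlinarith
    have h5 : Real.exp (Real.log (1 + Real.log N)) = 1 + Real.log N := Real.exp_log (by linarith)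
    calc (1 + Real.log N) * Real.exp (-(Real.pi * (N:ℝ) ^ 2 * s))
        ≤ Real.exp N * Real.exp (-(3 * N)) := by
          gcongr
          · have := Real.add_one_le_exp (N:ℝ); linarith
      _ = Real.exp (N - 3 * N) := by rw [← Real.exp_add]; ring_nf
      _ ≤ Real.exp (1 + -(1 / L) * Real.log N) := by
          apply Real.exp_le_exp.mpr
          linarith
      _ = Real.exp 1 * 1 * Real.exp (-(1 / L) * Real.log N) := by rw [Real.exp_add]; ring
      _ ≤ _ := by gcongr; linarith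

end Pool.Agent.Helper57.LH
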