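import Mathlib
import Pool.Agent.Helper57.LH.Off

namespace Pool.Agent.Helper57.LH

open Finset MeasureTheory

lemma L_le {s : ℝ} (hs : 0 < s) : Real.log (1 / s) ≤ 2 / Real.sqrt s := by
  have h1 : Real.log (1 / s) = 2 * Real.log (1 / Real.sqrt s) := by
    rw [one_div, one_div, Real.log_inv, Real.log_inv, Real.log_sqrt hs.le]; ring
  have h2 := Real.log_le_sub_one_of_pos (show 0 < 1 / Real.sqrt s by positivity)
  rw [h1]
  have : 2 / Real.sqrt s = 2 * (1 / Real.sqrt s) := by ring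
  rw [this]
  linarith

lemma half1_num {X s : ℝ} (hX : 3 ≤ X) (hs : 0 < s) (hs1 : 1 ≤ Real.log (1 / s)) (hXs : Real.log X ≤ Real.log (1 / s))
    (K : ℕ) :
    ∑ N ∈ Ioc 0 K, bmol X N ^ 2 * Real.exp (-(Real.pi * (N:ℝ) ^ 2 * s)) / (N * Real.sqrt s)
      + ∑ N ∈ Ioc 0 K, ∑ M ∈ Ioc 0 K, (if N = M then 0 else
        |bmol X N| * |bmol X M| * (2 * Real.exp (-(Real.pi * ((N:ℝ) ^ 2 + (M:ℝ) ^ 2) * s)) / |(N:ℝ) ^ 2 - (M:ℝ) ^ 2|))
    ≤ 34 * Real.exp 1 * CQ * Real.log (1 / s) / (Real.sqrt s * Real.log X) := by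
  set L := Real.log (1 / s) with hL
  have hlX : 0 < Real.log X := Real.log_pos (by linarith)
  have hL0 : 0 < L := by linarith
  have hsq : 0 < Real.sqrt s := Real.sqrt_pos.mpr hs
  have hCQ := CQ_pos
  have hb : ∑ N ∈ Ioc 0 K, bmol X N ^ 2 * ew (1 / L) N ≤ (1 + L) * (CQ / Real.log X) := by
    have := sum_bmol_sq_le (X := X) (ε := 1 / L) hX (by positivity) (by
      rw [div_mul_eq_mul_div, one_mul, div_le_one hL0]; exact hXs) K
    simpa using this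
  have hew : ∀ N : ℕ, 0 < N → Real.exp (-(1 / L) * Real.log N) / N = ew (1 / L) N := by
    intro N hN
    rw [ew_eq _ hN.ne']
  have h1 : ∑ N ∈ Ioc 0 K, bmol X N ^ 2 * Real.exp (-(Real.pi * (N:ℝ) ^ 2 * s)) / (N * Real.sqrt s)
      ≤ Real.exp 1 / Real.sqrt s * ((1 + L) * (CQ / Real.log X)) := by
    refine le_trans ?_ (mul_le_mul_of_nonneg_left hb (by positivity))
    rw [mul_sum]
    refine sum_le_sum fun N hN => ?_
    rw [mem_Ioc] at hN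
    have hN0 : (0:ℝ) < N := by exact_mod_cast hN.1
    rw [← hew N hN.1]
    have := wt0 hs hs1 hN.1
    rw [← hL] at this
    calc bmol X N ^ 2 * Real.exp (-(Real.pi * (N:ℝ) ^ 2 * s)) / (N * Real.sqrt s)
        ≤ bmol X N ^ 2 * (Real.exp 1 * Real.exp (-(1 / L) * Real.log N)) / (N * Real.sqrt s) := by gcongr
      _ = _ := by field_simp
  have h2 : ∑ N ∈ Ioc 0 K, ∑ M ∈ Ioc 0 K, (if N = M then 0 else
        |bmol X N| * |bmol X M| * (2 * Real.exp (-(Real.pi * ((N:ℝ) ^ 2 + (M:ℝ) ^ 2) * s)) / |(N:ℝ) ^ 2 - (M:ℝ) ^ 2|))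
      ≤ 4 * (Real.exp 1 * (1 + L)) * ((1 + L) * (CQ / Real.log X)) := by
    refine (off_gen (bmol X) K hs).trans ?_
    refine le_trans ?_ (mul_le_mul_of_nonneg_left hb (by positivity))
    rw [mul_sum, mul_sum]
    refine sum_le_sum fun N hN => ?_
    rw [mem_Ioc] at hN
    have hN0 : (0:ℝ) < N := by exact_mod_cast hN.1
    rw [← hew N hN.1]
    have := wt1 hs hs1 hN.1
    rw [← hL] at this
    calc 4 * (bmol X N ^ 2 * Real.exp (-(Real.pi * (N:ℝ) ^ 2 * s)) * (1 + Real.log N) / N)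
        = 4 * (bmol X N ^ 2 * ((1 + Real.log N) * Real.exp (-(Real.pi * (N:ℝ) ^ 2 * s))) / N) := by ring
      _ ≤ 4 * (bmol X N ^ 2 * (Real.exp 1 * (1 + L) * Real.exp (-(1 / L) * Real.log N)) / N) := by gcongr
      _ = _ := by ring
  have h3 : L ≤ 2 / Real.sqrt s := L_le hs
  have h4 : 1 + L ≤ 2 * L := by linarith
  have h5 : 4 * (1 + L) ≤ 16 / Real.sqrt s := by
    have : 16 / Real.sqrt s = 8 * (2 / Real.sqrt s) := by ring
    rw [this]; linarith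
  calc _ ≤ Real.exp 1 / Real.sqrt s * ((1 + L) * (CQ / Real.log X)) +
        4 * (Real.exp 1 * (1 + L)) * ((1 + L) * (CQ / Real.log X)) := add_le_add h1 h2
    _ = Real.exp 1 * ((1 + L) * (CQ / Real.log X)) * (1 / Real.sqrt s + 4 * (1 + L)) := by ring
    _ ≤ Real.exp 1 * ((2 * L) * (CQ / Real.log X)) * (1 / Real.sqrt s + 16 / Real.sqrt s) := by gcongr
    _ = _ := by field_simp; ring

open Complex in
/-- truncated first half -/
theorem half1_fin {X : ℝ} {z : ℂ} (hX : 3 ≤ X) (hz : 0 < z.re) (hzi : 1 / 2 ≤ |z.im|)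
    (hs1 : 1 ≤ Real.log (1 / z.re)) (hXs : Real.log X ≤ Real.log (1 / z.re)) (K : ℕ) :
    IntegrableOn (fun x : ℝ => x ^ (-(1/2) : ℝ) *
      ‖∑ N ∈ Ioc 0 K, (bmol X N : ℂ) * cexp (-(Real.pi * (((N:ℝ)) : ℂ) ^ 2 * x * z))‖ ^ 2) (Set.Ioi 1) ∧
    ∫ x in Set.Ioi (1:ℝ), x ^ (-(1/2) : ℝ) *
      ‖∑ N ∈ Ioc 0 K, (bmol X N : ℂ) * cexp (-(Real.pi * (((N:ℝ)) : ℂ) ^ 2 * x * z))‖ ^ 2
      ≤ 34 * Real.exp 1 * CQ * Real.log (1 / z.re) / (Real.sqrt z.re * Real.log X) := by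
  have h := L2_fin (Ioc 0 K) (fun N : ℕ => (N:ℝ)) (bmol X) z hz hzi
    (fun i hi => by rw [mem_Ioc] at hi; exact_mod_cast hi.1)
    (fun i _ j _ hij => by exact_mod_cast hij)
  exact ⟨h.1, h.2.trans (half1_num hX hz hs1 hXs K)⟩

end Pool.Agent.Helper57.LH
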