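import Mathlib
import Pool.Agent.Helper57.LH.Half1

namespace Pool.Agent.Helper57.LH

open Finset MeasureTheory

/-- reduced fractions p/q, stored as (q,p) -/
def Iq (X0 K : ℕ) : Finset (ℕ × ℕ) :=
  (Ioc 0 X0 ×ˢ Ioc 0 (K * X0)).filter (fun i => i.2 ≤ K * i.1 ∧ Nat.Coprime i.2 i.1)

lemma mem_Iq {X0 K : ℕ} {i : ℕ × ℕ} : i ∈ Iq X0 K ↔
    (0 < i.1 ∧ i.1 ≤ X0) ∧ (0 < i.2 ∧ i.2 ≤ K * X0) ∧ i.2 ≤ K * i.1 ∧ Nat.Coprime i.2 i.1 := by
  unfold Iq
  simp only [mem_filter, mem_product, mem_Ioc]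
  tauto

lemma regroup_one (F : ℝ → ℂ) (X0 K : ℕ) {h : ℕ} (hh : h ∈ Ioc 0 X0) :
    ∑ n ∈ Ioc 0 (K * h), F ((n:ℝ) / h) = ∑ i ∈ (Iq X0 K).filter (fun i => i.1 ∣ h), F ((i.2:ℝ) / i.1) := by
  rw [mem_Ioc] at hh
  obtain ⟨h0, hX⟩ := hh
  apply Finset.sum_nbij' (fun n => (h / Nat.gcd n h, n / Nat.gcd n h)) (fun i => i.2 * (h / i.1))
  · intro n hn
    rw [mem_Ioc] at hn
    have hg : 0 < Nat.gcd n h := Nat.gcd_pos_of_pos_left _ hn.1
    have hgh : Nat.gcd n h ∣ h := Nat.gcd_dvd_right _ _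
    have hgn : Nat.gcd n h ∣ n := Nat.gcd_dvd_left _ _
    have hq0 : 0 < h / Nat.gcd n h := Nat.div_pos (Nat.le_of_dvd h0 hgh) hg
    have hp0 : 0 < n / Nat.gcd n h := Nat.div_pos (Nat.le_of_dvd hn.1 hgn) hg
    have hqX : h / Nat.gcd n h ≤ X0 := (Nat.div_le_self _ _).trans hX
    have hpK : n / Nat.gcd n h ≤ K * (h / Nat.gcd n h) := by
      rw [← Nat.mul_div_assoc _ hgh]
      exact Nat.div_le_div_right hn.2
    rw [mem_filter, mem_Iq]
    refine ⟨⟨⟨hq0, hqX⟩, ⟨hp0, ?_⟩, hpK, Nat.coprime_div_gcd_div_gcd hg⟩, Nat.div_dvd_of_dvd hgh⟩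
    exact hpK.trans (Nat.mul_le_mul_left _ hqX)
  · intro i hi
    rw [mem_filter, mem_Iq] at hi
    obtain ⟨⟨⟨hq0, hqX⟩, ⟨hp0, hp1⟩, hpK, hc⟩, hd⟩ := hi
    rw [mem_Ioc]
    refine ⟨Nat.mul_pos hp0 (Nat.div_pos (Nat.le_of_dvd h0 hd) hq0), ?_⟩
    calc i.2 * (h / i.1) ≤ (K * i.1) * (h / i.1) := Nat.mul_le_mul_right _ hpK
      _ = K * (i.1 * (h / i.1)) := by ring
      _ = K * h := by rw [Nat.mul_div_cancel' hd]
  · intro n hn
    rw [mem_Ioc] at hn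
    have hg : 0 < Nat.gcd n h := Nat.gcd_pos_of_pos_left _ hn.1
    have hgh : Nat.gcd n h ∣ h := Nat.gcd_dvd_right _ _
    have hgn : Nat.gcd n h ∣ n := Nat.gcd_dvd_left _ _
    simp only
    rw [Nat.div_div_self hgh h0.ne', Nat.div_mul_cancel hgn]
  · intro i hi
    rw [mem_filter, mem_Iq] at hi
    obtain ⟨⟨⟨hq0, hqX⟩, ⟨hp0, hp1⟩, hpK, hc⟩, hd⟩ := hi
    obtain ⟨m, rfl⟩ := hd
    have hm : 0 < m := Nat.pos_of_mul_pos_left h0 |> fun _ => by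
      rcases Nat.eq_zero_or_pos m with rfl | h
      · simp at h0
      · exact h
    have e1 : i.1 * m / i.1 = m := Nat.mul_div_cancel_left _ hq0
    have e2 : Nat.gcd (i.2 * m) (i.1 * m) = m := by
      rw [Nat.gcd_mul_right, hc, one_mul]
    rw [e1, e2, Nat.mul_div_cancel _ hm, Nat.mul_div_cancel _ hm]
  · intro n hn
    rw [mem_Ioc] at hn
    have hg : 0 < Nat.gcd n h := Nat.gcd_pos_of_pos_left _ hn.1
    have hgh : Nat.gcd n h ∣ h := Nat.gcd_dvd_right _ _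
    have hgn : Nat.gcd n h ∣ n := Nat.gcd_dvd_left _ _
    congr 1
    simp only
    have hgR : ((Nat.gcd n h : ℕ) : ℝ) ≠ 0 := by exact_mod_cast hg.ne'
    rw [Nat.cast_div hgn hgR, Nat.cast_div hgh hgR]
    have : (h:ℝ) ≠ 0 := by exact_mod_cast h0.ne'
    field_simp

lemma regroup (w : ℕ → ℂ) (F : ℝ → ℂ) (X0 K : ℕ) :
    ∑ h ∈ Ioc 0 X0, w h * ∑ n ∈ Ioc 0 (K * h), F ((n:ℝ) / h) =
      ∑ i ∈ Iq X0 K, (∑ h ∈ (Ioc 0 X0).filter (fun h => i.1 ∣ h), w h) * F ((i.2:ℝ) / i.1) := by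
  have h1 : ∀ i ∈ Iq X0 K, (∑ h ∈ (Ioc 0 X0).filter (fun h => i.1 ∣ h), w h) * F ((i.2:ℝ) / i.1)
      = ∑ h ∈ Ioc 0 X0, (if i.1 ∣ h then w h * F ((i.2:ℝ) / i.1) else 0) := by
    intro i _
    rw [sum_filter, sum_mul]
    refine sum_congr rfl fun h _ => ?_
    split_ifs <;> simp
  rw [sum_congr rfl h1, sum_comm]
  refine sum_congr rfl fun h hh => ?_
  rw [regroup_one F X0 K hh, mul_sum, sum_filter]

lemma Iq_inj {X0 K : ℕ} : ∀ i ∈ Iq X0 K, ∀ j ∈ Iq X0 K, i ≠ j → i.2 * j.1 ≠ j.2 * i.1 := by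
  intro i hi j hj hij h
  rw [mem_Iq] at hi hj
  obtain ⟨⟨hq0, _⟩, ⟨hp0, _⟩, _, hc⟩ := hi
  obtain ⟨⟨hq0', _⟩, ⟨hp0', _⟩, _, hc'⟩ := hj
  apply hij
  have h1 : i.1 ∣ j.1 := by
    have : i.1 ∣ i.2 * j.1 := by rw [h]; exact dvd_mul_left _ _
    exact (Nat.Coprime.dvd_of_dvd_mul_left hc.symm this)
  have h2 : j.1 ∣ i.1 := by
    have : j.1 ∣ j.2 * i.1 := by rw [← h]; exact dvd_mul_left _ _
    exact (Nat.Coprime.dvd_of_dvd_mul_left hc'.symm this)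
  have h3 := Nat.dvd_antisymm h1 h2
  have h4 : i.2 = j.2 := by
    rw [h3] at h
    exact Nat.eq_of_mul_eq_mul_right hq0' h
  exact Prod.ext h3 h4

lemma sum_mul_le {φ : ℕ → ℝ} (hφ : ∀ n, 0 ≤ φ n) {c P X0 : ℕ} (hc : 0 < c) (hcX : c ≤ X0) :
    ∑ p ∈ Ioc 0 P, φ (p * c) ≤ ∑ A ∈ Ioc 0 (P * X0), φ A := by
  have hinj : Set.InjOn (fun p : ℕ => p * c) (Ioc 0 P : Finset ℕ) := by
    intro a _ b _ h
    exact Nat.eq_of_mul_eq_mul_right hc h
  rw [← sum_image (f := φ) hinj]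
  apply sum_le_sum_of_subset_of_nonneg
  · intro A hA
    rw [mem_image] at hA
    obtain ⟨p, hp, rfl⟩ := hA
    rw [mem_Ioc] at hp ⊢
    exact ⟨Nat.mul_pos hp.1 hc, Nat.mul_le_mul hp.2 hcX⟩
  · intros; exact hφ _

/-- the sum with unit coefficients -/
lemma unit_off {s : ℝ} (hs : 0 < s) (hs1 : 1 ≤ Real.log (1 / s)) (K : ℕ) :
    ∑ N ∈ Ioc 0 K, ∑ M ∈ Ioc 0 K, (if N = M then 0 else
      (2 * Real.exp (-(Real.pi * ((N:ℝ) ^ 2 + (M:ℝ) ^ 2) * s)) / |(N:ℝ) ^ 2 - (M:ℝ) ^ 2|))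
    ≤ 4 * Real.exp 1 * (1 + Real.log (1 / s)) ^ 2 := by
  have h := off_gen (fun _ => 1) K hs
  simp only [abs_one, one_mul, one_pow] at h
  refine h.trans ?_
  set L := Real.log (1 / s) with hL
  have hL0 : 0 < L := by linarith
  have h2 := sum_ew_le (ε := 1 / L) (by positivity) K
  have h3 : ∑ N ∈ Ioc 0 K, Real.exp (-(Real.pi * (N:ℝ) ^ 2 * s)) * (1 + Real.log N) / N
      ≤ Real.exp 1 * (1 + L) * ∑ n ∈ Ioc 0 K, ew (1 / L) n := by
    rw [mul_sum]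
    refine sum_le_sum fun N hN => ?_
    rw [mem_Ioc] at hN
    have hN0 : (0:ℝ) < N := by exact_mod_cast hN.1
    rw [ew_eq _ hN.1.ne']
    have := wt1 hs hs1 hN.1
    rw [← hL] at this
    calc Real.exp (-(Real.pi * (N:ℝ) ^ 2 * s)) * (1 + Real.log N) / N
        = ((1 + Real.log N) * Real.exp (-(Real.pi * (N:ℝ) ^ 2 * s))) / N := by ring
      _ ≤ (Real.exp 1 * (1 + L) * Real.exp (-(1 / L) * Real.log N)) / N := by gcongr
      _ = _ := by ring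
  calc _ ≤ 4 * (Real.exp 1 * (1 + L) * ∑ n ∈ Ioc 0 K, ew (1 / L) n) := by linarith
    _ ≤ 4 * (Real.exp 1 * (1 + L) * (1 + 1 / (1 / L))) := by gcongr
    _ = _ := by rw [one_div_one_div]; ring

lemma abs_yq_le_X {X : ℝ} (hX : 1 < X) (q : ℕ) : |yq X 0 q| ≤ X := by
  unfold yq
  calc |∑ h ∈ (Ioc 0 ⌊X⌋₊).filter (fun h => q ∣ h), amol X h * ew 0 h|
      ≤ ∑ h ∈ (Ioc 0 ⌊X⌋₊).filter (fun h => q ∣ h), |amol X h * ew 0 h| := abs_sum_le_sum_abs _ _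
    _ ≤ ∑ h ∈ (Ioc 0 ⌊X⌋₊).filter (fun h => q ∣ h), (1:ℝ) := by
        refine sum_le_sum fun h hh => ?_
        rw [mem_filter, mem_Ioc] at hh
        rw [abs_mul, abs_of_pos (ew_pos _ _)]
        have h1 := abs_amol_le hX h
        have h2 := ew_le (le_refl (0:ℝ)) hh.1.1.ne'
        have h3 : (1:ℝ) / h ≤ 1 := by
          rw [div_le_one (by exact_mod_cast hh.1.1)]
          exact_mod_cast hh.1.1
        have h4 := ew_pos 0 h
        nlinarith [abs_nonneg (amol X h)]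
    _ ≤ ∑ h ∈ Ioc 0 ⌊X⌋₊, (1:ℝ) := sum_le_sum_of_subset_of_nonneg (filter_subset _ _) (fun _ _ _ => zero_le_one)
    _ = ⌊X⌋₊ := by simp
    _ ≤ X := Nat.floor_le (by linarith)

lemma half2_diag {X s : ℝ} (hX : 3 ≤ X) (hs : 0 < s) (hs1 : 1 ≤ Real.log (1 / s)) (hXs : Real.log X ≤ Real.log (1 / s))
    (K : ℕ) :
    ∑ i ∈ Iq ⌊X⌋₊ K, yq X 0 i.1 ^ 2 * Real.exp (-(Real.pi * ((i.2:ℝ) / i.1) ^ 2 * s)) / ((i.2:ℝ) / i.1 * Real.sqrt s)
    ≤ 4 * Real.exp 1 * CQ * Real.log (1 / s) / (Real.sqrt s * Real.log X) := by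
  set L := Real.log (1 / s) with hL
  have hlX : 0 < Real.log X := Real.log_pos (by linarith)
  have hX0 : 0 < X := by linarith
  have hL0 : 0 < L := by linarith
  have hsq : 0 < Real.sqrt s := Real.sqrt_pos.mpr hs
  have hCQ := CQ_pos
  calc ∑ i ∈ Iq ⌊X⌋₊ K, yq X 0 i.1 ^ 2 * Real.exp (-(Real.pi * ((i.2:ℝ) / i.1) ^ 2 * s)) / ((i.2:ℝ) / i.1 * Real.sqrt s)
      ≤ ∑ i ∈ Ioc 0 ⌊X⌋₊ ×ˢ Ioc 0 (K * ⌊X⌋₊), yq X 0 i.1 ^ 2 * Real.exp (-(Real.pi * ((i.2:ℝ) / i.1) ^ 2 * s)) / ((i.2:ℝ) / i.1 * Real.sqrt s) := by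
        apply sum_le_sum_of_subset_of_nonneg (filter_subset _ _)
        intro i _ _
        positivity
    _ = ∑ q ∈ Ioc 0 ⌊X⌋₊, ∑ p ∈ Ioc 0 (K * ⌊X⌋₊), yq X 0 q ^ 2 * Real.exp (-(Real.pi * ((p:ℝ) / q) ^ 2 * s)) / ((p:ℝ) / q * Real.sqrt s) := by
        rw [sum_product]
    _ ≤ ∑ q ∈ Ioc 0 ⌊X⌋₊, (4 * Real.exp 1 * L / Real.sqrt s) * ((q:ℝ) * Real.exp (0 * Real.log q) * yq X 0 q ^ 2) := by
        refine sum_le_sum fun q hq => ?_
        rw [mem_Ioc] at hq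
        have hq0 : (0:ℝ) < q := by exact_mod_cast hq.1
        have hq1 : (1:ℝ) ≤ q := by exact_mod_cast hq.1
        have hqX : (q:ℝ) ≤ X := by
          have := Nat.floor_le hX0.le
          have h2 : (q:ℝ) ≤ ⌊X⌋₊ := by exact_mod_cast hq.2
          linarith
        set s' := s / (q:ℝ) ^ 2 with hs'
        have hs'0 : 0 < s' := by positivity
        have hL' : Real.log (1 / s') = L + 2 * Real.log q := by
          rw [hs', one_div_div, Real.log_div (by positivity) hs.ne', Real.log_pow, hL, one_div, Real.log_inv]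
          push_cast; ring
        have hlq : 0 ≤ Real.log q := Real.log_nonneg hq1
        have hlq2 : Real.log q ≤ L := (Real.log_le_log hq0 hqX).trans hXs
        have hs'1 : 1 ≤ Real.log (1 / s') := by rw [hL']; linarith
        set L' := Real.log (1 / s') with hL'def
        have hL'0 : 0 < L' := by linarith
        have hsum := sum_ew_le (ε := 1 / L') (by positivity) (K * ⌊X⌋₊)
        rw [one_div_one_div] at hsum
        have hbd : ∑ p ∈ Ioc 0 (K * ⌊X⌋₊), yq X 0 q ^ 2 * Real.exp (-(Real.pi * ((p:ℝ) / q) ^ 2 * s)) / ((p:ℝ) / q * Real.sqrt s)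
            ≤ (yq X 0 q ^ 2 * q / Real.sqrt s * Real.exp 1) * ∑ n ∈ Ioc 0 (K * ⌊X⌋₊), ew (1 / L') n := by
          rw [mul_sum]
          refine sum_le_sum fun p hp => ?_
          rw [mem_Ioc] at hp
          have hp0 : (0:ℝ) < p := by exact_mod_cast hp.1
          have hw := wt0 hs'0 hs'1 hp.1
          rw [← hL'def] at hw
          have e : Real.pi * ((p:ℝ) / q) ^ 2 * s = Real.pi * (p:ℝ) ^ 2 * s' := by
            rw [hs']; field_simp
          rw [e, ew_eq _ hp.1.ne']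
          calc yq X 0 q ^ 2 * Real.exp (-(Real.pi * (p:ℝ) ^ 2 * s')) / ((p:ℝ) / q * Real.sqrt s)
              ≤ yq X 0 q ^ 2 * (Real.exp 1 * Real.exp (-(1 / L') * Real.log p)) / ((p:ℝ) / q * Real.sqrt s) := by gcongr
            _ = _ := by field_simp
        refine hbd.trans ?_
        calc (yq X 0 q ^ 2 * q / Real.sqrt s * Real.exp 1) * ∑ n ∈ Ioc 0 (K * ⌊X⌋₊), ew (1 / L') n
            ≤ (yq X 0 q ^ 2 * q / Real.sqrt s * Real.exp 1) * (4 * L) := by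
              gcongr
              linarith
          _ = _ := by
              rw [zero_mul, Real.exp_zero]
              ring
    _ = (4 * Real.exp 1 * L / Real.sqrt s) * ∑ q ∈ Ioc 0 ⌊X⌋₊, ((q:ℝ) * Real.exp (0 * Real.log q) * yq X 0 q ^ 2) := by
        rw [mul_sum]
    _ ≤ (4 * Real.exp 1 * L / Real.sqrt s) * (CQ / Real.log X) := by
        gcongr
        exact QF_le hX le_rfl (by simp)
    _ = _ := by field_simp

lemma half2_off {X s : ℝ} (hX : 3 ≤ X) (hs : 0 < s) (hXs : 20 * Real.log X ≤ Real.log (1 / s))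
    (K : ℕ) :
    ∑ i ∈ Iq ⌊X⌋₊ K, ∑ j ∈ Iq ⌊X⌋₊ K, (if i = j then 0 else
        |yq X 0 i.1| * |yq X 0 j.1| * (2 * Real.exp (-(Real.pi * (((i.2:ℝ) / i.1) ^ 2 + ((j.2:ℝ) / j.1) ^ 2) * s)) /
          |((i.2:ℝ) / i.1) ^ 2 - ((j.2:ℝ) / j.1) ^ 2|))
    ≤ Real.exp 1 * CQ * Real.log (1 / s) / (Real.sqrt s * Real.log X) := by
  set L := Real.log (1 / s) with hL
  have hX0 : 0 < X := by linarith
  have hlX : 1 ≤ Real.log X := by
    rw [Real.le_log_iff_exp_le (by linarith)]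
    have := Real.exp_one_lt_d9
    linarith
  have hL20 : 20 ≤ L := by linarith
  have hL0 : 0 < L := by linarith
  have hsq : 0 < Real.sqrt s := Real.sqrt_pos.mpr hs
  have hCQ := CQ_pos
  set X0 := ⌊X⌋₊ with hX0def
  have hX0X : (X0:ℝ) ≤ X := Nat.floor_le hX0.le
  set P := K * X0 with hP
  -- kernel for fixed denominators
  have hker : ∀ q ∈ Ioc 0 X0, ∀ q' ∈ Ioc 0 X0,
      ∑ p ∈ Ioc 0 P, ∑ p' ∈ Ioc 0 P, (if p * q' = p' * q then 0 else
        (2 * Real.exp (-(Real.pi * (((p:ℝ) / q) ^ 2 + ((p':ℝ) / q') ^ 2) * s)) /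
          |((p:ℝ) / q) ^ 2 - ((p':ℝ) / q') ^ 2|)) ≤ X ^ 4 * (144 * Real.exp 1 * L ^ 2) := by
    intro q hq q' hq'
    rw [mem_Ioc] at hq hq'
    have hq0 : (0:ℝ) < q := by exact_mod_cast hq.1
    have hq1 : (1:ℝ) ≤ q := by exact_mod_cast hq.1
    have hq0' : (0:ℝ) < q' := by exact_mod_cast hq'.1
    have hq1' : (1:ℝ) ≤ q' := by exact_mod_cast hq'.1
    have hqX : (q:ℝ) ≤ X := by
      have h2 : (q:ℝ) ≤ X0 := by exact_mod_cast hq.2
      linarith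
    have hqX' : (q':ℝ) ≤ X := by
      have h2 : (q':ℝ) ≤ X0 := by exact_mod_cast hq'.2
      linarith
    set D : ℝ := q * q' with hD
    have hD0 : 0 < D := by positivity
    set s' := s / D ^ 2 with hs'
    have hs'0 : 0 < s' := by positivity
    have hL' : Real.log (1 / s') = L + 2 * (Real.log q + Real.log q') := by
      rw [hs', one_div_div, Real.log_div (by positivity) hs.ne', Real.log_pow, hD,
        Real.log_mul hq0.ne' hq0'.ne', hL, one_div, Real.log_inv]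
      push_cast; ring
    have hlq : 0 ≤ Real.log q := Real.log_nonneg hq1
    have hlq' : 0 ≤ Real.log q' := Real.log_nonneg hq1'
    have hlq2 : Real.log q ≤ Real.log X := (Real.log_le_log hq0 hqX)
    have hlq2' : Real.log q' ≤ Real.log X := (Real.log_le_log hq0' hqX')
    have hs'1 : 1 ≤ Real.log (1 / s') := by rw [hL']; linarith
    have hL'5 : Real.log (1 / s') ≤ 5 * L := by rw [hL']; linarith
    set G : ℕ → ℕ → ℝ := fun A B => (if A = B then 0 else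
      D ^ 2 * (2 * Real.exp (-(Real.pi * ((A:ℝ) ^ 2 + (B:ℝ) ^ 2) * s')) / |(A:ℝ) ^ 2 - (B:ℝ) ^ 2|)) with hG
    have hG0 : ∀ A B, 0 ≤ G A B := by intro A B; rw [hG]; simp only; split_ifs <;> positivity
    have hterm : ∀ p p' : ℕ, (if p * q' = p' * q then 0 else
        (2 * Real.exp (-(Real.pi * (((p:ℝ) / q) ^ 2 + ((p':ℝ) / q') ^ 2) * s)) /
          |((p:ℝ) / q) ^ 2 - ((p':ℝ) / q') ^ 2|)) = G (p * q') (p' * q) := by
      intro p p'
      rw [hG]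
      simp only
      split_ifs with h
      · rfl
      · have e1 : ((p:ℝ) / q) ^ 2 + ((p':ℝ) / q') ^ 2 = (((p * q' : ℕ) : ℝ) ^ 2 + ((p' * q : ℕ) : ℝ) ^ 2) / D ^ 2 := by
          rw [hD]; push_cast; field_simp
        have e2 : ((p:ℝ) / q) ^ 2 - ((p':ℝ) / q') ^ 2 = (((p * q' : ℕ) : ℝ) ^ 2 - ((p' * q : ℕ) : ℝ) ^ 2) / D ^ 2 := by
          rw [hD]; push_cast; field_simp
        rw [e1, e2, abs_div, abs_of_pos (show 0 < D ^ 2 by positivity)]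
        rw [show Real.pi * ((((p * q' : ℕ) : ℝ) ^ 2 + ((p' * q : ℕ) : ℝ) ^ 2) / D ^ 2) * s =
          Real.pi * (((p * q' : ℕ) : ℝ) ^ 2 + ((p' * q : ℕ) : ℝ) ^ 2) * s' by rw [hs']; ring]
        rw [div_div_eq_mul_div]
        ring
    calc ∑ p ∈ Ioc 0 P, ∑ p' ∈ Ioc 0 P, (if p * q' = p' * q then 0 else
        (2 * Real.exp (-(Real.pi * (((p:ℝ) / q) ^ 2 + ((p':ℝ) / q') ^ 2) * s)) /
          |((p:ℝ) / q) ^ 2 - ((p':ℝ) / q') ^ 2|))
        = ∑ p ∈ Ioc 0 P, ∑ p' ∈ Ioc 0 P, G (p * q') (p' * q) :=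
          sum_congr rfl fun p _ => sum_congr rfl fun p' _ => hterm p p'
      _ ≤ ∑ p ∈ Ioc 0 P, ∑ B ∈ Ioc 0 (P * X0), G (p * q') B :=
          sum_le_sum fun p _ => sum_mul_le (φ := fun B => G (p * q') B) (fun B => hG0 _ _) hq.1 hq.2
      _ ≤ ∑ A ∈ Ioc 0 (P * X0), ∑ B ∈ Ioc 0 (P * X0), G A B :=
          sum_mul_le (φ := fun A => ∑ B ∈ Ioc 0 (P * X0), G A B)
            (fun A => sum_nonneg fun B _ => hG0 _ _) hq'.1 hq'.2
      _ = D ^ 2 * ∑ A ∈ Ioc 0 (P * X0), ∑ B ∈ Ioc 0 (P * X0), (if A = B then 0 else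
          (2 * Real.exp (-(Real.pi * ((A:ℝ) ^ 2 + (B:ℝ) ^ 2) * s')) / |(A:ℝ) ^ 2 - (B:ℝ) ^ 2|)) := by
          rw [mul_sum]
          refine sum_congr rfl fun A _ => ?_
          rw [mul_sum]
          refine sum_congr rfl fun B _ => ?_
          rw [hG]
          simp only
          split_ifs <;> simp
      _ ≤ D ^ 2 * (4 * Real.exp 1 * (1 + Real.log (1 / s')) ^ 2) := by
          gcongr
          exact unit_off hs'0 hs'1 _
      _ ≤ X ^ 4 * (4 * Real.exp 1 * (6 * L) ^ 2) := by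
          have hDX : D ^ 2 ≤ X ^ 4 := by
            have : D ≤ X * X := by rw [hD]; gcongr
            calc D ^ 2 ≤ (X * X) ^ 2 := by gcongr
              _ = X ^ 4 := by ring
          have h6 : 1 + Real.log (1 / s') ≤ 6 * L := by linarith
          gcongr
      _ = _ := by ring
  -- total
  have htot : ∑ i ∈ Iq X0 K, ∑ j ∈ Iq X0 K, (if i = j then 0 else
        |yq X 0 i.1| * |yq X 0 j.1| * (2 * Real.exp (-(Real.pi * (((i.2:ℝ) / i.1) ^ 2 + ((j.2:ℝ) / j.1) ^ 2) * s)) /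
          |((i.2:ℝ) / i.1) ^ 2 - ((j.2:ℝ) / j.1) ^ 2|)) ≤ X ^ 8 * (144 * Real.exp 1 * L ^ 2) := by
    set T : ℕ × ℕ → ℕ × ℕ → ℝ := fun i j => X * X * (if i.2 * j.1 = j.2 * i.1 then 0 else
        (2 * Real.exp (-(Real.pi * (((i.2:ℝ) / i.1) ^ 2 + ((j.2:ℝ) / j.1) ^ 2) * s)) /
          |((i.2:ℝ) / i.1) ^ 2 - ((j.2:ℝ) / j.1) ^ 2|)) with hT
    have hT0 : ∀ i j, 0 ≤ T i j := by
      intro i j; rw [hT]; simp only
      apply mul_nonneg (by positivity)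
      split_ifs <;> positivity
    have hle : ∀ i ∈ Iq X0 K, ∀ j ∈ Iq X0 K, (if i = j then 0 else
        |yq X 0 i.1| * |yq X 0 j.1| * (2 * Real.exp (-(Real.pi * (((i.2:ℝ) / i.1) ^ 2 + ((j.2:ℝ) / j.1) ^ 2) * s)) /
          |((i.2:ℝ) / i.1) ^ 2 - ((j.2:ℝ) / j.1) ^ 2|)) ≤ T i j := by
      intro i hi j hj
      split_ifs with h
      · exact hT0 _ _
      · rw [hT]
        simp only
        rw [if_neg (Iq_inj i hi j hj h)]
        have hy1 := abs_yq_le_X (show 1 < X by linarith) i.1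
        have hy2 := abs_yq_le_X (show 1 < X by linarith) j.1
        gcongr
    calc _ ≤ ∑ i ∈ Iq X0 K, ∑ j ∈ Iq X0 K, T i j := sum_le_sum fun i hi => sum_le_sum fun j hj => hle i hi j hj
      _ ≤ ∑ i ∈ Ioc 0 X0 ×ˢ Ioc 0 P, ∑ j ∈ Ioc 0 X0 ×ˢ Ioc 0 P, T i j := by
          refine (sum_le_sum_of_subset_of_nonneg (filter_subset _ _) ?_).trans ?_
          · intro i _ _; exact sum_nonneg fun j _ => hT0 _ _
          · refine sum_le_sum fun i _ => ?_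
            exact sum_le_sum_of_subset_of_nonneg (filter_subset _ _) (fun j _ _ => hT0 _ _)
      _ = ∑ q ∈ Ioc 0 X0, ∑ q' ∈ Ioc 0 X0, ∑ p ∈ Ioc 0 P, ∑ p' ∈ Ioc 0 P, T (q, p) (q', p') := by
          rw [sum_product]
          refine sum_congr rfl fun q _ => ?_
          rw [sum_comm]
          rw [sum_product]
          refine sum_congr rfl fun q' _ => ?_
          rw [sum_comm]
      _ ≤ ∑ q ∈ Ioc 0 X0, ∑ q' ∈ Ioc 0 X0, X * X * (X ^ 4 * (144 * Real.exp 1 * L ^ 2)) := by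
          refine sum_le_sum fun q hq => sum_le_sum fun q' hq' => ?_
          have := hker q hq q' hq'
          rw [hT]
          simp only
          simp_rw [← mul_sum]
          gcongr
      _ = X0 * (X0 * (X * X * (X ^ 4 * (144 * Real.exp 1 * L ^ 2)))) := by simp
      _ ≤ X * (X * (X * X * (X ^ 4 * (144 * Real.exp 1 * L ^ 2)))) := by gcongr
      _ = _ := by ring
  refine htot.trans ?_
  have hX8 : X ^ 8 ≤ Real.exp (2 / 5 * L) := by
    have : X ^ 8 = Real.exp (8 * Real.log X) := by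
      rw [show (8:ℝ) * Real.log X = ((8:ℕ):ℝ) * Real.log X by norm_num, Real.exp_nat_mul, Real.exp_log hX0]
    rw [this]
    apply Real.exp_le_exp.mpr
    linarith
  have hL2 : L ^ 2 ≤ 400 * Real.exp (1 / 10 * L) := by
    have h1 := Real.add_one_le_exp (L / 20)
    have h2 : L ≤ 20 * Real.exp (L / 20) := by linarith
    calc L ^ 2 ≤ (20 * Real.exp (L / 20)) ^ 2 := by gcongr
      _ = 400 * Real.exp (1 / 10 * L) := by
          rw [mul_pow, ← Real.exp_nat_mul]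
          congr 1
          · norm_num
          · congr 1; push_cast; ring
  have hsqrt : Real.exp (1 / 2 * L) = 1 / Real.sqrt s := by
    rw [hL, one_div s, Real.log_inv]
    rw [show 1 / 2 * -Real.log s = -Real.log (Real.sqrt s) by rw [Real.log_sqrt hs.le]; ring, Real.exp_neg,
      Real.exp_log hsq, one_div]
  have hCQ2 : 57600 ≤ CQ := by
    unfold CQ
    have h1 : 1 ≤ Real.exp 1 := Real.one_le_exp (by norm_num)
    have h6 : (2:ℝ) ≤ Real.exp 6 := by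
      have := Real.add_one_le_exp (6:ℝ); linarith
    calc (57600:ℝ) ≤ 128 ^ 2 * 1 * 2 * 2 := by norm_num
      _ ≤ _ := by gcongr
  have hfin : 1 ≤ L / Real.log X := by rw [le_div_iff₀ (by linarith)]; linarith
  calc X ^ 8 * (144 * Real.exp 1 * L ^ 2) ≤ Real.exp (2 / 5 * L) * (144 * Real.exp 1 * (400 * Real.exp (1 / 10 * L))) := by gcongr
    _ = 57600 * Real.exp 1 * (Real.exp (2 / 5 * L) * Real.exp (1 / 10 * L)) := by ring
    _ = 57600 * Real.exp 1 * (1 / Real.sqrt s) := by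
        rw [← Real.exp_add, ← hsqrt]; congr 2; ring
    _ ≤ CQ * Real.exp 1 * (1 / Real.sqrt s) * 1 := by rw [mul_one]; gcongr
    _ ≤ CQ * Real.exp 1 * (1 / Real.sqrt s) * (L / Real.log X) := by gcongr
    _ = _ := by field_simp

open Complex in
/-- truncated second half -/
theorem half2_fin {X : ℝ} {z : ℂ} (hX : 3 ≤ X) (hz : 0 < z.re) (hzi : 1 / 2 ≤ |z.im|)
    (hXs : 20 * Real.log X ≤ Real.log (1 / z.re)) (K : ℕ) :
    IntegrableOn (fun x : ℝ => x ^ (-(1/2) : ℝ) *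
      ‖∑ i ∈ Iq ⌊X⌋₊ K, (yq X 0 i.1 : ℂ) * cexp (-(Real.pi * (((i.2:ℝ) / i.1 : ℝ) : ℂ) ^ 2 * x * z))‖ ^ 2) (Set.Ioi 1) ∧
    ∫ x in Set.Ioi (1:ℝ), x ^ (-(1/2) : ℝ) *
      ‖∑ i ∈ Iq ⌊X⌋₊ K, (yq X 0 i.1 : ℂ) * cexp (-(Real.pi * (((i.2:ℝ) / i.1 : ℝ) : ℂ) ^ 2 * x * z))‖ ^ 2
      ≤ 5 * Real.exp 1 * CQ * Real.log (1 / z.re) / (Real.sqrt z.re * Real.log X) := by
  have hlX : 1 ≤ Real.log X := by
    rw [Real.le_log_iff_exp_le (by linarith)]
    have := Real.exp_one_lt_d9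
    linarith
  have h := L2_fin (Iq ⌊X⌋₊ K) (fun i : ℕ × ℕ => (i.2:ℝ) / i.1) (fun i => yq X 0 i.1) z hz hzi
    (fun i hi => by
      rw [mem_Iq] at hi
      have h1 : (0:ℝ) < i.1 := by exact_mod_cast hi.1.1
      have h2 : (0:ℝ) < i.2 := by exact_mod_cast hi.2.1.1
      positivity)
    (fun i hi j hj hij => by
      have h0 := Iq_inj i hi j hj hij
      rw [mem_Iq] at hi hj
      have h1 : (i.1:ℝ) ≠ 0 := by exact_mod_cast hi.1.1.ne'
      have h2 : (j.1:ℝ) ≠ 0 := by exact_mod_cast hj.1.1.ne'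
      intro h
      apply h0
      rw [div_eq_div_iff h1 h2] at h
      exact_mod_cast h)
  refine ⟨h.1, h.2.trans ?_⟩
  have h1 := half2_diag hX hz (by linarith) (by linarith) K
  have h2 := half2_off hX hz hXs K
  refine (add_le_add h1 h2).trans (le_of_eq ?_)
  ring

end Pool.Agent.Helper57.LH
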