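import Pool.Agent.Helper57.LH.Gf2

open ArithmeticFunction Finset

namespace Pool.Agent.Helper57.LH

lemma sum_divisors_prod {n : ℕ} (hn : Squarefree n) (f : ℕ → ℝ) :
    ∏ p ∈ n.primeFactors, (1 + f p) = ∑ d ∈ n.divisors, ∏ p ∈ d.primeFactors, f p := by
  have h := (IsMultiplicative.prodPrimeFactors f).prodPrimeFactors_one_add_of_squarefree hn
  have h1 : ∏ p ∈ n.primeFactors, (1 + f p)
      = ∏ p ∈ n.primeFactors, (1 + (prodPrimeFactors f) p) := by
    refine prod_congr rfl fun p hp => ?_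
    have hpp := Nat.prime_of_mem_primeFactors hp
    rw [prodPrimeFactors_apply hpp.ne_zero, hpp.primeFactors, prod_singleton]
  rw [h1, h]
  refine sum_congr rfl fun d hd => ?_
  rw [prodPrimeFactors_apply (Nat.pos_of_mem_divisors hd).ne']

/-- the local factor -/
noncomputable def gp (p : ℕ) : ℝ := (2 * p - 1) / ((p:ℝ) - 1) ^ 2

lemma gp_nonneg {p : ℕ} (hp : p.Prime) : 0 ≤ gp p := by
  have : (2:ℝ) ≤ p := by exact_mod_cast hp.two_le
  unfold gp
  apply div_nonneg (by linarith) (sq_nonneg _)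

lemma gp_div_le {p : ℕ} (hp : p.Prime) : gp p / p ≤ 6 / (p:ℝ) ^ 2 := by
  have h2 : (2:ℝ) ≤ p := by exact_mod_cast hp.two_le
  unfold gp
  have h1 : (0:ℝ) < p - 1 := by linarith
  rw [div_div, div_le_div_iff₀ (by positivity) (by positivity)]
  nlinarith [mul_nonneg (mul_nonneg (show (0:ℝ) ≤ p by linarith) (show (0:ℝ) ≤ p - 2 by linarith)) (show (0:ℝ) ≤ 4 * p - 3 by linarith)]

lemma kap_sq {q : ℕ} (hq : Squarefree q) : kap q ^ 2 = ∑ d ∈ q.divisors, ∏ p ∈ d.primeFactors, gp p := by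
  rw [← sum_divisors_prod hq]
  unfold kap
  rw [← prod_pow]
  refine prod_congr rfl fun p hp => ?_
  have hpp := Nat.prime_of_mem_primeFactors hp
  have h2 : (2:ℝ) ≤ p := by exact_mod_cast hpp.two_le
  have h1 : ((p:ℝ) - 1) ≠ 0 := by intro h; linarith
  have h0 : (p:ℝ) ≠ 0 := by intro h; linarith
  unfold gp
  have : (1 - 1 / (p:ℝ)) = (p - 1) / p := by field_simp
  rw [this]
  field_simp
  ring

lemma sum_inv_le {N : ℕ} (hN : 1 ≤ N) : ∑ n ∈ Ioc 0 N, (1:ℝ) / n ≤ 1 + Real.log N := by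
  have h := harmonic_le_one_add_log N
  rw [harmonic_eq_sum_Icc] at h
  push_cast at h
  have : Ioc 0 N = Icc 1 N := rfl
  rw [this]
  simpa [one_div] using h

lemma sum_mult_inv_le {N d : ℕ} (hd : 1 ≤ d) (hN : 1 ≤ N) :
    ∑ q ∈ (Ioc 0 N).filter (fun q => d ∣ q), (1:ℝ) / q ≤ (1 / d) * (1 + Real.log N) := by
  have hd0 : (0:ℝ) < d := by exact_mod_cast hd
  have h1 : ∑ q ∈ (Ioc 0 N).filter (fun q => d ∣ q), (1:ℝ) / q
      = ∑ m ∈ Ioc 0 (N / d), (1:ℝ) / ((d * m : ℕ) : ℝ) := by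
    symm
    apply Finset.sum_bij (fun m _ => d * m)
    · intro m hm
      simp only [mem_filter, mem_Ioc] at hm ⊢
      refine ⟨⟨Nat.mul_pos (by omega) hm.1, ?_⟩, dvd_mul_right _ _⟩
      calc d * m ≤ d * (N / d) := by gcongr; exact hm.2
        _ ≤ N := Nat.mul_div_le _ _
    · intro a _ b _ h
      exact Nat.eq_of_mul_eq_mul_left (by omega) h
    · intro q hq
      simp only [mem_filter, mem_Ioc] at hq
      obtain ⟨⟨h1, h2⟩, m, rfl⟩ := hq
      refine ⟨m, ?_, rfl⟩
      rw [mem_Ioc]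
      refine ⟨Nat.pos_of_ne_zero (by rintro rfl; simp at h1), ?_⟩
      rw [Nat.le_div_iff_mul_le (by omega)]
      linarith
    · intro m _; rfl
  rw [h1]
  have h2 : ∑ m ∈ Ioc 0 (N / d), (1:ℝ) / ((d * m : ℕ) : ℝ) = (1 / d) * ∑ m ∈ Ioc 0 (N / d), (1:ℝ) / m := by
    rw [mul_sum]
    refine sum_congr rfl fun m _ => ?_
    push_cast
    rw [one_div_mul_one_div]
  rw [h2]
  gcongr
  calc ∑ m ∈ Ioc 0 (N / d), (1:ℝ) / m ≤ ∑ m ∈ Ioc 0 N, (1:ℝ) / m := by
        apply sum_le_sum_of_subset_of_nonneg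
        · exact Ioc_subset_Ioc_right (Nat.div_le_self _ _)
        · intros; positivity
    _ ≤ _ := sum_inv_le hN

lemma sum_sq_inv_le (N : ℕ) : ∑ n ∈ Ioc 1 N, (1:ℝ) / (n:ℝ) ^ 2 ≤ 1 := by
  have h : ∀ N : ℕ, ∑ n ∈ Ioc 1 N, (1:ℝ) / (n:ℝ) ^ 2 ≤ 1 - 1 / (max N 1 : ℕ) := by
    intro N
    induction N with
    | zero => simp
    | succ N ih =>
      rcases Nat.eq_zero_or_pos N with h0 | h0
      · subst h0; simp
      · rw [Finset.sum_Ioc_succ_top (by omega)]
        have e1 : max N 1 = N := by omega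
        have e2 : max (N + 1) 1 = N + 1 := by omega
        rw [e1] at ih
        rw [e2]
        have hN : (0:ℝ) < N := by exact_mod_cast h0
        have : (1:ℝ) / ((N + 1 : ℕ) : ℝ) ^ 2 ≤ 1 / N - 1 / ((N + 1 : ℕ) : ℝ) := by
          push_cast
          rw [div_sub_div _ _ hN.ne' (by positivity), div_le_div_iff₀ (by positivity) (by positivity)]
          nlinarith
        linarith
  refine (h N).trans ?_
  have : (0:ℝ) ≤ 1 / (max N 1 : ℕ) := by positivity
  linarith

lemma sum_prod_gp_le (N : ℕ) :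
    ∑ d ∈ (Ioc 0 N).filter Squarefree, (∏ p ∈ d.primeFactors, gp p) / d ≤ Real.exp 6 := by
  have hterm : ∀ d ∈ (Ioc 0 N).filter Squarefree, (∏ p ∈ d.primeFactors, gp p) / (d:ℝ)
      = ∏ p ∈ d.primeFactors, (gp p / p) := by
    intro d hd
    rw [mem_filter] at hd
    rw [prod_div_distrib]
    congr 1
    have := Nat.prod_primeFactors_of_squarefree hd.2
    conv_lhs => rw [← this]
    push_cast
    rfl
  rw [sum_congr rfl hterm]
  set P := (Ioc 1 N).filter Nat.Prime with hP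
  have h1 : ∑ d ∈ (Ioc 0 N).filter Squarefree, ∏ p ∈ d.primeFactors, (gp p / p)
      ≤ ∑ S ∈ P.powerset, ∏ p ∈ S, (gp p / p) := by
    have hinj : Set.InjOn Nat.primeFactors ((Ioc 0 N).filter Squarefree : Finset ℕ) := by
      intro a ha b hb hab
      simp only [coe_filter, mem_Ioc, Set.mem_ofPred_eq] at ha hb
      rw [← Nat.prod_primeFactors_of_squarefree ha.2, ← Nat.prod_primeFactors_of_squarefree hb.2, hab]
    rw [← Finset.sum_image (f := fun S : Finset ℕ => ∏ p ∈ S, (gp p / (p:ℝ))) hinj]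
    apply sum_le_sum_of_subset_of_nonneg
    · intro S hS
      simp only [mem_image, mem_filter, mem_Ioc] at hS
      obtain ⟨d, ⟨⟨hd0, hdN⟩, hd⟩, rfl⟩ := hS
      rw [mem_powerset]
      intro p hp
      have hpp := Nat.prime_of_mem_primeFactors hp
      rw [hP, mem_filter, mem_Ioc]
      exact ⟨⟨hpp.one_lt, (Nat.le_of_mem_primeFactors hp).trans hdN⟩, hpp⟩
    · intro S hS _
      apply prod_nonneg
      intro p hp
      have : p ∈ P := mem_powerset.mp hS hp
      rw [hP, mem_filter] at this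
      exact div_nonneg (gp_nonneg this.2) (Nat.cast_nonneg _)
  refine h1.trans ?_
  rw [← prod_one_add]
  calc ∏ p ∈ P, (1 + gp p / p) ≤ ∏ p ∈ P, Real.exp (6 / (p:ℝ) ^ 2) := by
        apply prod_le_prod
        · intro p hp
          rw [hP, mem_filter] at hp
          have := div_nonneg (gp_nonneg hp.2) (Nat.cast_nonneg (α := ℝ) p)
          linarith
        · intro p hp
          rw [hP, mem_filter] at hp
          have h2 := gp_div_le hp.2
          have h3 := Real.add_one_le_exp (6 / (p:ℝ) ^ 2)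
          linarith
    _ = Real.exp (∑ p ∈ P, 6 / (p:ℝ) ^ 2) := (Real.exp_sum _ _).symm
    _ ≤ Real.exp 6 := by
        apply Real.exp_le_exp.mpr
        calc ∑ p ∈ P, 6 / (p:ℝ) ^ 2 ≤ ∑ n ∈ Ioc 1 N, 6 / (n:ℝ) ^ 2 := by
              apply sum_le_sum_of_subset_of_nonneg (filter_subset _ _)
              intros; positivity
          _ = 6 * ∑ n ∈ Ioc 1 N, 1 / (n:ℝ) ^ 2 := by
              rw [mul_sum]; refine sum_congr rfl fun n _ => by ring
          _ ≤ 6 * 1 := by gcongr; exact sum_sq_inv_le N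
          _ = 6 := by norm_num

lemma sum_kap_sq {N : ℕ} (hN : 1 ≤ N) :
    ∑ q ∈ (Ioc 0 N).filter Squarefree, kap q ^ 2 / q ≤ Real.exp 6 * (1 + Real.log N) := by
  have hG : ∀ d : ℕ, 0 ≤ ∏ p ∈ d.primeFactors, gp p := fun d =>
    prod_nonneg fun p hp => gp_nonneg (Nat.prime_of_mem_primeFactors hp)
  calc ∑ q ∈ (Ioc 0 N).filter Squarefree, kap q ^ 2 / q
      = ∑ q ∈ (Ioc 0 N).filter Squarefree, ∑ d ∈ (Ioc 0 N).filter Squarefree,
          (if d ∣ q then (∏ p ∈ d.primeFactors, gp p) * (1 / q) else 0) := by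
        refine sum_congr rfl fun q hq => ?_
        rw [mem_filter, mem_Ioc] at hq
        rw [kap_sq hq.2, sum_div, ← sum_filter]
        have : q.divisors = ((Ioc 0 N).filter Squarefree).filter (fun d => d ∣ q) := by
          ext d
          simp only [Nat.mem_divisors, mem_filter, mem_Ioc]
          constructor
          · rintro ⟨h1, h2⟩
            exact ⟨⟨⟨Nat.pos_of_dvd_of_pos h1 hq.1.1, (Nat.le_of_dvd hq.1.1 h1).trans hq.1.2⟩,
              hq.2.squarefree_of_dvd h1⟩, h1⟩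
          · rintro ⟨_, h⟩
            exact ⟨h, hq.2.ne_zero⟩
        rw [this]
        refine sum_congr rfl fun d _ => by ring
    _ = ∑ d ∈ (Ioc 0 N).filter Squarefree, (∏ p ∈ d.primeFactors, gp p) *
          ∑ q ∈ ((Ioc 0 N).filter Squarefree).filter (fun q => d ∣ q), (1:ℝ) / q := by
        rw [sum_comm]
        refine sum_congr rfl fun d _ => ?_
        rw [mul_sum, ← sum_filter]
    _ ≤ ∑ d ∈ (Ioc 0 N).filter Squarefree, (∏ p ∈ d.primeFactors, gp p) * ((1 / d) * (1 + Real.log N)) := by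
        refine sum_le_sum fun d hd => ?_
        rw [mem_filter, mem_Ioc] at hd
        apply mul_le_mul_of_nonneg_left _ (hG d)
        refine le_trans ?_ (sum_mult_inv_le (d := d) (by omega) hN)
        apply sum_le_sum_of_subset_of_nonneg
        · rw [filter_filter]
          intro q hq
          simp only [mem_filter] at hq ⊢
          exact ⟨hq.1, hq.2.2⟩
        · intros; positivity
    _ = (∑ d ∈ (Ioc 0 N).filter Squarefree, (∏ p ∈ d.primeFactors, gp p) / d) * (1 + Real.log N) := by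
        rw [sum_mul]
        refine sum_congr rfl fun d _ => by ring
    _ ≤ _ := by
        have : 0 ≤ 1 + Real.log N := by
          have := Real.log_nonneg (show (1:ℝ) ≤ N by exact_mod_cast hN)
          linarith
        gcongr
        exact sum_prod_gp_le N

end Pool.Agent.Helper57.LH
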