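import Mathlib

namespace Pool.Agent.Helper57.LH

open Complex Set MeasureTheory Filter Topology
open scoped FourierTransform

/-- the basic integral -/
noncomputable def JJ (X : ℝ) (z : ℂ) : ℂ := ∫ x in (0:ℝ)..X, ((1 - x / X : ℝ) : ℂ) * cexp (z * x)

lemma JJ_eq {X : ℝ} (hX : 0 < X) {z : ℂ} (hz : z ≠ 0) :
    JJ X z = -(1 / z) + (cexp (z * X) - 1) / (X * z ^ 2) := by
  unfold JJ
  have hX' : (X : ℂ) ≠ 0 := by exact_mod_cast hX.ne'
  have hd : ∀ x ∈ uIcc (0:ℝ) X, HasDerivAt (fun x : ℝ => ((1 - x / X : ℝ) : ℂ) * cexp (z * x) / z + cexp (z * x) / (X * z ^ 2))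
      (((1 - x / X : ℝ) : ℂ) * cexp (z * x)) x := by
    intro x _
    have h1 : HasDerivAt (fun x : ℝ => ((1 - x / X : ℝ) : ℂ)) (((-(1 / X) : ℝ)) : ℂ) x := by
      apply HasDerivAt.ofReal_comp
      have := ((hasDerivAt_id x).div_const X).const_sub 1
      simpa using this
    have h2 : HasDerivAt (fun x : ℝ => cexp (z * x)) (cexp (z * x) * z) x := by
      have h3 : HasDerivAt (fun w : ℂ => cexp (z * w)) (cexp (z * x) * z) (x : ℂ) := by
        have := ((hasDerivAt_id (x:ℂ)).const_mul z).cexp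
        simpa using this
      exact h3.comp_ofReal
    have h4 := ((h1.fun_mul h2).div_const z).fun_add (h2.div_const (X * z ^ 2))
    refine h4.congr_deriv ?_
    push_cast
    field_simp
    ring
  rw [intervalIntegral.integral_eq_sub_of_hasDerivAt hd]
  · simp only [div_self hX.ne', sub_self, Complex.ofReal_zero, zero_mul, zero_div, mul_zero, Complex.exp_zero, sub_zero,
      Complex.ofReal_one]
    ring
  · apply Continuous.intervalIntegrable
    fun_prop

lemma JJ_re (X a w : ℝ) : (JJ X (a + w * I)).re = ∫ x in (0:ℝ)..X, (1 - x / X) * (Real.exp (a * x) * Real.cos (w * x)) := by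
  unfold JJ
  have hi : IntervalIntegrable (fun x : ℝ => ((1 - x / X : ℝ) : ℂ) * cexp ((a + w * I) * x)) volume 0 X := by
    apply Continuous.intervalIntegrable
    fun_prop
  have h := Complex.reCLM.intervalIntegral_comp_comm hi
  simp only [Complex.reCLM_apply] at h
  rw [← h]
  apply intervalIntegral.integral_congr
  intro x _
  simp only
  rw [Complex.re_ofReal_mul, Complex.exp_re]
  congr 2
  · simp
  · simp

lemma JJ_re_le {X : ℝ} (hX : 0 < X) {z : ℂ} (hz : z ≠ 0) :
    |(JJ X z).re| ≤ (|z.re| + (Real.exp (z.re * X) + 1) / X) / Complex.normSq z := by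
  have hn : 0 < Complex.normSq z := Complex.normSq_pos.mpr hz
  rw [JJ_eq hX hz, Complex.add_re, Complex.neg_re, one_div, Complex.inv_re]
  have h1 : |((cexp (z * X) - 1) / (X * z ^ 2)).re| ≤ (Real.exp (z.re * X) + 1) / X / Complex.normSq z := by
    refine (Complex.abs_re_le_norm _).trans ?_
    rw [norm_div, norm_mul, norm_pow, Complex.norm_real, Real.norm_of_nonneg hX.le, ← Complex.normSq_eq_norm_sq, div_div]
    gcongr
    refine (norm_sub_le _ _).trans ?_
    rw [Complex.norm_exp, norm_one]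
    simp
  calc |-(z.re / Complex.normSq z) + ((cexp (z * X) - 1) / (X * z ^ 2)).re|
      ≤ |-(z.re / Complex.normSq z)| + |((cexp (z * X) - 1) / (X * z ^ 2)).re| := abs_add_le _ _
    _ ≤ |z.re| / Complex.normSq z + (Real.exp (z.re * X) + 1) / X / Complex.normSq z := by
        gcongr
        rw [abs_neg, abs_div, abs_of_pos hn]
    _ = _ := by ring

/-- the kernel -/
noncomputable def kpp (X x : ℝ) : ℝ := 2 / X * Real.exp (3 / 2 * |x|) * max 0 (1 - |x| / X)

lemma kpp_cont (X : ℝ) : Continuous (kpp X) := by unfold kpp; fun_prop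

lemma kpp_zero_of {X x : ℝ} (hX : 0 < X) (hx : X ≤ |x|) : kpp X x = 0 := by
  unfold kpp
  have : 1 - |x| / X ≤ 0 := by
    rw [sub_nonpos, le_div_iff₀ hX]; linarith
  rw [max_eq_left this, mul_zero]

lemma kpp_compact {X : ℝ} (hX : 0 < X) : HasCompactSupport (kpp X) := by
  apply HasCompactSupport.of_support_subset_isCompact (isCompact_Icc (a := -X) (b := X))
  intro x hx
  by_contra h
  apply hx
  apply kpp_zero_of hX
  by_contra h2
  push Not at h2
  exact h (abs_le.mp h2.le)

lemma kpp_integrable {X : ℝ} (hX : 0 < X) : Integrable (kpp X) := (kpp_cont X).integrable_of_hasCompactSupport (kpp_compact hX)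

lemma kpp_pos {X x : ℝ} (hX : 0 < X) (hx0 : 0 ≤ x) (hx : x ≤ X) : kpp X x = 2 / X * ((1 - x / X) * Real.exp (3 / 2 * x)) := by
  unfold kpp
  rw [abs_of_nonneg hx0, max_eq_right]
  · ring
  · rw [sub_nonneg, div_le_one hX]; exact hx

/-- integration of the kernel on the half line -/
lemma kpp_half {X : ℝ} (hX : 0 < X) (φ : ℝ → ℝ) :
    ∫ x in Ioi (0:ℝ), kpp X x * φ x = 2 / X * ∫ x in (0:ℝ)..X, (1 - x / X) * (Real.exp (3 / 2 * x) * φ x) := by
  rw [← intervalIntegral.integral_const_mul, intervalIntegral.integral_of_le hX.le]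
  rw [setIntegral_eq_of_subset_of_forall_sdiff_eq_zero (s := Ioc 0 X) measurableSet_Ioi Ioc_subset_Ioi_self]
  · apply setIntegral_congr_fun measurableSet_Ioc
    intro x hx
    simp only
    rw [kpp_pos hX hx.1.le hx.2]
    ring
  · intro x hx
    have h1 : 0 < x := hx.1
    have h2 : X ≤ |x| := by
      rw [abs_of_pos h1]
      by_contra h3
      push Not at h3
      exact hx.2 ⟨h1, h3.le⟩
    rw [kpp_zero_of hX h2, zero_mul]

/-- the inverse transform of the kernel -/
noncomputable def kk (X τ : ℝ) : ℝ := (2 * Real.pi)⁻¹ * ∫ x, kpp X x * Real.cos (x * τ)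

lemma kk_eq {X : ℝ} (hX : 0 < X) (τ : ℝ) : kk X τ = 2 / (Real.pi * X) * (JJ X ((3 / 2 : ℝ) + τ * I)).re := by
  unfold kk
  have h1 : ∀ x : ℝ, kpp X x * Real.cos (x * τ) = (fun y => kpp X y * Real.cos (y * τ)) |x| := by
    intro x
    simp only
    have e1 : kpp X |x| = kpp X x := by unfold kpp; rw [abs_abs]
    rw [e1]
    congr 1
    rcases abs_cases x with ⟨h, _⟩ | ⟨h, _⟩
    · rw [h]
    · rw [h, neg_mul, Real.cos_neg]
  have h1' : ∫ x, kpp X x * Real.cos (x * τ) = ∫ x, (fun y => kpp X y * Real.cos (y * τ)) |x| := by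
    congr 1
    funext x
    exact h1 x
  rw [h1', integral_comp_abs (f := fun y => kpp X y * Real.cos (y * τ)), kpp_half hX, JJ_re]
  have e2 : ∫ x in (0:ℝ)..X, (1 - x / X) * (Real.exp (3 / 2 * x) * Real.cos (x * τ)) =
      ∫ x in (0:ℝ)..X, (1 - x / X) * (Real.exp (3 / 2 * x) * Real.cos (τ * x)) := by
    apply intervalIntegral.integral_congr
    intro x _
    simp only
    rw [mul_comm x τ]
  rw [e2]
  have := Real.pi_pos
  generalize (∫ x in (0:ℝ)..X, (1 - x / X) * (Real.exp (3 / 2 * x) * Real.cos (τ * x))) = Q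
  field_simp

lemma z_ne {a : ℝ} (ha : a ≠ 0) (τ : ℝ) : ((a : ℝ) : ℂ) + τ * I ≠ 0 := by
  intro h
  have := congrArg Complex.re h
  simp at this
  exact ha this

lemma normSq_z (a τ : ℝ) : Complex.normSq ((a : ℂ) + τ * I) = a ^ 2 + τ ^ 2 := by
  rw [Complex.normSq_apply]
  simp
  ring

/-- constant -/
noncomputable def Ck (X : ℝ) : ℝ := 2 / (Real.pi * X) * (3 / 2 + (Real.exp (3 / 2 * X) + 1) / X)

lemma Ck_pos {X : ℝ} (hX : 0 < X) : 0 < Ck X := by
  unfold Ck
  have := Real.pi_pos
  positivity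

lemma kk_bound {X : ℝ} (hX : 0 < X) (τ : ℝ) : |kk X τ| ≤ Ck X * (1 + τ ^ 2)⁻¹ := by
  rw [kk_eq hX, abs_mul]
  have hpi := Real.pi_pos
  have h1 := JJ_re_le hX (z_ne (a := 3/2) (by norm_num) τ)
  rw [normSq_z] at h1
  have e1 : (((3/2 : ℝ) : ℂ) + τ * I).re = 3 / 2 := by simp
  rw [e1, abs_of_pos (by norm_num : (0:ℝ) < 3/2)] at h1
  rw [abs_of_pos (by positivity : 0 < 2 / (Real.pi * X))]
  unfold Ck
  rw [mul_assoc]
  gcongr
  refine h1.trans ?_
  rw [div_eq_mul_inv]
  gcongr
  norm_num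

lemma kk_cont {X : ℝ} (hX : 0 < X) : Continuous (kk X) := by
  have : kk X = fun τ : ℝ => 2 / (Real.pi * X) * (-(1 / (((3 / 2 : ℝ) : ℂ) + τ * I)) +
      (cexp ((((3 / 2 : ℝ) : ℂ) + τ * I) * X) - 1) / (X * (((3 / 2 : ℝ) : ℂ) + τ * I) ^ 2)).re := by
    funext τ
    rw [kk_eq hX, JJ_eq hX (z_ne (by norm_num) τ)]
  rw [this]
  apply continuous_const.mul
  apply Complex.continuous_re.comp
  have hz : ∀ τ : ℝ, (((3 / 2 : ℝ) : ℂ) + τ * I) ≠ 0 := fun τ => z_ne (by norm_num) τ
  have hX' : (X:ℂ) ≠ 0 := by exact_mod_cast hX.ne'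
  apply Continuous.add
  · apply Continuous.neg
    exact continuous_const.div (by fun_prop) hz
  · apply Continuous.div (by fun_prop) (by fun_prop)
    intro τ
    exact mul_ne_zero hX' (pow_ne_zero _ (hz τ))

lemma kk_integrable {X : ℝ} (hX : 0 < X) : Integrable (kk X) := by
  refine (integrable_inv_one_add_sq.const_mul (Ck X)).mono' (kk_cont hX).aestronglyMeasurable ?_
  filter_upwards with τ
  rw [Real.norm_eq_abs]
  exact kk_bound hX τ

lemma FT_kpp {X : ℝ} (hX : 0 < X) (τ : ℝ) :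
    ∫ x : ℝ, cexp ((τ * x : ℝ) * I) * (kpp X x : ℂ) = ((2 * Real.pi * kk X τ : ℝ) : ℂ) := by
  have hint : Integrable (fun x : ℝ => cexp ((τ * x : ℝ) * I) * (kpp X x : ℂ)) := by
    have hI : Integrable (fun x : ℝ => (kpp X x : ℂ)) := (kpp_integrable hX).ofReal
    refine hI.mono ?_ ?_
    · apply Continuous.aestronglyMeasurable
      have := kpp_cont X
      fun_prop
    · filter_upwards with x
      rw [norm_mul, Complex.norm_exp_ofReal_mul_I, one_mul]
  apply Complex.ext
  · rw [← Complex.reCLM_apply, ← Complex.reCLM.integral_comp_comm hint, Complex.ofReal_re]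
    simp only [Complex.reCLM_apply]
    unfold kk
    rw [mul_inv_cancel_left₀ (by have := Real.pi_pos; positivity)]
    congr 1
    funext x
    rw [mul_comm, Complex.re_ofReal_mul, Complex.exp_ofReal_mul_I_re, mul_comm τ x]
  · rw [← Complex.imCLM_apply, ← Complex.imCLM.integral_comp_comm hint, Complex.ofReal_im]
    simp only [Complex.imCLM_apply]
    -- odd integrand
    set f : ℝ → ℝ := fun x => (cexp ((τ * x : ℝ) * I) * (kpp X x : ℂ)).im with hf
    have hodd : ∀ x, f (-x) = - f x := by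
      intro x
      simp only [hf]
      have e1 : kpp X (-x) = kpp X x := by unfold kpp; rw [abs_neg]
      rw [e1, mul_comm, Complex.im_ofReal_mul, Complex.exp_ofReal_mul_I_im, mul_comm (cexp _), Complex.im_ofReal_mul, Complex.exp_ofReal_mul_I_im,
        mul_neg, Real.sin_neg]
      ring
    have h1 := integral_neg_eq_self f volume
    simp_rw [hodd] at h1
    rw [integral_neg] at h1
    linarith

/-- Fourier inversion for the kernel. -/
lemma kk_inv {X : ℝ} (hX : 0 < X) (y : ℝ) : ∫ τ : ℝ, cexp ((y * τ : ℝ) * I) * (kk X τ : ℂ) = (kpp X y : ℂ) := by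
  set f : ℝ → ℂ := fun x => (kpp X x : ℂ) with hf
  have hfi : Integrable f := (kpp_integrable hX).ofReal
  have hpi := Real.pi_pos
  have hF : ∀ w : ℝ, 𝓕 f w = ((2 * Real.pi * kk X (-(2 * Real.pi * w)) : ℝ) : ℂ) := by
    intro w
    rw [Real.fourier_real_eq_integral_exp_smul, ← FT_kpp hX]
    congr 1
    funext x
    rw [smul_eq_mul]
    congr 3
    push_cast
    ring
  have hkk : ∀ w : ℝ, kk X (-w) = kk X w := by
    intro w
    unfold kk
    congr 1
    congr 1
    funext x
    rw [mul_neg, Real.cos_neg]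
  simp_rw [hkk] at hF
  have hFi : Integrable (𝓕 f) := by
    have h1 : 𝓕 f = fun w : ℝ => ((2 * Real.pi * kk X (2 * Real.pi * w) : ℝ) : ℂ) := funext hF
    rw [h1]
    apply Integrable.ofReal
    apply Integrable.const_mul
    exact (kk_integrable hX).comp_mul_left' (by positivity)
  have h := hfi.fourierInv_fourier_eq hFi (v := y) ((Complex.continuous_ofReal.comp (kpp_cont X)).continuousAt)
  rw [Real.fourierInv_eq'] at h
  show _ = f y
  rw [← h]
  simp_rw [hF]
  have h2 := Measure.integral_comp_mul_left (fun τ : ℝ => cexp ((y * τ : ℝ) * I) * (kk X τ : ℂ)) (2 * Real.pi)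
  have h3 : ∫ τ : ℝ, cexp ((y * τ : ℝ) * I) * (kk X τ : ℂ) = (2 * Real.pi : ℝ) • ∫ (x : ℝ), cexp ((y * (2 * Real.pi * x) : ℝ) * I) * (kk X (2 * Real.pi * x) : ℂ) := by
    rw [h2, abs_of_pos (by positivity), smul_smul, mul_inv_cancel₀ (by positivity), one_smul]
  rw [h3, ← integral_smul]
  congr 1
  funext w
  rw [smul_eq_mul, Complex.real_smul]
  have e : ((y * (2 * Real.pi * w) : ℝ) : ℂ) = ((2 * Real.pi * inner ℝ w y : ℝ) : ℂ) := by
    congr 1
    simp
    ring
  rw [e]
  push_cast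
  ring

lemma kk_even (X w : ℝ) : kk X (-w) = kk X w := by
  unfold kk
  congr 1
  congr 1
  funext x
  rw [mul_neg, Real.cos_neg]

/-- the operator on cosines -/
lemma T_cos {X : ℝ} (hX : 0 < X) (y t : ℝ) : ∫ u : ℝ, kk X (t - u) * Real.cos (y * u) = kpp X y * Real.cos (y * t) := by
  have h1 := kk_inv hX y
  have hint : Integrable (fun τ : ℝ => cexp ((y * τ : ℝ) * I) * (kk X τ : ℂ)) := by
    have hI : Integrable (fun x : ℝ => (kk X x : ℂ)) := (kk_integrable hX).ofReal
    refine hI.mono ?_ ?_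
    · apply Continuous.aestronglyMeasurable
      have := kk_cont hX
      fun_prop
    · filter_upwards with x
      rw [norm_mul, Complex.norm_exp_ofReal_mul_I, one_mul]
  have h2 : ∫ u : ℝ, kk X (t - u) * Real.cos (y * u) = ∫ w : ℝ, kk X w * Real.cos (y * (t - w)) := by
    have := integral_sub_left_eq_self (fun w => kk X w * Real.cos (y * (t - w))) volume t
    rw [← this]
    congr 1
    funext u
    rw [sub_sub_cancel]
  rw [h2]
  have h3 : ∫ w : ℝ, kk X w * Real.cos (y * (t - w)) = (∫ w : ℝ, cexp ((-(y * t) : ℝ) * I) * (cexp ((y * w : ℝ) * I) * (kk X w : ℂ))).re := by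
    rw [← Complex.reCLM_apply, ← Complex.reCLM.integral_comp_comm (hint.const_mul _)]
    congr 1
    funext w
    rw [Complex.reCLM_apply, ← mul_assoc, ← Complex.exp_add, ← add_mul, ← Complex.ofReal_add, mul_comm, mul_comm (cexp _), Complex.re_ofReal_mul,
      Complex.exp_ofReal_mul_I_re, mul_comm (Real.cos _)]
    congr 1
    rw [← Real.cos_neg]
    congr 1
    ring
  rw [h3, integral_const_mul, h1, mul_comm, Complex.re_ofReal_mul, Complex.exp_ofReal_mul_I_re, Real.cos_neg]

lemma poisson_int {a : ℝ} (ha : 0 < a) (u : ℝ) : ∫ x in Ioi (0:ℝ), Real.exp (-a * x) * Real.cos (x * u) = a / (a ^ 2 + u ^ 2) := by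
  have hz : (-(a:ℂ) + u * I).re < 0 := by simp [ha]
  have h := integral_exp_mul_complex_Ioi hz 0
  have hi := integrableOn_exp_mul_complex_Ioi hz 0
  have h2 := congrArg Complex.re h
  rw [← Complex.reCLM_apply, ← Complex.reCLM.integral_comp_comm hi] at h2
  have e1 : ∀ x : ℝ, Complex.reCLM (cexp ((-(a:ℂ) + u * I) * x)) = Real.exp (-a * x) * Real.cos (x * u) := by
    intro x
    rw [Complex.reCLM_apply, Complex.exp_re]
    congr 2
    · simp
    · simp; ring
  simp_rw [e1] at h2
  rw [h2]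
  have e2 : -(a:ℂ) + u * I = ((-a : ℝ) : ℂ) + u * I := by push_cast; ring
  rw [e2]
  simp only [Complex.ofReal_zero, mul_zero, Complex.exp_zero]
  rw [neg_div, Complex.neg_re, one_div, Complex.inv_re, normSq_z]
  simp
  ring

/-- the operator on Poisson kernels -/
lemma T_poisson {X : ℝ} (hX : 0 < X) {a : ℝ} (ha : 0 < a) (t : ℝ) :
    ∫ u : ℝ, kk X (t - u) * (a / (a ^ 2 + u ^ 2)) = 2 / X * (JJ X ((3 / 2 - a : ℝ) + t * I)).re := by
  have h1 : ∀ u : ℝ, kk X (t - u) * (a / (a ^ 2 + u ^ 2)) = ∫ x in Ioi (0:ℝ), kk X (t - u) * (Real.exp (-a * x) * Real.cos (x * u)) := by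
    intro u
    rw [integral_const_mul, poisson_int ha]
  simp_rw [h1]
  have hexp : IntegrableOn (fun x : ℝ => Real.exp (-a * x)) (Ioi 0) := integrableOn_exp_mul_Ioi (by linarith) 0
  have hkt : Integrable (fun u => kk X (t - u)) := (kk_integrable hX).comp_sub_left t
  rw [integral_integral_swap]
  · have h2 : ∀ x : ℝ, ∫ u : ℝ, kk X (t - u) * (Real.exp (-a * x) * Real.cos (x * u)) =
        kpp X x * (Real.exp (-a * x) * Real.cos (x * t)) := by
      intro x
      have e : ∀ u : ℝ, kk X (t - u) * (Real.exp (-a * x) * Real.cos (x * u)) = Real.exp (-a * x) * (kk X (t - u) * Real.cos (x * u)) := by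
        intro u; ring
      simp_rw [e]
      rw [integral_const_mul, T_cos hX]
      ring
    simp_rw [h2]
    rw [kpp_half hX, JJ_re]
    congr 1
    apply intervalIntegral.integral_congr
    intro x _
    simp only
    rw [← mul_assoc (Real.exp _), ← Real.exp_add, mul_comm x t]
    congr 3
    ring
  · have h3 : Integrable (Function.uncurry fun (u x : ℝ) => kk X (t - u) * Real.exp (-a * x)) (volume.prod (volume.restrict (Ioi 0))) :=
      hkt.mul_prod hexp
    refine h3.mono ?_ ?_
    · apply Continuous.aestronglyMeasurable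
      have := kk_cont hX
      simp only [Function.uncurry_def]
      fun_prop
    · filter_upwards with p
      simp only [Function.uncurry_def, norm_mul]
      gcongr
      calc ‖Real.exp (-a * p.2)‖ * ‖Real.cos (p.2 * p.1)‖ ≤ ‖Real.exp (-a * p.2)‖ * 1 := by
            gcongr
            exact Real.abs_cos_le_one _
        _ = _ := mul_one _

end Pool.Agent.Helper57.LH
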