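import Pool.Agent.Helper57.LH.Deduce

namespace Pool.Agent.Helper57.LH

open Set MeasureTheory Filter Topology
open Pool.Agent.Helper57.Zeta
open Pool.Agent.Helper57.PC

lemma pc_even (u : ℝ) : pcDensity (-u) = pcDensity u := by
  rw [pcDensity_eq, pcDensity_eq, PC.sq_even]

lemma int_pc_neg (a b : ℝ) : ∫ u in a..b, pcDensity u = ∫ u in (-b)..(-a), pcDensity u := by
  have h := intervalIntegral.integral_comp_neg (a := a) (b := b) pcDensity
  simp only [pc_even] at h
  exact h

lemma int_pc_split (a b : ℝ) : ∫ u in a..b, pcDensity u = (∫ u in (0:ℝ)..(-a), pcDensity u) + ∫ u in (0:ℝ)..b, pcDensity u := by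
  rw [← intervalIntegral.integral_add_adjacent_intervals (intervalIntegrable_pcDensity a 0) (intervalIntegrable_pcDensity 0 b),
    int_pc_neg a 0, neg_zero]

section
variable {l : Filter ℝ} (hl : l ≤ atTop) (hLH : LowHalf l)
include hl hLH

/-- upper bounds for windows in [0,∞) excluding the diagonal -/
lemma pos_upper {ε x : ℝ} (hε : 0 < ε) (hx : 0 ≤ x) {δ : ℝ} (hδ : 0 < δ) :
    ∀ᶠ T : ℝ in l, pairCount T ε x ≤ ((∫ u in (0:ℝ)..x, pcDensity u) + δ) * SN T := by
  have h0 := int_F_nonneg hx
  rcases lt_or_ge ε x with h | h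
  · have h1 : (∫ u in ε..x, pcDensity u) ≤ ∫ u in (0:ℝ)..x, pcDensity u := by
      rw [← intervalIntegral.integral_add_adjacent_intervals (intervalIntegrable_pcDensity 0 ε) (intervalIntegrable_pcDensity ε x)]
      have := int_F_nonneg hε.le
      linarith
    filter_upwards [upper_half hl hLH hε h hδ, hl (eventually_gt_atTop 1)] with T h2 hT1
    have hS := SN_pos hT1
    refine h2.trans ?_
    gcongr
  · have h1 := upper_half hl hLH hε (show ε < ε + δ / 2 by linarith) (show 0 < δ / 2 by linarith)
    filter_upwards [h1, hl (eventually_gt_atTop 1)] with T h2 hT1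
    have hS := SN_pos hT1
    have h3 : pairCount T ε x ≤ pairCount T ε (ε + δ / 2) := pairCount_mono T le_rfl (by linarith)
    have h4 := int_F_le (show ε ≤ ε + δ / 2 by linarith)
    refine h3.trans (h2.trans ?_)
    apply mul_le_mul_of_nonneg_right _ hS.le
    linarith

omit hLH in
include hLH in
lemma pos_lower {x : ℝ} (hx : 0 ≤ x) {δ : ℝ} (hδ : 0 < δ) :
    ∀ᶠ T : ℝ in l, ((∫ u in (0:ℝ)..x, pcDensity u) - δ) * SN T ≤ WP T (ic (Ioc 0 x)) := by
  rcases hx.eq_or_lt with h | h
  · filter_upwards [hl (eventually_gt_atTop 1)] with T hT1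
    have hS := SN_pos hT1
    have h1 : 0 ≤ WP T (ic (Ioc 0 x)) := WP_nonneg (ic_nonneg _)
    rw [← h, intervalIntegral.integral_same]
    rw [← h] at h1
    nlinarith
  · set ε := min (δ / 2) (x / 2) with hε
    have he0 : 0 < ε := lt_min (by linarith) (by linarith)
    have he1 : ε ≤ δ / 2 := min_le_left _ _
    have he2 : ε ≤ x / 2 := min_le_right _ _
    filter_upwards [lower_Ioc hl hLH he0 (show ε < x by linarith) (show 0 < δ / 2 by linarith), hl (eventually_gt_atTop 1)] with T h1 hT1
    have hS := SN_pos hT1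
    have h2 : WP T (ic (Ioc ε x)) ≤ WP T (ic (Ioc 0 x)) := WP_mono (ic_mono (Ioc_subset_Ioc_left he0.le))
    have h3 : (∫ u in (0:ℝ)..x, pcDensity u) ≤ (∫ u in ε..x, pcDensity u) + δ / 2 := by
      rw [← intervalIntegral.integral_add_adjacent_intervals (intervalIntegrable_pcDensity 0 ε) (intervalIntegrable_pcDensity ε x)]
      have := int_F_le he0.le
      linarith
    have h4 : ((∫ u in (0:ℝ)..x, pcDensity u) - δ) * SN T ≤ ((∫ u in ε..x, pcDensity u) - δ / 2) * SN T := by
      apply mul_le_mul_of_nonneg_right _ hS.le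
      linarith
    linarith

/-- windows containing zero -/
lemma law_zero {α β : ℝ} (hα : α ≤ 0) (hβ : 0 ≤ β) {δ : ℝ} (hδ : 0 < δ) :
    ∀ᶠ T : ℝ in l, |pairCount T α β / SN T - ((∫ u in α..β, pcDensity u) + 1)| ≤ δ := by
  obtain ⟨ε, he0, hdu⟩ := diag_upper hl hLH (show 0 < δ / 3 by linarith)
  filter_upwards [hdu, pos_upper hl hLH he0 hβ (show 0 < δ / 3 by linarith), pos_upper hl hLH he0 (show 0 ≤ -α by linarith) (show 0 < δ / 3 by linarith),
    diag_lower hl (show 0 < δ / 3 by linarith), pos_lower hl hLH hβ (show 0 < δ / 3 by linarith),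
    pos_lower hl hLH (show 0 ≤ -α by linarith) (show 0 < δ / 3 by linarith), hl (eventually_gt_atTop 1)] with T h1 h2 h3 h4 h5 h6 hT1
  have hS := SN_pos hT1
  have hint := int_pc_split α β
  have hup : pairCount T α β ≤ (((∫ u in α..β, pcDensity u) + 1) + δ) * SN T := by
    have q1 := pairCount_split T α (-ε) β
    have q2 := pairCount_split T (-ε) ε β
    have q3 := pairCount_neg T ε (-α)
    rw [neg_neg] at q3
    rw [hint]
    linarith
  have hlo : (((∫ u in α..β, pcDensity u) + 1) - δ) * SN T ≤ pairCount T α β := by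
    have q1 : WP T (ic (Ioc 0 β)) + WP T (ic (Ioc 0 (-α))) + pairCount T 0 0 ≤ pairCount T α β := by
      classical
      rw [pairCount_WP, pairCount_WP]
      nth_rewrite 2 [← WP_neg]
      rw [← WP_add, ← WP_add]
      apply WP_mono
      intro x
      rw [ic_apply, ic_apply, ic_apply, ic_apply]
      rcases lt_trichotomy x 0 with hx | hx | hx
      · have c1 : x ∉ Ioc 0 β := fun h => absurd h.1 (by linarith)
        have c2 : x ∉ Icc (0:ℝ) 0 := fun h => absurd h.1 (by linarith)
        rw [if_neg c1, if_neg c2]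
        by_cases c3 : -x ∈ Ioc 0 (-α)
        · have c4 : x ∈ Icc α β := ⟨by linarith [c3.2], by linarith⟩
          rw [if_pos c3, if_pos c4]; norm_num
        · rw [if_neg c3]
          split_ifs <;> norm_num
      · have c1 : x ∉ Ioc 0 β := fun h => absurd h.1 (by linarith)
        have c2 : -x ∉ Ioc 0 (-α) := fun h => absurd h.1 (by linarith)
        have c3 : x ∈ Icc α β := ⟨by linarith, by linarith⟩
        rw [if_neg c1, if_neg c2, if_pos c3]
        split_ifs <;> norm_num
      · have c1 : -x ∉ Ioc 0 (-α) := fun h => absurd h.1 (by linarith)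
        have c2 : x ∉ Icc (0:ℝ) 0 := fun h => absurd h.2 (by linarith)
        rw [if_neg c1, if_neg c2]
        by_cases c3 : x ∈ Ioc 0 β
        · have c4 : x ∈ Icc α β := ⟨by linarith [c3.1], c3.2⟩
          rw [if_pos c3, if_pos c4]; norm_num
        · rw [if_neg c3]
          split_ifs <;> norm_num
    rw [hint]
    linarith
  rw [abs_le]
  constructor
  · have := (le_div_iff₀ hS).mpr hlo
    linarith
  · have := (div_le_iff₀ hS).mpr hup
    linarith

/-- windows to the right of zero -/
lemma law_pos {α β : ℝ} (hα : 0 < α) (hαβ : α ≤ β) {δ : ℝ} (hδ : 0 < δ) :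
    ∀ᶠ T : ℝ in l, |pairCount T α β / SN T - (∫ u in α..β, pcDensity u)| ≤ δ := by
  rcases hαβ.eq_or_lt with h | h
  · have h1 := upper_half hl hLH hα (show α < α + δ / 2 by linarith) (show 0 < δ / 2 by linarith)
    filter_upwards [h1, hl (eventually_gt_atTop 1)] with T h2 hT1
    have hS := SN_pos hT1
    have h3 : pairCount T α β ≤ pairCount T α (α + δ / 2) := pairCount_mono T le_rfl (by linarith)
    have h4 := int_F_le (show α ≤ α + δ / 2 by linarith)
    rw [← h] at h3 ⊢
    rw [intervalIntegral.integral_same, sub_zero, abs_of_nonneg (div_nonneg (pairCount_nonneg T α α) hS.le), div_le_iff₀ hS]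
    refine h3.trans (h2.trans ?_)
    apply mul_le_mul_of_nonneg_right _ hS.le
    linarith
  · filter_upwards [upper_half hl hLH hα h hδ, hLH α β hα h δ hδ, hl (eventually_gt_atTop 1)] with T h1 h2 hT1
    have hS := SN_pos hT1
    rw [abs_le]
    constructor
    · have := (le_div_iff₀ hS).mpr h2
      linarith
    · have := (div_le_iff₀ hS).mpr h1
      linarith

open Classical in
/-- The pair correlation law for all windows. -/
theorem full_law {α β : ℝ} (hαβ : α ≤ β) :
    Tendsto (fun T => pairCount T α β / (T * Real.log T / (2 * Real.pi))) l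
      (𝓝 ((∫ u in α..β, pcDensity u) + if α ≤ 0 ∧ 0 ≤ β then 1 else 0)) := by
  rw [Metric.tendsto_nhds]
  intro δ hδ
  have hd : (0:ℝ) < δ / 2 := by linarith
  have key : ∀ᶠ T : ℝ in l, |pairCount T α β / SN T - ((∫ u in α..β, pcDensity u) + if α ≤ 0 ∧ 0 ≤ β then 1 else 0)| ≤ δ / 2 := by
    by_cases h1 : α ≤ 0
    · by_cases h2 : 0 ≤ β
      · rw [if_pos ⟨h1, h2⟩]
        exact law_zero hl hLH h1 h2 hd
      · rw [if_neg (fun h => h2 h.2), add_zero]
        push Not at h2
        filter_upwards [law_pos hl hLH (α := -β) (β := -α) (by linarith) (by linarith) hd] with T hT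
        rw [pairCount_neg, ← int_pc_neg] at hT
        exact hT
    · rw [if_neg (fun h => h1 h.1), add_zero]
      push Not at h1
      exact law_pos hl hLH h1 hαβ hd
  filter_upwards [key] with T hT
  rw [Real.dist_eq]
  exact lt_of_le_of_lt hT (by linarith)

end

end Pool.Agent.Helper57.LH
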