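import Pool.Agent.Helper57.LH.Energy
import Pool.Agent.Helper57.Zeta.Strip

namespace Pool.Agent.Helper57.LH

open Complex Set MeasureTheory Filter Topology Metric
open Pool.Agent.Helper57.Zeta

/-- mollified zeta minus one -/
noncomputable def ET (T : ℝ) (s : ℂ) : ℂ := riemannZeta s * Mol (XT T) s - 1

lemma ET_le {T : ℝ} (hT : 20 ≤ T) {s : ℂ} (h0 : 0 < s.re) (h9 : s.re ≤ 9) (h1 : 1 ≤ |s.im|)
    (h4 : |s.im| ≤ 4 * T) : ‖ET T s‖ ^ 2 ≤ 122 * Real.exp 32 * ‖HT T s‖ ^ 2 := by
  have hT0 : 0 < T := by linarith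
  have hs1 : s ≠ 1 := by rintro rfl; simp at h1; linarith
  have him2 : 1 ≤ s.im ^ 2 := by rw [← sq_abs]; nlinarith
  have hA : ‖s + 2‖ ^ 2 ≤ 122 * ‖s - 1‖ ^ 2 := by
    rw [← Complex.normSq_eq_norm_sq, ← Complex.normSq_eq_norm_sq, Complex.normSq_apply, Complex.normSq_apply]
    simp only [Complex.add_re, Complex.add_im, Complex.re_ofNat, Complex.im_ofNat, add_zero,
      Complex.sub_re, Complex.sub_im, Complex.one_re, Complex.one_im, sub_zero]
    nlinarith [sq_nonneg (s.re - 1)]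
  have hs2 : 0 < ‖s + 2‖ := by
    rw [norm_pos_iff]
    intro h
    have := congrArg Complex.re h
    simp at this
    linarith
  have hse : s = (s.re : ℂ) + (s.im : ℂ) * I := (Complex.re_add_im s).symm
  have hexp : ‖cexp (s ^ 2 / T ^ 2)‖ ^ 2 ≥ Real.exp (-32) := by
    rw [hse, norm_exp_sq, ← Real.exp_nat_mul]
    apply Real.exp_le_exp.mpr
    have h5 : s.im ^ 2 ≤ 16 * T ^ 2 := by rw [← sq_abs]; nlinarith [abs_nonneg s.im]
    have h6 : -16 ≤ (s.re ^ 2 - s.im ^ 2) / T ^ 2 := by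
      rw [le_div_iff₀ (by positivity)]
      nlinarith [sq_nonneg s.re]
    push_cast
    linarith
  rw [HT_eq h0 hs1]
  have e1 : ‖(s - 1) / (s + 2) * (riemannZeta s * Mol (XT T) s - 1) * cexp (s ^ 2 / T ^ 2)‖ ^ 2 =
      (‖s - 1‖ ^ 2 / ‖s + 2‖ ^ 2) * ‖ET T s‖ ^ 2 * ‖cexp (s ^ 2 / T ^ 2)‖ ^ 2 := by
    rw [norm_mul, norm_mul, norm_div]
    unfold ET
    rw [mul_pow, mul_pow, div_pow]
  rw [e1]
  have hr : 1 / 122 ≤ ‖s - 1‖ ^ 2 / ‖s + 2‖ ^ 2 := by
    rw [le_div_iff₀ (by positivity)]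
    linarith
  calc ‖ET T s‖ ^ 2 = 122 * (Real.exp 32 * Real.exp (-32)) * (1 / 122 * ‖ET T s‖ ^ 2) := by
        rw [← Real.exp_add]; norm_num; ring
    _ = 122 * Real.exp 32 * (1 / 122 * ‖ET T s‖ ^ 2 * Real.exp (-32)) := by ring
    _ ≤ 122 * Real.exp 32 * (‖s - 1‖ ^ 2 / ‖s + 2‖ ^ 2 * ‖ET T s‖ ^ 2 * ‖cexp (s ^ 2 / T ^ 2)‖ ^ 2) := by
        gcongr

/-- the entire function used in Jensen's formula -/
noncomputable def Ph (T : ℝ) (s : ℂ) : ℂ := Zt s * Mol (XT T) s

lemma differentiable_Ph (T : ℝ) : Differentiable ℂ (Ph T) := differentiable_Zt.mul (differentiable_Mol _)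

lemma Ph_eq {T : ℝ} {s : ℂ} (h0 : 0 < s.re) (h1 : s ≠ 1) : Ph T s = (s - 1) * (1 + ET T s) := by
  unfold Ph ET
  rw [Zt_eq h0 h1]; ring

lemma order_Ph_ge {T : ℝ} {a : ℂ} (ha : Ph T a ≠ 0) (ρ : ℂ) :
    analyticOrderNatAt xi ρ ≤ analyticOrderNatAt (Ph T) ρ := by
  have h1 : Ph T = xi * (fun s => ((Real.pi : ℂ) ^ (s / 2) * (Gamma (1 + s / 2))⁻¹ / 2) * Mol (XT T) s) := by
    funext s
    unfold Ph Zt
    simp only [Pi.mul_apply]
    ring
  have hd1 : Differentiable ℂ (fun s : ℂ => (Real.pi : ℂ) ^ (s / 2)) := by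
    intro s
    exact (differentiableAt_id.div_const 2).const_cpow (Or.inl (by exact_mod_cast Real.pi_ne_zero))
  have hd2 : Differentiable ℂ (fun s : ℂ => (Gamma (1 + s / 2))⁻¹) :=
    Complex.differentiable_one_div_Gamma.comp (by fun_prop)
  have hd : Differentiable ℂ (fun s => ((Real.pi : ℂ) ^ (s / 2) * (Gamma (1 + s / 2))⁻¹ / 2) * Mol (XT T) s) :=
    ((hd1.mul hd2).div_const 2).mul (differentiable_Mol _)
  have h2 : analyticOrderAt (Ph T) ρ = analyticOrderAt xi ρ + analyticOrderAt (fun s => ((Real.pi : ℂ) ^ (s / 2) * (Gamma (1 + s / 2))⁻¹ / 2) * Mol (XT T) s) ρ := by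
    rw [h1]
    exact analyticOrderAt_mul (differentiable_xi.analyticAt ρ) (hd.analyticAt ρ)
  have h3 := order_ne_top (differentiable_Ph T) ha ρ
  have h4 : analyticOrderAt xi ρ ≤ analyticOrderAt (Ph T) ρ := by
    rw [h2]; exact le_self_add
  unfold analyticOrderNatAt
  exact ENat.toNat_le_toNat h4 h3

lemma circleAverage_log_sub_one {c : ℂ} {R : ℝ} (hR : 0 < R) (hc : R < ‖c - 1‖) :
    Real.circleAverage (fun z => Real.log ‖z - 1‖) c R = Real.log ‖c - 1‖ := by
  have hd : Differentiable ℂ (fun z : ℂ => z - 1) := by fun_prop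
  have hc1 : (fun z : ℂ => z - 1) c ≠ 0 := by
    simp only
    intro h
    rw [h, norm_zero] at hc
    linarith
  have h := jensen_formula hd hc1 hR
  rw [h]
  have he : (zset_finite hd hc1 c R).toFinset = ∅ := by
    rw [Set.Finite.toFinset_eq_empty]
    rw [Set.eq_empty_iff_forall_notMem]
    rintro u ⟨hu1, hu2⟩
    have : u = 1 := sub_eq_zero.mp hu1
    rw [this, norm_sub_rev] at hu2
    linarith
  rw [he]
  simp

/-- Jensen's inequality for the mollified zeta function. -/
lemma count_le {T : ℝ} {c : ℂ} {r R : ℝ} (hr : 0 < r) (hrR : r < R)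
    (him : R + 1 ≤ |c.im|) (hre : R < c.re) (hc : ‖ET T c‖ ≤ 1 / 2)
    (F : Finset ℂ) (hF : ∀ ρ ∈ F, xi ρ = 0 ∧ ‖ρ - c‖ ≤ r) :
    (∑ ρ ∈ F, (analyticOrderNatAt xi ρ : ℝ)) * (1 - r / R) ≤
      Real.circleAverage (fun z => Real.log (1 + ‖ET T z‖)) c R + 2 * ‖ET T c‖ := by
  have hR : 0 < R := hr.trans hrR
  have hc0 : 0 < c.re := by linarith
  have hcim : 1 ≤ |c.im| := by linarith
  have hc1 : c ≠ 1 := by rintro rfl; simp at hcim; linarith
  have hball : ∀ z ∈ sphere c |R|, 0 < z.re ∧ z ≠ 1 ∧ 1 ≤ ‖z - 1‖ := by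
    intro z hz
    rw [abs_of_pos hR, mem_sphere, dist_eq_norm] at hz
    have h1 : |(z - c).re| ≤ R := by rw [← hz]; exact Complex.abs_re_le_norm _
    have h2 : |(z - c).im| ≤ R := by rw [← hz]; exact Complex.abs_im_le_norm _
    have h3 : 0 < z.re := by
      have := (abs_le.mp h1).1
      rw [Complex.sub_re] at this
      linarith
    have h4 : 1 ≤ |z.im| := by
      have h5 : |c.im| ≤ |z.im| + |(z - c).im| := by
        have h6 := abs_sub_le c.im z.im 0
        rw [sub_zero, sub_zero] at h6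
        have h7 : |c.im - z.im| = |(z - c).im| := by rw [Complex.sub_im, abs_sub_comm]
        linarith
      linarith
    have h5 : 1 ≤ ‖z - 1‖ := by
      have := Complex.abs_im_le_norm (z - 1)
      rw [Complex.sub_im, Complex.one_im, sub_zero] at this
      linarith
    refine ⟨h3, ?_, h5⟩
    rintro rfl
    simp at h5
    linarith
  have hEc : 1 + ET T c ≠ 0 := by
    intro h
    have : ET T c = -1 := by linear_combination h
    rw [this] at hc; norm_num at hc
  have hPc : Ph T c ≠ 0 := by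
    rw [Ph_eq hc0 hc1]
    exact mul_ne_zero (sub_ne_zero.mpr hc1) hEc
  have hJ := (jensen_compare (differentiable_Ph T) hPc hr hrR.le).1
  have hJ2 := jensen_lower (differentiable_Ph T) hPc hr
  -- count
  have hcount : ∑ ρ ∈ F, (analyticOrderNatAt xi ρ : ℝ) ≤ ncount (Ph T) c r := by
    rw [ncount_eq (differentiable_Ph T) hPc c r]
    calc ∑ ρ ∈ F, (analyticOrderNatAt xi ρ : ℝ) ≤ ∑ ρ ∈ F, (analyticOrderNatAt (Ph T) ρ : ℝ) := by
          apply Finset.sum_le_sum
          intro ρ _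
          exact_mod_cast order_Ph_ge hPc ρ
      _ ≤ _ := by
          apply Finset.sum_le_sum_of_subset_of_nonneg
          · intro ρ hρ
            rw [Set.Finite.mem_toFinset]
            refine ⟨?_, (hF ρ hρ).2⟩
            unfold Ph Zt
            rw [(hF ρ hρ).1]; ring
          · intro i _ _; positivity
  have hlog : 1 - r / R ≤ Real.log (R / r) := by
    have := Real.one_sub_inv_le_log_of_pos (show 0 < R / r by positivity)
    rwa [inv_div] at this
  have h1r : 0 ≤ 1 - r / R := by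
    rw [sub_nonneg, div_le_one hR]; exact hrR.le
  have hS0 : 0 ≤ ∑ ρ ∈ F, (analyticOrderNatAt xi ρ : ℝ) := Finset.sum_nonneg fun _ _ => Nat.cast_nonneg _
  -- upper bound of the circle average
  have hc1R : R < ‖c - 1‖ := by
    have := Complex.abs_im_le_norm (c - 1)
    rw [Complex.sub_im, Complex.one_im, sub_zero] at this
    linarith
  have hcont : ContinuousOn (fun z => Real.log (1 + ‖ET T z‖)) (sphere c |R|) := by
    apply ContinuousOn.log
    · apply ContinuousOn.add continuousOn_const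
      apply ContinuousOn.norm
      unfold ET
      apply ContinuousOn.sub _ continuousOn_const
      apply ContinuousOn.mul
      · intro z hz
        exact (differentiableAt_riemannZeta (hball z hz).2.1).continuousAt.continuousWithinAt
      · exact (differentiable_Mol _).continuous.continuousOn
    · intro z _
      have := norm_nonneg (ET T z)
      linarith
  have hcI : CircleIntegrable (fun z => Real.log (1 + ‖ET T z‖)) c R := by
    apply ContinuousOn.circleIntegrable'
    exact hcont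
  have hcI1 : CircleIntegrable (fun z => Real.log ‖z - 1‖) c R :=
    circleIntegrable_log (f := fun z => z - 1) (by fun_prop) c R
  have hup : Real.circleAverage (fun z => Real.log ‖Ph T z‖) c R ≤
      Real.log ‖c - 1‖ + Real.circleAverage (fun z => Real.log (1 + ‖ET T z‖)) c R := by
    rw [← circleAverage_log_sub_one hR hc1R]
    rw [← Real.circleAverage_add hcI1 hcI]
    apply Real.circleAverage_mono (circleIntegrable_log (differentiable_Ph T) c R) (hcI1.add hcI)
    intro z hz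
    obtain ⟨hz0, hz1, hz2⟩ := hball z hz
    simp only [Pi.add_apply]
    have hnn : 0 ≤ Real.log ‖z - 1‖ := Real.log_nonneg hz2
    have hE := norm_nonneg (ET T z)
    have hnn2 : 0 ≤ Real.log (1 + ‖ET T z‖) := Real.log_nonneg (by linarith)
    rcases eq_or_ne (Ph T z) 0 with h | h
    · rw [h, norm_zero, Real.log_zero]; positivity
    · rw [← Real.log_mul (by linarith) (by linarith)]
      apply Real.log_le_log (norm_pos_iff.mpr h)
      rw [Ph_eq hz0 hz1, norm_mul]
      gcongr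
      calc ‖1 + ET T z‖ ≤ ‖(1:ℂ)‖ + ‖ET T z‖ := norm_add_le _ _
        _ = _ := by rw [norm_one]
  have hlow : Real.log ‖c - 1‖ - 2 * ‖ET T c‖ ≤ Real.log ‖Ph T c‖ := by
    rw [Ph_eq hc0 hc1, norm_mul, Real.log_mul (by
      rw [norm_ne_zero_iff]; exact sub_ne_zero.mpr hc1) (norm_ne_zero_iff.mpr hEc)]
    have h2 : 1 - ‖ET T c‖ ≤ ‖1 + ET T c‖ := by
      have := norm_sub_norm_le (1:ℂ) (-(ET T c))
      rw [norm_one, norm_neg, sub_neg_eq_add] at this
      exact this
    have h3 : -(2 * ‖ET T c‖) ≤ Real.log (1 - ‖ET T c‖) := by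
      have hx := norm_nonneg (ET T c)
      set x := ‖ET T c‖
      have := Real.one_sub_inv_le_log_of_pos (show 0 < 1 - x by linarith)
      refine le_trans ?_ this
      have h5 : (1 - x)⁻¹ ≤ 1 + 2 * x := by
        rw [inv_le_comm₀ (by linarith) (by linarith), inv_le_iff_one_le_mul₀ (by linarith)]
        nlinarith
      linarith
    have h4 : Real.log (1 - ‖ET T c‖) ≤ Real.log ‖1 + ET T c‖ := Real.log_le_log (by linarith) h2
    linarith
  calc (∑ ρ ∈ F, (analyticOrderNatAt xi ρ : ℝ)) * (1 - r / R)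
      ≤ ncount (Ph T) c r * Real.log (R / r) := by
        apply mul_le_mul hcount hlog h1r (hS0.trans hcount)
    _ ≤ _ := by linarith

end Pool.Agent.Helper57.LH
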