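import Pool.Agent.Helper57.LH.LocA

namespace Pool.Agent.Helper57.LH

open Complex Set MeasureTheory Filter Topology Metric
open Pool.Agent.Helper57.Zeta

/-- circle average of the square -/
noncomputable def AH (T : ℝ) (c : ℂ) (R : ℝ) : ℝ := Real.circleAverage (fun z => ‖HT T z‖ ^ 2) c R

/-- the constant -/
noncomputable def KK : ℝ := 122 * Real.exp 32

lemma KK_pos : 0 < KK := by unfold KK; positivity

lemma AH_nonneg (T : ℝ) (c : ℂ) (R : ℝ) : 0 ≤ AH T c R := by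
  unfold AH
  apply Real.circleAverage_nonneg_of_nonneg
  intro x _; positivity

lemma region {T τ σ R : ℝ} (hT : 20 ≤ T) (hτ : 10 ≤ |τ|) (hτ3 : |τ| ≤ 3 * T) (_hR : 0 ≤ R) (hR5 : R ≤ 9 / 2)
    (hRσ : R < σ) (hσ : σ + R ≤ 9) {z : ℂ} (hz : ‖z - (σ + τ * I)‖ ≤ R) :
    0 < z.re ∧ z.re ≤ 9 ∧ 1 ≤ |z.im| ∧ |z.im| ≤ 4 * T := by
  have h1 : |(z - (σ + τ * I)).re| ≤ R := (Complex.abs_re_le_norm _).trans hz
  have h2 : |(z - (σ + τ * I)).im| ≤ R := (Complex.abs_im_le_norm _).trans hz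
  have e1 : (z - (σ + τ * I)).re = z.re - σ := by simp
  have e2 : (z - (σ + τ * I)).im = z.im - τ := by simp
  rw [e1] at h1
  rw [e2] at h2
  have h3 := abs_le.mp h1
  have h4 : |τ| ≤ |z.im| + |z.im - τ| := by
    have h6 := abs_sub_le τ z.im 0
    rw [sub_zero, sub_zero, abs_sub_comm τ] at h6
    linarith
  have h5 : |z.im| ≤ |τ| + |z.im - τ| := by
    have h6 := abs_sub_le z.im τ 0
    rw [sub_zero, sub_zero] at h6
    linarith
  exact ⟨by linarith, by linarith, by linarith, by linarith⟩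

lemma sphere_norm {c z : ℂ} {R : ℝ} (hR : 0 ≤ R) (hz : z ∈ sphere c |R|) : ‖z - c‖ ≤ R := by
  rw [abs_of_nonneg hR, mem_sphere, dist_eq_norm] at hz
  exact hz.le

lemma ET_contOn {T τ σ R : ℝ} (hT : 20 ≤ T) (hτ : 10 ≤ |τ|) (hτ3 : |τ| ≤ 3 * T) (hR : 0 ≤ R) (hR5 : R ≤ 9 / 2)
    (hRσ : R < σ) (hσ : σ + R ≤ 9) : ContinuousOn (ET T) (sphere (σ + τ * I) |R|) := by
  unfold ET
  apply ContinuousOn.sub _ continuousOn_const
  apply ContinuousOn.mul
  · intro z hz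
    have h := region hT hτ hτ3 hR hR5 hRσ hσ (sphere_norm hR hz)
    have hz1 : z ≠ 1 := by
      rintro rfl
      have := h.2.2.1
      simp at this; linarith
    exact (differentiableAt_riemannZeta hz1).continuousAt.continuousWithinAt
  · exact (differentiable_Mol _).continuous.continuousOn

lemma HT_contOn {T τ σ R : ℝ} (hR : 0 ≤ R) (hRσ : R < σ) : ContinuousOn (HT T) (sphere (σ + τ * I) |R|) := by
  apply (HT_diff T).continuousOn.mono
  intro z hz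
  have h1 := (abs_le.mp ((Complex.abs_re_le_norm _).trans (sphere_norm hR hz))).1
  have e1 : (z - (σ + τ * I)).re = z.re - σ := by simp
  rw [e1] at h1
  show -1 < z.re
  linarith

lemma log_circ {T : ℝ} {c : ℂ} {R : ℝ} (hE : ContinuousOn (ET T) (sphere c |R|)) :
    CircleIntegrable (fun z => Real.log (1 + ‖ET T z‖)) c R := by
  have hc : ContinuousOn (fun z => 1 + ‖ET T z‖) (sphere c |R|) := continuousOn_const.add hE.norm
  apply ContinuousOn.circleIntegrable'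
  exact hc.log (fun z _ => by positivity)

lemma avg_sq_le {g : ℂ → ℝ} {c : ℂ} {R : ℝ} (hg : ContinuousOn g (sphere c |R|)) :
    (Real.circleAverage g c R) ^ 2 ≤ Real.circleAverage (fun z => g z ^ 2) c R := by
  set a := Real.circleAverage g c R with ha
  have h1 : CircleIntegrable g c R := hg.circleIntegrable'
  have h2 : CircleIntegrable (fun z => g z ^ 2) c R := (hg.pow 2).circleIntegrable'
  have h3 : CircleIntegrable (fun z => 2 * a * g z - a ^ 2) c R := by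
    apply ContinuousOn.circleIntegrable'
    fun_prop
  have h4 := Real.circleAverage_mono h3 h2 (fun z _ => by nlinarith [sq_nonneg (g z - a)])
  have h5 : Real.circleAverage (fun z => 2 * a * g z - a ^ 2) c R = 2 * a * a - a ^ 2 := by
    have h6 : CircleIntegrable (fun z => (2 * a) • g z) c R := by
      apply ContinuousOn.circleIntegrable'
      fun_prop
    have h7 : CircleIntegrable (fun _ : ℂ => a ^ 2) c R := by
      apply ContinuousOn.circleIntegrable'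
      fun_prop
    have e := Real.circleAverage_fun_sub h6 h7
    rw [Real.circleAverage_const, Real.circleAverage_fun_smul, ← ha] at e
    simpa [smul_eq_mul] using e
  rw [h5] at h4
  nlinarith

/-- bound of the mean of ‖E‖ -/
lemma avg_E_sq {T τ σ R : ℝ} (hT : 20 ≤ T) (hτ : 10 ≤ |τ|) (hτ3 : |τ| ≤ 3 * T) (hR : 0 ≤ R) (hR5 : R ≤ 9 / 2)
    (hRσ : R < σ) (hσ : σ + R ≤ 9) :
    (Real.circleAverage (fun z => ‖ET T z‖) (σ + τ * I) R) ^ 2 ≤ KK * AH T (σ + τ * I) R := by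
  have hE := ET_contOn hT hτ hτ3 hR hR5 hRσ hσ
  have hH := HT_contOn (T := T) (τ := τ) hR hRσ
  refine (avg_sq_le hE.norm).trans ?_
  unfold AH
  rw [← smul_eq_mul KK, ← Real.circleAverage_fun_smul]
  apply Real.circleAverage_mono
  · exact (hE.norm.pow 2).circleIntegrable'
  · apply ContinuousOn.circleIntegrable'
    exact (hH.norm.pow 2).const_smul KK
  · intro z hz
    have h := region hT hτ hτ3 hR hR5 hRσ hσ (sphere_norm hR hz)
    simp only [smul_eq_mul]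
    exact ET_le hT h.1 h.2.1 h.2.2.1 h.2.2.2

lemma ET_c_le {T τ σ : ℝ} (hT : 20 ≤ T) (hτ : 10 ≤ |τ|) (hτ3 : |τ| ≤ 3 * T) (hσ0 : 0 < σ) (hσ : σ ≤ 9) :
    ‖ET T (σ + τ * I)‖ ^ 2 ≤ KK * ‖HT T (σ + τ * I)‖ ^ 2 := by
  have e1 : (σ + τ * I : ℂ).re = σ := by simp
  have e2 : (σ + τ * I : ℂ).im = τ := by simp
  apply ET_le hT
  · rw [e1]; exact hσ0
  · rw [e1]; exact hσ
  · rw [e2]; linarith
  · rw [e2]; linarith

/-- the centre of the disc at scale V -/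
noncomputable def sg (L V : ℝ) : ℝ := 1 / 2 + 4 * V / L

lemma dist_scale {L V τ : ℝ} (hL : 0 < L) {ρ : ℂ} {v u r : ℝ} (hv : v = L * (ρ.re - 1 / 2)) (hu : u = L * |ρ.im - τ|)
    (hr : 0 ≤ r) (h : (v - 4 * V) ^ 2 + u ^ 2 ≤ r ^ 2) : ‖ρ - ((sg L V : ℝ) + τ * I)‖ ≤ r / L := by
  rw [← sq_le_sq₀ (norm_nonneg _) (by positivity), ← Complex.normSq_eq_norm_sq, Complex.normSq_apply]
  have e1 : (ρ - ((sg L V : ℝ) + τ * I)).re = (v - 4 * V) / L := by
    rw [hv]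
    unfold sg
    simp
    field_simp
    ring
  have e2 : (ρ - ((sg L V : ℝ) + τ * I)).im = ρ.im - τ := by simp
  rw [e1, e2]
  have e3 : (ρ.im - τ) * (ρ.im - τ) = (u / L) ^ 2 := by
    rw [hu, mul_div_cancel_left₀ _ hL.ne', sq_abs]; ring
  rw [e3, div_pow, div_pow, ← sq, div_pow, ← add_div]
  gcongr

/-- good classes: few zeros -/
lemma classG {T L w τ : ℝ} (hT : 20 ≤ T) (hL : L = Real.log T) (hL40 : 40 ≤ L) (hw : 1 ≤ w) (hwL : w ≤ L)
    (hτ : 10 ≤ |τ|) (hτ3 : |τ| ≤ 3 * T) (hgood : ‖ET T ((sg L w : ℝ) + τ * I)‖ ≤ 1 / 2)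
    (F : Finset ℂ) (hF : ∀ ρ ∈ F, xi ρ = 0 ∧ w ≤ L * (ρ.re - 1 / 2) ∧ L * (ρ.re - 1 / 2) ≤ 2 * w ∧
      L * |ρ.im - τ| ≤ 1) :
    (∑ ρ ∈ F, (analyticOrderNatAt xi ρ : ℝ)) ^ 2 ≤
      KK * (72 * AH T ((sg L w : ℝ) + τ * I) (39 / 10 * w / L) + 288 * ‖HT T ((sg L w : ℝ) + τ * I)‖ ^ 2) := by
  have hL0 : 0 < L := by linarith
  set σ := sg L w with hσ
  have hwL1 : w / L ≤ 1 := by rw [div_le_one hL0]; exact hwL
  have hwL0 : 0 < w / L := by positivity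
  set R := 39 / 10 * w / L with hR
  set r := 32 / 10 * w / L with hr
  have hR' : R = 39 / 10 * (w / L) := by rw [hR]; ring
  have hr' : r = 32 / 10 * (w / L) := by rw [hr]; ring
  have hσ' : σ = 1 / 2 + 4 * (w / L) := by rw [hσ]; unfold sg; ring
  have hr0 : 0 < r := by rw [hr']; positivity
  have hrR : r < R := by rw [hr', hR']; linarith
  have hR0 : 0 < R := hr0.trans hrR
  have hR5 : R ≤ 9 / 2 := by rw [hR']; linarith
  have hRσ : R < σ := by rw [hR', hσ']; linarith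
  have hσ9 : σ + R ≤ 9 := by rw [hR', hσ']; linarith
  have e1 : (σ + τ * I : ℂ).re = σ := by simp
  have e2 : (σ + τ * I : ℂ).im = τ := by simp
  have hcount := count_le (T := T) (c := σ + τ * I) hr0 hrR (by rw [e2]; linarith) (by rw [e1]; exact hRσ) hgood F (by
    intro ρ hρ
    obtain ⟨h0, h1, h2, h3⟩ := hF ρ hρ
    refine ⟨h0, ?_⟩
    rw [hr]
    apply dist_scale hL0 rfl rfl (by positivity)
    have : 0 ≤ L * |ρ.im - τ| := by positivity
    nlinarith)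
  have hE := ET_contOn hT hτ hτ3 hR0.le hR5 hRσ hσ9
  set a := Real.circleAverage (fun z => ‖ET T z‖) (σ + τ * I) R with ha
  have ha2 : a ^ 2 ≤ KK * AH T (σ + τ * I) R := avg_E_sq hT hτ hτ3 hR0.le hR5 hRσ hσ9
  have ha0 : 0 ≤ a := Real.circleAverage_nonneg_of_nonneg (fun _ _ => norm_nonneg _)
  have hloga : Real.circleAverage (fun z => Real.log (1 + ‖ET T z‖)) (σ + τ * I) R ≤ a := by
    apply Real.circleAverage_mono
    · exact log_circ hE
    · exact hE.norm.circleIntegrable'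
    · intro z _
      have := norm_nonneg (ET T z)
      have h2 := Real.log_le_sub_one_of_pos (show 0 < 1 + ‖ET T z‖ by linarith)
      linarith
  have he2 := ET_c_le (σ := σ) hT hτ hτ3 (by linarith) (by linarith)
  set e := ‖ET T (σ + τ * I)‖ with he
  have he0 : 0 ≤ e := norm_nonneg _
  set n := ∑ ρ ∈ F, (analyticOrderNatAt xi ρ : ℝ) with hn
  have hn0 : 0 ≤ n := Finset.sum_nonneg fun _ _ => Nat.cast_nonneg _
  have hfrac : 1 / 6 ≤ 1 - r / R := by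
    rw [hr', hR', mul_div_mul_right _ _ hwL0.ne']
    norm_num
  have h1 : n * (1 / 6) ≤ a + 2 * e := by
    calc n * (1 / 6) ≤ n * (1 - r / R) := by gcongr
      _ ≤ _ := by linarith
  have h2 : n ≤ 6 * (a + 2 * e) := by linarith
  calc n ^ 2 ≤ (6 * (a + 2 * e)) ^ 2 := by gcongr
    _ ≤ 72 * a ^ 2 + 288 * e ^ 2 := by nlinarith [sq_nonneg (a - 2 * e)]
    _ ≤ 72 * (KK * AH T (σ + τ * I) R) + 288 * (KK * ‖HT T (σ + τ * I)‖ ^ 2) := by gcongr
    _ = _ := by ring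

/-- larger discs -/
lemma classH {T L V τ : ℝ} (hT : 20 ≤ T) (hL : L = Real.log T) (hL40 : 40 ≤ L) (hV : 1 ≤ V) (hVL : V ≤ L)
    (hτ : 10 ≤ |τ|) (hτ3 : |τ| ≤ 3 * T) (hgood : ‖ET T ((sg L V : ℝ) + τ * I)‖ ≤ 1 / 2)
    (F : Finset ℂ) (hF : ∀ ρ ∈ F, xi ρ = 0 ∧ 0 ≤ L * (ρ.re - 1 / 2) ∧ L * (ρ.re - 1 / 2) ≤ V ∧
      L * |ρ.im - τ| ≤ 1) :
    ∃ a : ℝ, 0 ≤ a ∧ a ^ 2 ≤ KK * AH T ((sg L V : ℝ) + τ * I) ((4 * V + 1) / L) ∧
    (∑ ρ ∈ F, (analyticOrderNatAt xi ρ : ℝ)) ^ 2 ≤ 200 * V ^ 2 * (4 * a + 1) := by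
  have hL0 : 0 < L := by linarith
  set σ := sg L V with hσ
  have hVL1 : V / L ≤ 1 := by rw [div_le_one hL0]; exact hVL
  have hVL0 : 0 < V / L := by positivity
  have hL1 : 1 / L ≤ 1 / 40 := by gcongr
  have hL1' : 0 < 1 / L := by positivity
  set R := (4 * V + 1) / L with hR
  set r := (4 * V + 1 / 2) / L with hr
  have hR' : R = 4 * (V / L) + 1 / L := by rw [hR]; ring
  have hr' : r = 4 * (V / L) + 1 / L / 2 := by rw [hr]; ring
  have hσ' : σ = 1 / 2 + 4 * (V / L) := by rw [hσ]; unfold sg; ring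
  have hr0 : 0 < r := by rw [hr']; positivity
  have hrR : r < R := by rw [hr', hR']; linarith
  have hR0 : 0 < R := hr0.trans hrR
  have hR5 : R ≤ 9 / 2 := by rw [hR']; linarith
  have hRσ : R < σ := by rw [hR', hσ']; linarith
  have hσ9 : σ + R ≤ 9 := by rw [hR', hσ']; linarith
  have e1 : (σ + τ * I : ℂ).re = σ := by simp
  have e2 : (σ + τ * I : ℂ).im = τ := by simp
  have hcount := count_le (T := T) (c := σ + τ * I) hr0 hrR (by rw [e2]; linarith) (by rw [e1]; exact hRσ) hgood F (by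
    intro ρ hρ
    obtain ⟨h0, h1, h2, h3⟩ := hF ρ hρ
    refine ⟨h0, ?_⟩
    rw [hr]
    apply dist_scale hL0 rfl rfl (by positivity)
    have : 0 ≤ L * |ρ.im - τ| := by positivity
    nlinarith)
  have hE := ET_contOn hT hτ hτ3 hR0.le hR5 hRσ hσ9
  set a := Real.circleAverage (fun z => ‖ET T z‖) (σ + τ * I) R with ha
  have ha2 : a ^ 2 ≤ KK * AH T (σ + τ * I) R := avg_E_sq hT hτ hτ3 hR0.le hR5 hRσ hσ9
  have ha0 : 0 ≤ a := Real.circleAverage_nonneg_of_nonneg (fun _ _ => norm_nonneg _)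
  set b := Real.circleAverage (fun z => Real.sqrt ‖ET T z‖) (σ + τ * I) R with hb
  have hb0 : 0 ≤ b := Real.circleAverage_nonneg_of_nonneg (fun _ _ => Real.sqrt_nonneg _)
  have hsq : ContinuousOn (fun z => Real.sqrt ‖ET T z‖) (sphere (σ + τ * I) |R|) :=
    Real.continuous_sqrt.comp_continuousOn hE.norm
  have hb2 : b ^ 2 ≤ a := by
    have := avg_sq_le hsq
    rw [← hb] at this
    refine this.trans (le_of_eq ?_)
    rw [ha]
    congr 1
    funext z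
    exact Real.sq_sqrt (norm_nonneg _)
  have hlogb : Real.circleAverage (fun z => Real.log (1 + ‖ET T z‖)) (σ + τ * I) R ≤ 2 * b := by
    rw [show 2 * b = Real.circleAverage (fun z => (2:ℝ) • Real.sqrt ‖ET T z‖) (σ + τ * I) R by
      rw [Real.circleAverage_fun_smul, smul_eq_mul]]
    apply Real.circleAverage_mono
    · exact log_circ hE
    · apply ContinuousOn.circleIntegrable'
      exact hsq.const_smul (2:ℝ)
    · intro z _
      simp only [smul_eq_mul]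
      have hx := norm_nonneg (ET T z)
      set x := ‖ET T z‖
      have hs := Real.sqrt_nonneg x
      have hss := Real.sq_sqrt hx
      have h2 := Real.log_le_sub_one_of_pos (show 0 < 1 + Real.sqrt x by linarith)
      have h3 : Real.log (1 + x) ≤ Real.log ((1 + Real.sqrt x) ^ 2) := by
        apply Real.log_le_log (by linarith)
        nlinarith
      rw [Real.log_pow] at h3
      push_cast at h3
      linarith
  set e := ‖ET T (σ + τ * I)‖ with he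
  set n := ∑ ρ ∈ F, (analyticOrderNatAt xi ρ : ℝ) with hn
  have hn0 : 0 ≤ n := Finset.sum_nonneg fun _ _ => Nat.cast_nonneg _
  have hfrac : 1 / (10 * V) ≤ 1 - r / R := by
    have e3 : 1 - r / R = (1 / 2) / (4 * V + 1) := by
      rw [hr, hR]
      field_simp
      ring
    rw [e3, div_le_div_iff₀ (by positivity) (by positivity)]
    linarith
  have h1 : n * (1 / (10 * V)) ≤ 2 * b + 1 := by
    calc n * (1 / (10 * V)) ≤ n * (1 - r / R) := by gcongr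
      _ ≤ _ := by linarith
  have h2 : n ≤ 10 * V * (2 * b + 1) := by
    rw [mul_one_div, div_le_iff₀ (by positivity)] at h1
    linarith
  refine ⟨a, ha0, ha2, ?_⟩
  calc n ^ 2 ≤ (10 * V * (2 * b + 1)) ^ 2 := by gcongr
    _ = 100 * V ^ 2 * (2 * b + 1) ^ 2 := by ring
    _ ≤ 100 * V ^ 2 * (2 * (4 * a + 1)) := by
        gcongr
        nlinarith [sq_nonneg (2 * b - 1)]
    _ = _ := by ring

lemma classH0 {T L τ : ℝ} (hT : 20 ≤ T) (hL : L = Real.log T) (hL40 : 40 ≤ L)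
    (hτ : 10 ≤ |τ|) (hτ3 : |τ| ≤ 3 * T) (hgood : ‖ET T ((sg L 1 : ℝ) + τ * I)‖ ≤ 1 / 2)
    (F : Finset ℂ) (hF : ∀ ρ ∈ F, xi ρ = 0 ∧ 0 ≤ L * (ρ.re - 1 / 2) ∧ L * (ρ.re - 1 / 2) ≤ 1 ∧
      L * |ρ.im - τ| ≤ 1) :
    (∑ ρ ∈ F, (analyticOrderNatAt xi ρ : ℝ)) ^ 2 ≤ 600 + 400 * KK * AH T ((sg L 1 : ℝ) + τ * I) (5 / L) := by
  obtain ⟨a, ha0, ha2, h⟩ := classH hT hL hL40 le_rfl (by linarith) hτ hτ3 hgood F hF
  rw [show (4 * 1 + 1 : ℝ) / L = 5 / L by norm_num] at ha2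
  calc (∑ ρ ∈ F, (analyticOrderNatAt xi ρ : ℝ)) ^ 2 ≤ 200 * 1 ^ 2 * (4 * a + 1) := h
    _ ≤ 600 + 400 * a ^ 2 := by nlinarith [sq_nonneg (a - 1)]
    _ ≤ 600 + 400 * (KK * AH T ((sg L 1 : ℝ) + τ * I) (5 / L)) := by gcongr
    _ = _ := by ring

lemma classH1 {T L V τ lam : ℝ} (hT : 20 ≤ T) (hL : L = Real.log T) (hL40 : 40 ≤ L) (hV : 2 ≤ V) (hVL : V ≤ L)
    (hlam : 1 ≤ lam)
    (hτ : 10 ≤ |τ|) (hτ3 : |τ| ≤ 3 * T) (hgood : ‖ET T ((sg L V : ℝ) + τ * I)‖ ≤ 1 / 2)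
    (hbad : 1 / 2 < ‖ET T ((sg L (V / 2) : ℝ) + τ * I)‖)
    (F : Finset ℂ) (hF : ∀ ρ ∈ F, xi ρ = 0 ∧ 0 ≤ L * (ρ.re - 1 / 2) ∧ L * (ρ.re - 1 / 2) ≤ V ∧
      L * |ρ.im - τ| ≤ 1) :
    (∑ ρ ∈ F, (analyticOrderNatAt xi ρ : ℝ)) ^ 2 ≤
      400 * V ^ 2 * KK * (lam⁻¹ * AH T ((sg L V : ℝ) + τ * I) ((4 * V + 1) / L) +
        6 * lam * ‖HT T ((sg L (V / 2) : ℝ) + τ * I)‖ ^ 2) := by
  obtain ⟨a, ha0, ha2, h⟩ := classH hT hL hL40 (by linarith) hVL hτ hτ3 hgood F hF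
  have hL0 : 0 < L := by linarith
  have hlam0 : 0 < lam := by linarith
  have hVL0 : V / L ≤ 1 := by rw [div_le_one hL0]; exact hVL
  have hVLp : 0 < V / L := by positivity
  have hσ : sg L (V / 2) = 1 / 2 + 2 * (V / L) := by unfold sg; ring
  have h1 := ET_c_le (σ := sg L (V / 2)) hT hτ hτ3 (by rw [hσ]; linarith) (by rw [hσ]; linarith)
  have h2 : 1 ≤ 4 * (KK * ‖HT T ((sg L (V / 2) : ℝ) + τ * I)‖ ^ 2) := by
    have h3 : (1/2:ℝ) ^ 2 ≤ ‖ET T ((sg L (V / 2) : ℝ) + τ * I)‖ ^ 2 := by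
      apply pow_le_pow_left₀ (by norm_num) hbad.le
    linarith
  set H := KK * ‖HT T ((sg L (V / 2) : ℝ) + τ * I)‖ ^ 2 with hH
  have h4 : 4 * a + 1 ≤ 2 * (lam⁻¹ * a ^ 2) + 3 * lam := by
    have h5 : 4 * a ≤ 2 * (lam⁻¹ * a ^ 2) + 2 * lam := by
      have h6 : lam⁻¹ * (a - lam) ^ 2 ≥ 0 := by positivity
      have h7 : lam⁻¹ * (a - lam) ^ 2 = lam⁻¹ * a ^ 2 - 2 * a + lam := by
        field_simp
        ring
      linarith
    linarith
  calc (∑ ρ ∈ F, (analyticOrderNatAt xi ρ : ℝ)) ^ 2 ≤ 200 * V ^ 2 * (4 * a + 1) := h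
    _ ≤ 200 * V ^ 2 * (2 * (lam⁻¹ * a ^ 2) + 3 * lam * (4 * H)) := by
        apply mul_le_mul_of_nonneg_left _ (by positivity)
        refine h4.trans ?_
        have : 3 * lam * 1 ≤ 3 * lam * (4 * H) := by gcongr
        linarith
    _ ≤ 200 * V ^ 2 * (2 * (lam⁻¹ * (KK * AH T ((sg L V : ℝ) + τ * I) ((4 * V + 1) / L))) + 3 * lam * (4 * H)) := by
        gcongr
    _ = _ := by rw [hH]; ring

end Pool.Agent.Helper57.LH
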