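import Pool.Agent.Helper57.LH.LocB

namespace Pool.Agent.Helper57.LH

open Complex Set MeasureTheory Filter Topology Metric
open Pool.Agent.Helper57.Zeta
open scoped ENNReal

lemma HT_cont2 (T : ℝ) {σ R : ℝ} (hR : 0 ≤ R) (hRσ : R < σ) :
    Continuous (Function.uncurry (fun τ θ : ℝ => ‖HT T (circleMap (σ + τ * I) R θ)‖ ^ 2)) := by
  have h1 : Continuous (fun p : ℝ × ℝ => circleMap ((σ:ℂ) + (p.1:ℂ) * I) R p.2) := by
    unfold circleMap
    fun_prop
  have h2 : Continuous (fun p : ℝ × ℝ => HT T (circleMap ((σ:ℂ) + (p.1:ℂ) * I) R p.2)) := by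
    rw [← continuousOn_univ]
    apply (HT_diff T).continuousOn.comp h1.continuousOn
    intro p _
    show -1 < (circleMap ((σ:ℂ) + (p.1:ℂ) * I) R p.2).re
    have h3 : ‖circleMap ((σ:ℂ) + (p.1:ℂ) * I) R p.2 - ((σ:ℂ) + (p.1:ℂ) * I)‖ = R := by
      simp [circleMap, abs_of_nonneg hR]
    have h4 := (abs_le.mp ((Complex.abs_re_le_norm _).trans h3.le)).1
    have e1 : (circleMap ((σ:ℂ) + (p.1:ℂ) * I) R p.2 - ((σ:ℂ) + (p.1:ℂ) * I)).re =
      (circleMap ((σ:ℂ) + (p.1:ℂ) * I) R p.2).re - σ := by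
      rw [Complex.sub_re]
      congr 1
      simp
    rw [e1] at h4
    linarith
  exact h2.norm.pow 2

lemma AH_eq (T : ℝ) (c : ℂ) (R : ℝ) : AH T c R = (2 * Real.pi)⁻¹ * ∫ θ in (0:ℝ)..(2 * Real.pi), ‖HT T (circleMap c R θ)‖ ^ 2 := rfl

lemma AH_cont (T : ℝ) {σ R : ℝ} (hR : 0 ≤ R) (hRσ : R < σ) : Continuous (fun τ : ℝ => AH T (σ + τ * I) R) := by
  simp_rw [AH_eq]
  exact continuous_const.mul
    (intervalIntegral.continuous_parametric_intervalIntegral_of_continuous' (HT_cont2 T hR hRσ) _ _)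

lemma dec_anti {T : ℝ} (hT : 1 ≤ T) {a b : ℝ} (h : a ≤ b) : dec T b ≤ dec T a := by
  unfold dec
  apply Real.exp_le_exp.mpr
  apply neg_le_neg
  have := Real.log_nonneg hT
  gcongr

/-- the energy constant -/
noncomputable def CE : ℝ := energy.choose

lemma CE_one : 1 ≤ CE := energy.choose_spec.1

lemma CE_energy {T σ : ℝ} (hT : 3 ^ 40 ≤ T) (h1 : 1 / 2 - 1 / Real.log T ≤ σ) (h2 : σ ≤ 9) :
    ∫ t : ℝ, ‖HT T (σ + t * I)‖ ^ 2 ≤ CE * T * dec T σ := energy.choose_spec.2 T hT σ h1 h2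

lemma log_T40 {T : ℝ} (hT : 3 ^ 40 ≤ T) : 40 ≤ Real.log T := by
  have h3 : Real.log (3 ^ 40) ≤ Real.log T := Real.log_le_log (by norm_num) hT
  rw [Real.log_pow] at h3
  have h4 : 1 ≤ Real.log 3 := by
    rw [Real.le_log_iff_exp_le (by norm_num)]
    have := Real.exp_one_lt_d9
    linarith
  push_cast at h3
  linarith

lemma int_H {T σ : ℝ} (hT : 3 ^ 40 ≤ T) (h1 : 1 / 2 - 1 / Real.log T ≤ σ) (h2 : σ ≤ 9) :
    ∫⁻ t : ℝ, ENNReal.ofReal (‖HT T (σ + t * I)‖ ^ 2) ≤ ENNReal.ofReal (CE * T * dec T σ) := by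
  have hT20 : (20:ℝ) ≤ T := le_trans (by norm_num) hT
  have hl := log_T40 hT
  have h14 : 1 / 4 ≤ σ := by
    have : 1 / Real.log T ≤ 1 / 40 := by gcongr
    linarith
  rw [← ofReal_integral_eq_lintegral_ofReal (HT_int (by linarith) h14 h2) (Eventually.of_forall fun t => by positivity)]
  exact ENNReal.ofReal_le_ofReal (CE_energy hT h1 h2)

lemma int_AH {T σ R : ℝ} (hT : 3 ^ 40 ≤ T) (hR : 0 ≤ R) (h1 : 1 / 2 - 1 / Real.log T ≤ σ - R) (h2 : σ + R ≤ 9) :
    ∫⁻ t : ℝ, ENNReal.ofReal (AH T (σ + t * I) R) ≤ ENNReal.ofReal (CE * T * dec T (σ - R)) := by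
  have hT20 : (20:ℝ) ≤ T := le_trans (by norm_num) hT
  have hl := log_T40 hT
  have hl1 : 1 / Real.log T ≤ 1 / 40 := by gcongr
  have hRσ : R < σ := by linarith
  have hc := HT_cont2 T hR hRσ
  have hCE := CE_one
  have hpi := Real.pi_pos
  -- pointwise expression as a lintegral
  have e1 : ∀ t : ℝ, ENNReal.ofReal (AH T (σ + t * I) R) =
      ENNReal.ofReal ((2 * Real.pi)⁻¹) * ∫⁻ θ in Ioc 0 (2 * Real.pi), ENNReal.ofReal (‖HT T (circleMap (σ + t * I) R θ)‖ ^ 2) := by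
    intro t
    have hct : Continuous (fun θ : ℝ => ‖HT T (circleMap (σ + t * I) R θ)‖ ^ 2) :=
        hc.uncurry_left t
    have hint : Integrable (fun θ : ℝ => ‖HT T (circleMap (σ + t * I) R θ)‖ ^ 2) (volume.restrict (Ioc 0 (2 * Real.pi))) :=
      (hct.intervalIntegrable 0 (2 * Real.pi)).1
    rw [AH_eq, ENNReal.ofReal_mul (by positivity), intervalIntegral.integral_of_le (by positivity),
      ofReal_integral_eq_lintegral_ofReal hint (Eventually.of_forall fun θ => by positivity)]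
  simp_rw [e1]
  rw [lintegral_const_mul' _ _ ENNReal.ofReal_ne_top]
  rw [lintegral_lintegral_swap]
  swap
  · exact (hc.measurable.ennreal_ofReal).aemeasurable
  have h3 : ∀ θ : ℝ, ∫⁻ t : ℝ, ENNReal.ofReal (‖HT T (circleMap (σ + t * I) R θ)‖ ^ 2) ≤
      ENNReal.ofReal (CE * T * dec T (σ - R)) := by
    intro θ
    have hcos := Real.neg_one_le_cos θ
    have hcos2 := Real.cos_le_one θ
    have hlo : -R ≤ R * Real.cos θ := by nlinarith
    have hhi : R * Real.cos θ ≤ R := by nlinarith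
    have e2 : ∀ t : ℝ, circleMap (σ + t * I) R θ = ((σ + R * Real.cos θ : ℝ) : ℂ) + ((t + R * Real.sin θ : ℝ) : ℂ) * I := by
      intro t
      unfold circleMap
      rw [Complex.exp_mul_I]
      push_cast
      ring
    simp_rw [e2]
    rw [lintegral_add_right_eq_self (fun t : ℝ => ENNReal.ofReal (‖HT T (((σ + R * Real.cos θ : ℝ) : ℂ) + (t : ℂ) * I)‖ ^ 2)) (R * Real.sin θ)]
    refine (int_H hT (by linarith) (by linarith)).trans ?_
    apply ENNReal.ofReal_le_ofReal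
    have : dec T (σ + R * Real.cos θ) ≤ dec T (σ - R) := dec_anti (by linarith) (by linarith)
    gcongr
  calc ENNReal.ofReal ((2 * Real.pi)⁻¹) * ∫⁻ θ in Ioc 0 (2 * Real.pi), ∫⁻ t : ℝ, ENNReal.ofReal (‖HT T (circleMap (σ + t * I) R θ)‖ ^ 2)
      ≤ ENNReal.ofReal ((2 * Real.pi)⁻¹) * ∫⁻ θ in Ioc 0 (2 * Real.pi), ENNReal.ofReal (CE * T * dec T (σ - R)) := by
        gcongr with θ
        exact h3 θ
    _ = _ := by
        rw [setLIntegral_const, Real.volume_Ioc, sub_zero, mul_comm (ENNReal.ofReal (CE * T * dec T (σ - R))), ← mul_assoc,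
          ← ENNReal.ofReal_mul (by positivity), inv_mul_cancel₀ (by positivity), ENNReal.ofReal_one, one_mul]

/-- the range of ordinates -/
def RA (T : ℝ) : Set ℝ := {τ | 10 ≤ |τ| ∧ |τ| ≤ 3 * T}

lemma RA_compact (T : ℝ) : IsCompact (RA T) := by
  apply Metric.isCompact_of_isClosed_isBounded
  · exact (isClosed_le continuous_const continuous_abs).inter (isClosed_le continuous_abs continuous_const)
  · apply (Metric.isBounded_closedBall (x := (0:ℝ)) (r := 3 * T)).subset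
    rintro τ ⟨_, h2⟩
    rw [Metric.mem_closedBall, Real.dist_eq, sub_zero]
    exact h2

lemma RA_meas (T : ℝ) : MeasurableSet (RA T) := (RA_compact T).measurableSet

lemma set_le_of_lint {f : ℝ → ℝ} (hf : Continuous f) (hf0 : ∀ t, 0 ≤ f t) {D : ℝ} (hD : 0 ≤ D)
    (h : ∫⁻ t, ENNReal.ofReal (f t) ≤ ENNReal.ofReal D) (S : Set ℝ) : ∫ t in S, f t ≤ D := by
  rw [integral_eq_lintegral_of_nonneg_ae (Eventually.of_forall hf0) hf.aestronglyMeasurable]
  apply ENNReal.toReal_le_of_le_ofReal hD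
  exact (setLIntegral_le_lintegral _ _).trans h

lemma RA_vol {T : ℝ} (hT : 0 ≤ T) : ∫ _ in RA T, (1:ℝ) ≤ 6 * T := by
  rw [setIntegral_const, smul_eq_mul, mul_one]
  have h1 : RA T ⊆ Icc (-(3 * T)) (3 * T) := by
    rintro τ ⟨_, h2⟩
    exact abs_le.mp h2
  calc volume.real (RA T) ≤ volume.real (Icc (-(3 * T)) (3 * T)) := measureReal_mono h1 (by simp)
    _ = 6 * T := by rw [Real.volume_real_Icc_of_le (by linarith)]; ring

/-- integral bounds for the two types of terms -/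
lemma setint_AH {T σ R : ℝ} (hT : 3 ^ 40 ≤ T) (hR : 0 ≤ R) (h1 : 1 / 2 - 1 / Real.log T ≤ σ - R) (h2 : σ + R ≤ 9) :
    ∫ t in RA T, AH T (σ + t * I) R ≤ CE * T * dec T (σ - R) := by
  have hT20 : (20:ℝ) ≤ T := le_trans (by norm_num) hT
  have hl := log_T40 hT
  have hl1 : 1 / Real.log T ≤ 1 / 40 := by gcongr
  have hCE := CE_one
  have : 0 < dec T (σ - R) := Real.exp_pos _
  exact set_le_of_lint (AH_cont T hR (by linarith)) (fun t => AH_nonneg _ _ _) (by positivity) (int_AH hT hR h1 h2) _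

lemma setint_H {T σ : ℝ} (hT : 3 ^ 40 ≤ T) (h1 : 1 / 2 - 1 / Real.log T ≤ σ) (h2 : σ ≤ 9) :
    ∫ t in RA T, ‖HT T (σ + t * I)‖ ^ 2 ≤ CE * T * dec T σ := by
  have hT20 : (20:ℝ) ≤ T := le_trans (by norm_num) hT
  have hl := log_T40 hT
  have hl1 : 1 / Real.log T ≤ 1 / 40 := by gcongr
  have hCE := CE_one
  have : 0 < dec T σ := Real.exp_pos _
  exact set_le_of_lint ((HT_cont T (by linarith)).norm.pow 2) (fun t => sq_nonneg _) (by positivity) (int_H hT h1 h2) _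

end Pool.Agent.Helper57.LH
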