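import Pool.Agent.Helper57.LH.LocC

namespace Pool.Agent.Helper57.LH

open Complex Set MeasureTheory Filter Topology Metric
open Pool.Agent.Helper57.Zeta
open scoped ENNReal

/-- the weight -/
noncomputable def Wt (B v : ℝ) : ℝ := (v / B) ^ 2 * Real.exp (v / B)

lemma Wt_nonneg (B v : ℝ) : 0 ≤ Wt B v := by unfold Wt; positivity

lemma Wt_mono {B : ℝ} (hB : 0 < B) {u v : ℝ} (hu : 0 ≤ u) (huv : u ≤ v) : Wt B u ≤ Wt B v := by
  unfold Wt; gcongr

/-- the good scales -/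
def good (T L : ℝ) (j : ℕ) (τ : ℝ) : Prop := ‖ET T ((sg L (2 ^ j) : ℝ) + τ * I)‖ ≤ 1 / 2

open Classical in
/-- number of zeros in the good classes -/
noncomputable def Gc (T L τ : ℝ) (F : Finset ℂ) (j : ℕ) : ℝ :=
  if good T L j τ then ∑ ρ ∈ F.filter (fun ρ => (2:ℝ) ^ j ≤ L * (ρ.re - 1 / 2) ∧ L * (ρ.re - 1 / 2) < 2 ^ (j + 1)),
    (analyticOrderNatAt xi ρ : ℝ) else 0

open Classical in
/-- number of zeros below the first good scale -/
noncomputable def Hc (T L τ : ℝ) (F : Finset ℂ) (j : ℕ) : ℝ :=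
  if good T L j τ ∧ (j = 0 ∨ ¬ good T L (j - 1) τ) then ∑ ρ ∈ F.filter (fun ρ => L * (ρ.re - 1 / 2) ≤ 2 ^ j),
    (analyticOrderNatAt xi ρ : ℝ) else 0

lemma Gc_nonneg (T L τ : ℝ) (F : Finset ℂ) (j : ℕ) : 0 ≤ Gc T L τ F j := by
  unfold Gc; split_ifs <;> positivity

lemma Hc_nonneg (T L τ : ℝ) (F : Finset ℂ) (j : ℕ) : 0 ≤ Hc T L τ F j := by
  unfold Hc; split_ifs <;> positivity

lemma split_scales {T L B τ : ℝ} (hB : 0 < B) {K : ℕ} (hK : good T L K τ) (F : Finset ℂ)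
    (hF : ∀ ρ ∈ F, 0 ≤ L * (ρ.re - 1 / 2) ∧ L * (ρ.re - 1 / 2) < 2 ^ K) :
    ∑ ρ ∈ F, (analyticOrderNatAt xi ρ : ℝ) * Wt B (L * (ρ.re - 1 / 2)) ≤
      ∑ j ∈ Finset.range (K + 1), (Wt B (2 ^ (j + 1)) * Gc T L τ F j + Wt B (2 ^ j) * Hc T L τ F j) := by
  classical
  have e : ∀ j : ℕ, Wt B (2 ^ (j + 1)) * Gc T L τ F j + Wt B (2 ^ j) * Hc T L τ F j =
      ∑ ρ ∈ F, (analyticOrderNatAt xi ρ : ℝ) *
        ((if good T L j τ ∧ ((2:ℝ) ^ j ≤ L * (ρ.re - 1 / 2) ∧ L * (ρ.re - 1 / 2) < 2 ^ (j + 1)) then Wt B (2 ^ (j + 1)) else 0) +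
        (if (good T L j τ ∧ (j = 0 ∨ ¬ good T L (j - 1) τ)) ∧ L * (ρ.re - 1 / 2) ≤ 2 ^ j then Wt B (2 ^ j) else 0)) := by
    intro j
    simp_rw [mul_add]
    rw [Finset.sum_add_distrib]
    congr 1
    · unfold Gc
      by_cases h : good T L j τ
      · rw [if_pos h, Finset.mul_sum, Finset.sum_filter]
        refine Finset.sum_congr rfl fun ρ _ => ?_
        by_cases h2 : ((2:ℝ) ^ j ≤ L * (ρ.re - 1 / 2) ∧ L * (ρ.re - 1 / 2) < 2 ^ (j + 1))
        · rw [if_pos h2, if_pos ⟨h, h2⟩]; ring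
        · rw [if_neg h2, if_neg (fun h3 => h2 h3.2)]; ring
      · rw [if_neg h, mul_zero]
        symm
        apply Finset.sum_eq_zero
        intro ρ _
        rw [if_neg (fun h3 => h h3.1), mul_zero]
    · unfold Hc
      by_cases h : good T L j τ ∧ (j = 0 ∨ ¬ good T L (j - 1) τ)
      · rw [if_pos h, Finset.mul_sum, Finset.sum_filter]
        refine Finset.sum_congr rfl fun ρ _ => ?_
        by_cases h2 : L * (ρ.re - 1 / 2) ≤ 2 ^ j
        · rw [if_pos h2, if_pos ⟨h, h2⟩]; ring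
        · rw [if_neg h2, if_neg (fun h3 => h2 h3.2)]; ring
      · rw [if_neg h, mul_zero]
        symm
        apply Finset.sum_eq_zero
        intro ρ _
        rw [if_neg (fun h3 => h h3.1), mul_zero]
  simp_rw [e]
  rw [Finset.sum_comm]
  refine Finset.sum_le_sum fun ρ hρ => ?_
  rw [← Finset.mul_sum]
  apply mul_le_mul_of_nonneg_left _ (Nat.cast_nonneg _)
  obtain ⟨h0, h1⟩ := hF ρ hρ
  set v := L * (ρ.re - 1 / 2) with hv
  have hex : ∃ j : ℕ, good T L j τ ∧ v < 2 ^ j := ⟨K, hK, h1⟩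
  set j := Nat.find hex with hj
  have hj1 : good T L j τ ∧ v < 2 ^ j := Nat.find_spec hex
  have hjK : j ≤ K := Nat.find_min' hex ⟨hK, h1⟩
  have hnn : ∀ i ∈ Finset.range (K + 1), 0 ≤ ((if good T L i τ ∧ ((2:ℝ) ^ i ≤ v ∧ v < 2 ^ (i + 1)) then Wt B (2 ^ (i + 1)) else 0) +
        (if (good T L i τ ∧ (i = 0 ∨ ¬ good T L (i - 1) τ)) ∧ v ≤ 2 ^ i then Wt B (2 ^ i) else 0)) := by
    intro i _
    apply add_nonneg
    · split_ifs
      · exact Wt_nonneg _ _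
      · exact le_rfl
    · split_ifs
      · exact Wt_nonneg _ _
      · exact le_rfl
  by_cases hc : j = 0 ∨ ¬ good T L (j - 1) τ
  · refine le_trans ?_ (Finset.single_le_sum hnn (Finset.mem_range.mpr (Nat.lt_succ_of_le hjK)))
    rw [if_pos (c := (good T L j τ ∧ (j = 0 ∨ ¬ good T L (j - 1) τ)) ∧ v ≤ 2 ^ j) ⟨⟨hj1.1, hc⟩, hj1.2.le⟩]
    have h2 := Wt_mono hB h0 hj1.2.le
    have h3 : 0 ≤ (if good T L j τ ∧ ((2:ℝ) ^ j ≤ v ∧ v < 2 ^ (j + 1)) then Wt B (2 ^ (j + 1)) else 0) := by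
      split_ifs
      · exact Wt_nonneg _ _
      · exact le_rfl
    linarith
  · push Not at hc
    obtain ⟨hj0, hgm⟩ := hc
    have hjm : j - 1 + 1 = j := Nat.succ_pred_eq_of_ne_zero hj0
    have hmin := Nat.find_min hex (m := j - 1) (by rw [← hj]; omega)
    have hv2 : (2:ℝ) ^ (j - 1) ≤ v := by
      by_contra hlt
      exact hmin ⟨hgm, not_le.mp hlt⟩
    refine le_trans ?_ (Finset.single_le_sum hnn (Finset.mem_range.mpr (show j - 1 < K + 1 by omega)))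
    rw [if_pos (c := good T L (j - 1) τ ∧ ((2:ℝ) ^ (j - 1) ≤ v ∧ v < 2 ^ (j - 1 + 1))) ⟨hgm, hv2, by rw [hjm]; exact hj1.2⟩, hjm]
    have h2 := Wt_mono hB h0 hj1.2.le
    have h3 : 0 ≤ (if (good T L (j - 1) τ ∧ (j - 1 = 0 ∨ ¬ good T L (j - 1 - 1) τ)) ∧ v ≤ 2 ^ (j - 1) then Wt B (2 ^ (j - 1)) else 0) := by
      split_ifs
      · exact Wt_nonneg _ _
      · exact le_rfl
    linarith

lemma sum_half_pow (K : ℕ) : ∑ j ∈ Finset.range K, ((1:ℝ) / 2) ^ j ≤ 2 := by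
  have h : ∑ j ∈ Finset.range K, ((1:ℝ) / 2) ^ j = 2 - 2 * (1 / 2) ^ K := by
    induction K with
    | zero => simp
    | succ K ih => rw [Finset.sum_range_succ, ih]; ring
  rw [h]
  have : (0:ℝ) < (1 / 2) ^ K := by positivity
  linarith

lemma cs_scales (K : ℕ) (a b : ℕ → ℝ) :
    (∑ j ∈ Finset.range (K + 1), (a j + b j)) ^ 2 ≤ ∑ j ∈ Finset.range (K + 1), 4 * 2 ^ j * (a j ^ 2 + b j ^ 2) := by
  have h := Finset.sq_sum_div_le_sum_sq_div (Finset.range (K + 1)) (fun j => a j + b j) (g := fun j => ((1:ℝ) / 2) ^ j)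
    (fun i _ => by positivity)
  have hS : 0 < ∑ j ∈ Finset.range (K + 1), ((1:ℝ) / 2) ^ j := by
    apply Finset.sum_pos
    · intro i _; positivity
    · exact ⟨0, by simp⟩
  rw [div_le_iff₀ hS] at h
  refine h.trans ?_
  have hnn : 0 ≤ ∑ i ∈ Finset.range (K + 1), (a i + b i) ^ 2 / ((1:ℝ) / 2) ^ i := by positivity
  calc (∑ i ∈ Finset.range (K + 1), (a i + b i) ^ 2 / ((1:ℝ) / 2) ^ i) * ∑ j ∈ Finset.range (K + 1), ((1:ℝ) / 2) ^ j
      ≤ (∑ i ∈ Finset.range (K + 1), (a i + b i) ^ 2 / ((1:ℝ) / 2) ^ i) * 2 := by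
        gcongr
        exact sum_half_pow _
    _ = ∑ i ∈ Finset.range (K + 1), 2 * 2 ^ i * (a i + b i) ^ 2 := by
        rw [Finset.sum_mul]
        refine Finset.sum_congr rfl fun i _ => ?_
        rw [one_div, inv_pow, div_inv_eq_mul]
        ring
    _ ≤ _ := by
        refine Finset.sum_le_sum fun i _ => ?_
        have h2 : (0:ℝ) < 2 ^ i := by positivity
        nlinarith [sq_nonneg (a i - b i)]

/-- The dominating function. -/
noncomputable def Psi (T L B : ℝ) (j : ℕ) (τ : ℝ) : ℝ :=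
  4 * 2 ^ j * ((Wt B (2 * 2 ^ j)) ^ 2 * (KK * (72 * AH T ((sg L (2 ^ j) : ℝ) + τ * I) (39 / 10 * 2 ^ j / L) +
      288 * ‖HT T ((sg L (2 ^ j) : ℝ) + τ * I)‖ ^ 2)) +
    (Wt B (2 ^ j)) ^ 2 * (if j = 0 then 600 + 400 * KK * AH T ((sg L 1 : ℝ) + τ * I) (5 / L) else
      400 * (2 ^ j) ^ 2 * KK * ((Real.exp (2 ^ j / 160))⁻¹ * AH T ((sg L (2 ^ j) : ℝ) + τ * I) ((4 * 2 ^ j + 1) / L) +
        6 * Real.exp (2 ^ j / 160) * ‖HT T ((sg L (2 ^ j / 2) : ℝ) + τ * I)‖ ^ 2)))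

/-- pointwise bound for local counts with weights -/
lemma pointwise_Q {T L B τ : ℝ} (hT : 3 ^ 40 ≤ T) (hL : L = Real.log T) (hB : 0 < B) {K : ℕ} (hK : good T L K τ)
    (hKL : (2:ℝ) ^ K ≤ L) (hτ : τ ∈ RA T) (F : Finset ℂ)
    (hF : ∀ ρ ∈ F, xi ρ = 0 ∧ 0 ≤ L * (ρ.re - 1 / 2) ∧ L * (ρ.re - 1 / 2) < 2 ^ K ∧ L * |ρ.im - τ| ≤ 1) :
    (∑ ρ ∈ F, (analyticOrderNatAt xi ρ : ℝ) * Wt B (L * (ρ.re - 1 / 2))) ^ 2 ≤
      ∑ j ∈ Finset.range (K + 1), Psi T L B j τ := by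
  classical
  have hT20 : (20:ℝ) ≤ T := le_trans (by norm_num) hT
  have hL40 : 40 ≤ L := by rw [hL]; exact log_T40 hT
  have h1 := split_scales hB hK F (fun ρ hρ => ⟨(hF ρ hρ).2.1, (hF ρ hρ).2.2.1⟩)
  have h0 : 0 ≤ ∑ ρ ∈ F, (analyticOrderNatAt xi ρ : ℝ) * Wt B (L * (ρ.re - 1 / 2)) :=
    Finset.sum_nonneg fun ρ _ => mul_nonneg (Nat.cast_nonneg _) (Wt_nonneg _ _)
  refine (pow_le_pow_left₀ h0 h1 2).trans ((cs_scales K _ _).trans ?_)
  refine Finset.sum_le_sum fun j hj => ?_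
  rw [Finset.mem_range] at hj
  have h2j : (2:ℝ) ^ j ≤ L := le_trans (pow_le_pow_right₀ (by norm_num) (by omega)) hKL
  have h1j : (1:ℝ) ≤ 2 ^ j := one_le_pow₀ (by norm_num)
  unfold Psi
  rw [mul_pow, mul_pow]
  rw [show (2:ℝ) ^ (j + 1) = 2 * 2 ^ j by ring]
  apply mul_le_mul_of_nonneg_left _ (by positivity)
  apply add_le_add
  · apply mul_le_mul_of_nonneg_left _ (by positivity)
    unfold Gc
    by_cases hg : good T L j τ
    · rw [if_pos hg]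
      apply classG hT20 hL hL40 h1j h2j hτ.1 hτ.2 hg
      intro ρ hρ
      rw [Finset.mem_filter] at hρ
      obtain ⟨hρF, hρ1, hρ2⟩ := hρ
      obtain ⟨hx, hv0, _, hu⟩ := hF ρ hρF
      refine ⟨hx, hρ1, ?_, hu⟩
      rw [pow_succ] at hρ2
      linarith
    · rw [if_neg hg]
      have := AH_nonneg T ((sg L (2 ^ j) : ℝ) + τ * I) (39 / 10 * 2 ^ j / L)
      have := KK_pos
      rw [zero_pow two_ne_zero]
      positivity
  · apply mul_le_mul_of_nonneg_left _ (by positivity)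
    unfold Hc
    by_cases hg : good T L j τ ∧ (j = 0 ∨ ¬ good T L (j - 1) τ)
    · rw [if_pos hg]
      by_cases hj0 : j = 0
      · rw [if_pos hj0]
        subst hj0
        apply classH0 hT20 hL hL40 hτ.1 hτ.2
        · have := hg.1
          unfold good at this
          rwa [pow_zero] at this
        · intro ρ hρ
          rw [Finset.mem_filter] at hρ
          obtain ⟨hρF, hρ1⟩ := hρ
          obtain ⟨hx, hv0, _, hu⟩ := hF ρ hρF
          rw [pow_zero] at hρ1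
          exact ⟨hx, hv0, hρ1, hu⟩
      · rw [if_neg hj0]
        have hbad : ¬ good T L (j - 1) τ := by
          rcases hg.2 with h | h
          · exact absurd h hj0
          · exact h
        obtain ⟨i, rfl⟩ : ∃ i, j = i + 1 := ⟨j - 1, by omega⟩
        apply classH1 (lam := Real.exp (2 ^ (i + 1) / 160)) hT20 hL hL40 _ h2j (Real.one_le_exp (by positivity)) hτ.1 hτ.2 hg.1
        · unfold good at hbad
          rw [show (2:ℝ) ^ (i + 1) / 2 = 2 ^ (i + 1 - 1) by rw [pow_succ]; simp]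
          exact not_le.mp hbad
        · intro ρ hρ
          rw [Finset.mem_filter] at hρ
          obtain ⟨hρF, hρ1⟩ := hρ
          obtain ⟨hx, hv0, _, hu⟩ := hF ρ hρF
          exact ⟨hx, hv0, hρ1, hu⟩
        · have : (1:ℝ) ≤ 2 ^ i := one_le_pow₀ (by norm_num)
          rw [pow_succ]; linarith
    · rw [if_neg hg]
      split_ifs with hj0
      · have := AH_nonneg T ((sg L 1 : ℝ) + τ * I) (5 / L)
        have := KK_pos
        rw [zero_pow two_ne_zero]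
        positivity
      · have := AH_nonneg T ((sg L (2 ^ j) : ℝ) + τ * I) ((4 * 2 ^ j + 1) / L)
        have := KK_pos
        rw [zero_pow two_ne_zero]
        positivity

end Pool.Agent.Helper57.LH
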