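import Pool.Agent.Helper57.LH.LocD

namespace Pool.Agent.Helper57.LH

open Complex Set MeasureTheory Filter Topology Metric
open Pool.Agent.Helper57.Zeta
open scoped ENNReal

lemma dec_le_one {T : ℝ} (hT : 1 ≤ T) (σ : ℝ) : dec T σ ≤ 1 := by
  unfold dec
  apply Real.exp_le_one_iff.mpr
  have := Real.log_nonneg hT
  have h2 : 0 ≤ min (max (σ - 1 / 2) 0) (3 / 2) := le_min (le_max_right _ _) (by norm_num)
  have := mul_nonneg (div_nonneg this (by norm_num : (0:ℝ) ≤ 120)) h2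
  linarith

lemma dec_half {T x : ℝ} (hx : 0 ≤ x) (hx2 : x ≤ 3 / 2) : dec T (1 / 2 + x) = Real.exp (-(Real.log T / 120 * x)) := by
  unfold dec
  rw [show 1 / 2 + x - 1 / 2 = x by ring, max_eq_left hx, min_eq_left hx2]

/-- polynomial versus exponential -/
lemma poly_exp {w : ℝ} (hw : 1 ≤ w) {k : ℕ} (hk : k ≤ 7) :
    w ^ k * Real.exp (-(w / 2400)) ≤ (40320 * 2400 ^ 8) * (1 / w) := by
  have h := Real.pow_div_factorial_le_exp (w / 2400) (by positivity) 8
  have h8 : ((Nat.factorial 8 : ℕ) : ℝ) = 40320 := by norm_num [Nat.factorial]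
  rw [h8, div_pow, div_div, div_le_iff₀ (by positivity)] at h
  have hw0 : 0 < w := by linarith
  have h2 : w ^ k ≤ w ^ 7 := pow_le_pow_right₀ hw hk
  have h3 : w ^ 7 * Real.exp (-(w / 2400)) ≤ (40320 * 2400 ^ 8) * (1 / w) := by
    rw [Real.exp_neg, ← div_eq_mul_inv, div_le_iff₀ (Real.exp_pos _), mul_one_div, div_mul_eq_mul_div, le_div_iff₀ hw0]
    calc w ^ 7 * w = w ^ 8 := by ring
      _ ≤ _ := by linarith
  refine le_trans ?_ h3
  gcongr

/-- constant -/
noncomputable def C8 : ℝ := 40320 * 2400 ^ 8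

lemma C8_pos : 0 < C8 := by unfold C8; positivity

lemma WtG_le {B w : ℝ} (hB : 9600 ≤ B) (hw : 1 ≤ w) :
    (Wt B (2 * w)) ^ 2 ≤ 16 / B ^ 4 * (w ^ 4 * Real.exp (w / 2400)) := by
  unfold Wt
  have hB0 : 0 < B := by linarith
  rw [mul_pow, ← Real.exp_nat_mul]
  have h1 : Real.exp (((2:ℕ):ℝ) * (2 * w / B)) ≤ Real.exp (w / 2400) := by
    apply Real.exp_le_exp.mpr
    rw [show ((2:ℕ):ℝ) * (2 * w / B) = 4 * w / B by push_cast; ring, div_le_div_iff₀ hB0 (by norm_num)]
    nlinarith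
  calc ((2 * w / B) ^ 2) ^ 2 * Real.exp (((2:ℕ):ℝ) * (2 * w / B)) ≤ ((2 * w / B) ^ 2) ^ 2 * Real.exp (w / 2400) := by gcongr
    _ = _ := by
      field_simp
      ring

lemma WtH_le {B w : ℝ} (hB : 9600 ≤ B) (hw : 1 ≤ w) :
    (Wt B w) ^ 2 ≤ 1 / B ^ 4 * (w ^ 4 * Real.exp (w / 4800)) := by
  unfold Wt
  have hB0 : 0 < B := by linarith
  rw [mul_pow, ← Real.exp_nat_mul]
  have h1 : Real.exp (((2:ℕ):ℝ) * (w / B)) ≤ Real.exp (w / 4800) := by
    apply Real.exp_le_exp.mpr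
    rw [show ((2:ℕ):ℝ) * (w / B) = 2 * w / B by push_cast; ring, div_le_div_iff₀ hB0 (by norm_num)]
    nlinarith
  calc ((w / B) ^ 2) ^ 2 * Real.exp (((2:ℕ):ℝ) * (w / B)) ≤ ((w / B) ^ 2) ^ 2 * Real.exp (w / 4800) := by gcongr
    _ = _ := by
      field_simp

lemma ion {f : ℝ → ℝ} (hf : Continuous f) (T : ℝ) : IntegrableOn f (RA T) :=
  hf.continuousOn.integrableOn_compact (RA_compact T)

/-- constant -/
noncomputable def CP : ℝ := 23040 * KK * CE * C8 + 11200 * KK * CE * C8 + 8 * (3600 + 400 * KK * CE)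

lemma CP_pos : 0 < CP := by
  unfold CP
  have := KK_pos
  have := C8_pos
  have := CE_one
  positivity

lemma Psi_cont {T L B : ℝ} (hL40 : 40 ≤ L) (j : ℕ) :
    Continuous (fun τ => Psi T L B j τ) := by
  have hL0 : 0 < L := by linarith
  have hw : (1:ℝ) ≤ 2 ^ j := one_le_pow₀ (by norm_num)
  set w : ℝ := 2 ^ j with hwdef
  have h1L : 1 / L ≤ 1 / 40 := by gcongr
  have hwLp : 0 < w / L := by positivity
  have hsw : sg L w = 1 / 2 + 4 * (w / L) := by unfold sg; ring
  have c1 : Continuous (fun τ : ℝ => AH T ((sg L w : ℝ) + τ * I) (39 / 10 * w / L)) := by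
    apply AH_cont T (by positivity)
    rw [hsw]
    have : 39 / 10 * w / L = 39 / 10 * (w / L) := by ring
    linarith
  have c2 : Continuous (fun τ : ℝ => ‖HT T ((sg L w : ℝ) + τ * I)‖ ^ 2) := (HT_cont T (by rw [hsw]; linarith)).norm.pow 2
  have c3 : Continuous (fun τ : ℝ => AH T ((sg L 1 : ℝ) + τ * I) (5 / L)) := by
    apply AH_cont T (by positivity)
    have h1 : sg L 1 = 1 / 2 + 4 * (1 / L) := by unfold sg; ring
    have : 5 / L = 5 * (1 / L) := by ring
    rw [h1]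
    linarith
  have c4 : Continuous (fun τ : ℝ => AH T ((sg L w : ℝ) + τ * I) ((4 * w + 1) / L)) := by
    apply AH_cont T (by positivity)
    rw [hsw]
    have : (4 * w + 1) / L = 4 * (w / L) + 1 / L := by ring
    linarith
  have c5 : Continuous (fun τ : ℝ => ‖HT T ((sg L (w / 2) : ℝ) + τ * I)‖ ^ 2) := by
    have h1 : sg L (w / 2) = 1 / 2 + 2 * (w / L) := by unfold sg; ring
    exact (HT_cont T (by rw [h1]; linarith)).norm.pow 2
  unfold Psi
  simp only [← hwdef]
  apply continuous_const.mul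
  apply Continuous.add
  · exact continuous_const.mul (continuous_const.mul ((continuous_const.mul c1).add (continuous_const.mul c2)))
  · apply continuous_const.mul
    by_cases hj : j = 0
    · simp only [hj, if_true]
      exact continuous_const.add (continuous_const.mul c3)
    · simp only [hj, if_false]
      exact continuous_const.mul ((continuous_const.mul c4).add (continuous_const.mul c5))

lemma Psi_nonneg (T L B : ℝ) (j : ℕ) (τ : ℝ) : 0 ≤ Psi T L B j τ := by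
  unfold Psi
  have hK := KK_pos
  have h1 := AH_nonneg T ((sg L (2 ^ j) : ℝ) + τ * I) (39 / 10 * 2 ^ j / L)
  have h2 := AH_nonneg T ((sg L 1 : ℝ) + τ * I) (5 / L)
  have h3 := AH_nonneg T ((sg L (2 ^ j) : ℝ) + τ * I) ((4 * 2 ^ j + 1) / L)
  apply mul_nonneg (by positivity)
  apply add_nonneg (by positivity)
  apply mul_nonneg (by positivity)
  split_ifs <;> positivity

lemma lin2 {f g : ℝ → ℝ} (hf : Continuous f) (hg : Continuous g) (T a b : ℝ) :
    ∫ τ in RA T, (a * f τ + b * g τ) = a * (∫ τ in RA T, f τ) + b * ∫ τ in RA T, g τ := by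
  have h := integral_add (μ := volume.restrict (RA T)) (f := fun τ => a * f τ) (g := fun τ => b * g τ)
    (ion (continuous_const.mul hf) T) (ion (continuous_const.mul hg) T)
  rw [h, integral_const_mul, integral_const_mul]

lemma calcG {w B T I1 I2 : ℝ} (hB : 9600 ≤ B) (hw : 1 ≤ w) (hT : 0 < T)
    (h1 : I1 ≤ CE * T * Real.exp (-(w / 1200))) (h2 : I2 ≤ CE * T * Real.exp (-(w / 1200)))
    (h10 : 0 ≤ I1) (h20 : 0 ≤ I2) :
    4 * w * ((Wt B (2 * w)) ^ 2 * (KK * (72 * I1 + 288 * I2))) ≤ 23040 * KK * CE * C8 * (T / B ^ 4) * (1 / w) := by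
  have hWG := WtG_le hB hw
  have hCE := CE_one
  have hKK := KK_pos
  have hC8 := C8_pos
  calc 4 * w * ((Wt B (2 * w)) ^ 2 * (KK * (72 * I1 + 288 * I2)))
        ≤ 4 * w * ((16 / B ^ 4 * (w ^ 4 * Real.exp (w / 2400))) * (KK *
        (72 * (CE * T * Real.exp (-(w / 1200))) + 288 * (CE * T * Real.exp (-(w / 1200)))))) := by
          gcongr
      _ = 23040 * KK * CE * (T / B ^ 4) * (w ^ 5 * (Real.exp (w / 2400) * Real.exp (-(w / 1200)))) := by ring
      _ = 23040 * KK * CE * (T / B ^ 4) * (w ^ 5 * Real.exp (-(w / 2400))) := by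
          rw [← Real.exp_add]
          have : w / 2400 + -(w / 1200) = -(w / 2400) := by ring
          rw [this]
      _ ≤ 23040 * KK * CE * (T / B ^ 4) * (C8 * (1 / w)) := by
          have := poly_exp hw (k := 5) (by norm_num)
          unfold C8
          gcongr
      _ = _ := by ring

lemma calcH1 {w B T I4 I5 : ℝ} (hB : 9600 ≤ B) (hw : 1 ≤ w) (hT : 0 < T)
    (h1 : I4 ≤ CE * T) (h2 : I5 ≤ CE * T * Real.exp (-(w / 80)))
    (h10 : 0 ≤ I4) (h20 : 0 ≤ I5) :
    4 * w * ((Wt B w) ^ 2 * (400 * w ^ 2 * KK * ((Real.exp (w / 160))⁻¹ * I4 + 6 * Real.exp (w / 160) * I5)))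
      ≤ 11200 * KK * CE * C8 * (T / B ^ 4) * (1 / w) := by
  have hWH := WtH_le hB hw
  have hCE := CE_one
  have hKK := KK_pos
  have hC8 := C8_pos
  calc 4 * w * ((Wt B w) ^ 2 * (400 * w ^ 2 * KK * ((Real.exp (w / 160))⁻¹ * I4 + 6 * Real.exp (w / 160) * I5)))
          ≤ 4 * w * ((1 / B ^ 4 * (w ^ 4 * Real.exp (w / 4800))) * (400 * w ^ 2 * KK * ((Real.exp (w / 160))⁻¹ * (CE * T) +
        6 * Real.exp (w / 160) * (CE * T * Real.exp (-(w / 80)))))) := by
            gcongr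
        _ = 1600 * KK * CE * (T / B ^ 4) * (w ^ 7 * (Real.exp (w / 4800) * Real.exp (-(w / 160)) + 6 * (Real.exp (w / 4800) * Real.exp (w / 160) * Real.exp (-(w / 80))))) := by
            rw [← Real.exp_neg]; ring
        _ = 1600 * KK * CE * (T / B ^ 4) * (w ^ 7 * (7 * Real.exp (w / 4800 - w / 160))) := by
            rw [← Real.exp_add, ← Real.exp_add, ← Real.exp_add]
            rw [show w / 4800 + -(w / 160) = w / 4800 - w / 160 by ring,
              show w / 4800 + w / 160 + -(w / 80) = w / 4800 - w / 160 by ring]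
            ring
        _ ≤ 1600 * KK * CE * (T / B ^ 4) * (w ^ 7 * (7 * Real.exp (-(w / 2400)))) := by
            gcongr
            linarith
        _ = 11200 * KK * CE * (T / B ^ 4) * (w ^ 7 * Real.exp (-(w / 2400))) := by ring
        _ ≤ 11200 * KK * CE * (T / B ^ 4) * (C8 * (1 / w)) := by
            have := poly_exp hw (k := 7) (by norm_num)
            unfold C8
            gcongr
        _ = _ := by ring

lemma calcH0 {B T I0 I3 : ℝ} (hB : 9600 ≤ B) (hT : 0 < T)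
    (h1 : I0 ≤ 6 * T) (h2 : I3 ≤ CE * T) (h10 : 0 ≤ I0) (h20 : 0 ≤ I3) :
    4 * 1 * ((Wt B 1) ^ 2 * (600 * I0 + 400 * KK * I3)) ≤ 8 * (3600 + 400 * KK * CE) * (T / B ^ 4) := by
  have hWH := WtH_le hB (w := 1) le_rfl
  have hCE := CE_one
  have hKK := KK_pos
  have hexp : Real.exp (1 / 4800) ≤ 2 := by
    have h2 : Real.exp (1 / 4800) ≤ Real.exp (1 / 2) := Real.exp_le_exp.mpr (by norm_num)
    have h3 : Real.exp (1 / 2) ^ 2 = Real.exp 1 := by rw [← Real.exp_nat_mul]; norm_num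
    have h4 := Real.exp_one_lt_d9
    have h5 := Real.exp_pos (1 / 2)
    nlinarith
  have hW2 : (Wt B 1) ^ 2 ≤ 1 / B ^ 4 * (1 ^ 4 * 2) := by
    refine hWH.trans ?_
    gcongr
  calc 4 * 1 * ((Wt B 1) ^ 2 * (600 * I0 + 400 * KK * I3))
      ≤ 4 * 1 * ((1 / B ^ 4 * (1 ^ 4 * 2)) * (600 * (6 * T) + 400 * KK * (CE * T))) := by
        gcongr
    _ = _ := by ring

lemma int_Psi {T L B : ℝ} (hT : 3 ^ 40 ≤ T) (hL : L = Real.log T) (hB : 9600 ≤ B) {j : ℕ} (hj : (2:ℝ) ^ j ≤ L) :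
    ∫ τ in RA T, Psi T L B j τ ≤ CP * (T / B ^ 4) * (1 / 2) ^ j := by
  have hT20 : (20:ℝ) ≤ T := le_trans (by norm_num) hT
  have hL40 : 40 ≤ L := by rw [hL]; exact log_T40 hT
  have hL0 : 0 < L := by linarith
  have hB0 : 0 < B := by linarith
  have hT0 : 0 < T := by linarith
  have hw : (1:ℝ) ≤ 2 ^ j := one_le_pow₀ (by norm_num)
  have hinv : ((1:ℝ) / 2) ^ j = 1 / 2 ^ j := by rw [one_div_pow]
  rw [hinv]
  have h1L : 1 / L ≤ 1 / 40 := by gcongr
  have h1Lp : 0 < 1 / L := by positivity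
  have hCE := CE_one
  have hKK := KK_pos
  have hC8 := C8_pos
  have hwL : (2:ℝ) ^ j / L ≤ 1 := by rw [div_le_one hL0]; exact hj
  have hwLp : 0 < (2:ℝ) ^ j / L := by positivity
  have e0 : ∀ τ, Psi T L B j τ =
    4 * 2 ^ j * ((Wt B (2 * 2 ^ j)) ^ 2 * (KK * (72 * AH T ((sg L (2 ^ j) : ℝ) + τ * I) (39 / 10 * 2 ^ j / L) +
      288 * ‖HT T ((sg L (2 ^ j) : ℝ) + τ * I)‖ ^ 2)) +
    (Wt B (2 ^ j)) ^ 2 * (if j = 0 then 600 + 400 * KK * AH T ((sg L 1 : ℝ) + τ * I) (5 / L) else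
      400 * (2 ^ j) ^ 2 * KK * ((Real.exp (2 ^ j / 160))⁻¹ * AH T ((sg L (2 ^ j) : ℝ) + τ * I) ((4 * 2 ^ j + 1) / L) +
        6 * Real.exp (2 ^ j / 160) * ‖HT T ((sg L (2 ^ j / 2) : ℝ) + τ * I)‖ ^ 2))) := fun τ => rfl
  have hw0 : j = 0 → (2:ℝ) ^ j = 1 := fun h => by rw [h, pow_zero]
  generalize (2:ℝ) ^ j = w at *
  have hsw : sg L w = 1 / 2 + 4 * (w / L) := by unfold sg; ring
  have eR1 : 39 / 10 * w / L = 39 / 10 * (w / L) := by ring
  have eR4 : (4 * w + 1) / L = 4 * (w / L) + 1 / L := by ring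
  have hs5 : sg L (w / 2) = 1 / 2 + 2 * (w / L) := by unfold sg; ring
  have hs1 : sg L 1 = 1 / 2 + 4 * (1 / L) := by unfold sg; ring
  have eR3 : 5 / L = 5 * (1 / L) := by ring
  have c1 : Continuous (fun τ : ℝ => AH T ((sg L w : ℝ) + τ * I) (39 / 10 * w / L)) := by
    apply AH_cont T (by positivity)
    rw [hsw, eR1]; linarith
  have c2 : Continuous (fun τ : ℝ => ‖HT T ((sg L w : ℝ) + τ * I)‖ ^ 2) := (HT_cont T (by rw [hsw]; linarith)).norm.pow 2
  have c3 : Continuous (fun τ : ℝ => AH T ((sg L 1 : ℝ) + τ * I) (5 / L)) := by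
    apply AH_cont T (by positivity)
    rw [hs1, eR3]
    linarith
  have c4 : Continuous (fun τ : ℝ => AH T ((sg L w : ℝ) + τ * I) ((4 * w + 1) / L)) := by
    apply AH_cont T (by positivity)
    rw [hsw, eR4]
    linarith
  have c5 : Continuous (fun τ : ℝ => ‖HT T ((sg L (w / 2) : ℝ) + τ * I)‖ ^ 2) :=
    (HT_cont T (by rw [hs5]; linarith)).norm.pow 2
  -- the integrals
  have hdec1 : dec T (1 / 2 + 1 / 10 * (w / L)) = Real.exp (-(w / 1200)) := by
    rw [dec_half (by positivity) (by linarith), ← hL]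
    congr 1
    field_simp
    ring
  have hdec5 : dec T (1 / 2 + 3 / 2 * (w / L)) = Real.exp (-(w / 80)) := by
    rw [dec_half (by positivity) (by linarith), ← hL]
    congr 1
    field_simp
    ring
  have i1 : ∫ τ in RA T, AH T ((sg L w : ℝ) + τ * I) (39 / 10 * w / L) ≤ CE * T * Real.exp (-(w / 1200)) := by
    have h := setint_AH (σ := sg L w) (R := 39 / 10 * w / L) hT (by positivity) (by rw [hsw, eR1, ← hL]; linarith) (by rw [hsw, eR1]; linarith)
    rw [show sg L w - 39 / 10 * w / L = 1 / 2 + 1 / 10 * (w / L) by rw [hsw]; ring, hdec1] at h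
    exact h
  have i2 : ∫ τ in RA T, ‖HT T ((sg L w : ℝ) + τ * I)‖ ^ 2 ≤ CE * T * Real.exp (-(w / 1200)) := by
    have h := setint_H (σ := sg L w) hT (by rw [hsw, ← hL]; linarith) (by rw [hsw]; linarith)
    refine h.trans ?_
    rw [← hdec1]
    have : dec T (sg L w) ≤ dec T (1 / 2 + 1 / 10 * (w / L)) := dec_anti (by linarith) (by rw [hsw]; linarith)
    gcongr
  have i3 : ∫ τ in RA T, AH T ((sg L 1 : ℝ) + τ * I) (5 / L) ≤ CE * T := by
    have h := setint_AH (σ := sg L 1) (R := 5 / L) hT (by positivity) (by rw [hs1, eR3, ← hL]; linarith) (by rw [hs1, eR3]; linarith)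
    refine h.trans ?_
    calc CE * T * dec T (sg L 1 - 5 / L) ≤ CE * T * 1 := by
          have := dec_le_one (T := T) (by linarith) (sg L 1 - 5 / L)
          gcongr
      _ = _ := by ring
  have i4 : ∫ τ in RA T, AH T ((sg L w : ℝ) + τ * I) ((4 * w + 1) / L) ≤ CE * T := by
    have h := setint_AH (σ := sg L w) (R := (4 * w + 1) / L) hT (by positivity) (by rw [hsw, eR4, ← hL]; linarith) (by rw [hsw, eR4]; linarith)
    refine h.trans ?_
    calc CE * T * dec T (sg L w - (4 * w + 1) / L) ≤ CE * T * 1 := by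
          have := dec_le_one (T := T) (by linarith) (sg L w - (4 * w + 1) / L)
          gcongr
      _ = _ := by ring
  have i5 : ∫ τ in RA T, ‖HT T ((sg L (w / 2) : ℝ) + τ * I)‖ ^ 2 ≤ CE * T * Real.exp (-(w / 80)) := by
    have h := setint_H (σ := sg L (w / 2)) hT (by rw [hs5, ← hL]; linarith) (by rw [hs5]; linarith)
    refine h.trans ?_
    rw [← hdec5]
    have : dec T (sg L (w / 2)) ≤ dec T (1 / 2 + 3 / 2 * (w / L)) := dec_anti (by linarith) (by rw [hs5]; linarith)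
    gcongr
  -- split
  have hG := calcG hB hw hT0 i1 i2 (integral_nonneg fun _ => AH_nonneg _ _ _) (integral_nonneg fun _ => sq_nonneg _)
  rw [← lin2 c1 c2, ← integral_const_mul, ← integral_const_mul, ← integral_const_mul] at hG
  simp_rw [e0, mul_add (4 * w)]
  have cG : Continuous (fun τ : ℝ => 4 * w * ((Wt B (2 * w)) ^ 2 * (KK * (72 * AH T ((sg L w : ℝ) + τ * I) (39 / 10 * w / L) +
      288 * ‖HT T ((sg L w : ℝ) + τ * I)‖ ^ 2)))) :=
    continuous_const.mul (continuous_const.mul (continuous_const.mul ((continuous_const.mul c1).add (continuous_const.mul c2))))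
  by_cases hj0 : j = 0
  · have hw1 : w = 1 := hw0 hj0
    simp only [hj0, if_true]
    have hH := calcH0 hB hT0 (RA_vol hT0.le) i3 (integral_nonneg fun _ => zero_le_one) (integral_nonneg fun _ => AH_nonneg _ _ _)
    rw [← lin2 (f := fun _ => (1:ℝ)) continuous_const c3, ← integral_const_mul, ← integral_const_mul] at hH
    have cH : Continuous (fun τ : ℝ => 4 * w * ((Wt B w) ^ 2 * (600 + 400 * KK * AH T ((sg L 1 : ℝ) + τ * I) (5 / L)))) :=
      continuous_const.mul (continuous_const.mul (continuous_const.add (continuous_const.mul c3)))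
    have hadd := integral_add (ion cG T) (ion cH T)
    rw [hadd]
    have hH' : ∫ τ in RA T, 4 * w * ((Wt B w) ^ 2 * (600 + 400 * KK * AH T ((sg L 1 : ℝ) + τ * I) (5 / L))) ≤
        8 * (3600 + 400 * KK * CE) * (T / B ^ 4) * (1 / w) := by
      rw [hw1, div_one]
      simp only [mul_one] at hH ⊢
      exact hH
    refine (add_le_add hG hH').trans ?_
    unfold CP
    have : 0 ≤ 11200 * KK * CE * C8 * (T / B ^ 4) * (1 / w) := by positivity
    linarith
  · simp only [hj0, if_false]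
    have hH := calcH1 hB hw hT0 i4 i5 (integral_nonneg fun _ => AH_nonneg _ _ _) (integral_nonneg fun _ => sq_nonneg _)
    rw [← lin2 c4 c5, ← integral_const_mul, ← integral_const_mul, ← integral_const_mul] at hH
    have cH : Continuous (fun τ : ℝ => 4 * w * ((Wt B w) ^ 2 * (400 * w ^ 2 * KK * ((Real.exp (w / 160))⁻¹ * AH T ((sg L w : ℝ) + τ * I) ((4 * w + 1) / L) +
        6 * Real.exp (w / 160) * ‖HT T ((sg L (w / 2) : ℝ) + τ * I)‖ ^ 2)))) :=
      continuous_const.mul (continuous_const.mul (continuous_const.mul ((continuous_const.mul c4).add (continuous_const.mul c5))))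
    have hadd := integral_add (ion cG T) (ion cH T)
    rw [hadd]
    refine (add_le_add hG hH).trans ?_
    unfold CP
    have : 0 ≤ 8 * (3600 + 400 * KK * CE) * (T / B ^ 4) * (1 / w) := by positivity
    linarith

/-- Bound for the weighted local counts of zeros to the right of the critical line. -/
theorem Qbound : ∃ C : ℝ, 0 < C ∧ ∃ T0 : ℝ, 3 ^ 40 ≤ T0 ∧ ∀ T : ℝ, T0 ≤ T → ∀ B : ℝ, 9600 ≤ B →
    ∃ Ψ : ℝ → ℝ, Continuous Ψ ∧ (∀ τ, 0 ≤ Ψ τ) ∧ ∫ τ in RA T, Ψ τ ≤ C * (T / B ^ 4) ∧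
    ∀ τ ∈ RA T, ∀ F : Finset ℂ, (∀ ρ ∈ F, xi ρ = 0 ∧ 1 / 2 ≤ ρ.re ∧ Real.log T * |ρ.im - τ| ≤ 1) →
      (∑ ρ ∈ F, (analyticOrderNatAt xi ρ : ℝ) * Wt B (Real.log T * (ρ.re - 1 / 2))) ^ 2 ≤ Ψ τ := by
  have hCP := CP_pos
  refine ⟨2 * CP, by positivity, max (3 ^ 40) ((2 * Z32 ^ 2 + 1) ^ 160), le_max_left _ _, ?_⟩
  intro T hT B hB
  have hT1 : 3 ^ 40 ≤ T := (le_max_left _ _).trans hT
  have hT2 : (2 * Z32 ^ 2 + 1) ^ 160 ≤ T := (le_max_right _ _).trans hT
  have hT20 : (20:ℝ) ≤ T := le_trans (by norm_num) hT1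
  have hB0 : 0 < B := by linarith
  set L := Real.log T with hL
  have hL40 : 40 ≤ L := log_T40 hT1
  have hL0 : 0 < L := by linarith
  obtain ⟨n, hn1, hn2⟩ := exists_nat_pow_near (show (1:ℝ) ≤ L / 2 by linarith) (show (1:ℝ) < 2 by norm_num)
  set K := n + 1 with hK
  have hKL : (2:ℝ) ^ K ≤ L := by rw [hK, pow_succ]; linarith
  refine ⟨fun τ => ∑ j ∈ Finset.range (K + 1), Psi T L B j τ, ?_, ?_, ?_, ?_⟩
  · exact continuous_finsetSum _ fun j _ => Psi_cont hL40 j
  · intro τ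
    exact Finset.sum_nonneg fun j _ => Psi_nonneg _ _ _ _ _
  · rw [integral_finsetSum _ (fun j _ => ion (Psi_cont hL40 j) T)]
    calc ∑ j ∈ Finset.range (K + 1), ∫ τ in RA T, Psi T L B j τ
        ≤ ∑ j ∈ Finset.range (K + 1), CP * (T / B ^ 4) * (1 / 2) ^ j := by
          refine Finset.sum_le_sum fun j hj => ?_
          rw [Finset.mem_range] at hj
          apply int_Psi hT1 hL hB
          exact le_trans (pow_le_pow_right₀ (by norm_num) (by omega)) hKL
      _ = CP * (T / B ^ 4) * ∑ j ∈ Finset.range (K + 1), (1 / 2) ^ j := by rw [Finset.mul_sum]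
      _ ≤ CP * (T / B ^ 4) * 2 := by
          gcongr
          exact sum_half_pow _
      _ = _ := by ring
  · intro τ hτ F hF
    have hKgood : good T L K τ := by
      unfold good
      have hre : 2 ≤ (((sg L (2 ^ K) : ℝ) : ℂ) + τ * I).re := by
        have e1 : (((sg L (2 ^ K) : ℝ) : ℂ) + τ * I).re = 1 / 2 + 4 * (2 ^ K / L) := by
          rw [Complex.add_re, Complex.ofReal_re, Complex.mul_I_re, Complex.ofReal_im]
          unfold sg
          ring
        rw [e1]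
        have : 1 / 2 ≤ 2 ^ K / L := by
          rw [le_div_iff₀ hL0]; linarith
        linarith
      have hX1 : 1 < XT T := Real.one_lt_rpow (by linarith) (by norm_num)
      have h1 := right_bound hX1 hre
      unfold ET
      refine h1.trans ?_
      have hZ := Z32_pos
      have h2 : 2 * Z32 ^ 2 ≤ XT T ^ (1 / 4 : ℝ) := by
        unfold XT
        rw [← Real.rpow_mul (by linarith)]
        have h3 : ((2 * Z32 ^ 2 + 1) ^ 160) ^ ((1 / 40 : ℝ) * (1 / 4)) ≤ T ^ ((1 / 40 : ℝ) * (1 / 4)) := by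
          gcongr
        have h4 : ((2 * Z32 ^ 2 + 1) ^ 160) ^ ((1 / 40 : ℝ) * (1 / 4)) = 2 * Z32 ^ 2 + 1 := by
          rw [← Real.rpow_natCast, ← Real.rpow_mul (by positivity)]
          norm_num
        linarith
      rw [Real.rpow_neg (by linarith), ← div_eq_mul_inv, div_le_iff₀ (Real.rpow_pos_of_pos (by linarith) _)]
      linarith
    apply pointwise_Q hT1 hL hB0 hKgood hKL hτ F
    intro ρ hρ
    obtain ⟨h1, h2, h3⟩ := hF ρ hρ
    have h4 := (xi_eq_zero_iff.mp h1).2.1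
    refine ⟨h1, mul_nonneg hL0.le (by linarith), ?_, h3⟩
    rw [hK]
    nlinarith

end Pool.Agent.Helper57.LH
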