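import Pool.Agent.Helper57.LH.PF2
import Pool.Agent.Helper57.LH.Digam
import Pool.Agent.Helper57.LH.Kern

namespace Pool.Agent.Helper57.LH

open Complex Set MeasureTheory Filter Topology
open Pool.Agent.Helper57.Zeta
open scoped ArithmeticFunction

lemma logDeriv_xi {s : ℂ} (hs : 1 < s.re) : logDeriv xi s =
    1 / s + (1 / (s - 1) + (-(Real.log Real.pi : ℂ) / 2 + (Complex.digamma (s / 2) / 2 + logDeriv riemannZeta s))) := by
  have hpi : (Real.pi : ℂ) ≠ 0 := by exact_mod_cast Real.pi_ne_zero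
  have hs0 : s ≠ 0 := by rintro rfl; norm_num at hs
  have hs1 : s ≠ 1 := by rintro rfl; norm_num at hs
  have hev : xi =ᶠ[𝓝 s] fun z => z * ((z - 1) * ((Real.pi : ℂ) ^ (-z / 2) * (Gamma (z / 2) * riemannZeta z))) := by
    filter_upwards [(isOpen_lt continuous_const Complex.continuous_re).mem_nhds hs] with z hz
    have hz' : 1 < z.re := hz
    rw [xi_eq_zeta (by linarith) (by rintro rfl; norm_num at hz'), Gammaℝ_def]
    ring
  have h1 := (logDeriv_congr_nhds hev).self_of_nhds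
  rw [h1]
  have hs2 : 0 < (s / 2).re := by
    rw [show s / 2 = ((1/2 : ℝ) : ℂ) * s by push_cast; ring, Complex.re_ofReal_mul]; linarith
  have hG : Gamma (s / 2) ≠ 0 := Complex.Gamma_ne_zero_of_re_pos hs2
  have hz : riemannZeta s ≠ 0 := riemannZeta_ne_zero_of_one_le_re hs.le
  have hdz : DifferentiableAt ℂ riemannZeta s := differentiableAt_riemannZeta hs1
  have hdG0 : DifferentiableAt ℂ Gamma (s / 2) := Complex.differentiableAt_Gamma _ (ne_neg_nat_re hs2)
  have hdG : DifferentiableAt ℂ (fun z => Gamma (z / 2)) s :=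
    DifferentiableAt.comp s hdG0 (by fun_prop)
  have hP : HasDerivAt (fun z : ℂ => (Real.pi : ℂ) ^ (-z / 2)) ((Real.pi : ℂ) ^ (-s / 2) * Complex.log Real.pi * (-1 / 2)) s :=
    HasDerivAt.const_cpow ((hasDerivAt_id s).fun_neg.div_const 2) (Or.inl hpi)
  have hP0 : (Real.pi : ℂ) ^ (-s / 2) ≠ 0 := by
    rw [Complex.cpow_def_of_ne_zero hpi]; exact Complex.exp_ne_zero _
  rw [logDeriv_mul (f := fun z => z) (g := fun z => (z - 1) * ((Real.pi : ℂ) ^ (-z / 2) * (Gamma (z / 2) * riemannZeta z))) s hs0 (mul_ne_zero (sub_ne_zero.mpr hs1) (mul_ne_zero hP0 (mul_ne_zero hG hz))) differentiableAt_id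
    ((by fun_prop : DifferentiableAt ℂ (fun z : ℂ => z - 1) s).mul (hP.differentiableAt.mul (hdG.mul hdz)))]
  rw [logDeriv_mul (f := fun z => z - 1) (g := fun z => ((Real.pi : ℂ) ^ (-z / 2) * (Gamma (z / 2) * riemannZeta z))) s (sub_ne_zero.mpr hs1) (mul_ne_zero hP0 (mul_ne_zero hG hz)) (by fun_prop)
    (hP.differentiableAt.mul (hdG.mul hdz))]
  rw [logDeriv_mul (f := fun z => (Real.pi : ℂ) ^ (-z / 2)) (g := fun z => (Gamma (z / 2) * riemannZeta z)) s hP0 (mul_ne_zero hG hz) hP.differentiableAt (hdG.mul hdz)]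
  rw [logDeriv_mul (f := fun z => Gamma (z / 2)) (g := riemannZeta) s hG hz hdG hdz]
  congr 1
  · rw [logDeriv_apply]; simp
  congr 1
  · rw [logDeriv_apply]; simp
  congr 1
  · rw [logDeriv_apply, hP.deriv, Complex.ofReal_log Real.pi_pos.le]
    field_simp
  congr 1
  · rw [logDeriv_apply, Complex.digamma_def, logDeriv_apply]
    have h2 : HasDerivAt (fun z => Gamma (z / 2)) (deriv Gamma (s / 2) * (1 / 2)) s := by
      have h3 : HasDerivAt (fun z : ℂ => z / 2) (1 / 2) s := (hasDerivAt_id s).div_const 2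
      exact HasDerivAt.comp s hdG0.hasDerivAt h3
    rw [h2.deriv]
    ring

/-- von Mangoldt series on the line Re s = 2 -/
lemma vM_hasSum (u : ℝ) : HasSum (fun n : ℕ => (ArithmeticFunction.vonMangoldt n / (n:ℝ) ^ 2) * Real.cos (Real.log n * u))
    (-(logDeriv riemannZeta ((2:ℝ) + u * I)).re) := by
  set s : ℂ := ((2:ℝ) : ℂ) + u * I with hs
  have hre : 1 < s.re := by rw [hs]; simp
  have h1 := ArithmeticFunction.LSeries_vonMangoldt_eq_deriv_riemannZeta_div hre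
  have h2 := (ArithmeticFunction.LSeriesSummable_vonMangoldt hre).hasSum
  have h3 : ∑' n, LSeries.term (fun n => ((ArithmeticFunction.vonMangoldt n : ℝ) : ℂ)) s n = -(logDeriv riemannZeta s) := by
    rw [logDeriv_apply, ← neg_div, ← h1]
    rfl
  rw [h3] at h2
  have h4 := Complex.hasSum_re h2
  rw [Complex.neg_re] at h4
  refine h4.congr_fun ?_
  intro n
  rcases Nat.eq_zero_or_pos n with rfl | hn
  · simp
  · rw [LSeries.term_of_ne_zero hn.ne']
    have hn0 : (0:ℝ) < n := by exact_mod_cast hn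
    have e1 : (n:ℂ) ^ s = (((n:ℝ) ^ 2 : ℝ) : ℂ) * cexp ((Real.log n * u : ℝ) * I) := by
      rw [Complex.cpow_def_of_ne_zero (by exact_mod_cast hn.ne'), ← Complex.natCast_log, hs, mul_add, Complex.exp_add]
      congr 1
      · rw [← Complex.ofReal_mul, ← Complex.ofReal_exp, mul_comm (Real.log n), ← Real.log_rpow hn0, Real.exp_log (by positivity)]
        norm_num
      · congr 1
        push_cast
        ring
    rw [e1]
    have e2 : ((ArithmeticFunction.vonMangoldt n : ℝ) : ℂ) / ((((n:ℝ) ^ 2 : ℝ) : ℂ) * cexp ((Real.log n * u : ℝ) * I)) =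
      ((ArithmeticFunction.vonMangoldt n / (n:ℝ) ^ 2 : ℝ) : ℂ) * cexp ((-(Real.log n * u) : ℝ) * I) := by
      rw [Complex.ofReal_neg, neg_mul, Complex.exp_neg]
      push_cast
      field_simp
    rw [e2, Complex.re_ofReal_mul, Complex.exp_ofReal_mul_I_re, Real.cos_neg]

/-- digamma series on the line -/
lemma dig_hasSum (u : ℝ) : HasSum (fun n : ℕ => 1 / ((n:ℝ) + 1) - 2 * ((2 * ((n:ℝ) + 1)) / ((2 * ((n:ℝ) + 1)) ^ 2 + u ^ 2)))
    ((Complex.digamma ((((2:ℝ) : ℂ) + u * I) / 2)).re + Real.eulerMascheroniConstant) := by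
  set s : ℂ := (((2:ℝ) : ℂ) + u * I) / 2 with hs
  have hs' : s = ((1:ℝ) : ℂ) + ((u / 2 : ℝ) : ℂ) * I := by rw [hs]; push_cast; ring
  have hre : 1 / 2 < s.re := by rw [hs']; simp; norm_num
  have h1 := Complex.hasSum_re (digamma_hasSum hre)
  rw [Complex.add_re, Complex.ofReal_re] at h1
  refine h1.congr_fun ?_
  intro n
  rw [Complex.sub_re]
  have e1 : (1 / ((n:ℂ) + 1)).re = 1 / ((n:ℝ) + 1) := by
    have : 1 / ((n:ℂ) + 1) = ((1 / ((n:ℝ) + 1) : ℝ) : ℂ) := by push_cast; rfl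
    rw [this, Complex.ofReal_re]
  have e2 : (1 / ((n:ℂ) + s)).re = 2 * ((2 * ((n:ℝ) + 1)) / ((2 * ((n:ℝ) + 1)) ^ 2 + u ^ 2)) := by
    have : (n:ℂ) + s = (((n:ℝ) + 1 : ℝ) : ℂ) + ((u / 2 : ℝ) : ℂ) * I := by
      rw [hs']; push_cast; ring
    rw [this, one_div, Complex.inv_re, normSq_z]
    simp only [Complex.add_re, Complex.ofReal_re, Complex.mul_re, Complex.I_re, mul_zero, Complex.ofReal_im, Complex.I_im, mul_one,
      sub_self, add_zero]
    have : (0:ℝ) ≤ n := Nat.cast_nonneg n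
    field_simp
  rw [e1, e2]

/-- real part of the logarithmic derivative on the line Re s = 2 -/
noncomputable def Afun (u : ℝ) : ℝ := (logDeriv xi (((2:ℝ) : ℂ) + u * I)).re

lemma Afun_eq (u : ℝ) : Afun u = 2 / (2 ^ 2 + u ^ 2) + 1 / (1 ^ 2 + u ^ 2) - (Real.log Real.pi + Real.eulerMascheroniConstant) / 2 +
    (∑' n : ℕ, (1 / ((n:ℝ) + 1) - 2 * ((2 * ((n:ℝ) + 1)) / ((2 * ((n:ℝ) + 1)) ^ 2 + u ^ 2)))) / 2 -
    ∑' n : ℕ, (ArithmeticFunction.vonMangoldt n / (n:ℝ) ^ 2) * Real.cos (Real.log n * u) := by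
  unfold Afun
  rw [logDeriv_xi (by simp)]
  rw [(dig_hasSum u).tsum_eq, (vM_hasSum u).tsum_eq]
  simp only [Complex.add_re]
  have e1 : (1 / (((2:ℝ) : ℂ) + u * I)).re = 2 / (2 ^ 2 + u ^ 2) := by
    rw [one_div, Complex.inv_re, normSq_z]; simp
  have e2 : (1 / (((2:ℝ) : ℂ) + u * I - 1)).re = 1 / (1 ^ 2 + u ^ 2) := by
    rw [show ((2:ℝ) : ℂ) + u * I - 1 = ((1:ℝ) : ℂ) + u * I by push_cast; ring, one_div, Complex.inv_re, normSq_z]; simp
  have e3 : (-(Real.log Real.pi : ℂ) / 2).re = -(Real.log Real.pi) / 2 := by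
    have : (-(Real.log Real.pi : ℂ) / 2) = ((-(Real.log Real.pi) / 2 : ℝ) : ℂ) := by push_cast; rfl
    rw [this, Complex.ofReal_re]
  have e4 : ∀ z : ℂ, (z / 2).re = z.re / 2 := fun z => by
    rw [show z / 2 = ((1/2 : ℝ) : ℂ) * z by push_cast; ring, Complex.re_ofReal_mul]; ring
  rw [e1, e2, e3, e4]
  ring

end Pool.Agent.Helper57.LH
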