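import Pool.Agent.Helper57.LH.Expl2

namespace Pool.Agent.Helper57.LH

open Complex Set MeasureTheory Filter Topology
open Pool.Agent.Helper57.Zeta

lemma tel_sum (M : ℕ) (hM : 1 ≤ M) (K : ℕ) : ∑ n ∈ Finset.range K, 1 / (((n:ℝ) + M) * ((n:ℝ) + M + 1)) = 1 / (M:ℝ) - 1 / ((K:ℝ) + M) := by
  have hM0 : (0:ℝ) < M := by exact_mod_cast hM
  induction K with
  | zero => simp
  | succ K ih =>
    rw [Finset.sum_range_succ, ih]
    push_cast
    have : (0:ℝ) ≤ K := Nat.cast_nonneg K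
    field_simp
    ring

lemma Dn_nonneg (n : ℕ) (u : ℝ) : 0 ≤ Dn n u := by
  have hn : (0:ℝ) < (n:ℝ) + 1 := by positivity
  have e : Dn n u = u ^ 2 / (((n:ℝ) + 1) * (4 * ((n:ℝ) + 1) ^ 2 + u ^ 2)) := by
    unfold Dn
    field_simp
    ring
  rw [e]; positivity

lemma Dn_summable (u : ℝ) : Summable (fun n => Dn n u) :=
  Summable.of_norm_bounded (cD_summable.mul_right (wg u)) (fun n => by rw [Real.norm_eq_abs]; exact Dn_bound n u)

/-- the digamma sum is log u + O(1) -/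
lemma Dn_sum {u : ℝ} (hu : 1 ≤ u) : |∑' n, Dn n u - Real.log u| ≤ 20 := by
  set M : ℕ := ⌈u⌉₊ with hM
  have hM1 : 1 ≤ M := Nat.one_le_ceil_iff.mpr (by linarith)
  have hMu : u ≤ M := Nat.le_ceil u
  have hMu2 : (M:ℝ) ≤ 2 * u := by
    have := Nat.ceil_lt_add_one (show 0 ≤ u by linarith)
    linarith
  have hM0 : (0:ℝ) < M := by exact_mod_cast hM1
  have hsplit := (Dn_summable u).sum_add_tsum_nat_add M
  rw [← hsplit]
  -- the tail
  have htail0 : 0 ≤ ∑' n, Dn (n + M) u := tsum_nonneg fun n => Dn_nonneg _ _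
  have htail : ∑' n, Dn (n + M) u ≤ 1 := by
    apply Real.tsum_le_of_sum_range_le (fun n => Dn_nonneg _ _)
    intro K
    have h1 : ∀ n : ℕ, Dn (n + M) u ≤ M * (1 / (((n:ℝ) + M) * ((n:ℝ) + M + 1))) := by
      intro n
      have e : Dn (n + M) u = u ^ 2 / ((((n:ℝ) + M) + 1) * (4 * (((n:ℝ) + M) + 1) ^ 2 + u ^ 2)) := by
        unfold Dn
        push_cast
        have : (0:ℝ) ≤ n := Nat.cast_nonneg n
        field_simp
        ring
      have hn0 : (0:ℝ) ≤ n := Nat.cast_nonneg n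
      set p : ℝ := (n:ℝ) + M with hp
      have hpM : (M:ℝ) ≤ p := by rw [hp]; linarith
      rw [e, mul_one_div, div_le_div_iff₀ (by positivity) (by positivity)]
      have h2 : u ^ 2 ≤ M * p := by nlinarith
      have h3 : 0 < p + 1 := by linarith
      calc u ^ 2 * (p * (p + 1)) ≤ (M * p) * (p * (p + 1)) := by gcongr
        _ = M * ((p + 1) * p ^ 2) := by ring
        _ ≤ M * ((p + 1) * (4 * (p + 1) ^ 2 + u ^ 2)) := by
            gcongr
            nlinarith [sq_nonneg u]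
    calc ∑ n ∈ Finset.range K, Dn (n + M) u ≤ ∑ n ∈ Finset.range K, M * (1 / (((n:ℝ) + M) * ((n:ℝ) + M + 1))) :=
          Finset.sum_le_sum fun n _ => h1 n
      _ = M * (1 / (M:ℝ) - 1 / ((K:ℝ) + M)) := by rw [← Finset.mul_sum, tel_sum M hM1]
      _ ≤ M * (1 / (M:ℝ)) := by
          have : 0 ≤ 1 / ((K:ℝ) + M) := by positivity
          gcongr
          linarith
      _ = 1 := by field_simp
  -- the head
  have hhead : ∑ n ∈ Finset.range M, Dn n u = (harmonic M : ℝ) - ∑ n ∈ Finset.range M, 2 * ((2 * ((n:ℝ) + 1)) / ((2 * ((n:ℝ) + 1)) ^ 2 + u ^ 2)) := by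
    unfold Dn
    rw [Finset.sum_sub_distrib]
    congr 1
    unfold harmonic
    push_cast
    refine Finset.sum_congr rfl fun n _ => ?_
    rw [one_div]
  have hH1 := harmonic_le_one_add_log M
  have hH2 := log_add_one_le_harmonic M
  have hS0 : 0 ≤ ∑ n ∈ Finset.range M, 2 * ((2 * ((n:ℝ) + 1)) / ((2 * ((n:ℝ) + 1)) ^ 2 + u ^ 2)) :=
    Finset.sum_nonneg fun n _ => by positivity
  have hS1 : ∑ n ∈ Finset.range M, 2 * ((2 * ((n:ℝ) + 1)) / ((2 * ((n:ℝ) + 1)) ^ 2 + u ^ 2)) ≤ 16 := by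
    calc ∑ n ∈ Finset.range M, 2 * ((2 * ((n:ℝ) + 1)) / ((2 * ((n:ℝ) + 1)) ^ 2 + u ^ 2))
        ≤ ∑ n ∈ Finset.range M, 4 * M / u ^ 2 := by
          refine Finset.sum_le_sum fun n hn => ?_
          rw [Finset.mem_range] at hn
          have hn1 : (n:ℝ) + 1 ≤ M := by exact_mod_cast hn
          have : (0:ℝ) ≤ n := Nat.cast_nonneg n
          calc 2 * ((2 * ((n:ℝ) + 1)) / ((2 * ((n:ℝ) + 1)) ^ 2 + u ^ 2)) ≤ 2 * ((2 * M) / (u ^ 2)) := by
                gcongr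
                nlinarith [sq_nonneg (2 * ((n:ℝ) + 1))]
            _ = _ := by ring
      _ = M * (4 * M / u ^ 2) := by rw [Finset.sum_const, Finset.card_range, nsmul_eq_mul]
      _ = 4 * (M / u) ^ 2 := by ring
      _ ≤ 4 * 2 ^ 2 := by
          gcongr
          rw [div_le_iff₀ (by linarith)]
          exact hMu2
      _ = 16 := by norm_num
  have hlog1 : Real.log u ≤ Real.log ((M:ℝ) + 1) := Real.log_le_log (by linarith) (by linarith)
  have hlog2 : Real.log M ≤ Real.log u + 1 := by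
    have h1 : Real.log M ≤ Real.log (2 * u) := Real.log_le_log hM0 hMu2
    rw [Real.log_mul (by norm_num) (by linarith)] at h1
    have := Real.log_two_lt_d9
    linarith
  have hH2' : Real.log ((M:ℝ) + 1) ≤ (harmonic M : ℝ) := by exact_mod_cast hH2
  rw [hhead, abs_le]
  constructor <;> linarith

/-- difference of the two main sums, termwise -/
lemma term_diff {X t : ℝ} (hX : 1 ≤ X) (ht : 1 ≤ t) (n : ℕ) :
    |(1 / ((n:ℝ) + 1) - 2 * (JJ X ((3 / 2 - 2 * ((n:ℝ) + 1) : ℝ) + t * I)).re) - Dn n t| ≤ 14 * (1 / ((n:ℝ) + 1) ^ 2) := by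
  have hX0 : 0 < X := by linarith
  have hn0 : (0:ℝ) ≤ n := Nat.cast_nonneg n
  set b : ℝ := 2 * ((n:ℝ) + 1) - 3 / 2 with hb
  have hb0 : 0 < b := by rw [hb]; linarith
  have hz : (((3 / 2 - 2 * ((n:ℝ) + 1) : ℝ) : ℂ) + t * I) = ((-b : ℝ) : ℂ) + t * I := by
    congr 2; rw [hb]; ring
  rw [hz]
  have hz0 : ((-b : ℝ) : ℂ) + t * I ≠ 0 := z_ne (by linarith) t
  rw [JJ_eq hX0 hz0, Complex.add_re, Complex.neg_re, one_div, one_div, Complex.inv_re, normSq_z]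
  have e1 : (((-b : ℝ) : ℂ) + t * I).re = -b := by simp
  rw [e1]
  set q := ((cexp ((((-b : ℝ) : ℂ) + t * I) * X) - 1) / (X * (((-b : ℝ) : ℂ) + t * I) ^ 2)).re with hq
  have hq1 : |q| ≤ 2 / (b ^ 2 + t ^ 2) := by
    rw [hq]
    refine (Complex.abs_re_le_norm _).trans ?_
    rw [norm_div, norm_mul, norm_pow, Complex.norm_real, Real.norm_of_nonneg hX0.le, ← Complex.normSq_eq_norm_sq, normSq_z, neg_sq]
    have h1 : ‖cexp ((((-b : ℝ) : ℂ) + t * I) * X) - 1‖ ≤ 2 := by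
      refine (norm_sub_le _ _).trans ?_
      rw [Complex.norm_exp, norm_one]
      have : ((((-b : ℝ) : ℂ) + t * I) * X).re ≤ 0 := by
        simp
        positivity
      have := Real.exp_le_one_iff.mpr this
      linarith
    calc ‖cexp ((((-b : ℝ) : ℂ) + t * I) * X) - 1‖ / (X * (b ^ 2 + t ^ 2)) ≤ 2 / (1 * (b ^ 2 + t ^ 2)) := by gcongr
      _ = _ := by rw [one_mul]
  unfold Dn
  have hab : 2 * ((n:ℝ) + 1) = b + 3 / 2 := by rw [hb]; ring
  rw [hab]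
  have e2 : (((n:ℝ) + 1)⁻¹ - 2 * (-(-b / ((-b) ^ 2 + t ^ 2)) + q)) - (1 / ((n:ℝ) + 1) - 2 * ((b + 3 / 2) / ((b + 3 / 2) ^ 2 + t ^ 2))) =
      -(3 * (b * (b + 3 / 2) - t ^ 2) / ((b ^ 2 + t ^ 2) * ((b + 3 / 2) ^ 2 + t ^ 2))) - 2 * q := by
    field_simp
    ring
  rw [e2]
  have h3 : |3 * (b * (b + 3 / 2) - t ^ 2) / ((b ^ 2 + t ^ 2) * ((b + 3 / 2) ^ 2 + t ^ 2))| ≤ 3 / (b ^ 2 + t ^ 2) := by
    rw [abs_div, abs_of_pos (by positivity : 0 < (b ^ 2 + t ^ 2) * ((b + 3 / 2) ^ 2 + t ^ 2)), div_le_div_iff₀ (by positivity) (by positivity), abs_mul,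
      abs_of_pos (by norm_num : (0:ℝ) < 3)]
    have h4 : |b * (b + 3 / 2) - t ^ 2| ≤ (b + 3 / 2) ^ 2 + t ^ 2 := by
      rw [abs_le]
      constructor <;> nlinarith [sq_nonneg t, mul_pos hb0 hb0]
    calc 3 * |b * (b + 3 / 2) - t ^ 2| * (b ^ 2 + t ^ 2) ≤ 3 * ((b + 3 / 2) ^ 2 + t ^ 2) * (b ^ 2 + t ^ 2) := by gcongr
      _ = _ := by ring
  have h5 : 7 / (b ^ 2 + t ^ 2) ≤ 14 * (1 / ((n:ℝ) + 1) ^ 2) := by
    rw [mul_one_div, div_le_div_iff₀ (by positivity) (by positivity)]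
    rw [hb]
    nlinarith
  calc |-(3 * (b * (b + 3 / 2) - t ^ 2) / ((b ^ 2 + t ^ 2) * ((b + 3 / 2) ^ 2 + t ^ 2))) - 2 * q|
      ≤ |-(3 * (b * (b + 3 / 2) - t ^ 2) / ((b ^ 2 + t ^ 2) * ((b + 3 / 2) ^ 2 + t ^ 2)))| + |2 * q| := abs_sub _ _
    _ ≤ 3 / (b ^ 2 + t ^ 2) + 2 * (2 / (b ^ 2 + t ^ 2)) := by
        rw [abs_neg, abs_mul, abs_of_pos (by norm_num : (0:ℝ) < 2)]
        gcongr
    _ = 7 / (b ^ 2 + t ^ 2) := by ring
    _ ≤ _ := h5

lemma sum_inv_sq : ∑' n : ℕ, 14 * (1 / ((n:ℝ) + 1) ^ 2) ≤ 28 ∧ Summable (fun n : ℕ => 14 * (1 / ((n:ℝ) + 1) ^ 2)) := by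
  have hs : Summable (fun n : ℕ => 14 * (1 / ((n:ℝ) + 1) ^ 2)) := by
    apply Summable.mul_left
    have h := (summable_nat_add_iff 1).mpr (Real.summable_one_div_nat_pow.mpr (show 1 < 2 by norm_num))
    refine h.congr fun n => ?_
    push_cast
    rfl
  refine ⟨?_, hs⟩
  apply Real.tsum_le_of_sum_range_le (fun n => by positivity)
  intro K
  rcases K with _ | K
  · simp
  · rw [Finset.sum_range_succ']
    have h1 : ∑ k ∈ Finset.range K, 14 * (1 / (((k + 1 : ℕ):ℝ) + 1) ^ 2) ≤ 14 := by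
      calc ∑ k ∈ Finset.range K, 14 * (1 / (((k + 1 : ℕ):ℝ) + 1) ^ 2)
          ≤ ∑ k ∈ Finset.range K, 14 * (1 / (((k:ℝ) + (1:ℕ)) * ((k:ℝ) + (1:ℕ) + 1))) := by
            refine Finset.sum_le_sum fun k _ => ?_
            have : (0:ℝ) ≤ k := Nat.cast_nonneg k
            push_cast
            gcongr
            nlinarith
        _ = 14 * (1 / ((1:ℕ):ℝ) - 1 / ((K:ℝ) + (1:ℕ))) := by rw [← Finset.mul_sum, tel_sum 1 le_rfl]
        _ ≤ 14 := by
            have : 0 ≤ 1 / ((K:ℝ) + (1:ℕ)) := by positivity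
            norm_num at this ⊢
            linarith
    have h2 : (14:ℝ) * (1 / (((0:ℕ):ℝ) + 1) ^ 2) = 14 := by norm_num
    rw [h2]
    linarith

/-- constant for the main term -/
noncomputable def CM : ℝ := 60 + |Real.log Real.pi + Real.eulerMascheroniConstant|

/-- size of the main term -/
theorem MT_bound {X t : ℝ} (hX : 1 ≤ X) (ht : 1 ≤ t) (hXt : Real.exp (X / 2) ≤ t ^ 2) : |MT X t - Real.log t| ≤ CM := by
  have hX0 : 0 < X := by linarith
  have hJ1 : |(JJ X ((3 / 2 - 2 : ℝ) + t * I)).re| ≤ 3 := by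
    have h := JJ_re_le hX0 (z_ne (a := 3/2 - 2) (by norm_num) t)
    rw [normSq_z] at h
    refine h.trans ?_
    have e1 : (((3 / 2 - 2 : ℝ) : ℂ) + t * I).re = -(1/2) := by simp; norm_num
    rw [e1, div_le_iff₀ (by positivity)]
    have h2 : Real.exp (-(1/2) * X) ≤ 1 := Real.exp_le_one_iff.mpr (by linarith)
    have h3 : (Real.exp (-(1/2) * X) + 1) / X ≤ 2 := by
      rw [div_le_iff₀ hX0]; linarith
    rw [abs_neg, abs_of_pos (by norm_num : (0:ℝ) < 1/2)]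
    nlinarith
  have hJ2 : |(JJ X ((3 / 2 - 1 : ℝ) + t * I)).re| ≤ 3 := by
    have h := JJ_re_le hX0 (z_ne (a := 3/2 - 1) (by norm_num) t)
    rw [normSq_z] at h
    refine h.trans ?_
    have e1 : (((3 / 2 - 1 : ℝ) : ℂ) + t * I).re = 1/2 := by simp; norm_num
    rw [e1, div_le_iff₀ (by positivity)]
    have h2 : Real.exp (1/2 * X) ≤ t ^ 2 := by rw [show 1/2 * X = X / 2 by ring]; exact hXt
    have h3 : (Real.exp (1/2 * X) + 1) / X ≤ t ^ 2 + 1 := by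
      rw [div_le_iff₀ hX0]
      nlinarith [sq_nonneg t]
    rw [abs_of_pos (by norm_num : (0:ℝ) < 1/2)]
    nlinarith
  -- the sum
  obtain ⟨hs28, hs⟩ := sum_inv_sq
  set Tn : ℕ → ℝ := fun n => 1 / ((n:ℝ) + 1) - 2 * (JJ X ((3 / 2 - 2 * ((n:ℝ) + 1) : ℝ) + t * I)).re with hTn
  have hd : Summable (fun n => Tn n - Dn n t) := Summable.of_norm_bounded hs (fun n => by
    rw [Real.norm_eq_abs]; exact term_diff hX ht n)
  have hTs : Summable Tn := by
    have := hd.add (Dn_summable t)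
    refine this.congr fun n => by ring
  have h1 : |∑' n, Tn n - ∑' n, Dn n t| ≤ 28 := by
    rw [← hTs.tsum_sub (Dn_summable t), ← Real.norm_eq_abs]
    refine (tsum_of_norm_bounded hs.hasSum (fun n => ?_)).trans hs28
    rw [Real.norm_eq_abs]; exact term_diff hX ht n
  have h2 := Dn_sum ht
  unfold MT CM
  have e : (2 * (JJ X ((3 / 2 - 2 : ℝ) + t * I)).re + 2 * (JJ X ((3 / 2 - 1 : ℝ) + t * I)).re -
      (Real.log Real.pi + Real.eulerMascheroniConstant) + ∑' n, Tn n) - Real.log t =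
      2 * (JJ X ((3 / 2 - 2 : ℝ) + t * I)).re + 2 * (JJ X ((3 / 2 - 1 : ℝ) + t * I)).re -
      (Real.log Real.pi + Real.eulerMascheroniConstant) + (∑' n, Tn n - ∑' n, Dn n t) + (∑' n, Dn n t - Real.log t) := by ring
  have hTT : (∑' n : ℕ, (1 / ((n:ℝ) + 1) - 2 * (JJ X ((3 / 2 - 2 * ((n:ℝ) + 1) : ℝ) + t * I)).re)) = ∑' n, Tn n := rfl
  rw [hTT, e]
  set A1 := (JJ X ((3 / 2 - 2 : ℝ) + t * I)).re
  set A2 := (JJ X ((3 / 2 - 1 : ℝ) + t * I)).re
  set A3 := Real.log Real.pi + Real.eulerMascheroniConstant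
  have g1 := abs_le.mp hJ1
  have g2 := abs_le.mp hJ2
  have g3 := le_abs_self A3
  have g4 := neg_abs_le A3
  have g5 := abs_le.mp h1
  have g6 := abs_le.mp h2
  rw [abs_le]
  constructor <;> linarith [g1.1, g1.2, g2.1, g2.2, g5.1, g5.2, g6.1, g6.2]

end Pool.Agent.Helper57.LH
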