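import Pool.Agent.Helper57.LH.Kap

open ArithmeticFunction Finset

namespace Pool.Agent.Helper57.LH

/-- `h^{-1-ε}` -/
noncomputable def ew (ε : ℝ) (h : ℕ) : ℝ := Real.exp (-(1 + ε) * Real.log h)

lemma ew_pos (ε : ℝ) (h : ℕ) : 0 < ew ε h := Real.exp_pos _

lemma ew_mul (ε : ℝ) {h k : ℕ} (hh : h ≠ 0) (hk : k ≠ 0) : ew ε (h * k) = ew ε h * ew ε k := by
  unfold ew
  rw [← Real.exp_add]
  push_cast
  rw [Real.log_mul (by exact_mod_cast hh) (by exact_mod_cast hk)]
  ring_nf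

lemma ew_eq (ε : ℝ) {h : ℕ} (hh : h ≠ 0) : ew ε h = Real.exp (-ε * Real.log h) / h := by
  unfold ew
  have h0 : (0:ℝ) < h := by exact_mod_cast Nat.pos_of_ne_zero hh
  rw [show -(1 + ε) * Real.log h = -ε * Real.log h - Real.log h by ring, Real.exp_sub,
    Real.exp_log h0]

lemma ew_le {ε : ℝ} (hε : 0 ≤ ε) {h : ℕ} (hh : h ≠ 0) : ew ε h ≤ 1 / h := by
  rw [ew_eq ε hh]
  have h0 : (1:ℝ) ≤ h := by exact_mod_cast Nat.one_le_iff_ne_zero.mpr hh
  gcongr
  rw [Real.exp_le_one_iff]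
  nlinarith [Real.log_nonneg h0]

/-- one-parameter sum -/
noncomputable def A1 (Y ε : ℝ) (q : ℕ) : ℝ :=
  ∑ h ∈ (Ioc 0 ⌊Y⌋₊).filter (fun h => q ∣ h), (moebius h : ℝ) * ew ε h * Real.log (Y / h)

lemma A1_eq {Y ε : ℝ} {q : ℕ} (hq : 0 < q) :
    A1 Y ε q = (moebius q : ℝ) * ew ε q *
      ∑ m ∈ (Ioc 0 ⌊Y / q⌋₊).filter (fun m => m.Coprime q),
      (moebius m : ℝ) / m * (Real.exp (-ε * Real.log m) * Real.log (Y / q / m)) := by
  unfold A1
  have h1 : ∑ h ∈ (Ioc 0 ⌊Y⌋₊).filter (fun h => q ∣ h), (moebius h : ℝ) * ew ε h * Real.log (Y / h)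
      = ∑ m ∈ Ioc 0 ⌊Y / q⌋₊, (moebius (q * m) : ℝ) * ew ε (q * m) * Real.log (Y / ((q * m : ℕ) : ℝ)) := by
    symm
    apply Finset.sum_bij (fun m _ => q * m)
    · intro m hm
      simp only [mem_filter, mem_Ioc, Nat.floor_div_natCast] at hm ⊢
      refine ⟨⟨Nat.mul_pos hq hm.1, ?_⟩, dvd_mul_right _ _⟩
      calc q * m ≤ q * (⌊Y⌋₊ / q) := by gcongr; exact hm.2
        _ ≤ _ := Nat.mul_div_le _ _
    · intro a _ b _ h
      exact Nat.eq_of_mul_eq_mul_left hq h
    · intro h hh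
      simp only [mem_filter, mem_Ioc] at hh
      obtain ⟨⟨h1, h2⟩, m, rfl⟩ := hh
      refine ⟨m, ?_, rfl⟩
      rw [mem_Ioc, Nat.floor_div_natCast]
      refine ⟨Nat.pos_of_ne_zero (by rintro rfl; simp at h1), ?_⟩
      rw [Nat.le_div_iff_mul_le hq]
      linarith
    · intro m _; rfl
  rw [h1, sum_filter, mul_sum]
  refine sum_congr rfl fun m hm => ?_
  have hm0 : m ≠ 0 := (mem_Ioc.mp hm).1.ne'
  split_ifs with hc
  · rw [isMultiplicative_moebius.map_mul_of_coprime hc.symm, ew_mul ε hq.ne' hm0, ew_eq ε hm0]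
    push_cast
    rw [div_div]
    ring
  · have : ¬ Squarefree (q * m) := by
      intro hsq
      exact hc (Nat.coprime_of_squarefree_mul hsq).symm
    rw [moebius_eq_zero_of_not_squarefree this]
    simp

lemma abs_A1_le {Y ε : ℝ} {q : ℕ} (hq : 0 < q) (hε : 0 ≤ ε) (hY : 1 ≤ Y) (hεY : ε * Real.log Y ≤ 1) :
    |A1 Y ε q| ≤ if Squarefree q then 32 * kap q / q else 0 := by
  rw [A1_eq hq]
  have hq0 : (0:ℝ) < q := by exact_mod_cast hq
  split_ifs with hsq
  · rw [abs_mul, abs_mul, abs_of_pos (ew_pos _ _)]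
    have h1 : |(moebius q : ℝ)| ≤ 1 := by
      have := abs_moebius_le_one (n := q)
      exact_mod_cast this
    have h2 : |∑ m ∈ (Ioc 0 ⌊Y / q⌋₊).filter (fun m => m.Coprime q),
      (moebius m : ℝ) / m * (Real.exp (-ε * Real.log m) * Real.log (Y / q / m))| ≤ 32 * kap q := by
      rcases lt_or_ge (Y / q) 1 with h | h
      · rw [Nat.floor_eq_zero.mpr h]
        simp [(kap_pos q).le]
      · refine twisted_bound hsq hε h ?_
        calc ε * Real.log (Y / q) ≤ ε * Real.log Y := by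
              gcongr
              apply div_le_self (by linarith)
              exact_mod_cast hq
          _ ≤ 1 := hεY
    calc |(moebius q : ℝ)| * ew ε q * _ ≤ 1 * (1 / q) * (32 * kap q) := by
          gcongr
          · exact (ew_pos _ _).le
          · exact ew_le hε hq.ne'
      _ = _ := by ring
  · rw [moebius_eq_zero_of_not_squarefree hsq]
    simp

/-- mollifier coefficients -/
noncomputable def amol (X : ℝ) (h : ℕ) : ℝ :=
  (moebius h : ℝ) * (2 / Real.log X * (max 0 (Real.log (X / h)) - max 0 (Real.log (√X / h))))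

lemma log_sqrt' {X : ℝ} (hX : 0 ≤ X) : Real.log (√X) = Real.log X / 2 := Real.log_sqrt hX

lemma abs_amol_le {X : ℝ} (hX : 1 < X) (h : ℕ) : |amol X h| ≤ 1 := by
  rcases Nat.eq_zero_or_pos h with rfl | hh
  · simp [amol]
  have hl : 0 < Real.log X := Real.log_pos hX
  have hs : 0 < √X := Real.sqrt_pos.mpr (by linarith)
  have hh0 : (0:ℝ) < h := by exact_mod_cast hh
  have hh1 : (0:ℝ) ≤ Real.log h := Real.log_nonneg (by exact_mod_cast hh)
  unfold amol
  rw [abs_mul]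
  have h1 : |(moebius h : ℝ)| ≤ 1 := by
    have := abs_moebius_le_one (n := h)
    exact_mod_cast this
  have h2 : |2 / Real.log X * (max 0 (Real.log (X / h)) - max 0 (Real.log (√X / h)))| ≤ 1 := by
    rw [Real.log_div (by linarith) hh0.ne', Real.log_div hs.ne' hh0.ne', log_sqrt' (by linarith)]
    rw [abs_mul, abs_of_pos (a := 2 / Real.log X) (by positivity)]
    have h3 : |max 0 (Real.log X - Real.log h) - max 0 (Real.log X / 2 - Real.log h)| ≤ Real.log X / 2 := by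
      rw [abs_le]
      constructor
      · rcases max_cases (0:ℝ) (Real.log X - Real.log h) with ⟨h4, _⟩ | ⟨h4, _⟩ <;>
        rcases max_cases (0:ℝ) (Real.log X / 2 - Real.log h) with ⟨h5, _⟩ | ⟨h5, _⟩ <;> rw [h4, h5] <;> linarith
      · rcases max_cases (0:ℝ) (Real.log X - Real.log h) with ⟨h4, _⟩ | ⟨h4, _⟩ <;>
        rcases max_cases (0:ℝ) (Real.log X / 2 - Real.log h) with ⟨h5, _⟩ | ⟨h5, _⟩ <;> rw [h4, h5] <;> linarith
    calc 2 / Real.log X * _ ≤ 2 / Real.log X * (Real.log X / 2) := by gcongr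
      _ = 1 := by field_simp
  calc |(moebius h : ℝ)| * _ ≤ 1 * 1 := by gcongr
    _ = 1 := by norm_num

lemma amol_of_le_sqrt {X : ℝ} (hX : 1 < X) {h : ℕ} (hh : (h:ℝ) ≤ √X) : amol X h = moebius h := by
  rcases Nat.eq_zero_or_pos h with rfl | hh1
  · simp [amol]
  have hl : 0 < Real.log X := Real.log_pos hX
  have hs : 0 < √X := Real.sqrt_pos.mpr (by linarith)
  have hh0 : (0:ℝ) < h := by exact_mod_cast hh1
  unfold amol
  have hsX : √X ≤ X := by
    rw [Real.sqrt_le_left (by linarith)]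
    nlinarith
  have h1 : Real.log h ≤ Real.log (√X) := Real.log_le_log hh0 hh
  rw [log_sqrt' (by linarith)] at h1
  rw [Real.log_div (by linarith) hh0.ne', Real.log_div hs.ne' hh0.ne', log_sqrt' (by linarith)]
  rw [max_eq_right (by linarith), max_eq_right (by linarith)]
  field_simp
  ring

lemma amol_not_squarefree {X : ℝ} {h : ℕ} (hh : ¬ Squarefree h) : amol X h = 0 := by
  unfold amol
  rw [moebius_eq_zero_of_not_squarefree hh]
  simp

/-- `y_q` -/
noncomputable def yq (X ε : ℝ) (q : ℕ) : ℝ :=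
  ∑ h ∈ (Ioc 0 ⌊X⌋₊).filter (fun h => q ∣ h), amol X h * ew ε h

lemma yq_eq {X ε : ℝ} (hX : 1 < X) (q : ℕ) :
    yq X ε q = 2 / Real.log X * (A1 X ε q - A1 (√X) ε q) := by
  have hs : 0 < √X := Real.sqrt_pos.mpr (by linarith)
  have hX0 : 0 < X := by linarith
  have hsX : √X ≤ X := by
    rw [Real.sqrt_le_left (by linarith)]
    nlinarith
  have h2 : A1 (√X) ε q = ∑ h ∈ (Ioc 0 ⌊X⌋₊).filter (fun h => q ∣ h),
      (moebius h : ℝ) * ew ε h * max 0 (Real.log (√X / h)) := by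
    unfold A1
    trans ∑ h ∈ (Ioc 0 ⌊√X⌋₊).filter (fun h => q ∣ h),
      (moebius h : ℝ) * ew ε h * max 0 (Real.log (√X / h))
    · refine sum_congr rfl fun h hh => ?_
      simp only [mem_filter, mem_Ioc] at hh
      have hh0 : (0:ℝ) < h := by exact_mod_cast hh.1.1
      have : (h:ℝ) ≤ √X := (Nat.le_floor_iff hs.le).mp hh.1.2
      rw [max_eq_right]
      apply Real.log_nonneg
      rw [le_div_iff₀ hh0]; linarith
    apply Finset.sum_subset
    · intro h hh
      simp only [mem_filter, mem_Ioc] at hh ⊢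
      exact ⟨⟨hh.1.1, hh.1.2.trans (Nat.floor_le_floor hsX)⟩, hh.2⟩
    · intro h hh hh'
      simp only [mem_filter, mem_Ioc] at hh hh'
      have hh0 : (0:ℝ) < h := by exact_mod_cast hh.1.1
      have h3 : ¬ (h ≤ ⌊√X⌋₊) := fun h4 => hh' ⟨⟨hh.1.1, h4⟩, hh.2⟩
      rw [Nat.le_floor_iff hs.le] at h3
      push Not at h3
      rw [max_eq_left]
      · ring
      · apply Real.log_nonpos (by positivity)
        rw [div_le_one hh0]; exact h3.le
  rw [h2]
  unfold A1 yq
  rw [← sum_sub_distrib, mul_sum]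
  refine sum_congr rfl fun h hh => ?_
  simp only [mem_filter, mem_Ioc] at hh
  have hh0 : (0:ℝ) < h := by exact_mod_cast hh.1.1
  have h4 : (h:ℝ) ≤ X := (Nat.le_floor_iff hX0.le).mp hh.1.2
  unfold amol
  rw [max_eq_right (a := 0) (b := Real.log (X / h))]
  · ring
  · apply Real.log_nonneg
    rw [le_div_iff₀ hh0]; linarith

lemma abs_yq_le {X ε : ℝ} (hX : 1 < X) (hε : 0 ≤ ε) (hεX : ε * Real.log X ≤ 1) {q : ℕ} (hq : 0 < q) :
    |yq X ε q| ≤ if Squarefree q then 128 * kap q / (q * Real.log X) else 0 := by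
  have hl : 0 < Real.log X := Real.log_pos hX
  have hs1 : 1 ≤ √X := Real.one_le_sqrt.mpr hX.le
  rw [yq_eq hX, abs_mul, abs_of_pos (a := 2 / Real.log X) (by positivity)]
  have h1 := abs_A1_le (Y := X) hq hε hX.le hεX
  have h2 := abs_A1_le (Y := √X) hq hε hs1 (by
    rw [log_sqrt' (by linarith)]
    nlinarith)
  have h3 : |A1 X ε q - A1 (√X) ε q| ≤ |A1 X ε q| + |A1 (√X) ε q| := abs_sub _ _
  have hq0 : (0:ℝ) < q := by exact_mod_cast hq
  split_ifs at h1 h2 ⊢ with hsq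
  · calc 2 / Real.log X * |A1 X ε q - A1 (√X) ε q|
        ≤ 2 / Real.log X * (32 * kap q / q + 32 * kap q / q) := by gcongr; linarith
      _ = _ := by field_simp; ring
  · have : |A1 X ε q - A1 (√X) ε q| ≤ 0 := by linarith
    have h5 : 0 < 2 / Real.log X := by positivity
    nlinarith

/-- constant -/
noncomputable def CQ : ℝ := 128 ^ 2 * Real.exp 1 * Real.exp 6 * 2

lemma CQ_pos : 0 < CQ := by unfold CQ; positivity

lemma QF_le {X ε : ℝ} (hX : 3 ≤ X) (hε : 0 ≤ ε) (hεX : ε * Real.log X ≤ 1) :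
    ∑ q ∈ Ioc 0 ⌊X⌋₊, (q:ℝ) * Real.exp (ε * Real.log q) * yq X ε q ^ 2 ≤ CQ / Real.log X := by
  have hl : 1 ≤ Real.log X := by
    rw [Real.le_log_iff_exp_le (by linarith)]
    have := Real.exp_one_lt_d9
    linarith
  have hX0 : 0 < X := by linarith
  have hN1 : 1 ≤ ⌊X⌋₊ := (Nat.one_le_floor_iff X).mpr (by linarith)
  calc ∑ q ∈ Ioc 0 ⌊X⌋₊, (q:ℝ) * Real.exp (ε * Real.log q) * yq X ε q ^ 2
      ≤ ∑ q ∈ Ioc 0 ⌊X⌋₊, (if Squarefree q then 128 ^ 2 * Real.exp 1 / Real.log X ^ 2 * (kap q ^ 2 / q) else 0) := by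
        refine sum_le_sum fun q hq => ?_
        rw [mem_Ioc] at hq
        have hq0 : (0:ℝ) < q := by exact_mod_cast hq.1
        have hqX : (q:ℝ) ≤ X := (Nat.le_floor_iff hX0.le).mp hq.2
        have h1 := abs_yq_le (X := X) (ε := ε) (by linarith) hε hεX hq.1
        have h2 : Real.exp (ε * Real.log q) ≤ Real.exp 1 := by
          apply Real.exp_le_exp.mpr
          calc ε * Real.log q ≤ ε * Real.log X := by gcongr
            _ ≤ 1 := hεX
        split_ifs at h1 ⊢ with hsq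
        · have h3 : yq X ε q ^ 2 ≤ (128 * kap q / (q * Real.log X)) ^ 2 := by
            rw [← sq_abs]
            gcongr
          calc (q:ℝ) * Real.exp (ε * Real.log q) * yq X ε q ^ 2
              ≤ q * Real.exp 1 * (128 * kap q / (q * Real.log X)) ^ 2 := by gcongr
            _ = _ := by field_simp
        · have : yq X ε q = 0 := abs_nonpos_iff.mp h1
          rw [this]
          simp
    _ = 128 ^ 2 * Real.exp 1 / Real.log X ^ 2 * ∑ q ∈ (Ioc 0 ⌊X⌋₊).filter Squarefree, kap q ^ 2 / q := by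
        rw [← sum_filter, mul_sum]
    _ ≤ 128 ^ 2 * Real.exp 1 / Real.log X ^ 2 * (Real.exp 6 * (1 + Real.log ⌊X⌋₊)) := by
        gcongr
        exact sum_kap_sq hN1
    _ ≤ 128 ^ 2 * Real.exp 1 / Real.log X ^ 2 * (Real.exp 6 * (2 * Real.log X)) := by
        gcongr
        have : Real.log ⌊X⌋₊ ≤ Real.log X := Real.log_le_log (by exact_mod_cast hN1) (Nat.floor_le hX0.le)
        linarith
    _ = CQ / Real.log X := by unfold CQ; field_simp

end Pool.Agent.Helper57.LH
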