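import Mathlib
import Pool.Agent.Helper57.LH.GamInt

namespace Pool.Agent.Helper57.LH

open Complex Set MeasureTheory Filter Topology Asymptotics

/-- twisted theta function -/
noncomputable def th (z : ℂ) (x : ℝ) : ℂ := jacobiTheta (I * x * z)

lemma im_arg {z : ℂ} (x : ℝ) : (I * x * z).im = x * z.re := by
  simp [Complex.mul_im, Complex.mul_re]

lemma im_arg_pos {z : ℂ} (hz : 0 < z.re) {x : ℝ} (hx : 0 < x) : 0 < (I * x * z).im := by
  rw [im_arg]; positivity

lemma hasSum_th {z : ℂ} (hz : 0 < z.re) {x : ℝ} (hx : 0 < x) :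
    HasSum (fun n : ℕ => cexp (-(Real.pi * ((n:ℂ) + 1) ^ 2 * x * z))) ((th z x - 1) / 2) := by
  have := hasSum_nat_jacobiTheta (im_arg_pos hz hx)
  have e : (fun n : ℕ => cexp (-(Real.pi * ((n:ℂ) + 1) ^ 2 * x * z))) =
      fun n : ℕ => cexp (Real.pi * I * ((n : ℂ) + 1) ^ 2 * (I * x * z)) := by
    funext n
    congr 1
    linear_combination (-(Real.pi : ℂ) * ((n:ℂ) + 1) ^ 2 * x * z) * I_sq
  rw [e]
  exact this

lemma continuousAt_th {z : ℂ} (hz : 0 < z.re) {x : ℝ} (hx : 0 < x) : ContinuousAt (th z) x := by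
  unfold th
  have h1 := continuousAt_jacobiTheta (im_arg_pos hz hx)
  exact ContinuousAt.comp (f := fun x : ℝ => I * x * z) h1 (by fun_prop)

lemma locallyIntegrable_th {z : ℂ} (hz : 0 < z.re) : LocallyIntegrableOn (th z) (Ioi 0) := by
  refine ContinuousOn.locallyIntegrableOn ?_ measurableSet_Ioi
  exact fun x hx => (continuousAt_th hz hx).continuousWithinAt

lemma norm_th_sub_one_le {z : ℂ} (hz : 0 < z.re) {x : ℝ} (hx : 0 < x) :
    ‖th z x - 1‖ ≤ 2 / (1 - Real.exp (-Real.pi * (x * z.re))) * Real.exp (-Real.pi * (x * z.re)) := by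
  have := norm_jacobiTheta_sub_one_le (im_arg_pos hz hx)
  rw [im_arg] at this
  exact this

lemma th_top {z : ℂ} (hz : 0 < z.re) (r : ℝ) :
    (fun x => th z x - 1) =O[atTop] (fun x : ℝ => x ^ r) := by
  have h1 : (fun x => th z x - 1) =O[atTop] (fun x : ℝ => Real.exp (-(Real.pi * z.re) * x)) := by
    have hev : ∀ᶠ x : ℝ in atTop, ‖th z x - 1‖ ≤ 4 * ‖Real.exp (-(Real.pi * z.re) * x)‖ := by
      have ht : Tendsto (fun x : ℝ => Real.exp (-Real.pi * (x * z.re))) atTop (𝓝 0) := by
        apply Real.tendsto_exp_atBot.comp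
        have : (fun x : ℝ => -Real.pi * (x * z.re)) = fun x : ℝ => -((Real.pi * z.re) * x) := by
          funext x; ring
        rw [this]
        exact tendsto_neg_atTop_atBot.comp (tendsto_id.const_mul_atTop (by positivity))
      filter_upwards [eventually_gt_atTop 0, ht.eventually (gt_mem_nhds (show (0:ℝ) < 1/2 by norm_num))]
        with x hx hx2
      refine (norm_th_sub_one_le hz hx).trans ?_
      rw [Real.norm_eq_abs, Real.abs_exp]
      rw [show -(Real.pi * z.re) * x = -Real.pi * (x * z.re) by ring]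
      gcongr
      rw [div_le_iff₀ (by linarith)]
      linarith
    exact IsBigO.of_bound 4 hev
  refine h1.trans ?_
  exact (isLittleO_exp_neg_mul_rpow_atTop (by positivity) r).isBigO

lemma re_inv_pos {z : ℂ} (hz : 0 < z.re) : 0 < (z⁻¹).re := by
  rw [Complex.inv_re]
  have : z ≠ 0 := fun h => by simp [h] at hz
  have := Complex.normSq_pos.mpr this
  positivity

lemma real_mul_cpow {x : ℝ} (hx : 0 < x) {z : ℂ} (hz : z ≠ 0) (c : ℂ) :
    ((x:ℂ) * z) ^ c = (x:ℂ) ^ c * z ^ c := by
  have hx0 : (x:ℂ) ≠ 0 := by exact_mod_cast hx.ne'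
  rw [Complex.cpow_def_of_ne_zero (mul_ne_zero hx0 hz), Complex.cpow_def_of_ne_zero hx0,
    Complex.cpow_def_of_ne_zero hz, Complex.log_ofReal_mul hx hz, ← Complex.exp_add,
    Complex.ofReal_log hx.le]
  ring_nf

/-- functional equation -/
lemma th_inv {z : ℂ} (hz : 0 < z.re) {x : ℝ} (hx : 0 < x) :
    th z (1 / x) = (z ^ (-(1/2) : ℂ) * ((x ^ (1/2 : ℝ) : ℝ) : ℂ)) * th z⁻¹ x := by
  have hz0 : z ≠ 0 := fun h => by simp [h] at hz
  have hx0 : (x:ℂ) ≠ 0 := by exact_mod_cast hx.ne'
  have h1 := jacobiTheta₂_functional_equation 0 (I * (1 / x : ℝ) * z)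
  rw [← jacobiTheta_eq_jacobiTheta₂] at h1
  unfold th
  rw [h1]
  have e1 : -I * (I * ((1 / x : ℝ) : ℂ) * z) = ((1 / x : ℝ) : ℂ) * z := by
    linear_combination (-(((1 / x : ℝ) : ℂ)) * z) * I_sq
  have e2 : -1 / (I * ((1 / x : ℝ) : ℂ) * z) = I * x * z⁻¹ := by
    push_cast
    field_simp
    linear_combination (-1 : ℂ) * I_sq
  rw [e1]
  simp only [zero_div, zero_pow two_ne_zero, mul_zero, Complex.exp_zero, mul_one]
  rw [e2, ← jacobiTheta_eq_jacobiTheta₂]
  congr 1
  rw [real_mul_cpow (by positivity) hz0]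
  rw [Complex.cpow_neg, one_div, mul_inv]
  rw [mul_comm]
  congr 1
  rw [← Complex.cpow_neg, Complex.ofReal_cpow hx.le]
  push_cast
  rw [one_div, Complex.inv_cpow, Complex.cpow_neg, inv_inv]
  rw [Complex.arg_ofReal_of_nonneg hx.le]
  exact Real.pi_pos.ne

/-- the FE pair -/
noncomputable def FEP (z : ℂ) (hz : 0 < z.re) : WeakFEPair ℂ where
  f := th z
  g := th z⁻¹
  k := 1 / 2
  ε := z ^ (-(1/2) : ℂ)
  f₀ := 1
  g₀ := 1
  hf_int := locallyIntegrable_th hz
  hg_int := locallyIntegrable_th (re_inv_pos hz)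
  hk := by norm_num
  hε := by
    have hz0 : z ≠ 0 := fun h => by simp [h] at hz
    rw [Complex.cpow_neg]
    exact inv_ne_zero ((Complex.cpow_ne_zero_iff_of_exponent_ne_zero (by norm_num)).mpr hz0)
  h_feq := by
    intro x hx
    rw [smul_eq_mul]
    exact th_inv hz hx
  hf_top := th_top hz
  hg_top := th_top (re_inv_pos hz)

lemma arg_ne_pi {z : ℂ} (hz : 0 < z.re) : z.arg ≠ Real.pi := by
  intro h
  have := (Complex.abs_arg_lt_pi_div_two_iff).mpr (Or.inl hz)
  rw [h, abs_of_pos Real.pi_pos] at this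
  linarith [Real.pi_pos]

lemma one_div_real_mul_cpow {c : ℝ} (hc : 0 < c) {z : ℂ} (hz : 0 < z.re) (s : ℂ) :
    (1 / ((c:ℂ) * z)) ^ s = (c:ℂ) ^ (-s) * z ^ (-s) := by
  have hz0 : z ≠ 0 := fun h => by simp [h] at hz
  have e : (1 / ((c:ℂ) * z)) = ((c⁻¹ : ℝ) : ℂ) * z⁻¹ := by
    push_cast
    rw [one_div, mul_inv]
  rw [e, real_mul_cpow (inv_pos.mpr hc) (inv_ne_zero hz0), Complex.inv_cpow _ _ (arg_ne_pi hz),
    ← Complex.cpow_neg]
  congr 1
  push_cast
  rw [Complex.inv_cpow, Complex.cpow_neg]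
  rw [Complex.arg_ofReal_of_nonneg hc.le]
  exact Real.pi_pos.ne

/-- Mellin transform of theta minus one in the half plane of absolute convergence -/
lemma mellin_th {z : ℂ} (hz : 0 < z.re) {s : ℂ} (hs : 1 / 2 < s.re) :
    mellin (fun x => th z x - 1) s = 2 * z ^ (-s) * completedRiemannZeta (2 * s) := by
  have hs0 : 0 < s.re := by linarith
  have hz0 : z ≠ 0 := fun h => by simp [h] at hz
  set F : ℕ → ℝ → ℂ := fun n x => (x:ℂ) ^ (s - 1) * cexp (-((Real.pi * ((n:ℂ) + 1) ^ 2 * z) * x)) with hF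
  have hrn : ∀ n : ℕ, 0 < ((Real.pi * ((n:ℂ) + 1) ^ 2 * z) : ℂ).re := by
    intro n
    have : ((Real.pi * ((n:ℂ) + 1) ^ 2 * z) : ℂ) = ((Real.pi * ((n:ℝ) + 1) ^ 2 : ℝ) : ℂ) * z := by
      push_cast; ring
    rw [this, Complex.re_ofReal_mul]
    positivity
  have hnorm : ∀ n : ℕ, ∀ x ∈ Ioi (0:ℝ), ‖F n x‖ = x ^ (s.re - 1) *
      Real.exp (-((Real.pi * ((n:ℝ) + 1) ^ 2 * z.re) * x)) := by
    intro n x hx
    rw [hF]
    simp only
    rw [norm_mul, Complex.norm_cpow_eq_rpow_re_of_pos hx, Complex.norm_exp]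
    congr 2
    have : (-((Real.pi * ((n:ℂ) + 1) ^ 2 * z) * x) : ℂ) = ((-(Real.pi * ((n:ℝ) + 1) ^ 2 * x) : ℝ) : ℂ) * z := by
      push_cast; ring
    rw [this, Complex.re_ofReal_mul]
    ring
  have hint : ∀ n : ℕ, ∫ x in Ioi (0:ℝ), ‖F n x‖ =
      Real.Gamma s.re * (Real.pi * z.re) ^ (-s.re) * (1 / ((n:ℝ) + 1) ^ (2 * s.re)) := by
    intro n
    rw [setIntegral_congr_fun measurableSet_Ioi (hnorm n)]
    rw [Real.integral_rpow_mul_exp_neg_mul_Ioi hs0 (by positivity)]
    rw [mul_comm, mul_assoc (Real.Gamma s.re)]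
    refine congrArg (fun t => Real.Gamma s.re * t) ?_
    rw [one_div, Real.inv_rpow (by positivity), ← Real.rpow_neg (by positivity),
      show Real.pi * ((n:ℝ) + 1) ^ 2 * z.re = (Real.pi * z.re) * (((n:ℝ) + 1) ^ 2) by ring,
      Real.mul_rpow (by positivity) (by positivity)]
    congr 1
    rw [← Real.rpow_natCast, ← Real.rpow_mul (by positivity), one_div, ← Real.rpow_neg (by positivity)]
    congr 1
    push_cast; ring
  have hmeas : ∀ n : ℕ, IntegrableOn (F n) (Ioi 0) := by
    intro n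
    have hi : IntegrableOn (fun x : ℝ => x ^ (s.re - 1) *
      Real.exp (-(Real.pi * ((n:ℝ) + 1) ^ 2 * z.re) * x)) (Ioi 0) := by
      have := integrableOn_gam (s := s.re - 1)
        (b := Real.pi * ((n:ℝ) + 1) ^ 2 * z.re) (by linarith) (by positivity)
      refine this.congr_fun (fun x hx => ?_) measurableSet_Ioi
      simp only [neg_mul]
    refine hi.mono' ?_ ?_
    · apply ContinuousOn.aestronglyMeasurable _ measurableSet_Ioi
      intro x hx
      apply ContinuousAt.continuousWithinAt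
      apply ContinuousAt.mul
      · exact (Complex.continuousAt_ofReal_cpow_const _ _ (Or.inr (ne_of_gt hx)))
      · fun_prop
    · filter_upwards [ae_restrict_mem measurableSet_Ioi] with x hx
      rw [hnorm n x hx, neg_mul]
  have hsum : Summable (fun n : ℕ => ∫ x in Ioi (0:ℝ), ‖F n x‖) := by
    simp_rw [hint]
    apply Summable.mul_left
    have := (summable_nat_add_iff 1).mpr (Real.summable_one_div_nat_rpow.mpr (show 1 < 2 * s.re by linarith))
    simpa using this
  have hH := hasSum_integral_of_summable_integral_norm hmeas hsum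
  have hval : ∀ n : ℕ, ∫ x in Ioi (0:ℝ), F n x =
      (z ^ (-s) * ((Real.pi : ℂ) ^ (-s) * Gamma s)) * (1 / ((n:ℂ) + 1) ^ (2 * s)) := by
    intro n
    rw [hF]
    simp only
    rw [gam_int hs0 (hrn n)]
    rw [show (Real.pi * ((n:ℂ) + 1) ^ 2 * z : ℂ) = ((Real.pi * ((n:ℝ) + 1) ^ 2 : ℝ) : ℂ) * z by
      push_cast; ring, one_div_real_mul_cpow (by positivity) hz]
    rw [Complex.ofReal_mul, real_mul_cpow Real.pi_pos (by
      have : ((((n:ℝ) + 1) ^ 2 : ℝ)) ≠ 0 := by positivity
      exact_mod_cast this)]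
    have e : (((((n:ℝ) + 1) ^ 2 : ℝ)) : ℂ) ^ (-s) = 1 / ((n:ℂ) + 1) ^ (2 * s) := by
      rw [one_div, ← Complex.cpow_neg]
      have h2 : ((n:ℂ) + 1) = (((n:ℝ) + 1 : ℝ) : ℂ) := by push_cast; ring
      rw [h2, sq, Complex.ofReal_mul]
      rw [Complex.mul_cpow_ofReal_nonneg (by positivity) (by positivity), ← Complex.cpow_add _ _ (by
        have : ((n:ℝ) + 1) ≠ 0 := by positivity
        exact_mod_cast this)]
      congr 1
      push_cast
      ring
    rw [e]
    ring
  simp_rw [hval] at hH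
  have hz2 : 1 < (2 * s).re := by
    rw [show (2 * s) = ((2:ℝ):ℂ) * s by push_cast; ring, Complex.re_ofReal_mul]
    linarith
  have hs2 : (2 * s) ≠ 0 := fun h => by rw [h] at hz2; simp at hz2; linarith
  have hzeta := zeta_eq_tsum_one_div_nat_add_one_cpow hz2
  have hH2 := hH.tsum_eq
  rw [tsum_mul_left, ← hzeta] at hH2
  have e1 : mellin (fun x => th z x - 1) s = 2 * ∫ a in Ioi (0:ℝ), ∑' i, F i a := by
    unfold mellin
    rw [← integral_const_mul]
    refine setIntegral_congr_fun measurableSet_Ioi (fun x hx => ?_)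
    simp only
    have h1 := (hasSum_th hz hx).mul_left ((x:ℂ) ^ (s - 1))
    have h2 : (∑' i, F i x) = (x:ℂ) ^ (s - 1) * ((th z x - 1) / 2) := by
      rw [← h1.tsum_eq]
      congr 1
      funext n
      rw [hF]
      simp only
      congr 2
      ring
    rw [h2, smul_eq_mul]
    ring
  rw [e1, ← hH2, riemannZeta_def_of_ne_zero hs2]
  have hG : Gammaℝ (2 * s) = (Real.pi : ℂ) ^ (-s) * Gamma s := by
    rw [Complex.Gammaℝ_def]
    congr 2
    · ring
    · ring
  rw [← hG]
  have hGne : Gammaℝ (2 * s) ≠ 0 := Complex.Gammaℝ_ne_zero_of_re_pos (by linarith)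
  field_simp

/-- theta minus its main terms at zero and infinity -/
noncomputable def om (z : ℂ) (x : ℝ) : ℂ := th z x - 1 - z ^ (-(1/2) : ℂ) * ((x ^ (-(1/2) : ℝ) : ℝ) : ℂ)

lemma om_loc {z : ℂ} (hz : 0 < z.re) : LocallyIntegrableOn (om z) (Ioi 0) := by
  refine ContinuousOn.locallyIntegrableOn ?_ measurableSet_Ioi
  intro x hx
  apply ContinuousAt.continuousWithinAt
  unfold om
  apply ContinuousAt.sub
  · exact (continuousAt_th hz hx).sub continuousAt_const
  · apply ContinuousAt.mul continuousAt_const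
    apply Complex.continuous_ofReal.continuousAt.comp
    exact Real.continuousAt_rpow_const _ _ (Or.inl (ne_of_gt hx))

lemma om_conv {z : ℂ} (hz : 0 < z.re) {s : ℂ} (hs : 0 < s.re) (hs2 : s.re < 1 / 2) :
    MellinConvergent (om z) s := by
  apply mellinConvergent_of_isBigO_rpow (a := 1 / 2) (b := 0) (om_loc hz) ?_ hs2 ?_ hs
  · unfold om
    apply IsBigO.sub
    · exact th_top hz _
    · apply IsBigO.const_mul_left
      apply IsBigO.of_bound 1
      filter_upwards [eventually_gt_atTop 0] with x hx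
      rw [Complex.norm_real, one_mul]
  · have h1 := (FEP z hz).hf_zero 0
    have h2 : (fun x : ℝ => (1:ℂ)) =O[𝓝[>] 0] (fun x : ℝ => x ^ (0:ℝ)) := by
      apply IsBigO.of_bound 1
      filter_upwards with x
      simp
    have h3 := h1.sub h2
    have e : (fun x => om z x) = fun x => ((FEP z hz).f x - ((FEP z hz).ε * ↑(x ^ (-(FEP z hz).k))) • (FEP z hz).g₀) - 1 := by
      funext x
      simp only [om, FEP, smul_eq_mul, mul_one]
      ring
    have h4 : (fun x => om z x) =O[𝓝[>] 0] (fun x : ℝ => x ^ (-0:ℝ)) := by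
      rw [e]; simpa using h3
    exact h4

lemma om_mellin_Λ {z : ℂ} (hz : 0 < z.re) {s : ℂ} (hs : 0 < s.re) (hs2 : s.re < 1 / 2) :
    mellin (om z) s = (FEP z hz).Λ s := by
  have hc := om_conv hz hs hs2
  set P := FEP z hz with hP
  have hc2 : MellinConvergent P.f_modif s := by
    have h := P.isStrongFEPair_toStrongFEPair
    obtain ⟨t, ht⟩ := exists_gt s.re
    obtain ⟨u, hu⟩ := exists_lt s.re
    exact mellinConvergent_of_isBigO_rpow P.hf_modif_int (h.hf_top _) ht (h.hf_zero _) hu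
  -- the difference
  set d : ℝ → ℂ := fun x => P.f_modif x - om z x with hd
  have hdiff : HasMellin (fun x => P.f_modif x - om z x) s (mellin P.f_modif s - mellin (om z) s) :=
    hasMellin_sub hc2 hc
  have hval : mellin d s = 1 / s + (P.ε / (P.k - s)) := by
    have hae : mellin d s = ∫ x in Ioi (0:ℝ), ((Ioc (0:ℝ) 1).indicator (fun x : ℝ => (x:ℂ) ^ (s - 1)) x
        + (Ioi (1:ℝ)).indicator (fun x : ℝ => P.ε * (x:ℂ) ^ (s - 1 - 1 / 2)) x) := by
      unfold mellin
      refine setIntegral_congr_ae measurableSet_Ioi ?_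
      have hne : ∀ᵐ x : ℝ, x ≠ 1 := by
        rw [ae_iff]
        simp
      filter_upwards [hne] with x hx1 hx
      have hx0 : 0 < x := hx
      rw [hd]
      simp only [smul_eq_mul]
      rcases lt_or_gt_of_ne hx1 with h | h
      · rw [indicator_of_mem (show x ∈ Ioc (0:ℝ) 1 from ⟨hx0, h.le⟩),
          indicator_of_notMem (show x ∉ Ioi (1:ℝ) by simp [h.le])]
        unfold WeakFEPair.f_modif
        simp only [Pi.add_apply]
        rw [indicator_of_notMem (show x ∉ Ioi (1:ℝ) by simp [h.le]),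
          indicator_of_mem (show x ∈ Ioo (0:ℝ) 1 from ⟨hx0, h⟩)]
        simp only [om, hP, FEP, smul_eq_mul, mul_one]
        ring
      · rw [indicator_of_notMem (show x ∉ Ioc (0:ℝ) 1 by simp [h]),
          indicator_of_mem (show x ∈ Ioi (1:ℝ) from h)]
        unfold WeakFEPair.f_modif
        simp only [Pi.add_apply]
        rw [indicator_of_mem (show x ∈ Ioi (1:ℝ) from h),
          indicator_of_notMem (show x ∉ Ioo (0:ℝ) 1 by simp [h.le])]
        simp only [om, hP, FEP, add_zero, zero_add]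
        have e : ((x ^ (-(1/2) : ℝ) : ℝ) : ℂ) = (x:ℂ) ^ (-(1/2) : ℂ) := by
          rw [Complex.ofReal_cpow hx0.le]
          push_cast
          rfl
        rw [e, show s - 1 - 1 / 2 = (s - 1) + (-(1/2)) by ring, Complex.cpow_add _ _ (by exact_mod_cast hx0.ne')]
        ring
    rw [hae, integral_add]
    · congr 1
      · have := (hasMellin_one_Ioc hs).2
        unfold mellin at this
        rw [← this]
        refine setIntegral_congr_fun measurableSet_Ioi (fun x hx => ?_)
        simp only [smul_eq_mul]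
        by_cases h : x ∈ Ioc (0:ℝ) 1
        · rw [indicator_of_mem h, indicator_of_mem h, mul_one]
        · rw [indicator_of_notMem h, indicator_of_notMem h, mul_zero]
      · rw [setIntegral_indicator measurableSet_Ioi, show Ioi (0:ℝ) ∩ Ioi 1 = Ioi 1 by
          rw [Ioi_inter_Ioi]; simp, integral_const_mul,
          integral_Ioi_cpow_of_lt (by simp; linarith) one_pos]
        simp only [Complex.ofReal_one, Complex.one_cpow]
        have hk : (P.k : ℂ) = 1 / 2 := by simp [hP, FEP]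
        rw [hk]
        have h1 : (1 / 2 - s) ≠ 0 := by
          intro h
          have := congrArg Complex.re h
          simp at this
          linarith
        rw [show s - 1 - 1 / 2 + 1 = -(1 / 2 - s) by ring]
        rw [neg_div_neg_eq, mul_one_div]
    · have := (hasMellin_one_Ioc hs).1
      unfold MellinConvergent at this
      refine this.congr_fun (fun x hx => ?_) measurableSet_Ioi
      simp only [smul_eq_mul]
      by_cases h : x ∈ Ioc (0:ℝ) 1
      · rw [indicator_of_mem h, indicator_of_mem h, mul_one]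
      · rw [indicator_of_notMem h, indicator_of_notMem h, mul_zero]
    · rw [← IntegrableOn, integrableOn_indicator_iff measurableSet_Ioi]
      refine IntegrableOn.mono_set ?_ inter_subset_left
      exact (integrableOn_Ioi_cpow_of_lt (by simp; linarith) one_pos).const_mul _
  have hlast : mellin d s = mellin P.f_modif s - mellin (om z) s := hdiff.2
  have hΛ : P.Λ s = mellin P.f_modif s - (1 / s) - (P.ε / (P.k - s)) := by
    unfold WeakFEPair.Λ WeakFEPair.Λ₀
    have h1 : P.f₀ = 1 := rfl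
    have h2 : P.g₀ = 1 := rfl
    rw [h1, h2]
    simp
  rw [hΛ]
  linear_combination hlast - hval

lemma FEP_Λ {z : ℂ} (hz : 0 < z.re) {s : ℂ} (hs : s ≠ 0) (hs2 : s ≠ 1 / 2) :
    (FEP z hz).Λ s = 2 * z ^ (-s) * completedRiemannZeta (2 * s) := by
  have hz0 : z ≠ 0 := fun h => by simp [h] at hz
  set P := FEP z hz with hP
  have h1 : P.f₀ = 1 := rfl
  have h2 : P.g₀ = 1 := rfl
  have hk : (P.k : ℂ) = 1 / 2 := by simp [hP, FEP]
  set A : ℂ → ℂ := fun s => s * (1 / 2 - s) * P.Λ₀ s - (1 / 2 - s) - P.ε * s with hA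
  set B : ℂ → ℂ := fun s => s * (1 / 2 - s) * (2 * z ^ (-s) * completedRiemannZeta₀ (2 * s))
    - z ^ (-s) * (1 / 2 - s) - z ^ (-s) * s with hB
  have hΛA : ∀ s : ℂ, s ≠ 0 → s ≠ 1 / 2 → s * (1 / 2 - s) * P.Λ s = A s := by
    intro s hs hs2
    have h3 : (1 / 2 - s) ≠ 0 := fun h => hs2 (by linear_combination -h)
    rw [hA]
    simp only
    unfold WeakFEPair.Λ
    rw [h1, h2, hk]
    simp only [smul_eq_mul, mul_one]
    have e1 : s * (1 / s) = 1 := mul_one_div_cancel hs
    have e2 : (1 / 2 - s) * (P.ε / (1 / 2 - s)) = P.ε := mul_div_cancel₀ _ h3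
    linear_combination (-(1 / 2 - s)) * e1 - s * e2
  have hΛB : ∀ s : ℂ, s ≠ 0 → s ≠ 1 / 2 → s * (1 / 2 - s) * (2 * z ^ (-s) * completedRiemannZeta (2 * s)) = B s := by
    intro s hs hs2
    have h3 : (1 - 2 * s) ≠ 0 := fun h => hs2 (by linear_combination -h / 2)
    rw [hB]
    simp only
    rw [completedRiemannZeta_eq]
    have e1 : s * (1 / (2 * s)) = 1 / 2 := by field_simp
    have e2 : (1 / 2 - s) * (1 / (1 - 2 * s)) = 1 / 2 := by
      rw [mul_one_div, div_eq_iff h3]
      ring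
    linear_combination (-(2 * z ^ (-s) * (1 / 2 - s))) * e1 - (2 * z ^ (-s) * s) * e2
  have hzpow : Differentiable ℂ (fun s : ℂ => z ^ (-s)) := by
    intro s
    exact (differentiableAt_id.neg).const_cpow (Or.inl hz0)
  have hAd : Differentiable ℂ A := by
    have := P.differentiable_Λ₀
    rw [hA]
    fun_prop
  have hBd : Differentiable ℂ B := by
    have := differentiable_completedZeta₀
    have h5 : Differentiable ℂ (fun s : ℂ => completedRiemannZeta₀ (2 * s)) := this.comp (by fun_prop)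
    rw [hB]
    fun_prop
  have hAB : A = B := by
    have hAa : AnalyticOnNhd ℂ A univ := hAd.differentiableOn.analyticOnNhd isOpen_univ
    have hBa : AnalyticOnNhd ℂ B univ := hBd.differentiableOn.analyticOnNhd isOpen_univ
    apply hAa.eq_of_eventuallyEq hBa (z₀ := 1)
    have hev : ∀ᶠ s : ℂ in 𝓝 1, 1 / 2 < s.re := by
      refine (isOpen_lt continuous_const Complex.continuous_re).mem_nhds ?_
      simp only [mem_ofPred_eq, Complex.one_re]
      norm_num
    filter_upwards [hev] with s hs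
    have hs0 : s ≠ 0 := fun h => by rw [h] at hs; simp at hs; linarith
    have hs1 : s ≠ 1 / 2 := fun h => by rw [h] at hs; simp at hs
    rw [← hΛA s hs0 hs1, ← hΛB s hs0 hs1]
    congr 1
    have hkk : P.k < s.re := by simpa [hP, FEP] using hs
    have hm := (P.hasMellin hkk).2
    rw [← hm]
    exact mellin_th hz hs
  have h3 : (1 / 2 - s) ≠ 0 := fun h => hs2 (by linear_combination -h)
  have := hΛA s hs hs2
  rw [hAB, ← hΛB s hs hs2] at this
  exact mul_left_cancel₀ (mul_ne_zero hs h3) this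

/-- Mellin transform in the critical strip -/
theorem om_mellin {z : ℂ} (hz : 0 < z.re) {s : ℂ} (hs : 0 < s.re) (hs2 : s.re < 1 / 2) :
    mellin (om z) s = 2 * z ^ (-s) * completedRiemannZeta (2 * s) := by
  rw [om_mellin_Λ hz hs hs2, FEP_Λ hz]
  · intro h; rw [h] at hs; simp at hs
  · intro h; rw [h] at hs2; simp at hs2

end Pool.Agent.Helper57.LH
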