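import Mathlib
import Pool.Agent.Helper57.LH.Theta
import Pool.Agent.Helper57.LH.Half2

namespace Pool.Agent.Helper57.LH

open Complex MeasureTheory Filter Topology Finset

/-- mollified theta remainder -/
noncomputable def Om (X : ℝ) (z : ℂ) (x : ℝ) : ℂ := ∑ h ∈ Ioc 0 ⌊X⌋₊, (amol X h : ℂ) * om z ((h:ℝ) ^ 2 * x)

/-- the mollifier -/
noncomputable def Mol (X : ℝ) (w : ℂ) : ℂ := ∑ h ∈ Ioc 0 ⌊X⌋₊, (amol X h : ℂ) * (h:ℂ) ^ (-w)

lemma Om_mellin {z : ℂ} (hz : 0 < z.re) (X : ℝ) {s : ℂ} (hs : 0 < s.re) (hs2 : s.re < 1 / 2) :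
    HasMellin (Om X z) s (Mol X (2 * s) * (2 * z ^ (-s) * completedRiemannZeta (2 * s))) := by
  have h1 : ∀ h ∈ Ioc 0 ⌊X⌋₊, HasMellin (fun x => (amol X h : ℂ) * om z ((h:ℝ) ^ 2 * x)) s
      ((amol X h : ℂ) * ((h:ℂ) ^ (-(2 * s)) * (2 * z ^ (-s) * completedRiemannZeta (2 * s)))) := by
    intro h hh
    rw [mem_Ioc] at hh
    have hh0 : (0:ℝ) < h := by exact_mod_cast hh.1
    have hh2 : (0:ℝ) < (h:ℝ) ^ 2 := by positivity
    have hc := (MellinConvergent.comp_mul_left (f := om z) (s := s) hh2)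
    have hm := mellin_comp_mul_left (om z) s hh2
    have h2 : MellinConvergent (fun x => (amol X h : ℂ) • om z ((h:ℝ) ^ 2 * x)) s :=
      MellinConvergent.const_smul (hc.mpr (om_conv hz hs hs2)) _
    refine ⟨h2, ?_⟩
    have h3 : mellin (fun x => (amol X h : ℂ) • om z ((h:ℝ) ^ 2 * x)) s = (amol X h : ℂ) • mellin (fun x => om z ((h:ℝ) ^ 2 * x)) s :=
      mellin_const_smul _ _ _
    simp only [smul_eq_mul] at h3
    rw [h3, hm, om_mellin hz hs hs2]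
    congr 1
    rw [smul_eq_mul]
    congr 1
    push_cast
    rw [sq]
    have e : (h:ℂ) = ((h:ℝ):ℂ) := by push_cast; rfl
    rw [e, Complex.mul_cpow_ofReal_nonneg hh0.le hh0.le, ← Complex.cpow_add _ _ (by exact_mod_cast hh0.ne')]
    congr 1
    ring
  have h2 : ∀ S : Finset ℕ, (∀ h ∈ S, HasMellin (fun x => (amol X h : ℂ) * om z ((h:ℝ) ^ 2 * x)) s
      ((amol X h : ℂ) * ((h:ℂ) ^ (-(2 * s)) * (2 * z ^ (-s) * completedRiemannZeta (2 * s))))) →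
      HasMellin (fun x => ∑ h ∈ S, (amol X h : ℂ) * om z ((h:ℝ) ^ 2 * x)) s
      (∑ h ∈ S, (amol X h : ℂ) * ((h:ℂ) ^ (-(2 * s)) * (2 * z ^ (-s) * completedRiemannZeta (2 * s)))) := by
    intro S
    induction S using Finset.induction_on with
    | empty =>
      intro _
      simp only [sum_empty]
      refine ⟨?_, ?_⟩
      · unfold MellinConvergent; simp
      · unfold mellin; simp
    | insert a S ha ih =>
      intro hS
      simp only [sum_insert ha]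
      have i1 := hS a (mem_insert_self _ _)
      have i2 := ih (fun h hh => hS h (mem_insert_of_mem hh))
      have := hasMellin_add i1.1 i2.1
      rw [i1.2, i2.2] at this
      exact this
  have h3 := h2 _ h1
  have e : Mol X (2 * s) * (2 * z ^ (-s) * completedRiemannZeta (2 * s)) =
      ∑ h ∈ Ioc 0 ⌊X⌋₊, (amol X h : ℂ) * ((h:ℂ) ^ (-(2 * s)) * (2 * z ^ (-s) * completedRiemannZeta (2 * s))) := by
    unfold Mol
    rw [sum_mul]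
    refine sum_congr rfl fun h _ => ?_
    ring
  rw [e]
  exact h3

lemma sum_Ioc_range (f : ℕ → ℂ) (K : ℕ) : ∑ n ∈ Ioc 0 K, f n = ∑ i ∈ range K, f (i + 1) := by
  induction K with
  | zero => simp
  | succ K ih => rw [Finset.sum_Ioc_succ_top (by omega), ih, sum_range_succ]

lemma tendsto_th {z : ℂ} (hz : 0 < z.re) {x : ℝ} (hx : 0 < x) :
    Tendsto (fun K : ℕ => ∑ n ∈ Ioc 0 K, cexp (-(Real.pi * (n:ℂ) ^ 2 * x * z))) atTop (𝓝 ((th z x - 1) / 2)) := by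
  have := (hasSum_th hz hx).tendsto_sum_nat
  refine this.congr fun K => ?_
  rw [sum_Ioc_range]
  refine sum_congr rfl fun i _ => ?_
  push_cast
  rfl

lemma sum_Ioc_dvd (f : ℕ → ℂ) {h : ℕ} (hh : 0 < h) (K : ℕ) :
    ∑ N ∈ (Ioc 0 K).filter (fun N => h ∣ N), f N = ∑ n ∈ Ioc 0 (K / h), f (h * n) := by
  symm
  apply Finset.sum_bij (fun n _ => h * n)
  · intro n hn
    rw [mem_Ioc] at hn
    rw [mem_filter, mem_Ioc]
    refine ⟨⟨Nat.mul_pos hh hn.1, ?_⟩, dvd_mul_right _ _⟩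
    calc h * n ≤ h * (K / h) := Nat.mul_le_mul_left _ hn.2
      _ ≤ K := Nat.mul_div_le _ _
  · intro a _ b _ hab
    exact Nat.eq_of_mul_eq_mul_left hh hab
  · intro N hN
    rw [mem_filter, mem_Ioc] at hN
    obtain ⟨⟨h1, h2⟩, m, rfl⟩ := hN
    refine ⟨m, ?_, rfl⟩
    rw [mem_Ioc]
    refine ⟨Nat.pos_of_ne_zero (by rintro rfl; simp at h1), ?_⟩
    rw [Nat.le_div_iff_mul_le hh]
    linarith [mul_comm h m]
  · intro n _; rfl

/-- the truncated sums of the first half converge -/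
lemma tendsto_half1 {z : ℂ} (hz : 0 < z.re) (X : ℝ) {x : ℝ} (hx : 0 < x) :
    Tendsto (fun K : ℕ => ∑ N ∈ Ioc 0 K, (bmol X N : ℂ) * cexp (-(Real.pi * (((N:ℝ)) : ℂ) ^ 2 * x * z))) atTop
      (𝓝 (∑ h ∈ Ioc 0 ⌊X⌋₊, (amol X h : ℂ) * ((th z ((h:ℝ) ^ 2 * x) - 1) / 2))) := by
  have e1 : ∀ K : ℕ, ∑ N ∈ Ioc 0 K, (bmol X N : ℂ) * cexp (-(Real.pi * (((N:ℝ)) : ℂ) ^ 2 * x * z)) =
      ∑ h ∈ Ioc 0 ⌊X⌋₊, (amol X h : ℂ) * ∑ n ∈ Ioc 0 (K / h), cexp (-(Real.pi * (n:ℂ) ^ 2 * (((h:ℝ) ^ 2 * x : ℝ) : ℂ) * z)) := by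
    intro K
    have e2 : ∀ N ∈ Ioc 0 K, (bmol X N : ℂ) * cexp (-(Real.pi * (((N:ℝ)) : ℂ) ^ 2 * x * z)) =
        ∑ h ∈ Ioc 0 ⌊X⌋₊, (if h ∣ N then (amol X h : ℂ) * cexp (-(Real.pi * (((N:ℝ)) : ℂ) ^ 2 * x * z)) else 0) := by
      intro N _
      unfold bmol
      rw [sum_filter]
      push_cast
      rw [sum_mul]
      refine sum_congr rfl fun h _ => ?_
      split_ifs <;> simp
    rw [sum_congr rfl e2, sum_comm]
    refine sum_congr rfl fun h hh => ?_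
    rw [mem_Ioc] at hh
    rw [← sum_filter, sum_Ioc_dvd _ hh.1, mul_sum]
    refine sum_congr rfl fun n _ => ?_
    congr 2
    push_cast
    ring
  simp_rw [e1]
  apply tendsto_finsetSum
  intro h hh
  rw [mem_Ioc] at hh
  have hh0 : (0:ℝ) < h := by exact_mod_cast hh.1
  apply Tendsto.const_mul
  exact (tendsto_th hz (x := (h:ℝ) ^ 2 * x) (by positivity)).comp (Nat.tendsto_div_const_atTop hh.1.ne')

/-- the truncated sums of the second half converge -/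
lemma tendsto_half2 {z : ℂ} (hz : 0 < z.re) (X : ℝ) {y : ℝ} (hy : 0 < y) :
    Tendsto (fun K : ℕ => ∑ i ∈ Iq ⌊X⌋₊ K, (yq X 0 i.1 : ℂ) * cexp (-(Real.pi * (((i.2:ℝ) / i.1 : ℝ) : ℂ) ^ 2 * y * z))) atTop
      (𝓝 (∑ h ∈ Ioc 0 ⌊X⌋₊, ((amol X h * ew 0 h : ℝ) : ℂ) * ((th z (y / (h:ℝ) ^ 2) - 1) / 2))) := by
  have e1 : ∀ K : ℕ, ∑ i ∈ Iq ⌊X⌋₊ K, (yq X 0 i.1 : ℂ) * cexp (-(Real.pi * (((i.2:ℝ) / i.1 : ℝ) : ℂ) ^ 2 * y * z)) =
      ∑ h ∈ Ioc 0 ⌊X⌋₊, ((amol X h * ew 0 h : ℝ) : ℂ) * ∑ n ∈ Ioc 0 (K * h), cexp (-(Real.pi * (n:ℂ) ^ 2 * ((y / (h:ℝ) ^ 2 : ℝ) : ℂ) * z)) := by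
    intro K
    have h1 := regroup (fun h => ((amol X h * ew 0 h : ℝ) : ℂ)) (fun r => cexp (-(Real.pi * (r : ℂ) ^ 2 * y * z))) ⌊X⌋₊ K
    have e3 : ∀ i ∈ Iq ⌊X⌋₊ K, (yq X 0 i.1 : ℂ) * cexp (-(Real.pi * (((i.2:ℝ) / i.1 : ℝ) : ℂ) ^ 2 * y * z)) =
        (∑ h ∈ (Ioc 0 ⌊X⌋₊).filter (fun h => i.1 ∣ h), ((amol X h * ew 0 h : ℝ) : ℂ)) * cexp (-(Real.pi * (((i.2:ℝ) / i.1 : ℝ) : ℂ) ^ 2 * y * z)) := by
      intro i _
      unfold yq
      push_cast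
      rfl
    rw [sum_congr rfl e3, ← h1]
    refine sum_congr rfl fun h hh => ?_
    rw [mem_Ioc] at hh
    have hh0 : (h:ℂ) ≠ 0 := by exact_mod_cast hh.1.ne'
    congr 1
    refine sum_congr rfl fun n _ => ?_
    congr 2
    push_cast
    field_simp
  simp_rw [e1]
  apply tendsto_finsetSum
  intro h hh
  rw [mem_Ioc] at hh
  have hh0 : (0:ℝ) < h := by exact_mod_cast hh.1
  apply Tendsto.const_mul
  exact (tendsto_th hz (x := y / (h:ℝ) ^ 2) (by positivity)).comp (tendsto_id.atTop_mul_const' hh.1)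

/-- Fatou -/
lemma fatou_L2 (f : ℕ → ℝ → ℂ) (g : ℝ → ℂ) (B : ℝ)
    (hi : ∀ K, IntegrableOn (fun x : ℝ => x ^ (-(1/2) : ℝ) * ‖f K x‖ ^ 2) (Set.Ioi 1))
    (hb : ∀ K, ∫ x in Set.Ioi (1:ℝ), x ^ (-(1/2) : ℝ) * ‖f K x‖ ^ 2 ≤ B)
    (ht : ∀ x : ℝ, 1 < x → Tendsto (fun K => f K x) atTop (𝓝 (g x))) :
    ∫⁻ x in Set.Ioi (1:ℝ), ENNReal.ofReal (x ^ (-(1/2) : ℝ) * ‖g x‖ ^ 2) ≤ ENNReal.ofReal B := by
  have h1 : ∀ K, ∫⁻ x in Set.Ioi (1:ℝ), ENNReal.ofReal (x ^ (-(1/2) : ℝ) * ‖f K x‖ ^ 2) ≤ ENNReal.ofReal B := by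
    intro K
    rw [← ofReal_integral_eq_lintegral_ofReal (hi K)]
    · exact ENNReal.ofReal_le_ofReal (hb K)
    · filter_upwards [ae_restrict_mem measurableSet_Ioi] with x hx
      have hx1 : (1:ℝ) < x := hx
      have hp : 0 ≤ x ^ (-(1/2) : ℝ) := Real.rpow_nonneg (by linarith) _
      simp only [Pi.zero_apply]
      positivity
  calc ∫⁻ x in Set.Ioi (1:ℝ), ENNReal.ofReal (x ^ (-(1/2) : ℝ) * ‖g x‖ ^ 2)
      = ∫⁻ x in Set.Ioi (1:ℝ), liminf (fun K => ENNReal.ofReal (x ^ (-(1/2) : ℝ) * ‖f K x‖ ^ 2)) atTop := by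
        refine setLIntegral_congr_fun measurableSet_Ioi fun x hx => ?_
        have h2 : Tendsto (fun K => ENNReal.ofReal (x ^ (-(1/2) : ℝ) * ‖f K x‖ ^ 2)) atTop
            (𝓝 (ENNReal.ofReal (x ^ (-(1/2) : ℝ) * ‖g x‖ ^ 2))) := by
          apply ENNReal.tendsto_ofReal
          exact (((ht x hx).norm).pow 2).const_mul _
        exact h2.liminf_eq.symm
    _ ≤ liminf (fun K => ∫⁻ x in Set.Ioi (1:ℝ), ENNReal.ofReal (x ^ (-(1/2) : ℝ) * ‖f K x‖ ^ 2)) atTop :=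
        lintegral_liminf_le' fun K => (hi K).aestronglyMeasurable.aemeasurable.ennreal_ofReal
    _ ≤ ENNReal.ofReal B := by
        refine (liminf_le_liminf (Eventually.of_forall h1)).trans ?_
        simp

end Pool.Agent.Helper57.LH
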