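import Mathlib

open MeasureTheory Real

namespace Pool.Agent.Helper57.LH

/-- Fourier transform in the convention `∫ e^{iτu} f(u) du`. -/
noncomputable def FT (f : ℝ → ℂ) (τ : ℝ) : ℂ := ∫ u : ℝ, Complex.exp (Complex.I * τ * u) * f u

lemma norm_exp_I_mul (τ u : ℝ) : ‖Complex.exp (Complex.I * τ * u)‖ = 1 := by
  rw [show Complex.I * τ * u = ((τ * u : ℝ) : ℂ) * Complex.I by push_cast; ring]
  exact Complex.norm_exp_ofReal_mul_I _

lemma integrable_FT {f : ℝ → ℂ} (hf : Integrable f) (τ : ℝ) :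
    Integrable (fun u : ℝ => Complex.exp (Complex.I * τ * u) * f u) := by
  refine hf.mono ?_ ?_
  · exact (Continuous.aestronglyMeasurable (by fun_prop)).mul hf.aestronglyMeasurable
  · refine Filter.Eventually.of_forall fun u => ?_
    rw [norm_mul, norm_exp_I_mul, one_mul]

lemma norm_FT_le {f : ℝ → ℂ} (τ : ℝ) : ‖FT f τ‖ ≤ ∫ u, ‖f u‖ := by
  unfold FT
  refine (norm_integral_le_integral_norm _).trans (le_of_eq ?_)
  refine integral_congr_ae (Filter.Eventually.of_forall fun u => ?_)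
  simp only
  rw [norm_mul, norm_exp_I_mul, one_mul]

lemma continuous_FT {f : ℝ → ℂ} (hf : Integrable f) : Continuous (FT f) := by
  unfold FT
  apply continuous_of_dominated (bound := fun u => ‖f u‖)
  · intro τ; exact (integrable_FT hf τ).aestronglyMeasurable
  · intro τ
    refine Filter.Eventually.of_forall fun u => ?_
    rw [norm_mul, norm_exp_I_mul, one_mul]
  · exact hf.norm
  · refine Filter.Eventually.of_forall fun u => ?_
    fun_prop

lemma gauss_FT {ε : ℝ} (hε : 0 < ε) (x : ℝ) :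
    ∫ τ : ℝ, Complex.exp (Complex.I * x * τ) * Complex.exp (-(ε:ℂ) * τ ^ 2)
      = ((√(π / ε) * Real.exp (-x ^ 2 / (4 * ε)) : ℝ) : ℂ) := by
  rw [fourierIntegral_gaussian (b := (ε:ℂ)) (by simpa using hε)]
  push_cast
  congr 1
  · rw [Real.sqrt_eq_rpow, Complex.ofReal_cpow (by positivity)]
    push_cast
    norm_num

/-- Gaussian-regularised Plancherel inequality -/
lemma planch_gauss {f : ℝ → ℂ} (hf : Integrable f) (hf2 : Integrable (fun u => ‖f u‖ ^ 2))
    {ε : ℝ} (hε : 0 < ε) :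
    ∫ τ : ℝ, Real.exp (-ε * τ ^ 2) * ‖FT f τ‖ ^ 2 ≤ 2 * π * ∫ u, ‖f u‖ ^ 2 := by
  -- integrand as a double integral
  have hgauss : Integrable (fun τ : ℝ => Real.exp (-ε * τ ^ 2)) := integrable_exp_neg_mul_sq hε
  set g : ℝ × ℝ → ℂ := fun p => f p.1 * (starRingEnd ℂ) (f p.2) with hg
  have hconj : Integrable (fun v => (starRingEnd ℂ) (f v)) := by
    refine hf.mono (Complex.continuous_conj.comp_aestronglyMeasurable hf.aestronglyMeasurable) ?_
    exact Filter.Eventually.of_forall fun v => by simp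
  have hgint : Integrable g (volume.prod volume) := hf.mul_prod hconj
  have h1 : ∀ τ : ℝ, ((‖FT f τ‖ ^ 2 : ℝ) : ℂ) = ∫ p : ℝ × ℝ, Complex.exp (Complex.I * ((p.1 - p.2 : ℝ) : ℂ) * τ) * g p := by
    intro τ
    have : ((‖FT f τ‖ ^ 2 : ℝ) : ℂ) = FT f τ * (starRingEnd ℂ) (FT f τ) := by
      rw [Complex.mul_conj, Complex.normSq_eq_norm_sq]
    rw [this]
    unfold FT
    rw [← integral_conj, ← integral_prod_mul]
    refine integral_congr_ae (Filter.Eventually.of_forall fun p => ?_)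
    simp only [hg, map_mul]
    rw [← Complex.exp_conj]
    simp only [map_mul, Complex.conj_I, Complex.conj_ofReal]
    have e : Complex.exp (Complex.I * ((p.1 - p.2 : ℝ) : ℂ) * τ)
        = Complex.exp (Complex.I * τ * p.1) * Complex.exp (-Complex.I * τ * p.2) := by
      rw [← Complex.exp_add]
      congr 1
      push_cast
      ring
    rw [e]
    ring
  have h2 : ((∫ τ : ℝ, Real.exp (-ε * τ ^ 2) * ‖FT f τ‖ ^ 2 : ℝ) : ℂ)
      = ∫ p : ℝ × ℝ, g p * ((√(π / ε) * Real.exp (-(p.1 - p.2) ^ 2 / (4 * ε)) : ℝ) : ℂ) := by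
    rw [← integral_complex_ofReal]
    have e1 : ∀ τ : ℝ, ((Real.exp (-ε * τ ^ 2) * ‖FT f τ‖ ^ 2 : ℝ) : ℂ)
        = ∫ p : ℝ × ℝ, Complex.exp (-(ε:ℂ) * τ ^ 2) * (Complex.exp (Complex.I * ((p.1 - p.2 : ℝ) : ℂ) * τ) * g p) := by
      intro τ
      rw [integral_const_mul, ← h1 τ]
      push_cast
      ring
    rw [integral_congr_ae (Filter.Eventually.of_forall e1)]
    rw [integral_integral_swap]
    · refine integral_congr_ae (Filter.Eventually.of_forall fun p => ?_)
      simp only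
      rw [← gauss_FT hε (p.1 - p.2), ← integral_const_mul]
      refine integral_congr_ae (Filter.Eventually.of_forall fun τ => ?_)
      simp only
      ring
    · have hh : Integrable (fun q : ℝ × (ℝ × ℝ) => ((Real.exp (-ε * q.1 ^ 2) : ℝ) : ℂ) * g q.2)
        (volume.prod (volume.prod volume)) := (hgauss.ofReal (𝕜 := ℂ)).mul_prod hgint
      refine hh.mono ?_ ?_
      · have : (Function.uncurry fun (τ : ℝ) (p : ℝ × ℝ) =>
            Complex.exp (-(ε:ℂ) * τ ^ 2) * (Complex.exp (Complex.I * ((p.1 - p.2 : ℝ) : ℂ) * τ) * g p))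
            = fun q : ℝ × (ℝ × ℝ) => Complex.exp (Complex.I * ((q.2.1 - q.2.2 : ℝ) : ℂ) * q.1) *
              (((Real.exp (-ε * q.1 ^ 2) : ℝ) : ℂ) * g q.2) := by
          funext q
          simp only [Function.uncurry]
          push_cast
          ring
        rw [this]
        exact (Continuous.aestronglyMeasurable (by fun_prop)).mul hh.aestronglyMeasurable
      · refine Filter.Eventually.of_forall fun q => ?_
        simp only [Function.uncurry, norm_mul]
        have e2 : ‖Complex.exp (Complex.I * ((q.2.1 - q.2.2 : ℝ) : ℂ) * q.1)‖ = 1 := norm_exp_I_mul _ _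
        rw [e2, one_mul]
        apply le_of_eq
        congr 2
        push_cast
        rfl
  -- bound the norm
  have h3 : ∫ τ : ℝ, Real.exp (-ε * τ ^ 2) * ‖FT f τ‖ ^ 2
      ≤ ‖∫ p : ℝ × ℝ, g p * ((√(π / ε) * Real.exp (-(p.1 - p.2) ^ 2 / (4 * ε)) : ℝ) : ℂ)‖ := by
    rw [← h2, Complex.norm_real]
    exact le_abs_self _
  refine h3.trans ?_
  set G : ℝ → ℝ := fun x => √(π / ε) * Real.exp (-x ^ 2 / (4 * ε)) with hG
  have hG0 : ∀ x, 0 ≤ G x := fun x => by positivity
  have hGint : Integrable G := by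
    have := (integrable_exp_neg_mul_sq (b := 1 / (4 * ε)) (by positivity)).const_mul (√(π / ε))
    refine this.congr (Filter.Eventually.of_forall fun x => ?_)
    simp only [hG]
    congr 2
    ring
  have hGval : ∫ x, G x = 2 * π := by
    simp only [hG]
    rw [integral_const_mul]
    have e : (fun x : ℝ => Real.exp (-x ^ 2 / (4 * ε))) = fun x => Real.exp (-(1 / (4 * ε)) * x ^ 2) := by
      funext x; congr 1; ring
    rw [e, integral_gaussian, ← Real.sqrt_mul (by positivity)]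
    have : π / ε * (π / (1 / (4 * ε))) = (2 * π) ^ 2 := by field_simp; ring
    rw [this, Real.sqrt_sq (by positivity)]
  have hGsymm : ∀ x, G (-x) = G x := fun x => by simp [hG]
  have hprod : Integrable (fun p : ℝ × ℝ => ‖f p.1‖ ^ 2 * G p.2) (volume.prod volume) := hf2.mul_prod hGint
  have hval : ∫ p : ℝ × ℝ, ‖f p.1‖ ^ 2 * G p.2 = (∫ u, ‖f u‖ ^ 2) * (2 * π) := by
    rw [← hGval]
    exact integral_prod_mul (μ := volume) (ν := volume) (fun u => ‖f u‖ ^ 2) G
  have m1 : MeasurePreserving (fun z : ℝ × ℝ => (z.1, z.2 - z.1)) (volume.prod volume) (volume.prod volume) :=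
    measurePreserving_prod_sub volume volume
  have m2 : MeasurePreserving (fun z : ℝ × ℝ => (z.2, z.1 - z.2)) (volume.prod volume) (volume.prod volume) :=
    measurePreserving_prod_sub_swap volume volume
  have i1 : Integrable (fun p : ℝ × ℝ => ‖f p.1‖ ^ 2 * G (p.1 - p.2)) (volume.prod volume) := by
    refine (m1.integrable_comp_of_integrable hprod).congr (Filter.Eventually.of_forall fun p => ?_)
    simp only [Function.comp]
    rw [← hGsymm (p.1 - p.2), neg_sub]
  have i2 : Integrable (fun p : ℝ × ℝ => ‖f p.2‖ ^ 2 * G (p.1 - p.2)) (volume.prod volume) := by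
    exact m2.integrable_comp_of_integrable hprod
  have v1 : ∫ p : ℝ × ℝ, ‖f p.1‖ ^ 2 * G (p.1 - p.2) = (∫ u, ‖f u‖ ^ 2) * (2 * π) := by
    rw [← hval]
    have := integral_map (μ := volume.prod volume) m1.measurable.aemeasurable
      (f := fun p : ℝ × ℝ => ‖f p.1‖ ^ 2 * G p.2) (by rw [m1.map_eq]; exact hprod.aestronglyMeasurable)
    rw [m1.map_eq] at this
    refine Eq.trans ?_ this.symm
    refine integral_congr_ae (Filter.Eventually.of_forall fun p => ?_)
    simp only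
    rw [← hGsymm (p.1 - p.2), neg_sub]
  have v2 : ∫ p : ℝ × ℝ, ‖f p.2‖ ^ 2 * G (p.1 - p.2) = (∫ u, ‖f u‖ ^ 2) * (2 * π) := by
    rw [← hval]
    have := integral_map (μ := volume.prod volume) m2.measurable.aemeasurable
      (f := fun p : ℝ × ℝ => ‖f p.1‖ ^ 2 * G p.2) (by rw [m2.map_eq]; exact hprod.aestronglyMeasurable)
    rw [m2.map_eq] at this
    exact this.symm
  calc ‖∫ p : ℝ × ℝ, g p * ((√(π / ε) * Real.exp (-(p.1 - p.2) ^ 2 / (4 * ε)) : ℝ) : ℂ)‖
      ≤ ∫ p : ℝ × ℝ, ‖g p * ((√(π / ε) * Real.exp (-(p.1 - p.2) ^ 2 / (4 * ε)) : ℝ) : ℂ)‖ :=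
        norm_integral_le_integral_norm _
    _ ≤ ∫ p : ℝ × ℝ, (1 / 2 * (‖f p.1‖ ^ 2 * G (p.1 - p.2)) + 1 / 2 * (‖f p.2‖ ^ 2 * G (p.1 - p.2))) := by
        apply integral_mono_of_nonneg
        · exact Filter.Eventually.of_forall fun p => norm_nonneg _
        · exact (i1.const_mul _).add (i2.const_mul _)
        · refine Filter.Eventually.of_forall fun p => ?_
          have e4 : ‖g p * ((√(π / ε) * Real.exp (-(p.1 - p.2) ^ 2 / (4 * ε)) : ℝ) : ℂ)‖
              = ‖f p.1‖ * ‖f p.2‖ * G (p.1 - p.2) := by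
            rw [norm_mul, Complex.norm_real, Real.norm_of_nonneg (hG0 (p.1 - p.2))]
            simp only [hg, norm_mul, RCLike.norm_conj]
          show ‖g p * ((√(π / ε) * Real.exp (-(p.1 - p.2) ^ 2 / (4 * ε)) : ℝ) : ℂ)‖ ≤
            1 / 2 * (‖f p.1‖ ^ 2 * G (p.1 - p.2)) + 1 / 2 * (‖f p.2‖ ^ 2 * G (p.1 - p.2))
          rw [e4]
          have h5 := two_mul_le_add_sq ‖f p.1‖ ‖f p.2‖
          have h6 := hG0 (p.1 - p.2)
          nlinarith
    _ = 2 * π * ∫ u, ‖f u‖ ^ 2 := by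
        have v1' : ∫ p : ℝ × ℝ, ‖f p.1‖ ^ 2 * G (p.1 - p.2) ∂(volume.prod volume) = (∫ u, ‖f u‖ ^ 2) * (2 * π) := v1
        have v2' : ∫ p : ℝ × ℝ, ‖f p.2‖ ^ 2 * G (p.1 - p.2) ∂(volume.prod volume) = (∫ u, ‖f u‖ ^ 2) * (2 * π) := v2
        have e5 := integral_add (i1.const_mul (1 / 2)) (i2.const_mul (1 / 2))
        refine Eq.trans e5 ?_
        rw [integral_const_mul, integral_const_mul, v1', v2']
        ring

/-- Plancherel inequality on bounded intervals -/
lemma planch {f : ℝ → ℂ} (hf : Integrable f) (hf2 : Integrable (fun u => ‖f u‖ ^ 2)) {a b : ℝ} (hab : a ≤ b) :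
    ∫ τ in a..b, ‖FT f τ‖ ^ 2 ≤ 2 * π * ∫ u, ‖f u‖ ^ 2 := by
  set M := max (a ^ 2) (b ^ 2) with hM
  have hM0 : 0 ≤ M := le_max_of_le_left (sq_nonneg _)
  have hI : 0 ≤ ∫ u, ‖f u‖ ^ 2 := integral_nonneg fun u => sq_nonneg _
  have hcont : Continuous (fun τ => ‖FT f τ‖ ^ 2) := ((continuous_FT hf).norm).pow 2
  have key : ∀ ε : ℝ, 0 < ε → ∫ τ in a..b, ‖FT f τ‖ ^ 2 ≤ Real.exp (ε * M) * (2 * π * ∫ u, ‖f u‖ ^ 2) := by
    intro ε hε
    have h1 := planch_gauss hf hf2 hε
    have hint : Integrable (fun τ : ℝ => Real.exp (-ε * τ ^ 2) * ‖FT f τ‖ ^ 2) := by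
      refine ((integrable_exp_neg_mul_sq hε).mul_const ((∫ u, ‖f u‖) ^ 2)).mono ?_ ?_
      · exact (Continuous.aestronglyMeasurable (by fun_prop))
      · refine Filter.Eventually.of_forall fun τ => ?_
        rw [norm_mul, norm_mul]
        gcongr
        rw [Real.norm_of_nonneg (sq_nonneg _), Real.norm_of_nonneg (sq_nonneg _)]
        gcongr
        exact norm_FT_le τ
    have h2 : ∫ τ in a..b, Real.exp (-ε * τ ^ 2) * ‖FT f τ‖ ^ 2 ≤ 2 * π * ∫ u, ‖f u‖ ^ 2 := by
      rw [intervalIntegral.integral_of_le hab]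
      refine le_trans (setIntegral_le_integral hint (Filter.Eventually.of_forall fun τ => ?_)) h1
      positivity
    have h3 : ∫ τ in a..b, ‖FT f τ‖ ^ 2 ≤ ∫ τ in a..b, Real.exp (ε * M) * (Real.exp (-ε * τ ^ 2) * ‖FT f τ‖ ^ 2) := by
      apply intervalIntegral.integral_mono_on hab (hcont.intervalIntegrable _ _)
      · apply Continuous.intervalIntegrable
        have := continuous_FT hf
        fun_prop
      · intro τ hτ
        have h4 : τ ^ 2 ≤ M := by
          rcases le_or_gt 0 τ with h | h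
          · exact le_max_of_le_right (by nlinarith [hτ.2])
          · exact le_max_of_le_left (by nlinarith [hτ.1])
        have h5 : 1 ≤ Real.exp (ε * M) * Real.exp (-ε * τ ^ 2) := by
          rw [← Real.exp_add]
          apply Real.one_le_exp
          nlinarith
        calc ‖FT f τ‖ ^ 2 = 1 * ‖FT f τ‖ ^ 2 := (one_mul _).symm
          _ ≤ (Real.exp (ε * M) * Real.exp (-ε * τ ^ 2)) * ‖FT f τ‖ ^ 2 := by gcongr
          _ = _ := by ring
    rw [intervalIntegral.integral_const_mul] at h3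
    refine h3.trans ?_
    gcongr
  have hlim : Filter.Tendsto (fun ε : ℝ => Real.exp (ε * M) * (2 * π * ∫ u, ‖f u‖ ^ 2)) (nhdsWithin 0 (Set.Ioi 0))
      (nhds (2 * π * ∫ u, ‖f u‖ ^ 2)) := by
    have : Filter.Tendsto (fun ε : ℝ => Real.exp (ε * M) * (2 * π * ∫ u, ‖f u‖ ^ 2)) (nhds 0)
      (nhds (Real.exp (0 * M) * (2 * π * ∫ u, ‖f u‖ ^ 2))) := by
      apply Continuous.tendsto; fun_prop
    simp only [zero_mul, Real.exp_zero, one_mul] at this
    exact this.mono_left nhdsWithin_le_nhds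
  exact ge_of_tendsto hlim (by filter_upwards [self_mem_nhdsWithin] with ε hε using key ε hε)

end Pool.Agent.Helper57.LH
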