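import Mathlib
import Pool.Agent.Helper57.LH.Omega
import Pool.Agent.Helper57.LH.Planch

namespace Pool.Agent.Helper57.LH

open Complex MeasureTheory Filter Topology Finset

/-- the total constant -/
noncomputable def CT : ℝ := 1000 * Real.exp 1 * CQ

lemma rpow_half_mul {x : ℝ} (hx : 0 < x) (h : ℕ) (hh : 0 < h) :
    (((h:ℝ) ^ 2 * x) ^ (-(1/2) : ℝ)) = 1 / h * x ^ (-(1/2) : ℝ) := by
  have hh0 : (0:ℝ) < h := by exact_mod_cast hh
  rw [Real.mul_rpow (by positivity) hx.le, ← Real.rpow_natCast, ← Real.rpow_mul hh0.le]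
  norm_num
  left
  rw [Real.rpow_neg_one]

lemma Om_large {z : ℂ} (X : ℝ) {x : ℝ} (hx : 0 < x) :
    Om X z x = 2 * ∑ h ∈ Ioc 0 ⌊X⌋₊, (amol X h : ℂ) * ((th z ((h:ℝ) ^ 2 * x) - 1) / 2)
      - z ^ (-(1/2) : ℂ) * ((x ^ (-(1/2) : ℝ) : ℝ) : ℂ) * ((yq X 0 1 : ℝ) : ℂ) := by
  unfold Om yq om
  rw [mul_sum]
  have e : (Ioc 0 ⌊X⌋₊).filter (fun h => 1 ∣ h) = Ioc 0 ⌊X⌋₊ := by
    apply filter_true_of_mem; intros; exact one_dvd _
  rw [e]
  push_cast
  rw [mul_sum, ← sum_sub_distrib]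
  refine sum_congr rfl fun h hh => ?_
  rw [mem_Ioc] at hh
  rw [rpow_half_mul hx h hh.1, ew_eq _ hh.1.ne']
  push_cast
  simp only [neg_zero, zero_mul, Complex.exp_zero]
  ring

lemma norm_z_pow {z : ℂ} (hz1 : ‖z‖ = 1) : ‖z ^ (-(1/2) : ℂ)‖ = 1 := by
  have hz0 : z ≠ 0 := by intro h; rw [h] at hz1; simp at hz1
  have e : (-(1/2) : ℂ) = ((-(1/2) : ℝ) : ℂ) := by push_cast; rfl
  rw [e, Complex.norm_cpow_of_ne_zero hz0]
  simp [hz1]

lemma yq_one_le {X : ℝ} (hX : 3 ≤ X) : yq X 0 1 ^ 2 ≤ CQ / Real.log X := by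
  have h := QF_le (X := X) (ε := 0) hX le_rfl (by simp)
  refine le_trans ?_ h
  have h1 : 1 ∈ Ioc 0 ⌊X⌋₊ := by
    rw [mem_Ioc]
    exact ⟨by norm_num, (Nat.one_le_floor_iff X).mpr (by linarith)⟩
  refine le_trans (le_of_eq ?_) (single_le_sum (f := fun q : ℕ => (q:ℝ) * Real.exp (0 * Real.log q) * yq X 0 q ^ 2) (fun q _ => by positivity) h1)
  simp

lemma int_three_half : ∫ x in Set.Ioi (1:ℝ), x ^ (-(3/2) : ℝ) = 2 := by
  rw [integral_Ioi_rpow_of_lt (by norm_num) one_pos]; norm_num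

lemma lint_three_half (c : ℝ) (hc : 0 ≤ c) :
    ∫⁻ x in Set.Ioi (1:ℝ), ENNReal.ofReal (c * x ^ (-(3/2) : ℝ)) = ENNReal.ofReal (c * 2) := by
  have hi : IntegrableOn (fun x : ℝ => c * x ^ (-(3/2) : ℝ)) (Set.Ioi 1) :=
    (integrableOn_Ioi_rpow_of_lt (by norm_num) one_pos).const_mul c
  rw [← ofReal_integral_eq_lintegral_ofReal hi]
  · rw [integral_const_mul, int_three_half]
  · filter_upwards [ae_restrict_mem measurableSet_Ioi] with x hx
    have hx1 : (1:ℝ) < x := hx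
    have hp : 0 ≤ x ^ (-(3/2) : ℝ) := Real.rpow_nonneg (by linarith) _
    simp only [Pi.zero_apply]
    positivity

lemma norm_sub_sq_le (a b : ℂ) : ‖a - b‖ ^ 2 ≤ 2 * ‖a‖ ^ 2 + 2 * ‖b‖ ^ 2 := by
  have := norm_sub_le a b
  have h1 : ‖a - b‖ ^ 2 ≤ (‖a‖ + ‖b‖) ^ 2 := by gcongr
  nlinarith [sq_nonneg (‖a‖ - ‖b‖)]

theorem bound_large {X : ℝ} {z : ℂ} (hX : 3 ≤ X) (hz : 0 < z.re) (hz1 : ‖z‖ = 1) (hzi : 1 / 2 ≤ |z.im|)
    (hXs : 20 * Real.log X ≤ Real.log (1 / z.re)) :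
    ∫⁻ x in Set.Ioi (1:ℝ), ENNReal.ofReal (x ^ (-(1/2) : ℝ) * ‖Om X z x‖ ^ 2)
      ≤ ENNReal.ofReal (300 * Real.exp 1 * CQ * Real.log (1 / z.re) / (Real.sqrt z.re * Real.log X)) := by
  have hlX : 1 ≤ Real.log X := by
    rw [Real.le_log_iff_exp_le (by linarith)]
    have := Real.exp_one_lt_d9
    linarith
  set L := Real.log (1 / z.re) with hL
  have hsq : 0 < Real.sqrt z.re := Real.sqrt_pos.mpr hz
  have hre1 : z.re ≤ 1 := by
    have := Complex.re_le_norm z; linarith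
  have hsq1 : Real.sqrt z.re ≤ 1 := Real.sqrt_le_one.mpr hre1
  have hCQ := CQ_pos
  set B := 34 * Real.exp 1 * CQ * L / (Real.sqrt z.re * Real.log X) with hB
  have hB0 : 0 ≤ B := by
    have : 0 ≤ L := by linarith
    positivity
  have hf := fatou_L2 _ _ B
    (fun K => (half1_fin hX hz hzi (by linarith) (by linarith) K).1)
    (fun K => (half1_fin hX hz hzi (by linarith) (by linarith) K).2)
    (fun x hx => tendsto_half1 hz X (by linarith))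
  set S : ℝ → ℂ := fun x => ∑ h ∈ Ioc 0 ⌊X⌋₊, (amol X h : ℂ) * ((th z ((h:ℝ) ^ 2 * x) - 1) / 2) with hS
  have hY := yq_one_le hX
  set Y := yq X 0 1 with hYdef
  have hpt : ∀ x ∈ Set.Ioi (1:ℝ), ENNReal.ofReal (x ^ (-(1/2) : ℝ) * ‖Om X z x‖ ^ 2) ≤
      8 * ENNReal.ofReal (x ^ (-(1/2) : ℝ) * ‖S x‖ ^ 2) + ENNReal.ofReal ((2 * Y ^ 2) * x ^ (-(3/2) : ℝ)) := by
    intro x hx
    have hx1 : (1:ℝ) < x := hx
    have hx0 : 0 < x := by linarith
    have hp : 0 ≤ x ^ (-(1/2) : ℝ) := Real.rpow_nonneg (by linarith) _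
    have hp3 : 0 ≤ x ^ (-(3/2) : ℝ) := Real.rpow_nonneg (by linarith) _
    have h8 : (8 : ENNReal) = ENNReal.ofReal 8 := by norm_num
    rw [h8, ← ENNReal.ofReal_mul (by norm_num), ← ENNReal.ofReal_add (by positivity) (by positivity)]
    apply ENNReal.ofReal_le_ofReal
    rw [Om_large X hx0]
    have h1 := norm_sub_sq_le (2 * S x) (z ^ (-(1/2) : ℂ) * ((x ^ (-(1/2) : ℝ) : ℝ) : ℂ) * ((Y : ℝ) : ℂ))
    have h2 : ‖z ^ (-(1/2) : ℂ) * ((x ^ (-(1/2) : ℝ) : ℝ) : ℂ) * ((Y : ℝ) : ℂ)‖ ^ 2 = x ^ (-1 : ℝ) * Y ^ 2 := by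
      rw [norm_mul, norm_mul, norm_z_pow hz1, Complex.norm_real, Complex.norm_real, one_mul, mul_pow,
        Real.norm_of_nonneg hp, Real.norm_eq_abs, sq_abs]
      congr 1
      rw [← Real.rpow_natCast, ← Real.rpow_mul hx0.le]
      norm_num
    have h3 : ‖2 * S x‖ ^ 2 = 4 * ‖S x‖ ^ 2 := by
      rw [norm_mul, mul_pow]; norm_num
    rw [h2, h3] at h1
    have h4 : x ^ (-(1/2) : ℝ) * x ^ (-1 : ℝ) = x ^ (-(3/2) : ℝ) := by
      rw [← Real.rpow_add hx0]; norm_num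
    calc x ^ (-(1/2) : ℝ) * ‖2 * S x - z ^ (-(1/2) : ℂ) * ((x ^ (-(1/2) : ℝ) : ℝ) : ℂ) * ((Y : ℝ) : ℂ)‖ ^ 2
        ≤ x ^ (-(1/2) : ℝ) * (2 * (4 * ‖S x‖ ^ 2) + 2 * (x ^ (-1 : ℝ) * Y ^ 2)) := by gcongr
      _ = 8 * (x ^ (-(1/2) : ℝ) * ‖S x‖ ^ 2) + 2 * Y ^ 2 * (x ^ (-(1/2) : ℝ) * x ^ (-1 : ℝ)) := by ring
      _ = _ := by rw [h4]
  calc ∫⁻ x in Set.Ioi (1:ℝ), ENNReal.ofReal (x ^ (-(1/2) : ℝ) * ‖Om X z x‖ ^ 2)
      ≤ ∫⁻ x in Set.Ioi (1:ℝ), (8 * ENNReal.ofReal (x ^ (-(1/2) : ℝ) * ‖S x‖ ^ 2) + ENNReal.ofReal ((2 * Y ^ 2) * x ^ (-(3/2) : ℝ))) :=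
        setLIntegral_mono' measurableSet_Ioi hpt
    _ = 8 * (∫⁻ x in Set.Ioi (1:ℝ), ENNReal.ofReal (x ^ (-(1/2) : ℝ) * ‖S x‖ ^ 2)) + ENNReal.ofReal ((2 * Y ^ 2) * 2) := by
        rw [lintegral_add_right' _ (by
          apply AEMeasurable.ennreal_ofReal
          apply AEMeasurable.const_mul
          apply Measurable.aemeasurable
          fun_prop), lint_three_half _ (by positivity), lintegral_const_mul' _ _ (by norm_num)]
    _ ≤ 8 * ENNReal.ofReal B + ENNReal.ofReal ((2 * Y ^ 2) * 2) := by gcongr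
    _ = ENNReal.ofReal (8 * B + (2 * Y ^ 2) * 2) := by
        have h8 : (8 : ENNReal) = ENNReal.ofReal 8 := by norm_num
        rw [h8, ← ENNReal.ofReal_mul (by norm_num), ← ENNReal.ofReal_add (by positivity) (by positivity)]
    _ ≤ _ := by
        apply ENNReal.ofReal_le_ofReal
        have h5 : CQ / Real.log X ≤ Real.exp 1 * CQ * L / (Real.sqrt z.re * Real.log X) := by
          rw [div_le_div_iff₀ (by linarith) (by positivity)]
          have he : 1 ≤ Real.exp 1 := Real.one_le_exp (by norm_num)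
          have h6 : Real.sqrt z.re ≤ Real.exp 1 * L := by nlinarith
          calc CQ * (Real.sqrt z.re * Real.log X) ≤ CQ * ((Real.exp 1 * L) * Real.log X) := by gcongr
            _ = _ := by ring
        have h7 : 300 * Real.exp 1 * CQ * L / (Real.sqrt z.re * Real.log X) =
            300 * (Real.exp 1 * CQ * L / (Real.sqrt z.re * Real.log X)) := by ring
        have h8 : B = 34 * (Real.exp 1 * CQ * L / (Real.sqrt z.re * Real.log X)) := by rw [hB]; ring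
        rw [h7, h8]
        have h9 : 0 ≤ Real.exp 1 * CQ * L / (Real.sqrt z.re * Real.log X) := by
          have : 0 ≤ L := by linarith
          positivity
        linarith

/-- the value of the mollified remainder at small arguments -/
lemma Om_small {z : ℂ} (hz : 0 < z.re) (X : ℝ) {y : ℝ} (hy : 0 < y) :
    Om X z (1 / y) = 2 * (z ^ (-(1/2) : ℂ) * ((y ^ (1/2 : ℝ) : ℝ) : ℂ)) *
      ∑ h ∈ Ioc 0 ⌊X⌋₊, ((amol X h * ew 0 h : ℝ) : ℂ) * ((th z⁻¹ (y / (h:ℝ) ^ 2) - 1) / 2)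
      - ∑ h ∈ Ioc 0 ⌊X⌋₊, (amol X h : ℂ) := by
  unfold Om om
  rw [mul_sum, ← sum_sub_distrib]
  refine sum_congr rfl fun h hh => ?_
  rw [mem_Ioc] at hh
  have hh0 : (0:ℝ) < h := by exact_mod_cast hh.1
  have e1 : (h:ℝ) ^ 2 * (1 / y) = 1 / (y / (h:ℝ) ^ 2) := by field_simp
  rw [e1, th_inv hz (x := y / (h:ℝ) ^ 2) (by positivity)]
  have e2 : (1 / (y / (h:ℝ) ^ 2)) ^ (-(1/2) : ℝ) = (y / (h:ℝ) ^ 2) ^ (1/2 : ℝ) := by
    rw [one_div, Real.inv_rpow (by positivity), Real.rpow_neg (by positivity), inv_inv]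
  have e3 : (y / (h:ℝ) ^ 2) ^ (1/2 : ℝ) = y ^ (1/2 : ℝ) * (1 / h) := by
    rw [Real.div_rpow hy.le (by positivity), ← Real.rpow_natCast, ← Real.rpow_mul hh0.le]
    norm_num
    ring
  rw [e2, e3, ew_eq _ hh.1.ne']
  push_cast
  simp only [neg_zero, zero_mul, Complex.exp_zero]
  ring

theorem bound_small {X : ℝ} {z : ℂ} (hX : 3 ≤ X) (hz : 0 < z.re) (hz1 : ‖z‖ = 1) (hzi : 1 / 2 ≤ |z.im|)
    (hXs : 20 * Real.log X ≤ Real.log (1 / z.re)) :
    ∫⁻ y in Set.Ioi (1:ℝ), ENNReal.ofReal (y ^ (-(3/2) : ℝ) * ‖Om X z (1 / y)‖ ^ 2)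
      ≤ ENNReal.ofReal (50 * Real.exp 1 * CQ * Real.log (1 / z.re) / (Real.sqrt z.re * Real.log X)) := by
  have hlX : 1 ≤ Real.log X := by
    rw [Real.le_log_iff_exp_le (by linarith)]
    have := Real.exp_one_lt_d9
    linarith
  have hX0 : 0 < X := by linarith
  have hzinv : z⁻¹ = starRingEnd ℂ z := by
    rw [Complex.inv_def, Complex.normSq_eq_norm_sq, hz1]; simp
  have hzi_re : (z⁻¹).re = z.re := by rw [hzinv, Complex.conj_re]
  have hzi_im : |(z⁻¹).im| = |z.im| := by rw [hzinv, Complex.conj_im, abs_neg]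
  set L := Real.log (1 / z.re) with hL
  have hsq : 0 < Real.sqrt z.re := Real.sqrt_pos.mpr hz
  have hre1 : z.re ≤ 1 := by
    have := Complex.re_le_norm z; linarith
  have hsq1 : Real.sqrt z.re ≤ 1 := Real.sqrt_le_one.mpr hre1
  have hCQ := CQ_pos
  set B := 5 * Real.exp 1 * CQ * L / (Real.sqrt z.re * Real.log X) with hB
  have hB0 : 0 ≤ B := by
    have : 0 ≤ L := by linarith
    positivity
  have hz' : 0 < (z⁻¹).re := by rw [hzi_re]; exact hz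
  have hfin := fun K => half2_fin (z := z⁻¹) hX hz' (by rw [hzi_im]; exact hzi) (by rw [hzi_re]; exact hXs) K
  simp only [hzi_re] at hfin
  have hf := fatou_L2 _ _ B
    (fun K => (hfin K).1)
    (fun K => (hfin K).2)
    (fun x hx => tendsto_half2 hz' X (by linarith))
  set S : ℝ → ℂ := fun y => ∑ h ∈ Ioc 0 ⌊X⌋₊, ((amol X h * ew 0 h : ℝ) : ℂ) * ((th z⁻¹ (y / (h:ℝ) ^ 2) - 1) / 2) with hS
  set A : ℂ := ∑ h ∈ Ioc 0 ⌊X⌋₊, (amol X h : ℂ) with hA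
  have hAX : ‖A‖ ≤ X := by
    calc ‖A‖ ≤ ∑ h ∈ Ioc 0 ⌊X⌋₊, ‖(amol X h : ℂ)‖ := norm_sum_le _ _
      _ ≤ ∑ h ∈ Ioc 0 ⌊X⌋₊, (1:ℝ) := by
          refine sum_le_sum fun h _ => ?_
          rw [Complex.norm_real, Real.norm_eq_abs]
          exact abs_amol_le (by linarith) h
      _ = ⌊X⌋₊ := by simp
      _ ≤ X := Nat.floor_le hX0.le
  have hpt : ∀ y ∈ Set.Ioi (1:ℝ), ENNReal.ofReal (y ^ (-(3/2) : ℝ) * ‖Om X z (1 / y)‖ ^ 2) ≤
      8 * ENNReal.ofReal (y ^ (-(1/2) : ℝ) * ‖S y‖ ^ 2) + ENNReal.ofReal ((2 * X ^ 2) * y ^ (-(3/2) : ℝ)) := by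
    intro y hy
    have hy1 : (1:ℝ) < y := hy
    have hy0 : 0 < y := by linarith
    have hp : 0 ≤ y ^ (-(1/2) : ℝ) := Real.rpow_nonneg (by linarith) _
    have hp3 : 0 ≤ y ^ (-(3/2) : ℝ) := Real.rpow_nonneg (by linarith) _
    have h8 : (8 : ENNReal) = ENNReal.ofReal 8 := by norm_num
    rw [h8, ← ENNReal.ofReal_mul (by norm_num), ← ENNReal.ofReal_add (by positivity) (by positivity)]
    apply ENNReal.ofReal_le_ofReal
    rw [Om_small hz X hy0]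
    have h1 := norm_sub_sq_le (2 * (z ^ (-(1/2) : ℂ) * ((y ^ (1/2 : ℝ) : ℝ) : ℂ)) * S y) A
    have h2 : ‖2 * (z ^ (-(1/2) : ℂ) * ((y ^ (1/2 : ℝ) : ℝ) : ℂ)) * S y‖ ^ 2 = 4 * (y * ‖S y‖ ^ 2) := by
      rw [norm_mul, norm_mul, norm_mul, norm_z_pow hz1, Complex.norm_real, one_mul, mul_pow, mul_pow,
        Real.norm_of_nonneg (Real.rpow_nonneg hy0.le _)]
      have : (y ^ (1/2 : ℝ)) ^ 2 = y := by
        rw [← Real.rpow_natCast, ← Real.rpow_mul hy0.le]; norm_num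
      rw [this]
      norm_num
      ring
    rw [h2] at h1
    have h4 : y ^ (-(3/2) : ℝ) * y = y ^ (-(1/2) : ℝ) := by
      nth_rewrite 2 [← Real.rpow_one y]
      rw [← Real.rpow_add hy0]; norm_num
    have h5 : ‖A‖ ^ 2 ≤ X ^ 2 := by gcongr
    calc y ^ (-(3/2) : ℝ) * ‖2 * (z ^ (-(1/2) : ℂ) * ((y ^ (1/2 : ℝ) : ℝ) : ℂ)) * S y - A‖ ^ 2
        ≤ y ^ (-(3/2) : ℝ) * (2 * (4 * (y * ‖S y‖ ^ 2)) + 2 * X ^ 2) := by
          gcongr
          linarith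
      _ = 8 * ((y ^ (-(3/2) : ℝ) * y) * ‖S y‖ ^ 2) + 2 * X ^ 2 * y ^ (-(3/2) : ℝ) := by ring
      _ = _ := by rw [h4]
  calc ∫⁻ y in Set.Ioi (1:ℝ), ENNReal.ofReal (y ^ (-(3/2) : ℝ) * ‖Om X z (1 / y)‖ ^ 2)
      ≤ ∫⁻ y in Set.Ioi (1:ℝ), (8 * ENNReal.ofReal (y ^ (-(1/2) : ℝ) * ‖S y‖ ^ 2) + ENNReal.ofReal ((2 * X ^ 2) * y ^ (-(3/2) : ℝ))) :=
        setLIntegral_mono' measurableSet_Ioi hpt
    _ = 8 * (∫⁻ x in Set.Ioi (1:ℝ), ENNReal.ofReal (x ^ (-(1/2) : ℝ) * ‖S x‖ ^ 2)) + ENNReal.ofReal ((2 * X ^ 2) * 2) := by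
        rw [lintegral_add_right' _ (by
          apply AEMeasurable.ennreal_ofReal
          apply AEMeasurable.const_mul
          apply Measurable.aemeasurable
          fun_prop), lint_three_half _ (by positivity), lintegral_const_mul' _ _ (by norm_num)]
    _ ≤ 8 * ENNReal.ofReal B + ENNReal.ofReal ((2 * X ^ 2) * 2) := by gcongr
    _ = ENNReal.ofReal (8 * B + (2 * X ^ 2) * 2) := by
        have h8 : (8 : ENNReal) = ENNReal.ofReal 8 := by norm_num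
        rw [h8, ← ENNReal.ofReal_mul (by norm_num), ← ENNReal.ofReal_add (by positivity) (by positivity)]
    _ ≤ _ := by
        apply ENNReal.ofReal_le_ofReal
        have h5 : X ^ 2 ≤ Real.exp 1 * CQ * L / (Real.sqrt z.re * Real.log X) := by
          have hX2 : X ^ 2 ≤ 1 / Real.sqrt z.re := by
            have e1 : X ^ 2 = Real.exp (2 * Real.log X) := by
              rw [show (2:ℝ) * Real.log X = ((2:ℕ):ℝ) * Real.log X by norm_num, Real.exp_nat_mul, Real.exp_log hX0]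
            have e2 : 1 / Real.sqrt z.re = Real.exp (1 / 2 * L) := by
              rw [hL, one_div z.re, Real.log_inv]
              rw [show 1 / 2 * -Real.log z.re = -Real.log (Real.sqrt z.re) by rw [Real.log_sqrt hz.le]; ring, Real.exp_neg,
                Real.exp_log hsq, one_div]
            rw [e1, e2]
            apply Real.exp_le_exp.mpr
            linarith
          have he : 1 ≤ Real.exp 1 := Real.one_le_exp (by norm_num)
          have hC1 : 1 ≤ CQ := by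
            unfold CQ
            have h6 : (1:ℝ) ≤ Real.exp 6 := Real.one_le_exp (by norm_num)
            calc (1:ℝ) ≤ 128 ^ 2 * 1 * 1 * 2 := by norm_num
              _ ≤ _ := by gcongr
          have hfin : 1 ≤ L / Real.log X := by rw [le_div_iff₀ (by linarith)]; linarith
          calc X ^ 2 ≤ 1 / Real.sqrt z.re := hX2
            _ = 1 * 1 * (1 / Real.sqrt z.re) * 1 := by ring
            _ ≤ Real.exp 1 * CQ * (1 / Real.sqrt z.re) * (L / Real.log X) := by gcongr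
            _ = _ := by field_simp
        have h7 : 50 * Real.exp 1 * CQ * L / (Real.sqrt z.re * Real.log X) =
            50 * (Real.exp 1 * CQ * L / (Real.sqrt z.re * Real.log X)) := by ring
        have h8 : B = 5 * (Real.exp 1 * CQ * L / (Real.sqrt z.re * Real.log X)) := by rw [hB]; ring
        rw [h7, h8]
        have h9 : 0 ≤ Real.exp 1 * CQ * L / (Real.sqrt z.re * Real.log X) := by
          have : 0 ≤ L := by linarith
          positivity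
        linarith

end Pool.Agent.Helper57.LH
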