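import Pool.Agent.Helper57.LH.PartFrac

namespace Pool.Agent.Helper57.LH

open Complex Set MeasureTheory Filter Topology Metric
open Pool.Agent.Helper57.Zeta

/-- the type of zeros of xi -/
abbrev ZS := {ρ : ℂ // xi ρ = 0}

lemma log_le_two_sqrt {x : ℝ} (hx : 0 < x) : Real.log x ≤ 2 * Real.sqrt x := by
  have h1 : Real.log x = 2 * Real.log (Real.sqrt x) := by
    rw [Real.log_sqrt hx.le]; ring
  rw [h1]
  have h2 := Real.log_le_sub_one_of_pos (Real.sqrt_pos.mpr hx)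
  linarith

lemma MR_le {R : ℝ} (hR : 24 ≤ R) : MR R / R ^ 2 ≤ (6 + 4 * Cx + |Real.log ‖xi 2‖| + 1) / Real.sqrt R := by
  have hR0 : 0 < R := by linarith
  have hs := Real.sqrt_pos.mpr hR0
  have hss := Real.sq_sqrt hR0.le
  have hs1 : 1 ≤ Real.sqrt R := by
    rw [Real.one_le_sqrt]; linarith
  have h1 : Real.log (3 * R + 3) ≤ 4 * Real.sqrt R := by
    have h2 := log_le_two_sqrt (show 0 < 3 * R + 3 by linarith)
    have h3 : Real.sqrt (3 * R + 3) ≤ 2 * Real.sqrt R := by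
      have h4 : Real.sqrt (3 * R + 3) ≤ Real.sqrt (2 ^ 2 * R) := Real.sqrt_le_sqrt (by linarith)
      rw [Real.sqrt_mul (by norm_num), Real.sqrt_sq (by norm_num)] at h4
      exact h4
    linarith
  have hC := Cx_nonneg
  have hA := abs_nonneg (Real.log ‖xi 2‖)
  set A := |Real.log ‖xi 2‖|
  have hRs : R ≤ R * Real.sqrt R := by nlinarith
  have h5 : MR R ≤ (6 + 4 * Cx + A + 1) * (R * Real.sqrt R) := by
    unfold MR
    have e1 : 3 * R / 2 * Real.log (3 * R + 3) ≤ 6 * (R * Real.sqrt R) := by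
      calc 3 * R / 2 * Real.log (3 * R + 3) ≤ 3 * R / 2 * (4 * Real.sqrt R) := by gcongr
        _ = _ := by ring
    have e2 : Cx * (3 * R + 1) ≤ 4 * Cx * (R * Real.sqrt R) := by
      calc Cx * (3 * R + 1) ≤ Cx * (4 * R) := by gcongr; linarith
        _ ≤ Cx * (4 * (R * Real.sqrt R)) := by gcongr
        _ = _ := by ring
    have e3 : A + 1 ≤ (A + 1) * (R * Real.sqrt R) := by
      have : 1 ≤ R * Real.sqrt R := by linarith
      nlinarith
    calc 3 * R / 2 * Real.log (3 * R + 3) + Cx * (3 * R + 1) + |Real.log ‖xi 2‖| + 1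
        ≤ 6 * (R * Real.sqrt R) + 4 * Cx * (R * Real.sqrt R) + (A + 1) * (R * Real.sqrt R) := by linarith
      _ = _ := by ring
  rw [div_le_div_iff₀ (by positivity) hs]
  calc MR R * Real.sqrt R ≤ (6 + 4 * Cx + A + 1) * (R * Real.sqrt R) * Real.sqrt R := by gcongr
    _ = (6 + 4 * Cx + A + 1) * (R * Real.sqrt R ^ 2) := by ring
    _ = _ := by rw [hss]; ring

/-- partial fraction expansion as a limit -/
theorem pf_tendsto {s : ℂ} (hxs : xi s ≠ 0) :
    Tendsto (fun R : ℝ => ∑ ρ ∈ ZR R, mx ρ / (s - ρ)) atTop (𝓝 (logDeriv xi s)) := by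
  rw [tendsto_iff_norm_sub_tendsto_zero]
  set K := ‖s - 1 / 2‖ * (256 * (6 + 4 * Cx + |Real.log ‖xi 2‖| + 1)) with hK
  have hlim : Tendsto (fun R : ℝ => K / Real.sqrt R) atTop (𝓝 0) :=
    Tendsto.div_atTop tendsto_const_nhds Real.tendsto_sqrt_atTop
  refine squeeze_zero' (Eventually.of_forall fun _ => norm_nonneg _) ?_ hlim
  filter_upwards [eventually_ge_atTop 24, eventually_ge_atTop (16 * ‖s - 2‖)] with R hR1 hR2
  rw [norm_sub_rev]
  refine (pf_finite hR1 (by linarith) hxs).trans ?_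
  have h1 := MR_le hR1
  rw [hK]
  calc ‖s - 1 / 2‖ * (256 * MR R / R ^ 2) = ‖s - 1 / 2‖ * (256 * (MR R / R ^ 2)) := by ring
    _ ≤ ‖s - 1 / 2‖ * (256 * ((6 + 4 * Cx + |Real.log ‖xi 2‖| + 1) / Real.sqrt R)) := by gcongr
    _ = _ := by ring

lemma re_pos_term {s : ℂ} (hs : 1 ≤ s.re) {ρ : ℂ} (hρ : xi ρ = 0) : 0 ≤ (1 / (s - ρ)).re := by
  have h1 := (xi_eq_zero_iff.mp hρ).2.1
  rw [one_div, Complex.inv_re]
  apply div_nonneg _ (Complex.normSq_nonneg _)
  rw [Complex.sub_re]; linarith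

/-- partial fraction expansion of the real part -/
theorem pf_hasSum {s : ℂ} (hs : 1 ≤ s.re) :
    HasSum (fun ρ : ZS => mx ρ * (1 / (s - ρ)).re) (logDeriv xi s).re := by
  classical
  have hxs : xi s ≠ 0 := xi_ne_zero_of_one_le_re hs
  have hnn : ∀ ρ : ZS, 0 ≤ mx ρ * (1 / (s - ρ)).re := fun ρ => mul_nonneg (mx_nonneg _) (re_pos_term hs ρ.2)
  have hT : Tendsto (fun R : ℝ => ∑ ρ ∈ ZR R, mx ρ * (1 / (s - ρ)).re) atTop (𝓝 (logDeriv xi s).re) := by
    have h1 := (Complex.continuous_re.tendsto _).comp (pf_tendsto hxs)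
    refine h1.congr fun R => ?_
    simp only [Function.comp_apply, Complex.re_sum]
    refine Finset.sum_congr rfl fun ρ _ => ?_
    rw [show mx ρ / (s - ρ) = (mx ρ : ℂ) * (1 / (s - ρ)) by ring, Complex.re_ofReal_mul]
  have hsub : ∀ R : ℝ, ∑ ρ ∈ ZR R, mx ρ * (1 / (s - ρ)).re = ∑ ρ ∈ (ZR R).subtype (fun ρ => xi ρ = 0), mx ρ * (1 / (s - (ρ:ℂ))).re := by
    intro R
    rw [Finset.sum_subtype_of_mem (f := fun ρ : ℂ => mx ρ * (1 / (s - ρ)).re)]
    intro x hx
    exact (mem_ZR.mp hx).1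
  apply hasSum_of_isLUB_of_nonneg _ hnn
  constructor
  · rintro _ ⟨F, rfl⟩
    -- choose R large
    refine ge_of_tendsto hT ?_
    obtain ⟨R0, hR0⟩ : ∃ R0 : ℝ, ∀ ρ ∈ F, ‖(ρ : ℂ) - 1 / 2‖ ≤ R0 := by
      refine ⟨∑ ρ ∈ F, ‖(ρ : ℂ) - 1 / 2‖, fun ρ hρ => ?_⟩
      exact Finset.single_le_sum (f := fun ρ : ZS => ‖(ρ : ℂ) - 1 / 2‖) (fun i _ => norm_nonneg _) hρ
    filter_upwards [eventually_ge_atTop R0] with R hR
    rw [hsub]
    apply Finset.sum_le_sum_of_subset_of_nonneg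
    · intro ρ hρ
      rw [Finset.mem_subtype, mem_ZR]
      exact ⟨ρ.2, (hR0 ρ hρ).trans hR⟩
    · intro i _ _; exact hnn i
  · intro b hb
    refine le_of_tendsto hT (Eventually.of_forall fun R => ?_)
    rw [hsub]
    exact hb ⟨_, rfl⟩

/-- conjugation preserves multiplicities -/
lemma order_conj (ρ : ℂ) : analyticOrderNatAt xi (starRingEnd ℂ ρ) = analyticOrderNatAt xi ρ := by
  obtain ⟨g, hg, hfg, hga⟩ := div_point differentiable_xi xi_two_ne ρ
  set n := analyticOrderNatAt xi ρ with hn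
  have hg' : Differentiable ℂ (fun z => starRingEnd ℂ (g (starRingEnd ℂ z))) := by
    intro z
    have h1 := ((hg (starRingEnd ℂ z)).hasDerivAt.conj_conj).differentiableAt
    rw [Complex.conj_conj] at h1
    exact h1
  have h1 : ∀ z, xi z = (z - starRingEnd ℂ ρ) ^ n * starRingEnd ℂ (g (starRingEnd ℂ z)) := by
    intro z
    have h2 := xi_conj (starRingEnd ℂ z)
    rw [Complex.conj_conj] at h2
    rw [h2, hfg, map_mul, map_pow, map_sub, Complex.conj_conj]
  have h3 : analyticOrderAt xi (starRingEnd ℂ ρ) = n := by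
    rw [(analyticAt_xi _).analyticOrderAt_eq_natCast]
    refine ⟨_, hg'.analyticAt _, ?_, Eventually.of_forall fun z => ?_⟩
    · simp only [Complex.conj_conj]
      exact (map_ne_zero _).mpr hga
    · simp only [smul_eq_mul]
      exact h1 z
  unfold analyticOrderNatAt
  rw [h3]
  rfl

/-- reflection in the critical line -/
noncomputable def refl : ZS ≃ ZS where
  toFun ρ := ⟨1 - starRingEnd ℂ ρ, by rw [xi_one_sub, xi_conj, ρ.2, map_zero]⟩
  invFun ρ := ⟨1 - starRingEnd ℂ ρ, by rw [xi_one_sub, xi_conj, ρ.2, map_zero]⟩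
  left_inv ρ := by ext; simp
  right_inv ρ := by ext; simp

lemma refl_re (ρ : ZS) : (refl ρ : ℂ).re = 1 - (ρ : ℂ).re := by simp [refl]
lemma refl_im (ρ : ZS) : (refl ρ : ℂ).im = (ρ : ℂ).im := by simp [refl]
lemma refl_mx (ρ : ZS) : mx (refl ρ) = mx ρ := by
  unfold mx
  have : ((refl ρ : ZS) : ℂ) = 1 - starRingEnd ℂ (ρ:ℂ) := rfl
  rw [this, order_one_sub, order_conj]

end Pool.Agent.Helper57.LH
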