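import Pool.Agent.Helper57.LH.BCL

namespace Pool.Agent.Helper57.LH

open Complex Set MeasureTheory Filter Topology Metric
open Pool.Agent.Helper57.Zeta

/-- zeros of xi in the disc of radius R about 1/2 -/
noncomputable def ZR (R : ℝ) : Finset ℂ := (zset_finite differentiable_xi xi_two_ne (1/2) R).toFinset

/-- multiplicity -/
noncomputable def mx (ρ : ℂ) : ℝ := (analyticOrderNatAt xi ρ : ℝ)

lemma mx_nonneg (ρ : ℂ) : 0 ≤ mx ρ := Nat.cast_nonneg _

lemma mem_ZR {R : ℝ} {ρ : ℂ} : ρ ∈ ZR R ↔ xi ρ = 0 ∧ ‖ρ - 1 / 2‖ ≤ R := by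
  unfold ZR
  rw [Set.Finite.mem_toFinset]; rfl

lemma ZR_mono {R R' : ℝ} (h : R ≤ R') : ZR R ⊆ ZR R' := by
  intro ρ hρ
  rw [mem_ZR] at hρ ⊢
  exact ⟨hρ.1, hρ.2.trans h⟩

lemma ZR_symm {R : ℝ} {ρ : ℂ} (h : ρ ∈ ZR R) : 1 - ρ ∈ ZR R := by
  rw [mem_ZR] at h ⊢
  refine ⟨by rw [xi_one_sub]; exact h.1, ?_⟩
  rw [show 1 - ρ - 1 / 2 = -(ρ - 1 / 2) by ring, norm_neg]
  exact h.2

/-- growth constant -/
noncomputable def Cx : ℝ := posLog_xi_le.choose

lemma Cx_nonneg : 0 ≤ Cx := posLog_xi_le.choose_spec.1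

/-- bound for log |xi| on the circle of radius 3R -/
noncomputable def MR (R : ℝ) : ℝ := 3 * R / 2 * Real.log (3 * R + 3) + Cx * (3 * R + 1) + |Real.log ‖xi 2‖| + 1

lemma MR_pos {R : ℝ} (hR : 0 ≤ R) : 0 < MR R := by
  unfold MR
  have := Cx_nonneg
  have := abs_nonneg (Real.log ‖xi 2‖)
  have : 0 ≤ Real.log (3 * R + 3) := Real.log_nonneg (by linarith)
  positivity

lemma norm_xi_le {R : ℝ} (hR : 0 ≤ R) {s : ℂ} (hs : ‖s - 1 / 2‖ = 3 * R) :
    ‖xi s‖ ≤ Real.exp (3 * R / 2 * Real.log (3 * R + 3) + Cx * (3 * R + 1)) := by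
  have h := posLog_xi_le.choose_spec.2 (s - 1 / 2)
  rw [show 1 / 2 + (s - 1 / 2) = s by ring, hs] at h
  have hre : |(s - 1 / 2).re| ≤ 3 * R := by rw [← hs]; exact Complex.abs_re_le_norm _
  have hl : 0 ≤ Real.log (3 * R + 3) := Real.log_nonneg (by linarith)
  rcases eq_or_ne (xi s) 0 with h0 | h0
  · rw [h0, norm_zero]; positivity
  · have h1 : Real.log ‖xi s‖ ≤ Real.posLog ‖xi s‖ := le_max_right _ _
    have h2 : |(s - 1 / 2).re| / 2 * Real.log (3 * R + 3) ≤ 3 * R / 2 * Real.log (3 * R + 3) := by gcongr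
    rw [← Real.log_le_iff_le_exp (norm_pos_iff.mpr h0)]
    have h3 : posLog_xi_le.choose * (3 * R + 1) = Cx * (3 * R + 1) := rfl
    linarith

lemma prod_symm {R : ℝ} (s : ℂ) :
    ∏ a ∈ ZR R, (1 - s - a) ^ (analyticOrderNatAt xi a) =
      (∏ a ∈ ZR R, (-1 : ℂ) ^ (analyticOrderNatAt xi a)) * ∏ a ∈ ZR R, (s - a) ^ (analyticOrderNatAt xi a) := by
  rw [← Finset.prod_mul_distrib]
  refine Finset.prod_bij' (fun a _ => 1 - a) (fun a _ => 1 - a) (fun a ha => ZR_symm ha) (fun a ha => ZR_symm ha)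
    (fun a _ => by ring) (fun a _ => by ring) (fun a _ => ?_)
  rw [order_one_sub, ← mul_pow]
  congr 1
  ring

/-- finite partial fraction expansion with error term -/
theorem pf_finite {R : ℝ} (hR : 24 ≤ R) {s : ℂ} (hs : ‖s - 2‖ ≤ R / 16) (hxs : xi s ≠ 0) :
    ‖logDeriv xi s - ∑ ρ ∈ ZR R, mx ρ / (s - ρ)‖ ≤ ‖s - 1 / 2‖ * (256 * MR R / R ^ 2) := by
  have hR0 : 0 < R := by linarith
  obtain ⟨h, hh, hfac, hS, _⟩ := div_finset differentiable_xi xi_two_ne (ZR R)
  set P : ℂ → ℂ := fun z => ∏ a ∈ ZR R, (z - a) ^ (analyticOrderNatAt xi a) with hP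
  have hfac' : ∀ z, xi z = P z * h z := hfac
  -- nonvanishing
  have hne : ∀ z, ‖z - 1 / 2‖ ≤ R → h z ≠ 0 := by
    intro z hz h0
    have h1 : xi z = 0 := by rw [hfac', h0, mul_zero]
    exact hS z (mem_ZR.mpr ⟨h1, hz⟩) h0
  have hball : ∀ z ∈ ball (2:ℂ) (R / 2), ‖z - 1 / 2‖ ≤ R := by
    intro z hz
    rw [mem_ball, dist_eq_norm] at hz
    have h1 := norm_add_le (z - 2) (3 / 2)
    rw [show z - 2 + 3 / 2 = z - 1 / 2 by ring] at h1
    have h2 : ‖(3 / 2 : ℂ)‖ = 3 / 2 := by
      rw [norm_div, Complex.norm_ofNat, Complex.norm_ofNat]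
    rw [h2] at h1
    linarith
  -- growth
  have hP2 : P 2 ≠ 0 := by
    intro h0
    exact xi_two_ne (by rw [hfac', h0, zero_mul])
  have hgrow : ∀ z ∈ ball (2:ℂ) (R / 2), ‖h z‖ ≤ ‖h 2‖ * Real.exp (MR R) := by
    intro z hz
    have hU : z ∈ closure (ball (1/2 : ℂ) (3 * R)) := by
      apply subset_closure
      rw [mem_ball, dist_eq_norm]
      have := hball z hz
      linarith
    refine Complex.norm_le_of_forall_mem_frontier_norm_le (U := ball (1/2 : ℂ) (3 * R)) isBounded_ball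
      hh.diffContOnCl ?_ hU
    intro w hw
    rw [frontier_ball _ (by positivity), mem_sphere, dist_eq_norm] at hw
    have hPw : ‖P 2‖ ≤ ‖P w‖ := by
      simp only [hP, norm_prod, norm_pow]
      apply Finset.prod_le_prod
      · intro i _; positivity
      · intro i hi
        rw [mem_ZR] at hi
        apply pow_le_pow_left₀ (norm_nonneg _)
        have h1 : ‖2 - i‖ ≤ 3 / 2 + R := by
          have h2 := norm_add_le (3 / 2 : ℂ) (-(i - 1 / 2))
          rw [show (3 / 2 : ℂ) + -(i - 1 / 2) = 2 - i by ring, norm_neg, norm_div, Complex.norm_ofNat, Complex.norm_ofNat] at h2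
          linarith [hi.2]
        have h3 : 3 * R - R ≤ ‖w - i‖ := by
          have h4 := norm_sub_norm_le (w - 1 / 2) (i - 1 / 2)
          rw [show w - 1 / 2 - (i - 1 / 2) = w - i by ring, hw] at h4
          linarith [hi.2]
        linarith
    have hPw0 : 0 < ‖P 2‖ := norm_pos_iff.mpr hP2
    have h5 : ‖xi w‖ = ‖P w‖ * ‖h w‖ := by rw [hfac', norm_mul]
    have h6 : ‖xi 2‖ = ‖P 2‖ * ‖h 2‖ := by rw [hfac', norm_mul]
    have h7 := norm_xi_le hR0.le hw
    have hxi2 : 0 < ‖xi 2‖ := norm_pos_iff.mpr xi_two_ne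
    have h8 : Real.exp (3 * R / 2 * Real.log (3 * R + 3) + Cx * (3 * R + 1)) ≤ ‖xi 2‖ * Real.exp (MR R) := by
      have h9 : ‖xi 2‖ = Real.exp (Real.log ‖xi 2‖) := (Real.exp_log hxi2).symm
      rw [h9, ← Real.exp_add]
      apply Real.exp_le_exp.mpr
      unfold MR
      have := neg_abs_le (Real.log ‖xi 2‖)
      linarith
    have h10 : ‖P 2‖ * ‖h w‖ ≤ ‖P 2‖ * (‖h 2‖ * Real.exp (MR R)) := by
      calc ‖P 2‖ * ‖h w‖ ≤ ‖P w‖ * ‖h w‖ := by gcongr
        _ = ‖xi w‖ := h5.symm
        _ ≤ _ := h7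
        _ ≤ _ := h8
        _ = _ := by rw [h6]; ring
    exact le_of_mul_le_mul_left h10 hPw0
  -- symmetry
  set ε : ℂ := ∏ a ∈ ZR R, (-1 : ℂ) ^ (analyticOrderNatAt xi a) with hε
  have hε2 : ε * ε = 1 := by
    rw [hε, ← Finset.prod_mul_distrib]
    apply Finset.prod_eq_one
    intro a _
    rw [← mul_pow]; norm_num
  have hPs : ∀ z, P (1 - z) = ε * P z := fun z => prod_symm z
  have hsym : ∀ z, h (1 - z) = ε * h z := by
    have hdense : Dense {z : ℂ | z ∉ ZR R} := by
      have : ((ZR R : Finset ℂ) : Set ℂ).Countable := (ZR R).countable_toSet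
      exact this.dense_compl ℂ
    have hext : (fun z => h (1 - z)) = fun z => ε * h z := by
      apply Continuous.ext_on hdense (by have := hh.continuous; fun_prop) (by have := hh.continuous; fun_prop)
      intro z hz
      have hPz : P z ≠ 0 := by
        rw [hP]
        simp only
        rw [Finset.prod_ne_zero_iff]
        intro a ha
        apply pow_ne_zero
        rw [sub_ne_zero]
        rintro rfl
        exact hz ha
      have h1 : P (1 - z) * h (1 - z) = P z * h z := by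
        rw [← hfac', ← hfac', xi_one_sub]
      rw [hPs] at h1
      have h2 : P z * (h (1 - z) - ε * h z) = 0 := by
        have h3 : ε * (P z * (h (1 - z) - ε * h z)) = 0 := by
          calc ε * (P z * (h (1 - z) - ε * h z)) = ε * P z * h (1 - z) - (ε * ε) * (P z * h z) := by ring
            _ = 0 := by rw [h1, hε2]; ring
        have hε0 : ε ≠ 0 := by
          intro h0; rw [h0] at hε2; simp at hε2
        exact (mul_eq_zero.mp h3).resolve_left hε0
      have h4 := (mul_eq_zero.mp h2).resolve_left hPz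
      exact sub_eq_zero.mp h4
    exact fun z => congrFun hext z
  have hhalf : h (1/2) ≠ 0 := hne _ (by simp; linarith)
  have hε1 : ε = 1 := by
    have h1 := hsym (1/2)
    rw [show (1:ℂ) - 1/2 = 1/2 by norm_num] at h1
    have h2 : (ε - 1) * h (1/2) = 0 := by rw [sub_mul, one_mul, ← h1, sub_self]
    exact sub_eq_zero.mp ((mul_eq_zero.mp h2).resolve_right hhalf)
  have hder : deriv h (1/2) = 0 := by
    have h1 : deriv (fun z => h (1 - z)) (1/2) = - deriv h (1/2) := by
      rw [deriv_comp_const_sub]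
      norm_num
    have h2 : (fun z => h (1 - z)) = h := by
      funext z; rw [hsym, hε1, one_mul]
    rw [h2] at h1
    have h3 : 2 * deriv h (1/2) = 0 := by linear_combination h1
    simpa using h3
  have hφ0 : logDeriv h (1/2) = 0 := by rw [logDeriv_apply, hder, zero_div]
  -- mean value
  have hMR := MR_pos hR0.le
  have hder2 : ∀ z ∈ closedBall (2:ℂ) (R / 16), ‖deriv (logDeriv h) z‖ ≤ 256 * MR R / R ^ 2 := by
    intro z hz
    rw [mem_closedBall, dist_eq_norm] at hz
    have := logDeriv_bound hh (c := 2) (R := R / 2) (by positivity) hMR (fun z hz => hne z (hball z hz)) hgrow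
      (z := z) (by linarith)
    refine this.trans (le_of_eq ?_)
    field_simp
    norm_num
  have hmv := Convex.norm_image_sub_le_of_norm_deriv_le (s := closedBall (2:ℂ) (R / 16)) (f := logDeriv h)
    (x := 1/2) (y := s) (by
      intro z hz
      have hz2 : ‖z - 1 / 2‖ ≤ R := hball z (closedBall_subset_ball (by linarith) hz)
      have h1 : DifferentiableAt ℂ (deriv h) z := (hh.analyticAt z).deriv.differentiableAt
      exact h1.div (hh z) (hne z hz2)) hder2 (convex_closedBall _ _) (by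
      rw [mem_closedBall, dist_eq_norm]
      rw [show (1/2 : ℂ) - 2 = -(3/2) by norm_num, norm_neg, norm_div, Complex.norm_ofNat, Complex.norm_ofNat]
      linarith) (by rw [mem_closedBall, dist_eq_norm]; exact hs)
  rw [hφ0, sub_zero] at hmv
  -- logarithmic derivative of the product
  have hsR : ‖s - 1 / 2‖ ≤ R := hball s (by rw [mem_ball, dist_eq_norm]; linarith)
  have hlog : logDeriv xi s = ∑ ρ ∈ ZR R, mx ρ / (s - ρ) + logDeriv h s := by
    have e1 : xi = fun z => P z * h z := funext hfac'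
    have hPs0 : P s ≠ 0 := by
      intro h0; exact hxs (by rw [hfac', h0, zero_mul])
    have hfac0 : ∀ a ∈ ZR R, (s - a) ^ (analyticOrderNatAt xi a) ≠ 0 := by
      intro a ha
      apply pow_ne_zero
      rw [sub_ne_zero]
      rintro rfl
      exact hxs (mem_ZR.mp ha).1
    have hPd : DifferentiableAt ℂ P s := by
      rw [hP]; fun_prop
    rw [e1, logDeriv_mul s hPs0 (hne s hsR) hPd (hh s)]
    congr 1
    have h2 := logDeriv_prod (s := ZR R) (f := fun a z => (z - a) ^ (analyticOrderNatAt xi a)) (x := s) hfac0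
      (fun i _ => by fun_prop)
    rw [hP]
    rw [h2]
    refine Finset.sum_congr rfl fun a ha => ?_
    rw [logDeriv_fun_pow (f := fun z => z - a) (by fun_prop)]
    rw [logDeriv_apply]
    simp only [deriv_sub_const, deriv_id'', mx]
    push_cast
    ring
  rw [hlog, add_sub_cancel_left, mul_comm]
  exact hmv

end Pool.Agent.Helper57.LH
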