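import Pool.Agent.Helper57.LH.MainT

namespace Pool.Agent.Helper57.LH

open Set MeasureTheory Filter Topology
open scoped ArithmeticFunction

lemma sum_vM (N : ℕ) : ∑ d ∈ Finset.range (N + 1), Λ d / d ≤ 2 * Real.log N := by
  classical
  rcases Nat.eq_zero_or_pos N with rfl | hN
  · simp
  have hN0 : (0:ℝ) < N := by exact_mod_cast hN
  have h1 : ∑ n ∈ Finset.range (N + 1), Real.log n = ∑ d ∈ Finset.range (N + 1), Λ d * ((N / d : ℕ) : ℝ) := by
    have e1 : ∀ n ∈ Finset.range (N + 1), Real.log n = ∑ d ∈ Finset.range (N + 1), if (n ≠ 0 ∧ d ∣ n) then Λ d else 0 := by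
      intro n hn
      rw [Finset.mem_range] at hn
      rw [← ArithmeticFunction.vonMangoldt_sum, ← Finset.sum_filter]
      apply Finset.sum_congr
      · ext d
        rw [Nat.mem_divisors, Finset.mem_filter, Finset.mem_range]
        constructor
        · rintro ⟨h1, h2⟩
          have := Nat.le_of_dvd (Nat.pos_of_ne_zero h2) h1
          exact ⟨by omega, h2, h1⟩
        · rintro ⟨_, h2, h1⟩
          exact ⟨h1, h2⟩
      · intro d _; rfl
    rw [Finset.sum_congr rfl e1, Finset.sum_comm]
    refine Finset.sum_congr rfl fun d _ => ?_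
    rw [← Finset.sum_filter, Finset.sum_const, nsmul_eq_mul, ← Nat.card_multiples' N d]
    ring
  have h2 : ∑ n ∈ Finset.range (N + 1), Real.log n ≤ N * Real.log N := by
    rw [Finset.sum_range_succ']
    simp only [Nat.cast_zero, Real.log_zero, add_zero]
    calc ∑ k ∈ Finset.range N, Real.log ((k + 1 : ℕ) : ℝ) ≤ ∑ k ∈ Finset.range N, Real.log N := by
          refine Finset.sum_le_sum fun k hk => ?_
          rw [Finset.mem_range] at hk
          apply Real.log_le_log (by positivity)
          exact_mod_cast hk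
      _ = _ := by rw [Finset.sum_const, Finset.card_range, nsmul_eq_mul]
  have h3 : ∑ d ∈ Finset.range (N + 1), (N:ℝ) / 2 * (Λ d / d) ≤ ∑ d ∈ Finset.range (N + 1), Λ d * ((N / d : ℕ) : ℝ) := by
    refine Finset.sum_le_sum fun d hd => ?_
    rw [Finset.mem_range] at hd
    rcases Nat.eq_zero_or_pos d with rfl | hd0
    · simp
    · have hd0' : (0:ℝ) < d := by exact_mod_cast hd0
      have h4 : (N:ℝ) / (2 * d) ≤ ((N / d : ℕ) : ℝ) := by
        have h5 : 1 ≤ N / d := (Nat.one_le_div_iff hd0).mpr (by omega)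
        have h6 : N < d * (N / d) + d := by
          have := Nat.div_add_mod N d
          have := Nat.mod_lt N hd0
          omega
        have h7 : N ≤ 2 * (d * (N / d)) := by nlinarith
        have h8 : (N:ℝ) ≤ 2 * (d * ((N / d : ℕ) : ℝ)) := by exact_mod_cast h7
        rw [div_le_iff₀ (by positivity)]
        linarith
      have h9 := @ArithmeticFunction.vonMangoldt_nonneg d
      calc (N:ℝ) / 2 * (Λ d / d) = Λ d * ((N:ℝ) / (2 * d)) := by field_simp
        _ ≤ _ := by gcongr
  rw [← Finset.mul_sum] at h3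
  have h4 : (N:ℝ) / 2 * ∑ d ∈ Finset.range (N + 1), Λ d / d ≤ (N:ℝ) / 2 * (2 * Real.log N) := by
    calc (N:ℝ) / 2 * ∑ d ∈ Finset.range (N + 1), Λ d / d ≤ N * Real.log N := by linarith
      _ = _ := by ring
  exact le_of_mul_le_mul_left h4 (by positivity)

/-- the coefficients -/
noncomputable def ap (X : ℝ) (n : ℕ) : ℝ := cV n * kpp X (Real.log n)

/-- the length -/
noncomputable def NX (X : ℝ) : ℕ := ⌊Real.exp X⌋₊

lemma kpp_nonneg {X : ℝ} (hX : 0 < X) (x : ℝ) : 0 ≤ kpp X x := by unfold kpp; positivity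

lemma ap_nonneg {X : ℝ} (hX : 0 < X) (n : ℕ) : 0 ≤ ap X n := mul_nonneg (cV_nonneg n) (kpp_nonneg hX _)

lemma ap_zero_lt {X : ℝ} {n : ℕ} (hn : n < 2) : ap X n = 0 := by
  unfold ap cV
  interval_cases n <;> simp

lemma ap_zero_ge {X : ℝ} (hX : 0 < X) {n : ℕ} (hn : NX X < n) : ap X n = 0 := by
  unfold ap
  rw [kpp_zero_of hX, mul_zero]
  have h1 : Real.exp X < n := (Nat.floor_lt (Real.exp_pos X).le).mp hn
  have hn0 : (0:ℝ) < n := lt_trans (Real.exp_pos X) h1
  have h2 : X < Real.log n := by rwa [Real.lt_log_iff_exp_lt hn0]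
  exact h2.le.trans (le_abs_self _)

lemma ap_eq {X : ℝ} (hX : 0 < X) {n : ℕ} (hn : 1 ≤ n) (hnX : n ≤ NX X) :
    ap X n = 2 / X * (Λ n * (1 - Real.log n / X) / Real.sqrt n) := by
  have hn0 : (0:ℝ) < n := by exact_mod_cast hn
  have hn1 : (1:ℝ) ≤ n := by exact_mod_cast hn
  have h1 : (n:ℝ) ≤ Real.exp X := (Nat.le_floor_iff (Real.exp_pos X).le).mp hnX
  have h2 : Real.log n ≤ X := by rwa [Real.log_le_iff_le_exp hn0]
  unfold ap cV
  rw [kpp_pos hX (Real.log_nonneg hn1) h2]
  have hs := Real.sq_sqrt hn0.le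
  have hs0 := Real.sqrt_pos.mpr hn0
  have h3 : Real.exp (3 / 2 * Real.log n) = Real.sqrt n ^ 3 := by
    rw [← Real.exp_log hs0, ← Real.exp_nat_mul, Real.log_sqrt hn0.le]
    congr 1
    push_cast
    ring
  rw [h3]
  have h4 : (n:ℝ) ^ 2 = Real.sqrt n ^ 4 := by
    calc (n:ℝ) ^ 2 = (Real.sqrt n ^ 2) ^ 2 := by rw [hs]
      _ = _ := by ring
  rw [h4]
  field_simp

lemma ap_le {X : ℝ} (hX : 0 < X) (n : ℕ) : ap X n ≤ 2 := by
  rcases Nat.lt_or_ge n 1 with h | h
  · rw [ap_zero_lt (by omega)]; norm_num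
  rcases lt_or_ge (NX X) n with h2 | h2
  · rw [ap_zero_ge hX h2]; norm_num
  rw [ap_eq hX h h2]
  have hn0 : (0:ℝ) < n := by exact_mod_cast h
  have hn1 : (1:ℝ) ≤ n := by exact_mod_cast h
  have h1 : (n:ℝ) ≤ Real.exp X := (Nat.le_floor_iff (Real.exp_pos X).le).mp h2
  have h3 : Real.log n ≤ X := by rwa [Real.log_le_iff_le_exp hn0]
  have hl0 := Real.log_nonneg hn1
  have h4 := @ArithmeticFunction.vonMangoldt_le_log n
  have h5 := @ArithmeticFunction.vonMangoldt_nonneg n
  have hs1 : 1 ≤ Real.sqrt n := by rw [Real.one_le_sqrt]; exact hn1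
  have h6 : 0 ≤ 1 - Real.log n / X := by rw [sub_nonneg, div_le_one hX]; exact h3
  have h7 : 1 - Real.log n / X ≤ 1 := by
    have : 0 ≤ Real.log n / X := by positivity
    linarith
  calc 2 / X * (Λ n * (1 - Real.log n / X) / Real.sqrt n) ≤ 2 / X * (X * 1 / 1) := by
        gcongr
        linarith
    _ = 2 := by field_simp

lemma ap_sq {X : ℝ} (hX : 0 < X) (n : ℕ) : ap X n ^ 2 ≤ 4 / X * (Λ n / n) := by
  rcases Nat.lt_or_ge n 1 with h | h
  · rw [ap_zero_lt (by omega)]
    have := @ArithmeticFunction.vonMangoldt_nonneg n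
    rw [zero_pow two_ne_zero]
    positivity
  have h5 := @ArithmeticFunction.vonMangoldt_nonneg n
  rcases lt_or_ge (NX X) n with h2 | h2
  · rw [ap_zero_ge hX h2, zero_pow two_ne_zero]
    positivity
  rw [ap_eq hX h h2]
  have hn0 : (0:ℝ) < n := by exact_mod_cast h
  have hn1 : (1:ℝ) ≤ n := by exact_mod_cast h
  have h1 : (n:ℝ) ≤ Real.exp X := (Nat.le_floor_iff (Real.exp_pos X).le).mp h2
  have h3 : Real.log n ≤ X := by rwa [Real.log_le_iff_le_exp hn0]
  have hl0 := Real.log_nonneg hn1
  have h4 := @ArithmeticFunction.vonMangoldt_le_log n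
  have h6 : 0 ≤ 1 - Real.log n / X := by rw [sub_nonneg, div_le_one hX]; exact h3
  have h7 : 1 - Real.log n / X ≤ 1 := by
    have : 0 ≤ Real.log n / X := by positivity
    linarith
  have hs := Real.sq_sqrt hn0.le
  calc (2 / X * (Λ n * (1 - Real.log n / X) / Real.sqrt n)) ^ 2
      = 4 / X ^ 2 * (Λ n * Λ n * (1 - Real.log n / X) ^ 2 / Real.sqrt n ^ 2) := by ring
    _ = 4 / X ^ 2 * (Λ n * Λ n * (1 - Real.log n / X) ^ 2 / n) := by rw [hs]
    _ ≤ 4 / X ^ 2 * (Λ n * X * 1 ^ 2 / n) := by
        gcongr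
        linarith
    _ = _ := by field_simp

lemma sum_ap_sq {X : ℝ} (hX : 0 < X) : ∑ n ∈ Finset.range (NX X + 1), ap X n ^ 2 ≤ 8 := by
  have h1 : ∑ n ∈ Finset.range (NX X + 1), ap X n ^ 2 ≤ 4 / X * ∑ n ∈ Finset.range (NX X + 1), Λ n / n := by
    rw [Finset.mul_sum]
    exact Finset.sum_le_sum fun n _ => ap_sq hX n
  refine h1.trans ?_
  have h2 := sum_vM (NX X)
  have h3 : Real.log (NX X) ≤ X := by
    have h4 : (NX X : ℝ) ≤ Real.exp X := Nat.floor_le (Real.exp_pos X).le
    have h5 : (0:ℝ) < NX X := by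
      have : 1 ≤ NX X := by
        unfold NX
        rw [Nat.le_floor_iff (Real.exp_pos X).le]
        push_cast
        exact Real.one_le_exp hX.le
      exact_mod_cast this
    rwa [Real.log_le_iff_le_exp h5]
  calc 4 / X * ∑ n ∈ Finset.range (NX X + 1), Λ n / n ≤ 4 / X * (2 * X) := by
        gcongr
        linarith
    _ = 8 := by field_simp; norm_num

lemma sum_ap_le {X : ℝ} (hX : 0 < X) : ∑ n ∈ Finset.range (NX X + 1), ap X n ≤ 4 * Real.exp X := by
  have h4 : (NX X : ℝ) ≤ Real.exp X := Nat.floor_le (Real.exp_pos X).le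
  have h5 := Real.one_le_exp hX.le
  calc ∑ n ∈ Finset.range (NX X + 1), ap X n ≤ ∑ n ∈ Finset.range (NX X + 1), 2 := Finset.sum_le_sum fun n _ => ap_le hX n
    _ = 2 * (NX X + 1) := by rw [Finset.sum_const, Finset.card_range, nsmul_eq_mul]; push_cast; ring
    _ ≤ _ := by linarith

lemma PS_eq {X : ℝ} (hX : 0 < X) (t : ℝ) : PS X t = ∑ n ∈ Finset.range (NX X + 1), ap X n * Real.cos (Real.log n * t) := by
  unfold PS
  rw [tsum_eq_sum (s := Finset.range (NX X + 1))]
  · refine Finset.sum_congr rfl fun n _ => ?_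
    unfold ap; ring
  · intro n hn
    rw [Finset.mem_range, not_lt] at hn
    have := ap_zero_ge hX (n := n) (by omega)
    unfold ap at this
    rw [← mul_assoc, this, zero_mul]

lemma PS_cont {X : ℝ} (hX : 0 < X) : Continuous (PS X) := by
  have : PS X = fun t => ∑ n ∈ Finset.range (NX X + 1), ap X n * Real.cos (Real.log n * t) := funext (PS_eq hX)
  rw [this]
  fun_prop

lemma int_cos {c : ℝ} (hc : c ≠ 0) (a b : ℝ) : |∫ t in a..b, Real.cos (c * t)| ≤ 2 / |c| := by
  rw [intervalIntegral.integral_comp_mul_left (fun t => Real.cos t) hc, integral_cos, smul_eq_mul, abs_mul, abs_inv, ← div_eq_inv_mul]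
  gcongr
  refine (abs_sub _ _).trans ?_
  have := Real.abs_sin_le_one (c * b)
  have := Real.abs_sin_le_one (c * a)
  linarith

lemma PS_mean {X : ℝ} (hX : 0 < X) (a b : ℝ) : |∫ t in a..b, PS X t| ≤ 12 * Real.exp X := by
  have h1 : ∫ t in a..b, PS X t = ∑ n ∈ Finset.range (NX X + 1), ap X n * ∫ t in a..b, Real.cos (Real.log n * t) := by
    simp_rw [PS_eq hX]
    rw [intervalIntegral.integral_finsetSum]
    · refine Finset.sum_congr rfl fun n _ => ?_
      rw [intervalIntegral.integral_const_mul]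
    · intro n _
      apply Continuous.intervalIntegrable
      fun_prop
  rw [h1]
  refine (Finset.abs_sum_le_sum_abs _ _).trans ?_
  have h2 : ∀ n ∈ Finset.range (NX X + 1), |ap X n * ∫ t in a..b, Real.cos (Real.log n * t)| ≤ ap X n * 3 := by
    intro n _
    rcases Nat.lt_or_ge n 2 with h | h
    · rw [ap_zero_lt h]; simp
    · rw [abs_mul, abs_of_nonneg (ap_nonneg hX n)]
      apply mul_le_mul_of_nonneg_left _ (ap_nonneg hX n)
      have hn2 : (2:ℝ) ≤ n := by exact_mod_cast h
      have hl : Real.log 2 ≤ Real.log n := Real.log_le_log (by norm_num) hn2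
      have hl2 := Real.log_two_gt_d9
      refine (int_cos (by linarith) a b).trans ?_
      rw [abs_of_pos (by linarith), div_le_iff₀ (by linarith)]
      linarith
  refine (Finset.sum_le_sum h2).trans ?_
  rw [← Finset.sum_mul]
  have := sum_ap_le hX
  linarith

lemma int_cos_cos {c d : ℝ} (h1 : c - d ≠ 0) (h2 : c + d ≠ 0) (a b : ℝ) :
    |∫ t in a..b, Real.cos (c * t) * Real.cos (d * t)| ≤ 1 / |c - d| + 1 / |c + d| := by
  have e : ∀ t : ℝ, Real.cos (c * t) * Real.cos (d * t) = (1 / 2) * Real.cos ((c - d) * t) + (1 / 2) * Real.cos ((c + d) * t) := by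
    intro t
    rw [sub_mul, add_mul, Real.cos_sub, Real.cos_add]
    ring
  simp_rw [e]
  rw [intervalIntegral.integral_add (by apply Continuous.intervalIntegrable; fun_prop) (by apply Continuous.intervalIntegrable; fun_prop),
    intervalIntegral.integral_const_mul, intervalIntegral.integral_const_mul]
  refine (abs_add_le _ _).trans ?_
  rw [abs_mul, abs_mul, abs_of_pos (by norm_num : (0:ℝ) < 1/2)]
  have i1 := int_cos h1 a b
  have i2 := int_cos h2 a b
  have e1 : 1 / 2 * (2 / |c - d|) = 1 / |c - d| := by ring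
  have e2 : 1 / 2 * (2 / |c + d|) = 1 / |c + d| := by ring
  rw [← e1, ← e2]
  gcongr

lemma log_diff {X : ℝ} {m n : ℕ} (hn : 1 ≤ n) (hmn : n < m) (hm : m ≤ NX X) : Real.exp (-X) ≤ Real.log m - Real.log n := by
  have hn0 : (0:ℝ) < n := by exact_mod_cast hn
  have hm0 : (0:ℝ) < m := by exact_mod_cast (by omega : 0 < m)
  have h1 : (m:ℝ) ≤ Real.exp X := (Nat.le_floor_iff (Real.exp_pos X).le).mp hm
  have h2 := Real.one_sub_inv_le_log_of_pos (show (0:ℝ) < m / n by positivity)
  rw [Real.log_div hm0.ne' hn0.ne', inv_div] at h2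
  have h3 : (n:ℝ) + 1 ≤ m := by exact_mod_cast hmn
  have h4 : 1 / (m:ℝ) ≤ 1 - n / m := by
    rw [div_le_iff₀ hm0, sub_mul, div_mul_cancel₀ _ hm0.ne']
    linarith
  have h5 : Real.exp (-X) ≤ 1 / m := by
    rw [Real.exp_neg, ← one_div]
    gcongr
  linarith

/-- mean square of the prime sum -/
lemma PS_sq {X : ℝ} (hX : 0 < X) {a b : ℝ} (hab : a ≤ b) : ∫ t in a..b, PS X t ^ 2 ≤ 8 * (b - a) + 32 * Real.exp (3 * X) := by
  have h1 : ∫ t in a..b, PS X t ^ 2 = ∑ m ∈ Finset.range (NX X + 1), ∑ n ∈ Finset.range (NX X + 1),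
      ap X m * ap X n * ∫ t in a..b, Real.cos (Real.log m * t) * Real.cos (Real.log n * t) := by
    have e : ∀ t : ℝ, PS X t ^ 2 = ∑ m ∈ Finset.range (NX X + 1), ∑ n ∈ Finset.range (NX X + 1),
        ap X m * ap X n * (Real.cos (Real.log m * t) * Real.cos (Real.log n * t)) := by
      intro t
      rw [PS_eq hX, sq, Finset.sum_mul_sum]
      refine Finset.sum_congr rfl fun m _ => Finset.sum_congr rfl fun n _ => ?_
      ring
    simp_rw [e]
    rw [intervalIntegral.integral_finsetSum]
    · refine Finset.sum_congr rfl fun m _ => ?_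
      rw [intervalIntegral.integral_finsetSum]
      · refine Finset.sum_congr rfl fun n _ => ?_
        rw [intervalIntegral.integral_const_mul]
      · intro n _
        apply Continuous.intervalIntegrable
        fun_prop
    · intro m _
      apply Continuous.intervalIntegrable
      fun_prop
  rw [h1]
  have hterm : ∀ m ∈ Finset.range (NX X + 1), ∀ n ∈ Finset.range (NX X + 1),
      ap X m * ap X n * ∫ t in a..b, Real.cos (Real.log m * t) * Real.cos (Real.log n * t) ≤
        (if m = n then ap X m ^ 2 * (b - a) else 0) + ap X m * ap X n * (2 * Real.exp X) := by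
    intro m hm n hn
    rw [Finset.mem_range] at hm hn
    have ham := ap_nonneg hX m
    have han := ap_nonneg hX n
    by_cases hmn : m = n
    · rw [if_pos hmn]
      subst hmn
      have h2 : ∫ t in a..b, Real.cos (Real.log m * t) * Real.cos (Real.log m * t) ≤ b - a := by
        have h3 : ∫ t in a..b, Real.cos (Real.log m * t) * Real.cos (Real.log m * t) ≤ ∫ _ in a..b, (1:ℝ) := by
          apply intervalIntegral.integral_mono_on hab
          · apply Continuous.intervalIntegrable; fun_prop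
          · exact intervalIntegrable_const
          · intro t _
            have := Real.abs_cos_le_one (Real.log m * t)
            rw [← abs_mul_abs_self]
            nlinarith [abs_nonneg (Real.cos (Real.log m * t))]
        simpa using h3
      calc ap X m * ap X m * ∫ t in a..b, Real.cos (Real.log m * t) * Real.cos (Real.log m * t) ≤ ap X m * ap X m * (b - a) := by gcongr
        _ = ap X m ^ 2 * (b - a) := by ring
        _ ≤ _ := by
          have : 0 ≤ ap X m * ap X m * (2 * Real.exp X) := by positivity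
          linarith
    · rw [if_neg hmn, zero_add]
      rcases Nat.lt_or_ge m 2 with h2 | h2
      · rw [ap_zero_lt h2]; simp
      rcases Nat.lt_or_ge n 2 with h3 | h3
      · rw [ap_zero_lt h3]; simp
      apply mul_le_mul_of_nonneg_left _ (by positivity)
      have hlm : 0 < Real.log m := Real.log_pos (by exact_mod_cast (by omega : 1 < m))
      have hln : 0 < Real.log n := Real.log_pos (by exact_mod_cast (by omega : 1 < n))
      have hd : Real.exp (-X) ≤ |Real.log m - Real.log n| := by
        rcases lt_or_gt_of_ne hmn with h | h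
        · have := log_diff (X := X) (m := n) (n := m) (by omega) h (by omega)
          rw [abs_sub_comm]
          exact this.trans (le_abs_self _)
        · exact (log_diff (X := X) (by omega) h (by omega)).trans (le_abs_self _)
      have hs : |Real.log m - Real.log n| ≤ |Real.log m + Real.log n| := by
        rw [abs_of_pos (by linarith : 0 < Real.log m + Real.log n), abs_le]
        constructor <;> linarith
      have hE := Real.exp_pos (-X)
      have hdpos : 0 < |Real.log m - Real.log n| := lt_of_lt_of_le hE hd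
      refine (le_abs_self _).trans ((int_cos_cos (by rwa [← abs_pos]) (by linarith) a b).trans ?_)
      calc 1 / |Real.log m - Real.log n| + 1 / |Real.log m + Real.log n|
          ≤ 1 / Real.exp (-X) + 1 / Real.exp (-X) := by
            gcongr
            exact hd.trans hs
        _ = 2 * Real.exp X := by rw [Real.exp_neg, one_div, inv_inv]; ring
  calc ∑ m ∈ Finset.range (NX X + 1), ∑ n ∈ Finset.range (NX X + 1),
      ap X m * ap X n * ∫ t in a..b, Real.cos (Real.log m * t) * Real.cos (Real.log n * t)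
      ≤ ∑ m ∈ Finset.range (NX X + 1), ∑ n ∈ Finset.range (NX X + 1),
        ((if m = n then ap X m ^ 2 * (b - a) else 0) + ap X m * ap X n * (2 * Real.exp X)) :=
        Finset.sum_le_sum fun m hm => Finset.sum_le_sum fun n hn => hterm m hm n hn
    _ = (∑ m ∈ Finset.range (NX X + 1), ap X m ^ 2) * (b - a) + (∑ m ∈ Finset.range (NX X + 1), ap X m) ^ 2 * (2 * Real.exp X) := by
        simp_rw [Finset.sum_add_distrib]
        congr 1
        · rw [Finset.sum_mul]
          refine Finset.sum_congr rfl fun m hm => ?_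
          rw [Finset.sum_ite_eq, if_pos hm]
        · rw [sq, Finset.sum_mul_sum, Finset.sum_mul]
          refine Finset.sum_congr rfl fun m _ => ?_
          rw [Finset.sum_mul]
    _ ≤ 8 * (b - a) + (4 * Real.exp X) ^ 2 * (2 * Real.exp X) := by
        have h5 := sum_ap_sq hX
        have h6 := sum_ap_le hX
        have h7 : 0 ≤ ∑ m ∈ Finset.range (NX X + 1), ap X m := Finset.sum_nonneg fun m _ => ap_nonneg hX m
        have h8 : 0 ≤ b - a := by linarith
        gcongr
    _ = _ := by
        have : Real.exp (3 * X) = Real.exp X ^ 3 := by rw [← Real.exp_nat_mul]; norm_num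
        rw [this]; ring

end Pool.Agent.Helper57.LH
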