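import Mathlib
import Pool.Agent.Helper57.LH.OmegaB
import Pool.Agent.Helper57.LH.Gam

namespace Pool.Agent.Helper57.LH

open Complex MeasureTheory Filter Topology

/-- logarithmic change of variables -/
noncomputable def Fu (X : ℝ) (z : ℂ) (u : ℝ) : ℂ := (Real.exp (-(1/4) * u) : ℂ) * Om X z (Real.exp (-u))

lemma en_deriv : ∀ x ∈ (Set.univ : Set ℝ), HasDerivWithinAt (fun u => Real.exp (-u)) (-Real.exp (-x)) Set.univ x := by
  intro x _
  have := ((Real.hasDerivAt_exp (-x)).comp x (hasDerivAt_neg x)).hasDerivWithinAt (s := Set.univ)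
  rw [mul_neg_one] at this
  exact this

lemma en_image : (fun u : ℝ => Real.exp (-u)) '' Set.univ = Set.Ioi 0 := by
  ext x
  simp only [Set.image_univ, Set.mem_range, Set.mem_Ioi]
  constructor
  · rintro ⟨y, rfl⟩; exact Real.exp_pos _
  · intro hx
    exact ⟨-Real.log x, by rw [neg_neg, Real.exp_log hx]⟩

lemma en_inj : Set.InjOn (fun u : ℝ => Real.exp (-u)) Set.univ := by
  intro a _ b _ h
  have := Real.exp_injective h
  linarith

lemma Fu_integrable {z : ℂ} (hz : 0 < z.re) (X : ℝ) : Integrable (Fu X z) := by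
  have h1 := (Om_mellin hz X (s := 1/4) (by norm_num) (by norm_num)).1
  unfold MellinConvergent at h1
  rw [← en_image, integrableOn_image_iff_integrableOn_abs_deriv_smul MeasurableSet.univ en_deriv en_inj] at h1
  rw [integrableOn_univ] at h1
  refine h1.congr (Eventually.of_forall fun u => ?_)
  simp only
  unfold Fu
  rw [abs_neg, abs_of_pos (Real.exp_pos _), smul_eq_mul, Complex.real_smul, ← mul_assoc]
  congr 1
  have e : (((Real.exp (-u) : ℝ)) : ℂ) ^ ((1/4 : ℂ) - 1) = ((Real.exp (3/4 * u) : ℝ) : ℂ) := by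
    have : ((1/4 : ℂ) - 1) = ((-(3/4) : ℝ) : ℂ) := by push_cast; norm_num
    rw [this, ← Complex.ofReal_cpow (Real.exp_pos _).le, ← Real.exp_mul]
    congr 2
    ring
  rw [e, ← Complex.ofReal_mul, ← Real.exp_add]
  congr 2
  ring

lemma FT_Fu {z : ℂ} (hz : 0 < z.re) (X : ℝ) (τ : ℝ) :
    FT (Fu X z) (-τ) = Mol X (2 * (1/4 + I * τ)) * (2 * z ^ (-(1/4 + I * τ) : ℂ) * completedRiemannZeta (2 * (1/4 + I * τ))) := by
  have h := (Om_mellin hz X (s := 1/4 + I * τ) (by simp) (by simp; norm_num)).2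
  rw [← h]
  unfold mellin FT
  rw [← en_image, integral_image_eq_integral_abs_deriv_smul MeasurableSet.univ en_deriv en_inj]
  rw [setIntegral_univ]
  refine integral_congr_ae (Eventually.of_forall fun u => ?_)
  simp only
  unfold Fu
  rw [abs_neg, abs_of_pos (Real.exp_pos _), smul_eq_mul, Complex.real_smul, ← mul_assoc, ← mul_assoc]
  congr 1
  have hne : (((Real.exp (-u) : ℝ)) : ℂ) ≠ 0 := by exact_mod_cast (Real.exp_pos _).ne'
  rw [Complex.cpow_def_of_ne_zero hne, ← Complex.ofReal_log (Real.exp_pos _).le, Real.log_exp]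
  push_cast
  rw [← Complex.exp_add, ← Complex.exp_add]
  congr 1
  ring

lemma lint_Fu {X : ℝ} {z : ℂ} (hX : 3 ≤ X) (hz : 0 < z.re) (hz1 : ‖z‖ = 1) (hzi : 1 / 2 ≤ |z.im|)
    (hXs : 20 * Real.log X ≤ Real.log (1 / z.re)) :
    ∫⁻ u, ENNReal.ofReal (‖Fu X z u‖ ^ 2) ≤
      ENNReal.ofReal (350 * Real.exp 1 * CQ * Real.log (1 / z.re) / (Real.sqrt z.re * Real.log X)) := by
  have hb1 := bound_large hX hz hz1 hzi hXs
  have hb2 := bound_small hX hz hz1 hzi hXs
  have himg : Real.exp '' Set.Ioi 0 = Set.Ioi 1 := by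
    ext x
    simp only [Set.mem_image, Set.mem_Ioi]
    constructor
    · rintro ⟨y, hy, rfl⟩; exact Real.one_lt_exp_iff.mpr hy
    · intro hx
      exact ⟨Real.log x, Real.log_pos hx, Real.exp_log (by linarith)⟩
  have hder : ∀ x ∈ Set.Ioi (0:ℝ), HasDerivWithinAt Real.exp (Real.exp x) (Set.Ioi 0) x :=
    fun x _ => (Real.hasDerivAt_exp x).hasDerivWithinAt
  have hinj : Set.InjOn Real.exp (Set.Ioi 0) := Real.exp_injective.injOn
  have h2 : ∫⁻ u in Set.Ioi (0:ℝ), ENNReal.ofReal (‖Fu X z u‖ ^ 2) =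
      ∫⁻ y in Set.Ioi (1:ℝ), ENNReal.ofReal (y ^ (-(3/2) : ℝ) * ‖Om X z (1 / y)‖ ^ 2) := by
    rw [← himg, lintegral_image_eq_lintegral_abs_deriv_mul measurableSet_Ioi hder hinj]
    refine setLIntegral_congr_fun measurableSet_Ioi fun u hu => ?_
    rw [← ENNReal.ofReal_mul (abs_nonneg _)]
    congr 1
    unfold Fu
    have e1 : 1 / Real.exp u = Real.exp (-u) := by rw [Real.exp_neg, one_div]
    rw [e1]
    rw [norm_mul, Complex.norm_real, Real.norm_of_nonneg (Real.exp_pos _).le, mul_pow, ← Real.exp_nat_mul,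
      abs_of_pos (Real.exp_pos _), ← Real.exp_mul]
    rw [← mul_assoc (Real.exp u), ← Real.exp_add]
    congr 2
    push_cast
    ring
  have h1 : ∫⁻ u in Set.Iio (0:ℝ), ENNReal.ofReal (‖Fu X z u‖ ^ 2) =
      ∫⁻ x in Set.Ioi (1:ℝ), ENNReal.ofReal (x ^ (-(1/2) : ℝ) * ‖Om X z x‖ ^ 2) := by
    have himg2 : (fun u : ℝ => Real.exp (-u)) '' Set.Iio 0 = Set.Ioi 1 := by
      ext x
      simp only [Set.mem_image, Set.mem_Iio, Set.mem_Ioi]
      constructor
      · rintro ⟨y, hy, rfl⟩; exact Real.one_lt_exp_iff.mpr (by linarith)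
      · intro hx
        refine ⟨-Real.log x, ?_, ?_⟩
        · have := Real.log_pos hx; linarith
        · rw [neg_neg, Real.exp_log (by linarith)]
    have hder2 : ∀ x ∈ Set.Iio (0:ℝ), HasDerivWithinAt (fun u : ℝ => Real.exp (-u)) (-Real.exp (-x)) (Set.Iio 0) x :=
      fun x _ => (en_deriv x (Set.mem_univ x)).mono (Set.subset_univ _)
    have hinj2 : Set.InjOn (fun u : ℝ => Real.exp (-u)) (Set.Iio 0) := en_inj.mono (Set.subset_univ _)
    rw [← himg2, lintegral_image_eq_lintegral_abs_deriv_mul measurableSet_Iio hder2 hinj2]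
    refine setLIntegral_congr_fun measurableSet_Iio fun u hu => ?_
    rw [← ENNReal.ofReal_mul (abs_nonneg _)]
    congr 1
    unfold Fu
    rw [norm_mul, Complex.norm_real, Real.norm_of_nonneg (Real.exp_pos _).le, mul_pow, ← Real.exp_nat_mul,
      abs_neg, abs_of_pos (Real.exp_pos _), ← Real.exp_mul]
    rw [← mul_assoc (Real.exp (-u)), ← Real.exp_add]
    congr 2
    push_cast
    ring
  have hsplit : ∫⁻ u, ENNReal.ofReal (‖Fu X z u‖ ^ 2) =
      (∫⁻ u in Set.Iio (0:ℝ), ENNReal.ofReal (‖Fu X z u‖ ^ 2)) + ∫⁻ u in Set.Ioi (0:ℝ), ENNReal.ofReal (‖Fu X z u‖ ^ 2) := by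
    rw [← lintegral_add_compl _ (measurableSet_Iio (a := (0:ℝ))), Set.compl_Iio,
      setLIntegral_congr (Ioi_ae_eq_Ici (a := (0:ℝ))).symm]
  have hlX : 1 ≤ Real.log X := by
    rw [Real.le_log_iff_exp_le (by linarith)]
    have := Real.exp_one_lt_d9
    linarith
  have hCQ := CQ_pos
  have hL : 0 ≤ Real.log (1 / z.re) := by linarith
  rw [hsplit, h1, h2]
  refine (add_le_add hb1 hb2).trans ?_
  rw [← ENNReal.ofReal_add (by positivity) (by positivity)]
  apply ENNReal.ofReal_le_ofReal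
  apply le_of_eq
  ring

lemma Fu_sq {X : ℝ} {z : ℂ} (hX : 3 ≤ X) (hz : 0 < z.re) (hz1 : ‖z‖ = 1) (hzi : 1 / 2 ≤ |z.im|)
    (hXs : 20 * Real.log X ≤ Real.log (1 / z.re)) :
    Integrable (fun u => ‖Fu X z u‖ ^ 2) ∧
    ∫ u, ‖Fu X z u‖ ^ 2 ≤ 350 * Real.exp 1 * CQ * Real.log (1 / z.re) / (Real.sqrt z.re * Real.log X) := by
  have h := lint_Fu hX hz hz1 hzi hXs
  have hm : AEStronglyMeasurable (fun u => ‖Fu X z u‖ ^ 2) volume :=
    ((Fu_integrable hz X).aestronglyMeasurable.norm).pow 2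
  have hlX : 1 ≤ Real.log X := by
    rw [Real.le_log_iff_exp_le (by linarith)]
    have := Real.exp_one_lt_d9
    linarith
  have hCQ := CQ_pos
  have hL : 0 ≤ Real.log (1 / z.re) := by linarith
  constructor
  · refine ⟨hm, ?_⟩
    rw [hasFiniteIntegral_iff_ofReal (Eventually.of_forall fun u => by positivity)]
    exact lt_of_le_of_lt h ENNReal.ofReal_lt_top
  · rw [integral_eq_lintegral_of_nonneg_ae (Eventually.of_forall fun u => by positivity) hm]
    apply ENNReal.toReal_le_of_le_ofReal (by positivity) h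

/-- the twist parameter -/
noncomputable def zT (T : ℝ) : ℂ := Complex.exp (((Real.pi / 2 - 1 / T : ℝ) : ℂ) * I)

lemma zT_re (T : ℝ) : (zT T).re = Real.sin (1 / T) := by
  unfold zT
  rw [Complex.exp_ofReal_mul_I_re, Real.cos_pi_div_two_sub]

lemma zT_im (T : ℝ) : (zT T).im = Real.cos (1 / T) := by
  unfold zT
  rw [Complex.exp_ofReal_mul_I_im, Real.sin_pi_div_two_sub]

lemma zT_norm (T : ℝ) : ‖zT T‖ = 1 := by
  unfold zT
  exact Complex.norm_exp_ofReal_mul_I _

lemma zT_arg {T : ℝ} (hT : 1 ≤ T) : (zT T).arg = Real.pi / 2 - 1 / T := by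
  unfold zT
  rw [Complex.arg_exp_mul_I, toIocMod_eq_self]
  have h1 : 1 / T ≤ 1 := by rw [div_le_one (by linarith)]; exact hT
  have h2 : 0 < 1 / T := by positivity
  have := Real.pi_gt_three
  constructor
  · linarith
  · linarith

/-- lower bound for the transform -/
lemma FT_lower {X T : ℝ} (hT : 2 ≤ T) {t : ℝ} (ht1 : 1 ≤ t) :
    ‖riemannZeta (1 / 2 + I * t) * Mol X (1 / 2 + I * t)‖ ^ 2 * Real.exp (-(2 * (t / T) ^ 2)) ≤
      Real.sqrt T * ‖FT (Fu X (zT T)) (-(t / 2))‖ ^ 2 := by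
  have hT0 : 0 < T := by linarith
  have ht0 : 0 < t := by linarith
  have hre : 0 < (zT T).re := by
    rw [zT_re]
    apply Real.sin_pos_of_pos_of_lt_pi (by positivity)
    have h1 : 1 / T ≤ 1 := by rw [div_le_one (by linarith)]; linarith
    linarith [Real.pi_gt_three]
  rw [FT_Fu hre]
  have e1 : (2 * (1 / 4 + I * ((t / 2 : ℝ) : ℂ)) : ℂ) = 1 / 2 + I * t := by push_cast; ring
  rw [e1]
  have hs0 : (1 / 2 + I * t : ℂ) ≠ 0 := by
    intro h
    have := congrArg Complex.re h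
    simp at this
  have hG : Gammaℝ (1 / 2 + I * t) ≠ 0 := Complex.Gammaℝ_ne_zero_of_re_pos (by simp)
  have hΛ : completedRiemannZeta (1 / 2 + I * t) = Gammaℝ (1 / 2 + I * t) * riemannZeta (1 / 2 + I * t) := by
    rw [riemannZeta_def_of_ne_zero hs0, mul_div_cancel₀ _ hG]
  rw [hΛ]
  have hGn : ‖Gammaℝ (1 / 2 + I * t)‖ ^ 2 = Real.pi ^ (-(1/2) : ℝ) * ‖Gamma (1 / 4 + I * ((t / 2 : ℝ) : ℂ))‖ ^ 2 := by
    rw [Complex.Gammaℝ_def, norm_mul, mul_pow, Complex.norm_cpow_eq_rpow_re_of_pos Real.pi_pos]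
    congr 1
    · rw [← Real.rpow_natCast, ← Real.rpow_mul Real.pi_pos.le]
      congr 1
      simp
    · congr 3
      push_cast
      ring
  have hGam := norm_Gamma_quarter_ge (y := t / 2) (by linarith)
  have hz0 : zT T ≠ 0 := by intro h; rw [h] at hre; simp at hre
  have hzp : ‖(zT T) ^ (-(1 / 4 + I * ((t / 2 : ℝ) : ℂ)) : ℂ)‖ = Real.exp ((Real.pi / 2 - 1 / T) * (t / 2)) := by
    rw [Complex.norm_cpow_of_ne_zero hz0, zT_norm, Real.one_rpow, zT_arg (by linarith), one_div, ← Real.exp_neg]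
    congr 1
    simp
  rw [norm_mul, norm_mul, norm_mul, norm_mul, norm_mul, hzp]
  have hpi : Real.pi ^ (-(1/2) : ℝ) = 1 / Real.sqrt Real.pi := by
    rw [Real.rpow_neg Real.pi_pos.le, ← Real.sqrt_eq_rpow, one_div]
  have hsqpi : Real.sqrt Real.pi ≤ 2 := by
    rw [Real.sqrt_le_left (by norm_num)]
    have := Real.pi_lt_d2
    norm_num at this ⊢
    linarith
  set a := ‖riemannZeta (1 / 2 + I * t)‖ with ha
  set m := ‖Mol X (1 / 2 + I * t)‖ with hm
  have h2 : ‖(2:ℂ)‖ = 2 := by norm_num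
  rw [h2]
  have hx0 : 0 < t / T := by positivity
  have hxx : Real.exp (-(2 * (t / T) ^ 2)) * Real.sqrt (t / T) ≤ Real.exp (-(t / T)) := by
    have h1 : t / T ≤ Real.exp (t / T - 1) := by
      have := Real.add_one_le_exp (t / T - 1); linarith
    have h2 : Real.sqrt (t / T) ≤ Real.exp ((t / T - 1) / 2) := by
      rw [Real.sqrt_le_left (Real.exp_pos _).le, ← Real.exp_nat_mul]
      refine h1.trans (le_of_eq ?_)
      congr 1
      push_cast; ring
    calc Real.exp (-(2 * (t / T) ^ 2)) * Real.sqrt (t / T) ≤ Real.exp (-(2 * (t / T) ^ 2)) * Real.exp ((t / T - 1) / 2) := by gcongr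
      _ = Real.exp (-(2 * (t / T) ^ 2) + (t / T - 1) / 2) := by rw [Real.exp_add]
      _ ≤ _ := by
          apply Real.exp_le_exp.mpr
          nlinarith [sq_nonneg (t / T - 3 / 8)]
  have key : Real.exp (-(2 * (t / T) ^ 2)) ≤ Real.sqrt T * (4 * Real.exp ((Real.pi / 2 - 1 / T) * (t / 2)) ^ 2 * ‖Gammaℝ (1 / 2 + I * t)‖ ^ 2) := by
    rw [hGn, hpi]
    have h3 : Real.exp ((Real.pi / 2 - 1 / T) * (t / 2)) ^ 2 * Real.exp (-(Real.pi * (t / 2))) = Real.exp (-(t / T)) := by
      rw [← Real.exp_nat_mul, ← Real.exp_add]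
      congr 1
      push_cast; field_simp; ring
    have h4 : 0 < Real.sqrt (t / 2) := Real.sqrt_pos.mpr (by linarith)
    have h5 : Real.sqrt (t / 2) ≤ Real.sqrt t := Real.sqrt_le_sqrt (by linarith)
    have h6 : 0 < Real.sqrt Real.pi := Real.sqrt_pos.mpr Real.pi_pos
    have h7 : 0 < Real.sqrt T := Real.sqrt_pos.mpr hT0
    have h8 : 0 < Real.sqrt t := Real.sqrt_pos.mpr ht0
    have h9 : Real.sqrt (t / T) = Real.sqrt t / Real.sqrt T := Real.sqrt_div ht0.le _
    rw [h9] at hxx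
    have h10 : Real.exp (-(2 * (t / T) ^ 2)) ≤ Real.sqrt T * (Real.exp (-(t / T)) / Real.sqrt t) := by
      calc Real.exp (-(2 * (t / T) ^ 2)) = (Real.exp (-(2 * (t / T) ^ 2)) * (Real.sqrt t / Real.sqrt T)) * (Real.sqrt T / Real.sqrt t) := by
            field_simp
        _ ≤ Real.exp (-(t / T)) * (Real.sqrt T / Real.sqrt t) := by gcongr
        _ = _ := by ring
    calc Real.exp (-(2 * (t / T) ^ 2)) ≤ Real.sqrt T * (Real.exp (-(t / T)) / Real.sqrt t) := h10
      _ ≤ Real.sqrt T * (4 * (1 / 2) * (Real.exp (-(t / T)) / Real.sqrt t)) := by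
          have : 0 ≤ Real.exp (-(t / T)) / Real.sqrt t := by positivity
          gcongr
          linarith
      _ ≤ Real.sqrt T * (4 * (1 / Real.sqrt Real.pi) * (Real.exp (-(t / T)) / Real.sqrt (t / 2))) := by gcongr
      _ = Real.sqrt T * (4 * (1 / Real.sqrt Real.pi) *
          ((Real.exp ((Real.pi / 2 - 1 / T) * (t / 2)) ^ 2 * Real.exp (-(Real.pi * (t / 2)))) / Real.sqrt (t / 2))) := by
          rw [h3]
      _ = Real.sqrt T * (4 * Real.exp ((Real.pi / 2 - 1 / T) * (t / 2)) ^ 2 *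
          (1 / Real.sqrt Real.pi * (Real.exp (-(Real.pi * (t / 2))) / Real.sqrt (t / 2)))) := by ring
      _ ≤ _ := by gcongr
  calc (a * m) ^ 2 * Real.exp (-(2 * (t / T) ^ 2))
      ≤ (a * m) ^ 2 * (Real.sqrt T * (4 * Real.exp ((Real.pi / 2 - 1 / T) * (t / 2)) ^ 2 * ‖Gammaℝ (1 / 2 + I * t)‖ ^ 2)) := by
        gcongr
    _ = _ := by ring

/-- mollified second moment on the critical line -/
theorem second_moment : ∃ C : ℝ, 0 < C ∧ ∀ T X R : ℝ, 2 ≤ T → 3 ≤ X → 20 * Real.log X ≤ Real.log T → 1 ≤ R →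
    ∫ t in (1:ℝ)..R, ‖riemannZeta (1 / 2 + I * t) * Mol X (1 / 2 + I * t)‖ ^ 2 * Real.exp (-(2 * (t / T) ^ 2)) ≤
      C * T * (Real.log T / Real.log X) := by
  refine ⟨2 * (2 * Real.pi * (350 * Real.exp 1 * CQ * 4)), by have := CQ_pos; positivity, ?_⟩
  intro T X R hT hX hXT hR
  have hT0 : 0 < T := by linarith
  have hlX : 1 ≤ Real.log X := by
    rw [Real.le_log_iff_exp_le (by linarith)]
    have := Real.exp_one_lt_d9
    linarith
  have hCQ := CQ_pos
  have hlT : 0 < Real.log T := by linarith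
  have hTi : 1 / T ≤ 1 / 2 := one_div_le_one_div_of_le (by norm_num) hT
  have hTi0 : 0 < 1 / T := by positivity
  have hsin1 : Real.sin (1 / T) ≤ 1 / T := Real.sin_le hTi0.le
  have hsin2 : 1 / (2 * T) ≤ Real.sin (1 / T) := by
    have h1 := Real.mul_le_sin hTi0.le (by linarith [Real.pi_gt_three])
    have h2 : 1 / 2 ≤ 2 / Real.pi := by
      rw [div_le_div_iff₀ (by norm_num) Real.pi_pos]
      linarith [Real.pi_lt_d2]
    calc 1 / (2 * T) = 1 / 2 * (1 / T) := by ring
      _ ≤ 2 / Real.pi * (1 / T) := by gcongr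
      _ ≤ _ := h1
  have hre : 0 < (zT T).re := by rw [zT_re]; exact lt_of_lt_of_le (by positivity) hsin2
  have him : 1 / 2 ≤ |(zT T).im| := by
    rw [zT_im]
    have : 1 / 2 ≤ Real.cos (1 / T) := by
      have h1 := Real.one_sub_sq_div_two_le_cos (x := 1 / T)
      nlinarith
    exact this.trans (le_abs_self _)
  have hXs : 20 * Real.log X ≤ Real.log (1 / (zT T).re) := by
    refine hXT.trans ?_
    apply Real.log_le_log hT0
    rw [le_div_iff₀ hre, zT_re]
    calc T * Real.sin (1 / T) ≤ T * (1 / T) := by gcongr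
      _ = 1 := by field_simp
  have hFi := Fu_integrable hre X
  have hFs := Fu_sq hX hre (zT_norm T) him hXs
  set A := 350 * Real.exp 1 * CQ * Real.log (1 / (zT T).re) / (Real.sqrt (zT T).re * Real.log X) with hA
  have hpl := planch hFi hFs.1 (a := -(R / 2)) (b := -(1 / 2)) (by linarith)
  have hcont : Continuous (fun t : ℝ => ‖FT (Fu X (zT T)) (-(t / 2))‖ ^ 2) := by
    have := continuous_FT hFi
    fun_prop
  have hsub : ∫ t in (1:ℝ)..R, ‖FT (Fu X (zT T)) (-(t / 2))‖ ^ 2 =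
      2 * ∫ τ in (-(R / 2))..(-(1 / 2)), ‖FT (Fu X (zT T)) τ‖ ^ 2 := by
    have h1 := intervalIntegral.integral_comp_mul_left (a := 1) (b := R)
      (fun τ => ‖FT (Fu X (zT T)) τ‖ ^ 2) (c := -(1/2)) (by norm_num)
    have h2 : ∀ t : ℝ, -(1/2) * t = -(t / 2) := fun t => by ring
    simp_rw [h2] at h1
    rw [h1, intervalIntegral.integral_symm]
    rw [smul_eq_mul]
    norm_num
  have hL : ∫ t in (1:ℝ)..R, ‖riemannZeta (1 / 2 + I * t) * Mol X (1 / 2 + I * t)‖ ^ 2 * Real.exp (-(2 * (t / T) ^ 2)) ≤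
      ∫ t in (1:ℝ)..R, Real.sqrt T * ‖FT (Fu X (zT T)) (-(t / 2))‖ ^ 2 := by
    apply intervalIntegral.integral_mono_on (by linarith)
    · apply ContinuousOn.intervalIntegrable
      intro t _
      apply ContinuousAt.continuousWithinAt
      have hne : (1 / 2 + I * t : ℂ) ≠ 1 := by
        intro h
        have := congrArg Complex.re h
        simp at this
      have hz : ContinuousAt (fun t : ℝ => riemannZeta (1 / 2 + I * t)) t :=
        ContinuousAt.comp (f := fun t : ℝ => (1 / 2 + I * t : ℂ)) (differentiableAt_riemannZeta hne).continuousAt (by fun_prop)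
      have hm : ContinuousAt (fun t : ℝ => Mol X (1 / 2 + I * t)) t := by
        unfold Mol
        apply tendsto_finsetSum
        intro h hh
        rw [Finset.mem_Ioc] at hh
        have hh0 : (h:ℂ) ≠ 0 := by exact_mod_cast hh.1.ne'
        apply Tendsto.const_mul
        exact ContinuousAt.const_cpow (f := fun t : ℝ => -(1 / 2 + I * t : ℂ)) (by fun_prop) (Or.inl hh0)
      exact (((hz.mul hm).norm).pow 2).mul (by fun_prop)
    · exact (hcont.const_mul _).intervalIntegrable _ _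
    · intro t ht
      exact FT_lower hT ht.1
  rw [intervalIntegral.integral_const_mul, hsub] at hL
  refine hL.trans ?_
  have hA2 : A ≤ 350 * Real.exp 1 * CQ * 4 * (Real.sqrt T * (Real.log T / Real.log X)) := by
    rw [hA]
    have h1 : Real.log (1 / (zT T).re) ≤ 2 * Real.log T := by
      have : 1 / (zT T).re ≤ T ^ 2 := by
        rw [div_le_iff₀ hre, zT_re]
        calc (1:ℝ) ≤ T ^ 2 * (1 / (2 * T)) := by
              have : T ^ 2 * (1 / (2 * T)) = T / 2 := by field_simp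
              rw [this]; linarith
          _ ≤ _ := by gcongr
      calc Real.log (1 / (zT T).re) ≤ Real.log (T ^ 2) := Real.log_le_log (by positivity) this
        _ = 2 * Real.log T := by rw [Real.log_pow]; norm_num
    have h2 : 1 / Real.sqrt (zT T).re ≤ 2 * Real.sqrt T := by
      have h3 : Real.sqrt (1 / (2 * T)) ≤ Real.sqrt (zT T).re := by
        apply Real.sqrt_le_sqrt; rw [zT_re]; exact hsin2
      have h4 : 0 < Real.sqrt (1 / (2 * T)) := Real.sqrt_pos.mpr (by positivity)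
      calc 1 / Real.sqrt (zT T).re ≤ 1 / Real.sqrt (1 / (2 * T)) := one_div_le_one_div_of_le h4 h3
        _ = Real.sqrt (2 * T) := by
            rw [Real.sqrt_div zero_le_one, Real.sqrt_one, one_div_one_div]
        _ = Real.sqrt 2 * Real.sqrt T := Real.sqrt_mul (by norm_num) _
        _ ≤ 2 * Real.sqrt T := by
            gcongr
            rw [Real.sqrt_le_left (by norm_num)]; norm_num
    have h3 : 0 ≤ Real.log (1 / (zT T).re) := by linarith
    calc 350 * Real.exp 1 * CQ * Real.log (1 / (zT T).re) / (Real.sqrt (zT T).re * Real.log X)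
        = 350 * Real.exp 1 * CQ * (1 / Real.sqrt (zT T).re) * (Real.log (1 / (zT T).re) / Real.log X) := by
          have := Real.sqrt_pos.mpr hre
          field_simp
      _ ≤ 350 * Real.exp 1 * CQ * (2 * Real.sqrt T) * (2 * Real.log T / Real.log X) := by gcongr
      _ = _ := by ring
  have h5 : ∫ τ in (-(R / 2))..(-(1 / 2)), ‖FT (Fu X (zT T)) τ‖ ^ 2 ≤
      2 * Real.pi * (350 * Real.exp 1 * CQ * 4 * (Real.sqrt T * (Real.log T / Real.log X))) := by
    refine hpl.trans ?_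
    have := Real.pi_pos
    gcongr
    exact hFs.2.trans hA2
  calc Real.sqrt T * (2 * ∫ τ in (-(R / 2))..(-(1 / 2)), ‖FT (Fu X (zT T)) τ‖ ^ 2)
      ≤ Real.sqrt T * (2 * (2 * Real.pi * (350 * Real.exp 1 * CQ * 4 * (Real.sqrt T * (Real.log T / Real.log X))))) := by
        gcongr
    _ = 2 * (2 * Real.pi * (350 * Real.exp 1 * CQ * 4)) * (Real.sqrt T * Real.sqrt T) * (Real.log T / Real.log X) := by ring
    _ = _ := by rw [Real.mul_self_sqrt hT0.le]

end Pool.Agent.Helper57.LH
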