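import Pool.Agent.Helper57.LH.EThree
import Pool.Agent.Helper57.LH.Prime

namespace Pool.Agent.Helper57.LH

open Set MeasureTheory Filter Topology
open Pool.Agent.Helper57.Zeta

/-- growth constant, logarithmic version -/
noncomputable def CLA : ℝ := 2 * CA + 13 + |(Real.log Real.pi + Real.eulerMascheroniConstant) / 2| + ∑' n, cV n

lemma CLA_pos : 0 < CLA := by
  unfold CLA
  have h1 := CA_nonneg
  have h2 : 0 ≤ ∑' n, cV n := tsum_nonneg cV_nonneg
  have h3 := abs_nonneg ((Real.log Real.pi + Real.eulerMascheroniConstant) / 2)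
  linarith

lemma one_le_log {T : ℝ} (hT : 3 ≤ T) : 1 ≤ Real.log T := by
  rw [Real.le_log_iff_exp_le (by linarith)]
  have := Real.exp_one_lt_d9; linarith

lemma Afun_log {T u : ℝ} (hT : 3 ≤ T) (hu0 : 0 ≤ u) (huT : u ≤ T) : Afun u ≤ CLA * Real.log T := by
  have hL1 := one_le_log hT
  have hsum : 0 ≤ ∑' n, cV n := tsum_nonneg cV_nonneg
  have hK0 := abs_nonneg ((Real.log Real.pi + Real.eulerMascheroniConstant) / 2)
  have hCA := CA_nonneg
  rcases le_total u 1 with h | h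
  · have h2 : Afun u ≤ CA * wg u := (le_abs_self _).trans (Afun_bound u)
    have h3 : wg u ≤ 2 := by
      unfold wg
      rw [abs_of_nonneg hu0, Real.sqrt_le_left (by norm_num)]
      linarith
    have h4 : CA * wg u ≤ CA * 2 := by gcongr
    have h5 : 2 * CA ≤ CLA := by unfold CLA; linarith
    have h6 : CLA * 1 ≤ CLA * Real.log T := by
      have := CLA_pos
      gcongr
    linarith
  · rw [Afun_eq']
    have h1 := Dn_sum h
    have h1' : ∑' n, Dn n u ≤ Real.log u + 20 := by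
      have := (abs_le.mp h1).2
      linarith
    have h2 : |∑' n : ℕ, cV n * Real.cos (Real.log n * u)| ≤ (∑' n, cV n) * 1 := tsum_bound cV_summable (fun n => by
      rw [abs_mul, abs_of_nonneg (cV_nonneg n)]
      have := Real.abs_cos_le_one (Real.log n * u)
      have := cV_nonneg n
      gcongr)
    have h2' := (abs_le.mp h2).1
    have h3 : 2 / (2 ^ 2 + u ^ 2) ≤ 1 := by
      rw [div_le_one (by positivity)]
      nlinarith [sq_nonneg u]
    have h4 : 1 / (1 ^ 2 + u ^ 2) ≤ 1 := by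
      rw [div_le_one (by positivity)]
      nlinarith [sq_nonneg u]
    have h5 := neg_abs_le ((Real.log Real.pi + Real.eulerMascheroniConstant) / 2)
    have h6 : Real.log u ≤ Real.log T := Real.log_le_log (by linarith) huT
    set K := |(Real.log Real.pi + Real.eulerMascheroniConstant) / 2| with hK
    have h7 : CLA * Real.log T ≥ (13 + K + ∑' n, cV n) * Real.log T := by
      have : 13 + K + ∑' n, cV n ≤ CLA := by unfold CLA; linarith
      have h0 : 0 ≤ Real.log T := by linarith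
      gcongr
    have h8 : (13 + K + ∑' n, cV n) * Real.log T ≥ 13 * Real.log T + K + ∑' n, cV n := by nlinarith
    linarith

/-- the finite Fejer sum over zeros -/
noncomputable def Yf (F : Finset ZS) (X t : ℝ) : ℝ := ∑ ρ ∈ F, mx ρ * gs X 0 (t - (ρ:ℂ).im)

lemma gs_cont (X v : ℝ) : Continuous (gs X v) := by
  have e : gs X v = fun w => 2 / X * ∫ x in (0:ℝ)..X, (1 - x / X) * (Real.cosh (v * x) * Real.cos (w * x)) := funext (gs_eq X v)
  rw [e]
  apply continuous_const.mul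
  apply intervalIntegral.continuous_parametric_intervalIntegral_of_continuous'
  simp only [Function.uncurry_def]
  fun_prop

lemma Yf_cont (F : Finset ZS) (X : ℝ) : Continuous (Yf F X) := by
  unfold Yf
  apply continuous_finsetSum
  intro ρ _
  exact continuous_const.mul ((gs_cont X 0).comp (by fun_prop))

lemma Yf_nonneg (F : Finset ZS) {X : ℝ} (hX : 0 < X) (t : ℝ) : 0 ≤ Yf F X t := by
  unfold Yf
  exact Finset.sum_nonneg fun ρ _ => mul_nonneg (mx_nonneg _) (gs_zero_nonneg hX _)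

lemma Kd_le_one {X : ℝ} (hX : 1 ≤ X) (w : ℝ) : Kd X w ≤ (1 + w ^ 2)⁻¹ := by
  unfold Kd
  have h1 : w ^ 2 ≤ (X * w) ^ 2 := by
    rw [mul_pow]
    have : 1 ≤ X ^ 2 := by nlinarith
    nlinarith [sq_nonneg w]
  gcongr

lemma Yf_le_log {F : Finset ZS} {T X : ℝ} (hT : 3 ≤ T) (hX : 1 ≤ X) (hF : ∀ ρ ∈ F, 0 ≤ (ρ:ℂ).im ∧ (ρ:ℂ).im ≤ T) (t : ℝ) :
    Yf F X t ≤ 20 * CLA * Real.log T := by
  have hX0 : 0 < X := by linarith
  set s := max 0 (min t T) with hs
  have hs0 : 0 ≤ s := le_max_left _ _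
  have hsT : s ≤ T := max_le (by linarith) (min_le_right _ _)
  have hA := Afun_log hT hs0 hsT
  have h1 : ∑ ρ ∈ F, fz ρ s ≤ Afun s := sum_le_hasSum F (fun i _ => fz_nonneg i s) (fz_hasSum s)
  have h2 : Yf F X t ≤ ∑ ρ ∈ F, 20 * fz ρ s := by
    unfold Yf
    refine Finset.sum_le_sum fun ρ hρ => ?_
    have hr := zs_re ρ
    obtain ⟨hg0, hgT⟩ := hF ρ hρ
    have hm := mx_nonneg (ρ:ℂ)
    have h3 : gs X 0 (t - (ρ:ℂ).im) ≤ 5 * (1 + (t - (ρ:ℂ).im) ^ 2)⁻¹ :=
      (gs_zero_decay hX0 _).trans (by have := Kd_le_one hX (t - (ρ:ℂ).im); linarith)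
    have h4 : (s - (ρ:ℂ).im) ^ 2 ≤ (t - (ρ:ℂ).im) ^ 2 := by
      rw [sq_le_sq]
      rcases le_total t 0 with h | h
      · have e1 : s = 0 := by
          rw [hs, min_eq_left (by linarith), max_eq_left h]
        rw [e1, abs_of_nonpos (by linarith), abs_of_nonpos (by linarith)]
        linarith
      · rcases le_total t T with h' | h'
        · have e1 : s = t := by
            rw [hs, min_eq_left h', max_eq_right h]
          rw [e1]
        · have e1 : s = T := by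
            rw [hs, min_eq_right h', max_eq_right (by linarith)]
          rw [e1, abs_of_nonneg (by linarith), abs_of_nonneg (by linarith)]
          linarith
    have h5 : 5 * (1 + (t - (ρ:ℂ).im) ^ 2)⁻¹ ≤ 5 * (1 + (s - (ρ:ℂ).im) ^ 2)⁻¹ := by gcongr
    unfold fz
    set a := 2 - (ρ:ℂ).re with ha
    have ha1 : 1 < a := by rw [ha]; linarith
    have ha2 : a < 2 := by rw [ha]; linarith
    set w := s - (ρ:ℂ).im with hw
    have h6 : 5 * (1 + w ^ 2)⁻¹ ≤ 20 * (a / (a ^ 2 + w ^ 2)) := by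
      rw [← div_eq_mul_inv, ← mul_div_assoc, div_le_div_iff₀ (by positivity) (by positivity)]
      nlinarith [sq_nonneg w]
    calc mx ρ * gs X 0 (t - (ρ:ℂ).im) ≤ mx ρ * (20 * (a / (a ^ 2 + w ^ 2))) := by
          gcongr
          exact h3.trans (h5.trans h6)
      _ = _ := by ring
  rw [← Finset.mul_sum] at h2
  have : CLA * Real.log T ≥ 0 := by
    have := CLA_pos
    have := one_le_log hT
    positivity
  nlinarith

/-- far-away decay against the fixed integrable majorant -/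
lemma Kd_far {X M w : ℝ} (hX : 1 ≤ X) (hM : 1 ≤ M) (hw : M ≤ |w|) : Kd X w ≤ 4 * M ^ (-(3/4) : ℝ) * wf w := by
  have hw1 : 1 ≤ |w| := hM.trans hw
  have hw0 : 0 < |w| := by linarith
  refine (Kd_le_one hX w).trans ?_
  have h1 : (1 + w ^ 2)⁻¹ ≤ (|w| ^ 2)⁻¹ := by
    rw [sq_abs]
    have : 0 < w ^ 2 := by rw [← sq_abs]; positivity
    gcongr
    linarith
  have h2 : (|w| ^ 2)⁻¹ = |w| ^ (-(3/4) : ℝ) * |w| ^ (-(5/4) : ℝ) := by
    rw [← Real.rpow_add hw0, ← Real.rpow_natCast, ← Real.rpow_neg hw0.le]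
    norm_num
  have h3 : |w| ^ (-(3/4) : ℝ) ≤ M ^ (-(3/4) : ℝ) := Real.rpow_le_rpow_of_nonpos (by linarith) hw (by norm_num)
  have h4 : |w| ^ (-(5/4) : ℝ) ≤ 4 * wf w := by
    unfold wf
    rw [Real.norm_eq_abs]
    have h5 : (1 + |w|) ^ (-(5/4) : ℝ) ≥ (2 * |w|) ^ (-(5/4) : ℝ) := Real.rpow_le_rpow_of_nonpos (by linarith) (by linarith) (by norm_num)
    rw [Real.mul_rpow (by norm_num) hw0.le] at h5
    have h6 : (1/4 : ℝ) ≤ (2:ℝ) ^ (-(5/4) : ℝ) := by
      have : (2:ℝ) ^ (-(2) : ℝ) ≤ (2:ℝ) ^ (-(5/4) : ℝ) := Real.rpow_le_rpow_of_exponent_le (by norm_num) (by norm_num)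
      have e : (2:ℝ) ^ (-(2) : ℝ) = 1/4 := by
        rw [Real.rpow_neg (by norm_num)]
        norm_num
      linarith
    have h7 : 0 ≤ |w| ^ (-(5/4) : ℝ) := by positivity
    nlinarith
  calc (1 + w ^ 2)⁻¹ ≤ |w| ^ (-(3/4) : ℝ) * |w| ^ (-(5/4) : ℝ) := h1.trans h2.le
    _ ≤ M ^ (-(3/4) : ℝ) * (4 * wf w) := by gcongr
    _ = _ := by ring

end Pool.Agent.Helper57.LH
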