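import Pool.Agent.Helper57.LH.VOne

namespace Pool.Agent.Helper57.LH

open Set MeasureTheory Filter Topology
open Pool.Agent.Helper57.Zeta

/-- the main region -/
lemma main_region {T L B X a e W : ℝ} (hL : L = Real.log T) (hL40 : 40 ≤ L) (hB : 9600 ≤ B) (hX : X = L / B) (hX1 : 1 ≤ X)
    (ha : 20 ≤ a) (haT : a ≤ T) {Ψ : ℝ → ℝ} (hΨc : Continuous Ψ) (hΨ : DomPsi T B Ψ)
    (he0 : 0 ≤ e) (he : ∀ t ∈ Icc a T, |MT X t / X - B| ≤ e) (hW : ∫ t in Icc a T, (16 * RB T L B X Ψ t) ^ 2 ≤ W) (F : Finset ZS) :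
    ∫ t in Icc a T, Yf F X t ^ 2 ≤ B ^ 2 * T + 2 * B * (e * T + 12 * Real.exp X + Real.sqrt T * Real.sqrt W) +
      3 * (e ^ 2 * T + (8 * T + 32 * Real.exp (3 * X)) + W) := by
  have hX0 : 0 < X := by linarith
  have hB0 : 0 < B := by linarith
  have hL0 : 0 < L := by linarith
  have ha0 : 0 < a := by linarith
  have hT0 : 0 < T := by linarith
  obtain ⟨R, hR⟩ : ∃ R : ℝ → ℝ, R = fun t => 16 * RB T L B X Ψ t := ⟨_, rfl⟩
  have hRc : ContinuousOn R (Icc a T) := by
    rw [hR]; exact continuousOn_const.mul (RB_contOn ha0 hΨc)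
  have hW' : ∫ t in Icc a T, R t ^ 2 ≤ W := by rw [hR]; exact hW
  have hPc : ContinuousOn (PS X) (Icc a T) := (PS_cont hX0).continuousOn
  have iR : IntegrableOn R (Icc a T) := hRc.integrableOn_compact isCompact_Icc
  have iP : IntegrableOn (PS X) (Icc a T) := hPc.integrableOn_compact isCompact_Icc
  have iR2 : IntegrableOn (fun t => R t ^ 2) (Icc a T) := (hRc.pow 2).integrableOn_compact isCompact_Icc
  have iP2 : IntegrableOn (fun t => PS X t ^ 2) (Icc a T) := (hPc.pow 2).integrableOn_compact isCompact_Icc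
  have ic : ∀ c : ℝ, IntegrableOn (fun _ : ℝ => c) (Icc a T) := fun c => (continuousOn_const).integrableOn_compact isCompact_Icc
  -- pointwise
  have hpt : ∀ t ∈ Icc a T, Yf F X t ^ 2 ≤ (B ^ 2 + 2 * B * e + 3 * e ^ 2) + ((2 * B) * (R t) + ((-(2 * B)) * (PS X t) + (3 * PS X t ^ 2 + 3 * R t ^ 2))) := by
    intro t ht
    have h1 := Y_le hL hL40 hB hX hX1 (ha.trans ht.1) ht.2 hΨc hΨ F
    have h2 := (abs_le.mp (he t ht)).2
    have h3 : Yf F X t ≤ B + (e - PS X t + R t) := by
      unfold Yf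
      rw [hR]
      simp only
      linarith
    have h4 := Yf_nonneg F hX0 t
    have h5 : Yf F X t ^ 2 ≤ (B + (e - PS X t + R t)) ^ 2 := pow_le_pow_left₀ h4 h3 2
    nlinarith [sq_nonneg (e + PS X t), sq_nonneg (e - R t), sq_nonneg (PS X t + R t)]
  have h1 : ∫ t in Icc a T, Yf F X t ^ 2 ≤ ∫ t in Icc a T, ((B ^ 2 + 2 * B * e + 3 * e ^ 2) + ((2 * B) * (R t) + ((-(2 * B)) * (PS X t) + (3 * PS X t ^ 2 + 3 * R t ^ 2)))) := by
    apply setIntegral_mono_on
    · exact ((Yf_cont F X).pow 2).continuousOn.integrableOn_compact isCompact_Icc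
    · exact (ic _).add ((iR.const_mul _).add ((iP.const_mul _).add ((iP2.const_mul _).add (iR2.const_mul _))))
    · exact measurableSet_Icc
    · exact hpt
  have e1 := integral_add (μ := volume.restrict (Icc a T)) (f := fun t => (B ^ 2 + 2 * B * e + 3 * e ^ 2))
    (g := fun t => ((2 * B) * (R t) + ((-(2 * B)) * (PS X t) + (3 * PS X t ^ 2 + 3 * R t ^ 2)))) (ic _)
    ((iR.const_mul _).add ((iP.const_mul _).add ((iP2.const_mul _).add (iR2.const_mul _))))
  have e2 := integral_add (μ := volume.restrict (Icc a T)) (f := fun t => (2 * B) * (R t))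
    (g := fun t => ((-(2 * B)) * (PS X t) + (3 * PS X t ^ 2 + 3 * R t ^ 2))) (iR.const_mul _)
    ((iP.const_mul _).add ((iP2.const_mul _).add (iR2.const_mul _)))
  have e3 := integral_add (μ := volume.restrict (Icc a T)) (f := fun t => (-(2 * B)) * (PS X t))
    (g := fun t => (3 * PS X t ^ 2 + 3 * R t ^ 2)) (iP.const_mul _) ((iP2.const_mul _).add (iR2.const_mul _))
  have e4 := integral_add (μ := volume.restrict (Icc a T)) (f := fun t => 3 * PS X t ^ 2)
    (g := fun t => 3 * R t ^ 2) (iP2.const_mul _) (iR2.const_mul _)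
  rw [e1, e2, e3, e4, integral_const_mul, integral_const_mul, integral_const_mul, integral_const_mul, setIntegral_const,
    Real.volume_real_Icc_of_le haT, smul_eq_mul] at h1
  -- the prime sums
  have hP1 : |∫ t in Icc a T, PS X t| ≤ 12 * Real.exp X := by
    rw [integral_Icc_eq_integral_Ioc, ← intervalIntegral.integral_of_le haT]
    exact PS_mean hX0 a T
  have hP2 : ∫ t in Icc a T, PS X t ^ 2 ≤ 8 * (T - a) + 32 * Real.exp (3 * X) := by
    rw [integral_Icc_eq_integral_Ioc, ← intervalIntegral.integral_of_le haT]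
    exact PS_sq hX0 haT
  -- Cauchy-Schwarz
  have hR1 : ∫ t in Icc a T, R t ≤ Real.sqrt T * Real.sqrt W := by
    have hR0 : ∀ t ∈ Icc a T, 0 ≤ R t := by
      intro t ht
      have := RB_nonneg (T := T) (L := L) (B := B) (X := X) hL0.le Ψ (t := t) (by have := ht.1; linarith)
      rw [hR]
      simp only
      linarith
    have hcs := cs_gen (μ := volume.restrict (Icc a T)) (f := fun _ => (1:ℝ)) (g := fun t => |R t|) (fun _ => zero_le_one)
      (fun t => abs_nonneg _) aestronglyMeasurable_const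
      ((hRc.aestronglyMeasurable measurableSet_Icc).norm) (by simp) (by
        simp_rw [sq_abs]
        exact iR2)
    simp only [one_mul, one_pow, sq_abs] at hcs
    have e5 : ∫ t in Icc a T, R t = ∫ t in Icc a T, |R t| := by
      apply setIntegral_congr_fun measurableSet_Icc
      intro t ht
      simp only
      rw [abs_of_nonneg (hR0 t ht)]
    rw [e5]
    refine hcs.trans ?_
    rw [setIntegral_const, Real.volume_real_Icc_of_le haT, smul_eq_mul, mul_one]
    apply mul_le_mul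
    · apply Real.sqrt_le_sqrt; linarith
    · exact Real.sqrt_le_sqrt hW'
    · exact Real.sqrt_nonneg _
    · exact Real.sqrt_nonneg _
  have hP1' := (abs_le.mp hP1).1
  have hP1'' : -(2 * B) * ∫ t in Icc a T, PS X t ≤ 2 * B * (12 * Real.exp X) := by nlinarith
  have hR1' : 2 * B * ∫ t in Icc a T, R t ≤ 2 * B * (Real.sqrt T * Real.sqrt W) := by gcongr
  have h2 : (T - a) * (B ^ 2 + 2 * B * e + 3 * e ^ 2) ≤ T * (B ^ 2 + 2 * B * e + 3 * e ^ 2) := by
    have : 0 ≤ B ^ 2 + 2 * B * e + 3 * e ^ 2 := by positivity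
    nlinarith
  linarith

lemma Kd_nonneg' (X w : ℝ) : 0 ≤ Kd X w := (Kd_pos X w).le

lemma Yf_sq_integrable (F : Finset ZS) {X : ℝ} (hX : 1 ≤ X) : Integrable (fun t => Yf F X t ^ 2) := by
  have hX0 : 0 < X := by linarith
  have hG : Integrable (fun t => (∑ ρ ∈ F, mx ρ) * ∑ ρ ∈ F, mx ρ * (5 * Kd X (t - (ρ:ℂ).im))) := by
    apply Integrable.const_mul
    apply integrable_finsetSum
    intro ρ _
    exact (((Kd_integrable hX0).comp_sub_right _).const_mul 5).const_mul _
  refine hG.mono' ((Yf_cont F X).pow 2).aestronglyMeasurable ?_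
  filter_upwards with t
  rw [Real.norm_of_nonneg (by positivity), pow_two]
  have h1 : Yf F X t ≤ ∑ ρ ∈ F, mx ρ := by
    unfold Yf
    refine Finset.sum_le_sum fun ρ _ => ?_
    have := gs_zero_le_one hX0 (t - (ρ:ℂ).im)
    have := mx_nonneg (ρ:ℂ)
    nlinarith
  have h2 : Yf F X t ≤ ∑ ρ ∈ F, mx ρ * (5 * Kd X (t - (ρ:ℂ).im)) := by
    unfold Yf
    refine Finset.sum_le_sum fun ρ _ => ?_
    have := gs_zero_decay hX0 (t - (ρ:ℂ).im)
    have := mx_nonneg (ρ:ℂ)
    gcongr
  have h3 := Yf_nonneg F hX0 t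
  apply mul_le_mul h1 h2 h3 (h3.trans h1)

/-- the complementary region -/
lemma compl_region {T X a M : ℝ} (hT : 3 ≤ T) (hX : 1 ≤ X) (hM : 1 ≤ M) (ha : 0 ≤ a) {F : Finset ZS}
    (hF : ∀ ρ ∈ F, 0 ≤ (ρ:ℂ).im ∧ (ρ:ℂ).im ≤ T) :
    ∫ t in (Icc a T)ᶜ, Yf F X t ^ 2 ≤ (20 * CLA * Real.log T) ^ 2 * (a + 2 * M) +
      400 * CLA * Real.log T * M ^ (-(3/4) : ℝ) * (∑ ρ ∈ F, mx ρ) * C1 := by
  have hX0 : 0 < X := by linarith
  have hCLA := CLA_pos
  have hL := one_le_log hT
  set c := 20 * CLA * Real.log T with hc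
  have hc0 : 0 < c := by rw [hc]; positivity
  set S : Set ℝ := Icc (-M) a ∪ Icc T (T + M) with hS
  have hSm : MeasurableSet S := measurableSet_Icc.union measurableSet_Icc
  have hSv : volume S < ⊤ := by
    refine (measure_union_le _ _).trans_lt ?_
    rw [Real.volume_Icc, Real.volume_Icc]
    exact ENNReal.add_lt_top.mpr ⟨ENNReal.ofReal_lt_top, ENNReal.ofReal_lt_top⟩
  set G1 : ℝ → ℝ := S.indicator (fun _ => c ^ 2) with hG1
  set G2 : ℝ → ℝ := fun t => ∑ ρ ∈ F, (c * (20 * M ^ (-(3/4) : ℝ)) * mx ρ) * wf (t - (ρ:ℂ).im) with hG2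
  have iG1 : Integrable G1 := by
    rw [hG1, integrable_indicator_iff hSm]
    exact integrableOn_const hSv.ne
  have iG2 : Integrable G2 := by
    apply integrable_finsetSum
    intro ρ _
    exact (wf_integrable.comp_sub_right _).const_mul _
  have hMp : 0 < M ^ (-(3/4) : ℝ) := Real.rpow_pos_of_pos (by linarith) _
  have hG10 : ∀ t, 0 ≤ G1 t := fun t => by
    rw [hG1]
    exact indicator_nonneg (fun _ _ => by positivity) t
  have hG20 : ∀ t, 0 ≤ G2 t := fun t => by
    rw [hG2]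
    refine Finset.sum_nonneg fun ρ _ => ?_
    have := mx_nonneg (ρ:ℂ)
    have := wf_nonneg (t - (ρ:ℂ).im)
    positivity
  have hpt : ∀ t ∈ (Icc a T)ᶜ, Yf F X t ^ 2 ≤ G1 t + G2 t := by
    intro t ht
    have hy := Yf_le_log hT hX hF t
    have hy0 := Yf_nonneg F hX0 t
    by_cases htS : t ∈ S
    · have e1 : G1 t = c ^ 2 := by rw [hG1]; exact indicator_of_mem htS _
      rw [e1]
      have := pow_le_pow_left₀ hy0 hy 2
      linarith [hG20 t]
    · have h2 : Yf F X t ^ 2 ≤ c * Yf F X t := by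
        rw [pow_two]; gcongr
      have h3 : c * Yf F X t ≤ G2 t := by
        unfold Yf
        rw [hG2]
        simp only
        rw [Finset.mul_sum]
        refine Finset.sum_le_sum fun ρ hρ => ?_
        obtain ⟨hg0, hgT⟩ := hF ρ hρ
        have hfar : M ≤ |t - (ρ:ℂ).im| := by
          rw [hS, mem_union, not_or] at htS
          obtain ⟨h4, h5⟩ := htS
          simp only [mem_Icc, not_and_or, not_le] at h4 h5
          rw [mem_compl_iff, mem_Icc, not_and_or, not_le, not_le] at ht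
          rw [le_abs]
          rcases ht with h | h
          · right
            rcases h4 with h4 | h4
            · linarith
            · linarith
          · left
            rcases h5 with h5 | h5
            · linarith
            · linarith
        have h6 := gs_zero_decay hX0 (t - (ρ:ℂ).im)
        have h7 := Kd_far hX hM hfar
        have := mx_nonneg (ρ:ℂ)
        calc c * (mx ρ * gs X 0 (t - (ρ:ℂ).im)) ≤ c * (mx ρ * (5 * (4 * M ^ (-(3/4) : ℝ) * wf (t - (ρ:ℂ).im)))) := by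
              gcongr
              exact h6.trans (by linarith)
          _ = _ := by ring
      linarith [hG10 t]
  have h1 : ∫ t in (Icc a T)ᶜ, Yf F X t ^ 2 ≤ ∫ t in (Icc a T)ᶜ, (G1 t + G2 t) := by
    apply setIntegral_mono_on (Yf_sq_integrable F hX).integrableOn (iG1.add iG2).integrableOn measurableSet_Icc.compl hpt
  have h2 : ∫ t in (Icc a T)ᶜ, (G1 t + G2 t) ≤ ∫ t, (G1 t + G2 t) :=
    setIntegral_le_integral (iG1.add iG2) (Eventually.of_forall fun t => add_nonneg (hG10 t) (hG20 t))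
  have h3 : ∫ t, (G1 t + G2 t) = (∫ t, G1 t) + ∫ t, G2 t := integral_add iG1 iG2
  have h4 : ∫ t, G1 t ≤ c ^ 2 * (a + 2 * M) := by
    rw [hG1, integral_indicator hSm, setIntegral_const, smul_eq_mul, mul_comm]
    have h5 : volume.real S ≤ a + 2 * M := by
      rw [hS]
      refine (measureReal_union_le _ _).trans ?_
      rw [Real.volume_real_Icc_of_le (by linarith), Real.volume_real_Icc_of_le (by linarith)]
      linarith
    gcongr
  have h5 : ∫ t, G2 t = 400 * CLA * Real.log T * M ^ (-(3/4) : ℝ) * (∑ ρ ∈ F, mx ρ) * C1 := by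
    rw [hG2, integral_finsetSum]
    · have e1 : ∀ ρ : ZS, ∫ t, (c * (20 * M ^ (-(3/4) : ℝ)) * mx ρ) * wf (t - (ρ:ℂ).im) = (c * (20 * M ^ (-(3/4) : ℝ)) * C1) * mx ρ := by
        intro ρ
        rw [integral_const_mul]
        have e2 : ∫ t, wf (t - (ρ:ℂ).im) = C1 := integral_sub_right_eq_self wf (ρ:ℂ).im
        rw [e2]
        ring
      simp_rw [e1]
      rw [← Finset.mul_sum, hc]
      ring
    · intro ρ _
      exact (wf_integrable.comp_sub_right _).const_mul _
  linarith

end Pool.Agent.Helper57.LH
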